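import Pool.Agent.Lib.MP_bf05b2_gt.H57Defs

/-! The toric variety of a fan, glued from the affine toric varieties of its cones. -/

namespace Pool.Agent.Lib.MP_bf05b2_gt

namespace Fan

variable {ι κ : Type} [Fintype ι] [DecidableEq ι] [Fintype κ] (F : Fan ι κ)

/-- The monoid of the lattice points of the dual cone. -/
def S (σ : Finset ι) : AddSubmonoid (κ → ℤ) where
  carrier := {m | ∀ x ∈ F.cone σ, 0 ≤ ∑ k, (m k : ℝ) * x k}
  zero_mem' := fun x _ => by simp
  add_mem' := fun {a b} ha hb x hx => by
    simpa [add_mul, Finset.sum_add_distrib] using add_nonneg (ha x hx) (hb x hx)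

/-- The complex points of the affine toric variety of a cone, the spectrum of the monoid algebra
of `S σ`. -/
def Aff (σ : Finset ι) : Type := AddMonoidAlgebra ℂ (F.S σ) →ₐ[ℂ] ℂ

/-- The classical topology: the coarsest one making all regular functions continuous. -/
noncomputable instance affTop (σ : Finset ι) : TopologicalSpace (F.Aff σ) :=
  TopologicalSpace.induced
    (fun (χ : AddMonoidAlgebra ℂ (F.S σ) →ₐ[ℂ] ℂ) (f : AddMonoidAlgebra ℂ (F.S σ)) => χ f)
    Pi.topologicalSpace

omit [Fintype ι] in
theorem S_anti {σ τ : Finset ι} (h : τ ⊆ σ) : F.S σ ≤ F.S τ := by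
  rintro m hm _ ⟨c, hc, rfl⟩
  refine hm _ ⟨fun i => if i ∈ τ then c i else 0, fun i => ?_, funext fun k => ?_⟩
  · dsimp only
    split_ifs
    exacts [hc i, le_rfl]
  · simp [Finset.inter_eq_right.2 h]

/-- The map of affine toric varieties attached to a face `τ` of `σ`. -/
noncomputable def res {σ τ : Finset ι} (h : τ ⊆ σ) (χ : F.Aff τ) : F.Aff σ :=
  AlgHom.comp χ (AddMonoidAlgebra.mapDomainAlgHom ℂ ℂ (AddSubmonoid.inclusion (F.S_anti h)))

/-- The toric variety of the fan: the affine toric varieties of the cones, glued along faces. -/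
def T : Type :=
  Quot fun a b : Σ σ : F.K, F.Aff σ => ∃ h : a.1.1 ⊆ b.1.1, b.2 = F.res h a.2

/-- The quotient topology of the disjoint union. -/
noncomputable instance tTop : TopologicalSpace F.T :=
  @instTopologicalSpaceQuot _ _ instTopologicalSpaceSigma

end Fan

end Pool.Agent.Lib.MP_bf05b2_gt
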