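import Pool.Agent.Lib.MP_bf05b2_gt.H57Fam

/-! First Chern cocycles of line bundles given by a division function on a principal bundle. -/

set_option linter.unusedSectionVars false

namespace Pool.Agent.Lib.MP_bf05b2_gt

open Set Finsupp Pool.Agent.Shared.Sing Pool.Agent.Shared.SingEZ

variable {P X P' X' : Type*} [TopologicalSpace P] [Nonempty P] [TopologicalSpace X] [Nonempty X]
  [TopologicalSpace P'] [Nonempty P'] [TopologicalSpace X'] [Nonempty X']

/-- Singular simplices lift along `π`. -/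
def Lf (π : P → X) : Prop := ∀ s : Sx X, ∃ s' : Sx P, s'.n = s.n ∧ EqOn (π ∘ s'.f) s.f (Δ s.n)

/-- A line bundle on `X`: a multiplicative division function on the fibres of `π`. -/
structure IsD (π : P → X) (d : P → P → ℂ) : Prop where
  cont : ContinuousOn (fun q : P × P => d q.1 q.2) {q | π q.1 = π q.2}
  refl : ∀ p, d p p = 1
  mul : ∀ p p' p'', π p = π p' → π p' = π p'' → d p p' * d p' p'' = d p p''

/-- A section of the line bundle `d`. -/
structure IsSec (π : P → X) (d : P → P → ℂ) (Φ : P → ℂ) : Prop where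
  cont : Continuous Φ
  eqv : ∀ p p', π p = π p' → Φ p = d p p' * Φ p'

/-- The increment of a function along the first edge of the standard simplex. -/
noncomputable def inc (g : V → ℂ) : ℂ := g (Pi.single 1 1) - g (Pi.single 0 1)

/-- `τ` is a Chern cocycle of `d`, relative to the set where the section `Φ` does not vanish. -/
def IsTau (π : P → X) (d : P → P → ℂ) (Φ : P → ℂ) (τ : Cc ℤ X) : Prop :=
  ∃ (θ : Cc ℤ P) (k : P → ℂ),
    (∀ p p', π p = π p' → Complex.exp (k p - k p') = d p p') ∧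
    (∀ p, Φ p ≠ 0 → Complex.exp (k p) = Φ p) ∧
    (∀ c ∈ In ℤ (univ : Set P) 3, τ (map π c) = θ (D c)) ∧
    (∀ s s' : Sx P, s.n = 2 → s'.n = 2 → EqOn (π ∘ s.f) (π ∘ s'.f) (Δ 2) → ∀ l : V → ℂ,
      ContinuousOn l (Δ 2) → (∀ t ∈ Δ 2, Complex.exp (l t) = d (s.f t) (s'.f t)) →
      2 * Real.pi * Complex.I * ((θ (single s 1) : ℤ) - (θ (single s' 1) : ℤ)) =
        inc l - inc (k ∘ s.f) + inc (k ∘ s'.f)) ∧
    ∀ s : Sx P, s.n = 2 → ∀ l : V → ℂ, ContinuousOn l (Δ 2) →
      (∀ t ∈ Δ 2, Complex.exp (l t) = Φ (s.f t)) →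
      2 * Real.pi * Complex.I * (θ (single s 1) : ℤ) = inc l - inc (k ∘ s.f)

/-- The set where a section does not vanish. -/
def Nz (π : P → X) (Φ : P → ℂ) : Set X := {x | ∀ p, π p = x → Φ p ≠ 0}

variable {π : P → X} {d d' : P → P → ℂ} {Φ Φ' : P → ℂ} {τ τ' : Cc ℤ X}

lemma ch_exists_glog {g : V → ℂ} (hg : Continuous g) (h0 : ∀ t, g t ≠ 0) :
    ∃ l : V → ℂ, Continuous l ∧ ∀ t, Complex.exp (l t) = g t := by
  obtain ⟨l, ⟨-, h⟩, -⟩ := Complex.isCoveringMapOn_exp.existsUnique_continuousMap_lifts ⟨g, hg⟩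
    (Complex.exp_log (h0 0)) h0
  exact ⟨l, l.continuous, congrFun h⟩

lemma exists_log {n : ℕ} {g : V → ℂ} (hg : ContinuousOn g (Δ n)) (h0 : ∀ t ∈ Δ n, g t ≠ 0) :
    ∃ l : V → ℂ, ContinuousOn l (Δ n) ∧ ∀ t ∈ Δ n, Complex.exp (l t) = g t := by
  by_cases hn : n = 0
  · exact ⟨0, continuousOn_const, fun t ht => by simp [hn, Δ_zero] at ht⟩
  obtain ⟨ρ, h1, h2, h3⟩ := exists_retr hn
  obtain ⟨l, hl, he⟩ := ch_exists_glog (hg.comp_continuous h1 h2) fun t => h0 _ (h2 t)
  exact ⟨l, hl.continuousOn, fun t ht => (he t).trans (congrArg g (h3 t ht))⟩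

lemma ch_inc_congr {g g' : V → ℂ} (h : EqOn g g' (Δ 2)) : inc g = inc g' := by
  rw [inc, inc, h (single_mem_Δ (by omega)), h (single_mem_Δ (by omega))]

lemma ch_inc_eq {l l' : V → ℂ} (hl : ContinuousOn l (Δ 2)) (hl' : ContinuousOn l' (Δ 2))
    (h : ∀ t ∈ Δ 2, Complex.exp (l t) = Complex.exp (l' t)) : inc l = inc l' := by
  have := Complex.isCoveringMap_exp.constOn_of_comp (convex_Δ 2).isPreconnected (hl.sub hl')
    (fun a ha b hb => Subtype.ext (by simp [Complex.exp_sub, h a ha, h b hb]))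
    (single_mem_Δ (i := 1) (by omega)) (single_mem_Δ (i := 0) (by omega))
  simp only [Pi.sub_apply] at this
  simp only [inc]
  linear_combination this

section edge

variable {W : Type*} [AddCommGroup W] [Module ℝ W] [TopologicalSpace W] [ContinuousAdd W]
  [ContinuousSMul ℝ W] {θ : Cc ℤ P} {k : P → ℂ} {F G : W → P} {L : W → ℂ}

lemma ch_inc_aff (g : W → ℂ) (v w : W) : inc (g ∘ aff [v, w]) = g w - g v := by
  simp [inc, aff_apply, Finset.sum_range_succ]

lemma ch_edge4 (h : ∀ s s' : Sx P, s.n = 2 → s'.n = 2 → EqOn (π ∘ s.f) (π ∘ s'.f) (Δ 2) →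
      ∀ l : V → ℂ, ContinuousOn l (Δ 2) → (∀ t ∈ Δ 2, Complex.exp (l t) = d (s.f t) (s'.f t)) →
      2 * Real.pi * Complex.I * ((θ (single s 1) : ℤ) - (θ (single s' 1) : ℤ)) =
        inc l - inc (k ∘ s.f) + inc (k ∘ s'.f)) (hF : Continuous F) (hG : Continuous G)
    (he : ∀ t, π (F t) = π (G t)) (hL : Continuous L) (hl : ∀ t, Complex.exp (L t) = d (F t) (G t))
    (v w : W) : 2 * Real.pi * Complex.I * ((θ (real F (single [v, w] 1)) : ℤ) -
      (θ (real G (single [v, w] 1)) : ℤ)) =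
        L w - L v - (k (F w) - k (F v)) + (k (G w) - k (G v)) := by
  have ha := continuous_aff [v, w]
  have e1 := mk_f (n := 2) (hF.comp ha).continuousOn
  have e2 := mk_f (n := 2) (hG.comp ha).continuousOn
  rw [real_single, real_single]
  refine (h (mk 2 (F ∘ aff [v, w])) (mk 2 (G ∘ aff [v, w])) rfl rfl (fun t ht => ?_) (L ∘ aff [v, w])
    (hL.comp ha).continuousOn fun t ht => ?_).trans ?_
  · simp only [Function.comp_apply, e1 ht, e2 ht, he]
  · simp only [Function.comp_apply, e1 ht, e2 ht, hl]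
  · rw [ch_inc_congr (g := k ∘ _) (g' := (k ∘ F) ∘ aff [v, w]) fun t ht => congrArg k (e1 ht),
      ch_inc_congr (g := k ∘ _) (g' := (k ∘ G) ∘ aff [v, w]) fun t ht => congrArg k (e2 ht)]
    simp only [ch_inc_aff, Function.comp_apply]

lemma ch_edge5 (h : ∀ s : Sx P, s.n = 2 → ∀ l : V → ℂ, ContinuousOn l (Δ 2) →
      (∀ t ∈ Δ 2, Complex.exp (l t) = Φ (s.f t)) →
      2 * Real.pi * Complex.I * (θ (single s 1) : ℤ) = inc l - inc (k ∘ s.f)) (hF : Continuous F)
    {K : Set W} (hK : Convex ℝ K) (hL : ContinuousOn L K)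
    (hl : ∀ t ∈ K, Complex.exp (L t) = Φ (F t)) {v w : W} (hv : v ∈ K) (hw : w ∈ K) :
    2 * Real.pi * Complex.I * (θ (real F (single [v, w] 1)) : ℤ) =
      L w - L v - (k (F w) - k (F v)) := by
  have hm : ∀ x ∈ [v, w], x ∈ K := by simp [hv, hw]
  have e1 := mk_f (n := 2) (hF.comp (continuous_aff [v, w])).continuousOn
  rw [real_single]
  refine (h (mk 2 (F ∘ aff [v, w])) rfl (L ∘ aff [v, w]) (cont_aff hK hL hm) fun t ht => ?_).trans ?_
  · rw [e1 ht]
    exact hl _ (aff_mem hK hm ht)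
  · rw [ch_inc_congr (g := k ∘ _) (g' := (k ∘ F) ∘ aff [v, w]) fun t ht => congrArg k (e1 ht)]
    simp only [ch_inc_aff, Function.comp_apply]

lemma ch_D_tri (hF : Continuous F) (θ : Cc ℤ P) (u v w : W) :
    θ (D (real F (single [u, v, w] 1))) = θ (real F (single [v, w] 1)) -
      θ (real F (single [u, w] 1)) + θ (real F (single [u, v] 1)) := by
  simp [D_glob hF, bdL, -real_single]
  ring

end edge

lemma ch_int_eq {a b : ℤ} (h : 2 * Real.pi * Complex.I * (a : ℂ) = 2 * Real.pi * Complex.I * b) :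
    a = b := by exact_mod_cast mul_left_cancel₀ Complex.two_pi_I_ne_zero h

lemma ch_int_ex {a b : ℂ} (h : Complex.exp a = Complex.exp b) :
    ∃ n : ℤ, 2 * Real.pi * Complex.I * (n : ℂ) = a - b :=
  (Complex.exp_eq_exp_iff_exists_int.1 h).imp fun n hn => by rw [hn]; ring

lemma Lf.ch_surj (hL : Lf π) (x : X) : ∃ p, π p = x := by
  obtain ⟨s, -, h⟩ := hL (mk 1 fun _ => x)
  exact ⟨_, (h (single_mem_Δ (i := 0) one_pos)).trans
    (mk_f continuousOn_const (single_mem_Δ one_pos))⟩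

lemma Lf.ch_eq (hL : Lf π) {A : Set X} {n : ℕ} {f g : Cc ℤ X} (h : ∀ F : V → P, Continuous F →
      (∀ t, π (F t) ∈ A) → ∀ l : List V, l.length = n + 1 →
      real F (single l (1 : ℤ)) ∈ In ℤ univ (n + 1) → f (map π (real F (single l 1))) = g (map π (real F (single l 1)))) {c : C ℤ X}
    (hc : c ∈ In ℤ A (n + 1)) : f c = g c := by
  refine map_eq (fun s hs => ?_) hc
  obtain ⟨s', h1, h2⟩ := hL s
  have : map π (single s' (1 : ℤ)) = single s 1 := by rw [map_single, h1, mk_eq s h2]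
  rw [← this]
  refine eq_In (A := π ⁻¹' A) (f := f ∘ₗ map π) (g := g ∘ₗ map π)
    (fun F hF hA l hl => h F hF hA l hl (hl ▸ glob_In hF (fun _ => mem_univ _) l))
    (single_mem ⟨h1.trans hs.1, fun t ht => ?_⟩)
  rw [h1] at ht
  exact mem_preimage.2 ((h2 ht).symm ▸ hs.2 ht : (π ∘ s'.f) t ∈ A)

lemma Lf.ch_desc (hL : Lf π) (hπ : Continuous π) {n : ℕ} (η : Cc ℤ P) (h : ∀ F G : V → P,
      Continuous F → Continuous G → (∀ t, π (F t) = π (G t)) → ∀ l : List V, l.length = n + 1 →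
      η (real F (single l 1)) = η (real G (single l 1))) :
    ∃ ψ : Cc ℤ X, ∀ c ∈ In ℤ univ (n + 1), ψ (map π c) = η c := by
  choose σ h1 h2 using hL
  obtain ⟨ρ, r1, r2, r3⟩ := exists_retr n.succ_ne_zero
  have key : ∀ s : Sx P, s.n = n + 1 → Continuous (s.f ∘ ρ) ∧
      single s (1 : ℤ) = real (s.f ∘ ρ) (single (std (n + 1)) 1) := fun s hs =>
    ⟨s.cont.comp_continuous r1 (hs ▸ r2), by
      rw [← real_std, hs]
      exact real_congr (convex_Δ _) (fun t ht => by simp [r3 t ht]) (std_Lin _)⟩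
  refine ⟨lc fun g => η (single (σ g) 1), fun c hc =>
    map_eq (F := lc (fun g => η (single (σ g) 1)) ∘ₗ map π) (fun s hs => ?_) hc⟩
  have hn := (h1 (mk s.n (π ∘ s.f))).trans hs.1
  rw [LinearMap.comp_apply, map_single, linearCombination_single, one_smul, (key _ hn).2,
    (key s hs.1).2]
  have ht : ∀ t, ρ t ∈ Δ s.n := hs.1 ▸ r2
  exact h _ _ (key _ hn).1 (key s hs.1).1
    (fun t => (h2 _ (ht t)).trans (mk_f (hπ.comp_continuousOn s.cont) (ht t))) _ (length_std _)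

lemma IsD.ch_ne (h : IsD π d) {p p' : P} (e : π p = π p') : d p p' ≠ 0 :=
  left_ne_zero_of_mul_eq_one ((h.mul p p' p e e.symm).trans (h.refl p))

lemma IsD.ch_log (h : IsD π d) {n : ℕ} {f g : V → P} (hf : ContinuousOn f (Δ n))
    (hg : ContinuousOn g (Δ n)) (e : EqOn (π ∘ f) (π ∘ g) (Δ n)) :
    ∃ l : V → ℂ, ContinuousOn l (Δ n) ∧ ∀ t ∈ Δ n, Complex.exp (l t) = d (f t) (g t) :=
  exists_log (h.cont.comp (hf.prodMk hg) fun _ ht => e ht) fun _ ht => h.ch_ne (e ht)

lemma IsD.ch_glog (h : IsD π d) {f g : V → P} (hf : Continuous f) (hg : Continuous g)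
    (e : ∀ t, π (f t) = π (g t)) :
    ∃ l : V → ℂ, Continuous l ∧ ∀ t, Complex.exp (l t) = d (f t) (g t) :=
  ch_exists_glog (h.cont.comp_continuous (hf.prodMk hg) e) fun t => h.ch_ne (e t)

lemma lf_id : Lf (id : X → X) := fun s => ⟨s, rfl, fun _ _ => rfl⟩

lemma isD_one : IsD π fun _ _ => 1 := ⟨continuousOn_const, fun _ => rfl, fun _ _ _ _ _ => mul_one _⟩

lemma IsD.prod (h : IsD π d) (h' : IsD π d') : IsD π fun p p' => d p p' * d' p p' :=
  ⟨h.cont.mul h'.cont, fun p => by rw [h.refl, h'.refl, mul_one], fun p p' p'' e e' => by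
    rw [mul_mul_mul_comm, h.mul p p' p'' e e', h'.mul p p' p'' e e']⟩

lemma IsD.zpow (h : IsD π d) (n : ℤ) : IsD π fun p p' => d p p' ^ n :=
  ⟨h.cont.zpow₀ n fun _ hq => Or.inl (h.ch_ne hq), fun p => by rw [h.refl, one_zpow],
    fun p p' p'' e e' => by rw [← mul_zpow, h.mul p p' p'' e e']⟩

lemma IsD.comp {π' : P' → X'} {F : P' → P} {f : X' → X} (h : IsD π d) (hF : Continuous F)
    (hc : ∀ p, π (F p) = f (π' p)) : IsD π' fun p p' => d (F p) (F p') := by
  have e : ∀ p p', π' p = π' p' → π (F p) = π (F p') := fun p p' e => by rw [hc, hc, e]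
  exact ⟨h.cont.comp (hF.prodMap hF).continuousOn fun q hq => e _ _ hq, fun p => h.refl _,
    fun p p' p'' e1 e2 => h.mul _ _ _ (e _ _ e1) (e _ _ e2)⟩

theorem exists_tau (hπ : Continuous π) (hL : Lf π) (hd : IsD π d) (hΦ : IsSec π d Φ) :
    ∃ τ, IsTau π d Φ τ := by
  choose q hq using hL.ch_surj
  obtain ⟨k, h1, h2⟩ : ∃ k : P → ℂ, (∀ p p', π p = π p' → Complex.exp (k p - k p') = d p p') ∧
      ∀ p, Φ p ≠ 0 → Complex.exp (k p) = Φ p := by
    refine ⟨fun p => Complex.log (d p (q (π p))) + Complex.log (Φ (q (π p))), fun p p' e => ?_,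
      fun p hp => ?_⟩
    · have n1 := hd.ch_ne (hq (π p')).symm
      dsimp only
      rw [e, add_sub_add_right_eq_sub, Complex.exp_sub, Complex.exp_log n1,
        Complex.exp_log (hd.ch_ne (e.trans (hq _).symm)), div_eq_iff n1, hd.mul _ _ _ e (hq _).symm]
    · rw [hΦ.eqv p _ (hq _).symm] at hp ⊢
      rw [Complex.exp_add, Complex.exp_log (left_ne_zero_of_mul hp),
        Complex.exp_log (right_ne_zero_of_mul hp)]
  have h1' : ∀ p p', π p = π p' → d p p' * Complex.exp (k p') = Complex.exp (k p) :=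
    fun p p' e => by rw [← h1 p p' e, ← Complex.exp_add, sub_add_cancel]
  obtain ⟨σ, s1, s2⟩ : ∃ σ : Sx X → Sx P, (∀ g, (σ g).n = g.n) ∧
      ∀ s : Sx P, EqOn (π ∘ s.f) (π ∘ (σ (mk s.n (π ∘ s.f))).f) (Δ s.n) := by
    choose σ s1 s2 using hL
    exact ⟨σ, s1, fun s t ht =>
      ((s2 (mk s.n (π ∘ s.f)) ht).trans (mk_f (hπ.comp_continuousOn s.cont) ht)).symm⟩
  choose L l1 l2 using fun s : Sx P => hd.ch_log s.cont
    (by simpa only [s1, mk_n] using (σ (mk s.n (π ∘ s.f))).cont) (s2 s)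
  have hb : ∀ g : Sx X, ∃ b : V → ℂ, (∀ t ∈ Δ g.n, Complex.exp (b t) = Complex.exp (k ((σ g).f t)))
      ∧ ((∀ t ∈ Δ g.n, Φ ((σ g).f t) ≠ 0) → ContinuousOn b (Δ g.n)) := fun g => by
    by_cases h : ∀ t ∈ Δ g.n, Φ ((σ g).f t) ≠ 0
    · obtain ⟨b, b1, b2⟩ := exists_log (hΦ.cont.comp_continuousOn (s1 g ▸ (σ g).cont)) h
      exact ⟨b, fun t ht => (b2 t ht).trans (h2 _ (h t ht)).symm, fun _ => b1⟩
    · exact ⟨_, fun _ _ => rfl, fun h' => absurd h' h⟩
  choose b b1 b2 using hb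
  have hm : ∀ s : Sx P, ∀ t ∈ Δ s.n, Complex.exp (L s t + b (mk s.n (π ∘ s.f)) t) =
      Complex.exp (k (s.f t)) := fun s t ht => by
    rw [Complex.exp_add, l2 s t ht, b1 _ t ht, h1' _ _ (s2 s ht)]
  have hN : ∀ s : Sx P, ∃ n : ℤ, s.n = 2 → 2 * Real.pi * Complex.I * (n : ℂ) =
      inc (L s) + inc (b (mk s.n (π ∘ s.f))) - inc (k ∘ s.f) := fun s => by
    by_cases hs : s.n = 2
    · obtain ⟨m, e0⟩ := ch_int_ex (hm s _ (single_mem_Δ (i := 0) (by omega)))
      obtain ⟨n, e1⟩ := ch_int_ex (hm s _ (single_mem_Δ (i := 1) (by omega)))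
      refine ⟨n - m, fun _ => ?_⟩
      simp only [inc, Function.comp_apply, Int.cast_sub]
      linear_combination e1 - e0
    · exact ⟨0, fun h => absurd h hs⟩
  choose N hN using hN
  have h4 : ∀ s s' : Sx P, s.n = 2 → s'.n = 2 → EqOn (π ∘ s.f) (π ∘ s'.f) (Δ 2) → ∀ l : V → ℂ,
      ContinuousOn l (Δ 2) → (∀ t ∈ Δ 2, Complex.exp (l t) = d (s.f t) (s'.f t)) →
      2 * Real.pi * Complex.I * (((lc N : Cc ℤ P) (single s 1) : ℤ) -
        ((lc N : Cc ℤ P) (single s' 1) : ℤ)) = inc l - inc (k ∘ s.f) + inc (k ∘ s'.f) := by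
    intro s s' hs hs' e l hl he
    have e1 : mk s.n (π ∘ s.f) = mk s'.n (π ∘ s'.f) := by rw [hs, hs', mk_congr e]
    have e2 := ch_inc_eq (hs ▸ l1 s) (hl.add (hs' ▸ l1 s')) fun t ht => by
      rw [Pi.add_apply, Complex.exp_add, he t ht, l2 s t (hs ▸ ht), l2 s' t (hs' ▸ ht), e1]
      exact (hd.mul _ _ _ (e ht) (s2 s' (hs' ▸ ht))).symm
    have e3 := hN s hs
    have e4 := hN s' hs'
    rw [e1] at e3
    simp only [linearCombination_single, one_smul, inc, Pi.add_apply] at e2 e3 e4 ⊢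
    linear_combination e3 - e4 + e2
  obtain ⟨τ, h3⟩ := hL.ch_desc hπ (n := 2) (lc N ∘ₗ D) fun F G hF hG e l hl => by
    obtain ⟨u, v, w, rfl⟩ := List.length_eq_three.1 hl
    obtain ⟨M, m1, m2⟩ := hd.ch_glog hF hG e
    refine ch_int_eq ?_
    simp only [LinearMap.comp_apply, ch_D_tri hF, ch_D_tri hG, Int.cast_add, Int.cast_sub]
    linear_combination ch_edge4 h4 hF hG e m1 m2 v w - ch_edge4 h4 hF hG e m1 m2 u w +
      ch_edge4 h4 hF hG e m1 m2 u v
  refine ⟨τ, lc N, k, h1, h2, h3, h4, fun s hs l hl he => ?_⟩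
  have n1 : ∀ t ∈ Δ 2, Φ (s.f t) ≠ 0 := fun t ht => he t ht ▸ Complex.exp_ne_zero _
  have e1 := ((l1 s).add (b2 (mk s.n (π ∘ s.f)) fun t ht => right_ne_zero_of_mul
    (hΦ.eqv _ _ (s2 s ht) ▸ n1 t (hs ▸ ht)))).mono (show Δ 2 ⊆ Δ s.n by rw [hs])
  have e2 := ch_inc_eq e1 hl fun t ht => by
    rw [he t ht, ← h2 _ (n1 t ht)]
    exact hm s t (hs ▸ ht)
  have e3 := hN s hs
  simp only [linearCombination_single, one_smul, inc, Pi.add_apply] at e2 e3 ⊢
  linear_combination e3 + e2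

theorem IsTau.cy (hπ : Continuous π) (hL : Lf π) (hΦ : Continuous Φ) (h : IsTau π d Φ τ) :
    Cy {univ} {Nz π Φ} 2 τ := by
  obtain ⟨θ, k, -, -, h3, -, h5⟩ := h
  refine ⟨fun c hc => hL.ch_eq (fun F _ _ l _ hc => ?_) (Ch'_single.le hc),
    fun c hc => hL.ch_eq (fun F hF hA l hl hc => ?_) (Ch'_single.le hc)⟩
  · rw [LinearMap.comp_apply, ← map_D' hπ, h3 _ (D_In hc), D_D, map_zero, LinearMap.zero_apply]
  · rw [h3 _ hc]
    obtain ⟨u, v, w, rfl⟩ := List.length_eq_three.1 hl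
    obtain ⟨M, m1, m2⟩ := ch_exists_glog (hΦ.comp hF) fun t => hA t _ rfl
    have e := fun v w : V => ch_edge5 h5 hF convex_univ m1.continuousOn (fun t _ => m2 t)
      (mem_univ v) (mem_univ w)
    refine ch_int_eq ?_
    simp only [ch_D_tri hF, Int.cast_add, Int.cast_sub, LinearMap.zero_apply, Int.cast_zero]
    linear_combination e v w - e u w + e u v

theorem IsTau.uniq (hπ : Continuous π) (hL : Lf π) (hd : IsD π d) (hΦ : Continuous Φ)
    (h : IsTau π d Φ τ) (h' : IsTau π d Φ τ') : Bo {univ} {Nz π Φ} 2 (τ - τ') := by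
  classical
  obtain ⟨θ, k, h1, h2, h3, h4, h5⟩ := h
  obtain ⟨θ', k', h1', h2', h3', h4', h5'⟩ := h'
  choose q hq using hL.ch_surj
  obtain ⟨y, y0, hy⟩ : ∃ y : X → ℂ, (∀ x ∈ Nz π Φ, y x = 0) ∧
      ∀ p, Complex.exp (k p - k' p) = Complex.exp (y (π p)) := by
    refine ⟨fun x => if x ∈ Nz π Φ then 0 else k (q x) - k' (q x), fun x hx => if_pos hx,
      fun p => ?_⟩
    dsimp only
    split_ifs with hp
    · rw [Complex.exp_sub, h2 p (hp p rfl), h2' p (hp p rfl), div_self (hp p rfl), Complex.exp_zero]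
    · rw [show k p - k' p = k p - k (q (π p)) - (k' p - k' (q (π p))) +
        (k (q (π p)) - k' (q (π p))) by ring, Complex.exp_add, Complex.exp_sub, h1 _ _ (hq _).symm,
        h1' _ _ (hq _).symm, div_self (hd.ch_ne (hq _).symm), one_mul]
  choose n hn using fun p => ch_int_ex (hy p)
  have hη : ∀ F : V → P, Continuous F → ∀ v w : V, (θ - θ' + pv n ∘ₗ D) (real F (single [v, w] 1))
      = θ (real F (single [v, w] 1)) - θ' (real F (single [v, w] 1)) + (n (F w) - n (F v)) :=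
    fun F hF v w => by simp [D_edge hF, -real_single]
  obtain ⟨ψ, hψ⟩ := hL.ch_desc hπ (n := 1) (θ - θ' + pv n ∘ₗ D) fun F G hF hG e l hl => by
    obtain ⟨v, w, rfl⟩ := List.length_eq_two.1 hl
    obtain ⟨M, m1, m2⟩ := hd.ch_glog hF hG e
    have e1 := hn (F v)
    have e2 := hn (F w)
    rw [e] at e1 e2
    refine ch_int_eq ?_
    simp only [hη F hF, hη G hG, Int.cast_add, Int.cast_sub]
    linear_combination ch_edge4 h4 hF hG e m1 m2 v w - ch_edge4 h4' hF hG e m1 m2 v w + e2 - e1 -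
      hn (G w) + hn (G v)
  refine ⟨ψ, fun c hc => hL.ch_eq (g := 0) (fun F hF hA l hl hc => ?_) (Ch'_single.le hc),
    fun c hc => hL.ch_eq (fun F _ _ l _ hc => ?_) (Ch'_single.le hc)⟩
  · rw [hψ _ hc]
    obtain ⟨v, w, rfl⟩ := List.length_eq_two.1 hl
    obtain ⟨M, m1, m2⟩ := ch_exists_glog (hΦ.comp hF) fun t => hA t _ rfl
    have e1 := hn (F v)
    have e2 := hn (F w)
    rw [y0 _ (hA _)] at e1 e2
    refine ch_int_eq ?_
    simp only [hη F hF, Int.cast_add, Int.cast_sub, LinearMap.zero_apply, Int.cast_zero]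
    linear_combination
      ch_edge5 h5 hF convex_univ m1.continuousOn (fun t _ => m2 t) (mem_univ v) (mem_univ w) -
      ch_edge5 h5' hF convex_univ m1.continuousOn (fun t _ => m2 t) (mem_univ v) (mem_univ w) + e2 - e1
  · rw [LinearMap.comp_apply, ← map_D' hπ, hψ _ (D_In hc), LinearMap.sub_apply, h3 _ hc, h3' _ hc]
    simp [-real_single]

lemma IsTau.congr (h : IsTau π d Φ τ) (hd : ∀ p p', π p = π p' → d p p' = d' p p') :
    IsTau π d' Φ τ := by
  obtain ⟨θ, k, h1, h2, h3, h4, h5⟩ := h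
  exact ⟨θ, k, fun p p' e => hd p p' e ▸ h1 p p' e, h2, h3, fun s s' hs hs' e l hl he =>
    h4 s s' hs hs' e l hl fun t ht => (he t ht).trans (hd _ _ (e ht)).symm, h5⟩

lemma IsTau.weak (h : IsTau π d Φ τ) : IsTau π d 0 τ := by
  obtain ⟨θ, k, h1, -, h3, h4, -⟩ := h
  exact ⟨θ, k, h1, fun _ h => absurd rfl h, h3, h4, fun s _ l _ he =>
    absurd (he _ (single_mem_Δ (i := 0) (by omega))) (Complex.exp_ne_zero _)⟩

lemma IsTau.pull {π' : P' → X'} {F : P' → P} {f : X' → X} (h : IsTau π d Φ τ)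
    (hπ' : Continuous π') (hF : Continuous F) (hf : Continuous f)
    (hc : ∀ p, π (F p) = f (π' p)) :
    IsTau π' (fun p p' => d (F p) (F p')) (Φ ∘ F) (pb f τ) := by
  obtain ⟨θ, k, h1, h2, h3, h4, h5⟩ := h
  have e : ∀ p p', π' p = π' p' → π (F p) = π (F p') := fun p p' e => by rw [hc, hc, e]
  have m : ∀ s : Sx P', s.n = 2 → EqOn (mk s.n (F ∘ s.f)).f (F ∘ s.f) (Δ 2) := fun s hs =>
    hs ▸ mk_f (hF.comp_continuousOn s.cont)
  have i : ∀ s : Sx P', s.n = 2 → inc ((k ∘ F) ∘ s.f) = inc (k ∘ (mk s.n (F ∘ s.f)).f) :=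
    fun s hs => ch_inc_congr fun t ht => congrArg k (m s hs ht).symm
  refine ⟨pb F θ, k ∘ F, fun p p' h => h1 _ _ (e _ _ h), fun p => h2 _, fun c hc' => ?_,
    fun s s' hs hs' ee l hl he => ?_, fun s hs l hl he => ?_⟩
  · simp only [pb, LinearMap.comp_apply]
    rw [map_map' hπ', ← show π ∘ F = f ∘ π' from funext hc, ← map_map' hF, h3 _ (map_In' hF hc'),
      map_D' hF]
  · simp only [pb, LinearMap.comp_apply, map_single, i s hs, i s' hs']
    refine h4 _ _ hs hs' (fun t ht => ?_) l hl fun t ht => ?_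
    · simpa only [Function.comp_apply, m s hs ht, m s' hs' ht] using e _ _ (ee ht)
    · simpa only [Function.comp_apply, m s hs ht, m s' hs' ht] using he t ht
  · simp only [pb, LinearMap.comp_apply, map_single, i s hs]
    exact h5 _ hs l hl fun t ht => by rw [m s hs ht]; exact he t ht

lemma isTau_zero : IsTau π (fun _ _ => 1) 0 0 :=
  ⟨0, 0, fun _ _ _ => by simp, fun _ h => absurd rfl h, fun _ _ => rfl, fun _ _ _ _ _ l hl he => by
    rw [ch_inc_eq hl (l' := 0) continuousOn_const (by simpa using he)]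
    simp [inc], fun s _ l _ he =>
    absurd (he _ (single_mem_Δ (i := 0) (by omega))) (Complex.exp_ne_zero _)⟩

lemma IsTau.plus (hd : IsD π d) (h : IsTau π d 0 τ) (h' : IsTau π d' 0 τ') :
    IsTau π (fun p p' => d p p' * d' p p') 0 (τ + τ') := by
  obtain ⟨θ, k, h1, -, h3, h4, -⟩ := h
  obtain ⟨θ', k', h1', -, h3', h4', -⟩ := h'
  refine ⟨θ + θ', k + k', fun p p' e => ?_, fun _ h => absurd rfl h,
    fun c hc => by simp [h3 c hc, h3' c hc], fun s s' hs hs' e l hl he => ?_, fun s _ l _ he =>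
      absurd (he _ (single_mem_Δ (i := 0) (by omega))) (Complex.exp_ne_zero _)⟩
  · dsimp only
    rw [← h1 p p' e, ← h1' p p' e, ← Complex.exp_add, Pi.add_apply, Pi.add_apply]
    congr 1
    ring
  · obtain ⟨m, m1, m2⟩ := hd.ch_log (hs ▸ s.cont) (hs' ▸ s'.cont) e
    have e1 := h4 s s' hs hs' e m m1 m2
    have e2 := h4' s s' hs hs' e (l - m) (hl.sub m1) fun t ht => by
      rw [Pi.sub_apply, Complex.exp_sub, he t ht, m2 t ht, mul_div_cancel_left₀ _ (hd.ch_ne (e ht))]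
    simp only [inc, Function.comp_apply, Pi.add_apply, Pi.sub_apply, LinearMap.add_apply,
      Int.cast_add] at e1 e2 ⊢
    linear_combination e1 + e2

lemma IsTau.zsmul (hd : IsD π d) (h : IsTau π d 0 τ) (n : ℤ) :
    IsTau π (fun p p' => d p p' ^ n) 0 (n • τ) := by
  obtain ⟨θ, k, h1, -, h3, h4, -⟩ := h
  refine ⟨n • θ, fun p => n * k p, fun p p' e => ?_, fun _ h => absurd rfl h,
    fun c hc => by simp [h3 c hc], fun s s' hs hs' e l hl he => ?_, fun s _ l _ he =>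
      absurd (he _ (single_mem_Δ (i := 0) (by omega))) (Complex.exp_ne_zero _)⟩
  · rw [← mul_sub, Complex.exp_int_mul, h1 p p' e]
  · obtain ⟨m, m1, m2⟩ := hd.ch_log (hs ▸ s.cont) (hs' ▸ s'.cont) e
    have e1 := h4 s s' hs hs' e m m1 m2
    have e2 := ch_inc_eq hl (l' := fun t => n * m t) (continuousOn_const.mul m1) fun t ht => by
      rw [he t ht, Complex.exp_int_mul, m2 t ht]
    simp only [inc, Function.comp_apply, LinearMap.smul_apply, smul_eq_mul, Int.cast_mul] at e1 e2 ⊢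
    linear_combination n * e1 - e2

theorem isTau_sum {J : Type*} (s : Finset J) {e : J → P → P → ℂ} {t : J → Cc ℤ X} (n : J → ℤ)
    (he : ∀ j, IsD π (e j)) (h : ∀ j, IsTau π (e j) 0 (t j)) :
    IsTau π (fun p p' => ∏ j ∈ s, e j p p' ^ n j) 0 (∑ j ∈ s, n j • t j) := by
  induction s using Finset.cons_induction with
  | empty => simpa using isTau_zero
  | cons j s hj ih =>
    simpa only [Finset.prod_cons, Finset.sum_cons] using
      ((h j).zsmul (he j) (n j)).plus ((he j).zpow (n j)) ih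

lemma isD_prod {J : Type*} (s : Finset J) {e : J → P → P → ℂ} (n : J → ℤ)
    (he : ∀ j, IsD π (e j)) : IsD π fun p p' => ∏ j ∈ s, e j p p' ^ n j := by
  induction s using Finset.cons_induction with
  | empty => simpa using isD_one
  | cons j s hj ih => simpa only [Finset.prod_cons] using ((he j).zpow (n j)).prod ih

/-- The value on a triangle around the origin. -/
theorem IsTau.tri {t : Cc ℤ ℂ} (h : IsTau id (fun _ _ => 1) id t) :
    t (real id (single [1, Complex.I, -1 - Complex.I] 1)) = 1 := by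
  obtain ⟨θ, k, -, -, h3, -, h5⟩ := h
  have hs : ∀ (b : ℝ) (z : ℂ), 0 < z.re + b * z.im → z ∈ Complex.slitPlane := fun b z hz =>
    Complex.mem_slitPlane_iff.2 (or_iff_not_imp_right.2 fun h => by simpa [not_not.1 h] using hz)
  have hK : ∀ a b : ℝ, Convex ℝ {z : ℂ | 0 < a * z.re + b * z.im} := fun a b =>
    convex_halfSpace_gt ⟨fun x y => by simp; ring, fun c x => by simp; ring⟩ 0
  have key : ∀ (b : ℝ) (v w : ℂ), 0 < 1 * v.re + b * v.im → 0 < 1 * w.re + b * w.im →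
      2 * Real.pi * Complex.I * (θ (real id (single [v, w] 1)) : ℤ) =
        Complex.log w - Complex.log v - (k w - k v) := fun b v w hv hw =>
    ch_edge5 h5 continuous_id (hK 1 b) (continuousOn_id.clog fun z hz => hs b z (by simpa using hz))
      (fun z hz => Complex.exp_log (Complex.slitPlane_ne_zero (hs b z (by simpa using hz)))) hv hw
  have e1 := key 1 1 Complex.I (by simp) (by simp)
  have e2 := key (-2) 1 (-1 - Complex.I) (by simp) (by norm_num)
  have e3 := ch_edge5 (L := fun z => Complex.log (-z) + Real.pi * Complex.I) h5 continuous_id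
    (hK (-1) (1 / 2)) ((continuousOn_id.neg.clog fun z hz => hs (-1 / 2) _ (by
      simp at hz ⊢; linarith)).add continuousOn_const) (fun z hz => by
      rw [Complex.exp_add, Complex.exp_pi_mul_I, Complex.exp_log
        (Complex.slitPlane_ne_zero (hs (-1 / 2) _ (by simp at hz ⊢; linarith)))]
      simp) (v := Complex.I) (w := -1 - Complex.I) (by simp) (by norm_num)
  have e4 : Complex.log (-(-1 - Complex.I)) = Complex.log (-1 - Complex.I) + Real.pi * Complex.I := by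
    rw [Complex.log, Complex.arg_neg_eq_arg_add_pi_of_im_neg (by simp), norm_neg, Complex.log]
    push_cast
    ring
  rw [← map_id' (real _ _), h3 _ (glob_In continuous_id (fun _ => mem_univ _) [_, _, _]), ch_D_tri continuous_id]
  refine ch_int_eq ?_
  simp only [e4, Complex.log_neg_I, Complex.log_I, Complex.log_one, id] at e1 e2 e3
  push_cast
  linear_combination e3 - e2 + e1

end Pool.Agent.Lib.MP_bf05b2_gt
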