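import Pool.Agent.Lib.MP_bf05b2_gt.H57Defs
import Pool.Agent.Lib.MP_bf05b2_gt.H57Chern

/-! Charts of toric varieties, lifting of simplices, divisor cocycles. -/

set_option linter.unusedSectionVars false

namespace Pool.Agent.Lib.MP_bf05b2_gt

open Set Finsupp Pool.Agent.Shared.Sing Pool.Agent.Shared.SingEZ

namespace Fan

variable {ι κ ι' κ' : Type} [Fintype ι] [DecidableEq ι] [Fintype κ] [DecidableEq κ] [Fintype ι']
  [DecidableEq ι'] [Fintype κ'] [DecidableEq κ'] (F : Fan ι κ)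

lemma one_mem_U : (1 : ι → ℂ) ∈ F.U := ⟨∅, F.zero_mem, fun _ _ => one_ne_zero⟩

instance uNe : Nonempty F.U := ⟨⟨1, F.one_mem_U⟩⟩

/-- The projection of the Cox quotient. -/
noncomputable def π : F.U → F.X := Quotient.mk F.rel

instance xNe : Nonempty F.X := ⟨F.π ⟨1, F.one_mem_U⟩⟩

open Classical in
/-- The class of a point, with a junk value outside `U`. -/
noncomputable def cl (z : ι → ℂ) : F.X :=
  if h : z ∈ F.U then F.π ⟨z, h⟩ else F.π ⟨1, F.one_mem_U⟩

/-- A function on the quotient given by its values on representatives. -/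
noncomputable def lf {Z : Type*} (h : (ι → ℂ) → Z) (x : F.X) : Z := h (Quotient.out x).1

/-- The complement of a toric divisor. -/
def nz (i : ι) : Set F.X := Nz F.π fun z => z.1 i

/-- The open set where only the coordinates in `ρ` may vanish. -/
def W (ρ : Finset ι) : Set F.X := {x | ∀ i ∉ ρ, x ∈ F.nz i}

/-- The Laurent monomial of a character. -/
noncomputable def mon (m : κ → ℤ) (z : ι → ℂ) : ℂ := ∏ i, z i ^ ∑ k, m k * F.v i k

/-- The rays `e k` form a basis with dual basis `M k` and span a cone. -/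
structure IsChart (e : κ → ι) (M : κ → κ → ℤ) : Prop where
  dual : ∀ k l, ∑ j, M k j * F.v (e l) j = if k = l then 1 else 0
  mem : Finset.univ.image e ∈ F.K

/-- Every cone lies in a unimodular cone of full dimension. -/
def Sm : Prop := ∀ σ ∈ F.K, ∃ e M, F.IsChart e M ∧ σ ⊆ Finset.univ.image e

/-- The point of `U` with the given chart coordinates. -/
noncomputable def sec (e : κ → ι) (w : κ → ℂ) : ι → ℂ := Function.extend e w 1

/-- The normalising element of `G`. -/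
noncomputable def nrm (e : κ → ι) (M : κ → κ → ℤ) (z : ι → ℂ) : ι → ℂ :=
  Function.extend e (fun k => ∏ i ∈ (Finset.univ.image e)ᶜ, z i ^ ∑ j, M k j * F.v i j) z⁻¹

open Classical in
/-- The element of `G` carrying `w` to `z`. -/
noncomputable def dv (z w : F.U) : ι → ℂ := if h : F.rel.r z w then h.choose else 1

open Classical in
/-- The relative cocycle of a toric divisor. -/
noncomputable def tau (i : ι) : Cc ℤ F.X :=
  if h : ∃ τ, IsTau F.π (fun z w => F.dv z w i) (fun z => z.1 i) τ then h.choose else 0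

/-- The cocycle of a toric divisor with coefficients in `R`. -/
noncomputable def tR (R : Type) [CommRing R] (i : ι) : Cc R F.X :=
  bc (Int.castRingHom R) (F.tau i)

variable {F} {z w g : ι → ℂ} {i : ι} {e : κ → ι} {M : κ → κ → ℤ}

lemma zpow_sum_ne {a : ℂ} (ha : a ≠ 0) {α : Type*} (s : Finset α) (f : α → ℤ) :
    a ^ (∑ k ∈ s, f k) = ∏ k ∈ s, a ^ f k := by
  classical
  induction s using Finset.induction_on with
  | empty => simp
  | insert b s hb ih => rw [Finset.sum_insert hb, Finset.prod_insert hb, zpow_add₀ ha, ih]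

lemma contOn_of_oqm {A B Z : Type*} [TopologicalSpace A] [TopologicalSpace B] [TopologicalSpace Z]
    {f : A → B} (hf : IsOpenQuotientMap f) {u : B → Z} {s : Set B}
    (h : ContinuousOn (u ∘ f) (f ⁻¹' s)) : ContinuousOn u s := by
  intro y hy
  obtain ⟨x, rfl⟩ := hf.surjective y
  have h1 : Filter.map f (nhdsWithin x (f ⁻¹' s)) = nhdsWithin (f x) s := by
    rw [nhdsWithin, nhdsWithin, ← hf.map_nhds_eq, Filter.map_inf_principal_preimage]
  have h2 := h x hy
  rw [ContinuousWithinAt, ← h1, Filter.tendsto_map'_iff]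
  exact h2

lemma π_eq_iff {z w : F.U} : F.π z = F.π w ↔ ∃ g ∈ F.G, z.1 = g * w.1 :=
  ⟨fun h => Quotient.exact h, fun h => Quotient.sound h⟩

lemma π_surj : Function.Surjective F.π := Quotient.mk_surjective

lemma mul_mem_U' (hg : ∀ i, g i ≠ 0) (hz : z ∈ F.U) : g * z ∈ F.U := by
  obtain ⟨σ, hσ, h⟩ := hz
  exact ⟨σ, hσ, fun i hi => mul_ne_zero (hg i) (h i hi)⟩

lemma continuous_π : Continuous F.π := continuous_quotient_mk'

lemma isOpenQuotientMap_π : IsOpenQuotientMap F.π := by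
  refine ⟨π_surj, continuous_π, fun O hO => ?_⟩
  have hq : Topology.IsQuotientMap F.π := isQuotientMap_quotient_mk'
  rw [← hq.isOpen_preimage]
  have : F.π ⁻¹' (F.π '' O) = ⋃ g : F.G,
      (fun z : F.U => (⟨g.1 * z.1, mul_mem_U' g.2.1 z.2⟩ : F.U)) ⁻¹' O := by
    ext z
    simp only [mem_preimage, mem_image, mem_iUnion]
    constructor
    · rintro ⟨w, hw, h⟩
      obtain ⟨g, hg, h⟩ := π_eq_iff.1 h
      refine ⟨⟨g, hg⟩, ?_⟩
      convert hw using 1
      exact Subtype.ext h.symm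
    · rintro ⟨g, hg⟩
      exact ⟨_, hg, π_eq_iff.2 ⟨g.1, g.2, rfl⟩⟩
  rw [this]
  refine isOpen_iUnion fun g => hO.preimage ?_
  exact (continuous_const.mul continuous_subtype_val).subtype_mk _

lemma isOpen_U : IsOpen F.U := by
  have : F.U = ⋃ σ ∈ F.K, ⋂ i ∈ {i | i ∉ σ}, {z : ι → ℂ | z i ≠ 0} := by
    ext z
    simp [U]
  rw [this]
  refine isOpen_biUnion fun σ _ => (toFinite _).isOpen_biInter fun i _ => ?_
  exact isOpen_ne_fun (continuous_apply i) continuous_const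

lemma mul_mem_U (hg : ∀ i, g i ≠ 0) (hz : z ∈ F.U) : g * z ∈ F.U := mul_mem_U' hg hz

lemma one_mem_G : (1 : ι → ℂ) ∈ F.G := ⟨fun _ => one_ne_zero, fun k => by simp⟩

lemma mul_mem_G {g' : ι → ℂ} (hg : g ∈ F.G) (hg' : g' ∈ F.G) : g * g' ∈ F.G := 
  ⟨fun i => mul_ne_zero (hg.1 i) (hg'.1 i), fun k => by
    simp only [Pi.mul_apply, mul_zpow, Finset.prod_mul_distrib, hg.2 k, hg'.2 k, one_mul]⟩

lemma inv_mem_G (hg : g ∈ F.G) : g⁻¹ ∈ F.G := 
  ⟨fun i => inv_ne_zero (hg.1 i), fun k => by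
    simp only [Pi.inv_apply, inv_zpow, Finset.prod_inv_distrib, hg.2 k, inv_one]⟩

lemma cl_π (z : F.U) : F.cl z.1 = F.π z := dif_pos z.2

lemma continuousOn_cl : ContinuousOn F.cl F.U := by
  rw [continuousOn_iff_continuous_domRestrict]
  have : F.U.domRestrict F.cl = F.π := funext fun z => cl_π z
  rw [this]
  exact continuous_π

lemma cl_surj (x : F.X) : ∃ z ∈ F.U, F.cl z = x := by
  obtain ⟨z, rfl⟩ := π_surj x
  exact ⟨z.1, z.2, cl_π z⟩

lemma cl_eq_iff (hz : z ∈ F.U) (hw : w ∈ F.U) : F.cl z = F.cl w ↔ ∃ g ∈ F.G, z = g * w := by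
  rw [cl_π ⟨z, hz⟩, cl_π ⟨w, hw⟩, π_eq_iff]

lemma cl_mul (hg : g ∈ F.G) (hz : z ∈ F.U) : F.cl (g * z) = F.cl z := 
  (cl_eq_iff (mul_mem_U hg.1 hz) hz).2 ⟨g, hg, rfl⟩

lemma lf_cl {Z : Type*} {h : (ι → ℂ) → Z} (hz : z ∈ F.U) (hh : ∀ g ∈ F.G, h (g * z) = h z) :
    F.lf h (F.cl z) = h z := by
  have h1 : F.π (Quotient.out (F.cl z)) = F.π ⟨z, hz⟩ := by
    rw [← cl_π ⟨z, hz⟩]
    exact Quotient.out_eq _
  obtain ⟨g, hg, h2⟩ := π_eq_iff.1 h1
  change h (Quotient.out (F.cl z)).1 = h z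
  rw [h2]
  exact hh g hg

lemma isOpen_iff {O : Set F.X} : IsOpen O ↔ IsOpen (F.U ∩ F.cl ⁻¹' O) := by
  rw [← isOpenQuotientMap_π.isQuotientMap.isOpen_preimage,
    isOpen_U.isOpenEmbedding_subtypeVal.isOpen_iff_image_isOpen]
  have : Subtype.val '' (F.π ⁻¹' O) = F.U ∩ F.cl ⁻¹' O := by
    ext z
    constructor
    · rintro ⟨w, hw, rfl⟩
      exact ⟨w.2, by rwa [mem_preimage, cl_π]⟩
    · rintro ⟨hz, h⟩
      exact ⟨⟨z, hz⟩, by rwa [mem_preimage, ← cl_π], rfl⟩
  rw [this]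

lemma continuousOn_lf {Z : Type*} [TopologicalSpace Z] {h : (ι → ℂ) → Z} {O : Set F.X}
    (hO : IsOpen O) (hc : ContinuousOn h (F.U ∩ F.cl ⁻¹' O))
    (hh : ∀ z ∈ F.U, F.cl z ∈ O → ∀ g ∈ F.G, h (g * z) = h z) : ContinuousOn (F.lf h) O := by
  refine contOn_of_oqm isOpenQuotientMap_π ?_
  have h1 : ContinuousOn (fun z : F.U => h z.1) (F.π ⁻¹' O) :=
    hc.comp continuous_subtype_val.continuousOn fun z hz =>
      ⟨z.2, by rwa [mem_preimage, cl_π]⟩
  refine h1.congr fun z hz => ?_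
  rw [Function.comp_apply, ← cl_π]
  exact lf_cl z.2 (hh z.1 z.2 (by rwa [cl_π]))

lemma continuous_lf {Z : Type*} [TopologicalSpace Z] {h : (ι → ℂ) → Z}
    (hc : ContinuousOn h F.U) (hh : ∀ z ∈ F.U, ∀ g ∈ F.G, h (g * z) = h z) :
    Continuous (F.lf h) := by
  rw [← continuousOn_univ]
  exact continuousOn_lf isOpen_univ (hc.mono inter_subset_left) fun z hz _ => hh z hz

/-- Continuity with a parameter. -/
lemma continuousOn_lf₂ {Z Q : Type*} [TopologicalSpace Z] [TopologicalSpace Q]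
    {h : (ι → ℂ) × Q → Z} {O : Set F.X} {A : Set Q} (hO : IsOpen O)
    (hc : ContinuousOn h ((F.U ∩ F.cl ⁻¹' O) ×ˢ A))
    (hh : ∀ z ∈ F.U, F.cl z ∈ O → ∀ g ∈ F.G, ∀ a ∈ A, h (g * z, a) = h (z, a)) :
    ContinuousOn (fun p : F.X × Q => F.lf (fun z => h (z, p.2)) p.1) (O ×ˢ A) := by
  refine contOn_of_oqm (isOpenQuotientMap_π.prodMap IsOpenQuotientMap.id) ?_
  have h1 : ContinuousOn (fun p : F.U × Q => h (p.1.1, p.2))
      (Prod.map F.π id ⁻¹' (O ×ˢ A)) :=
    hc.comp ((continuous_subtype_val.comp continuous_fst).prodMk continuous_snd).continuousOn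
      fun p hp => ⟨⟨p.1.2, by rw [mem_preimage, cl_π]; exact hp.1⟩, hp.2⟩
  refine h1.congr fun p hp => ?_
  change F.lf (fun z => h (z, p.2)) (F.π p.1) = h (p.1.1, p.2)
  rw [← cl_π]
  exact lf_cl (h := fun z => h (z, p.2)) p.1.2 fun g hg =>
    hh p.1.1 p.1.2 (by rw [cl_π]; exact hp.1) g hg p.2 hp.2

lemma cl_mem_nz (hz : z ∈ F.U) : F.cl z ∈ F.nz i ↔ z i ≠ 0 := by
  constructor
  · intro h
    exact h ⟨z, hz⟩ (cl_π ⟨z, hz⟩).symm
  · intro h p hp
    rw [cl_π ⟨z, hz⟩] at hp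
    obtain ⟨g, hg, h2⟩ := π_eq_iff.1 hp
    change p.1 i ≠ 0
    rw [h2]
    exact mul_ne_zero (hg.1 i) h

lemma isOpen_nz (i : ι) : IsOpen (F.nz i) := by
  rw [isOpen_iff]
  have : F.U ∩ F.cl ⁻¹' F.nz i = F.U ∩ {z | z i ≠ 0} := by
    ext z
    exact and_congr_right fun hz => cl_mem_nz hz
  rw [this]
  exact isOpen_U.inter (isOpen_ne_fun (continuous_apply i) continuous_const)

lemma isOpen_W (ρ : Finset ι) : IsOpen (F.W ρ) := by
  have : F.W ρ = ⋂ i ∈ {i | i ∉ ρ}, F.nz i := by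
    ext x
    simp [W]
  rw [this]
  exact (toFinite _).isOpen_biInter fun i _ => isOpen_nz i

lemma cl_mem_W {ρ : Finset ι} (hz : z ∈ F.U) : F.cl z ∈ F.W ρ ↔ ∀ i ∉ ρ, z i ≠ 0 := 
  forall₂_congr fun _ _ => cl_mem_nz hz

lemma W_compl (i : ι) : F.W {i}ᶜ = F.nz i := by
  ext x
  simp [W]

lemma mon_mul (m : κ → ℤ) (hg : g ∈ F.G) (z : ι → ℂ) : F.mon m (g * z) = F.mon m z := by
  have h1 : ∏ i, g i ^ ∑ k, m k * F.v i k = 1 := by
    simp only [zpow_sum_ne (hg.1 _)]
    rw [Finset.prod_comm]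
    refine Finset.prod_eq_one fun k _ => ?_
    simp only [mul_comm (m k), zpow_mul]
    rw [Finset.prod_zpow, hg.2 k, one_zpow]
  simp only [mon, Pi.mul_apply, mul_zpow, Finset.prod_mul_distrib, h1, one_mul]

lemma continuousOn_mon (m : κ → ℤ) :
    ContinuousOn (F.mon m) {z | ∀ i, ∑ k, m k * F.v i k < 0 → z i ≠ 0} := by
  refine continuousOn_finsetProd _ fun i _ => ?_
  refine (continuous_apply i).continuousOn.zpow₀ _ fun z hz => ?_
  rcases lt_or_ge (∑ k, m k * F.v i k) 0 with h | h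
  · exact Or.inl (hz i h)
  · exact Or.inr h

lemma IsChart.inj (h : F.IsChart e M) : Function.Injective e := by
  intro k l hkl
  have h1 := h.dual k k
  rw [hkl, h.dual k l, if_pos rfl] at h1
  by_contra hne
  rw [if_neg hne] at h1
  exact zero_ne_one h1

lemma IsChart.dual' (h : F.IsChart e M) (j j' : κ) :
    ∑ k, F.v (e k) j * M k j' = if j = j' then 1 else 0 := by
  have h1 : Matrix.of M * Matrix.of (fun j l => F.v (e l) j) = 1 := by
    ext k l
    rw [Matrix.mul_apply, Matrix.one_apply]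
    exact h.dual k l
  have h2 := mul_eq_one_comm.1 h1
  have h3 := congrFun (congrFun h2 j) j'
  rw [Matrix.mul_apply, Matrix.one_apply] at h3
  exact h3

lemma not_ex (hi : i ∉ Finset.univ.image e) : ¬∃ k, e k = i := fun ⟨k, hk⟩ =>
  hi (Finset.mem_image.2 ⟨k, Finset.mem_univ _, hk⟩)

lemma sec_not' (w : κ → ℂ) (hi : i ∉ Finset.univ.image e) : sec e w i = 1 :=
  Function.extend_apply' _ _ _ (not_ex hi)

lemma IsChart.prod_split (h : F.IsChart e M) (f : ι → ℂ) :
    ∏ i, f i = (∏ k, f (e k)) * ∏ i ∈ (Finset.univ.image e)ᶜ, f i := by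
  rw [← Finset.prod_mul_prod_compl (Finset.univ.image e),
    Finset.prod_image fun _ _ _ _ hh => h.inj hh]

lemma IsChart.mon_split (h : F.IsChart e M) (z : ι → ℂ) (k : κ) : F.mon (M k) z =
    z (e k) * ∏ i ∈ (Finset.univ.image e)ᶜ, z i ^ ∑ j, M k j * F.v i j := by
  rw [mon, h.prod_split, Finset.prod_eq_single k]
  · rw [h.dual, if_pos rfl, zpow_one]
  · intro l _ hl
    rw [h.dual, if_neg hl.symm, zpow_zero]
  · intro hk
    exact absurd (Finset.mem_univ k) hk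

lemma IsChart.nrm_e (h : F.IsChart e M) (z : ι → ℂ) (k : κ) : F.nrm e M z (e k) =
    ∏ i ∈ (Finset.univ.image e)ᶜ, z i ^ ∑ j, M k j * F.v i j :=
  h.inj.extend_apply _ _ k

lemma nrm_not (M : κ → κ → ℤ) (z : ι → ℂ) (hi : i ∉ Finset.univ.image e) :
    F.nrm e M z i = (z i)⁻¹ :=
  Function.extend_apply' _ _ _ (not_ex hi)

lemma mem_or_not (e : κ → ι) (i : ι) : (∃ k, e k = i) ∨ i ∉ Finset.univ.image e := by
  by_cases hi : i ∈ Finset.univ.image e
  · obtain ⟨k, -, hk⟩ := Finset.mem_image.1 hi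
    exact Or.inl ⟨k, hk⟩
  · exact Or.inr hi

lemma IsChart.sec_mem (h : F.IsChart e M) (w : κ → ℂ) : sec e w ∈ F.U := 
  ⟨_, h.mem, fun i hi => by rw [sec_not' w hi]; exact one_ne_zero⟩

lemma IsChart.sec_e (h : F.IsChart e M) (w : κ → ℂ) (k : κ) : sec e w (e k) = w k := 
  h.inj.extend_apply _ _ k

lemma sec_not (w : κ → ℂ) (hi : i ∉ Finset.univ.image e) : sec e w i = 1 := sec_not' w hi

lemma continuous_sec (e : κ → ι) : Continuous (sec e) := by
  classical
  refine continuous_pi fun i => ?_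
  simp only [sec, Function.extend_def]
  split_ifs
  · exact continuous_apply _
  · exact continuous_const

lemma IsChart.mon_sec (h : F.IsChart e M) (w : κ → ℂ) (k : κ) : F.mon (M k) (sec e w) = w k := by
  rw [h.mon_split, h.sec_e, Finset.prod_eq_one, mul_one]
  intro i hi
  rw [sec_not w (Finset.mem_compl.1 hi), one_zpow]

lemma IsChart.nrm_mem (h : F.IsChart e M) (hz : ∀ i ∉ Finset.univ.image e, z i ≠ 0) :
    F.nrm e M z ∈ F.G := by
  refine ⟨fun i => ?_, fun j => ?_⟩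
  · rcases mem_or_not e i with ⟨k, rfl⟩ | hi
    · rw [h.nrm_e]
      exact Finset.prod_ne_zero_iff.2 fun i hi => zpow_ne_zero _ (hz i (Finset.mem_compl.1 hi))
    · rw [nrm_not M z hi]
      exact inv_ne_zero (hz i hi)
  · rw [h.prod_split]
    simp only [h.nrm_e, ← Finset.prod_zpow]
    rw [Finset.prod_comm, ← Finset.prod_mul_distrib]
    refine Finset.prod_eq_one fun i hi => ?_
    have hi' := Finset.mem_compl.1 hi
    simp only [← zpow_mul]
    rw [← zpow_sum_ne (hz i hi'), nrm_not M z hi']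
    have : ∑ k, (∑ j', M k j' * F.v i j') * F.v (e k) j = F.v i j := by
      simp only [Finset.sum_mul]
      rw [Finset.sum_comm]
      have h1 : ∀ j', ∑ k, M k j' * F.v i j' * F.v (e k) j =
          (if j = j' then 1 else 0) * F.v i j' := fun j' => by
        rw [← h.dual' j j', Finset.sum_mul]
        exact Finset.sum_congr rfl fun k _ => by ring
      simp only [h1]
      simp
    rw [this, inv_zpow, mul_inv_cancel₀ (zpow_ne_zero _ (hz i hi'))]

lemma IsChart.nrm_mul (h : F.IsChart e M) (hz : ∀ i ∉ Finset.univ.image e, z i ≠ 0) :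
    F.nrm e M z * z = sec e fun k => F.mon (M k) z := by
  ext i
  rcases mem_or_not e i with ⟨k, rfl⟩ | hi
  · rw [Pi.mul_apply, h.nrm_e, h.sec_e, h.mon_split, mul_comm]
  · rw [Pi.mul_apply, nrm_not M z hi, sec_not _ hi, inv_mul_cancel₀ (hz i hi)]

lemma continuousOn_nrm (e : κ → ι) (M : κ → κ → ℤ) :
    ContinuousOn (F.nrm e M) {z | ∀ i ∉ Finset.univ.image e, z i ≠ 0} := by
  classical
  refine continuousOn_pi.2 fun i => ?_
  rcases mem_or_not e i with hi | hi
  · simp only [nrm, Function.extend_def, dif_pos hi]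
    refine continuousOn_finsetProd _ fun i' hi' => ?_
    exact (continuous_apply i').continuousOn.zpow₀ _ fun z hz =>
      Or.inl (hz i' (Finset.mem_compl.1 hi'))
  · simp only [nrm_not M _ hi]
    exact (continuous_apply i).continuousOn.inv₀ fun z hz => hz i hi

/-- An element of `G` is determined by its coordinates outside a chart. -/
lemma IsChart.eq_of_G (h : F.IsChart e M) {g' : ι → ℂ} (hg : g ∈ F.G) (hg' : g' ∈ F.G)
    (hi : ∀ i ∉ Finset.univ.image e, g i = g' i) : g = g' := by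
  ext i
  rcases mem_or_not e i with ⟨k, rfl⟩ | hi'
  · have h1 := mon_mul (M k) hg 1
    rw [← mon_mul (M k) hg' 1, mul_one, mul_one, h.mon_split, h.mon_split] at h1
    have h2 : ∏ i ∈ (Finset.univ.image e)ᶜ, g i ^ ∑ j, M k j * F.v i j =
        ∏ i ∈ (Finset.univ.image e)ᶜ, g' i ^ ∑ j, M k j * F.v i j :=
      Finset.prod_congr rfl fun i hi' => by rw [hi i (Finset.mem_compl.1 hi')]
    rw [h2] at h1
    exact mul_right_cancel₀ (Finset.prod_ne_zero_iff.2 fun i _ => zpow_ne_zero _ (hg'.1 i)) h1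
  · exact hi i hi'

variable (F) in
/-- The parametrisation of a chart. -/
noncomputable def ψ (e : κ → ι) (w : κ → ℂ) : F.X := F.cl (sec e w)

variable (F) in
/-- The coordinates of a chart. -/
noncomputable def φ (M : κ → κ → ℤ) : F.X → κ → ℂ := F.lf fun z k => F.mon (M k) z

lemma φ_cl (M : κ → κ → ℤ) (hz : z ∈ F.U) (k : κ) : F.φ M (F.cl z) k = F.mon (M k) z := 
  congrFun (lf_cl (h := fun z k => F.mon (M k) z) hz fun _ hg =>
    funext fun k => mon_mul (M k) hg z) k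

lemma IsChart.continuous_ψ (h : F.IsChart e M) : Continuous (F.ψ e) := 
  continuousOn_cl.comp_continuous (continuous_sec e) h.sec_mem

lemma IsChart.continuousOn_φ (h : F.IsChart e M) :
    ContinuousOn (F.φ M) (F.W (Finset.univ.image e)) := by
  refine continuousOn_lf (isOpen_W _) (continuousOn_pi.2 fun k => ?_)
    fun z _ _ g hg => funext fun k => mon_mul (M k) hg z
  refine (continuousOn_mon (M k)).mono fun z hz i hi => ?_
  rcases mem_or_not e i with ⟨l, rfl⟩ | hi'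
  · rw [h.dual] at hi
    split_ifs at hi <;> omega
  · exact (cl_mem_W hz.1).1 hz.2 i hi'

lemma IsChart.φ_ψ (h : F.IsChart e M) (w : κ → ℂ) : F.φ M (F.ψ e w) = w := 
  funext fun k => (φ_cl M (h.sec_mem w) k).trans (h.mon_sec w k)

lemma IsChart.ψ_φ (h : F.IsChart e M) {x : F.X} (hx : x ∈ F.W (Finset.univ.image e)) :
    F.ψ e (F.φ M x) = x := by
  obtain ⟨z, hz, rfl⟩ := cl_surj x
  have h1 := (cl_mem_W hz).1 hx
  have h2 : F.φ M (F.cl z) = fun k => F.mon (M k) z := funext (φ_cl M hz)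
  rw [ψ, h2, ← h.nrm_mul h1, cl_mul (h.nrm_mem h1) hz]

lemma IsChart.ψ_mem (h : F.IsChart e M) (w : κ → ℂ) : F.ψ e w ∈ F.W (Finset.univ.image e) := 
  (cl_mem_W (h.sec_mem w)).2 fun i hi => by rw [sec_not w hi]; exact one_ne_zero

lemma IsChart.ψ_mem_nz (h : F.IsChart e M) (w : κ → ℂ) (k : κ) :
    F.ψ e w ∈ F.nz (e k) ↔ w k ≠ 0 := by
  rw [ψ, cl_mem_nz (h.sec_mem w), h.sec_e]

lemma Sm.exists_chart (h : F.Sm) (x : F.X) :
    ∃ e M, F.IsChart e M ∧ x ∈ F.W (Finset.univ.image e) := by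
  obtain ⟨z, hz, rfl⟩ := cl_surj x
  obtain ⟨σ, hσ, h1⟩ := id hz
  obtain ⟨e, M, hc, hs⟩ := h σ hσ
  exact ⟨e, M, hc, (cl_mem_W hz).2 fun i hi => h1 i fun hi' => hi (hs hi')⟩

lemma dv_spec {z w : F.U} (h : F.π z = F.π w) : F.dv z w ∈ F.G ∧ z.1 = F.dv z w * w.1 := by
  have h1 : F.rel.r z w := Quotient.exact h
  rw [dv, dif_pos h1]
  exact h1.choose_spec

lemma Sm.dv_eq (h : F.Sm) {z w : F.U} (hg : g ∈ F.G) (hz : z.1 = g * w.1) : F.dv z w = g := by
  obtain ⟨h1, h2⟩ := dv_spec (π_eq_iff.2 ⟨g, hg, hz⟩)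
  obtain ⟨e, M, hc, hw⟩ := h.exists_chart (F.cl w.1)
  refine hc.eq_of_G h1 hg fun i hi => ?_
  have h3 := congrFun (h2.symm.trans hz) i
  exact mul_right_cancel₀ ((cl_mem_W w.2).1 hw i hi) h3

theorem Sm.isD (h : F.Sm) (i : ι) : IsD F.π fun z w => F.dv z w i := by
  refine ⟨fun q hq => ?_, fun p => ?_, fun p p' p'' h1 h2 => ?_⟩
  · obtain ⟨e, M, hc, hw⟩ := h.exists_chart (F.π q.2)
    have hN : IsOpen {q : F.U × F.U | F.π q.2 ∈ F.W (Finset.univ.image e)} :=
      (isOpen_W _).preimage (continuous_π.comp continuous_snd)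
    have hz : ∀ p ∈ {q : F.U × F.U | F.π q.1 = F.π q.2} ∩
        {q : F.U × F.U | F.π q.2 ∈ F.W (Finset.univ.image e)},
        (∀ i ∉ Finset.univ.image e, p.1.1 i ≠ 0) ∧ ∀ i ∉ Finset.univ.image e, p.2.1 i ≠ 0 :=
      fun p hp => ⟨(cl_mem_W p.1.2).1 (by rw [cl_π, hp.1]; exact hp.2),
        (cl_mem_W p.2.2).1 (by rw [cl_π]; exact hp.2)⟩
    have h1 : ContinuousOn (fun p : F.U × F.U => (F.nrm e M p.1.1 i)⁻¹ * F.nrm e M p.2.1 i)
        ({q : F.U × F.U | F.π q.1 = F.π q.2} ∩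
          {q : F.U × F.U | F.π q.2 ∈ F.W (Finset.univ.image e)}) := by
      refine ContinuousOn.mul (ContinuousOn.inv₀ ?_ fun p hp => (hc.nrm_mem (hz p hp).1).1 i) ?_
      · exact (continuousOn_pi.1 (continuousOn_nrm e M) i).comp
          (continuous_subtype_val.comp continuous_fst).continuousOn fun p hp => (hz p hp).1
      · exact (continuousOn_pi.1 (continuousOn_nrm e M) i).comp
          (continuous_subtype_val.comp continuous_snd).continuousOn fun p hp => (hz p hp).2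
    have h2 := h1.congr (g := fun p : F.U × F.U => F.dv p.1 p.2 i) fun p hp => by
      obtain ⟨a1, a2⟩ := hz p hp
      obtain ⟨g, hg, hp'⟩ := π_eq_iff.1 hp.1
      have b1 := hc.nrm_mem a1
      have b2 : F.nrm e M p.1.1 * p.1.1 = F.nrm e M p.2.1 * p.2.1 := by
        rw [hc.nrm_mul a1, hc.nrm_mul a2, hp']
        simp only [mon_mul _ hg]
      have b3 : p.1.1 = (F.nrm e M p.1.1)⁻¹ * F.nrm e M p.2.1 * p.2.1 := by
        rw [mul_assoc, ← b2]
        ext j
        simp [b1.1 j]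
      exact congrFun (h.dv_eq (mul_mem_G (inv_mem_G b1) (hc.nrm_mem a2)) b3) i
    exact (h2 q ⟨hq, hw⟩).mono_of_mem_nhdsWithin (inter_mem_nhdsWithin _ (hN.mem_nhds hw))
  · exact congrFun (h.dv_eq one_mem_G (one_mul _).symm) i
  · obtain ⟨a1, a2⟩ := dv_spec h1
    obtain ⟨b1, b2⟩ := dv_spec h2
    have := h.dv_eq (z := p) (w := p'') (mul_mem_G a1 b1) (by rw [mul_assoc, ← b2, ← a2])
    exact (congrFun this i).symm

end Fan

end Pool.Agent.Lib.MP_bf05b2_gt
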