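import Pool.Agent.Lib.MP_bf05b2_gt.H24Defs
import Pool.Agent.Lib.MP_bf05b2_gt.H57Tor
import Pool.Agent.Shared.Sing.StdBasic

/-! The glued toric variety is homeomorphic to the Cox quotient. -/

set_option linter.unusedSectionVars false

namespace Pool.Agent.Lib.MP_bf05b2_gt

open Set

namespace Fan

open AddMonoidAlgebra

variable {ι κ : Type} [Fintype ι] [DecidableEq ι] [Fintype κ] [DecidableEq κ] {F : Fan ι κ}
  {σ τ : Finset ι} {z w g : ι → ℂ} {e : κ → ι} {M : κ → κ → ℤ} {m m' : κ → ℤ}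

lemma mem_S : m ∈ F.S σ ↔ ∀ i ∈ σ, 0 ≤ ∑ k, m k * F.v i k := by
  constructor
  · intro h i hi
    have h1 := h (fun k => (F.v i k : ℝ)) ⟨Pi.single i 1, fun j => by
      rw [Pi.single_apply]; split_ifs <;> norm_num, funext fun k => by
      rw [Finset.sum_eq_single i (fun j _ hj => by simp [hj]) fun h' => absurd hi h']
      simp⟩
    exact_mod_cast h1
  · rintro h _ ⟨c, hc, rfl⟩
    simp only [Finset.mul_sum]
    rw [Finset.sum_comm]
    refine Finset.sum_nonneg fun i hi => ?_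
    have h1 : (0 : ℝ) ≤ ∑ k, (m k : ℝ) * F.v i k := by exact_mod_cast h i hi
    have h2 := mul_nonneg (hc i) h1
    rw [Finset.mul_sum] at h2
    exact h2.trans_eq (Finset.sum_congr rfl fun k _ => by ring)

lemma mon_zero (z : ι → ℂ) : F.mon 0 z = 1 := by simp [mon]

lemma mon_add (hz : ∀ i ∉ σ, z i ≠ 0) (hm : m ∈ F.S σ) (hm' : m' ∈ F.S σ) :
    F.mon (m + m') z = F.mon m z * F.mon m' z := by
  simp only [mon, ← Finset.prod_mul_distrib, Pi.add_apply, add_mul, Finset.sum_add_distrib]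
  refine Finset.prod_congr rfl fun i _ => ?_
  by_cases hi : i ∈ σ
  · obtain ⟨a, ha⟩ := Int.eq_ofNat_of_zero_le (mem_S.1 hm i hi)
    obtain ⟨b, hb⟩ := Int.eq_ofNat_of_zero_le (mem_S.1 hm' i hi)
    rw [ha, hb, ← Nat.cast_add, zpow_natCast, zpow_natCast, zpow_natCast, pow_add]
  · exact zpow_add₀ (hz i hi) _ _

/-- The value of a point at a monomial. -/
noncomputable def val (χ : F.Aff σ) (m : F.S σ) : ℂ :=
  DFunLike.coe (F := AddMonoidAlgebra ℂ (F.S σ) →ₐ[ℂ] ℂ) χ (single m 1)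

lemma val_zero (χ : F.Aff σ) : val χ 0 = 1 :=
  map_one (F := AddMonoidAlgebra ℂ (F.S σ) →ₐ[ℂ] ℂ) χ

lemma val_add (χ : F.Aff σ) (a b : F.S σ) : val χ (a + b) = val χ a * val χ b := by
  rw [val, val, val, ← map_mul, single_mul_single, mul_one]

lemma val_ext {χ χ' : F.Aff σ} (h : ∀ m, val χ m = val χ' m) : χ = χ' :=
  AddMonoidAlgebra.algHom_ext h (Subsingleton.elim _ _)

lemma val_res (h : τ ⊆ σ) (χ : F.Aff τ) (m : F.S σ) :
    val (F.res h χ) m = val χ ⟨m.1, F.S_anti h m.2⟩ := by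
  change DFunLike.coe (F := AddMonoidAlgebra ℂ (F.S τ) →ₐ[ℂ] ℂ) χ
    (mapDomain (AddSubmonoid.inclusion (F.S_anti h)) (single m 1)) = _
  rw [mapDomain_single]
  rfl

lemma continuous_val (m : F.S σ) : Continuous fun χ : F.Aff σ => val χ m :=
  (continuous_apply (single m 1)).comp continuous_induced_dom

lemma continuous_aff {Z : Type} [TopologicalSpace Z] {f : Z → F.Aff σ}
    (h : ∀ m, Continuous fun x => val (f x) m) : Continuous f := by
  refine continuous_induced_rng.2 (continuous_pi fun a => ?_)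
  exact (continuous_finsetSum a.coeff.support fun m _ => (h m).const_smul (a.coeff m)).congr
    fun x => (AddMonoidAlgebra.lift_unique (f x) a).symm

variable (F) in
/-- The point of the affine toric variety given by homogeneous coordinates. -/
noncomputable def chi (σ : Finset ι) (z : ι → ℂ) (hz : ∀ i ∉ σ, z i ≠ 0) : F.Aff σ :=
  AddMonoidAlgebra.lift ℂ ℂ (F.S σ)
    { toFun := fun m => F.mon m.toAdd.1 z
      map_one' := mon_zero z
      map_mul' := fun a b => mon_add hz a.toAdd.2 b.toAdd.2 }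

lemma val_chi (hz : ∀ i ∉ σ, z i ≠ 0) (m : F.S σ) : val (F.chi σ z hz) m = F.mon m.1 z :=
  (AddMonoidAlgebra.lift_single _ m 1).trans (one_smul _ _)

lemma IsChart.mem_S (h : F.IsChart e M) (hσ : σ ⊆ Finset.univ.image e) (k : κ) :
    M k ∈ F.S σ := Fan.mem_S.2 fun i hi => by
  obtain ⟨l, -, rfl⟩ := Finset.mem_image.1 (hσ hi)
  rw [h.dual]
  split_ifs <;> norm_num

lemma IsChart.neg_mem_S (h : F.IsChart e M) (hσ : σ ⊆ Finset.univ.image e) {k : κ}
    (hk : e k ∉ σ) : -M k ∈ F.S σ := Fan.mem_S.2 fun i hi => by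
  obtain ⟨l, -, rfl⟩ := Finset.mem_image.1 (hσ hi)
  simp only [Pi.neg_apply, neg_mul, Finset.sum_neg_distrib]
  rw [h.dual, if_neg fun e' : k = l => hk (e' ▸ hi), neg_zero]

lemma IsChart.expandS (h : F.IsChart e M) (m : κ → ℤ) :
    m = ∑ k, (∑ j, m j * F.v (e k) j) • M k := by
  funext j'
  simp only [Finset.sum_apply, Pi.smul_apply, smul_eq_mul, Finset.sum_mul]
  rw [Finset.sum_comm]
  simp only [mul_assoc, ← Finset.mul_sum, h.dual']
  simp

/-- Every point of an affine toric variety has homogeneous coordinates. -/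
lemma IsChart.exists_chi (h : F.IsChart e M) (hσ : σ ⊆ Finset.univ.image e) (χ : F.Aff σ) :
    ∃ z hz, χ = F.chi σ z hz := by
  let z := sec e fun k => val χ ⟨M k, h.mem_S hσ k⟩
  have h1 : ∀ k (hk : e k ∉ σ),
      val χ ⟨M k, h.mem_S hσ k⟩ * val χ ⟨-M k, h.neg_mem_S hσ hk⟩ = 1 := fun k hk => by
    rw [← val_add, ← val_zero χ]
    congr 1
    exact Subtype.ext (add_neg_cancel _)
  have hz : ∀ i ∉ σ, z i ≠ 0 := fun i hi => by
    rcases mem_or_not e i with ⟨k, rfl⟩ | hi'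
    · rw [show z (e k) = _ from h.sec_e _ k]
      exact left_ne_zero_of_mul_eq_one (h1 k hi)
    · rw [show z i = 1 from sec_not _ hi']
      exact one_ne_zero
  let P : AddSubmonoid (κ → ℤ) :=
    { carrier := {m | ∃ hm : m ∈ F.S σ, val χ ⟨m, hm⟩ = F.mon m z}
      zero_mem' := ⟨(F.S σ).zero_mem, (val_zero χ).trans (mon_zero z).symm⟩
      add_mem' := fun {a b} ⟨ha, ea⟩ ⟨hb, eb⟩ => ⟨add_mem ha hb, by
        rw [mon_add hz ha hb, ← ea, ← eb, ← val_add]; rfl⟩ }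
  have h2 : ∀ k, M k ∈ P := fun k => ⟨h.mem_S hσ k,
    (h.mon_sec (fun k => val χ ⟨M k, h.mem_S hσ k⟩) k).symm⟩
  have h3 : ∀ k, e k ∉ σ → -M k ∈ P := fun k hk => ⟨h.neg_mem_S hσ hk, by
    have e1 := mon_add hz (h.mem_S hσ k) (h.neg_mem_S hσ hk)
    rw [add_neg_cancel, mon_zero, ← (h2 k).2, ← h1 k hk] at e1
    exact mul_left_cancel₀ (left_ne_zero_of_mul_eq_one (h1 k hk)) e1⟩
  refine ⟨z, hz, val_ext fun m => ?_⟩
  have h4 : m.1 ∈ P := by
    rw [h.expandS m.1]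
    refine sum_mem fun k _ => ?_
    rcases le_or_gt 0 (∑ j, m.1 j * F.v (e k) j) with h0 | h0
    · obtain ⟨a, ha⟩ := Int.eq_ofNat_of_zero_le h0
      rw [ha, natCast_zsmul]
      exact nsmul_mem (h2 k) a
    · obtain ⟨a, ha⟩ := Int.eq_ofNat_of_zero_le (neg_nonneg.2 h0.le)
      rw [neg_eq_iff_eq_neg.1 ha, neg_smul, ← smul_neg, natCast_zsmul]
      exact nsmul_mem (h3 k fun hk => (Fan.mem_S.1 m.2 _ hk).not_gt h0) a
  rw [val_chi]
  exact h4.2

lemma res_chi (h : τ ⊆ σ) (hz : ∀ i ∉ τ, z i ≠ 0) :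
    F.res h (F.chi τ z hz) = F.chi σ z fun i hi => hz i fun h' => hi (h h') :=
  val_ext fun m => by rw [val_res, val_chi, val_chi]

variable (F) in
/-- The class of a point of an affine piece. -/
def mkT (a : Σ σ : F.K, F.Aff σ) : F.T := Quot.mk _ a

lemma continuous_mkT : Continuous F.mkT := continuous_quot_mk

open Classical in
variable (F) in
/-- The point of the glued variety given by homogeneous coordinates. -/
noncomputable def toT (z : ι → ℂ) : F.T :=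
  if h : z ∈ F.U then F.mkT ⟨⟨h.choose, h.choose_spec.1⟩, F.chi _ z h.choose_spec.2⟩
  else F.mkT ⟨⟨∅, F.zero_mem⟩, F.chi ∅ 1 fun _ _ => one_ne_zero⟩

lemma toT_eq (hf : ∀ σ ∈ F.K, ∀ τ ⊆ σ, τ ∈ F.K) (hσ : σ ∈ F.K) (hz : ∀ i ∉ σ, z i ≠ 0) :
    F.toT z = F.mkT ⟨⟨σ, hσ⟩, F.chi σ z hz⟩ := by
  have h : z ∈ F.U := ⟨σ, hσ, hz⟩
  have h1 : ∀ i ∉ σ ∩ h.choose, z i ≠ 0 := fun i hi => by
    by_cases h' : i ∈ σ
    · exact h.choose_spec.2 i fun h'' => hi (Finset.mem_inter.2 ⟨h', h''⟩)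
    · exact hz i h'
  have h2 : σ ∩ h.choose ∈ F.K := hf σ hσ _ Finset.inter_subset_left
  rw [toT, dif_pos h]
  trans F.mkT ⟨⟨_, h2⟩, F.chi _ z h1⟩
  · exact (Quot.sound ⟨Finset.inter_subset_right, (res_chi _ h1).symm⟩).symm
  · exact Quot.sound ⟨Finset.inter_subset_left, (res_chi _ h1).symm⟩

lemma toT_mul (hf : ∀ σ ∈ F.K, ∀ τ ⊆ σ, τ ∈ F.K) (hz : z ∈ F.U) (hg : g ∈ F.G) :
    F.toT (g * z) = F.toT z := by
  obtain ⟨σ, hσ, h⟩ := hz
  have h' : ∀ i ∉ σ, (g * z) i ≠ 0 := fun i hi => mul_ne_zero (hg.1 i) (h i hi)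
  have e : F.chi σ (g * z) h' = F.chi σ z h :=
    val_ext fun m => by rw [val_chi, val_chi, mon_mul _ hg]
  rw [toT_eq hf hσ h, toT_eq hf hσ h', e]

lemma continuousOn_toT (hf : ∀ σ ∈ F.K, ∀ τ ⊆ σ, τ ∈ F.K) : ContinuousOn F.toT F.U := by
  rintro z ⟨σ, hσ, hz⟩
  have ho : IsOpen {w : ι → ℂ | ∀ i ∉ σ, w i ≠ 0} := by
    have : {w : ι → ℂ | ∀ i ∉ σ, w i ≠ 0} = ⋂ i ∈ {i | i ∉ σ}, {w : ι → ℂ | w i ≠ 0} := by
      ext w
      simp
    rw [this]
    exact (toFinite _).isOpen_biInter fun i _ =>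
      isOpen_ne_fun (continuous_apply i) continuous_const
  refine (ContinuousOn.continuousAt ?_ (ho.mem_nhds hz)).continuousWithinAt
  rw [continuousOn_iff_continuous_domRestrict]
  have : {w : ι → ℂ | ∀ i ∉ σ, w i ≠ 0}.domRestrict F.toT =
      fun w => F.mkT ⟨⟨σ, hσ⟩, F.chi σ w.1 w.2⟩ := funext fun w => toT_eq hf hσ w.2
  rw [this]
  refine continuous_mkT.comp (continuous_sigmaMk.comp (continuous_aff fun m => ?_))
  simp only [val_chi]
  exact (continuousOn_mon m.1).comp_continuous continuous_subtype_val fun w i hi =>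
    w.2 i fun h' => (mem_S.1 m.2 i h').not_gt hi

/-- The point of the Cox quotient given by a point of an affine piece. -/
noncomputable def Sm.toX (h : F.Sm) (a : Σ σ : F.K, F.Aff σ) : F.X :=
  F.ψ (h _ a.1.2).choose fun k => val a.2 ⟨(h _ a.1.2).choose_spec.choose k,
    (h _ a.1.2).choose_spec.choose_spec.1.mem_S (h _ a.1.2).choose_spec.choose_spec.2 k⟩

lemma Sm.toX_chi (h : F.Sm) (hσ : σ ∈ F.K) (hz : ∀ i ∉ σ, z i ≠ 0) :
    h.toX ⟨⟨σ, hσ⟩, F.chi σ z hz⟩ = F.cl z := by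
  have hc := (h σ hσ).choose_spec.choose_spec
  have h1 : ∀ i ∉ Finset.univ.image (h σ hσ).choose, z i ≠ 0 :=
    fun i hi => hz i fun h' => hi (hc.2 h')
  rw [← cl_mul (hc.1.nrm_mem h1) ⟨σ, hσ, hz⟩, hc.1.nrm_mul h1]
  simp only [Sm.toX, val_chi]
  rfl

lemma Sm.exists_chi (h : F.Sm) (hσ : σ ∈ F.K) (χ : F.Aff σ) : ∃ z hz, χ = F.chi σ z hz :=
  let ⟨_, _, hc, hs⟩ := h σ hσ
  hc.exists_chi hs χ

lemma Sm.continuous_toX (h : F.Sm) : Continuous h.toX :=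
  continuous_sigma fun σ => (h _ σ.2).choose_spec.choose_spec.1.continuous_ψ.comp
    (continuous_pi fun k => continuous_val ⟨(h _ σ.2).choose_spec.choose k,
      (h _ σ.2).choose_spec.choose_spec.1.mem_S (h _ σ.2).choose_spec.choose_spec.2 k⟩)

/-- The glued variety is homeomorphic to the Cox quotient. -/
noncomputable def Sm.homeo (h : F.Sm) (hf : ∀ σ ∈ F.K, ∀ τ ⊆ σ, τ ∈ F.K) : F.T ≃ₜ F.X where
  toFun := Quot.lift h.toX (by
    rintro ⟨⟨σ, hσ⟩, χ⟩ ⟨⟨τ, hτ⟩, χ'⟩ ⟨hs, e⟩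
    obtain ⟨z, hz, rfl⟩ := h.exists_chi hσ χ
    have hs' : σ ⊆ τ := hs
    obtain rfl : χ' = F.chi τ z fun i hi => hz i fun h' => hi (hs' h') := e.trans (res_chi hs' hz)
    exact (h.toX_chi hσ hz).trans (h.toX_chi hτ _).symm)
  invFun := F.lf F.toT
  left_inv := by
    rintro ⟨⟨σ, hσ⟩, χ⟩
    obtain ⟨z, hz, rfl⟩ := h.exists_chi hσ χ
    change F.lf F.toT (h.toX ⟨⟨σ, hσ⟩, F.chi σ z hz⟩) = _
    rw [h.toX_chi hσ hz, lf_cl ⟨σ, hσ, hz⟩ fun g hg => toT_mul hf ⟨σ, hσ, hz⟩ hg]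
    exact toT_eq hf hσ hz
  right_inv := fun x => by
    obtain ⟨z, ⟨σ, hσ, hz⟩, rfl⟩ := cl_surj x
    rw [lf_cl ⟨σ, hσ, hz⟩ fun g hg => toT_mul hf ⟨σ, hσ, hz⟩ hg, toT_eq hf hσ hz]
    exact h.toX_chi hσ hz
  continuous_toFun := continuous_quot_lift _ h.continuous_toX
  continuous_invFun := continuous_lf (continuousOn_toT hf) fun _ hz _ hg => toT_mul hf hz hg

end Fan

open Pool.Agent.Sing

variable {X Y Z : Type} [TopologicalSpace X] [TopologicalSpace Y] [TopologicalSpace Z]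

theorem RingIso.trans (h : RingIso X Y) (h' : RingIso Y Z) : RingIso X Z :=
  let ⟨φ, hφ⟩ := h
  let ⟨ψ, hψ⟩ := h'
  ⟨fun n => (φ n).trans (ψ n), fun p q x y z hc => hψ p q _ _ _ (hφ p q x y z hc)⟩

lemma pull_cocyc (f : C(X, Y)) {n : ℕ} {a : Co ℤ Y n} (ha : a ∈ cocyc ℤ Y n) :
    (push ℤ f n).dualMap a ∈ cocyc ℤ X n := LinearMap.ext fun c => by
  change a (push ℤ f n (bd ℤ X n c)) = 0
  rw [← bd_push]
  exact LinearMap.congr_fun ha _

lemma pull_cobdry (f : C(X, Y)) {n : ℕ} {a : Co ℤ Y n} (ha : a ∈ cobdry ℤ Y n) :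
    (push ℤ f n).dualMap a ∈ cobdry ℤ X n := by
  cases n with
  | zero =>
    obtain rfl : a = 0 := ha
    exact map_zero _
  | succ n =>
    obtain ⟨b, rfl⟩ := ha
    exact ⟨(push ℤ f n).dualMap b, LinearMap.ext fun c => congrArg b (bd_push f c).symm⟩

/-- The map induced in cohomology. -/
noncomputable def pullH (f : C(X, Y)) (n : ℕ) : HZ Y n →+ HZ X n :=
  (Submodule.mapQ ((cobdry ℤ Y n).comap (cocyc ℤ Y n).subtype)
    ((cobdry ℤ X n).comap (cocyc ℤ X n).subtype)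
    ((push ℤ f n).dualMap.restrict fun _ ha => pull_cocyc f ha)
    fun _ ha => pull_cobdry f ha).toAddMonoidHom

lemma HRep.pull (f : C(X, Y)) {n : ℕ} {x : HZ Y n} {a : Co ℤ Y n} (h : HRep Y x a) :
    HRep X (pullH f n x) ((push ℤ f n).dualMap a) := by
  obtain ⟨ha, rfl⟩ := h
  exact ⟨pull_cocyc f ha, rfl⟩

lemma pullH_pullH (f : C(X, Y)) (g : C(Y, X)) (h : f.comp g = ContinuousMap.id Y) (n : ℕ)
    (x : HZ Y n) : pullH g n (pullH f n x) = x := by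
  obtain ⟨a, rfl⟩ := Submodule.Quotient.mk_surjective _ x
  refine congrArg Submodule.Quotient.mk (Subtype.ext (LinearMap.ext fun c => ?_))
  change a.1 (push ℤ f n (push ℤ g n c)) = a.1 c
  rw [push_push, h, push_id]

lemma pull_cup (f : C(X, Y)) {p q : ℕ} (a : Co ℤ Y p) (b : Co ℤ Y q) :
    (push ℤ f (p + q)).dualMap (cup rfl a b) =
      cup rfl ((push ℤ f p).dualMap a) ((push ℤ f q).dualMap b) := ch_ext fun σ => by
  simp [cup, ContinuousMap.comp_assoc]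

theorem ringIso_of_homeo (e : X ≃ₜ Y) : RingIso X Y := by
  refine ⟨fun n => AddMonoidHom.toAddEquiv (pullH (e.symm : C(Y, X)) n) (pullH (e : C(X, Y)) n)
    (AddMonoidHom.ext (pullH_pullH _ _ (by ext; simp) n))
    (AddMonoidHom.ext (pullH_pullH _ _ (by ext; simp) n)), ?_⟩
  rintro p q x y z ⟨a, b, ha, hb, hz⟩
  refine ⟨_, _, ha.pull _, hb.pull _, ?_⟩
  rw [← pull_cup]
  exact hz.pull _

end Pool.Agent.Lib.MP_bf05b2_gt
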