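import Pool.Agent.Lib.MP_bf05b2_gt.H57Sq

/-! Two Cartan formulas and the Adem relation, by explicit cochains. -/

set_option linter.unusedSectionVars false

namespace Pool.Agent.Lib.MP_bf05b2_gt

open Set Finsupp Pool.Agent.Shared.Sing Pool.Agent.Shared.SingEZ

namespace Adem

section generic

variable {α β A B : Type*} [Add A] [Mul A] [Zero A] [Add B] [Mul B] [Zero B]

/-- Truncation to lists with `p + 1` entries. -/
def tr (p : ℕ) (x : List α → A) (l : List α) : A := if l.length = p + 1 then x l else 0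

def cuA (i p q : ℕ) (x y : List α → A) (l : List α) : A := cuL l (i + 1) (tr p x) (tr q y)

def cupA (p : ℕ) (x y : List α → A) (l : List α) : A :=
  if p < l.length then x (l.take (p + 1)) * y (l.drop p) else 0

/-- The sum of the values on the faces. -/
def dA : List α → (List α → A) → A
  | [], _ => 0
  | v :: m, x => x m + dA m fun a => x (v :: a)

/-- The sublist given by a bit mask. -/
def pick : List α → ℕ → List α
  | [], _ => []
  | v :: m, k => if k % 2 = 1 then v :: pick m (k / 2) else pick m (k / 2)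

def sumA {γ : Type*} : List γ → (γ → A) → A
  | [], _ => 0
  | c :: L, f => f c + sumA L f

abbrev Dat := List (ℕ × List (ℕ × List (ℕ × ℕ)))

/-- A sum of products of four values. -/
def zt (E : Dat) (x y z w : List α → A) (l : List α) : A :=
  sumA E fun a => x (pick l a.1) * sumA a.2 fun b => y (pick l b.1) * sumA b.2 fun c =>
    z (pick l c.1) * w (pick l c.2)

/-- The generic cocycle. -/
def gen (v : List ℕ → A) : List ℕ → A
  | [] => 0
  | a :: l => if a = 0 then v l else dA (a :: l) v

def d22 : Dat := [(7, [(13, [(44, 56)])])]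

def d23 : Dat := [(7, [(13, [(60, 120), (108, 120)])])]

def dAd : Dat :=
  [(15, [(15, [(27, 113), (30, 114), (57, 106), (60, 102), (75, 120), (90, 113)]), (23, [(30,
    113)]), (27, [(30, 113), (51, 113), (83, 113), (89, 113), (99, 113), (113, 113), (113,
    114)]), (29, [(30, 114), (86, 113)]), (30, [(30, 113), (51, 108), (51, 120), (53, 99), (54,
    114), (83, 113), (83, 114), (83, 116), (89, 114), (102, 114), (113, 113), (113, 116)]), (39,
    [(57, 99), (58, 99)]), (43, [(57, 102), (57, 108), (58, 99)]), (45, [(57, 99), (60, 99)]),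
    (46, [(57, 102), (57, 108), (58, 99), (99, 120)]), (57, [(57, 99), (57, 102), (57, 108), (71,
    99), (71, 102), (71, 120), (77, 99), (77, 102), (77, 108), (77, 120), (99, 99), (99, 105),
    (102, 102), (102, 105), (105, 108), (108, 108), (113, 120)]), (58, [(99, 102), (99, 105),
    (99, 120)]), (60, [(99, 102), (99, 108), (102, 105), (102, 108), (102, 120)]), (71, [(105,
    120)]), (77, [(105, 120)])]), (23, [(29, [(29, 113), (51, 113), (54, 99), (54, 113), (83,
    113), (99, 113), (102, 113), (113, 113), (113, 116)]), (30, [(86, 113)]), (54, [(92, 99)]),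
    (57, [(60, 99), (60, 102)]), (60, [(99, 120), (102, 120)]), (83, [(92, 113)]), (85, [(92,
    113)]), (86, [(92, 113)]), (92, [(113, 113)])]), (27, [(27, [(30, 113), (30, 114), (60, 102),
    (78, 120)]), (29, [(86, 113)]), (30, [(51, 120), (54, 114), (57, 99), (60, 102), (60, 114),
    (83, 113), (83, 114), (83, 120), (92, 113), (102, 114), (108, 114), (113, 113), (113, 120)]),
    (45, [(54, 99)]), (54, [(99, 108)]), (57, [(60, 102)]), (60, [(99, 102), (102, 108), (102,
    113)]), (75, [(78, 113)]), (78, [(83, 113), (89, 113), (90, 113), (113, 113)])]), (29, [(39,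
    [(60, 120)]), (53, [(54, 99)]), (54, [(60, 99), (99, 102), (99, 113)]), (60, [(71, 105)]),
    (71, [(77, 116), (85, 116), (89, 120), (92, 116), (113, 113)])]), (30, [(30, [(51, 116), (54,
    99), (99, 116)]), (39, [(54, 99)]), (43, [(60, 102)]), (45, [(60, 99)]), (46, [(51, 102)]),
    (51, [(54, 108), (54, 120), (58, 102), (60, 108), (60, 120), (71, 102), (77, 102), (77, 108),
    (89, 102), (89, 108), (89, 120), (102, 102), (102, 113), (108, 108), (108, 113), (113, 120),
    (120, 120)]), (54, [(54, 99), (99, 99), (99, 102)]), (58, [(99, 108)]), (60, [(60, 99), (71,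
    99), (99, 101)])]), (39, [(60, [(60, 108), (77, 108), (89, 108), (89, 120), (108, 108), (108,
    113), (113, 120), (120, 120)])]), (43, [(46, [(57, 99), (58, 99), (99, 120)]), (78, [(113,
    120)])]), (45, [(57, [(71, 108)]), (71, [(108, 120), (113, 120)])]), (46, [(51, [(57, 99),
    (99, 120)]), (57, [(99, 102), (99, 108)]), (58, [(58, 99), (99, 99), (99, 102)]), (60, [(99,
    108)]), (99, [(102, 120), (105, 120), (108, 120)])]), (51, [(51, [(60, 102), (78, 120)]),
    (58, [(78, 120)]), (60, [(99, 102), (102, 108), (102, 120)]), (78, [(113, 120)])]), (53,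
    [(54, [(60, 99)]), (60, [(71, 113)]), (71, [(89, 108)])]), (54, [(58, [(99, 108)]), (60,
    [(71, 99), (99, 101), (99, 120)]), (85, [(92, 99)]), (92, [(99, 102), (99, 113), (99,
    116)])]), (57, [(71, [(105, 108), (108, 120)])]), (58, [(75, [(78, 99)]), (78, [(83, 120),
    (89, 99), (90, 99), (99, 113), (99, 114)])]), (60, [(60, [(71, 108)]), (71, [(71, 108), (71,
    120), (77, 108), (77, 120), (89, 120), (108, 108), (120, 120)])]), (71, [(71, [(92, 116),
    (108, 120)]), (77, [(108, 120)]), (85, [(92, 113)]), (92, [(101, 113), (113, 116)])]), (78,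
    [(99, [(99, 120)])])]

def f22 (x y : List α → A) (l : List α) : A :=
  cuA 2 4 4 (cupA 2 x y) (cupA 2 x y) l + (cupA 4 (cupA 2 x x) y l +
    cupA 3 (cuA 1 2 2 x x) (cuA 1 2 2 y y) l + cupA 2 x (cupA 2 y y) l) +
    dA l (zt d22 (tr 2 x) (tr 2 x) (tr 2 y) (tr 2 y))

def f23 (x y : List α → A) (l : List α) : A :=
  cuA 3 5 5 (cupA 2 x y) (cupA 2 x y) l + (cupA 4 (cupA 2 x x) y l +
    cupA 3 (cuA 1 2 2 x x) (cuA 2 3 3 y y) l + cupA 2 x (cuA 1 3 3 y y) l) +
    dA l (zt d23 (tr 2 x) (tr 2 x) (tr 3 y) (tr 3 y))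

def fAd (x : List α → A) (l : List α) : A :=
  cuA 3 5 5 (cuA 1 3 3 x x) (cuA 1 3 3 x x) l + cuA 1 4 4 (cuA 2 3 3 x x) (cuA 2 3 3 x x) l +
    dA l (zt dAd (tr 3 x) (tr 3 x) (tr 3 x) (tr 3 x))

/-- Relations compatible with the operations. -/
structure Hom (R : A → B → Prop) : Prop where
  zero : R 0 0
  add : ∀ {x y x' y'}, R x x' → R y y' → R (x + y) (x' + y')
  mul : ∀ {x y x' y'}, R x x' → R y y' → R (x * y) (x' * y')

variable (R : A → B → Prop) (g : α → β)

def RA (l : List α) (x : List α → A) (x' : List β → B) : Prop :=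
  ∀ m, m.Sublist l → R (x m) (x' (m.map g))

def RN (l : List α) (n : ℕ) (x : List α → A) (x' : List β → B) : Prop :=
  ∀ m, m.Sublist l → m.length = n + 1 → R (x m) (x' (m.map g))

variable {R g} {l m : List α} {x y z w : List α → A} {x' y' z' w' : List β → B} {p q : ℕ}

lemma RA.mono (h : RA R g l x x') (hm : m.Sublist l) : RA R g m x x' :=
  fun _ ha => h _ (ha.trans hm)

lemma RA.cons {v : α} (h : RA R g (v :: l) x x') :
    RA R g l (fun a => x (v :: a)) fun a => x' (g v :: a) := fun _ ha => h _ (ha.cons_cons v)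

lemma pick_sub (l : List α) (k : ℕ) : (pick l k).Sublist l := by
  induction l generalizing k with
  | nil => exact .slnil
  | cons v m ih =>
    unfold pick
    split_ifs
    · exact (ih _).cons_cons v
    · exact (ih _).cons v

lemma pick_map (g : α → β) (l : List α) (k : ℕ) : pick (l.map g) k = (pick l k).map g := by
  induction l generalizing k with
  | nil => rfl
  | cons v m ih =>
    simp only [pick, List.map_cons]
    split_ifs <;> simp [ih]

variable (he : Hom R)
include he

lemma RN.tr (h : RN R g l p x x') : RA R g l (tr p x) (tr p x') := fun m hm => by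
  simp only [Adem.tr, List.length_map]
  split_ifs with h1
  · exact h m hm h1
  · exact he.zero

lemma cuL_rel (k : ℕ) (h : RA R g l x x') (h' : RA R g l y y') :
    R (cuL l k x y) (cuL (l.map g) k x' y') := by
  induction l generalizing k x y x' y' with
  | nil =>
    cases k with
    | zero => exact he.mul (h _ .slnil) (h' _ .slnil)
    | succ k => exact he.zero
  | cons v m ih =>
    cases k with
    | zero => exact he.mul (h _ (.refl _)) (h' _ (List.nil_sublist _))
    | succ k =>
      exact he.add (ih _ h'.cons h.cons) (ih _ h.cons (h'.mono (List.sublist_cons_self _ _)))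

lemma RN.cu (i k : ℕ) (h : RN R g l p x x') (h' : RN R g l q y y') :
    RN R g l k (cuA i p q x y) (cuA i p q x' y') := fun _ hm _ =>
  cuL_rel he _ ((h.tr he).mono hm) ((h'.tr he).mono hm)

lemma RN.cup (h : RN R g l p x x') (h' : RN R g l q y y') :
    RN R g l (p + q) (cupA p x y) (cupA p x' y') := fun m hm hl => by
  simp only [cupA, List.length_map, if_pos (show p < m.length by omega), ← List.map_take,
    ← List.map_drop]
  exact he.mul (h _ ((List.take_sublist _ _).trans hm) (by simp; omega))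
    (h' _ ((List.drop_sublist _ _).trans hm) (by simp; omega))

lemma sumA_rel {γ : Type*} (L : List γ) {f : γ → A} {f' : γ → B} (h : ∀ c, R (f c) (f' c)) :
    R (sumA L f) (sumA L f') := by
  induction L with
  | nil => exact he.zero
  | cons c L ih => exact he.add (h c) ih

lemma zt_rel (E : Dat) (hx : RA R g l x x') (hy : RA R g l y y') (hz : RA R g l z z')
    (hw : RA R g l w w') : RA R g l (zt E x y z w) (zt E x' y' z' w') := fun m hm => by
  simp only [zt, pick_map]
  exact sumA_rel he _ fun a => he.mul (hx _ ((pick_sub _ _).trans hm)) (sumA_rel he _ fun b =>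
    he.mul (hy _ ((pick_sub _ _).trans hm)) (sumA_rel he _ fun c =>
      he.mul (hz _ ((pick_sub _ _).trans hm)) (hw _ ((pick_sub _ _).trans hm))))

lemma dA_rel (h : ∀ m, m.Sublist l → m.length + 1 = l.length → R (x m) (x' (m.map g))) :
    R (dA l x) (dA (l.map g) x') := by
  induction l generalizing x x' with
  | nil => exact he.zero
  | cons v m ih =>
    exact he.add (h _ (List.sublist_cons_self _ _) rfl) (ih (x' := fun a => x' (g v :: a))
      fun a ha hl => h _ (ha.cons_cons v) (by simpa using hl))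

lemma dz_rel (E : Dat) {p' q' : ℕ} (hx : RN R g l p x x') (hy : RN R g l p' y y')
    (hz : RN R g l q z z') (hw : RN R g l q' w w') (hm : m.Sublist l) :
    R (dA m (zt E (tr p x) (tr p' y) (tr q z) (tr q' w)))
      (dA (m.map g) (zt E (tr p x') (tr p' y') (tr q z') (tr q' w'))) :=
  dA_rel he fun a ha _ =>
    zt_rel he E (hx.tr he) (hy.tr he) (hz.tr he) (hw.tr he) a (ha.trans hm)

lemma f22_rel (hx : RN R g l 2 x x') (hy : RN R g l 2 y y') :
    RN R g l 6 (f22 x y) (f22 x' y') := fun m hm hl =>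
  he.add (he.add (((hx.cup he hy).cu he 2 6 (hx.cup he hy)) m hm hl) (he.add (he.add
    (((hx.cup he hx).cup he hy) m hm hl) (((hx.cu he 1 3 hx).cup he (hy.cu he 1 3 hy)) m hm hl))
    ((hx.cup he (hy.cup he hy)) m hm hl))) (dz_rel he _ hx hx hy hy hm)

lemma f23_rel (hx : RN R g l 2 x x') (hy : RN R g l 3 y y') :
    RN R g l 7 (f23 x y) (f23 x' y') := fun m hm hl =>
  he.add (he.add (((hx.cup he hy).cu he 3 7 (hx.cup he hy)) m hm hl) (he.add (he.add
    (((hx.cup he hx).cup he hy) m hm hl) (((hx.cu he 1 3 hx).cup he (hy.cu he 2 4 hy)) m hm hl))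
    ((hx.cup he (hy.cu he 1 5 hy)) m hm hl))) (dz_rel he _ hx hx hy hy hm)

lemma fAd_rel (hx : RN R g l 3 x x') : RN R g l 7 (fAd x) (fAd x') := fun m hm hl =>
  he.add (he.add (((hx.cu he 1 5 hx).cu he 3 7 (hx.cu he 1 5 hx)) m hm hl)
    (((hx.cu he 2 4 hx).cu he 1 7 (hx.cu he 2 4 hx)) m hm hl)) (dz_rel he _ hx hx hx hx hm)

lemma gen_rel {v : List ℕ → A} {v' : List ℕ → B} (h : ∀ l, R (v l) (v' l)) (l : List ℕ) (p : ℕ) :
    RN R id l p (gen v) (gen v') := fun m _ _ => by
  rw [List.map_id]
  rcases m with _ | ⟨a, m⟩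
  · exact he.zero
  · simp only [gen]
    split_ifs
    · exact h _
    · simpa using dA_rel he (g := id) (l := a :: m) fun m _ _ => by simpa using h m

end generic

/-! Functions of low degree on the cube. -/

abbrev Fn := Finset ℕ → ZMod 2

/-- Set the coordinate `j`. -/
def upd (j : ℕ) (b : Bool) (S : Finset ℕ) : Finset ℕ := if b then insert j S else S.erase j

lemma upd_upd (j : ℕ) (b c : Bool) (S : Finset ℕ) : upd j b (upd j c S) = upd j b S := by
  ext k
  by_cases h : k = j <;> cases b <;> cases c <;> simp [upd, h]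

lemma upd_comm {i j : ℕ} (h : i ≠ j) (b c : Bool) (S : Finset ℕ) :
    upd i b (upd j c S) = upd j c (upd i b S) := by
  ext k
  cases b <;> cases c <;> simp [upd] <;> aesop

/-- The degree is less than `d`. -/
def Dg : ℕ → Fn → Prop
  | 0, f => f = 0
  | d + 1, f => ∀ j, Dg d fun S => f (upd j true S) + f (upd j false S)

lemma Dg.zero (d : ℕ) : Dg d 0 := by
  induction d with
  | zero => rfl
  | succ d ih =>
    intro j
    simp only [Pi.zero_apply, add_zero]
    exact ih

lemma Dg.add {d : ℕ} {f g : Fn} (h : Dg d f) (h' : Dg d g) : Dg d (f + g) := by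
  induction d generalizing f g with
  | zero => rw [show f = 0 from h, show g = 0 from h', add_zero]; rfl
  | succ d ih =>
    intro j
    convert ih (h j) (h' j) using 1
    ext S
    simp only [Pi.add_apply]
    ring

lemma Dg.res {d : ℕ} {f : Fn} (h : Dg d f) (j : ℕ) (b : Bool) : Dg d fun S => f (upd j b S) := by
  induction d generalizing f with
  | zero => rw [show f = 0 from h]; rfl
  | succ d ih =>
    intro i
    by_cases hi : j = i
    · subst hi
      simp only [upd_upd, CharTwo.add_self_eq_zero]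
      exact Dg.zero d
    · simpa only [upd_comm hi] using ih (h i)

lemma Dg.mono {d e : ℕ} {f : Fn} (h : Dg d f) (he : d ≤ e) : Dg e f := by
  induction e generalizing d f with
  | zero => rwa [Nat.le_zero.1 he] at h
  | succ e ih =>
    rcases d with _ | d
    · rw [show f = 0 from h]; exact .zero _
    · exact fun j => ih (h j) (by omega)

lemma Dg.mul {n a b : ℕ} {f g : Fn} (h : Dg a f) (h' : Dg b g) (hn : a + b ≤ n + 1) :
    Dg n (f * g) := by
  induction n generalizing a b f g with
  | zero =>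
    rcases a with _ | a
    · rw [show f = 0 from h, zero_mul]; rfl
    · obtain rfl : b = 0 := by omega
      rw [show g = 0 from h', mul_zero]; rfl
  | succ n ih =>
    rcases a with _ | a
    · rw [show f = 0 from h, zero_mul]; exact .zero _
    rcases b with _ | b
    · rw [show g = 0 from h', mul_zero]; exact .zero _
    intro j
    convert (ih (h j) (h'.res j true) (by omega)).add (ih (h.res j false) (h' j) (by omega)) using 1
    ext S
    simp only [Pi.add_apply, Pi.mul_apply]
    linear_combination (-1) * CharTwo.add_self_eq_zero (f (upd j false S) * g (upd j true S))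

lemma Dg.van {d N : ℕ} {f : Fn} (h : Dg d f)
    (h0 : ∀ S : Finset ℕ, (∀ j ∈ S, j < N) → S.card < d → f S = 0) (S : Finset ℕ)
    (hS : ∀ j ∈ S, j < N) : f S = 0 := by
  induction d generalizing f S with
  | zero => rw [show f = 0 from h]; rfl
  | succ d ih =>
    induction S using Finset.induction_on with
    | empty => exact h0 _ (by simp) (by simp)
    | insert j S hj ih' =>
      have h1 : ∀ i ∈ S, i < N := fun i hi => hS i (by simp [hi])
      have := ih (h j) (fun U hU hc => by
        have h2 := Finset.card_insert_le j U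
        have h3 := Finset.card_erase_le (s := U) (a := j)
        rw [h0 (upd j true U) (by simpa [upd] using ⟨hS j (by simp), hU⟩) (by simp [upd]; omega),
          h0 (upd j false U) (fun i hi => hU i (Finset.mem_of_mem_erase hi))
          (by simp [upd]; omega), add_zero]) S h1
      simpa [upd, Finset.erase_eq_of_notMem hj, ih' h1] using this

/-- A coordinate function. -/
def crd (j : ℕ) : Fn := fun S => if j ∈ S then 1 else 0

lemma dg_crd (j : ℕ) : Dg 2 (crd j) := fun i k => by
  ext S
  by_cases hi : j = i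
  · simp [crd, upd, hi, CharTwo.add_self_eq_zero]
  · by_cases hk : j = k
    · subst hk
      simp [crd, upd, hi, CharTwo.add_self_eq_zero]
    · simp [crd, upd, hi, hk, CharTwo.add_self_eq_zero]


noncomputable def cnd {γ : Type} (b : Bool) (x y : γ) : γ := Bool.rec y x b

noncomputable def frc {γ : Type} (n : ℕ) (k : ℕ → γ) : γ :=
  Nat.rec (k 0) (fun m _ => k m) (Nat.succ n)

noncomputable def sz (n : ℕ) : ℕ → ℕ :=
  Nat.rec (fun _ => 1) (fun _ ih d => Nat.rec 1 (fun e _ => Nat.add (ih d) (ih e)) d) n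

noncomputable def col (j n : ℕ) : ℕ → ℕ :=
  Nat.rec (fun _ => 0) (fun n ih d => Nat.rec 0 (fun e _ => Nat.add (Nat.shiftLeft
    (cnd (Nat.beq j n) (Nat.sub (Nat.pow 2 (sz n e)) 1) (ih e)) (sz n d)) (ih d)) d) n

/-- Truth tables. -/
def P : Type := ℕ

instance pZero : Zero P := ⟨(0 : ℕ)⟩
instance pAdd : Add P := ⟨Nat.xor⟩
instance pMul : Mul P := ⟨Nat.land⟩

/-- Degrees. -/
def Q : Type := ℕ

instance qZero : Zero Q := ⟨(0 : ℕ)⟩
noncomputable instance qAdd : Add Q :=
  ⟨fun a b => frc a fun a => frc b fun b => cnd (Nat.ble a b) b a⟩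
instance qMul : Mul Q := ⟨Nat.add⟩

def ix : List ℕ → ℕ
  | [a, b] => a - 1 + (b - 1) * (b - 2) / 2
  | [a, b, c] => a - 1 + (b - 1) * (b - 2) / 2 + (c - 1) * (c - 2) * (c - 3) / 6
  | _ => 0

noncomputable def gP (N o : ℕ) : List ℕ → P :=
  gen fun l => frc (o + ix l) fun j => Nat.add (col j N 4) 0

noncomputable def gQ : List ℕ → Q := gen fun _ => (1 : ℕ)


lemma frc_eq {γ : Type} (n : ℕ) (k : ℕ → γ) : frc n k = k n := rfl

lemma col_succ (j n e : ℕ) : col j (n + 1) (e + 1) = 2 ^ sz n (e + 1) *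
    (if j = n then 2 ^ sz n e - 1 else col j n e) + col j n (e + 1) := by
  have : col j (n + 1) (e + 1) = (cnd (Nat.beq j n) (2 ^ sz n e - 1) (col j n e)) <<<
    sz n (e + 1) + col j n (e + 1) := rfl
  rw [this, Nat.shiftLeft_eq, mul_comm]
  split_ifs with h
  · rw [h, Nat.beq_refl]; rfl
  · rw [Bool.eq_false_iff.2 fun h' => h (Nat.eq_of_beq_eq_true h')]; rfl

lemma sz_succ (n e : ℕ) : sz (n + 1) (e + 1) = sz n (e + 1) + sz n e := rfl

lemma col_lt (j n d : ℕ) : col j n d < 2 ^ sz n d := by
  induction n generalizing d with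
  | zero => exact Nat.two_pow_pos _
  | succ n ih =>
    rcases d with _ | e
    · exact Nat.two_pow_pos _
    · have h1 : (if j = n then 2 ^ sz n e - 1 else col j n e) + 1 ≤ 2 ^ sz n e := by
        have := Nat.two_pow_pos (sz n e)
        have := ih e
        split_ifs <;> omega
      have := Nat.mul_le_mul_left (2 ^ sz n (e + 1)) h1
      have := ih (e + 1)
      rw [col_succ, sz_succ, pow_add]
      nlinarith

lemma col_ge {j n : ℕ} (h : n ≤ j) (d : ℕ) : col j n d = 0 := by
  induction n generalizing d with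
  | zero => rfl
  | succ n ih =>
    rcases d with _ | e
    · rfl
    · rw [col_succ, if_neg (by omega), ih (by omega), ih (by omega)]
      simp

lemma exists_pt (n d : ℕ) (S : Finset ℕ) (hS : ∀ j ∈ S, j < n) (hc : S.card ≤ d) :
    ∃ k < sz n d, ∀ j, (col j n d).testBit k = decide (j ∈ S) := by
  induction n generalizing d S with
  | zero => exact ⟨0, Nat.one_pos, fun j => by simpa [col_ge] using fun h => by simpa using hS j h⟩
  | succ n ih =>
    rcases d with _ | e
    · obtain rfl : S = ∅ := Finset.card_eq_zero.1 (by omega)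
      exact ⟨0, Nat.one_pos, fun j => by simp [show col j (n + 1) 0 = 0 from rfl]⟩
    by_cases hn : n ∈ S
    · obtain ⟨k, h1, h2⟩ := ih e (S.erase n) (fun j hj => by
        have := hS j (Finset.mem_of_mem_erase hj)
        have := Finset.ne_of_mem_erase hj
        omega) (by rw [Finset.card_erase_of_mem hn]; omega)
      refine ⟨sz n (e + 1) + k, by rw [sz_succ]; omega, fun j => ?_⟩
      rw [col_succ, Nat.testBit_two_pow_mul_add _ (col_lt _ _ _), if_neg (by omega),
        Nat.add_sub_cancel_left]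
      split_ifs with h
      · simp [h, h1, hn]
      · simp [h2, h]
    · obtain ⟨k, h1, h2⟩ := ih (e + 1) S (fun j hj => by
        have := hS j hj
        have : j ≠ n := fun h => hn (h ▸ hj)
        omega) hc
      refine ⟨k, by rw [sz_succ]; omega, fun j => ?_⟩
      rw [col_succ, Nat.testBit_two_pow_mul_add _ (col_lt _ _ _), if_pos h1, h2]

lemma homQ : Hom fun (d : Q) (f : Fn) => Dg (Nat.succ d) f where
  zero := .zero _
  add {a b f g} h h' := by
    have : ∀ c : ℕ, Nat.le a c → Nat.le b c → Dg (c + 1) (f + g) := fun c h1 h2 =>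
      (h.mono (Nat.succ_le_succ h1)).add (h'.mono (Nat.succ_le_succ h2))
    change Dg (Nat.succ (cnd (Nat.ble a b) b a)) _
    cases hab : Nat.ble a b
    · exact this a (Nat.le_refl _) (Nat.le_of_not_ge fun h => by simp [Nat.ble_eq_true_of_le h] at hab)
    · exact this b (Nat.le_of_ble_eq_true hab) (Nat.le_refl _)
  mul {a b f g} h h' := h.mul h' (show Nat.succ a + Nat.succ b ≤ Nat.succ (Nat.add a b) + 1 by
    simp only [Nat.add_eq]; omega)

lemma homP (k : ℕ) (S : Finset ℕ) :
    Hom fun (a : P) (f : Fn) => (if Nat.testBit a k then 1 else 0) = f S where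
  zero := by simp [show ((0 : P) : ℕ) = (0 : ℕ) from rfl]
  add {a b f g} h h' := by
    rw [Pi.add_apply, ← h, ← h', show a + b = Nat.xor a b from rfl, Nat.xor_eq, Nat.testBit_xor]
    cases Nat.testBit a k <;> cases Nat.testBit b k <;> rfl
  mul {a b f g} h h' := by
    rw [Pi.mul_apply, ← h, ← h', show a * b = Nat.land a b from rfl, Nat.land_eq, Nat.testBit_and]
    cases Nat.testBit a k <;> cases Nat.testBit b k <;> rfl

lemma homE (S : Finset ℕ) : Hom fun (f : Fn) (z : ZMod 2) => f S = z where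
  zero := rfl
  add h h' := by rw [← h, ← h']; rfl
  mul h h' := by rw [← h, ← h']; rfl

lemma homI : Hom fun x y : ZMod 2 => x = y where
  zero := rfl
  add h h' := by rw [h, h']
  mul h h' := by rw [h, h']

noncomputable def gF (o : ℕ) : List ℕ → Fn := gen fun l => crd (o + ix l)

lemma relQ (o : ℕ) (l : List ℕ) (p : ℕ) :
    RN (fun (d : Q) (f : Fn) => Dg (Nat.succ d) f) id l p gQ (gF o) :=
  gen_rel homQ (fun _ => dg_crd _) l p

lemma relP {N k : ℕ} {S : Finset ℕ} (h : ∀ j, (col j N 4).testBit k = decide (j ∈ S)) (o : ℕ)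
    (l : List ℕ) (p : ℕ) : RN (fun (a : P) (f : Fn) => (if Nat.testBit a k then 1 else 0) = f S)
      id l p (gP N o) (gF o) :=
  gen_rel (homP k S) (fun l => by simp [frc_eq, h, crd]) l p

lemma van_of {N : ℕ} {f : Fn} {a : P} {d : Q} (h1 : Nat.beq a 0 = true) (h2 : Nat.ble d 4 = true)
    (h3 : Dg (Nat.succ d) f) (h4 : ∀ k S, (∀ j, (col j N 4).testBit k = decide (j ∈ S)) →
      (if Nat.testBit a k then 1 else 0) = f S) (S : Finset ℕ) (hS : ∀ j ∈ S, j < N) : f S = 0 :=
  (h3.mono (Nat.succ_le_succ (Nat.le_of_ble_eq_true h2))).van (fun U hU hc => by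
    obtain ⟨k, -, hk⟩ := exists_pt N 4 U hU (by omega)
    rw [← h4 k U hk, Nat.eq_of_beq_eq_true h1]
    simp) S hS

lemma chk22 : Nat.beq (f22 (gP 42 0) (gP 42 21) ((List.range 7)) : P) 0 = true := by decide +kernel

lemma chk23 : Nat.beq (f23 (gP 56 0) (gP 56 21) (List.range 8) : P) 0 = true := by decide +kernel

lemma chkAd : Nat.beq (fAd (gP 35 0) (List.range 8) : P) 0 = true := by decide +kernel

lemma deg22 : Nat.ble (f22 gQ gQ (List.range 7) : Q) 4 = true := by decide +kernel

lemma deg23 : Nat.ble (f23 gQ gQ (List.range 8) : Q) 4 = true := by decide +kernel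

lemma degAd : Nat.ble (fAd gQ (List.range 8) : Q) 4 = true := by decide +kernel

lemma van22 (S : Finset ℕ) (hS : ∀ j ∈ S, j < 42) : f22 (gF 0) (gF 21) (List.range 7) S = 0 :=
  van_of chk22 deg22 (by simpa using f22_rel homQ (relQ 0 _ 2) (relQ 21 _ 2) _ (.refl _) rfl)
    (fun k S h => by
      simpa only [List.map_id] using f22_rel (homP k S) (relP h 0 _ 2) (relP h 21 _ 2) _
        (.refl _) rfl) S hS

lemma van23 (S : Finset ℕ) (hS : ∀ j ∈ S, j < 56) : f23 (gF 0) (gF 21) (List.range 8) S = 0 :=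
  van_of chk23 deg23 (by simpa using f23_rel homQ (relQ 0 _ 2) (relQ 21 _ 3) _ (.refl _) rfl)
    (fun k S h => by
      simpa only [List.map_id] using f23_rel (homP k S) (relP h 0 _ 2) (relP h 21 _ 3) _
        (.refl _) rfl) S hS

lemma vanAd (S : Finset ℕ) (hS : ∀ j ∈ S, j < 35) : fAd (gF 0) (List.range 8) S = 0 :=
  van_of chkAd degAd (by simpa using fAd_rel homQ (relQ 0 _ 3) _ (.refl _) rfl)
    (fun k S h => by
      simpa only [List.map_id] using fAd_rel (homP k S) (relP h 0 _ 3) _ (.refl _) rfl) S hS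

/-! From the cube to cocycles on lists. -/

def subs (p : ℕ) : List (List ℕ) := (List.range' 1 7).sublistsLen p

lemma ix_inj : ∀ p ∈ [2, 3], ∀ B ∈ subs p, ∀ B' ∈ subs p, ix B = ix B' → B = B' := by
  decide +kernel

lemma ix_lt2 : ∀ B ∈ subs 2, ix B < 21 := by decide +kernel

lemma ix_lt3 : ∀ B ∈ subs 3, ix B < 35 := by decide +kernel

lemma exists_S {p q o N : ℕ} (hp : p ∈ [2, 3]) (hq : q ∈ [2, 3]) (h1 : ∀ B ∈ subs p, ix B < o)
    (h2 : o ≤ N) (a b : List ℕ → ZMod 2) (h3 : ∀ B ∈ subs q, b B = 1 → o + ix B < N) :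
    ∃ S : Finset ℕ, (∀ j ∈ S, j < N) ∧ (∀ B ∈ subs p, crd (0 + ix B) S = a B) ∧
      ∀ B ∈ subs q, crd (o + ix B) S = b B := by
  have h01 : ∀ z : ZMod 2, z ≠ 1 → 0 = z := by decide
  refine ⟨(((subs p).filter fun B => a B = 1).map ix ++
    ((subs q).filter fun B => b B = 1).map fun B => o + ix B).toFinset, fun j hj => ?_,
    fun B hB => ?_, fun B hB => ?_⟩
  · simp only [List.mem_toFinset, List.mem_append, List.mem_map, List.mem_filter,
      decide_eq_true_eq] at hj
    rcases hj with ⟨B, h, rfl⟩ | ⟨B, h, rfl⟩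
    · exact (h1 B h.1).trans_le h2
    · exact h3 B h.1 h.2
  all_goals
    unfold crd
    split_ifs with h
    all_goals simp only [List.mem_toFinset, List.mem_append, List.mem_map, List.mem_filter,
      decide_eq_true_eq, zero_add] at h
  · rcases h with ⟨B', h, e⟩ | ⟨B', h, e⟩
    · rw [← ix_inj p hp B' h.1 B hB e, h.2]
    · have := h1 B hB
      omega
  · exact h01 _ fun e => h (.inl ⟨B, ⟨hB, e⟩, rfl⟩)
  · rcases h with ⟨B', h, e⟩ | ⟨B', h, e⟩
    · have := h1 B' h.1
      omega
    · rw [← ix_inj q hq B' h.1 B hB (by omega), h.2]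
  · exact h01 _ fun e => h (.inr ⟨B, ⟨hB, e⟩, rfl⟩)

lemma relE {β : Type} {g : ℕ → β} {x : List β → ZMod 2} {p o : ℕ} {S : Finset ℕ}
    (hx : ∀ m : List β, m.length = p + 2 → dA m x = 0)
    (h : ∀ B ∈ subs p, crd (o + ix B) S = x (g 0 :: B.map g)) :
    RN (fun (f : Fn) (z : ZMod 2) => f S = z) g (List.range 8) p (gF o) x := fun m hm hl => by
  rcases m with _ | ⟨a, m⟩
  · simp at hl
  rw [show List.range 8 = 0 :: List.range' 1 7 from rfl] at hm
  simp only [gF, gen]
  split_ifs with ha
  · subst ha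
    exact h m (List.mem_sublistsLen.2 ⟨List.cons_sublist_cons.1 hm, by simpa using hl⟩)
  · have h1 : (a :: m).Sublist (List.range' 1 7) := by
      rcases List.sublist_cons_iff.1 hm with h | ⟨r, h, -⟩
      · exact h
      · exact absurd (List.cons.inj h).1 ha
    have h2 := hx (g 0 :: (a :: m).map g) (by simpa using hl)
    rw [dA_rel (homE S) (g := g) (x' := fun l => x (g 0 :: l)) fun B hB hl' =>
      h B (List.mem_sublistsLen.2 ⟨hB.trans h1, by omega⟩)]
    exact (CharTwo.add_eq_zero.1 h2).symm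

lemma map_getD {β : Type} (l : List β) (d : β) :
    (List.range l.length).map (fun i => l.getD i d) = l :=
  List.ext_getElem (by simp) fun i h1 h2 => by simp [h2]

section lists

variable {β : Type} [Inhabited β] {x y : List β → ZMod 2} {l : List β}

lemma z22 (hx : ∀ m : List β, m.length = 2 + 2 → dA m x = 0)
    (hy : ∀ m : List β, m.length = 2 + 2 → dA m y = 0) (hl : l.length = 7) : f22 x y l = 0 := by
  let g := fun i => l.getD i default
  obtain ⟨S, h1, h2, h3⟩ := exists_S (p := 2) (q := 2) (o := 21) (N := 42) (by simp) (by simp)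
    ix_lt2 (by omega) (fun B => x (g 0 :: B.map g)) (fun B => y (g 0 :: B.map g))
    fun B hB _ => by have := ix_lt2 B hB; omega
  rw [← map_getD l default, hl, ← f22_rel (homE S) (relE hx h2) (relE hy h3) (List.range 7)
    (by decide) rfl, van22 S h1]

lemma z23 (hx : ∀ m : List β, m.length = 2 + 2 → dA m x = 0)
    (hy : ∀ m : List β, m.length = 3 + 2 → dA m y = 0) (hl : l.length = 8) : f23 x y l = 0 := by
  let g := fun i => l.getD i default
  obtain ⟨S, h1, h2, h3⟩ := exists_S (p := 2) (q := 3) (o := 21) (N := 56) (by simp) (by simp)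
    ix_lt2 (by omega) (fun B => x (g 0 :: B.map g)) (fun B => y (g 0 :: B.map g))
    fun B hB _ => by have := ix_lt3 B hB; omega
  rw [← map_getD l default, hl, ← f23_rel (homE S) (relE hx h2) (relE hy h3) (List.range 8)
    (.refl _) rfl, van23 S h1]

lemma zAd (hx : ∀ m : List β, m.length = 3 + 2 → dA m x = 0) (hl : l.length = 8) :
    fAd x l = 0 := by
  let g := fun i => l.getD i default
  obtain ⟨S, h1, h2, -⟩ := exists_S (p := 3) (q := 3) (o := 35) (N := 35) (by simp) (by simp)
    ix_lt3 (by omega) (fun B => x (g 0 :: B.map g)) 0 fun B hB h => by simp at h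
  rw [← map_getD l default, hl, ← fAd_rel (homE S) (relE hx h2) (List.range 8) (.refl _) rfl,
    vanAd S h1]

end lists

lemma lc_bdL {α : Type*} (x : List α → ZMod 2) (l : List α) : lc x (bdL (ZMod 2) l) = dA l x := by
  induction l generalizing x with
  | nil => simp [bdL, dA]
  | cons v m ih => simp [bdL, dA, lc_cone, ih, CharTwo.sub_eq_add]

lemma sumA_zero {γ : Type*} (L : List γ) {f : γ → ZMod 2} (h : ∀ c, f c = 0) : sumA L f = 0 := by
  induction L with
  | nil => rfl
  | cons c L ih => rw [sumA, h, ih, add_zero]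

variable {Y : Type*} [TopologicalSpace Y] [Nonempty Y] {T S S' : Set (Set Y)} {F : V → Y}
  {a b c d : Cc (ZMod 2) Y} {p q k : ℕ}

/-- Values of a cochain on affine simplices. -/
noncomputable def ev (F : V → Y) (a : Cc (ZMod 2) Y) (l : List V) : ZMod 2 :=
  a (real F (single l 1))

/-- The cochain given by a certificate. -/
noncomputable def zc (E : Dat) (p q : ℕ) (a b : Cc (ZMod 2) Y) : Cc (ZMod 2) Y :=
  lc fun s => zt E (res p a s.f) (res p a s.f) (res q b s.f) (res q b s.f) (std s.n)

lemma res_rel (hF : Continuous F) (l : List V) (p : ℕ) (a : Cc (ZMod 2) Y) :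
    RA (fun x y => x = y) (aff l) (std l.length) (res p a (mk l.length (F ∘ aff l)).f)
      (tr p (ev F a)) := fun m hm => by
  simp only [res, tr, ev, List.length_map]
  split_ifs
  · rw [real_congr (convex_Δ l.length) (mk_f (hF.comp (continuous_aff l)).continuousOn)
      (n := m.length) (single_mem ⟨rfl, fun x hx => std_mem x (hm.subset hx)⟩), ← real_lmap,
      lmap_single]
  · rfl

lemma ev_cu (hF : Continuous F) (i p q : ℕ) (a b : Cc (ZMod 2) Y) :
    ev F (cu i p q a b) = cuA i p q (ev F a) (ev F b) := funext fun l => by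
  have := cuL_rel homI (i + 1) (res_rel hF l p a) (res_rel hF l q b)
  rw [map_aff_std] at this
  simpa [ev, cu, cuA] using this

lemma ev_cup (hF : Continuous F) (p : ℕ) (a b : Cc (ZMod 2) Y) :
    ev F (cup p a b) = cupA p (ev F a) (ev F b) := funext fun l => cup_real hF p a b l

lemma ev_zc (hF : Continuous F) (E : Dat) (p q : ℕ) (a b : Cc (ZMod 2) Y) : ev F (zc E p q a b) =
    zt E (tr p (ev F a)) (tr p (ev F a)) (tr q (ev F b)) (tr q (ev F b)) := funext fun l => by
  have := zt_rel homI E (res_rel hF l p a) (res_rel hF l p a) (res_rel hF l q b)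
    (res_rel hF l q b) _ (.refl _)
  rw [map_aff_std] at this
  simpa [ev, zc] using this

lemma ev_D (hF : Continuous F) (a : Cc (ZMod 2) Y) (l : List V) :
    ev F (a ∘ₗ D) l = dA l (ev F a) := by
  rw [← lc_bdL, ev, LinearMap.comp_apply, D_glob hF, bd_single]
  exact map_eq (F := a ∘ₗ real F) (fun m _ => by simp [ev, -real_single]) (mem_top _)

lemma ev_eqv {U : Set Y} (h : Eqv S k a b) (hU : U ∈ S) (hF : Continuous F) (hA : ∀ t, F t ∈ U)
    {l : List V} (hl : l.length = k + 1) : ev F a l = ev F b l :=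
  h _ (In_le_Ch' hU (hl ▸ glob_In hF hA l))

lemma eqv_of_ev (h : ∀ U ∈ S, ∀ F : V → Y, Continuous F → (∀ t, F t ∈ U) → ∀ l : List V,
    l.length = k + 1 → ev F a l = ev F b l) : Eqv S k a b :=
  eqv_of_In fun U hU _ _ hc => eq_In (h U hU) hc

lemma tr_zero {U : Set Y} (h : Eqv S p a 0) (hU : U ∈ S) (hF : Continuous F)
    (hA : ∀ t, F t ∈ U) (l : List V) : tr p (ev F a) l = 0 := by
  unfold tr
  split_ifs with hl
  · exact ev_eqv h hU hF hA hl
  · rfl

lemma bo_of (E : Dat) (ha : Cy T S p a) (hb : Cy T S' q b) (h : ∀ F : V → Y, Continuous F →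
    (∀ m : List V, m.length = p + 2 → dA m (ev F a) = 0) →
    (∀ m : List V, m.length = q + 2 → dA m (ev F b) = 0) → ∀ l : List V, l.length = k + 2 →
    ev F c l + dA l (zt E (tr p (ev F a)) (tr p (ev F a)) (tr q (ev F b)) (tr q (ev F b))) = 0) :
    Bo T (S ∪ S') (k + 1) c := by
  refine bo_succ.2 ⟨zc E p q a b, eqv_of_ev fun U hU F hF hA l _ => ?_,
    eqv_of_ev fun U hU F hF hA l hl => ?_⟩
  · rw [ev_zc hF]
    refine sumA_zero _ fun e => ?_
    rcases hU with hU | hU
    · rw [tr_zero ha.2 hU hF hA, zero_mul]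
    · rw [sumA_zero, mul_zero]
      intro e'
      rw [sumA_zero, mul_zero]
      intro e''
      rw [tr_zero hb.2 hU hF hA, zero_mul]
  · rw [ev_D hF, ev_zc hF]
    exact CharTwo.add_eq_zero.1 (h F hF (fun m hm => (ev_D hF a m).symm.trans
      (ev_eqv ha.1 hU hF hA hm)) (fun m hm => (ev_D hF b m).symm.trans
      (ev_eqv hb.1 hU hF hA hm)) l hl)

lemma ev_add (a b : Cc (ZMod 2) Y) (l : List V) : ev F (a + b) l = ev F a l + ev F b l := rfl

lemma ev_sub (a b : Cc (ZMod 2) Y) (l : List V) : ev F (a - b) l = ev F a l + ev F b l :=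
  CharTwo.sub_eq_add _ _

end Adem

variable {Y : Type*} [TopologicalSpace Y] [Nonempty Y] {T S S' : Set (Set Y)}
  {a b t u : Cc (ZMod 2) Y}

theorem cartan22 (ha : Cy T S 2 a) (hb : Cy T S' 2 b) : Bo T (S ∪ S') 6 (sq 2 4 (cup 2 a b) -
    (cup 4 (cup 2 a a) b + cup 3 (sq 1 2 a) (sq 1 2 b) + cup 2 a (cup 2 b b))) :=
  Adem.bo_of Adem.d22 ha hb fun F hF h1 h2 l hl => by
    simp only [Adem.ev_sub, Adem.ev_add, Adem.ev_cu hF, Adem.ev_cup hF]
    exact Adem.z22 h1 h2 hl

theorem cartan23 (ht : Cy T S 2 t) (hu : Cy T S' 3 u) : Bo T (S ∪ S') 7 (sq 3 5 (cup 2 t u) -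
    (cup 4 (cup 2 t t) u + cup 3 (sq 1 2 t) (sq 2 3 u) + cup 2 t (sq 1 3 u))) :=
  Adem.bo_of Adem.d23 ht hu fun F hF h1 h2 l hl => by
    simp only [Adem.ev_sub, Adem.ev_add, Adem.ev_cu hF, Adem.ev_cup hF]
    exact Adem.z23 h1 h2 hl

theorem adem (hu : Cy T S 3 u) : Bo T S 7 (sq 3 5 (sq 1 3 u) - sq 1 4 (sq 2 3 u)) := by
  rw [← union_self S]
  refine Adem.bo_of Adem.dAd hu hu fun F hF h1 _ l hl => ?_
  simp only [Adem.ev_sub, Adem.ev_cu hF]
  exact Adem.zAd h1 hl

/-- The twisted Adem relation. -/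
theorem adem_tw (ht : Cy T ∅ 2 t) (hu : Cy T S 3 u) (h1 : Bo T S 4 (sq 2 3 u)) :
    Bo T S 7 (sq 3 5 (sq 1 3 u + cup 2 t u) + cup 2 t (sq 1 3 u + cup 2 t u)) := by
  have cB : Cy T S 5 (cup 2 t u) := by simpa using ht.mul hu
  have e1 := sq_add (i := 3) (k := 7) (hu.square (i := 1) (k := 5)) cB
  have e4 := cartan23 ht hu
  have e5 := Bo.mul_right (ht.square (i := 1) (k := 3)) h1
  rw [union_self] at e1
  rw [empty_union] at e4 e5
  convert (((e1.add (adem hu)).add (h1.square (i := 1))).add e4).add e5 using 1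
  rw [cup_add_right, ← cup_assoc 2 2 t t u, ← sub_eq_zero,
    ← add_self2 (cup 2 t (sq 1 3 u) + cup 4 (cup 2 t t) u)]
  abel

/-- The second square of a product of two classes of degree two. -/
theorem sq2_mul (ha : Cy T S 2 a) (hb : Cy T S' 2 b) (h3 : Triv (ZMod 2) T S 3) :
    Bo T (S ∪ S') 6 (sq 2 4 (cup 2 a b) - cup 2 (a + b) (cup 2 a b)) := by
  have e2 := Bo.mul_left (h3 _ (ha.square (i := 1))) (hb.square (i := 1) (k := 3))
  have e3 := Bo.mul_left (cup_comm ha hb) hb
  rw [union_assoc, union_self, show (-1 : ZMod 2) ^ (2 * 2) = 1 from rfl, one_smul, cup_sub_left,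
    cup_assoc, cup_assoc] at e3
  convert ((cartan22 ha hb).add e2).add e3 using 1
  rw [cup_add_left, ← cup_assoc 2 2 a a b]
  abel

end Pool.Agent.Lib.MP_bf05b2_gt
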