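import Pool.Agent.Lib.MP_bf05b2_gt.H57Data
import Pool.Agent.Lib.MP_bf05b2_gt.H57Adem

/-! The cohomology ring of the threefold. -/

set_option linter.unusedSectionVars false

namespace Pool.Agent.Lib.MP_bf05b2_gt

open Set Finsupp Pool.Agent.Shared.Sing Pool.Agent.Shared.SingEZ Sum Fan

/-- The non-zero triple intersection numbers, for increasing triples. -/
def TL : List ((ℕ × ℕ × ℕ) × ℤ) :=
  [((0, 0, 0), 8), ((0, 0, 1), -2), ((0, 0, 2), -2), ((0, 0, 3), -2), ((0, 0, 4), -2), ((0, 1,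
   2), 1), ((0, 1, 4), 1), ((0, 2, 3), 1), ((0, 3, 4), 1), ((1, 1, 1), -2), ((1, 1, 2), 1), ((1,
   1, 4), -1), ((1, 1, 7), -2), ((1, 2, 2), -1), ((1, 2, 7), 1), ((1, 4, 4), 1), ((1, 4, 5), 1),
   ((1, 5, 6), 1), ((1, 6, 6), -2), ((1, 6, 7), 1), ((1, 7, 7), -2), ((2, 2, 2), -2), ((2, 2,
   3), 1), ((2, 2, 9), -2), ((2, 3, 3), -1), ((2, 3, 9), 1), ((2, 7, 8), 1), ((2, 8, 8), -2),
   ((2, 8, 9), 1), ((2, 9, 9), -2), ((3, 3, 3), -2), ((3, 3, 4), 1), ((3, 3, 11), -2), ((3, 4,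
   4), -1), ((3, 4, 11), 1), ((3, 9, 10), 1), ((3, 10, 10), -2), ((3, 10, 11), 1), ((3, 11, 11),
   -2), ((4, 4, 4), -2), ((4, 4, 5), -2), ((4, 5, 5), -2), ((4, 5, 12), 1), ((4, 11, 12), 1),
   ((4, 12, 12), -2), ((5, 5, 5), -1), ((5, 5, 6), -1), ((5, 5, 12), 1), ((5, 5, 13), -1), ((5,
   6, 6), 1), ((5, 6, 13), 1), ((5, 12, 12), -1), ((5, 12, 13), 1), ((5, 13, 13), -1), ((6, 6,
   7), -1), ((6, 6, 13), -2), ((6, 7, 7), 1), ((6, 7, 13), 1), ((7, 7, 7), -1), ((7, 7, 8), -1),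
   ((7, 7, 13), -1), ((7, 8, 8), 1), ((7, 8, 13), 1), ((7, 13, 13), -1), ((8, 8, 9), -1), ((8,
   8, 13), -2), ((8, 9, 9), 1), ((8, 9, 13), 1), ((9, 9, 9), -1), ((9, 9, 10), -1), ((9, 9, 13),
   -1), ((9, 10, 10), 1), ((9, 10, 13), 1), ((9, 13, 13), -1), ((10, 10, 11), -1), ((10, 10,
   13), -2), ((10, 11, 11), 1), ((10, 11, 13), 1), ((11, 11, 11), -1), ((11, 11, 12), -1), ((11,
   11, 13), -1), ((11, 12, 12), 1), ((11, 12, 13), 1), ((11, 13, 13), -1), ((12, 12, 13), -2),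
   ((13, 13, 13), 4)]

/-- The triple intersection numbers. -/
def TB (i j k : Fin 14) : ℤ :=
  (TL.lookup (min i.1 (min j.1 k.1), i.1 + j.1 + k.1 - min i.1 (min j.1 k.1) - max i.1 (max j.1 k.1),
    max i.1 (max j.1 k.1))).getD 0

section pure

lemma TB_s1 (i j k : Fin 14) : TB i j k = TB j i k := by
  unfold TB
  rw [show min i.1 (min j.1 k.1) = min j.1 (min i.1 k.1) by omega,
    show max i.1 (max j.1 k.1) = max j.1 (max i.1 k.1) by omega, add_comm i.1 j.1]

lemma TB_s2 (i j k : Fin 14) : TB i j k = TB i k j := by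
  unfold TB
  rw [min_comm j.1 k.1, max_comm j.1 k.1, add_right_comm i.1 j.1 k.1]

/-- The maximal cones as bit sets. -/
def algC : List ℕ :=
  [7, 13, 25, 19, 134, 524, 2072, 50, 98, 194, 388, 772, 1544, 3080, 6160, 4144, 8288, 8384, 8576,
   8960, 9728, 11264, 14336, 12320]

/-- The three rays lie in a common cone. -/
def algF (i j k : Fin 14) : Bool := algC.any fun c => c.testBit i && c.testBit j && c.testBit k

lemma algC_spec : ∀ s ∈ LB, ∃ c ∈ algC, ∀ k : Fin 3, c.testBit (s.e k) = true := by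
  decide +kernel

lemma algF_spec {i j k : Fin 14} (h : algF i j k = false) {σ : Finset (Fin 14)} (hσ : σ ∈ FB.K) :
    i ∉ σ ∨ j ∉ σ ∨ k ∉ σ := by
  obtain ⟨s, hs, h1⟩ := mem_K_FB.1 hσ
  obtain ⟨c, hc, h2⟩ := algC_spec s hs
  have h3 : ∀ x ∈ σ, c.testBit x = true := fun x hx => by
    obtain ⟨k, -, rfl⟩ := Finset.mem_image.1 (h1 hx)
    exact h2 k
  by_contra hn
  simp only [not_or, not_not] at hn
  have : algF i j k = true :=
    List.any_eq_true.2 ⟨c, hc, by rw [h3 i hn.1, h3 j hn.2.1, h3 k hn.2.2]; rfl⟩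
  rw [h] at this
  exact Bool.false_ne_true this

/-- The table of intersection numbers, four bits for each entry. -/
def algN : ℕ :=
  0x6212121212222220322222322222131322222222222230322222222212231322222222222230322222221222231322222222222230322222132222231222222222222222222222222222222222222222222222222222222222222222222222222222203222223222220232222210222233122222232222222222222222222222222222222222222222222222222222222222222222222222222231222222332222203222223222222222222222222222222222222222222222222222222222222222222213132222222222331222222322221113222222022232312222223222222222222222222222222222222222222222222222222222222222222222222222222223222222223222220322222302222222222222222222222222222222222222222222222230322222222222222222222222323122222232220212322222022232231222223222222222222222222222222222222222222222222222222222222222222222222222222222303222222222222222222222222222222222222222222222222222122313222222222222222222222222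22222222222232231222223222122113222220223222312222232222222222222222222222222222222222222222222222222222222222222322222223222222032222302222222222222222222222222222222222303222222222222222222222222222222222222222222222222232223122222322022212322220223222231222232222222222222222222222222222222222222222222222222222222222222230322222222222222222222222222222222222122223132222222222222222222222222222222222222222222222222222222222222232222312222322122221132222023222223122223222222222222222222222222222222222222222222222222322222232222222032223022222222222222222222230322222222222222222222222222222222222222222222222222222222222222222222222222232222231222232022222123222023222222312223222222222222222222222222222222222222222222222222230322222222222222222221322222312222231222222332222222222222222222222222222222222222222222222222222222222222222222222222232222223122232132222211022222322222200223222222222222222222222222222222222222323222222222222222222222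2222222222220322222322222232222222232222222222222222222222222222222222222222222222222222222222222222222222222232222220022322222222200123222322222213223222222222222222222222233221322222222223230222222222222222222222222222222032222230222223032222222222223222222232222222222222222222222222222222222222222222222222222222222223222222132232202222223012222223222221323222222222222222222222223232022222222222222222222222222222222222222222222222222222222222203222230222222303222222222222322222232222222222222222222222222222222222222222222222232222213232222022222301222222232222133222222222232302222222222222222222222222222222222222222222222222222222222222222222222222222222222222222220322230222222230322222222222232322222222222233221322222222222222222222322221332222220221230222222222232320222222222222222222222222222222222222222222222222222222222222222222222222222222222222222222222222222222222222222222222222222222222222222232302222222223232022222222223230222222222323202222222220000a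

/-- The intersection numbers read from the table. -/
def algT (i j k : Fin 14) : ℤ := ((algN >>> (4 * (196 * i.1 + j.1 + 14 * k.1)) % 16 : ℕ) : ℤ) - 2

lemma TB_eq : TB = algT := by
  have : ∀ i j k, TB i j k = algT i j k := by decide +kernel
  exact funext fun i => funext fun j => funext (this i j)

lemma TB_sr : ∀ i j k, algF i j k = false → TB i j k = 0 := by
  rw [TB_eq]
  decide +kernel

/-- The pairing of a character with a ray. -/
def algD (m : Fin 3 → ℤ) (i : Fin 14) : ℤ := ∑ k, m k * vB i k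

/-- Sorting a triple. -/
def algS (i j k : Fin 14) : Fin 14 × Fin 14 × Fin 14 :=
  if i ≤ j then (if j ≤ k then (i, j, k) else if i ≤ k then (i, k, j) else (k, i, j))
  else if i ≤ k then (j, i, k) else if j ≤ k then (j, k, i) else (k, j, i)

/-- A triple which is known. -/
def algK (K : List (Fin 14 × Fin 14 × Fin 14)) (i j k : Fin 14) : Prop :=
  algF i j k = false ∨ algS i j k ∈ K

instance algKDec (K : List (Fin 14 × Fin 14 × Fin 14)) (i j k : Fin 14) : Decidable (algK K i j k) :=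
  inferInstanceAs (Decidable (_ ∨ _))

/-- A certificate determines all triples. -/
def algR : List (Fin 14 × Fin 14 × Fin 14) → List (Fin 14 × Fin 14 × Fin 14 × (Fin 3 → ℤ)) → Prop
  | K, [] => ∀ i j k, algK K i j k
  | K, s :: L => (algD s.2.2.2 s.1 = 1 ∧ (∀ x, x = s.1 ∨ algD s.2.2.2 x = 0 ∨ algK K x s.2.1 s.2.2.1) ∧
      ∑ x, algD s.2.2.2 x * algT x s.2.1 s.2.2.1 = 0) ∧ algR (algS s.1 s.2.1 s.2.2.1 :: K) L

instance algRDec : ∀ K L, Decidable (algR K L)
  | _, [] => inferInstanceAs (Decidable (∀ _ _ _, _))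
  | K, s :: L =>
    haveI := algRDec (algS s.1 s.2.1 s.2.2.1 :: K) L
    inferInstanceAs (Decidable (_ ∧ _))

/-- The certificate. -/
def algL : List (Fin 14 × Fin 14 × Fin 14 × (Fin 3 → ℤ)) :=
  [(0, 0, 1, ![-1, 1, 1]), (0, 2, 0, ![1, -1, 1]), (3, 0, 0, ![-1, 0, 0]), (4, 0, 0, ![0, -1, 0]),
   (1, 0, 1, ![1, 0, 0]), (4, 0, 1, ![0, -1, 0]), (2, 0, 2, ![0, 1, 0]), (3, 2, 0, ![-1, 0, 0]),
   (3, 3, 0, ![-1, 0, 0]), (3, 4, 0, ![-1, 0, 0]), (4, 4, 0, ![0, -1, 0]), (1, 2, 1, ![2, 1, -1]),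
   (1, 1, 4, ![0, 1, 1]), (1, 5, 1, ![0, 1, 1]), (6, 1, 1, ![1, 0, -1]), (7, 1, 1, ![0, 1, 0]),
   (2, 1, 2, ![-1, 0, 1]), (7, 1, 2, ![-1, 0, 0]), (4, 1, 4, ![1, -1, 0]), (5, 4, 1, ![0, 0, -1]),
   (5, 5, 1, ![1, 0, 0]), (6, 1, 5, ![0, 0, -1]), (6, 1, 6, ![1, 0, -1]), (7, 6, 1, ![-1, 0, 0]),
   (7, 1, 7, ![-1, 0, 0]), (2, 2, 3, ![-1, 2, -1]), (2, 7, 2, ![-1, 0, 1]), (8, 2, 2, ![0, 1,
   -1]), (9, 2, 2, ![-1, 0, 0]), (3, 3, 2, ![-1, 1, 0]), (9, 2, 3, ![-1, 0, 0]), (7, 7, 2, ![0, 1,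
   0]), (8, 7, 2, ![-1, 0, 0]), (8, 8, 2, ![-1, 1, 0]), (8, 9, 2, ![-1, 1, 0]), (9, 2, 9, ![-1, 0,
   0]), (3, 4, 3, ![-2, -1, -1]), (3, 9, 3, ![0, -1, 1]), (10, 3, 3, ![-1, 0, -1]), (11, 3, 3,
   ![0, -1, 0]), (4, 3, 4, ![-1, -1, 0]), (11, 3, 4, ![0, -1, 0]), (9, 3, 9, ![-1, 0, 0]), (10, 9,
   3, ![0, -1, 0]), (10, 3, 10, ![-1, -1, 0]), (10, 11, 3, ![-1, -1, 0]), (11, 3, 11, ![0, -1,
   0]), (4, 4, 4, ![1, 0, 1]), (4, 4, 5, ![1, 0, 1]), (4, 4, 11, ![1, 0, 1]), (4, 12, 4, ![1, 0,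
   1]), (5, 4, 5, ![0, 1, 0]), (12, 4, 5, ![0, 0, -1]), (11, 11, 4, ![0, -1, 0]), (11, 12, 4, ![0,
   -1, 0]), (12, 4, 12, ![0, 0, -1]), (5, 5, 6, ![1, 0, 0]), (12, 5, 5, ![1, -1, 0]), (13, 5, 5,
   ![-1, 0, -1]), (6, 6, 5, ![0, 1, 0]), (6, 5, 13, ![0, 1, 0]), (12, 5, 12, ![1, 0, 0]), (12, 5,
   13, ![1, 0, 0]), (13, 13, 5, ![0, 0, -1]), (6, 6, 6, ![1, 1, 0]), (6, 6, 7, ![1, 1, 0]), (6, 6,
   13, ![1, 1, 0]), (7, 6, 7, ![-1, 0, 0]), (13, 7, 6, ![0, 0, -1]), (13, 6, 13, ![0, 0, -1]), (7,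
   7, 7, ![0, 1, 0]), (8, 7, 7, ![-1, 0, 0]), (7, 7, 13, ![0, 1, 0]), (8, 7, 8, ![-1, 0, 0]), (13,
   8, 7, ![0, 0, -1]), (13, 7, 13, ![0, 0, -1]), (8, 8, 8, ![-1, 1, 0]), (8, 8, 9, ![-1, 1, 0]),
   (8, 8, 13, ![-1, 1, 0]), (9, 8, 9, ![-1, 0, 0]), (9, 8, 13, ![-1, 0, 0]), (13, 8, 13, ![0, 0,
   -1]), (9, 9, 9, ![-1, 0, 0]), (9, 10, 9, ![-1, 0, 0]), (9, 13, 9, ![-1, 0, 0]), (10, 9, 10,
   ![0, -1, 0]), (10, 9, 13, ![0, -1, 0]), (13, 13, 9, ![0, 0, -1]), (10, 10, 10, ![-1, -1, 0]),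
   (10, 10, 11, ![-1, -1, 0]), (10, 13, 10, ![-1, -1, 0]), (11, 11, 10, ![0, -1, 0]), (13, 10, 11,
   ![0, 0, -1]), (13, 13, 10, ![0, 0, -1]), (11, 11, 11, ![0, -1, 0]), (12, 11, 11, ![1, 0, 0]),
   (11, 11, 13, ![0, -1, 0]), (12, 12, 11, ![1, 0, 0]), (13, 12, 11, ![0, 0, -1]), (13, 11, 13,
   ![0, 0, -1]), (12, 12, 12, ![1, 0, 0]), (12, 12, 13, ![1, 0, 0]), (12, 13, 13, ![1, 0, 0]),
   (13, 13, 13, ![0, 0, -1]), (0, 0, 0, ![0, 0, 1]), (1, 1, 1, ![0, 0, 1]), (2, 2, 2, ![0, 0, 1]),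
   (3, 3, 3, ![-1, 0, 0]), (5, 5, 5, ![0, 0, -1])]

lemma algR_ok : algR [(0, 1, 2)] algL := by decide +kernel

variable {M : Type} [AddCommGroup M]

lemma alg_tri {T : Fin 14 → Fin 14 → Fin 14 → M} (s1 : ∀ i j k, T i j k = T j i k)
    (s2 : ∀ i j k, T i j k = T i k j) (sr : ∀ i j k, algF i j k = false → T i j k = 0)
    (lin : ∀ m j k, ∑ i, algD m i • T i j k = 0) (i j k : Fin 14) :
    T i j k = TB i j k • T 0 1 2 := by
  let E : Fin 14 → Fin 14 → Fin 14 → M := fun i j k => T i j k - TB i j k • T 0 1 2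
  have e1 : ∀ i j k, E i j k = E j i k := fun i j k => by simp only [E, s1 i j k, TB_s1 i j k]
  have e2 : ∀ i j k, E i j k = E i k j := fun i j k => by simp only [E, s2 i j k, TB_s2 i j k]
  have e3 : ∀ i j k, E i j k = E (algS i j k).1 (algS i j k).2.1 (algS i j k).2.2 := fun i j k => by
    unfold algS
    split_ifs
    · rfl
    · exact e2 _ _ _
    · exact (e2 _ _ _).trans (e1 _ _ _)
    · exact e1 _ _ _
    · exact (e1 _ _ _).trans (e2 _ _ _)
    · exact ((e1 _ _ _).trans (e2 _ _ _)).trans (e1 _ _ _)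
  have e4 : ∀ K, (∀ x ∈ K, E x.1 x.2.1 x.2.2 = 0) → ∀ i j k, algK K i j k → E i j k = 0 := by
    rintro K hK i j k (h | h)
    · simp only [E, sr i j k h, TB_sr i j k h, zero_smul, sub_zero]
    · exact (e3 i j k).trans (hK _ h)
  have e5 : ∀ L K, (∀ x ∈ K, E x.1 x.2.1 x.2.2 = 0) → algR K L → ∀ i j k, E i j k = 0 := by
    intro L
    induction L with
    | nil => exact fun K hK h i j k => e4 K hK i j k (h i j k)
    | cons s L ih =>
      rintro K hK ⟨⟨h1, h2, h3⟩, h4⟩
      refine ih _ (List.forall_mem_cons.2 ⟨(e3 _ _ _).symm.trans ?_, hK⟩) h4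
      rw [← TB_eq] at h3
      have h5 : ∑ x, algD s.2.2.2 x • E x s.2.1 s.2.2.1 = 0 := by
        simp only [E, smul_sub, Finset.sum_sub_distrib, lin, smul_smul, ← Finset.sum_smul, h3,
          zero_smul, sub_zero]
      rwa [Finset.sum_eq_single s.1 (fun x _ hx => ?_) (fun h => absurd (Finset.mem_univ _) h), h1,
        one_smul] at h5
      rcases (h2 x).resolve_left hx with h | h
      · rw [h, zero_smul]
      · rw [e4 K hK _ _ _ h, smul_zero]
  refine sub_eq_zero.1 (e5 algL [(0, 1, 2)] (fun x hx => ?_) algR_ok i j k)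
  rw [List.mem_singleton.1 hx]
  change T 0 1 2 - TB 0 1 2 • T 0 1 2 = 0
  rw [show TB 0 1 2 = 1 by decide +kernel, one_smul, sub_self]

lemma alg_quad {P : Fin 14 → Fin 14 → M} (hs : ∀ i j, P i j = P j i) {A : Fin 14 → Fin 14 → ℤ}
    (h : ∀ i j, (if j < i then A i j + A j i else if i = j then A i j else 0) = 0 ∨ P i j = 0) :
    ∑ i, ∑ j, A i j • P i j = 0 := by
  have h1 : ∑ i, ∑ j, (if i < j then A i j else 0) • P i j =
      ∑ i, ∑ j, (if j < i then A j i else 0) • P i j := by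
    rw [Finset.sum_comm]
    simp only [hs]
  rw [← sub_eq_zero, ← Finset.sum_sub_distrib] at h1
  rw [← h1]
  refine Finset.sum_congr rfl fun i _ => ?_
  rw [← Finset.sum_sub_distrib]
  refine Finset.sum_congr rfl fun j _ => ?_
  rw [← sub_smul]
  rcases h i j with h | h
  · congr 1
    rcases lt_trichotomy i j with e | e | e
    · rw [if_pos e, if_neg e.not_gt, sub_zero]
    · subst e
      simpa using h
    · rw [if_pos e] at h
      rw [if_neg e.not_gt, if_pos e]
      omega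
  · rw [h, smul_zero, smul_zero]

/-- The characters used for the square of `a`. -/
def algM : Fin 14 → Fin 3 → ℤ :=
  ![![0, 0, 1], ![0, 0, 1], ![0, 0, 1], ![0, 0, 1], ![0, 0, 1], ![1, -1, 0], ![1, 0, 0], ![1, 1, 0],
    ![0, 1, 0], ![-1, 1, 0], ![-1, 0, 0], ![-1, -1, 0], ![0, -1, 0], ![0, 0, 0]]

lemma algM_spec : ∀ i j, (if j < i then (aB i * aB j - algD (algM j) i) +
    (aB j * aB i - algD (algM i) j) else if i = j then aB i * aB j - algD (algM j) i else 0) = 0 ∨
    algF i j j = false := by decide +kernel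

lemma alg_asq {P : Fin 14 → Fin 14 → M} (hs : ∀ i j, P i j = P j i)
    (sr : ∀ i j, algF i j j = false → P i j = 0) (lin : ∀ m j, ∑ i, algD m i • P i j = 0) :
    ∑ i, ∑ j, (aB i * aB j) • P i j = 0 := by
  have h := alg_quad hs (A := fun i j => aB i * aB j - algD (algM j) i) fun i j =>
    (algM_spec i j).imp_right (sr i j)
  simp only [sub_smul, Finset.sum_sub_distrib] at h
  rwa [Finset.sum_comm (f := fun i j => algD (algM j) i • P i j), Finset.sum_eq_zero
    fun j _ => lin _ j, sub_zero] at h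

/-- The matrix given by a list of entries. -/
def algE (L : List (Fin 14 × Fin 14 × ℤ)) (i j : Fin 14) : ℤ :=
  (L.map fun x => if x.1 = i ∧ x.2.1 = j then x.2.2 else 0).sum

lemma algE_sum (r : Fin 14 → ℤ) (L : List (Fin 14 × Fin 14 × ℤ)) :
    ∑ i, ∑ j, r i * r j * algE L i j = (L.map fun x => r x.1 * r x.2.1 * x.2.2).sum := by
  induction L with
  | nil => simp [algE]
  | cons x L ih =>
    rw [List.map_cons, List.sum_cons, ← ih]
    simp only [algE, List.map_cons, List.sum_cons, mul_add, Finset.sum_add_distrib]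
    congr 1
    simp [ite_and, Finset.sum_ite_eq]

lemma alg_form {r : Fin 14 → ℤ} (h0 : ∀ i < 3, r i = 0)
    (hQ : ∀ k, ∑ i, ∑ j, r i * r j * TB k i j = 0) (w : Fin 14 → ℤ)
    {L : List (Fin 14 × Fin 14 × ℤ)}
    (hL : ∀ i j, i < 3 ∨ j < 3 ∨ ∑ k, w k * algT k i j = algE L i j) :
    (L.map fun x => r x.1 * r x.2.1 * x.2.2).sum = 0 := by
  have h1 : ∑ k, w k * ∑ i, ∑ j, r i * r j * TB k i j = 0 := by simp [hQ]
  rw [← algE_sum, ← h1]
  simp only [Finset.mul_sum]
  rw [Finset.sum_comm (f := fun k i => ∑ j, w k * (r i * r j * TB k i j))]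
  refine Finset.sum_congr rfl fun i _ => ?_
  rw [Finset.sum_comm (f := fun k j => w k * (r i * r j * TB k i j))]
  refine Finset.sum_congr rfl fun j _ => ?_
  rcases hL i j with h | h | h
  · simp [h0 i h]
  · simp [h0 j h]
  · rw [← h, ← TB_eq, Finset.mul_sum]
    exact Finset.sum_congr rfl fun k _ => by ring

lemma alg_zero {r : Fin 14 → ℤ} (h0 : ∀ i < 3, r i = 0)
    (hQ : ∀ k, ∑ i, ∑ j, r i * r j * TB k i j = 0) : ∀ i, r i = r 13 * bB i := by
  have q1 := alg_form h0 hQ aB (L :=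
  [(3, 3, -2), (3, 4, 1), (3, 9, 1), (3, 11, -1), (4, 3, 1), (4, 4, -2), (4, 5, -1), (4, 11, 1),
   (5, 4, -1), (5, 5, -2), (5, 6, 1), (5, 12, 1), (6, 5, 1), (6, 6, -2), (6, 7, 1), (7, 6, 1), (7,
   7, -2), (7, 8, 1), (8, 7, 1), (8, 8, -2), (8, 9, 1), (9, 3, 1), (9, 8, 1), (9, 9, -2), (9, 10,
   1), (10, 9, 1), (10, 10, -2), (10, 11, 1), (11, 3, -1), (11, 4, 1), (11, 10, 1), (11, 11, -2),
   (11, 12, 1), (12, 5, 1), (12, 11, 1), (12, 12, -2)]) (by decide +kernel)
  have q2 := alg_form h0 hQ (fun k => if k = 0 then 1 else 0) (L :=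
  [(3, 4, 1), (4, 3, 1)]) (by decide +kernel)
  have q3 := alg_form h0 hQ (fun k => if k = 13 then 1 else 0) (L :=
  [(5, 5, -1), (5, 6, 1), (5, 12, 1), (5, 13, -1), (6, 5, 1), (6, 6, -2), (6, 7, 1), (7, 6, 1),
   (7, 7, -1), (7, 8, 1), (7, 13, -1), (8, 7, 1), (8, 8, -2), (8, 9, 1), (9, 8, 1), (9, 9, -1),
   (9, 10, 1), (9, 13, -1), (10, 9, 1), (10, 10, -2), (10, 11, 1), (11, 10, 1), (11, 11, -1), (11,
   12, 1), (11, 13, -1), (12, 5, 1), (12, 11, 1), (12, 12, -2), (13, 5, -1), (13, 7, -1), (13, 9,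
   -1), (13, 11, -1), (13, 13, 4)]) (by decide +kernel)
  simp only [List.map_cons, List.map_nil, List.sum_cons, List.sum_nil] at q1 q2 q3
  have key : 210 * (2 * r 3 - r 4 - r 9 + r 11) ^ 2 + 70 * (3 * r 4 + 2 * r 5 - r 9 - r 11) ^ 2 +
      35 * (4 * r 5 - 3 * r 6 + r 9 + r 11 - 3 * r 12) ^ 2 +
      21 * (5 * r 6 - 4 * r 7 + r 9 + r 11 - 3 * r 12) ^ 2 +
      14 * (6 * r 7 - 5 * r 8 + r 9 + r 11 - 3 * r 12) ^ 2 +
      10 * (7 * r 8 - 5 * r 9 + r 11 - 3 * r 12) ^ 2 +
      15 * (4 * r 9 - 7 * r 10 + 2 * r 11 + r 12) ^ 2 + 105 * (r 10 - 2 * r 11 + r 12) ^ 2 = 0 := by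
    linear_combination (-420) * q1
  have hsq : ∀ a b c d e f g h : ℤ, 210 * a ^ 2 + 70 * b ^ 2 + 35 * c ^ 2 + 21 * d ^ 2 +
      14 * e ^ 2 + 10 * f ^ 2 + 15 * g ^ 2 + 105 * h ^ 2 = 0 →
      a = 0 ∧ b = 0 ∧ c = 0 ∧ d = 0 ∧ e = 0 ∧ f = 0 ∧ g = 0 ∧ h = 0 := by
    intro a b c d e f g h H
    have := sq_nonneg a; have := sq_nonneg b; have := sq_nonneg c; have := sq_nonneg d
    have := sq_nonneg e; have := sq_nonneg f; have := sq_nonneg g; have := sq_nonneg h
    refine ⟨?_, ?_, ?_, ?_, ?_, ?_, ?_, ?_⟩ <;> exact pow_eq_zero_iff two_ne_zero |>.1 (by linarith)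
  obtain ⟨s1, s2, s3, s4, s5, s6, s7, s8⟩ := hsq _ _ _ _ _ _ _ _ key
  have f10 : r 10 = 2 * r 11 - r 12 := by linarith only [s8]
  have f9 : r 9 = 3 * r 11 - 2 * r 12 := by linarith only [s7, f10]
  have f8 : r 8 = 2 * r 11 - r 12 := by linarith only [s6, f9]
  have f7 : r 7 = r 11 := by linarith only [s5, f8, f9]
  have f6 : r 6 = r 12 := by linarith only [s4, f7, f9]
  have f5 : r 5 = 2 * r 12 - r 11 := by linarith only [s3, f6, f9]
  have f4 : r 4 = 2 * r 11 - 2 * r 12 := by linarith only [s2, f5, f9]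
  have f3 : r 3 = r 4 := by linarith only [s1, f4, f9]
  have e4 : r 4 = 0 := by
    rw [f3] at q2
    exact pow_eq_zero_iff two_ne_zero |>.1 (by linarith only [q2])
  have e11 : r 11 = r 12 := by linarith only [e4, f4]
  have e5 : r 5 = r 12 := by linarith only [e11, f5]
  have e7 : r 7 = r 12 := f7.trans e11
  have e8 : r 8 = r 12 := by linarith only [e11, f8]
  have e9 : r 9 = r 12 := by linarith only [e11, f9]
  have e10 : r 10 = r 12 := by linarith only [e11, f10]
  have e12 : r 12 = r 13 := by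
    rw [e5, f6, e7, e8, e9, e10, e11] at q3
    exact sub_eq_zero.1 (pow_eq_zero_iff two_ne_zero |>.1 (by linarith only [q3]))
  have z0 := h0 0 (by decide)
  have z1 := h0 1 (by decide)
  have z2 := h0 2 (by decide)
  intro i
  fin_cases i <;> simp [bB, z0, z1, z2, f3, e4, e5, f6, e7, e8, e9, e10, e11, e12]

end pure

variable (R : Type) [CommRing R]

/-- The class of a point. -/
noncomputable def om : Cc R FB.X := pr [FB.tR R 0, FB.tR R 1, FB.tR R 2]

/-- Half the anticanonical class. -/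
noncomputable def aC : Cc R FB.X := ∑ i, (aB i : R) • FB.tR R i

section aux

/-- The coboundaries. -/
def algB (k : ℕ) : Submodule R (Cc R FB.X) where
  carrier := {φ | Bo {univ} ∅ k φ}
  add_mem' := Bo.add
  zero_mem' := Bo.zero
  smul_mem' r _ := Bo.smul r

/-- Cochains modulo coboundaries. -/
noncomputable def algQ (k : ℕ) : Cc R FB.X →ₗ[R] Cc R FB.X ⧸ algB R k := (algB R k).mkQ

variable {R} {k p q n : ℕ} {a b c : Cc R FB.X}

lemma algQ_eq : algQ R k a = algQ R k b ↔ Bo {univ} ∅ k (a - b) := Submodule.Quotient.eq _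

lemma algQ_zero : algQ R k a = 0 ↔ Bo {univ} ∅ k a := Submodule.Quotient.mk_eq_zero _

lemma alg_cy (h : p + q = n) (ha : Cy {univ} ∅ p a) (hb : Cy {univ} ∅ q b) :
    Cy {univ} ∅ n (cup p a b) := by
  simpa only [union_empty, h] using ha.mul hb

lemma alg_left (h : p + q = n) (ha : Bo {univ} ∅ p a) (hb : Cy {univ} ∅ q b) :
    Bo {univ} ∅ n (cup p a b) := by
  simpa only [union_empty, h] using ha.mul_left hb

lemma alg_right (h : p + q = n) (ha : Cy {univ} ∅ p a) (hb : Bo {univ} ∅ q b) :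
    Bo {univ} ∅ n (cup p a b) := by
  simpa only [union_empty, h] using Bo.mul_right ha hb

lemma alg_pr2 : Eqv {univ} 4 (pr [a, b]) (cup 2 a b) :=
  (Eqv.refl (k := 2)).mul (cup_e1 (p := 2) b)

lemma alg_pr3 : Eqv {univ} 6 (pr [a, b, c]) (cup 2 a (cup 2 b c)) :=
  (Eqv.refl (k := 2)).mul alg_pr2

lemma alg_cy_pr (l : List (Fin 14)) : Cy {univ} ∅ (2 * l.length) (pr (l.map (FB.tR R))) := by
  simpa only [iUnion_empty] using cy_pr (W := fun _ => ∅) (l := l) fun j _ => sm_FB.cy' R j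

lemma alg_perm {l l' : List (Fin 14)} (h : l.Perm l') :
    Bo {univ} ∅ (2 * l.length) (pr (l.map (FB.tR R)) - pr (l'.map (FB.tR R))) := by
  simpa only [iUnion_empty] using
    bo_pr_perm (W := fun _ => ∅) (fun j _ => sm_FB.cy' R j) h

lemma alg_lin (h : 2 + q = n) (hb : Cy {univ} ∅ q b) (m : Fin 3 → ℤ) :
    ∑ i, algD m i • algQ R n (cup 2 (FB.tR R i) b) = 0 := by
  have h1 := algQ_zero.2 (alg_left h (sm_FB.lin R m) hb)
  simp only [cup_sum_left, cup_smul_left, map_sum, map_smul, Int.cast_smul_eq_zsmul] at h1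
  exact h1

lemma alg_pr (i j k : Fin 14) : algQ R 6 (pr [FB.tR R i, FB.tR R j, FB.tR R k]) =
    (TB i j k : R) • algQ R 6 (om R) := by
  rw [Int.cast_smul_eq_zsmul]
  refine alg_tri (T := fun i j k => algQ R 6 (pr [FB.tR R i, FB.tR R j, FB.tR R k]))
    (fun i j k => algQ_eq.2 (alg_perm (List.Perm.swap j i [k])))
    (fun i j k => algQ_eq.2 (alg_perm ((List.Perm.swap k j []).cons i)))
    (fun i j k h => algQ_zero.2 (sm_FB.sr R (l := [i, j, k]) fun σ hσ => ?_))
    (fun m j k => alg_lin rfl (alg_cy_pr [j, k]) m) i j k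
  simpa only [List.mem_cons, List.not_mem_nil, or_false, exists_eq_or_imp, exists_eq_left] using
    algF_spec h hσ

lemma alg_cup (i j k : Fin 14) : algQ R 6 (cup 2 (FB.tR R i) (cup 2 (FB.tR R j) (FB.tR R k))) =
    (TB i j k : R) • algQ R 6 (om R) :=
  (algQ_eq.2 alg_pr3.symm.bo).trans (alg_pr i j k)

lemma alg_top : Bo {univ} ∅ 6 (LB[23].β FB R - om R) := by
  have h := alg_pr (R := R) 13 12 5
  rw [show TB 13 12 5 = 1 by decide +kernel, Int.cast_one, one_smul] at h
  exact algQ_eq.1 h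

end aux

theorem cy_om : Cy {univ} ∅ 6 (om R) := alg_cy_pr [0, 1, 2]

theorem cy_aC : Cy {univ} ∅ 2 (aC R) := Cy.sum _ fun i _ => (sm_FB.cy' R i).smul _

variable {R}

theorem top_span {φ : Cc R FB.X} (h : Cy {univ} ∅ 6 φ) :
    ∃ r : R, Bo {univ} ∅ 6 (φ - r • om R) := by
  obtain ⟨r, hr⟩ := (shl_FB.gb R).span_one ⟨23, by decide⟩ (by decide +kernel) h
  exact ⟨r, hr.trans (smul_sub r _ (om R) ▸ alg_top.smul r)⟩

theorem top_ind {r : R} (h : Bo {univ} ∅ 6 (r • om R)) : r = 0 :=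
  (shl_FB.gb R).ind_one ⟨23, by decide⟩ (Bo.of_sub (smul_sub r _ (om R) ▸ alg_top.smul r) h)

theorem tri_eq (i j k : Fin 14) : Bo {univ} ∅ 6
    (pr [FB.tR R i, FB.tR R j, FB.tR R k] - (TB i j k : R) • om R) :=
  algQ_eq.1 ((alg_pr i j k).trans (map_smul _ _ _).symm)

theorem h2_span {φ : Cc R FB.X} (h : Cy {univ} ∅ 2 φ) :
    ∃ r : Fin 14 → R, Bo {univ} ∅ 2 (φ - ∑ i, r i • FB.tR R i) := by
  obtain ⟨r, h0, hr⟩ := (shl_FB.gb R).span 2 φ h
  have h1 : algQ R 2 φ ∈ Submodule.span R (range fun i => algQ R 2 (FB.tR R i)) := by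
    rw [algQ_eq.2 hr, map_sum]
    refine Submodule.sum_mem _ fun j _ => ?_
    by_cases hj : 2 * LB[j].r.length = 2
    · obtain ⟨k, hk⟩ := List.length_eq_one_iff.1 (show LB[j].r.length = 1 by omega)
      rw [map_smul, Step.β, hk]
      refine Submodule.smul_mem _ _ (Submodule.subset_span ⟨LB[j].e k, ?_⟩)
      exact algQ_eq.2 (cup_e1 (p := 2) _).symm.bo
    · rw [h0 j hj, zero_smul, map_zero]
      exact Submodule.zero_mem _
  obtain ⟨s, hs⟩ := (Submodule.mem_span_range_iff_exists_fun R).1 h1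
  refine ⟨s, algQ_eq.1 ?_⟩
  simp only [← hs, map_sum, map_smul]

theorem sum_all : Bo {univ} ∅ 2 (∑ i, FB.tR R i - (2 : R) • aC R) := by
  have h : ∀ i, ∑ k, ![0, 0, -1] k * FB.v i k = 1 - 2 * aB i := by decide +kernel
  have h1 := sm_FB.lin R ![0, 0, -1]
  rw [aC, Finset.smul_sum, ← Finset.sum_sub_distrib]
  convert h1 using 3 with i
  rw [h, Int.cast_sub, Int.cast_mul, Int.cast_one, Int.cast_ofNat, smul_smul]
  exact ((sub_smul (1 : R) _ _).trans (congrArg (· - _) (one_smul _ _))).symm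

/-- The Wu class vanishes. -/
theorem wu {x : Cc (ZMod 2) FB.X} (h : Cy {univ} ∅ 4 x) : Bo {univ} ∅ 6 (sq 2 4 x) := by
  obtain ⟨r, h0, hr⟩ := (shl_FB.gb (ZMod 2)).span 4 x h
  refine (sq_congr Ref.empty h hr).of_sub (Finset.sum_induction _
    (fun y : Cc (ZMod 2) FB.X => Cy {univ} ∅ 4 y ∧ Bo {univ} ∅ 6 (sq 2 4 y))
    (fun a b ha hb => ⟨ha.1.add hb.1, ?_⟩) ⟨Cy.zero, ?_⟩ fun j _ => ?_).2
  · have h1 := sq_add (k := 6) (i := 2) ha.1 hb.1
    rw [union_empty] at h1
    exact h1.of_sub (ha.2.add hb.2)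
  · rw [sq, cu_zero_left]
    exact Bo.zero
  · have e : ∀ a : ZMod 2, a = 0 ∨ a = 1 := by decide
    rcases e (r j) with e | e
    · rw [e, zero_smul, sq, cu_zero_left]
      exact ⟨Cy.zero, Bo.zero⟩
    · have hj : LB[j].r.length = 2 := by
        by_contra hj
        rw [h0 j (by omega)] at e
        exact zero_ne_one e
      obtain ⟨k, l, hk⟩ := List.length_eq_two.1 hj
      rw [e, one_smul, Step.β, hk]
      refine ⟨alg_cy_pr [LB[j].e k, LB[j].e l], Bo.congr ?_ (alg_pr2.cui alg_pr2).symm⟩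
      have h1 := sq2_mul (sm_FB.cy' (ZMod 2) (LB[j].e k)) (sm_FB.cy' (ZMod 2) (LB[j].e l))
        (triv_FB _ (Or.inl (by decide)))
      rw [union_empty] at h1
      refine h1.of_sub (algQ_zero.1 ?_)
      have h2 : ∀ i j, (2 : ℤ) ∣ TB i i j + TB j i j := by
        rw [TB_eq]
        decide +kernel
      rw [cup_add_left, map_add, alg_cup, alg_cup, ← add_smul, ← Int.cast_add,
        (ZMod.intCast_zmod_eq_zero_iff_dvd _ 2).2 (h2 _ _), zero_smul]

theorem a_sq : Bo {univ} ∅ 4 (cup 2 (aC R) (aC R)) := by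
  have h := alg_asq (P := fun i j => algQ R 4 (pr [FB.tR R i, FB.tR R j]))
    (fun i j => algQ_eq.2 (alg_perm (List.Perm.swap j i [])))
    (fun i j h => algQ_zero.2 (sm_FB.sr R (l := [i, j]) fun σ hσ => by
      simpa only [List.mem_cons, List.not_mem_nil, or_false, exists_eq_or_imp, exists_eq_left,
        or_self] using algF_spec h hσ))
    fun m j => alg_lin rfl (alg_cy_pr [j]) m
  refine algQ_zero.1 ?_
  rw [← h]
  rw [aC, cup_sum_left]
  simp only [cup_sum_right, cup_smul_left, cup_smul_right, map_sum, map_zsmul, smul_smul,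
    ← Int.cast_mul, Int.cast_smul_eq_zsmul, algQ_eq.2 alg_pr2.bo, mul_comm]

theorem a_top : Bo {univ} ∅ 6
    (cup 2 (aC R) (cup 2 (FB.tR R 1) (FB.tR R 2)) - om R) := by
  refine algQ_eq.1 ?_
  have h : ∑ i, aB i * TB i 1 2 = 1 := by decide +kernel
  simp only [aC, cup_sum_left, cup_smul_left, map_sum, map_smul, alg_cup, smul_smul,
    ← Finset.sum_smul, ← Int.cast_mul, ← Int.cast_sum, h, Int.cast_one, one_smul]

/-- The classes of square zero are the multiples of `a`. -/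
theorem sq_zero {φ : Cc ℤ FB.X} (h : Cy {univ} ∅ 2 φ) (h2 : Bo {univ} ∅ 4 (cup 2 φ φ)) :
    ∃ n : ℤ, Bo {univ} ∅ 2 (φ - n • aC ℤ) := by
  obtain ⟨s, hs⟩ := h2_span h
  obtain ⟨r, h0, hr⟩ : ∃ r : Fin 14 → ℤ, (∀ i < 3, r i = 0) ∧
      Bo {univ} ∅ 2 (φ - ∑ i, r i • FB.tR ℤ i) := by
    refine ⟨fun i => s i - algD ![s 1 - s 0, s 2 - s 0, s 0] i, fun i hi => ?_, ?_⟩
    · have : i = 0 ∨ i = 1 ∨ i = 2 := by omega
      rcases this with rfl | rfl | rfl <;> simp [algD, vB, Fin.sum_univ_three]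
    · have h1 := hs.add (sm_FB.lin ℤ ![s 1 - s 0, s 2 - s 0, s 0])
      simp only [sub_smul, Finset.sum_sub_distrib, ← sub_add]
      exact h1
  have hc : Cy {univ} ∅ 2 (∑ i, r i • FB.tR ℤ i) := Cy.sum _ fun i _ => (sm_FB.cy' ℤ i).smul _
  have h3 := Bo.mul h hc hr hr
  rw [union_empty] at h3
  have h4 := alg_zero h0 fun k => top_ind (R := ℤ) (algQ_zero.1 (by
    rw [← algQ_zero.2 (alg_right (n := 6) rfl (sm_FB.cy' ℤ k) (h3.symm.of_sub h2))]
    rw [cup_sum_left]
    simp only [cup_sum_right, cup_smul_left, cup_smul_right, map_sum, map_smul,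
      alg_cup, Finset.sum_smul, smul_smul, Int.cast_id, mul_left_comm, mul_assoc]))
  refine ⟨r 13, hr.trans ?_⟩
  have h5 : ∀ i, ∑ k, ![0, 0, -1] k * FB.v i k = bB i - aB i := by decide +kernel
  have h6 := (sm_FB.lin ℤ ![0, 0, -1]).smul (r 13)
  simp only [h5, Int.cast_id, sub_smul, Finset.sum_sub_distrib, smul_sub] at h6
  rw [Finset.smul_sum] at h6
  simp only [smul_smul, ← h4] at h6
  exact h6

end Pool.Agent.Lib.MP_bf05b2_gt
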