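import Pool.Agent.Lib.MP_bf05b2_gt.H57Fam

/-! Relative cup products. -/

set_option linter.unusedSectionVars false

namespace Pool.Agent.Lib.MP_bf05b2_gt

open Set Finsupp Pool.Agent.Shared.Sing Pool.Agent.Shared.SingEZ

variable {Y Y' : Type*} [TopologicalSpace Y] [Nonempty Y] [TopologicalSpace Y'] [Nonempty Y']
  {R : Type} [CommRing R] {T S S' : Set (Set Y)} {p q k : ℕ} {φ φ' ψ ψ' χ : Cc R Y}

/-- The product of a list of cochains of degree two. -/
noncomputable def pr : List (Cc R Y) → Cc R Y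
  | [] => e1
  | a :: l => cup 2 a (pr l)

lemma cup_add_left (p : ℕ) (φ φ' ψ : Cc R Y) : cup p (φ + φ') ψ = cup p φ ψ + cup p φ' ψ := by
  simp [← cupB_apply]

lemma cup_add_right (p : ℕ) (φ ψ ψ' : Cc R Y) : cup p φ (ψ + ψ') = cup p φ ψ + cup p φ ψ' := by
  simp [← cupB_apply]

lemma cup_sub_left (p : ℕ) (φ φ' ψ : Cc R Y) : cup p (φ - φ') ψ = cup p φ ψ - cup p φ' ψ := by
  simp [← cupB_apply]

lemma cup_sub_right (p : ℕ) (φ ψ ψ' : Cc R Y) : cup p φ (ψ - ψ') = cup p φ ψ - cup p φ ψ' := by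
  simp [← cupB_apply]

lemma cup_smul_left (p : ℕ) (r : R) (φ ψ : Cc R Y) : cup p (r • φ) ψ = r • cup p φ ψ := by
  simp [← cupB_apply]

lemma cup_smul_right (p : ℕ) (r : R) (φ ψ : Cc R Y) : cup p φ (r • ψ) = r • cup p φ ψ := by
  simp [← cupB_apply]

lemma cup_zero_left (p : ℕ) (ψ : Cc R Y) : cup p 0 ψ = 0 := by
  simp [← cupB_apply]

lemma cup_zero_right (p : ℕ) (φ : Cc R Y) : cup p φ 0 = 0 := by
  simp [← cupB_apply]

lemma cup_sum_left {J : Type*} (s : Finset J) (p : ℕ) (β : J → Cc R Y) (ψ : Cc R Y) :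
    cup p (∑ j ∈ s, β j) ψ = ∑ j ∈ s, cup p (β j) ψ := by
  simp [← cupB_apply]

lemma cup_sum_right {J : Type*} (s : Finset J) (p : ℕ) (φ : Cc R Y) (β : J → Cc R Y) :
    cup p φ (∑ j ∈ s, β j) = ∑ j ∈ s, cup p φ (β j) := by
  simp [← cupB_apply]

lemma cup_assoc (p q : ℕ) (φ ψ χ : Cc R Y) :
    cup (p + q) (cup p φ ψ) χ = cup p φ (cup q ψ χ) :=
  LinearMap.ext fun c => congrArg χ (cap_cap p q φ ψ c).symm

lemma Eqv.mul (h : Eqv T p φ φ') (h' : Eqv T q ψ ψ') :
    Eqv T (p + q) (cup p φ ψ) (cup p φ' ψ') := eqv_of_In fun U hU _ c hc => by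
  simp only [cup, LinearMap.comp_apply]
  rw [cap_congr (fun x hx => h x (In_le_Ch' hU hx)) hc]
  exact h' _ (In_le_Ch' hU (cap_In' φ' hc))

lemma cup_van_left (h : Eqv S p φ 0) (ψ : Cc R Y) : Eqv S k (cup p φ ψ) 0 :=
  eqv_of_In fun U hU _ c hc => by
    rw [cup, LinearMap.comp_apply, cap_eq_zero (fun x hx => h x (In_le_Ch' hU hx)) hc, map_zero,
      LinearMap.zero_apply]

lemma cup_van_right (φ : Cc R Y) (h : Eqv S q ψ 0) : Eqv S (p + q) (cup p φ ψ) 0 :=
  eqv_of_In fun _ hU _ _ hc => h _ (In_le_Ch' hU (cap_In' φ hc))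

lemma cup_D (p q : ℕ) (φ ψ : Cc R Y) : Eqv T (p + q + 1) (cup p φ ψ ∘ₗ D)
    (cup (p + 1) (φ ∘ₗ D) ψ + (-1 : R) ^ p • cup p φ (ψ ∘ₗ D)) :=
  eqv_of_In fun U _ _ c hc => by
    simp only [cup, LinearMap.comp_apply, LinearMap.add_apply, LinearMap.smul_apply]
    rw [D_cap φ hc (by omega), map_smul, smul_smul, ← mul_pow, neg_mul_neg, one_mul, one_pow,
      one_smul, map_sub, add_sub_cancel]

lemma cy_e1 : Cy T ∅ 0 (e1 : Cc R Y) := ⟨eqv_of_In fun _ _ _ c hc => Coc_e1 c hc, Eqv.empty⟩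

lemma e1_cup (φ : Cc R Y) : Eqv T k (cup 0 e1 φ) φ := eqv_of_In fun _ _ _ _ =>
  eq_In fun F hF _ l hl => by
    rw [cup_real hF, if_pos (by omega), e1_real, if_pos (by simp; omega), one_mul, List.drop_zero]

lemma cup_e1 (φ : Cc R Y) : Eqv T p (cup p φ e1) φ := eqv_of_In fun _ _ _ _ =>
  eq_In fun F hF _ l hl => by
    rw [cup_real hF, if_pos (by omega), e1_real, if_pos (by simp; omega), mul_one,
      List.take_of_length_le hl.le]

theorem Cy.mul (h : Cy T S p φ) (h' : Cy T S' q ψ) : Cy T (S ∪ S') (p + q) (cup p φ ψ) :=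
  ⟨(cup_D p q φ ψ).trans (by
    simpa only [smul_zero, add_zero, add_assoc] using
      (cup_van_left h.1 ψ).add ((cup_van_right φ h'.1).smul ((-1 : R) ^ p))),
    (cup_van_left h.2 ψ).union (cup_van_right φ h'.2)⟩

theorem Bo.mul_left (h : Bo T S p φ) (h' : Cy T S' q ψ) : Bo T (S ∪ S') (p + q) (cup p φ ψ) := by
  rcases p with _ | p
  · exact Bo.zero.congr (cup_van_left (bo_zero.1 h) ψ).symm
  obtain ⟨θ, h1, h2⟩ := bo_succ.1 h
  have h3 := h2.symm.mul (Eqv.refl (S := T) (k := q) (φ := ψ))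
  rw [Nat.add_right_comm] at h3 ⊢
  refine (bo_comp_D ((cup_van_left h1 ψ).union (cup_van_right θ h'.2))).congr
    ((cup_D p q θ ψ).trans ?_)
  simpa using h3.add ((cup_van_right θ h'.1).smul ((-1 : R) ^ p))

theorem Bo.mul_right (h : Cy T S p φ) (h' : Bo T S' q ψ) : Bo T (S ∪ S') (p + q) (cup p φ ψ) := by
  rcases q with _ | q
  · exact Bo.zero.congr (cup_van_right φ (bo_zero.1 h')).symm
  obtain ⟨θ, h1, h2⟩ := bo_succ.1 h'
  have h3 := ((bo_comp_D (T := T) ((cup_van_left h.2 θ).union (cup_van_right φ h1))).congr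
    ((cup_D p q φ θ).trans ((cup_van_left h.1 θ).add
      (((Eqv.refl (k := p) (φ := φ)).mul h2.symm).smul ((-1 : R) ^ p))))).smul ((-1 : R) ^ p)
  rwa [zero_add, smul_smul, ← mul_pow, neg_mul_neg, one_mul, one_pow, one_smul] at h3

theorem Bo.mul (hφ : Cy T S p φ) (hψ : Cy T S' q ψ') (h : Bo T S p (φ - φ'))
    (h' : Bo T S' q (ψ - ψ')) : Bo T (S ∪ S') (p + q) (cup p φ ψ - cup p φ' ψ') := by
  have := (Bo.mul_right hφ h').add (h.mul_left hψ)
  rwa [cup_sub_right, cup_sub_left, sub_add_sub_cancel] at this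

section rev

variable {α β : Type*}

/-- Append an entry. -/
noncomputable def cupSnoc (a : α) : Ch R α →ₗ[R] Ch R α := lmapDomain R R (· ++ [a])

lemma cup_snoc_single (a : α) (l : List α) (r : R) :
    cupSnoc a (single l r) = single (l ++ [a]) r := by simp [cupSnoc]

lemma cup_snoc_cone (a b : α) (c : Ch R α) : cupSnoc a (cone b c) = cone b (cupSnoc a c) :=
  map_eq (F := cupSnoc a ∘ₗ cone b) (G := cone b ∘ₗ cupSnoc a)
    (fun l _ => by simp [cup_snoc_single]) (mem_top c)

lemma cup_bdL_snoc (a : α) (l : List α) :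
    bdL R (l ++ [a]) = cupSnoc a (bdL R l) + (-1 : R) ^ l.length • single l 1 := by
  induction l with
  | nil => simp [bdL]
  | cons b l ih =>
    rw [List.cons_append, bdL, bdL, ih, map_add, map_smul, map_sub, cup_snoc_cone, cup_snoc_single,
      cone_single, List.length_cons, pow_succ, mul_neg_one, neg_smul]
    abel

variable (R) in
/-- The signed reversal of a list. -/
noncomputable def cupRevL (l : List α) : Ch R α :=
  (-1 : R) ^ l.length.choose 2 • single l.reverse 1

lemma cup_choose (n : ℕ) : (n + 1).choose 2 = n + n.choose 2 := by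
  rw [Nat.choose_succ_succ', Nat.choose_one_right]

lemma cup_bd_revL (l : List α) : bd (cupRevL R l) = lc (cupRevL R) (bdL R l) := by
  induction l with
  | nil => simp [cupRevL, bdL]
  | cons a l ih =>
    have h : lc (cupRevL R) (cone a (bdL R l)) =
        -((-1 : R) ^ l.length • cupSnoc a (lc (cupRevL R) (bdL R l))) :=
      map_eq (F := lc (cupRevL R) ∘ₗ cone a)
        (G := -((-1 : R) ^ l.length • cupSnoc a ∘ₗ lc (cupRevL R))) (fun m hm => by
          simp [cupRevL, ← hm.1, cup_snoc_single, cup_choose, pow_add, pow_succ, -smul_single,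
            mul_smul]) (bdL_mem l)
    rw [bdL, map_sub, h, ← ih, linearCombination_single, one_smul, cupRevL, cupRevL, map_smul,
      map_smul, map_smul, bd_single, bd_single, List.reverse_cons, cup_bdL_snoc, List.length_cons,
      List.length_reverse, cup_choose, pow_add, smul_add, smul_smul, mul_right_comm, ← mul_pow,
      neg_mul_neg, one_mul, one_pow, one_mul, mul_smul, sub_neg_eq_add, add_comm]

lemma cup_lmap_revL (f : α → β) (l : List α) : lmap f (cupRevL R l) = cupRevL R (l.map f) := by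
  simp [cupRevL, -smul_single]

lemma cup_revL_Lin {K : Set α} {l : List α} (hl : ∀ x ∈ l, x ∈ K) :
    cupRevL R l ∈ Lin R K l.length :=
  Submodule.smul_mem _ _ (single_mem ⟨List.length_reverse, fun x hx => hl x (by simpa using hx)⟩)

variable (R) in
/-- The homotopy from the identity to the reversal. -/
noncomputable def cupRevT : List α → Ch R α :=
  zig 0 (hdc R) (fun l => single l 1 - cupRevL R l) (-1)

lemma cup_bd_revT (l : List α) :
    bd (cupRevT R l) = single l 1 - cupRevL R l - lc (cupRevT R) (bdL R l) := by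
  have := zig_spec (b := 0) (h := hdc R) (A := fun l => single l 1 - cupRevL R l) (s := -1) bd
    hdc_spec (fun l => ?_) (by simp [cupRevL]) l
  · rwa [neg_one_smul, ← sub_eq_add_neg] at this
  rw [map_sub, bd_single, cup_bd_revL, neg_one_smul, ← sub_eq_add_neg, sub_eq_zero]
  exact map_eq (F := LinearMap.id - lc (cupRevL R)) (G := lc fun l => single l 1 - cupRevL R l)
    (fun m _ => by simp) (mem_top (bdL R l))

lemma cup_lmap_revT (f : α → β) (l : List α) : lmap f (cupRevT R l) = cupRevT R (l.map f) :=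
  zig_nat f _ (hdc_nat f) (fun l => by simp [cup_lmap_revL]) (map_zero _) l

lemma cup_revT_Lin {K : Set α} {l : List α} (hl : ∀ x ∈ l, x ∈ K) :
    cupRevT R l ∈ Lin R K (l.length + 1) := by
  have := zig_mem (b := 0) (h := hdc R) (A := fun l => single l 1 - cupRevL R l) (s := -1)
    (fun l => ⨅ _ : ∀ x ∈ l, x ∈ K, Lin R K (l.length + 1))
    (fun l => ⨅ _ : ∀ x ∈ l, x ∈ K, Lin R K l.length) (zero_mem _)
    (fun l _ => (Submodule.mem_iInf _).2 fun h => sub_mem (single_mem ⟨rfl, h⟩) (cup_revL_Lin h))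
    (fun l _ x hx => (Submodule.mem_iInf _).2 fun h =>
      hdc_Lin l h _ _ ((Submodule.mem_iInf _).1 hx h))
    (fun l m h1 h2 => le_iInf fun h => iInf_le_of_le (fun x hx => h x (h2 x hx)) (by rw [h1])) l
  exact (Submodule.mem_iInf _).1 this hl

lemma cup_revL_std (n : ℕ) : cupRevL R (std n) ∈ Lin R (Δ n) (id n) := by
  simpa using cup_revL_Lin (std_mem (n := n))

lemma cup_revT_std (n : ℕ) : cupRevT R (std n) ∈ Lin R (Δ n) (n + 1) := by
  simpa using cup_revT_Lin (std_mem (n := n))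

/-- Reversal of singular chains. -/
noncomputable def cupRv : C R Y →ₗ[R] C R Y := op (cupRevL R)

/-- The homotopy from the identity to the reversal of singular chains. -/
noncomputable def cupRt : C R Y →ₗ[R] C R Y := op (cupRevT R)

lemma cup_D_rt (c : C R Y) : D (cupRt c) + cupRt (D c) = c - cupRv c :=
  map_eq (F := D ∘ₗ cupRt + cupRt ∘ₗ D) (G := LinearMap.id - cupRv) (fun s _ => by
    simp only [LinearMap.comp_apply, LinearMap.add_apply, LinearMap.sub_apply, D_single, cupRv,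
      cupRt, op_single, LinearMap.id_apply]
    rw [D_real (convex_Δ _) s.cont (cup_revT_std _), cup_bd_revT,
      op_real cup_revT_std (convex_Δ _) s.cont (fun φ => cup_lmap_revT φ) (bdL_std _), map_sub,
      map_sub, real_std, sub_add_cancel]) (mem_top c)

lemma cup_D_rv (c : C R Y) : D (cupRv c) = cupRv (D c) := by
  have h1 := congrArg D (cup_D_rt c)
  have h2 := cup_D_rt (D c)
  rw [map_add, D_D, zero_add, map_sub] at h1
  rw [D_D, map_zero, add_zero, h1] at h2
  exact sub_right_injective h2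

lemma cup_cy_rv (h : Cy T S k φ) : Cy T S k (φ ∘ₗ cupRv) :=
  ⟨eqv_of_In fun U hU _ c hc => by
    rw [LinearMap.comp_apply, LinearMap.comp_apply, ← cup_D_rv]
    exact h.1 _ (In_le_Ch' hU (op_In cup_revL_std hc)),
    eqv_of_In fun _ hU _ _ hc => h.2 _ (In_le_Ch' hU (op_In cup_revL_std hc))⟩

lemma cup_bo_rv (h : Cy T S k φ) : Bo T S k (φ - φ ∘ₗ cupRv) := by
  refine ⟨φ ∘ₗ cupRt, ?_, eqv_of_In fun U hU _ c hc => ?_⟩
  · rcases k with _ | k
    · exact fun c hc => map_eq (G := 0) (fun s hs => by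
        rw [LinearMap.comp_apply, cupRt, op_single, hs.1, show std 0 = [] from rfl, cupRevT,
          zig_nil, map_zero, map_zero, LinearMap.zero_apply]) hc
    · exact eqv_of_In (ψ := 0) fun _ hU _ _ hc => h.2 _ (In_le_Ch' hU (op_In cup_revT_std hc))
  · have : φ (D (cupRt c)) = 0 := h.1 _ (In_le_Ch' hU (op_In cup_revT_std hc))
    rw [LinearMap.sub_apply, LinearMap.comp_apply, ← map_sub, ← cup_D_rt, map_add, this, zero_add]
    rfl

lemma cup_rv_real {F : V → Y} (hF : Continuous F) (l : List V) : cupRv (real F (single l (1 : R))) =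
    (-1 : R) ^ l.length.choose 2 • real F (single l.reverse 1) := by
  rw [cupRv, op_real cup_revL_std convex_univ hF.continuousOn (fun φ => cup_lmap_revL φ)
    (Lin_univ l), linearCombination_single, one_smul, cupRevL, map_smul]

lemma cup_choose_add (p q : ℕ) :
    (p + q + 1).choose 2 = p * q + ((q + 1).choose 2 + (p + 1).choose 2) := by
  induction q with
  | zero => simp
  | succ q ih => rw [← add_assoc, cup_choose, ih, cup_choose (q + 1)]; ring

lemma cup_rv_cup (p q : ℕ) (φ ψ : Cc R Y) : Eqv T (p + q) (cup p φ ψ ∘ₗ cupRv)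
    ((-1 : R) ^ (p * q) • cup q (ψ ∘ₗ cupRv) (φ ∘ₗ cupRv)) :=
  eqv_of_In fun _ _ _ _ => eq_In fun F hF _ l hl => by
    rw [LinearMap.comp_apply, LinearMap.smul_apply, cup_rv_real hF, map_smul, cup_real hF,
      cup_real hF, if_pos (by simp; omega), if_pos (by omega), LinearMap.comp_apply,
      LinearMap.comp_apply, cup_rv_real hF, cup_rv_real hF, map_smul, map_smul, List.take_reverse,
      List.drop_reverse, List.length_take, List.length_drop, hl, cup_choose_add,
      show p + q + 1 - (p + 1) = q by omega, show p + q + 1 - p = q + 1 by omega,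
      show p + q + 1 - q = p + 1 by omega, min_eq_left (by omega)]
    simp only [smul_eq_mul, pow_add]
    ring

end rev

/-- Graded commutativity. -/
theorem cup_comm (h : Cy T S p φ) (h' : Cy T S' q ψ) :
    Bo T (S ∪ S') (p + q) (cup p φ ψ - (-1 : R) ^ (p * q) • cup q ψ φ) := by
  have h1 := cup_bo_rv (h.mul h')
  have h2 := (cup_rv_cup (T := T) p q φ ψ).bo (S := S ∪ S')
  have h3 := (Bo.mul (cup_cy_rv h') h (cup_bo_rv h').symm (cup_bo_rv h).symm).smul
    ((-1 : R) ^ (p * q))
  rw [add_comm, union_comm, smul_sub] at h3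
  exact (h1.trans h2).trans h3

lemma pb_cup {f : Y' → Y} (hf : Continuous f) (p : ℕ) (φ ψ : Cc R Y) :
    pb f (cup p φ ψ) = cup p (pb f φ) (pb f ψ) := cup_map hf φ ψ

lemma pb_cup' {f : Y' → Y} {P : Set (Set Y')} (hf : ∀ U ∈ P, ContinuousOn f U) (p : ℕ)
    (φ ψ : Cc R Y) : Eqv P k (pb f (cup p φ ψ)) (cup p (pb f φ) (pb f ψ)) :=
  eqv_of_In fun U hU _ _ hc => congrArg ψ (map_cap (hf U hU) p φ hc).symm

lemma pb_e1 (f : Y' → Y) : pb f (e1 : Cc R Y) = e1 := LinearMap.ext (e1_map f)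

lemma pb_pr {f : Y' → Y} (hf : Continuous f) (l : List (Cc R Y)) :
    pb f (pr l) = pr (l.map (pb f)) := by
  induction l with
  | nil => exact pb_e1 f
  | cons a l ih => rw [pr, pb_cup hf, ih, List.map_cons, pr]

lemma bc_pr {R' : Type} [CommRing R'] (ρ : R →+* R') (l : List (Cc R Y)) :
    bc ρ (pr l) = pr (l.map (bc ρ)) := by
  induction l with
  | nil => exact bc_ev ρ (fun _ : Unit => 0) []
  | cons a l ih => rw [pr, bc_cup, ih, List.map_cons, pr]

variable {J : Type*} {τ τ' : J → Cc R Y} {W : J → Set (Set Y)} {l : List J}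

lemma cup_union_cons (W : J → Set (Set Y)) (a : J) (l : List J) :
    ⋃ j ∈ a :: l, W j = W a ∪ ⋃ j ∈ l, W j := by simp

theorem cy_pr (h : ∀ j ∈ l, Cy T (W j) 2 (τ j)) :
    Cy T (⋃ j ∈ l, W j) (2 * l.length) (pr (l.map τ)) := by
  induction l with
  | nil => simpa [pr] using cy_e1
  | cons a l ih =>
    rw [cup_union_cons, List.length_cons, Nat.mul_add_one, add_comm]
    exact (h a (by simp)).mul (ih fun j hj => h j (by simp [hj]))

theorem bo_pr (h : ∀ j ∈ l, Cy T (W j) 2 (τ j)) (h' : ∀ j ∈ l, Cy T (W j) 2 (τ' j))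
    (hb : ∀ j ∈ l, Bo T (W j) 2 (τ j - τ' j)) :
    Bo T (⋃ j ∈ l, W j) (2 * l.length) (pr (l.map τ) - pr (l.map τ')) := by
  induction l with
  | nil => simpa using Bo.zero
  | cons a l ih =>
    rw [cup_union_cons, List.length_cons, Nat.mul_add_one, add_comm]
    exact Bo.mul (h a (by simp)) (cy_pr fun j hj => h' j (by simp [hj])) (hb a (by simp))
      (ih (fun j hj => h j (by simp [hj])) (fun j hj => h' j (by simp [hj]))
        fun j hj => hb j (by simp [hj]))

theorem bo_pr_perm {l' : List J} (h : ∀ j ∈ l, Cy T (W j) 2 (τ j)) (hl : l.Perm l') :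
    Bo T (⋃ j ∈ l, W j) (2 * l.length) (pr (l.map τ) - pr (l'.map τ)) := by
  induction hl with
  | nil => simpa using Bo.zero
  | cons a _ ih =>
    rw [cup_union_cons, List.length_cons, Nat.mul_add_one, add_comm]
    simp only [List.map_cons, pr, ← cup_sub_right]
    exact Bo.mul_right (h a (by simp)) (ih fun j hj => h j (by simp [hj]))
  | swap a b l =>
    have := (cup_comm (h b (by simp)) (h a (by simp))).mul_left
      (cy_pr (l := l) fun j hj => h j (by simp [hj]))
    rw [Even.neg_one_pow (by decide), one_smul, cup_sub_left, cup_assoc, cup_assoc,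
      union_assoc] at this
    rw [cup_union_cons, cup_union_cons, show 2 * (b :: a :: l).length = 2 + 2 + 2 * l.length by
      simp; omega]
    exact this
  | trans h1 _ ih ih' =>
    refine (ih h).trans ?_
    simp only [h1.mem_iff, h1.length_eq] at h ⊢
    exact ih' h

end Pool.Agent.Lib.MP_bf05b2_gt
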