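import Pool.Agent.Shared.Sing.Defs

/-! Smooth complete fans, toric manifolds as Cox quotients, isomorphisms of cohomology rings. -/

namespace Pool.Agent.Lib.MP_bf05b2_gt

open Pool.Agent.Sing

/-- A simplicial fan in the lattice `κ → ℤ`: ray generators `v i`, and the set `K` of those sets
of rays that span a cone of the fan. -/
structure Fan (ι κ : Type) where
  v : ι → κ → ℤ
  K : Set (Finset ι)
  zero_mem : ∅ ∈ K

namespace Fan

variable {ι κ : Type} [Fintype ι] [DecidableEq ι] [Fintype κ] (F : Fan ι κ)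

/-- The cone spanned by the rays in `σ`. -/
def cone (σ : Finset ι) : Set (κ → ℝ) :=
  {x | ∃ c : ι → ℝ, (∀ i, 0 ≤ c i) ∧ x = fun k => ∑ i ∈ σ, c i * (F.v i k : ℝ)}

/-- The fan is a complete non-singular fan. -/
structure IsSmoothComplete : Prop where
  face : ∀ σ ∈ F.K, ∀ τ ⊆ σ, τ ∈ F.K
  ray : ∀ i, {i} ∈ F.K
  smooth : ∀ σ ∈ F.K, ∃ (b : Module.Basis κ ℤ (κ → ℤ)) (f : ι → κ),
    Set.InjOn f σ ∧ ∀ i ∈ σ, F.v i = b (f i)
  inter : ∀ σ ∈ F.K, ∀ τ ∈ F.K, F.cone σ ∩ F.cone τ = F.cone (σ ∩ τ)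
  complete : ∀ x : κ → ℝ, ∃ σ ∈ F.K, x ∈ F.cone σ

/-- The points of `ℂ ^ ι` whose vanishing coordinates lie in a cone. -/
def U : Set (ι → ℂ) := {z | ∃ σ ∈ F.K, ∀ i ∉ σ, z i ≠ 0}

/-- The kernel of the map of algebraic tori `(ℂˣ) ^ ι → (ℂˣ) ^ κ` given by the rays. -/
def G : Set (ι → ℂ) := {g | (∀ i, g i ≠ 0) ∧ ∀ k, ∏ i, g i ^ F.v i k = 1}

/-- The orbit relation of `G` on `U`. -/
noncomputable def rel : Setoid F.U where
  r z w := ∃ g ∈ F.G, z.1 = g * w.1
  iseqv :=
    { refl := fun z => ⟨1, ⟨fun _ => one_ne_zero, fun k => by simp⟩, by simp⟩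
      symm := fun {z w} ⟨g, hg, h⟩ => ⟨g⁻¹, ⟨fun i => inv_ne_zero (hg.1 i), fun k => by
          simp only [Pi.inv_apply, inv_zpow, Finset.prod_inv_distrib, hg.2 k, inv_one]⟩, by
        ext i
        simp [h, hg.1 i]⟩
      trans := fun {z w u} ⟨g, hg, h⟩ ⟨g', hg', h'⟩ => ⟨g * g', ⟨fun i => mul_ne_zero (hg.1 i)
          (hg'.1 i), fun k => by
          simp only [Pi.mul_apply, mul_zpow, Finset.prod_mul_distrib, hg.2 k, hg'.2 k, one_mul]⟩,
        by rw [h, h', mul_assoc]⟩ }

/-- The toric variety of the fan, as the Cox quotient `U / G` with the quotient topology. -/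
def X : Type := Quotient F.rel

noncomputable instance xTop : TopologicalSpace F.X := instTopologicalSpaceQuotient

end Fan

section SubQuot

variable {R M : Type} [Ring R] [AddCommGroup M] [Module R M] (Z B : Submodule R M)

/-- The quotient of the submodule `Z` by the part of `B` inside `Z`. -/
def SubQuot : Type := Z ⧸ B.comap Z.subtype

instance subQuotGroup : AddCommGroup (SubQuot Z B) := Submodule.Quotient.addCommGroup _

/-- The element `a` lies in `Z` and represents the class `x`. -/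
def IsRep (x : SubQuot Z B) (a : M) : Prop := ∃ h : a ∈ Z, Submodule.Quotient.mk ⟨a, h⟩ = x

end SubQuot

variable (X Y : Type) [TopologicalSpace X] [TopologicalSpace Y]

/-- Integral singular cohomology: cocycles modulo coboundaries. -/
def HZ (n : ℕ) : Type := SubQuot (cocyc ℤ X n) (cobdry ℤ X n)

noncomputable instance hzGroup (n : ℕ) : AddCommGroup (HZ X n) := subQuotGroup _ _

/-- The cochain `a` is a cocycle representing the class `x`. -/
def HRep {n : ℕ} (x : HZ X n) (a : Co ℤ X n) : Prop := IsRep _ _ x a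

/-- The class `z` is the cup product of the classes `x` and `y`. -/
def IsCup {p q : ℕ} (x : HZ X p) (y : HZ X q) (z : HZ X (p + q)) : Prop :=
  ∃ a b, HRep X x a ∧ HRep X y b ∧ HRep X z (cup rfl a b)

/-- The integral singular cohomology rings of `X` and `Y` are isomorphic as graded rings. -/
def RingIso : Prop :=
  ∃ φ : ∀ n, HZ X n ≃+ HZ Y n, ∀ (p q : ℕ) (x : HZ X p) (y : HZ X q) (z : HZ X (p + q)),
    IsCup X x y z → IsCup Y (φ p x) (φ q y) (φ (p + q) z)

end Pool.Agent.Lib.MP_bf05b2_gt
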