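import Pool.Agent.Lib.MP_bf05b2_gt.H57GB
import Pool.Agent.Lib.MP_bf05b2_gt.H57Cup
import Pool.Agent.Lib.MP_bf05b2_gt.H57Defs
import Pool.Agent.Shared.Sing.Bridge

/-! The Leray-Hirsch property and isomorphisms of cohomology rings. -/

set_option linter.unusedSectionVars false

namespace Pool.Agent.Lib.MP_bf05b2_gt

open Set Finsupp Pool.Agent.Shared.Sing Pool.Agent.Shared.SingEZ

variable {B X Y : Type} [TopologicalSpace B] [Nonempty B] [TopologicalSpace X] [Nonempty X]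
  [TopologicalSpace Y] [Nonempty Y]

/-- The cohomology of `X` is free over that of `B` on `1` and `ζ`. -/
structure LH (π : X → B) (ζ : Cc ℤ X) : Prop where
  cont : Continuous π
  cy : Cy {univ} ∅ 2 ζ
  span : ∀ k φ, Cy {univ} ∅ k φ → ∃ α γ, Cy {univ} ∅ k α ∧ Cy {univ} ∅ (k - 2) γ ∧
    (k < 2 → γ = 0) ∧ Bo {univ} ∅ k (φ - (pb π α + cup 2 ζ (pb π γ)))
  ind : ∀ k α γ, Cy {univ} ∅ k α → Cy {univ} ∅ (k - 2) γ → (k < 2 → γ = 0) →
    Bo {univ} ∅ k (pb π α + cup 2 ζ (pb π γ)) → Bo {univ} ∅ k α ∧ Bo {univ} ∅ (k - 2) γ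

variable {π : X → B} {π' : Y → B} {ζ ζ₁ : Cc ℤ X} {ζ' : Cc ℤ Y}

namespace LHa

variable {Z : Type} [TopologicalSpace Z] [Nonempty Z] {k p q n : ℕ} {a b g g' φ : Cc ℤ Z}
  {α α' γ γ' : Cc ℤ B}

lemma cy_mul (h : p + q = n) (ha : Cy {univ} ∅ p a) (hb : Cy {univ} ∅ q b) :
    Cy {univ} ∅ n (cup p a b) := by
  simpa only [union_empty, h] using ha.mul hb

lemma bo_left (h : p + q = n) (ha : Bo {univ} ∅ p a) (hb : Cy {univ} ∅ q b) :
    Bo {univ} ∅ n (cup p a b) := by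
  simpa only [union_empty, h] using ha.mul_left hb

lemma bo_right (h : p + q = n) (ha : Cy {univ} ∅ p a) (hb : Bo {univ} ∅ q b) :
    Bo {univ} ∅ n (cup p a b) := by
  simpa only [union_empty, h] using Bo.mul_right ha hb

lemma cy_z (ha : Cy {univ} ∅ 2 a) (hg : Cy {univ} ∅ (k - 2) g) (h0 : k < 2 → g = 0) :
    Cy {univ} ∅ k (cup 2 a g) := by
  rcases lt_or_ge k 2 with h | h
  · rw [h0 h, cup_zero_right]; exact Cy.zero
  · exact cy_mul (by omega) ha hg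

lemma bo_z (ha : Cy {univ} ∅ 2 a) (hg : Bo {univ} ∅ (k - 2) g) (h0 : k < 2 → g = 0) :
    Bo {univ} ∅ k (cup 2 a g) := by
  rcases lt_or_ge k 2 with h | h
  · rw [h0 h, cup_zero_right]; exact Bo.zero
  · exact bo_right (by omega) ha hg

lemma pb0 (π : X → B) (h0 : k < 2 → γ = 0) : k < 2 → pb π γ = 0 := fun h => by rw [h0 h, pb_zero]

lemma cy_E (hπ : Continuous π) (hζ : Cy {univ} ∅ 2 ζ) (hα : Cy {univ} ∅ k α)
    (hγ : Cy {univ} ∅ (k - 2) γ) (h0 : k < 2 → γ = 0) :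
    Cy {univ} ∅ k (pb π α + cup 2 ζ (pb π γ)) :=
  (hα.pull (PM.abs hπ)).add (cy_z hζ (hγ.pull (PM.abs hπ)) (pb0 π h0))

lemma bo_E (hπ : Continuous π) (hζ : Cy {univ} ∅ 2 ζ) (hα : Bo {univ} ∅ k α)
    (hγ : Bo {univ} ∅ (k - 2) γ) (h0 : k < 2 → γ = 0) :
    Bo {univ} ∅ k (pb π α + cup 2 ζ (pb π γ)) :=
  (hα.pull (PM.abs hπ)).add (bo_z hζ (hγ.pull (PM.abs hπ)) (pb0 π h0))

lemma cy_comb {J : Type} [Fintype J] {β : J → Cc ℤ B} {d : J → ℕ} (hB : GB {univ} ∅ β d)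
    {r : J → ℤ} (hr : ∀ j, d j ≠ k → r j = 0) : Cy {univ} ∅ k (∑ j, r j • β j) :=
  Cy.sum _ fun j _ => by
    by_cases h : d j = k
    · exact h ▸ (hB.cy j).smul _
    · rw [hr j h, zero_smul]; exact Cy.zero

lemma sum_elim {J : Type} [Fintype J] (β : J → Cc ℤ B) (r : J ⊕ J → ℤ) :
    ∑ j, r j • Sum.elim (fun j => pb π (β j)) (fun j => cup 2 ζ (pb π (β j))) j =
      pb π (∑ j, r (Sum.inl j) • β j) + cup 2 ζ (pb π (∑ j, r (Sum.inr j) • β j)) := by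
  simp only [Fintype.sum_sum_type, Sum.elim_inl, Sum.elim_inr, pb_sum, pb_smul, cup_sum_right,
    cup_smul_right]

/-- Moving a class of degree two to the front. -/
lemma swap (h : p + 2 + q = n) (hb : Cy {univ} ∅ 2 b) (ha : Cy {univ} ∅ p a)
    (hg : Cy {univ} ∅ q g) : Bo {univ} ∅ n (cup p a (cup 2 b g) - cup 2 b (cup p a g)) := by
  have h1 : Bo {univ} ∅ (p + 2) (cup p a b - cup 2 b a) := by
    have := cup_comm ha hb
    rwa [union_empty, pow_mul', neg_one_sq, one_pow, one_smul] at this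
  have h2 := bo_left h h1 hg
  rwa [cup_sub_left, cup_assoc, add_comm p 2, cup_assoc] at h2

lemma mul_bo (hb : Cy {univ} ∅ 2 b) (h2 : Bo {univ} ∅ 4 (cup 2 b b)) {a' : Cc ℤ Z}
    (ha : Cy {univ} ∅ p a) (hg : Cy {univ} ∅ (p - 2) g) (h0 : p < 2 → g = 0)
    (hg' : Cy {univ} ∅ (q - 2) g') (h0' : q < 2 → g' = 0) :
    Bo {univ} ∅ (p + q) (cup p (a + cup 2 b g) (a' + cup 2 b g') -
      (cup p a a' + cup 2 b (cup (p - 2) g a' + cup p a g'))) := by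
  have e1 : ∀ c, cup p (cup 2 b g) c = cup 2 b (cup (p - 2) g c) := fun c => by
    rcases lt_or_ge p 2 with h | h
    · simp only [h0 h, cup_zero_left, cup_zero_right]
    · rw [← cup_assoc, show 2 + (p - 2) = p by omega]
  have e2 : Bo {univ} ∅ (p + q) (cup p a (cup 2 b g') - cup 2 b (cup p a g')) := by
    rcases lt_or_ge q 2 with h | h
    · simp only [h0' h, cup_zero_right, sub_zero]; exact Bo.zero
    · exact swap (by omega) hb ha hg'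
  have e3 : Bo {univ} ∅ (p + q) (cup 2 b (cup (p - 2) g (cup 2 b g'))) := by
    rcases lt_or_ge p 2 with h | h
    · simp only [h0 h, cup_zero_left, cup_zero_right]; exact Bo.zero
    rcases lt_or_ge q 2 with h' | h'
    · simp only [h0' h', cup_zero_right]; exact Bo.zero
    have f1 := bo_right (n := p + q) (by omega) hb (swap rfl hb hg hg')
    have f2 := bo_left (n := p + q) (by omega) h2 (cy_mul rfl hg hg')
    rw [cup_sub_right] at f1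
    exact f1.of_sub (by rwa [← cup_assoc])
  have := e2.add e3
  simp only [cup_add_left, cup_add_right, e1]
  convert this using 1
  abel

open Pool.Agent.Sing in
lemma cy_iff : Cy {univ} ∅ k φ ↔ φ ∘ₗ br ℤ k ∈ cocyc ℤ Z k := by
  rw [comp_br_mem_cocyc, Cy, Eqv, Ch'_single]
  exact ⟨fun h => h.1, fun h => ⟨h, Eqv.empty⟩⟩

open Pool.Agent.Sing in
lemma bo_iff : Bo {univ} ∅ k φ ↔ φ ∘ₗ br ℤ k ∈ cobdry ℤ Z k := by
  cases k with
  | zero =>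
    rw [bo_zero, Eqv, Ch'_single, mem_cobdry_zero]
    refine ⟨fun h => LinearMap.ext fun c => h _ (br_In c), fun h c hc => ?_⟩
    rw [← br_rb hc]
    exact LinearMap.congr_fun h _
  | succ k =>
    rw [comp_br_mem_cobdry, bo_succ]
    simp only [Eqv.empty, true_and]
    simp only [Eqv, Ch'_single]
    rfl

variable (B) in
/-- Pairs of cocycles of degrees `k` and `k - 2`. -/
def Pr (k : ℕ) : Submodule ℤ (Cc ℤ B × Cc ℤ B) where
  carrier := {v | Cy {univ} ∅ k v.1 ∧ Cy {univ} ∅ (k - 2) v.2 ∧ (k < 2 → v.2 = 0)}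
  add_mem' h h' := ⟨h.1.add h'.1, h.2.1.add h'.2.1, fun hk => by
    rw [Prod.snd_add, h.2.2 hk, h'.2.2 hk, add_zero]⟩
  zero_mem' := ⟨Cy.zero, Cy.zero, fun _ => rfl⟩
  smul_mem' r _ h := ⟨h.1.smul r, h.2.1.smul r, fun hk => by
    rw [Prod.smul_snd, h.2.2 hk, smul_zero]⟩

lemma pr_mul {v w : Cc ℤ B × Cc ℤ B} (hv : v ∈ Pr B p) (hw : w ∈ Pr B q) :
    (cup p v.1 w.1, cup (p - 2) v.2 w.1 + cup p v.1 w.2) ∈ Pr B (p + q) := by
  refine ⟨cy_mul rfl hv.1 hw.1, Cy.add ?_ ?_, fun h => ?_⟩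
  · rcases lt_or_ge p 2 with h | h
    · rw [hv.2.2 h, cup_zero_left]; exact Cy.zero
    · exact cy_mul (by omega) hv.2.1 hw.1
  · rcases lt_or_ge q 2 with h | h
    · rw [hw.2.2 h, cup_zero_right]; exact Cy.zero
    · exact cy_mul (by omega) hv.1 hw.2.1
  · simp only [hv.2.2 (by omega), hw.2.2 (by omega), cup_zero_left, cup_zero_right, add_zero]

open Pool.Agent.Sing (Coh cocyc ccl)

/-- The cocycle given by a pair. -/
noncomputable def cz (h : LH π ζ) (k : ℕ) : Pr B k →ₗ[ℤ] cocyc ℤ X k where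
  toFun v := ⟨(pb π v.1.1 + cup 2 ζ (pb π v.1.2)) ∘ₗ br ℤ k,
    cy_iff.1 (cy_E h.cont h.cy v.2.1 v.2.2.1 v.2.2.2)⟩
  map_add' v w := Subtype.ext (by
    simp only [Submodule.coe_add, Prod.fst_add, Prod.snd_add, pb_add, cup_add_right,
      LinearMap.add_comp]
    abel)
  map_smul' r v := Subtype.ext (by
    simp only [Submodule.coe_smul, Prod.smul_fst, Prod.smul_snd, pb_smul, cup_smul_right,
      RingHom.id_apply, ← smul_add, LinearMap.smul_comp])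

lemma cl_eq (h : LH π ζ) (v : Pr B k) (c : cocyc ℤ X k) : ccl ℤ X k c = ccl ℤ X k (cz h k v) ↔
    Bo {univ} ∅ k (c.1 ∘ₗ rb ℤ k - (pb π v.1.1 + cup 2 ζ (pb π v.1.2))) := by
  rw [Pool.Agent.Sing.ccl_eq_ccl, bo_iff, LinearMap.sub_comp, comp_rb_comp_br]
  rfl

lemma cy_rb (c : cocyc ℤ X k) : Cy {univ} ∅ k (c.1 ∘ₗ rb ℤ k) := by
  rw [cy_iff, comp_rb_comp_br]
  exact c.2

lemma surj (h : LH π ζ) (k : ℕ) : Function.Surjective (ccl ℤ X k ∘ₗ cz h k) := fun x => by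
  obtain ⟨c, rfl⟩ := Pool.Agent.Sing.ccl_surjective k x
  obtain ⟨α, γ, h1, h2, h3, h4⟩ := h.span k _ (cy_rb c)
  exact ⟨⟨(α, γ), h1, h2, h3⟩, ((cl_eq h _ c).2 h4).symm⟩

lemma ker_iff (h : LH π ζ) (v : Pr B k) : v ∈ LinearMap.ker (ccl ℤ X k ∘ₗ cz h k) ↔
    Bo {univ} ∅ k v.1.1 ∧ Bo {univ} ∅ (k - 2) v.1.2 := by
  rw [LinearMap.mem_ker, LinearMap.comp_apply, Pool.Agent.Sing.ccl_eq_zero]
  exact bo_iff.symm.trans ⟨h.ind k _ _ v.2.1 v.2.2.1 v.2.2.2,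
    fun h' => bo_E h.cont h.cy h'.1 h'.2 v.2.2.2⟩

lemma cl_mul (h : LH π ζ) (h2 : Bo {univ} ∅ 4 (cup 2 ζ ζ)) (v : Pr B p) (w : Pr B q)
    {a : cocyc ℤ X p} {b : cocyc ℤ X q} {c : cocyc ℤ X (p + q)}
    (hc : c.1 = Pool.Agent.Sing.cup rfl a.1 b.1) (ha : ccl ℤ X p a = ccl ℤ X p (cz h p v))
    (hb : ccl ℤ X q b = ccl ℤ X q (cz h q w)) :
    ccl ℤ X _ c = ccl ℤ X _ (cz h _ ⟨_, pr_mul v.2 w.2⟩) := by
  rw [cl_eq] at ha hb ⊢
  have f1 := Bo.mul (cy_rb a) (cy_E h.cont h.cy w.2.1 w.2.2.1 w.2.2.2) ha hb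
  rw [union_empty] at f1
  have f2 := mul_bo (a' := pb π w.1.1) h.cy h2 (v.2.1.pull (PM.abs h.cont))
    (v.2.2.1.pull (PM.abs h.cont)) (pb0 π v.2.2.2) (w.2.2.1.pull (PM.abs h.cont)) (pb0 π w.2.2.2)
  have f3 := f1.trans f2
  simp only [pb_add, pb_cup h.cont]
  rw [bo_iff, LinearMap.sub_comp] at f3 ⊢
  rwa [comp_rb_comp_br, hc, cup_eq_comp_br]

lemma exists_equiv {P M N : Type} [AddCommGroup P] [AddCommGroup M] [AddCommGroup N]
    [Module ℤ P] [Module ℤ M] [Module ℤ N] (f : P →ₗ[ℤ] M)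
    (g : P →ₗ[ℤ] N) (hf : Function.Surjective f) (hg : Function.Surjective g)
    (h : LinearMap.ker f = LinearMap.ker g) : ∃ e : M ≃ₗ[ℤ] N, ∀ v, e (f v) = g v :=
  ⟨(f.quotKerEquivOfSurjective hf).symm ≪≫ₗ Submodule.quotEquivOfEq _ _ h ≪≫ₗ
    g.quotKerEquivOfSurjective hg, fun v => by
      rw [LinearEquiv.trans_apply, LinearEquiv.trans_apply,
        LinearMap.quotKerEquivOfSurjective_symm_apply]
      rfl⟩

end LHa

theorem lh_of_gb {J : Type} [Fintype J] {β : J → Cc ℤ B} {d : J → ℕ} (hπ : Continuous π)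
    (hζ : Cy {univ} ∅ 2 ζ) (hB : GB {univ} ∅ β d)
    (hX : GB {univ} ∅ (Sum.elim (fun j => pb π (β j)) fun j => cup 2 ζ (pb π (β j)))
      (Sum.elim d fun j => d j + 2)) : LH π ζ := by
  refine ⟨hπ, hζ, fun k φ hφ => ?_, fun k α γ hα hγ h0 hb => ?_⟩
  · obtain ⟨r, hr, hb⟩ := hX.span k φ hφ
    rw [LHa.sum_elim] at hb
    refine ⟨_, _, LHa.cy_comb hB fun j hj => hr (Sum.inl j) hj,
      LHa.cy_comb hB fun j hj => hr (Sum.inr j) fun h => hj ?_, fun hk => ?_, hb⟩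
    · simp only [Sum.elim_inr] at h
      omega
    · refine Finset.sum_eq_zero fun j _ => ?_
      rw [hr (Sum.inr j) (by simp only [Sum.elim_inr]; omega), zero_smul]
  · obtain ⟨r, hr, h1⟩ := hB.span k α hα
    obtain ⟨r', hr', h2, h3⟩ : ∃ r' : J → ℤ, (∀ j, d j + 2 ≠ k → r' j = 0) ∧
        Bo {univ} ∅ (k - 2) (γ - ∑ j, r' j • β j) ∧ (k < 2 → γ - ∑ j, r' j • β j = 0) := by
      rcases lt_or_ge k 2 with hk | hk
      · exact ⟨0, fun _ _ => rfl, by simpa [h0 hk] using Bo.zero, fun _ => by simp [h0 hk]⟩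
      · obtain ⟨r', hr', h2⟩ := hB.span _ γ hγ
        exact ⟨r', fun j hj => hr' j (by omega), h2, fun h => by omega⟩
    have h4 := hX.ind k (Sum.elim r r') (by rintro (j | j); exacts [hr j, hr' j]) (by
      have := hb.sub (LHa.bo_E hπ hζ h1 h2 h3)
      rw [LHa.sum_elim]
      simp only [pb_sub, cup_sub_right] at this
      convert this using 1
      simp only [Sum.elim_inl, Sum.elim_inr]
      abel)
    have e1 : ∀ j, r j = 0 := fun j => h4 (Sum.inl j)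
    have e2 : ∀ j, r' j = 0 := fun j => h4 (Sum.inr j)
    simp only [e1, e2, zero_smul, Finset.sum_const_zero, sub_zero] at h1 h2
    exact ⟨h1, h2⟩

theorem LH.shift (h : LH π ζ) {a : Cc ℤ B} (ha : Cy {univ} ∅ 2 a) : LH π (ζ + pb π a) := by
  have key : ∀ α γ : Cc ℤ B, pb π α + cup 2 (ζ + pb π a) (pb π γ) =
      pb π (α + cup 2 a γ) + cup 2 ζ (pb π γ) := fun α γ => by
    rw [cup_add_left, pb_add, pb_cup h.cont]
    abel
  refine ⟨h.cont, h.cy.add (ha.pull (PM.abs h.cont)), fun k φ hφ => ?_,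
    fun k α γ hα hγ h0 hb => ?_⟩
  · obtain ⟨α, γ, h1, h2, h3, h4⟩ := h.span k φ hφ
    exact ⟨α - cup 2 a γ, γ, h1.sub (LHa.cy_z ha h2 h3), h2, h3, by rwa [key, sub_add_cancel]⟩
  · rw [key] at hb
    obtain ⟨h1, h2⟩ := h.ind k _ γ (hα.add (LHa.cy_z ha hγ h0)) hγ h0 hb
    exact ⟨by simpa using h1.sub (LHa.bo_z ha h2 h0), h2⟩

theorem LH.ringIso (h : LH π ζ) (h' : LH π' ζ') (h2 : Bo {univ} ∅ 4 (cup 2 ζ ζ))
    (h2' : Bo {univ} ∅ 4 (cup 2 ζ' ζ')) : RingIso X Y := by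
  choose e he using fun k => LHa.exists_equiv _ _ (LHa.surj h k) (LHa.surj h' k)
    (Submodule.ext fun v => (LHa.ker_iff h v).trans (LHa.ker_iff h' v).symm)
  refine ⟨fun n => (e n).toAddEquiv, ?_⟩
  rintro p q x y z ⟨a, b, ⟨ha, rfl⟩, ⟨hb, rfl⟩, hc, rfl⟩
  obtain ⟨v, hv⟩ := LHa.surj h p (Pool.Agent.Sing.ccl ℤ X p ⟨a, ha⟩)
  obtain ⟨w, hw⟩ := LHa.surj h q (Pool.Agent.Sing.ccl ℤ X q ⟨b, hb⟩)
  have hm : Pool.Agent.Sing.cup rfl (LHa.cz h' p v).1 (LHa.cz h' q w).1 ∈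
      Pool.Agent.Sing.cocyc ℤ Y (p + q) := by
    have := LHa.cy_iff.1 (LHa.cy_mul rfl (LHa.cy_rb (LHa.cz h' p v)) (LHa.cy_rb (LHa.cz h' q w)))
    rwa [← cup_eq_comp_br] at this
  refine ⟨(LHa.cz h' p v).1, (LHa.cz h' q w).1,
    ⟨(LHa.cz h' p v).2, (he p v).symm.trans (congrArg (e p) hv)⟩,
    ⟨(LHa.cz h' q w).2, (he q w).symm.trans (congrArg (e q) hw)⟩, hm, ?_⟩
  exact (LHa.cl_mul h' h2' v w (c := ⟨_, hm⟩) rfl rfl rfl).trans ((he _ _).symm.trans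
    (congrArg (e _) (LHa.cl_mul h h2 v w (a := ⟨a, ha⟩) (b := ⟨b, hb⟩) (c := ⟨_, hc⟩) rfl hv.symm
      hw.symm).symm))

end Pool.Agent.Lib.MP_bf05b2_gt
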