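import Pool.Agent.Lib.MP_bf05b2_gt.H57Shell
import Pool.Agent.Lib.MP_bf05b2_gt.H57LH

/-! Fans of projective line bundles and of sums of two line bundles. -/

set_option linter.unusedSectionVars false

namespace Pool.Agent.Lib.MP_bf05b2_gt

open Set Finsupp Pool.Agent.Shared.Sing Pool.Agent.Shared.SingEZ Sum

namespace Fan

variable {ι κ : Type} [Fintype ι] [DecidableEq ι] [Fintype κ] [DecidableEq κ] (F : Fan ι κ)

/-- Two new rays `(1, 0)` and `(-1, w)`, the old rays at height `h`. -/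
def pb1 (h : ι → ℤ) (w : κ → ℤ) : Fan (ι ⊕ Fin 2) (Option κ) where
  v := Sum.elim (fun i k => k.elim (h i) (F.v i)) ![fun k => k.elim 1 0, fun k => k.elim (-1) w]
  K := {τ | τ.toLeft ∈ F.K ∧ ¬ (inr 0 ∈ τ ∧ inr 1 ∈ τ)}
  zero_mem := by
    have : (∅ : Finset (ι ⊕ Fin 2)).toLeft = ∅ := by ext; simp
    exact ⟨this ▸ F.zero_mem, by simp⟩

/-- The total space of a sum of two line bundles. -/
def vb (a : Fin 2 → ι → ℤ) : Fan (ι ⊕ Fin 2) (κ ⊕ Fin 2) where
  v := Sum.elim (fun i => Sum.elim (F.v i) fun j => -a j i) fun j => Sum.elim 0 (Pi.single j 1)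
  K := {τ | τ.toLeft ∈ F.K}
  zero_mem := by
    have : (∅ : Finset (ι ⊕ Fin 2)).toLeft = ∅ := by ext; simp
    exact (this ▸ F.zero_mem : (∅ : Finset (ι ⊕ Fin 2)).toLeft ∈ F.K)

def Step.up (h : ι → ℤ) (s : Step ι κ) : Step (ι ⊕ Fin 2) (Option κ) where
  e k := k.elim (inr 0) (inl ∘ s.e)
  M k j := k.elim (j.elim 1 fun j => -∑ l, h (s.e l) * s.M l j) fun k => j.elim 0 (s.M k)
  r := s.r.map some

def Step.dn (h : ι → ℤ) (w : κ → ℤ) (s : Step ι κ) : Step (ι ⊕ Fin 2) (Option κ) where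
  e k := k.elim (inr 1) (inl ∘ s.e)
  M k j := k.elim (j.elim (-1) fun j => ∑ l, h (s.e l) * s.M l j)
    fun k => j.elim (∑ l, s.M k l * w l) (s.M k)
  r := none :: s.r.map some

def Step.ext (a : Fin 2 → ι → ℤ) (r : List (Fin 2)) (s : Step ι κ) :
    Step (ι ⊕ Fin 2) (κ ⊕ Fin 2) where
  e := Sum.map s.e id
  M := Sum.elim (fun k => Sum.elim (s.M k) 0)
    fun j => Sum.elim (fun k => ∑ l, a j (s.e l) * s.M l k) (Pi.single j 1)
  r := r.map inr ++ s.r.map inl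

/-- A shelling of the whole fan. -/
structure Shl (L : List (Step ι κ)) : Prop where
  chart : ∀ s ∈ L, F.IsChart s.e s.M
  cover : ∀ σ ∈ F.K, ∃ s ∈ L, σ ⊆ s.cone
  shell : Shell [] L

variable {F} {h : ι → ℤ} {w : κ → ℤ} {a : Fin 2 → ι → ℤ} {L : List (Step ι κ)}
  {z g : ι ⊕ Fin 2 → ℂ} {s : Step ι κ}

lemma bun_mem_K_pb1 {τ : Finset (ι ⊕ Fin 2)} :
    τ ∈ (F.pb1 h w).K ↔ τ.toLeft ∈ F.K ∧ ¬ (inr 0 ∈ τ ∧ inr 1 ∈ τ) := Iff.rfl

lemma bun_mem_K_vb {τ : Finset (ι ⊕ Fin 2)} : τ ∈ (F.vb a).K ↔ τ.toLeft ∈ F.K := Iff.rfl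

lemma bun_disj_mem {σ : Finset ι} (hσ : σ ∈ F.K) (j : Fin 2) :
    σ.disjSum {j} ∈ (F.pb1 h w).K := by
  refine bun_mem_K_pb1.2 ⟨by simpa using hσ, ?_⟩
  simp only [Finset.inr_mem_disjSum, Finset.mem_singleton]
  omega

lemma bun_cone_up : (s.up h).cone = s.cone.disjSum {0} := by
  ext x
  rcases x with i | j <;> simp [Step.cone, Step.up, Option.exists, eq_comm]

lemma bun_cone_dn : (s.dn h w).cone = s.cone.disjSum {1} := by
  ext x
  rcases x with i | j <;> simp [Step.cone, Step.dn, Option.exists, eq_comm]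

lemma bun_cone_ext (r : List (Fin 2)) : (s.ext a r).cone = s.cone.disjSum Finset.univ := by
  ext x
  rcases x with i | j <;> simp [Step.cone, Step.ext]

lemma mem_U_pb1 : z ∈ (F.pb1 h w).U ↔ z ∘ inl ∈ F.U ∧ (z (inr 0) ≠ 0 ∨ z (inr 1) ≠ 0) := by
  constructor
  · rintro ⟨τ, ⟨h1, h2⟩, h3⟩
    refine ⟨⟨τ.toLeft, h1, fun i hi => h3 _ (by simpa using hi)⟩, ?_⟩
    by_cases h0 : inr 0 ∈ τ
    · exact Or.inr (h3 _ fun h4 => h2 ⟨h0, h4⟩)
    · exact Or.inl (h3 _ h0)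
  · rintro ⟨⟨σ, h1, h2⟩, h3 | h3⟩
    · refine ⟨σ.disjSum {1}, bun_disj_mem h1 1, ?_⟩
      rintro (i | j) hi
      · exact h2 i (by simpa using hi)
      · fin_cases j
        · exact h3
        · simp at hi
    · refine ⟨σ.disjSum {0}, bun_disj_mem h1 0, ?_⟩
      rintro (i | j) hi
      · exact h2 i (by simpa using hi)
      · fin_cases j
        · simp at hi
        · exact h3

lemma mem_G_pb1 : g ∈ (F.pb1 h w).G ↔ (∀ i, g i ≠ 0) ∧
    (∏ i, g (inl i) ^ h i) * g (inr 0) = g (inr 1) ∧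
    ∀ k, (∏ i, g (inl i) ^ F.v i k) * g (inr 1) ^ w k = 1 := by
  refine and_congr_right fun h0 => ?_
  rw [Option.forall]
  refine and_congr ?_ (forall_congr' fun k => ?_)
  · simp only [pb1, Fintype.prod_sum_type, Fin.prod_univ_two, Sum.elim_inl, Sum.elim_inr,
      Matrix.cons_val_zero, Matrix.cons_val_one, Option.elim_none, zpow_one, zpow_neg]
    rw [← mul_assoc, mul_inv_eq_one₀ (h0 _)]
  · simp [pb1, Fintype.prod_sum_type, Fin.prod_univ_two]

lemma mem_U_vb : z ∈ (F.vb a).U ↔ z ∘ inl ∈ F.U := by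
  constructor
  · rintro ⟨τ, h1, h3⟩
    exact ⟨τ.toLeft, h1, fun i hi => h3 _ (by simpa using hi)⟩
  · rintro ⟨σ, h1, h2⟩
    refine ⟨σ.disjSum Finset.univ, bun_mem_K_vb.2 (by simpa using h1), ?_⟩
    rintro (i | j) hi
    · exact h2 i (by simpa using hi)
    · simp at hi

lemma bun_prod_single (g : ι ⊕ Fin 2 → ℂ) (j : Fin 2) :
    ∏ l : Fin 2, g (inr l) ^ (Pi.single l (1 : ℤ) : Fin 2 → ℤ) j = g (inr j) := by
  fin_cases j <;> simp [Fin.prod_univ_two]

lemma mem_G_vb : g ∈ (F.vb a).G ↔ g ∘ inl ∈ F.G ∧ ∀ j, g (inr j) = ∏ i, g (inl i) ^ a j i := by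
  have e1 : ∀ k, ∏ i, g i ^ (F.vb a).v i (inl k) = ∏ i, g (inl i) ^ F.v i k := fun k => by
    simp [vb, Fintype.prod_sum_type]
  have e2 : ∀ j, ∏ i, g i ^ (F.vb a).v i (inr j) = (∏ i, g (inl i) ^ a j i)⁻¹ * g (inr j) :=
    fun j => by
      simp only [vb, Fintype.prod_sum_type, Sum.elim_inl, Sum.elim_inr, zpow_neg,
        Finset.prod_inv_distrib, bun_prod_single]
  constructor
  · rintro ⟨h0, h1⟩
    refine ⟨⟨fun i => h0 _, fun k => (e1 k).symm.trans (h1 _)⟩, fun j => ?_⟩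
    have h2 := (e2 j).symm.trans (h1 _)
    exact ((inv_mul_eq_one₀ (Finset.prod_ne_zero_iff.2 fun i _ => zpow_ne_zero _ (h0 _))).1 h2).symm
  · rintro ⟨⟨h0, h1⟩, h2⟩
    have h3 : ∀ j, ∏ i, g (inl i) ^ a j i ≠ 0 := fun j =>
      Finset.prod_ne_zero_iff.2 fun i _ => zpow_ne_zero _ (h0 i)
    refine ⟨?_, ?_⟩
    · rintro (i | j)
      · exact h0 i
      · rw [h2]; exact h3 j
    · rintro (k | j)
      · exact (e1 k).trans (h1 k)
      · rw [e2, h2, inv_mul_cancel₀ (h3 j)]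

lemma bun_dual_sum {e : κ → ι} {M : κ → κ → ℤ} (hs : F.IsChart e M) (c : κ → ℤ) (l : κ) :
    ∑ j, (∑ m, c m * M m j) * F.v (e l) j = c l := by
  simp only [Finset.sum_mul, mul_assoc]
  rw [Finset.sum_comm]
  simp only [← Finset.mul_sum, hs.dual]
  simp

lemma IsChart.up (hs : F.IsChart s.e s.M) : (F.pb1 h w).IsChart (s.up h).e (s.up h).M := by
  refine ⟨?_, mem_of_eq_of_mem bun_cone_up (bun_disj_mem hs.mem 0)⟩
  rintro (_ | k) (_ | l)
  · simp [Step.up, pb1, Fintype.sum_option]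
  · have := bun_dual_sum hs (fun m => h (s.e m)) l
    simp [Step.up, pb1, Fintype.sum_option, this]
  · simp [Step.up, pb1, Fintype.sum_option]
  · simpa [Step.up, pb1, Fintype.sum_option] using hs.dual k l

lemma IsChart.dn (hs : F.IsChart s.e s.M) (hw : h = 0 ∨ w = 0) :
    (F.pb1 h w).IsChart (s.dn h w).e (s.dn h w).M := by
  refine ⟨?_, mem_of_eq_of_mem bun_cone_dn (bun_disj_mem hs.mem 1)⟩
  rintro (_ | k) (_ | l)
  · rcases hw with rfl | rfl <;> simp [Step.dn, pb1, Fintype.sum_option]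
  · have := bun_dual_sum hs (fun m => h (s.e m)) l
    simp [Step.dn, pb1, Fintype.sum_option, this]
  · simp [Step.dn, pb1, Fintype.sum_option]
  · rcases hw with rfl | rfl <;> simpa [Step.dn, pb1, Fintype.sum_option] using hs.dual k l

lemma IsChart.ext (hs : F.IsChart s.e s.M) (r : List (Fin 2)) :
    (F.vb a).IsChart (s.ext a r).e (s.ext a r).M := by
  refine ⟨?_, mem_of_eq_of_mem (bun_cone_ext r) (bun_mem_K_vb.2 (by simpa using! hs.mem))⟩
  rintro (k | k) (l | l)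
  · simpa [Step.ext, vb, Fintype.sum_sum_type] using hs.dual k l
  · simp [Step.ext, vb, Fintype.sum_sum_type]
  · have := bun_dual_sum hs (fun m => a k (s.e m)) l
    simp [Step.ext, vb, Fintype.sum_sum_type, this, Pi.single_apply, -Fin.sum_univ_two]
  · simp [Step.ext, vb, Pi.single_apply, -Fin.sum_univ_two, eq_comm]

lemma Shl.sm (hL : F.Shl L) : F.Sm := fun σ hσ =>
  let ⟨s, hs, h⟩ := hL.cover σ hσ
  ⟨s.e, s.M, hL.chart s hs, h⟩

lemma bun_univ {K : List (Finset ι)} (hc : ∀ σ ∈ F.K, ∃ s ∈ L, σ ⊆ s.cone) :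
    (univ : Set F.X) = (⋃ ρ ∈ K, F.W ρ) ∪ ⋃ s ∈ L, F.W s.cone := by
  refine (eq_univ_of_forall fun x => Or.inr ?_).symm
  obtain ⟨z, hz, rfl⟩ := cl_surj x
  obtain ⟨σ, hσ, h1⟩ := id hz
  obtain ⟨s, hs, h2⟩ := hc σ hσ
  exact mem_iUnion₂.2 ⟨s, hs, (cl_mem_W hz).2 fun i hi => h1 i fun h3 => hi (h2 h3)⟩

theorem Shl.gb (hL : F.Shl L) (R : Type) [CommRing R] :
    GB {univ} ∅ (fun j : Fin L.length => L[j].β F R) fun j => 2 * L[j].r.length := by
  have := hL.sm.shell R hL.chart hL.shell (bun_univ hL.cover)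
  simpa only [List.not_mem_nil, iUnion_of_empty, iUnion_empty] using this

lemma bun_shell_append {K : List (Finset ι)} {L L' : List (Step ι κ)} (h1 : Shell K L)
    (h2 : Shell ((L.map Step.cone).reverse ++ K) L') : Shell K (L ++ L') := by
  induction L generalizing K with
  | nil => exact h2
  | cons s L ih =>
    obtain ⟨a1, a2, a3, a4⟩ := h1
    exact ⟨a1, a2, a3, ih a4 (by simpa using h2)⟩

lemma bun_erase_sub {β : Type} [DecidableEq β] {σ ρ : Finset ι} {i : ι} (t : Finset β)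
    (hρ : σ.erase i ⊆ ρ) : (σ.disjSum t).erase (inl i) ⊆ ρ.disjSum t := by
  rintro (x | x) hx
  · simp only [Finset.mem_erase, Finset.inl_mem_disjSum, ne_eq, inl.injEq] at hx ⊢
    exact hρ (Finset.mem_erase.2 hx)
  · simpa using hx

lemma bun_shell_up {K : List (Finset ι)} (hs : Shell K L) :
    Shell (K.map fun ρ => ρ.disjSum {(0 : Fin 2)}) (L.map (Step.up h)) := by
  induction L generalizing K with
  | nil => trivial
  | cons s L ih =>
    obtain ⟨a1, a2, a3, a4⟩ := hs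
    refine ⟨a1.map (Option.some_injective _), ?_, ?_, ?_⟩
    · intro ρ hρ
      obtain ⟨ρ', hρ', rfl⟩ := List.mem_map.1 hρ
      obtain ⟨k, hk, h1⟩ := a2 ρ' hρ'
      exact ⟨some k, List.mem_map_of_mem hk, fun h2 => h1 (Finset.inl_mem_disjSum.1 h2)⟩
    · intro k hk
      obtain ⟨k', hk', rfl⟩ := List.mem_map.1 hk
      obtain ⟨ρ, hρ, h1⟩ := a3 k' hk'
      exact ⟨_, List.mem_map_of_mem hρ, bun_cone_up (s := s) (h := h) ▸ bun_erase_sub _ h1⟩
    · rw [bun_cone_up]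
      exact ih a4

lemma bun_shell_dn {K : List (Finset ι)} {K₀ : List (Finset (ι ⊕ Fin 2))} (hs : Shell K L)
    (h0 : ∀ s ∈ L, s.cone.disjSum {0} ∈ K₀) (h1 : ∀ ρ ∈ K₀, inr 1 ∉ ρ) :
    Shell ((K.map fun ρ => ρ.disjSum {(1 : Fin 2)}) ++ K₀) (L.map (Step.dn h w)) := by
  induction L generalizing K with
  | nil => trivial
  | cons s L ih =>
    obtain ⟨a1, a2, a3, a4⟩ := hs
    refine ⟨List.nodup_cons.2 ⟨by simp, a1.map (Option.some_injective _)⟩, ?_, ?_, ?_⟩
    · intro ρ hρ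
      rcases List.mem_append.1 hρ with hρ | hρ
      · obtain ⟨ρ', hρ', rfl⟩ := List.mem_map.1 hρ
        obtain ⟨k, hk, h2⟩ := a2 ρ' hρ'
        exact ⟨some k, List.mem_cons_of_mem _ (List.mem_map_of_mem hk),
          fun h3 => h2 (Finset.inl_mem_disjSum.1 h3)⟩
      · exact ⟨none, List.mem_cons_self, h1 ρ hρ⟩
    · intro k hk
      rw [bun_cone_dn]
      rcases List.mem_cons.1 hk with rfl | hk
      · refine ⟨_, List.mem_append_right _ (h0 s List.mem_cons_self), ?_⟩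
        rintro (x | x) hx
        · simpa [Step.dn] using hx
        · simp [Step.dn] at hx
      · obtain ⟨k', hk', rfl⟩ := List.mem_map.1 hk
        obtain ⟨ρ, hρ, h2⟩ := a3 k' hk'
        exact ⟨_, List.mem_append_left _ (List.mem_map_of_mem hρ), bun_erase_sub _ h2⟩
    · rw [bun_cone_dn]
      exact ih a4 fun t ht => h0 t (List.mem_cons_of_mem _ ht)

lemma bun_shell_ext {K : List (Finset ι)} {r : List (Fin 2)} (hr : r.Nodup) (hs : Shell K L) :
    Shell ((K.map fun ρ => ρ.disjSum (Finset.univ : Finset (Fin 2))) ++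
      r.map fun j => {inr j}ᶜ) (L.map (Step.ext a r)) := by
  induction L generalizing K with
  | nil => trivial
  | cons s L ih =>
    obtain ⟨a1, a2, a3, a4⟩ := hs
    refine ⟨List.nodup_append.2 ⟨hr.map inr_injective, a1.map inl_injective, by simp⟩, ?_, ?_, ?_⟩
    · intro ρ hρ
      rcases List.mem_append.1 hρ with hρ | hρ
      · obtain ⟨ρ', hρ', rfl⟩ := List.mem_map.1 hρ
        obtain ⟨k, hk, h2⟩ := a2 ρ' hρ'
        exact ⟨inl k, List.mem_append_right _ (List.mem_map_of_mem hk),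
          fun h3 => h2 (Finset.inl_mem_disjSum.1 h3)⟩
      · obtain ⟨j, hj, rfl⟩ := List.mem_map.1 hρ
        exact ⟨inr j, List.mem_append_left _ (List.mem_map_of_mem hj), by simp [Step.ext]⟩
    · intro k hk
      rcases List.mem_append.1 hk with hk | hk
      · obtain ⟨j, hj, rfl⟩ := List.mem_map.1 hk
        refine ⟨_, List.mem_append_right _ (List.mem_map_of_mem hj), fun x hx => ?_⟩
        simpa [Step.ext] using (Finset.mem_erase.1 hx).1
      · obtain ⟨k', hk', rfl⟩ := List.mem_map.1 hk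
        obtain ⟨ρ, hρ, h2⟩ := a3 k' hk'
        rw [bun_cone_ext]
        exact ⟨_, List.mem_append_left _ (List.mem_map_of_mem hρ), bun_erase_sub _ h2⟩
    · rw [bun_cone_ext]
      exact ih a4

theorem Shl.pb1 (hL : F.Shl L) (hw : h = 0 ∨ w = 0) :
    (F.pb1 h w).Shl (L.map (Step.up h) ++ L.map (Step.dn h w)) := by
  refine ⟨fun t ht => ?_, fun τ hτ => ?_, bun_shell_append (bun_shell_up hL.shell)
    (bun_shell_dn hL.shell (fun s hs => ?_) fun ρ hρ => ?_)⟩
  · rcases List.mem_append.1 ht with ht | ht <;> obtain ⟨s, hs, rfl⟩ := List.mem_map.1 ht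
    exacts [(hL.chart s hs).up, (hL.chart s hs).dn hw]
  · obtain ⟨s, hs, h1⟩ := hL.cover _ hτ.1
    by_cases h0 : inr 0 ∈ τ
    · refine ⟨s.up h, List.mem_append_left _ (List.mem_map_of_mem hs), ?_⟩
      rw [bun_cone_up]
      refine Finset.subset_disjSum.2 ⟨h1, fun j hj => ?_⟩
      fin_cases j
      · simp
      · exact absurd ⟨h0, Finset.mem_toRight.1 hj⟩ hτ.2
    · refine ⟨s.dn h w, List.mem_append_right _ (List.mem_map_of_mem hs), ?_⟩
      rw [bun_cone_dn]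
      refine Finset.subset_disjSum.2 ⟨h1, fun j hj => ?_⟩
      fin_cases j
      · exact absurd (Finset.mem_toRight.1 hj) h0
      · simp
  · refine List.mem_append_left _ (List.mem_reverse.2 ?_)
    rw [← bun_cone_up (h := h)]
    exact List.mem_map_of_mem (List.mem_map_of_mem hs)
  · rcases List.mem_append.1 hρ with h1 | h1
    · obtain ⟨t, ht, rfl⟩ := List.mem_map.1 (List.mem_reverse.1 h1)
      obtain ⟨s, -, rfl⟩ := List.mem_map.1 ht
      simp [bun_cone_up]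
    · exact absurd h1 List.not_mem_nil

lemma bun_cover_vb (hL : F.Shl L) (r : List (Fin 2)) :
    ∀ τ ∈ (F.vb a).K, ∃ t ∈ L.map (Step.ext a r), τ ⊆ t.cone := fun τ hτ => by
  obtain ⟨s, hs, h1⟩ := hL.cover _ hτ
  refine ⟨s.ext a r, List.mem_map_of_mem hs, ?_⟩
  rw [bun_cone_ext]
  exact Finset.subset_disjSum.2 ⟨h1, Finset.subset_univ _⟩

lemma bun_chart_vb (hL : F.Shl L) (r : List (Fin 2)) :
    ∀ t ∈ L.map (Step.ext a r), (F.vb a).IsChart t.e t.M := fun t ht => by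
  obtain ⟨s, hs, rfl⟩ := List.mem_map.1 ht
  exact (hL.chart s hs).ext r

theorem Shl.sm_vb (hL : F.Shl L) : (F.vb a).Sm := fun τ hτ =>
  let ⟨t, ht, h1⟩ := bun_cover_vb hL [] τ hτ
  ⟨t.e, t.M, bun_chart_vb hL [] t ht, h1⟩

theorem Shl.triv_vb (hL : F.Shl L) (R : Type) [CommRing R] {r : List (Fin 2)} (hr : r.Nodup)
    {k : ℕ} (hk : Odd k) : Triv R {univ} (⋃ j ∈ r, {(F.vb a).nz (inr j)}) k := by
  have h1 := ((hL.sm_vb (a := a)).shell R (bun_chart_vb hL r) (bun_shell_ext hr hL.shell)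
    (bun_univ (bun_cover_vb hL r))).triv (k := k) fun j hj => by
      rw [← hj] at hk
      exact (Nat.not_odd_iff_even.2 (even_two_mul _)) hk
  convert h1 using 1
  ext U
  simp only [List.map_nil, List.nil_append, List.mem_map, mem_iUnion, mem_singleton_iff,
    exists_prop]
  constructor
  · rintro ⟨j, hj, rfl⟩
    exact ⟨_, ⟨j, hj, rfl⟩, (W_compl _).symm⟩
  · rintro ⟨_, ⟨j, hj, rfl⟩, rfl⟩
    exact ⟨j, hj, W_compl _⟩

lemma bun_cont_inl : Continuous fun z : ι ⊕ Fin 2 → ℂ => z ∘ inl :=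
  continuous_pi fun _ => continuous_apply _

lemma isEq_proj : IsEq F (F.pb1 h 0) (· ∘ inl) (· ∘ inl) where
  cont := bun_cont_inl.continuousOn
  maps _ hz := (mem_U_pb1.1 hz).1
  mem g hg := ⟨fun i => hg.1 _, fun k => by simpa using (mem_G_pb1.1 hg).2.2 k⟩
  eqv _ _ _ _ := rfl

lemma isEq_prvb : IsEq F (F.vb a) (· ∘ inl) (· ∘ inl) where
  cont := bun_cont_inl.continuousOn
  maps _ hz := mem_U_vb.1 hz
  mem _ hg := (mem_G_vb.1 hg).1
  eqv _ _ _ _ := rfl

variable (F h) in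
/-- The projection of a projective line bundle. -/
noncomputable def proj : (F.pb1 h 0).X → F.X := ind F (F.pb1 h 0) (· ∘ inl)

lemma bun_beta (hF : F.Sm) (hF' : (F.pb1 h 0).Sm) (s : Step ι κ) :
    Bo {univ} ∅ (2 * s.r.length)
      (pr (s.r.map fun k => (F.pb1 h 0).tR ℤ (inl (s.e k))) - pb (F.proj h) (s.β F ℤ)) := by
  have hc : Continuous (F.proj h) := isEq_proj.continuous
  rw [Step.β, pb_pr hc, List.map_map]
  refine (bo_pr (W := fun _ => ∅) (fun k _ => hF'.cy' ℤ _)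
    (fun k _ => (hF.cy' ℤ _).pull (PM.abs hc))
    fun k _ => (isEq_proj.nat_one ℤ hF hF' (s.e k) (inl (s.e k)) fun _ _ => rfl).symm).mono
    Ref.refl Ref.empty

theorem Shl.lh (hL : F.Shl L) : LH (F.proj h) ((F.pb1 h 0).tR ℤ (inr 1)) := by
  have hP := hL.pb1 (h := h) (w := 0) (Or.inr rfl)
  refine lh_of_gb isEq_proj.continuous (hP.sm.cy' ℤ _) (hL.gb ℤ) ?_
  have e : L.length + L.length = (L.map (Step.up h) ++ L.map (Step.dn h 0)).length := by simp
  have h1 := (hP.gb ℤ).reindex (finSumFinEquiv.trans (finCongr e))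
  have a1 : ∀ j : Fin L.length, (L.map (Step.up h) ++ L.map (Step.dn h 0))[
      (finSumFinEquiv.trans (finCongr e)) (inl j)] = L[j].up h := fun j => by
    simp [List.getElem_append_left]
  have a2 : ∀ j : Fin L.length, (L.map (Step.up h) ++ L.map (Step.dn h 0))[
      (finSumFinEquiv.trans (finCongr e)) (inr j)] = L[j].dn h 0 := fun j => by
    simp [List.getElem_append_right]
  have h2 : GB {univ} ∅ (Sum.elim (fun j : Fin L.length => (L[j].up h).β (F.pb1 h 0) ℤ)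
      fun j : Fin L.length => (L[j].dn h 0).β (F.pb1 h 0) ℤ)
      (Sum.elim (fun j => 2 * L[j].r.length) fun j => 2 * L[j].r.length + 2) := by
    convert h1 using 1
    · funext j
      rcases j with j | j
      · exact (congrArg (fun t : Step _ _ => t.β (F.pb1 h 0) ℤ) (a1 j)).symm
      · exact (congrArg (fun t : Step _ _ => t.β (F.pb1 h 0) ℤ) (a2 j)).symm
    · funext j
      rcases j with j | j
      · refine Eq.trans ?_ (congrArg (fun t : Step _ _ => 2 * t.r.length) (a1 j)).symm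
        simp [Step.up]
      · refine Eq.trans ?_ (congrArg (fun t : Step _ _ => 2 * t.r.length) (a2 j)).symm
        simp [Step.dn, mul_add]
  refine h2.congr Ref.empty ?_
  rintro (j | j)
  · have := bun_beta hL.sm hP.sm L[j]
    simpa only [Sum.elim_inl, Step.β, Step.up, List.map_map] using! this
  · have h3 := (Bo.mul_right (hP.sm.cy' ℤ (inr 1)) (bun_beta hL.sm hP.sm L[j])).mono Ref.refl
      Ref.empty
    rw [cup_sub_right, add_comm] at h3
    simpa only [Sum.elim_inr, Step.β, Step.dn, List.map_map, List.map_cons, pr] using! h3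

lemma Sm.smooth [Nonempty κ] (hF : F.Sm) : ∀ σ ∈ F.K, ∃ (b : Module.Basis κ ℤ (κ → ℤ)) (f : ι → κ),
    Set.InjOn f σ ∧ ∀ i ∈ σ, F.v i = b (f i) := by
  intro σ hσ
  obtain ⟨e, M, hc, h1⟩ := hF σ hσ
  have h2 : ∀ i ∈ σ, e (Function.invFun e i) = i := fun i hi => by
    obtain ⟨k, -, hk⟩ := Finset.mem_image.1 (h1 hi)
    exact Function.invFun_eq ⟨k, hk⟩
  let A : Matrix κ κ ℤ := Matrix.of M
  let B : Matrix κ κ ℤ := Matrix.of fun j k => F.v (e k) j
  have hAB : A * B = 1 := by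
    ext k l
    simpa [A, B, Matrix.mul_apply, Matrix.one_apply] using hc.dual k l
  have hBA : B * A = 1 := by
    ext k l
    simpa [A, B, Matrix.mul_apply, Matrix.one_apply] using hc.dual' k l
  refine ⟨(Pi.basisFun ℤ κ).map (Matrix.toLin'OfInv hAB hBA), Function.invFun e,
    fun i hi j hj hij => by rw [← h2 i hi, ← h2 j hj, hij], fun i hi => ?_⟩
  ext j
  simp [B, h2 i hi]

lemma bun_cone_mono {σ τ : Finset ι} (hs : σ ⊆ τ) : F.cone σ ⊆ F.cone τ := by
  rintro x ⟨c, hc, rfl⟩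
  refine ⟨fun i => if i ∈ σ then c i else 0, fun i => ?_, funext fun k => ?_⟩
  · dsimp only
    split_ifs
    exacts [hc i, le_rfl]
  · simp only [ite_mul, zero_mul]
    rw [Finset.sum_ite_mem, Finset.inter_eq_right.2 hs]

lemma bun_sum_split (τ : Finset (ι ⊕ Fin 2)) (f : ι ⊕ Fin 2 → ℝ) :
    ∑ i ∈ τ, f i = ∑ i ∈ τ.toLeft, f (inl i) +
      ((if inr 0 ∈ τ then f (inr 0) else 0) + if inr 1 ∈ τ then f (inr 1) else 0) := by
  rw [Finset.sum_sum_eq_sum_toLeft_add_sum_toRight]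
  congr 1
  rw [← Finset.univ_inter τ.toRight, ← Finset.sum_ite_mem, Fin.sum_univ_two]
  simp

lemma bun_mem_cone {τ : Finset (ι ⊕ Fin 2)} {x : Option κ → ℝ} :
    x ∈ (F.pb1 h 0).cone τ ↔ ∃ c : ι → ℝ, (∀ i, 0 ≤ c i) ∧
      (x ∘ some = fun k => ∑ i ∈ τ.toLeft, c i * (F.v i k : ℝ)) ∧
      (∑ i ∈ τ.toLeft, c i * (h i : ℝ) < x none → inr 0 ∈ τ) ∧
      (x none < ∑ i ∈ τ.toLeft, c i * (h i : ℝ) → inr 1 ∈ τ) := by
  constructor
  · rintro ⟨c, hc, rfl⟩
    refine ⟨c ∘ inl, fun i => hc _, funext fun k => ?_, fun h1 => ?_, fun h1 => ?_⟩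
    · simp [bun_sum_split, pb1]
    · by_contra h2
      have := hc (inr 1)
      simp only [bun_sum_split, pb1, h2, if_false] at h1
      split_ifs at h1 <;> simp at h1
      linarith
    · by_contra h2
      have := hc (inr 0)
      simp only [bun_sum_split, pb1, h2, if_false] at h1
      split_ifs at h1 <;> simp at h1
      linarith
  · rintro ⟨c, hc, h1, h2, h3⟩
    set y := ∑ i ∈ τ.toLeft, c i * (h i : ℝ) with hy
    refine ⟨Sum.elim c ![max (x none - y) 0, max (y - x none) 0], ?_, funext ?_⟩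
    · rintro (i | j)
      · exact hc i
      · fin_cases j <;> simp
    · rintro (_ | k)
      · simp only [bun_sum_split, pb1, Sum.elim_inl, Sum.elim_inr, Option.elim_none, ← hy,
          Matrix.cons_val_zero, Matrix.cons_val_one]
        rcases lt_trichotomy y (x none) with h4 | h4 | h4
        · rw [if_pos (h2 h4), max_eq_left (by linarith), max_eq_right (by linarith)]
          simp
        · simp [h4]
        · rw [if_pos (h3 h4), max_eq_right (by linarith), max_eq_left (by linarith)]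
          simp
      · simpa [bun_sum_split, pb1] using congrFun h1 k

lemma bun_height (hF : F.IsSmoothComplete) {σ ρ : Finset ι} (hσ : σ ∈ F.K) (hρ : ρ ⊆ σ)
    {c d : ι → ℝ} (e : ∀ k, ∑ i ∈ σ, c i * (F.v i k : ℝ) = ∑ i ∈ ρ, d i * (F.v i k : ℝ)) :
    ∑ i ∈ σ, c i * (h i : ℝ) = ∑ i ∈ ρ, d i * (h i : ℝ) := by
  obtain ⟨b, f, hf, hb⟩ := hF.smooth σ hσ
  let H : (κ → ℤ) →ₗ[ℤ] ℤ := ∑ i ∈ σ, h i • b.coord (f i)
  have h1 : ∀ i ∈ σ, H (F.v i) = h i := fun i hi => by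
    rw [hb i hi, LinearMap.sum_apply, Finset.sum_eq_single i]
    · simp
    · intro j hj hji
      have : f i ≠ f j := fun h2 => hji (hf hi hj h2).symm
      simp [this]
    · exact fun h2 => absurd hi h2
  have h2 : ∀ i ∈ σ, (h i : ℝ) = ∑ k, (F.v i k : ℝ) * (H (Pi.single k 1) : ℝ) := fun i hi => by
    rw [← h1 i hi, LinearMap.pi_apply_eq_sum_univ]
    push_cast
    refine Finset.sum_congr rfl fun k _ => ?_
    simp only [smul_eq_mul, Int.cast_mul]
    congr 3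
    funext j
    simp [Pi.single_apply, eq_comm]
  have h3 : ∀ (τ : Finset ι), τ ⊆ σ → ∀ c : ι → ℝ, ∑ i ∈ τ, c i * (h i : ℝ) =
      ∑ k, (∑ i ∈ τ, c i * (F.v i k : ℝ)) * (H (Pi.single k 1) : ℝ) := fun τ hτ c => by
    simp only [Finset.sum_mul]
    rw [Finset.sum_comm]
    refine Finset.sum_congr rfl fun i hi => ?_
    rw [h2 i (hτ hi), Finset.mul_sum]
    simp only [mul_assoc]
  rw [h3 σ Finset.Subset.rfl, h3 ρ hρ]
  simp only [e]

theorem IsSmoothComplete.pb1 (hF : F.IsSmoothComplete) (hs : (F.pb1 h 0).Sm) :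
    (F.pb1 h 0).IsSmoothComplete where
  face σ hσ τ hτ := ⟨hF.face _ hσ.1 _ (Finset.toLeft_subset_toLeft hτ),
    fun h1 => hσ.2 ⟨hτ h1.1, hτ h1.2⟩⟩
  ray := by
    rintro (i | j)
    · exact bun_mem_K_pb1.2 ⟨mem_of_eq_of_mem (by ext; simp) (hF.ray i), by simp⟩
    · simpa using bun_disj_mem (h := h) (w := 0) F.zero_mem j
  smooth := hs.smooth
  inter σ hσ τ hτ := by
    refine Subset.antisymm ?_ (subset_inter (bun_cone_mono Finset.inter_subset_left)
      (bun_cone_mono Finset.inter_subset_right))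
    rintro x ⟨h1, h2⟩
    obtain ⟨c, hc, c1, c2, c3⟩ := bun_mem_cone.1 h1
    obtain ⟨c', hc', c1', c2', c3'⟩ := bun_mem_cone.1 h2
    have h3 : x ∘ some ∈ F.cone (σ.toLeft ∩ τ.toLeft) :=
      hF.inter _ hσ.1 _ hτ.1 ▸ ⟨⟨c, hc, c1⟩, ⟨c', hc', c1'⟩⟩
    obtain ⟨d, hd, d1⟩ := h3
    have e1 := bun_height (h := h) hF hσ.1 Finset.inter_subset_left (congrFun (c1.symm.trans d1))
    have e2 := bun_height (h := h) hF hτ.1 Finset.inter_subset_right
      (congrFun (c1'.symm.trans d1))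
    refine bun_mem_cone.2 ⟨d, hd, ?_⟩
    rw [Finset.toLeft_inter]
    exact ⟨d1, fun h4 => Finset.mem_inter.2 ⟨c2 (e1 ▸ h4), c2' (e2 ▸ h4)⟩,
      fun h4 => Finset.mem_inter.2 ⟨c3 (e1 ▸ h4), c3' (e2 ▸ h4)⟩⟩
  complete x := by
    obtain ⟨σ, hσ, c, hc, h1⟩ := hF.complete (x ∘ some)
    rcases le_total (∑ i ∈ σ, c i * (h i : ℝ)) (x none) with h2 | h2
    · exact ⟨_, bun_disj_mem hσ 0, bun_mem_cone.2 ⟨c, hc, by simpa using h1, by simp,
        fun h3 => absurd h2 (by simpa using h3)⟩⟩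
    · exact ⟨_, bun_disj_mem hσ 1, bun_mem_cone.2 ⟨c, hc, by simpa using h1,
        fun h3 => absurd h2 (by simpa using h3), by simp⟩⟩

end Fan

end Pool.Agent.Lib.MP_bf05b2_gt
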