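import Pool.Agent.Lib.MP_bf05b2_gt.H57Norm

/-! The toric threefold with fourteen rays and the fans built from it. -/

set_option linter.unusedSectionVars false

namespace Pool.Agent.Lib.MP_bf05b2_gt

open Set Finsupp Pool.Agent.Shared.Sing Pool.Agent.Shared.SingEZ Sum Fan

/-- The rays. -/
def vB : Fin 14 → Fin 3 → ℤ :=
  ![![0, 0, 1], ![1, 0, 1], ![0, 1, 1], ![-1, 0, 1], ![0, -1, 1], ![1, 1, -1], ![0, 1, -1],
   ![-1, 1, -1], ![-1, 0, -1], ![-1, -1, -1], ![0, -1, -1], ![1, -1, -1], ![1, 0, -1], ![0, 0,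
   -1]]

/-- The maximal cones in shelling order. -/
def LB : List (Fan.Step (Fin 14) (Fin 3)) :=
  [⟨![0, 1, 2], ![![-1, -1, 1], ![1, 0, 0], ![0, 1, 0]], []⟩,
   ⟨![0, 2, 3], ![![1, -1, 1], ![0, 1, 0], ![-1, 0, 0]], [2]⟩,
   ⟨![0, 3, 4], ![![1, 1, 1], ![-1, 0, 0], ![0, -1, 0]], [2]⟩,
   ⟨![0, 4, 1], ![![-1, 1, 1], ![0, -1, 0], ![1, 0, 0]], [1, 2]⟩,
   ⟨![1, 2, 7], ![![2, 1, -1], ![-1, 0, 1], ![1, 1, -1]], [2]⟩,
   ⟨![2, 3, 9], ![![-1, 2, -1], ![0, -1, 1], ![-1, 1, -1]], [2]⟩,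
   ⟨![3, 4, 11], ![![-2, -1, -1], ![1, 0, 1], ![-1, -1, -1]], [2]⟩,
   ⟨![4, 1, 5], ![![1, -2, -1], ![0, 1, 1], ![1, -1, -1]], [2]⟩,
   ⟨![1, 5, 6], ![![0, 1, 1], ![1, -1, -1], ![-1, 2, 1]], [2]⟩,
   ⟨![1, 6, 7], ![![0, 1, 1], ![1, 0, -1], ![-1, 1, 1]], [1, 2]⟩,
   ⟨![2, 7, 8], ![![-1, 0, 1], ![1, 1, -1], ![-2, -1, 1]], [2]⟩,
   ⟨![2, 8, 9], ![![-1, 0, 1], ![0, 1, -1], ![-1, -1, 1]], [1, 2]⟩,
   ⟨![3, 9, 10], ![![0, -1, 1], ![-1, 1, -1], ![1, -2, 1]], [2]⟩,
   ⟨![3, 10, 11], ![![0, -1, 1], ![-1, 0, -1], ![1, -1, 1]], [1, 2]⟩,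
   ⟨![4, 11, 12], ![![1, 0, 1], ![-1, -1, -1], ![2, 1, 1]], [2]⟩,
   ⟨![4, 12, 5], ![![1, 0, 1], ![0, -1, -1], ![1, 1, 1]], [1, 2]⟩,
   ⟨![13, 5, 6], ![![0, -1, -1], ![1, 0, 0], ![-1, 1, 0]], [0]⟩,
   ⟨![13, 6, 7], ![![0, -1, -1], ![1, 1, 0], ![-1, 0, 0]], [0, 2]⟩,
   ⟨![13, 7, 8], ![![1, 0, -1], ![0, 1, 0], ![-1, -1, 0]], [0, 2]⟩,
   ⟨![13, 8, 9], ![![1, 0, -1], ![-1, 1, 0], ![0, -1, 0]], [0, 2]⟩,
   ⟨![13, 9, 10], ![![0, 1, -1], ![-1, 0, 0], ![1, -1, 0]], [0, 2]⟩,
   ⟨![13, 10, 11], ![![0, 1, -1], ![-1, -1, 0], ![1, 0, 0]], [0, 2]⟩,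
   ⟨![13, 11, 12], ![![-1, 0, -1], ![0, -1, 0], ![1, 1, 0]], [0, 2]⟩,
   ⟨![13, 12, 5], ![![-1, 0, -1], ![1, -1, 0], ![0, 1, 0]], [0, 1, 2]⟩]

/-- Separating characters. -/
def sepB : List (Fin 3 → ℤ) :=
  [![0, 0, -1], ![0, 0, 1], ![0, 0, 0], ![-4, 2, -1], ![-2, -4, -1], ![2, 4, -1], ![4, -2, -1],
   ![-4, -2, 3], ![-2, 4, 3], ![2, -4, 3], ![4, 2, 3], ![-2, -1, 0], ![1, 2, 0], ![-4, -2, -3],
   ![-2, 4, -3], ![2, -4, -3], ![4, 2, -3], ![1, -2, 0], ![-2, 1, 1], ![-1, -2, 1], ![1, 2, 1],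
   ![2, -1, 1], ![1, 0, 0], ![-1, 0, -1], ![0, -1, -1], ![0, 1, -1], ![1, 0, -1], ![-1, 1, 0],
   ![-1, 0, 0], ![0, -1, 0], ![0, 1, 0], ![-1, 0, 1], ![0, -1, 1], ![0, 1, 1], ![1, 0, 1], ![-1,
   -1, -1], ![-1, 1, -1], ![1, -1, -1], ![1, 1, -1], ![-3, -2, 2], ![-2, 3, 2], ![2, -3, 2],
   ![3, 2, 2], ![-3, 1, -2], ![-1, -3, -2], ![1, 3, -2], ![3, -1, -2], ![-3, -2, -2], ![-2, 3,
   -2], ![2, -3, -2], ![3, 2, -2], ![-4, 2, 3], ![-2, -4, 3], ![2, 4, 3], ![4, -2, 3], ![-1, -1,
   0], ![1, -1, 0], ![1, 1, 0], ![-2, 1, 0], ![-1, -2, 0], ![-1, -1, 1], ![-1, 1, 1], ![-1, 2,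
   0], ![1, -1, 1], ![1, 1, 1], ![2, -1, 0], ![2, 1, 0], ![-2, -1, -2], ![-2, -1, 2], ![-1, 2,
   -2], ![-1, 2, 2], ![1, -2, -2], ![1, -2, 2], ![2, 1, -2], ![2, 1, 2], ![-3, -1, -2], ![-3,
   -1, 2], ![-1, 3, -2], ![-1, 3, 2], ![1, -3, -2], ![1, -3, 2], ![3, 1, -2], ![3, 1, 2], ![-3,
   2, -2], ![-2, -3, -2], ![2, 3, -2], ![3, -2, -2], ![-2, -1, -1], ![-2, -1, 1], ![-1, -1, -2],
   ![-1, -1, 2], ![-1, 1, -2], ![-1, 1, 2], ![-1, 2, -1], ![-1, 2, 1], ![1, -2, -1], ![1, -2,
   1], ![1, -1, -2], ![1, -1, 2], ![1, 1, -2], ![1, 1, 2], ![2, 1, -1], ![2, 1, 1], ![-2, -2,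
   1], ![-2, 1, -2], ![-2, 1, 2], ![-2, 2, 1], ![-1, -2, -2], ![-1, -2, 2], ![1, 2, -2], ![1, 2,
   2], ![2, -2, 1], ![2, -1, -2], ![2, -1, 2], ![2, 2, 1], ![-2, -2, -3], ![-2, -2, 3], ![-2, 2,
   -3], ![-2, 2, 3], ![2, -2, -3], ![2, -2, 3], ![2, 2, -3], ![2, 2, 3]]

/-- The fan of the threefold. -/
def FB : Fan (Fin 14) (Fin 3) where
  v := vB
  K := {τ | ∃ s ∈ LB, τ ⊆ s.cone}
  zero_mem := ⟨_, List.mem_cons_self, Finset.empty_subset _⟩

/-- The indicator function of the rays at height `1`. -/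
def aB : Fin 14 → ℤ := ![1, 1, 1, 1, 1, 0, 0, 0, 0, 0, 0, 0, 0, 0]

/-- The indicator function of the rays at height `-1`. -/
def bB : Fin 14 → ℤ := ![0, 0, 0, 0, 0, 1, 1, 1, 1, 1, 1, 1, 1, 1]

/-- The first chart. -/
def M0 : Fin 3 → Fin 3 → ℤ := ![![-1, -1, 1], ![1, 0, 0], ![0, 1, 0]]

/-- The product with the projective line. -/
abbrev FX : Fan (Fin 14 ⊕ Fin 2) (Option (Fin 3)) := FB.pb1 0 0

/-- The projective completion of the canonical bundle. -/
abbrev FY : Fan (Fin 14 ⊕ Fin 2) (Option (Fin 3)) := FB.pb1 (fun _ => -1) 0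

/-- The family of threefolds over the projective line. -/
abbrev FF : Fan (Fin 14 ⊕ Fin 2) (Option (Fin 3)) := FB.pb1 0 ![0, 0, 1]

/-- The vector bundle over the family. -/
abbrev FE : Fan ((Fin 14 ⊕ Fin 2) ⊕ Fin 2) (Option (Fin 3) ⊕ Fin 2) :=
  FF.vb ![Sum.elim aB 0, Sum.elim bB 0]

/-- The character of the line bundle of the class `a`. -/
noncomputable def chi (g : Fin 14 → ℂ) : ℂ := ∏ i, g i ^ aB i

lemma mem_K_FB {τ : Finset (Fin 14)} : τ ∈ FB.K ↔ ∃ s ∈ LB, τ ⊆ s.cone := Iff.rfl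

lemma dat_dual : ∀ s ∈ LB, ∀ k l : Fin 3,
    ∑ j, s.M k j * vB (s.e l) j = if k = l then 1 else 0 := by decide +kernel

lemma dat_chart : ∀ s ∈ LB, FB.IsChart s.e s.M := fun s hs =>
  ⟨dat_dual s hs, ⟨s, hs, Finset.Subset.refl _⟩⟩

lemma dat_sep : ∀ s ∈ LB, ∀ t ∈ LB, ∃ m ∈ sepB,
    (∀ i ∈ s.cone, if i ∈ t.cone then ∑ k, m k * vB i k = 0 else 0 < ∑ k, m k * vB i k) ∧
    ∀ i ∈ t.cone, i ∉ s.cone → ∑ k, m k * vB i k < 0 := by decide +kernel

lemma leafB (x : Fin 3 → ℝ) (n : ℕ) (hn : n < LB.length) {p0 p1 p2 q0 q1 q2 r0 r1 r2 : ℤ}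
    (hM : LB[n].M = ![![p0, p1, p2], ![q0, q1, q2], ![r0, r1, r2]])
    (h0 : 0 ≤ (p0 : ℝ) * x 0 + p1 * x 1 + p2 * x 2) (h1 : 0 ≤ (q0 : ℝ) * x 0 + q1 * x 1 + q2 * x 2)
    (h2 : 0 ≤ (r0 : ℝ) * x 0 + r1 * x 1 + r2 * x 2) :
    ∃ s ∈ LB, ∀ k, 0 ≤ ∑ j, (s.M k j : ℝ) * x j := by
  refine ⟨LB[n], List.getElem_mem hn, fun k => ?_⟩
  rw [hM, Fin.sum_univ_three]
  fin_cases k
  · exact h0
  · exact h1
  · exact h2

lemma dat_complete (x : Fin 3 → ℝ) : ∃ s ∈ LB, ∀ k, 0 ≤ ∑ j, (s.M k j : ℝ) * x j := by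
  rcases le_total 0 (x 1) with h0 | h0
  · rcases le_total 0 (-x 0 + x 2) with h1 | h1
    · rcases le_total 0 (-x 0 - x 1 + x 2) with h2 | h2
      · rcases le_total 0 (x 0 - x 1 + x 2) with h3 | h3
        · rcases le_total 0 (x 0) with h4 | h4
          · exact leafB x 0 (by decide) rfl (by push_cast; linarith) (by push_cast; linarith)
              (by push_cast; linarith)
          · exact leafB x 1 (by decide) rfl (by push_cast; linarith) (by push_cast; linarith)
              (by push_cast; linarith)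
        · rcases le_total 0 (-x 1 + x 2) with h4 | h4
          · exact leafB x 5 (by decide) rfl (by push_cast; linarith) (by push_cast; linarith)
              (by push_cast; linarith)
          · exact leafB x 11 (by decide) rfl (by push_cast; linarith) (by push_cast; linarith)
              (by push_cast; linarith)
      · rcases le_total 0 (2 * x 0 + x 1 - x 2) with h3 | h3
        · exact leafB x 4 (by decide) rfl (by push_cast; linarith) (by push_cast; linarith)
            (by push_cast; linarith)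
        · exact leafB x 10 (by decide) rfl (by push_cast; linarith) (by push_cast; linarith)
            (by push_cast; linarith)
    · rcases le_total 0 (x 1 + x 2) with h2 | h2
      · rcases le_total 0 (-x 0 + x 1 + x 2) with h3 | h3
        · exact leafB x 9 (by decide) rfl (by push_cast; linarith) (by push_cast; linarith)
            (by push_cast; linarith)
        · rcases le_total 0 (x 0 - 2 * x 1 - x 2) with h4 | h4
          · exact leafB x 7 (by decide) rfl (by push_cast; linarith) (by push_cast; linarith)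
              (by push_cast; linarith)
          · exact leafB x 8 (by decide) rfl (by push_cast; linarith) (by push_cast; linarith)
              (by push_cast; linarith)
      · rcases le_total 0 (-x 0 + x 1) with h3 | h3
        · rcases le_total 0 (x 0) with h4 | h4
          · exact leafB x 16 (by decide) rfl (by push_cast; linarith) (by push_cast; linarith)
              (by push_cast; linarith)
          · rcases le_total 0 (x 0 + x 1) with h5 | h5
            · exact leafB x 17 (by decide) rfl (by push_cast; linarith) (by push_cast; linarith)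
                (by push_cast; linarith)
            · exact leafB x 18 (by decide) rfl (by push_cast; linarith) (by push_cast; linarith)
                (by push_cast; linarith)
        · rcases le_total 0 (x 0 + x 2) with h4 | h4
          · exact leafB x 15 (by decide) rfl (by push_cast; linarith) (by push_cast; linarith)
              (by push_cast; linarith)
          · exact leafB x 23 (by decide) rfl (by push_cast; linarith) (by push_cast; linarith)
              (by push_cast; linarith)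
  · rcases le_total 0 (x 0 + x 2) with h1 | h1
    · rcases le_total 0 (x 0 + x 1 + x 2) with h2 | h2
      · rcases le_total 0 (-x 0 + x 1 + x 2) with h3 | h3
        · rcases le_total 0 (x 0) with h4 | h4
          · exact leafB x 3 (by decide) rfl (by push_cast; linarith) (by push_cast; linarith)
              (by push_cast; linarith)
          · exact leafB x 2 (by decide) rfl (by push_cast; linarith) (by push_cast; linarith)
              (by push_cast; linarith)
        · rcases le_total 0 (x 1 + x 2) with h4 | h4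
          · exact leafB x 7 (by decide) rfl (by push_cast; linarith) (by push_cast; linarith)
              (by push_cast; linarith)
          · exact leafB x 15 (by decide) rfl (by push_cast; linarith) (by push_cast; linarith)
              (by push_cast; linarith)
      · rcases le_total 0 (-2 * x 0 - x 1 - x 2) with h3 | h3
        · exact leafB x 6 (by decide) rfl (by push_cast; linarith) (by push_cast; linarith)
            (by push_cast; linarith)
        · exact leafB x 14 (by decide) rfl (by push_cast; linarith) (by push_cast; linarith)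
            (by push_cast; linarith)
    · rcases le_total 0 (-x 1 + x 2) with h2 | h2
      · rcases le_total 0 (-x 0 + 2 * x 1 - x 2) with h3 | h3
        · exact leafB x 5 (by decide) rfl (by push_cast; linarith) (by push_cast; linarith)
            (by push_cast; linarith)
        · rcases le_total 0 (x 0 - x 1 + x 2) with h4 | h4
          · exact leafB x 13 (by decide) rfl (by push_cast; linarith) (by push_cast; linarith)
              (by push_cast; linarith)
          · exact leafB x 12 (by decide) rfl (by push_cast; linarith) (by push_cast; linarith)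
              (by push_cast; linarith)
      · rcases le_total 0 (-x 0 + x 1) with h3 | h3
        · rcases le_total 0 (-x 0 + x 2) with h4 | h4
          · exact leafB x 11 (by decide) rfl (by push_cast; linarith) (by push_cast; linarith)
              (by push_cast; linarith)
          · exact leafB x 19 (by decide) rfl (by push_cast; linarith) (by push_cast; linarith)
              (by push_cast; linarith)
        · rcases le_total 0 (x 0) with h4 | h4
          · rcases le_total 0 (x 0 + x 1) with h5 | h5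
            · exact leafB x 22 (by decide) rfl (by push_cast; linarith) (by push_cast; linarith)
                (by push_cast; linarith)
            · exact leafB x 21 (by decide) rfl (by push_cast; linarith) (by push_cast; linarith)
                (by push_cast; linarith)
          · exact leafB x 20 (by decide) rfl (by push_cast; linarith) (by push_cast; linarith)
              (by push_cast; linarith)

theorem good_FB : FB.Good LB where
  chart := dat_chart
  cover := fun _ h => h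
  sep s hs t ht :=
    let ⟨m, _, h⟩ := dat_sep s hs t ht
    ⟨m, h⟩
  complete := dat_complete

/-- A Boolean test for the shelling condition. -/
def shellB : List (Finset (Fin 14)) → List (Fan.Step (Fin 14) (Fin 3)) → Bool
  | _, [] => true
  | K, s :: L => decide s.r.Nodup && (K.all fun ρ => s.r.any fun k => decide (s.e k ∉ ρ)) &&
      (s.r.all fun k => K.any fun ρ => decide (s.cone.erase (s.e k) ⊆ ρ)) && shellB (s.cone :: K) L

lemma shell_of_B : ∀ (L : List (Fan.Step (Fin 14) (Fin 3))) (K : List (Finset (Fin 14))),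
    shellB K L = true → Shell K L
  | [], _, _ => trivial
  | s :: L, K, h => by
    simp only [shellB, Bool.and_eq_true, decide_eq_true_eq, List.all_eq_true,
      List.any_eq_true] at h
    exact ⟨h.1.1.1, h.1.1.2, h.1.2, shell_of_B L _ h.2⟩

lemma dat_shell : Shell [] LB := shell_of_B _ _ (by decide +kernel)

theorem shl_FB : FB.Shl LB where
  chart := dat_chart
  cover := fun _ h => h
  shell := dat_shell

lemma dat_ray : ∀ i : Fin 14, ∃ s ∈ LB, ({i} : Finset (Fin 14)) ⊆ s.cone := by decide +kernel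

theorem isc_FB : FB.IsSmoothComplete :=
  good_FB.isc (fun _ ⟨s, hs, h⟩ _ hτ => ⟨s, hs, hτ.trans h⟩) dat_ray

theorem sm_FB : FB.Sm := shl_FB.sm

theorem sm_FX : FX.Sm := (shl_FB.pb1 (Or.inl rfl)).sm

theorem sm_FY : FY.Sm := (shl_FB.pb1 (Or.inr rfl)).sm

theorem shl_FF : FF.Shl (LB.map (Step.up 0) ++ LB.map (Step.dn 0 ![0, 0, 1])) :=
  shl_FB.pb1 (Or.inl rfl)

theorem sm_FF : FF.Sm := shl_FF.sm

theorem sm_FE : FE.Sm := shl_FF.sm_vb

theorem isc_FX : FX.IsSmoothComplete := isc_FB.pb1 sm_FX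

theorem isc_FY : FY.IsSmoothComplete := isc_FB.pb1 sm_FY

lemma chart0 : FB.IsChart ![0, 1, 2] M0 := dat_chart _ List.mem_cons_self

lemma dat_ab : ∀ i, aB i = vB i 2 + bB i := by decide

lemma chi_eq_b {g : Fin 14 → ℂ} (hg : g ∈ FB.G) : ∏ i, g i ^ bB i = chi g := by
  have h : ∏ i, g i ^ vB i 2 = 1 := hg.2 2
  have h2 : chi g = ∏ i, g i ^ vB i 2 * g i ^ bB i :=
    Finset.prod_congr rfl fun i _ => by rw [dat_ab i, zpow_add₀ (hg.1 i)]
  rw [h2, Finset.prod_mul_distrib, h, one_mul]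

lemma chi_ne {g : Fin 14 → ℂ} (hg : ∀ i, g i ≠ 0) : chi g ≠ 0 :=
  Finset.prod_ne_zero_iff.2 fun i _ => zpow_ne_zero _ (hg i)

lemma chi_mul (g g' : Fin 14 → ℂ) : chi (g * g') = chi g * chi g' := by
  simp only [chi, Pi.mul_apply, mul_zpow, Finset.prod_mul_distrib]

lemma norm_chi (g : Fin 14 → ℂ) : chi (fun i => (‖g i‖ : ℂ)) = ‖chi g‖ := by
  simp only [chi, norm_prod, norm_zpow, Complex.ofReal_prod, Complex.ofReal_zpow]

lemma dat_len : ∀ s ∈ LB, s.r.length ≤ 3 := by decide +kernel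

theorem triv_FB (R : Type) [CommRing R] {k : ℕ} (hk : Odd k ∨ 6 < k) :
    Triv R {(univ : Set FB.X)} ∅ k :=
  (shl_FB.gb R).triv fun j hj => by
    have h3 := dat_len _ (List.getElem_mem j.2)
    rw [← hj] at hk
    rcases hk with hk | hk
    · exact (Nat.not_odd_iff_even.2 (even_two_mul _)) hk
    · simp only [Fin.getElem_fin] at hk
      omega

end Pool.Agent.Lib.MP_bf05b2_gt
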