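import Pool.Agent.Lib.MP_bf05b2_gt.H57Zero

/-! Subsets of the family of threefolds and deformations between them. -/

set_option linter.unusedSectionVars false

namespace Pool.Agent.Lib.MP_bf05b2_gt

open Set Finsupp Pool.Agent.Shared.Sing Pool.Agent.Shared.SingEZ Sum Fan

/-- The norm of the coordinates of the projective line. -/
noncomputable def nS (w : Fin 14 ⊕ Fin 2 → ℂ) : ℝ := ‖w (inr 0)‖ + ‖w (inr 1)‖

/-- The rescaled coordinates of the fibre. -/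
noncomputable def vp (w : Fin 14 ⊕ Fin 2 → ℂ) : Fin 14 → ℂ :=
  Function.update (w ∘ inl) 0 (w (inl 0) * nS w)

/-- Coordinates on the family of first charts. -/
noncomputable def co : FF.X → ℂ × ℂ × ℝ := FF.lf fun w => coB (vp w)

/-- The rays of the family of first charts. -/
def ρ0 : Finset (Fin 14 ⊕ Fin 2) := {inl 0, inl 1, inl 2, inr 0, inr 1}

/-- The family of first charts. -/
def MM : Set FF.X := FF.W ρ0

/-- The subset given by a condition on the coordinates. -/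
def MS (S : Set (ℂ × ℂ × ℝ)) : Set FF.X := MM ∩ co ⁻¹' S

/-- The set containing the zeros of the section. -/
def KK : Set FF.X := MS Bx

/-- The thickened disc bundle. -/
def DD : Set FF.X := MS (Jc ×ˢ Jc ×ˢ Iic (Real.exp 60))

/-- A large polydisc bundle. -/
def BG : Set FF.X :=
  MS (Metric.closedBall 0 (Real.exp 60) ×ˢ Metric.closedBall 0 (Real.exp 60) ×ˢ Iic (Real.exp 60))

/-- A neighbourhood of the divisor of the first ray. -/
def Y1 : Set FF.X := MS (univ ×ˢ univ ×ˢ Iio (Real.exp (-60)))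

/-- The inclusion of a fibre. -/
noncomputable def jB : FB.X → FF.X := ind FF FB fun z => Sum.elim z ![1, 0]

variable {w g : Fin 14 ⊕ Fin 2 → ℂ}

lemma df_prod_update (f : Fin 14 → ℂ) (c : ℂ) (n : Fin 14 → ℤ) :
    ∏ i, Function.update f 0 (c * f 0) i ^ n i = c ^ n 0 * ∏ i, f i ^ n i := by
  rw [← Finset.mul_prod_erase _ _ (Finset.mem_univ (0 : Fin 14)),
    ← Finset.mul_prod_erase _ (fun i => f i ^ n i) (Finset.mem_univ (0 : Fin 14)),
    Function.update_self, mul_zpow, mul_assoc,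
    Finset.prod_congr rfl fun i hi => by rw [Function.update_of_ne (Finset.ne_of_mem_erase hi)]]

lemma df_mon_update (m : Fin 3 → ℤ) (f : Fin 14 → ℂ) (c : ℂ) :
    FB.mon m (Function.update f 0 (c * f 0)) = c ^ m 2 * FB.mon m f := by
  rw [mon, df_prod_update, mon]
  congr 2
  simp [FB, vB, Fin.sum_univ_three]

lemma df_v0 (k : Fin 3) : FB.v 0 k = (![0, 0, 1] : Fin 3 → ℤ) k := rfl

lemma mem_G_FF : g ∈ FF.G ↔ g (inr 0) ≠ 0 ∧ g (inr 1) = g (inr 0) ∧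
    Function.update (g ∘ inl) 0 (g (inl 0) * g (inr 0)) ∈ FB.G := by
  have e1 : ∀ k, ∏ i, Function.update (g ∘ inl) 0 (g (inl 0) * g (inr 0)) i ^ FB.v i k =
      (∏ i, g (inl i) ^ FB.v i k) * g (inr 0) ^ (![0, 0, 1] : Fin 3 → ℤ) k := fun k => by
    rw [mul_comm (g (inl 0)), mul_comm _ (g (inr 0) ^ _)]
    exact df_prod_update (g ∘ inl) (g (inr 0)) fun i => FB.v i k
  rw [mem_G_pb1]
  simp only [Pi.zero_apply, zpow_zero, Finset.prod_const_one, one_mul]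
  constructor
  · rintro ⟨h0, h1, h2⟩
    refine ⟨h0 _, h1.symm, fun i => ?_, fun k => ?_⟩
    · rcases eq_or_ne i 0 with rfl | hi
      · rw [Function.update_self]
        exact mul_ne_zero (h0 _) (h0 _)
      · rw [Function.update_of_ne hi]
        exact h0 _
    · rw [e1, h1]
      exact h2 k
  · rintro ⟨h0, h1, h2, h3⟩
    refine ⟨?_, h1.symm, fun k => ?_⟩
    · rintro (i | j)
      · rcases eq_or_ne i 0 with rfl | hi
        · have := h2 0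
          rw [Function.update_self] at this
          exact left_ne_zero_of_mul this
        · have := h2 i
          rwa [Function.update_of_ne hi] at this
      · fin_cases j
        · exact h0
        · exact h1 ▸ h0
    · rw [h1, ← e1]
      exact h3 k

lemma df_G_one {g : Fin 14 → ℂ} (hg : g ∈ FB.G) : Sum.elim g (1 : Fin 2 → ℂ) ∈ FF.G := by
  refine mem_G_FF.2 ⟨one_ne_zero, rfl, ?_⟩
  simpa using hg

lemma isEq_jB : IsEq FF FB (fun z => Sum.elim z ![1, 0]) fun g => Sum.elim g 1 := by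
  refine ⟨Continuous.continuousOn (continuous_pi ?_), fun z hz => ?_, fun g hg => df_G_one hg,
    fun g _ z _ => ?_⟩
  · rintro (i | j)
    · exact continuous_apply i
    · exact continuous_const
  · exact mem_U_pb1.2 ⟨hz, Or.inl one_ne_zero⟩
  · ext (i | j)
    · rfl
    · simp

lemma nS_pos (hw : w ∈ FF.U) : 0 < nS w := by
  rcases (mem_U_pb1.1 hw).2 with h | h
  · exact add_pos_of_pos_of_nonneg (norm_pos_iff.2 h) (norm_nonneg _)
  · exact add_pos_of_nonneg_of_pos (norm_nonneg _) (norm_pos_iff.2 h)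

lemma continuous_nS : Continuous nS :=
  (continuous_apply _).norm.add (continuous_apply _).norm

lemma continuous_vp : Continuous vp :=
  (continuous_pi fun i => continuous_apply (inl i)).update 0
    ((continuous_apply _).mul (Complex.continuous_ofReal.comp continuous_nS))

lemma df_vp_ne (hw : w ∈ FF.U) (i : Fin 14) : vp w i ≠ 0 ↔ w (inl i) ≠ 0 := by
  rcases eq_or_ne i 0 with rfl | hi
  · rw [vp, Function.update_self, mul_ne_zero_iff]
    exact and_iff_left (Complex.ofReal_ne_zero.2 (nS_pos hw).ne')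
  · rw [vp, Function.update_of_ne hi]
    rfl

lemma vp_mem (hw : w ∈ FF.U) : vp w ∈ FB.U := by
  obtain ⟨σ, hσ, h⟩ := (mem_U_pb1.1 hw).1
  exact ⟨σ, hσ, fun i hi => (df_vp_ne hw i).2 (h i hi)⟩

lemma nS_mul (hg : g ∈ FF.G) (w : Fin 14 ⊕ Fin 2 → ℂ) : nS (g * w) = ‖g (inr 0)‖ * nS w := by
  simp only [nS, Pi.mul_apply, norm_mul, (mem_G_FF.1 hg).2.1, mul_add]

lemma vp_mul (hg : g ∈ FF.G) (w : Fin 14 ⊕ Fin 2 → ℂ) : vp (g * w) = Function.update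
    (Function.update (g ∘ inl) 0 (g (inl 0) * g (inr 0)) * vp w) 0 (‖g (inr 0)‖ / g (inr 0) *
      (Function.update (g ∘ inl) 0 (g (inl 0) * g (inr 0)) * vp w) 0) := by
  have h0 := (mem_G_FF.1 hg).1
  ext i
  rcases eq_or_ne i 0 with rfl | hi
  · simp only [vp, Function.update_self, Pi.mul_apply, nS_mul hg, Complex.ofReal_mul]
    field_simp
  · simp only [vp, Function.update_of_ne hi, Pi.mul_apply, Function.comp_apply]

lemma vp_jB (z : Fin 14 → ℂ) : vp (Sum.elim z ![1, 0]) = z := by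
  simp [vp, nS]

lemma df_coB_update (z : Fin 14 → ℂ) (c : ℂ) : coB (Function.update z 0 (c * z 0)) =
    (FB.mon ![1, 0, 0] z, FB.mon ![0, 1, 0] z, ‖c‖ * ‖FB.mon ![-1, -1, 1] z‖) := by
  simp [coB, df_mon_update]

lemma df_coB_vp (w : Fin 14 ⊕ Fin 2 → ℂ) : coB (vp w) = (FB.mon ![1, 0, 0] (w ∘ inl),
    FB.mon ![0, 1, 0] (w ∘ inl), nS w * ‖FB.mon ![-1, -1, 1] (w ∘ inl)‖) := by
  have h : ‖(nS w : ℂ)‖ = nS w := Complex.norm_of_nonneg (by unfold nS; positivity)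
  rw [vp, mul_comm]
  exact (df_coB_update (w ∘ inl) (nS w)).trans (by rw [h])

lemma df_coB_mul (hg : g ∈ FF.G) (w : Fin 14 ⊕ Fin 2 → ℂ) : coB (vp (g * w)) = coB (vp w) := by
  obtain ⟨h0, -, h2⟩ := mem_G_FF.1 hg
  rw [vp_mul hg, df_coB_update, mon_mul _ h2, mon_mul _ h2, mon_mul _ h2, norm_div,
    Complex.norm_real, norm_norm, div_self (norm_ne_zero_iff.2 h0), one_mul]
  rfl

lemma co_cl (hw : w ∈ FF.U) : co (FF.cl w) = coB (vp w) :=
  lf_cl (h := fun w => coB (vp w)) hw fun _ hg => df_coB_mul hg w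

/-- The rays of the first chart. -/
abbrev df_c0 : Finset (Fin 14) := Finset.univ.image (![0, 1, 2] : Fin 3 → Fin 14)

lemma df_rho : ∀ i : Fin 14, inl i ∈ ρ0 ↔ i ∈ df_c0 := by decide

lemma df_rho' : ∀ j : Fin 2, inr j ∈ ρ0 := by decide

lemma df_mem_MM (hw : w ∈ FF.U) : FF.cl w ∈ MM ↔ ∀ i ∉ df_c0, w (inl i) ≠ 0 := by
  rw [MM, cl_mem_W hw]
  constructor
  · exact fun h i hi => h _ fun h1 => hi ((df_rho i).1 h1)
  · rintro h (i | j) hi
    · exact h i fun h1 => hi ((df_rho i).2 h1)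
    · exact absurd (df_rho' j) hi

lemma df_cont_mon (k : Fin 3) :
    ContinuousOn (FB.mon (M0 k)) {z | ∀ i ∉ df_c0, z i ≠ 0} := by
  refine (continuousOn_mon (M0 k)).mono fun z hz i hi => ?_
  rcases mem_or_not (![0, 1, 2] : Fin 3 → Fin 14) i with ⟨l, rfl⟩ | hi'
  · rw [chart0.dual] at hi
    split_ifs at hi <;> omega
  · exact hz i hi'

lemma df_cont_coB : ContinuousOn coB {z | ∀ i ∉ df_c0, z i ≠ 0} :=
  (df_cont_mon 1).prodMk ((df_cont_mon 2).prodMk (df_cont_mon 0).norm)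

lemma continuousOn_co : ContinuousOn co MM :=
  continuousOn_lf (FF.isOpen_W ρ0) (df_cont_coB.comp continuous_vp.continuousOn fun _ hz i hi =>
    (df_vp_ne hz.1 i).2 ((df_mem_MM hz.1).1 hz.2 i hi)) fun z _ _ _ hg => df_coB_mul hg z

lemma isOpen_MM : IsOpen MM := FF.isOpen_W ρ0

lemma df_co_nonneg (x : FF.X) : 0 ≤ (co x).2.2 := norm_nonneg _

lemma MS_nonneg (S : Set (ℂ × ℂ × ℝ)) : MS (S ∩ {c | 0 ≤ c.2.2}) = MS S := by
  ext x
  exact ⟨fun h => ⟨h.1, h.2.1⟩, fun h => ⟨h.1, h.2, df_co_nonneg x⟩⟩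

lemma df_mon_zero {z : Fin 14 → ℂ} (hz : ∀ i ∉ df_c0, z i ≠ 0) (k : Fin 3) :
    FB.mon (M0 k) z = 0 ↔ z (![0, 1, 2] k) = 0 := by
  rw [chart0.mon_split, mul_eq_zero]
  exact or_iff_left (Finset.prod_ne_zero_iff.2 fun i hi =>
    zpow_ne_zero _ (hz i (Finset.mem_compl.1 hi)))

lemma df_co1 (hw : w ∈ FF.U) (hM : FF.cl w ∈ MM) : (co (FF.cl w)).1 = 0 ↔ w (inl 1) = 0 := by
  rw [co_cl hw, df_coB_vp]
  exact df_mon_zero (z := w ∘ inl) ((df_mem_MM hw).1 hM) 1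

lemma df_co2 (hw : w ∈ FF.U) (hM : FF.cl w ∈ MM) : (co (FF.cl w)).2.1 = 0 ↔ w (inl 2) = 0 := by
  rw [co_cl hw, df_coB_vp]
  exact df_mon_zero (z := w ∘ inl) ((df_mem_MM hw).1 hM) 2

lemma df_co0 (hw : w ∈ FF.U) (hM : FF.cl w ∈ MM) : (co (FF.cl w)).2.2 = 0 ↔ w (inl 0) = 0 := by
  rw [co_cl hw, df_coB_vp, mul_eq_zero, or_iff_right (nS_pos hw).ne', norm_eq_zero]
  exact df_mon_zero (z := w ∘ inl) ((df_mem_MM hw).1 hM) 0

lemma df_only : ∀ s ∈ LB, 0 ∈ s.cone → 1 ∈ s.cone → 2 ∈ s.cone → s.cone ⊆ df_c0 := by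
  decide +kernel

lemma MS_zero : (MS {0})ᶜ = FF.nz (inl 0) ∪ FF.nz (inl 1) ∪ FF.nz (inl 2) := by
  rw [compl_eq_comm]
  ext x
  obtain ⟨w, hw, rfl⟩ := cl_surj x
  simp only [mem_compl_iff, mem_union, cl_mem_nz hw, not_or, not_not]
  constructor
  · rintro ⟨⟨h0, h1⟩, h2⟩
    have hM : FF.cl w ∈ MM := by
      obtain ⟨σ, ⟨s, hs, hσ⟩, h⟩ := (mem_U_pb1.1 hw).1
      have hm : ∀ i, w (inl i) = 0 → i ∈ s.cone := fun i hi => hσ (by
        by_contra h3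
        exact h i h3 hi)
      exact (df_mem_MM hw).2 fun i hi h3 =>
        hi (df_only s hs (hm 0 h0) (hm 1 h1) (hm 2 h2) (hm i h3))
    exact ⟨hM, Prod.ext ((df_co1 hw hM).2 h1) (Prod.ext ((df_co2 hw hM).2 h2)
      ((df_co0 hw hM).2 h0))⟩
  · rintro ⟨hM, h⟩
    have h' : co (FF.cl w) = 0 := h
    exact ⟨⟨(df_co0 hw hM).1 (by rw [h']; rfl), (df_co1 hw hM).1 (by rw [h']; rfl)⟩,
      (df_co2 hw hM).1 (by rw [h']; rfl)⟩

lemma MS_ne : MS {c | (c.1, c.2.1) ≠ 0} = MM ∩ (FF.nz (inl 1) ∪ FF.nz (inl 2)) := by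
  ext x
  obtain ⟨w, hw, rfl⟩ := cl_surj x
  refine and_congr_right fun hM => ?_
  simp only [mem_preimage, mem_ofPred_eq, mem_union, cl_mem_nz hw, ne_eq, Prod.mk_eq_zero,
    df_co1 hw hM, df_co2 hw hM, not_and_or]

lemma isOpen_MS {S : Set (ℂ × ℂ × ℝ)} (hS : IsOpen S) : IsOpen (MS S) :=
  continuousOn_co.isOpen_inter_preimage isOpen_MM hS

lemma df_compact {S : Set (ℂ × ℂ × ℝ)} (hS : IsCompact (S ∩ {c | 0 ≤ c.2.2})) :
    IsCompact {u : Fin 3 → ℂ | (u 1, u 2, ‖u 0‖) ∈ S} := by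
  have hc : Continuous fun u : Fin 3 → ℂ => (u 1, u 2, ‖u 0‖) := by fun_prop
  have e : {u : Fin 3 → ℂ | (u 1, u 2, ‖u 0‖) ∈ S} =
      (fun u : Fin 3 → ℂ => (u 1, u 2, ‖u 0‖)) ⁻¹' (S ∩ {c | 0 ≤ c.2.2}) := by
    ext u
    exact ⟨fun h => ⟨h, norm_nonneg _⟩, fun h => h.1⟩
  obtain ⟨r, hr⟩ := hS.isBounded.exists_norm_le
  rw [e]
  refine (isCompact_closedBall (0 : Fin 3 → ℂ) r).of_isClosed_subset (hS.isClosed.preimage hc)
    fun u hu => ?_
  have h1 := hr _ hu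
  have hr0 : 0 ≤ r := (norm_nonneg _).trans h1
  rw [Prod.norm_mk, Prod.norm_mk, norm_norm, max_le_iff, max_le_iff] at h1
  rw [mem_closedBall_zero_iff, pi_norm_le_iff_of_nonneg hr0]
  intro k
  fin_cases k
  exacts [h1.2.2, h1.1, h1.2.1]

lemma df_MS_iff {S : Set (ℂ × ℂ × ℝ)} (hw : w ∈ FF.U) : FF.cl w ∈ MS S ↔
    FB.cl (vp w) ∈ FB.ψ ![0, 1, 2] '' {u : Fin 3 → ℂ | (u 1, u 2, ‖u 0‖) ∈ S} := by
  have hv := vp_mem hw
  have e : ∀ u : Fin 3 → ℂ, u = FB.φ M0 (FB.cl (vp w)) → (u 1, u 2, ‖u 0‖) = co (FF.cl w) := by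
    rintro u rfl
    rw [φ_cl M0 hv, φ_cl M0 hv, φ_cl M0 hv, co_cl hw]
    rfl
  constructor
  · rintro ⟨hM, h⟩
    refine ⟨FB.φ M0 (FB.cl (vp w)), ?_, chart0.ψ_φ ((cl_mem_W hv).2 fun i hi =>
      (df_vp_ne hw i).2 ((df_mem_MM hw).1 hM i hi))⟩
    rw [mem_ofPred_eq, e _ rfl]
    exact h
  · rintro ⟨u, hu, h⟩
    have h1 := chart0.ψ_mem u
    rw [h, cl_mem_W hv] at h1
    refine ⟨(df_mem_MM hw).2 fun i hi => (df_vp_ne hw i).1 (h1 i hi), ?_⟩
    rw [mem_preimage, ← e u (by rw [← h, chart0.φ_ψ])]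
    exact hu

theorem isClosed_MS {S : Set (ℂ × ℂ × ℝ)} (hS : IsCompact (S ∩ {c | 0 ≤ c.2.2})) :
    IsClosed (MS S) := by
  have := good_FB.t2
  have h1 := ((df_compact hS).image chart0.continuous_ψ).isClosed.isOpen_compl
  have h2 : ContinuousOn (fun w => FB.cl (vp w)) FF.U :=
    continuousOn_cl.comp continuous_vp.continuousOn fun _ hw => vp_mem hw
  rw [← isOpen_compl_iff, isOpen_iff]
  convert h2.isOpen_inter_preimage isOpen_U h1 using 1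
  ext w
  exact and_congr_right fun hw => not_congr (df_MS_iff hw)

lemma isOpen_Y1 : IsOpen Y1 := isOpen_MS (isOpen_univ.prod (isOpen_univ.prod isOpen_Iio))

lemma df_Jc : IsCompact Jc := by
  have : Jc = Complex.ofReal '' Icc (Real.exp (-20)) (Real.exp 20) := by
    ext x
    constructor
    · rintro ⟨h1, h2⟩
      exact ⟨x.re, h2, Complex.ext rfl h1.symm⟩
    · rintro ⟨t, ht, rfl⟩
      exact ⟨rfl, ht⟩
  rw [this]
  exact isCompact_Icc.image Complex.continuous_ofReal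

lemma df_Jc_sub : Jc ⊆ Metric.closedBall 0 (Real.exp 60) := by
  rintro x ⟨h1, h2, h3⟩
  have h4 : x = (x.re : ℂ) := Complex.ext rfl h1
  rw [mem_closedBall_zero_iff, h4, Complex.norm_of_nonneg ((Real.exp_pos _).le.trans h2)]
  exact h3.trans (Real.exp_le_exp.2 (by norm_num))

lemma isClosed_DD : IsClosed DD := by
  refine isClosed_MS ?_
  convert df_Jc.prod (df_Jc.prod (isCompact_Icc (a := (0 : ℝ)) (b := Real.exp 60))) using 1
  ext c
  simp only [mem_inter_iff, mem_prod, mem_Iic, mem_ofPred_eq, mem_Icc]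
  tauto

lemma KK_compl : KKᶜ = Y1 ∪ DDᶜ := by
  ext x
  constructor
  · intro h
    by_cases hD : x ∈ DD
    · refine Or.inl ⟨hD.1, mem_univ _, mem_univ _, ?_⟩
      by_contra h1
      exact h ⟨hD.1, hD.2.1, hD.2.2.1, not_lt.1 h1, hD.2.2.2⟩
    · exact Or.inr hD
  · rintro (h | h) hK
    · exact absurd hK.2.2.2.1 (not_le.2 h.2.2.2)
    · exact h ⟨hK.1, hK.2.1, hK.2.2.1, hK.2.2.2.2⟩

lemma DD_sub : DD ⊆ BG := fun _ h => ⟨h.1, df_Jc_sub h.2.1, df_Jc_sub h.2.2.1, h.2.2.2⟩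

lemma BG_compl : BGᶜ ⊆ FF.nz (inl 0) ∪ FF.nz (inl 1) ∪ FF.nz (inl 2) := by
  rw [← MS_zero]
  refine compl_subset_compl.2 fun x hx => ⟨hx.1, ?_⟩
  have h : co x = 0 := hx.2
  have h0 := (Real.exp_pos 60).le
  rw [mem_preimage, h]
  exact ⟨Metric.mem_closedBall_self h0, Metric.mem_closedBall_self h0, h0⟩

lemma Y1_BG : Y1 ∩ BGᶜ ⊆ MM ∩ (FF.nz (inl 1) ∪ FF.nz (inl 2)) := by
  rw [← MS_ne]
  rintro x ⟨h1, h2⟩
  refine ⟨h1.1, fun h => h2 ⟨h1.1, ?_⟩⟩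
  have h0 := (Real.exp_pos 60).le
  obtain ⟨h3, h4⟩ := Prod.mk_eq_zero.1 h
  refine ⟨h3 ▸ Metric.mem_closedBall_self h0, h4 ▸ Metric.mem_closedBall_self h0, ?_⟩
  exact (le_of_lt h1.2.2.2).trans (Real.exp_le_exp.2 (by norm_num))

/-- The point of the fibre with prescribed coordinates, on representatives. -/
noncomputable def dfTh (p : (Fin 14 ⊕ Fin 2 → ℂ) × ℂ × ℂ × ℝ) : Fin 14 ⊕ Fin 2 → ℂ :=
  Sum.elim (sec ![0, 1, 2] ![p.2.2.2 * FB.mon (M0 0) (p.1 ∘ inl), p.2.1, p.2.2.1]) (p.1 ∘ inr)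

/-- The point of the fibre with prescribed coordinates. -/
noncomputable def dfPs (p : FF.X × ℂ × ℂ × ℝ) : FF.X :=
  FF.lf (fun w => FF.cl (dfTh (w, p.2))) p.1

lemma dfTh_mem (hw : w ∈ FF.U) (q : ℂ × ℂ × ℝ) : dfTh (w, q) ∈ FF.U :=
  mem_U_pb1.2 ⟨chart0.sec_mem _, (mem_U_pb1.1 hw).2⟩

lemma df_sec_update (u : Fin 3 → ℂ) (c : ℂ) :
    sec (![0, 1, 2] : Fin 3 → Fin 14) ![c * u 0, u 1, u 2] =
      Function.update (1 : Fin 14 → ℂ) 0 c * sec ![0, 1, 2] u := by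
  ext i
  rcases mem_or_not (![0, 1, 2] : Fin 3 → Fin 14) i with ⟨k, rfl⟩ | hi
  · rw [Pi.mul_apply, chart0.sec_e, chart0.sec_e]
    fin_cases k
    · simp
    · simp
    · simp
  · have : i ≠ 0 := by
      rintro rfl
      exact hi (by decide)
    rw [Pi.mul_apply, sec_not _ hi, sec_not _ hi, Function.update_of_ne this]
    simp

lemma dfTh_mul (hw : w ∈ FF.U) (hg : g ∈ FF.G) (q : ℂ × ℂ × ℝ) :
    FF.cl (dfTh (g * w, q)) = FF.cl (dfTh (w, q)) := by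
  obtain ⟨h0, h1, h2⟩ := mem_G_FF.1 hg
  have e1 : Function.update (g ∘ inl) 0 (g (inl 0) * g (inr 0)) * (w ∘ inl) =
      Function.update ((g * w) ∘ inl) 0 (g (inr 0) * ((g * w) ∘ inl) 0) := by
    ext i
    rcases eq_or_ne i 0 with rfl | hi
    · simp only [Function.update_self, Pi.mul_apply, Function.comp_apply]
      ring
    · simp only [Function.update_of_ne hi, Pi.mul_apply, Function.comp_apply]
  have e2 : FB.mon (M0 0) ((g * w) ∘ inl) = (g (inr 0))⁻¹ * FB.mon (M0 0) (w ∘ inl) := by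
    rw [← mon_mul (M0 0) h2 (w ∘ inl), e1, df_mon_update]
    have : M0 0 2 = 1 := rfl
    rw [this, zpow_one, inv_mul_cancel_left₀ h0]
  have hγ : Sum.elim (Function.update (1 : Fin 14 → ℂ) 0 (g (inr 0))⁻¹)
      (fun _ : Fin 2 => g (inr 0)) ∈ FF.G := by
    refine mem_G_FF.2 ⟨h0, rfl, ?_⟩
    convert one_mem_G (F := FB) using 1
    ext i
    rcases eq_or_ne i 0 with rfl | hi
    · rw [Function.update_self, Sum.elim_inl, Sum.elim_inr, Function.update_self,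
        inv_mul_cancel₀ h0]
      rfl
    · rw [Function.update_of_ne hi, Function.comp_apply, Sum.elim_inl, Function.update_of_ne hi]
  rw [← cl_mul hγ (dfTh_mem hw q)]
  congr 1
  ext (i | j)
  · have := df_sec_update ![q.2.2 * FB.mon (M0 0) (w ∘ inl), q.1, q.2.1] (g (inr 0))⁻¹
    simp only [dfTh, Sum.elim_inl, Pi.mul_apply, e2]
    rw [← Pi.mul_apply, ← this, mul_left_comm]
    rfl
  · fin_cases j
    · rfl
    · exact congrArg (· * w (inr 1)) h1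

lemma dfPs_cl (hw : w ∈ FF.U) (q : ℂ × ℂ × ℝ) : dfPs (FF.cl w, q) = FF.cl (dfTh (w, q)) :=
  lf_cl (h := fun w => FF.cl (dfTh (w, q))) hw fun _ hg => dfTh_mul hw hg q

lemma df_cont_Th : ContinuousOn dfTh ((FF.U ∩ FF.cl ⁻¹' MM) ×ˢ univ) := by
  have h1 : ContinuousOn (fun p : (Fin 14 ⊕ Fin 2 → ℂ) × ℂ × ℂ × ℝ => FB.mon (M0 0) (p.1 ∘ inl))
      ((FF.U ∩ FF.cl ⁻¹' MM) ×ˢ univ) :=
    (df_cont_mon 0).comp (Continuous.continuousOn (continuous_pi fun i =>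
      (continuous_apply (inl i)).comp continuous_fst)) fun p hp => (df_mem_MM hp.1.1).1 hp.1.2
  have h2 : ContinuousOn (fun p : (Fin 14 ⊕ Fin 2 → ℂ) × ℂ × ℂ × ℝ =>
      (![p.2.2.2 * FB.mon (M0 0) (p.1 ∘ inl), p.2.1, p.2.2.1] : Fin 3 → ℂ))
      ((FF.U ∩ FF.cl ⁻¹' MM) ×ˢ univ) := by
    refine continuousOn_pi.2 fun k => ?_
    fin_cases k
    · exact (Continuous.continuousOn (by fun_prop)).mul h1
    · exact (continuous_fst.comp continuous_snd).continuousOn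
    · exact (continuous_fst.comp (continuous_snd.comp continuous_snd)).continuousOn
  refine continuousOn_pi.2 ?_
  rintro (i | j)
  · exact ((continuous_apply i).comp (continuous_sec _)).comp_continuousOn h2
  · exact ((continuous_apply (inr j : Fin 14 ⊕ Fin 2)).comp continuous_fst).continuousOn

lemma df_cont_Ps : ContinuousOn dfPs (MM ×ˢ univ) :=
  continuousOn_lf₂ (h := fun p => FF.cl (dfTh p)) isOpen_MM
    (continuousOn_cl.comp df_cont_Th fun p hp => dfTh_mem hp.1.1 p.2)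
    fun _ hz _ _ hg q _ => dfTh_mul hz hg q

lemma dfPs_mem (x : FF.X) (q : ℂ × ℂ × ℝ) : dfPs (x, q) ∈ MM := by
  obtain ⟨w, hw, rfl⟩ := cl_surj x
  rw [dfPs_cl hw, df_mem_MM (dfTh_mem hw q)]
  intro i hi
  rw [dfTh, Sum.elim_inl, sec_not _ hi]
  exact one_ne_zero

lemma dfPs_co (x : FF.X) {q : ℂ × ℂ × ℝ} (hq : 0 ≤ q.2.2) :
    co (dfPs (x, q)) = (q.1, q.2.1, q.2.2 * (co x).2.2) := by
  obtain ⟨w, hw, rfl⟩ := cl_surj x
  rw [dfPs_cl hw, co_cl (dfTh_mem hw q), co_cl hw, df_coB_vp, df_coB_vp]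
  have h := chart0.mon_sec ![q.2.2 * FB.mon (M0 0) (w ∘ inl), q.1, q.2.1]
  refine Prod.ext (h 1) (Prod.ext (h 2) ?_)
  have h0 : ‖FB.mon ![-1, -1, 1] (dfTh (w, q) ∘ inl)‖ = ‖q.2.2 * FB.mon (M0 0) (w ∘ inl)‖ :=
    congrArg norm (h 0)
  change nS w * _ = _
  rw [h0, norm_mul, Complex.norm_of_nonneg hq, mul_left_comm]
  rfl

lemma dfPs_self {x : FF.X} (hx : x ∈ MM) : dfPs (x, (co x).1, (co x).2.1, 1) = x := by
  obtain ⟨w, hw, rfl⟩ := cl_surj x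
  have hz := (df_mem_MM hw).1 hx
  rw [dfPs_cl hw, co_cl hw, df_coB_vp,
    ← cl_mul (df_G_one (chart0.nrm_mem (z := w ∘ inl) hz)) hw]
  congr 1
  ext (i | j)
  · have := congrFun (chart0.nrm_mul (z := w ∘ inl) hz) i
    refine Eq.trans ?_ this.symm
    simp only [dfTh, Sum.elim_inl, Complex.ofReal_one, one_mul]
    congr 1
    ext k
    fin_cases k <;> rfl
  · simp [dfTh]

variable (R : Type) [CommRing R]

/-- Deformations given in coordinates. -/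
theorem triv_co {S S' : Set (ℂ × ℂ × ℝ)} {a b : (ℂ × ℂ × ℝ) × ℝ → ℂ} {r : (ℂ × ℂ × ℝ) × ℝ → ℝ}
    (hS : S' ⊆ S) (ha : ContinuousOn a (S ×ˢ Icc 0 1)) (hb : ContinuousOn b (S ×ˢ Icc 0 1))
    (hr : ContinuousOn r (S ×ˢ Icc 0 1)) (hr0 : ∀ c ∈ S, ∀ s ∈ Icc (0 : ℝ) 1, 0 ≤ r (c, s))
    (h0 : ∀ c ∈ S, a (c, 0) = c.1 ∧ b (c, 0) = c.2.1 ∧ r (c, 0) = 1)
    (hm : ∀ c ∈ S, ∀ s ∈ Icc (0 : ℝ) 1, (a (c, s), b (c, s), r (c, s) * c.2.2) ∈ S)
    (hm' : ∀ c ∈ S', ∀ s ∈ Icc (0 : ℝ) 1, (a (c, s), b (c, s), r (c, s) * c.2.2) ∈ S')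
    (h1 : ∀ c ∈ S, (a (c, 1), b (c, 1), r (c, 1) * c.2.2) ∈ S') (k : ℕ) :
    Triv R {MS S} {MS S'} k := by
  have hco : ContinuousOn (fun p : FF.X × ℝ => (co p.1, p.2)) (MS S ×ˢ Icc 0 1) :=
    (continuousOn_co.comp continuousOn_fst fun p hp => hp.1.1).prodMk continuousOn_snd
  have hmp : MapsTo (fun p : FF.X × ℝ => (co p.1, p.2)) (MS S ×ˢ Icc 0 1) (S ×ˢ Icc 0 1) :=
    fun p hp => ⟨hp.1.2, hp.2⟩
  have hc : ContinuousOn (fun p : FF.X × ℝ =>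
      dfPs (p.1, a (co p.1, p.2), b (co p.1, p.2), r (co p.1, p.2))) (MS S ×ˢ Icc 0 1) :=
    df_cont_Ps.comp (continuousOn_fst.prodMk ((ha.comp hco hmp).prodMk
      ((hb.comp hco hmp).prodMk (hr.comp hco hmp)))) fun p hp => ⟨hp.1.1, mem_univ _⟩
  have hSS : MS S' ⊆ MS S := fun x hx => ⟨hx.1, hS hx.2⟩
  have key : ∀ x ∈ MS S, ∀ s ∈ Icc (0 : ℝ) 1, ∀ T : Set (ℂ × ℂ × ℝ),
      (a (co x, s), b (co x, s), r (co x, s) * (co x).2.2) ∈ T →
      dfPs (x, a (co x, s), b (co x, s), r (co x, s)) ∈ MS T := fun x hx s hs T hT =>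
    ⟨dfPs_mem _ _, by
      rw [mem_preimage, dfPs_co x (hr0 _ hx.2 s hs)]
      exact hT⟩
  refine triv_def (H := fun p => dfPs (p.1, a (co p.1, p.2), b (co p.1, p.2), r (co p.1, p.2)))
    ⟨?_, ?_, ?_, ?_⟩ ?_ ?_ k
  · rintro _ rfl
    exact hc
  · rintro _ rfl
    exact hc.mono (prod_mono hSS Subset.rfl)
  · rintro _ rfl -
    exact ⟨_, rfl, fun p hp => key p.1 hp.1 p.2 hp.2 S (hm _ hp.1.2 _ hp.2)⟩
  · rintro _ rfl -
    exact ⟨_, rfl, fun p hp => key p.1 (hSS hp.1) p.2 hp.2 S' (hm' _ hp.1.2 _ hp.2)⟩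
  · rintro _ rfl x hx
    obtain ⟨e1, e2, e3⟩ := h0 _ hx.2
    simp only [e1, e2, e3]
    exact dfPs_self hx.1
  · rintro _ rfl -
    exact ⟨_, rfl, fun x hx => key x hx 1 ⟨zero_le_one, le_rfl⟩ S' (h1 _ hx.2)⟩

end Pool.Agent.Lib.MP_bf05b2_gt
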