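import Pool.Agent.Lib.MP_bf05b2_gt.H57Def

/-! The acyclic pairs in the family of threefolds. -/

set_option linter.unusedSectionVars false

namespace Pool.Agent.Lib.MP_bf05b2_gt

open Set Finsupp Pool.Agent.Shared.Sing Pool.Agent.Shared.SingEZ Sum Fan

section push

variable {V : Type} [NormedAddCommGroup V] [NormedSpace ℝ V]

/-- The factor of the radial push from `z₀`. -/
noncomputable def d2fac (z₀ : V) (Λ : ℝ) (z : V) (s : ℝ) : ℝ := 1 + s * Λ / ‖z - z₀‖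

/-- The radial push from `z₀`. -/
noncomputable def d2push (z₀ : V) (Λ : ℝ) (z : V) (s : ℝ) : V := z₀ + d2fac z₀ Λ z s • (z - z₀)

omit [NormedSpace ℝ V] in
lemma d2fac_ge {z₀ z : V} {Λ s : ℝ} (hΛ : 0 ≤ Λ) (hs : 0 ≤ s) : 1 ≤ d2fac z₀ Λ z s :=
  le_add_of_nonneg_right (div_nonneg (mul_nonneg hs hΛ) (norm_nonneg _))

omit [NormedSpace ℝ V] in
lemma d2fac_zero (z₀ z : V) (Λ : ℝ) : d2fac z₀ Λ z 0 = 1 := by simp [d2fac]

lemma d2push_zero (z₀ z : V) (Λ : ℝ) : d2push z₀ Λ z 0 = z := by simp [d2push, d2fac_zero]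

lemma d2push_notMem {C : Set V} (hC : Convex ℝ C) {z₀ z : V} (h0 : z₀ ∈ C) (hz : z ∉ C)
    {Λ s : ℝ} (hΛ : 0 ≤ Λ) (hs : 0 ≤ s) : d2push z₀ Λ z s ∉ C := fun h => by
  have h1 : 1 ≤ d2fac z₀ Λ z s := d2fac_ge hΛ hs
  have h2 : 0 < d2fac z₀ Λ z s := one_pos.trans_le h1
  have h3 := hC h0 h (a := 1 - (d2fac z₀ Λ z s)⁻¹) (b := (d2fac z₀ Λ z s)⁻¹)
    (sub_nonneg.2 (inv_le_one_of_one_le₀ h1)) (inv_nonneg.2 h2.le) (by ring)
  refine hz (by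
    convert h3 using 1
    rw [d2push, smul_add, smul_smul, inv_mul_cancel₀ h2.ne', one_smul, sub_smul, one_smul]
    abel)

lemma d2push_far {z₀ z : V} (hz : z ≠ z₀) {Λ : ℝ} (hΛ : 0 ≤ Λ) :
    Λ ≤ ‖d2push z₀ Λ z 1 - z₀‖ := by
  have h1 : 0 < ‖z - z₀‖ := norm_pos_iff.2 (sub_ne_zero.2 hz)
  rw [d2push, add_sub_cancel_left, norm_smul,
    Real.norm_of_nonneg (zero_le_one.trans (d2fac_ge hΛ zero_le_one)), d2fac, add_mul, one_mul,
    one_mul, div_mul_cancel₀ _ h1.ne']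
  linarith

omit [NormedSpace ℝ V] in
lemma d2fac_cont {X : Type} [TopologicalSpace X] {S : Set X} {f : X → V} {g : X → ℝ}
    (hf : Continuous f) (hg : Continuous g) (z₀ : V) (Λ : ℝ) (h : ∀ x ∈ S, f x ≠ z₀) :
    ContinuousOn (fun x => d2fac z₀ Λ (f x) (g x)) S := by
  unfold d2fac
  refine continuousOn_const.add (ContinuousOn.div (by fun_prop) (by fun_prop) fun x hx => ?_)
  exact norm_ne_zero_iff.2 (sub_ne_zero.2 (h x hx))

lemma d2push_cont {X : Type} [TopologicalSpace X] {S : Set X} {f : X → V} {g : X → ℝ}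
    (hf : Continuous f) (hg : Continuous g) (z₀ : V) (Λ : ℝ) (h : ∀ x ∈ S, f x ≠ z₀) :
    ContinuousOn (fun x => d2push z₀ Λ (f x) (g x)) S :=
  continuousOn_const.add ((d2fac_cont hf hg z₀ Λ h).smul (hf.sub continuous_const).continuousOn)

end push

/-- The large polydisc in coordinates. -/
def d2B : Set (ℂ × ℂ × ℝ) :=
  Metric.closedBall 0 (Real.exp 60) ×ˢ Metric.closedBall 0 (Real.exp 60) ×ˢ Iic (Real.exp 60)

lemma d2B_convex : Convex ℝ d2B :=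
  (convex_closedBall _ _).prod ((convex_closedBall _ _).prod (convex_Iic _))

lemma d2_isClosed_BG : IsClosed BG := by
  refine isClosed_MS ?_
  have : (Metric.closedBall (0 : ℂ) (Real.exp 60) ×ˢ Metric.closedBall (0 : ℂ) (Real.exp 60) ×ˢ
      Iic (Real.exp 60)) ∩ {c : ℂ × ℂ × ℝ | 0 ≤ c.2.2} =
      Metric.closedBall (0 : ℂ) (Real.exp 60) ×ˢ Metric.closedBall (0 : ℂ) (Real.exp 60) ×ˢ
        Icc 0 (Real.exp 60) := by
    ext c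
    simp only [mem_inter_iff, mem_prod, mem_Iic, mem_Icc, mem_ofPred_eq]
    tauto
  rw [this]
  exact (isCompact_closedBall _ _).prod ((isCompact_closedBall _ _).prod isCompact_Icc)

lemma d2B_norm {c : ℂ × ℂ × ℝ} (hc : c ∈ d2B) (h0 : 0 ≤ c.2.2) : ‖c‖ ≤ Real.exp 60 := by
  obtain ⟨h1, h2, h3⟩ := hc
  rw [mem_closedBall_zero_iff] at h1 h2
  rw [Prod.norm_def, Prod.norm_def, Real.norm_of_nonneg h0]
  exact max_le h1 (max_le h2 h3)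

lemma d2Jc_convex : Convex ℝ Jc := by
  rintro x ⟨h1, h2, h3⟩ y ⟨h4, h5, h6⟩ a b ha hb hab
  refine ⟨?_, ?_, ?_⟩
  · simp [h1, h4]
  · simp only [Complex.add_re, Complex.smul_re, smul_eq_mul]
    calc Real.exp (-20) = a * Real.exp (-20) + b * Real.exp (-20) := by
          rw [← add_mul, hab, one_mul]
      _ ≤ _ := add_le_add (mul_le_mul_of_nonneg_left h2 ha) (mul_le_mul_of_nonneg_left h5 hb)
  · simp only [Complex.add_re, Complex.smul_re, smul_eq_mul]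
    calc a * x.re + b * y.re ≤ a * Real.exp 20 + b * Real.exp 20 :=
          add_le_add (mul_le_mul_of_nonneg_left h3 ha) (mul_le_mul_of_nonneg_left h6 hb)
      _ = _ := by rw [← add_mul, hab, one_mul]

lemma d2Jc_one : (1 : ℂ) ∈ Jc :=
  ⟨rfl, Real.exp_le_one_iff.2 (by norm_num), Real.one_le_exp (by norm_num)⟩

lemma d2Jc_sub : Jc ⊆ Metric.closedBall 0 (Real.exp 60) := by
  rintro x ⟨h1, h2, h3⟩
  rw [mem_closedBall_zero_iff]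
  have h4 : 0 ≤ x.re := (Real.exp_pos _).le.trans h2
  have h5 : x = (x.re : ℂ) := Complex.ext rfl h1
  rw [h5, Complex.norm_real, Real.norm_of_nonneg h4]
  exact h3.trans (Real.exp_le_exp.2 (by norm_num))

lemma d2_MS_compl (C : Set (ℂ × ℂ × ℝ)) : MS Cᶜ = MM ∩ (MS C)ᶜ := by
  ext x
  simp only [MS, mem_inter_iff, mem_preimage, mem_compl_iff]
  tauto

lemma d2_MS_inter_compl (S C : Set (ℂ × ℂ × ℝ)) : MS S ∩ (MS C)ᶜ = MS (S ∩ Cᶜ) := by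
  ext x
  simp only [MS, mem_inter_iff, mem_preimage, mem_compl_iff]
  tauto

variable (R : Type) [CommRing R]

theorem d2_triv3 {C : Set (ℂ × ℂ × ℝ)} (hC : Convex ℝ C) {c₀ : ℂ × ℂ × ℝ} (h0 : c₀ ∈ C)
    (hCB : C ⊆ d2B) (h3 : c₀.2.2 = 0) (hn : ‖c₀‖ ≤ 1) (k : ℕ) :
    Triv R {MS Cᶜ} {MS d2Bᶜ} k := by
  have hΛ : 0 ≤ Real.exp 60 + 2 := by positivity
  have he : ∀ c s, ((d2push c₀ (Real.exp 60 + 2) c s).1, (d2push c₀ (Real.exp 60 + 2) c s).2.1,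
      d2fac c₀ (Real.exp 60 + 2) c s * c.2.2) = d2push c₀ (Real.exp 60 + 2) c s := fun c s => by
    refine Prod.ext rfl (Prod.ext rfl ?_)
    simp [d2push, h3]
  have hne : ∀ x ∈ (Cᶜ ∩ {c : ℂ × ℂ × ℝ | 0 ≤ c.2.2}) ×ˢ Icc (0 : ℝ) 1, x.1 ≠ c₀ :=
    fun x hx h => hx.1.1 (h ▸ h0)
  have hp := d2push_cont continuous_fst continuous_snd c₀ (Real.exp 60 + 2) hne
  have hnn : ∀ c : ℂ × ℂ × ℝ, 0 ≤ c.2.2 → ∀ s, 0 ≤ s →
      0 ≤ (d2push c₀ (Real.exp 60 + 2) c s).2.2 := fun c hc s hs => by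
    rw [← he]
    exact mul_nonneg (zero_le_one.trans (d2fac_ge hΛ hs)) hc
  rw [← MS_nonneg Cᶜ, ← MS_nonneg d2Bᶜ]
  refine triv_co R (a := fun x => (d2push c₀ (Real.exp 60 + 2) x.1 x.2).1)
    (b := fun x => (d2push c₀ (Real.exp 60 + 2) x.1 x.2).2.1)
    (r := fun x => d2fac c₀ (Real.exp 60 + 2) x.1 x.2)
    (inter_subset_inter_left _ (compl_subset_compl.2 hCB)) hp.fst hp.snd.fst
    (d2fac_cont continuous_fst continuous_snd c₀ _ hne)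
    (fun c _ s hs => zero_le_one.trans (d2fac_ge hΛ hs.1))
    (fun c _ => by simp [d2push_zero, d2fac_zero]) (fun c hc s hs => ?_) (fun c hc s hs => ?_)
    (fun c hc => ?_) k
  · rw [he]
    exact ⟨d2push_notMem hC h0 hc.1 hΛ hs.1, hnn c hc.2 s hs.1⟩
  · rw [he]
    exact ⟨d2push_notMem d2B_convex (hCB h0) hc.1 hΛ hs.1, hnn c hc.2 s hs.1⟩
  · rw [he]
    refine ⟨fun h => ?_, hnn c hc.2 1 zero_le_one⟩
    have h1 := d2push_far (z₀ := c₀) (z := c) (fun h => hc.1 (h ▸ h0)) hΛ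
    have h2 := d2B_norm h (hnn c hc.2 1 zero_le_one)
    have h4 := norm_sub_le (d2push c₀ (Real.exp 60 + 2) c 1) c₀
    linarith

theorem d2_triv_compl {C : Set (ℂ × ℂ × ℝ)} (hC : Convex ℝ C) {c₀ : ℂ × ℂ × ℝ} (h0 : c₀ ∈ C)
    (hCB : C ⊆ d2B) (h3 : c₀.2.2 = 0) (hn : ‖c₀‖ ≤ 1) (hcl : IsClosed (MS C)) (k : ℕ) :
    Triv R {(MS C)ᶜ} {BGᶜ} k := by
  have hsub : MS C ⊆ BG := inter_subset_inter_right _ (preimage_mono hCB)
  have h1 : (MS C)ᶜ = MM ∩ (MS C)ᶜ ∪ BGᶜ := by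
    refine Subset.antisymm (fun x hx => ?_)
      (union_subset inter_subset_right (compl_subset_compl.2 hsub))
    by_cases hM : x ∈ MM
    · exact Or.inl ⟨hM, hx⟩
    · exact Or.inr fun h => hM h.1
  have h2 : MM ∩ (MS C)ᶜ ∩ BGᶜ = MS d2Bᶜ := by
    rw [d2_MS_compl, inter_assoc, inter_eq_right.2 (compl_subset_compl.2 hsub)]
    rfl
  rw [h1]
  refine exo_triv (isOpen_MM.inter hcl.isOpen_compl) d2_isClosed_BG.isOpen_compl ?_
  rw [h2, ← d2_MS_compl]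
  exact d2_triv3 R hC h0 hCB h3 hn k

theorem d2_triv2 {C : Set (ℂ × ℂ)} (hC : Convex ℝ C) {z₀ : ℂ × ℂ} (h0 : z₀ ∈ C)
    (hCB : C ⊆ Metric.closedBall 0 (Real.exp 60) ×ˢ Metric.closedBall 0 (Real.exp 60))
    (hn : ‖z₀‖ ≤ 1) {T T' : Set ℝ} (hT : T' ⊆ T) {ρ : ℝ → ℝ} (hρ : Continuous ρ) (hρ0 : ρ 0 = 1)
    (hρn : ∀ s ∈ Icc (0 : ℝ) 1, 0 ≤ ρ s) (hm : ∀ t ∈ T, ∀ s ∈ Icc (0 : ℝ) 1, ρ s * t ∈ T)
    (hm' : ∀ t ∈ T', ∀ s ∈ Icc (0 : ℝ) 1, ρ s * t ∈ T') (h1 : ∀ t ∈ T, ρ 1 * t ∈ T') (k : ℕ) :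
    Triv R {MS {c | (c.1, c.2.1) ∉ C ∧ c.2.2 ∈ T}}
      {MS {c | (c.1, c.2.1) ∉ Metric.closedBall (0 : ℂ) (Real.exp 60) ×ˢ
        Metric.closedBall (0 : ℂ) (Real.exp 60) ∧ c.2.2 ∈ T'}} k := by
  have hΛ : 0 ≤ Real.exp 60 + 2 := by positivity
  have hne : ∀ x ∈ {c : ℂ × ℂ × ℝ | (c.1, c.2.1) ∉ C ∧ c.2.2 ∈ T} ×ˢ Icc (0 : ℝ) 1,
      (x.1.1, x.1.2.1) ≠ z₀ := fun x hx h => hx.1.1 (h ▸ h0)
  have hp := d2push_cont (f := fun x : (ℂ × ℂ × ℝ) × ℝ => (x.1.1, x.1.2.1)) (by fun_prop)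
    continuous_snd z₀ (Real.exp 60 + 2) hne
  refine triv_co R (a := fun x => (d2push z₀ (Real.exp 60 + 2) (x.1.1, x.1.2.1) x.2).1)
    (b := fun x => (d2push z₀ (Real.exp 60 + 2) (x.1.1, x.1.2.1) x.2).2) (r := fun x => ρ x.2)
    (fun c hc => And.intro (fun h => hc.1 (hCB h)) (hT hc.2)) hp.fst hp.snd
    (hρ.comp continuous_snd).continuousOn (fun _ _ s hs => hρn s hs)
    (fun c _ => by simp [d2push_zero, hρ0]) (fun c hc s hs => ?_) (fun c hc s hs => ?_)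
    (fun c hc => ?_) k
  · exact ⟨d2push_notMem hC h0 hc.1 hΛ hs.1, hm _ hc.2 s hs⟩
  · exact ⟨d2push_notMem ((convex_closedBall _ _).prod (convex_closedBall _ _)) (hCB h0) hc.1 hΛ
      hs.1, hm' _ hc.2 s hs⟩
  · refine ⟨fun h => ?_, h1 _ hc.2⟩
    have h2 := d2push_far (z₀ := z₀) (z := (c.1, c.2.1)) (fun h => hc.1 (h ▸ h0)) hΛ
    have h3 : ‖d2push z₀ (Real.exp 60 + 2) (c.1, c.2.1) 1‖ ≤ Real.exp 60 :=
      max_le (mem_closedBall_zero_iff.1 h.1) (mem_closedBall_zero_iff.1 h.2)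
    have h4 := norm_sub_le (d2push z₀ (Real.exp 60 + 2) (c.1, c.2.1) 1) z₀
    linarith

lemma d2_exp_lt : Real.exp (-60) < Real.exp 60 := Real.exp_lt_exp.2 (by norm_num)

lemma d2_shrink {t : ℝ} (ht : t ∈ Iio (Real.exp (-60))) {s : ℝ} (hs : s ∈ Icc (0 : ℝ) 1) :
    (1 - s) * t ∈ Iio (Real.exp (-60)) := by
  have h1 := Real.exp_pos (-60)
  rw [mem_Iio] at ht ⊢
  rcases le_total t 0 with h | h
  · exact (mul_nonpos_of_nonneg_of_nonpos (sub_nonneg.2 hs.2) h).trans_lt h1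
  · nlinarith [mul_nonneg hs.1 h]

lemma d2_Y1_BG : Y1 ∩ BGᶜ = MS {c | (c.1, c.2.1) ∉ Metric.closedBall (0 : ℂ) (Real.exp 60) ×ˢ
    Metric.closedBall (0 : ℂ) (Real.exp 60) ∧ c.2.2 ∈ Iio (Real.exp (-60))} := by
  rw [Y1, BG, d2_MS_inter_compl]
  congr 1
  ext c
  simp only [mem_inter_iff, mem_prod, mem_univ, true_and, mem_compl_iff, mem_Iio, mem_Iic,
    mem_ofPred_eq]
  exact ⟨fun h => ⟨fun h' => h.2 ⟨h'.1, h'.2, (h.1.trans d2_exp_lt).le⟩, h.1⟩,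
    fun h => ⟨h.2, fun h' => h.1 ⟨h'.1, h'.2.1⟩⟩⟩

theorem triv_DD (k : ℕ) : Triv R {DDᶜ} {BGᶜ} k :=
  d2_triv_compl R (c₀ := (1, 1, 0)) (d2Jc_convex.prod (d2Jc_convex.prod (convex_Iic _)))
    ⟨d2Jc_one, d2Jc_one, (Real.exp_pos _).le⟩ (prod_mono d2Jc_sub (prod_mono d2Jc_sub Subset.rfl))
    rfl (by simp [Prod.norm_def]) isClosed_DD k

theorem triv_PP (k : ℕ) : Triv R {FF.nz (inl 0) ∪ FF.nz (inl 1) ∪ FF.nz (inl 2)} {BGᶜ} k := by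
  rw [← MS_zero]
  refine d2_triv_compl R (c₀ := 0) (convex_singleton _) rfl ?_ rfl (by simp) ?_ k
  · rintro c rfl
    exact ⟨Metric.mem_closedBall_self (Real.exp_pos _).le,
      Metric.mem_closedBall_self (Real.exp_pos _).le, (Real.exp_pos _).le⟩
  · exact isClosed_MS ((finite_singleton _).inter_of_left _).isCompact

theorem triv_YD (k : ℕ) : Triv R {Y1 ∩ DDᶜ} {Y1 ∩ BGᶜ} k := by
  have h : Y1 ∩ DDᶜ = MS {c | (c.1, c.2.1) ∉ Jc ×ˢ Jc ∧ c.2.2 ∈ Iio (Real.exp (-60))} := by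
    rw [Y1, DD, d2_MS_inter_compl]
    congr 1
    ext c
    simp only [mem_inter_iff, mem_prod, mem_univ, true_and, mem_compl_iff, mem_Iio, mem_Iic,
      mem_ofPred_eq]
    exact ⟨fun h => ⟨fun h' => h.2 ⟨h'.1, h'.2, (h.1.trans d2_exp_lt).le⟩, h.1⟩,
      fun h => ⟨h.2, fun h' => h.1 ⟨h'.1, h'.2.1⟩⟩⟩
  rw [h, d2_Y1_BG]
  exact d2_triv2 R (z₀ := (1, 1)) (d2Jc_convex.prod d2Jc_convex) ⟨d2Jc_one, d2Jc_one⟩
    (prod_mono d2Jc_sub d2Jc_sub) (by simp [Prod.norm_def]) Subset.rfl (ρ := fun _ => 1)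
    continuous_const rfl (fun _ _ => zero_le_one) (fun t ht _ _ => by rwa [one_mul])
    (fun t ht _ _ => by rwa [one_mul]) (fun t ht => by rwa [one_mul]) k

theorem triv_MY (k : ℕ) : Triv R {MM} {Y1} k := by
  have h : MM = MS univ := by rw [MS, preimage_univ, inter_univ]
  rw [h, Y1]
  refine triv_co R (a := fun x => x.1.1) (b := fun x => x.1.2.1) (r := fun x => 1 - x.2)
    (subset_univ _) (by fun_prop) (by fun_prop) (by fun_prop) (fun _ _ s hs => sub_nonneg.2 hs.2)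
    (fun c _ => ⟨rfl, rfl, sub_zero _⟩) (fun _ _ _ _ => mem_univ _) (fun c hc s hs => ?_)
    (fun c _ => ?_) k
  · exact ⟨mem_univ _, mem_univ _, d2_shrink hc.2.2 hs⟩
  · exact ⟨mem_univ _, mem_univ _, by simpa using Real.exp_pos (-60)⟩

theorem triv_ML (k : ℕ) : Triv R {MM ∩ (FF.nz (inl 1) ∪ FF.nz (inl 2))} {Y1 ∩ BGᶜ} k := by
  have h : {c : ℂ × ℂ × ℝ | (c.1, c.2.1) ≠ 0} =
      {c | (c.1, c.2.1) ∉ ({0} : Set (ℂ × ℂ)) ∧ c.2.2 ∈ (univ : Set ℝ)} := by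
    ext c
    simp only [mem_ofPred_eq, mem_singleton_iff, mem_univ, and_true]
  rw [← MS_ne, h, d2_Y1_BG]
  refine d2_triv2 R (z₀ := 0) (convex_singleton _) rfl ?_ (by simp) (subset_univ _)
    (ρ := fun s => 1 - s) (by fun_prop) (sub_zero _) (fun s hs => sub_nonneg.2 hs.2)
    (fun _ _ _ _ => mem_univ _) (fun t ht s hs => d2_shrink ht hs)
    (fun t _ => by simpa using Real.exp_pos (-60)) k
  rintro c rfl
  exact ⟨Metric.mem_closedBall_self (Real.exp_pos _).le,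
    Metric.mem_closedBall_self (Real.exp_pos _).le⟩

end Pool.Agent.Lib.MP_bf05b2_gt
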