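import Pool.Agent.Shared.Sing.Circ

/-! Relative cochains for families of subsets: definitions and formal properties. -/

set_option linter.unusedSectionVars false

namespace Pool.Agent.Lib.MP_bf05b2_gt

open Set Finsupp Pool.Agent.Shared.Sing Pool.Agent.Shared.SingEZ

/-- Cochains. -/
abbrev Cc (R : Type) [CommRing R] (Y : Type*) [TopologicalSpace Y] [Nonempty Y] := C R Y →ₗ[R] R

variable {Y Y' Y'' : Type*} [TopologicalSpace Y] [Nonempty Y] [TopologicalSpace Y'] [Nonempty Y']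
  [TopologicalSpace Y''] [Nonempty Y''] {R : Type} [CommRing R]

variable (R) in
/-- Chains of simplices with `n` vertices lying in some member of the family `S`. -/
noncomputable def Ch' (S : Set (Set Y)) (n : ℕ) : Submodule R (C R Y) :=
  supported R R {s | s.n = n ∧ (n = 0 ∨ ∃ U ∈ S, MapsTo s.f (Δ s.n) U)}

/-- The cochains agree in degree `k` on the family `S`. -/
def Eqv (S : Set (Set Y)) (k : ℕ) (φ ψ : Cc R Y) : Prop := ∀ c ∈ Ch' R S (k + 1), φ c = ψ c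

/-- Relative cocycles of degree `k`. -/
def Cy (T S : Set (Set Y)) (k : ℕ) (φ : Cc R Y) : Prop :=
  Eqv T (k + 1) (φ ∘ₗ D) 0 ∧ Eqv S k φ 0

/-- Relative coboundaries of degree `k`. -/
def Bo (T S : Set (Set Y)) (k : ℕ) (φ : Cc R Y) : Prop :=
  ∃ ψ : Cc R Y, (∀ c ∈ Ch' R S k, ψ c = 0) ∧ Eqv T k φ (ψ ∘ₗ D)

variable (R) in
/-- Relative cohomology vanishes in degree `k`. -/
def Triv (T S : Set (Set Y)) (k : ℕ) : Prop := ∀ φ : Cc R Y, Cy T S k φ → Bo T S k φ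

/-- The map `f` sends each member of `S` into a member of `S'`. -/
def Mp (f : Y → Y') (S : Set (Set Y)) (S' : Set (Set Y')) : Prop :=
  ∀ U ∈ S, U.Nonempty → ∃ V ∈ S', MapsTo f U V

/-- Refinement of families. -/
def Ref (S S' : Set (Set Y)) : Prop := ∀ U ∈ S, U.Nonempty → ∃ V ∈ S', U ⊆ V

/-- Intersection of families. -/
def Mt (S S' : Set (Set Y)) : Set (Set Y) := image2 (· ∩ ·) S S'

/-- A map of pairs of families. -/
structure PM (f : Y → Y') (T S : Set (Set Y)) (T' S' : Set (Set Y')) : Prop where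
  cT : ∀ U ∈ T, ContinuousOn f U
  cS : ∀ U ∈ S, ContinuousOn f U
  mT : Mp f T T'
  mS : Mp f S S'

/-- A homotopy of maps of pairs of families. -/
structure PH (H : Y × ℝ → Y') (T S : Set (Set Y)) (T' S' : Set (Set Y')) : Prop where
  cT : ∀ U ∈ T, ContinuousOn H (U ×ˢ Icc 0 1)
  cS : ∀ U ∈ S, ContinuousOn H (U ×ˢ Icc 0 1)
  mT : ∀ U ∈ T, U.Nonempty → ∃ V ∈ T', MapsTo H (U ×ˢ Icc 0 1) V
  mS : ∀ U ∈ S, U.Nonempty → ∃ V ∈ S', MapsTo H (U ×ˢ Icc 0 1) V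

/-- Pullback of cochains. -/
noncomputable def pb (f : Y → Y') (φ : Cc R Y') : Cc R Y := φ ∘ₗ map f

/-- The classes of the cocycles `β j` of degree `d j` form a basis of relative cohomology. -/
structure GB {J : Type} [Fintype J] (T S : Set (Set Y)) (β : J → Cc R Y) (d : J → ℕ) : Prop where
  cy : ∀ j, Cy T S (d j) (β j)
  span : ∀ k φ, Cy T S k φ → ∃ r : J → R, (∀ j, d j ≠ k → r j = 0) ∧ Bo T S k (φ - ∑ j, r j • β j)
  ind : ∀ k (r : J → R), (∀ j, d j ≠ k → r j = 0) → Bo T S k (∑ j, r j • β j) → ∀ j, r j = 0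

variable {T S T' S' T₁ S₁ : Set (Set Y)} {A B : Set Y} {k n : ℕ} {φ ψ φ' ψ' : Cc R Y} {c : C R Y}

lemma Ch'_single : Ch' R {A} n = In R A n := by
  refine congrArg (supported R R) (Set.ext fun s => and_congr_right fun hs => ?_)
  refine ⟨?_, fun h => .inr ⟨A, rfl, h⟩⟩
  rintro (h | ⟨U, rfl, h⟩)
  · rw [hs, h, Δ_zero]
    exact mapsTo_empty _ _
  · exact h

lemma Ch'_zero : Ch' R S 0 = In R A 0 := by
  refine congrArg (supported R R) (Set.ext fun s => and_congr_right fun hs => ?_)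
  refine ⟨fun _ => ?_, fun _ => .inl rfl⟩
  rw [hs, Δ_zero]
  exact mapsTo_empty _ _

lemma Ch'_empty (hc : c ∈ Ch' R ∅ (n + 1)) : c = 0 :=
  map_eq (F := LinearMap.id) (G := 0) (fun _ hs => by simpa using hs.2) hc

lemma In_le_Ch' (h : A ∈ S) : In R A n ≤ Ch' R S n :=
  supported_mono fun _ hs => ⟨hs.1, .inr ⟨A, h, hs.2⟩⟩

lemma Fam.ne {s : Sx Y} (hn : s.n ≠ 0) (h : MapsTo s.f (Δ s.n) A) : A.Nonempty :=
  ⟨_, h (single_mem_Δ (Nat.pos_of_ne_zero hn))⟩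

lemma Ch'_mono (h : Ref S S') : Ch' R S n ≤ Ch' R S' n := by
  refine supported_mono fun s hs => ⟨hs.1, or_iff_not_imp_left.2 fun hn => ?_⟩
  obtain ⟨U, hU, m⟩ := hs.2.resolve_left hn
  obtain ⟨V, hV, e⟩ := h U hU (Fam.ne (hs.1 ▸ hn) m)
  exact ⟨V, hV, m.mono_right e⟩

lemma Ch'_union : Ch' R (S ∪ S') n = Ch' R S n ⊔ Ch' R S' n := by
  rw [Ch', Ch', Ch', ← supported_union]
  refine congrArg (supported R R) (Set.ext fun s => ?_)
  simp only [mem_ofPred_eq, mem_union, or_and_right, exists_or]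
  rw [← and_or_left, ← or_or_distrib_left]

lemma Ch'_Mt : Ch' R (Mt S S') n = Ch' R S n ⊓ Ch' R S' n := by
  rw [Ch', Ch', Ch', ← supported_inter]
  refine congrArg (supported R R) (Set.ext fun s => ⟨fun hs => ?_, fun hs => ⟨hs.1.1, ?_⟩⟩)
  · rcases hs.2 with h | ⟨_, ⟨U, hU, V, hV, rfl⟩, m⟩
    · exact ⟨⟨hs.1, .inl h⟩, hs.1, .inl h⟩
    · exact ⟨⟨hs.1, .inr ⟨U, hU, m.mono_right inter_subset_left⟩⟩,
        hs.1, .inr ⟨V, hV, m.mono_right inter_subset_right⟩⟩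
  · rcases hs.1.2 with h | ⟨U, hU, m⟩
    · exact .inl h
    · exact hs.2.2.imp_right fun ⟨V, hV, m'⟩ => ⟨_, mem_image2_of_mem hU hV, m.inter m'⟩

lemma D_Ch' (hc : c ∈ Ch' R S (n + 1)) : D c ∈ Ch' R S n := by
  refine map_mem (fun s hs => ?_) hc
  obtain ⟨U, hU, m⟩ := hs.2.resolve_left n.succ_ne_zero
  exact In_le_Ch' hU (D_In (single_mem ⟨hs.1, m⟩))

/-- Statements on chains of a family reduce to its members. -/
lemma Ch'_mem {M : Type*} [AddCommGroup M] [Module R M] {F : C R Y →ₗ[R] M} {P : Submodule R M}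
    (h : ∀ U ∈ S, U.Nonempty → ∀ c ∈ In R U (n + 1), F c ∈ P) (hc : c ∈ Ch' R S (n + 1)) :
    F c ∈ P := by
  refine map_mem (fun s hs => ?_) hc
  obtain ⟨U, hU, m⟩ := hs.2.resolve_left n.succ_ne_zero
  exact h U hU (Fam.ne (hs.1 ▸ n.succ_ne_zero) m) _ (single_mem ⟨hs.1, m⟩)

lemma eqv_of_In (h : ∀ U ∈ S, U.Nonempty → ∀ c ∈ In R U (k + 1), φ c = ψ c) : Eqv S k φ ψ :=
  fun _ hc => Ch'_mem (F := LinearMap.id) (P := LinearMap.eqLocus φ ψ) h hc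

lemma map_Ch' {f : Y → Y'} {S' : Set (Set Y')} (hf : ∀ U ∈ S, ContinuousOn f U) (h : Mp f S S')
    (hc : c ∈ Ch' R S n) : map f c ∈ Ch' R S' n := by
  cases n with
  | zero =>
    rw [Ch'_zero (A := ∅)] at hc ⊢
    exact map_In (continuousOn_empty f) (mapsTo_empty _ _) hc
  | succ n =>
    refine Ch'_mem (fun U hU hne c hc => ?_) hc
    obtain ⟨V, hV, m⟩ := h U hU hne
    exact In_le_Ch' hV (map_In (hf U hU) m hc)

lemma Ref.refl : Ref S S := fun U hU _ => ⟨U, hU, Subset.rfl⟩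

lemma Ref.trans (h : Ref S S') (h' : Ref S' S₁) : Ref S S₁ := fun U hU hne =>
  let ⟨V, hV, e⟩ := h U hU hne
  let ⟨W, hW, e'⟩ := h' V hV (hne.mono e)
  ⟨W, hW, e.trans e'⟩

lemma Ref.of_subset (h : S ⊆ S') : Ref S S' := fun U hU _ => ⟨U, h hU, Subset.rfl⟩

lemma Ref.empty : Ref ∅ S := fun _ hU => hU.elim

lemma Ref.univ : Ref S {univ} := fun _ _ _ => ⟨_, rfl, subset_univ _⟩

lemma Ref.single (h : A ⊆ B) : Ref {A} {B} := fun _ hU _ => ⟨B, rfl, hU ▸ h⟩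

lemma Ref.union (h : Ref S T) (h' : Ref S' T) : Ref (S ∪ S') T := fun U hU =>
  hU.elim (h U) (h' U)

lemma Ref.sUnion (h : ⋃₀ S ⊆ A) : Ref S {A} := fun _ hU _ =>
  ⟨A, rfl, (subset_sUnion_of_mem hU).trans h⟩

lemma Eqv.refl : Eqv S k φ φ := fun _ _ => rfl

lemma Eqv.symm (h : Eqv S k φ ψ) : Eqv S k ψ φ := fun c hc => (h c hc).symm

lemma Eqv.trans (h : Eqv S k φ ψ) (h' : Eqv S k ψ φ') : Eqv S k φ φ' := fun c hc =>
  (h c hc).trans (h' c hc)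

lemma Eqv.add (h : Eqv S k φ ψ) (h' : Eqv S k φ' ψ') : Eqv S k (φ + φ') (ψ + ψ') :=
  fun c hc => congrArg₂ (· + ·) (h c hc) (h' c hc)

lemma Eqv.sub (h : Eqv S k φ ψ) (h' : Eqv S k φ' ψ') : Eqv S k (φ - φ') (ψ - ψ') :=
  fun c hc => congrArg₂ (· - ·) (h c hc) (h' c hc)

lemma Eqv.smul (r : R) (h : Eqv S k φ ψ) : Eqv S k (r • φ) (r • ψ) := fun c hc =>
  congrArg (r • ·) (h c hc)

lemma Eqv.mono (h : Eqv S k φ ψ) (hS : Ref S' S) : Eqv S' k φ ψ := fun c hc =>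
  h c (Ch'_mono hS hc)

lemma Eqv.union (h : Eqv S k φ ψ) (h' : Eqv S' k φ ψ) : Eqv (S ∪ S') k φ ψ :=
  eqv_of_In fun _ hU _ c hc =>
    hU.elim (fun hU => h c (In_le_Ch' hU hc)) fun hU => h' c (In_le_Ch' hU hc)

lemma Eqv.empty : Eqv ∅ k φ ψ := eqv_of_In fun _ hU => hU.elim

lemma Eqv.comp_D (h : Eqv S k φ ψ) : Eqv S (k + 1) (φ ∘ₗ D) (ψ ∘ₗ D) := fun _ hc =>
  h _ (D_Ch' hc)

lemma comp_D_D (φ : Cc R Y) : (φ ∘ₗ D) ∘ₗ D = 0 := LinearMap.ext fun c => by simp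

lemma Cy.zero : Cy T S k (0 : Cc R Y) := ⟨fun _ _ => rfl, .refl⟩

lemma Cy.add (h : Cy T S k φ) (h' : Cy T S k ψ) : Cy T S k (φ + ψ) :=
  ⟨by simpa [LinearMap.add_comp] using h.1.add h'.1, by simpa using h.2.add h'.2⟩

lemma Cy.sub (h : Cy T S k φ) (h' : Cy T S k ψ) : Cy T S k (φ - ψ) :=
  ⟨by simpa [LinearMap.sub_comp] using h.1.sub h'.1, by simpa using h.2.sub h'.2⟩

lemma Cy.smul (r : R) (h : Cy T S k φ) : Cy T S k (r • φ) :=
  ⟨by simpa [LinearMap.smul_comp] using h.1.smul r, by simpa using h.2.smul r⟩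

lemma Cy.sum {J : Type*} (s : Finset J) {β : J → Cc R Y} (h : ∀ j ∈ s, Cy T S k (β j)) :
    Cy T S k (∑ j ∈ s, β j) :=
  Finset.sum_induction _ _ (fun _ _ => Cy.add) Cy.zero h

lemma Cy.mono (h : Cy T S k φ) (hT : Ref T' T) (hS : Ref S' S) : Cy T' S' k φ :=
  ⟨h.1.mono hT, h.2.mono hS⟩

lemma Cy.congr (h : Cy T S k φ) (hS : Ref S T) (h' : Eqv T k φ ψ) : Cy T S k ψ :=
  ⟨h'.comp_D.symm.trans h.1, (h'.mono hS).symm.trans h.2⟩

lemma cy_comp_D (h : Eqv S (k + 1) (ψ ∘ₗ D) 0) : Cy T S (k + 1) (ψ ∘ₗ D) :=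
  ⟨comp_D_D ψ ▸ .refl, h⟩

lemma Bo.zero : Bo T S k (0 : Cc R Y) := ⟨0, fun _ _ => rfl, fun _ _ => rfl⟩

lemma Bo.add (h : Bo T S k φ) (h' : Bo T S k ψ) : Bo T S k (φ + ψ) :=
  let ⟨a, a0, a1⟩ := h
  let ⟨b, b0, b1⟩ := h'
  ⟨a + b, fun c hc => by simp [a0 c hc, b0 c hc], a1.add b1⟩

lemma Bo.sub (h : Bo T S k φ) (h' : Bo T S k ψ) : Bo T S k (φ - ψ) :=
  let ⟨a, a0, a1⟩ := h
  let ⟨b, b0, b1⟩ := h'
  ⟨a - b, fun c hc => by simp [a0 c hc, b0 c hc], a1.sub b1⟩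

lemma Bo.neg (h : Bo T S k φ) : Bo T S k (-φ) := by
  simpa using Bo.zero.sub h

lemma Bo.smul (r : R) (h : Bo T S k φ) : Bo T S k (r • φ) :=
  let ⟨a, a0, a1⟩ := h
  ⟨r • a, fun c hc => by simp [a0 c hc], a1.smul r⟩

lemma Bo.sum {J : Type*} (s : Finset J) {β : J → Cc R Y} (h : ∀ j ∈ s, Bo T S k (β j)) :
    Bo T S k (∑ j ∈ s, β j) :=
  Finset.sum_induction _ _ (fun _ _ => Bo.add) Bo.zero h

lemma Bo.mono (h : Bo T S k φ) (hT : Ref T' T) (hS : Ref S' S) : Bo T' S' k φ :=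
  let ⟨a, a0, a1⟩ := h
  ⟨a, fun c hc => a0 c (Ch'_mono hS hc), a1.mono hT⟩

lemma Bo.congr (h : Bo T S k φ) (h' : Eqv T k φ ψ) : Bo T S k ψ :=
  let ⟨a, a0, a1⟩ := h
  ⟨a, a0, h'.symm.trans a1⟩

lemma Eqv.bo (h : Eqv T k φ ψ) : Bo T S k (φ - ψ) :=
  Bo.zero.congr fun c hc => by simp [h c hc]

lemma Bo.symm (h : Bo T S k (φ - ψ)) : Bo T S k (ψ - φ) := by
  simpa using h.neg

lemma Bo.trans (h : Bo T S k (φ - ψ)) (h' : Bo T S k (ψ - φ')) : Bo T S k (φ - φ') := by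
  simpa using h.add h'

lemma Bo.of_sub (h : Bo T S k (φ - ψ)) (h' : Bo T S k ψ) : Bo T S k φ := by
  simpa using h.add h'

lemma Bo.cy (h : Bo T S k φ) (hS : Ref S T) : Cy T S k φ :=
  let ⟨a, a0, a1⟩ := h
  ⟨comp_D_D a ▸ a1.comp_D, fun c hc => (a1.mono hS c hc).trans (a0 _ (D_Ch' hc))⟩

lemma bo_comp_D (h : Eqv S k ψ 0) : Bo T S (k + 1) (ψ ∘ₗ D) := ⟨ψ, h, .refl⟩

lemma bo_succ : Bo T S (k + 1) φ ↔ ∃ ψ, Eqv S k ψ 0 ∧ Eqv T (k + 1) φ (ψ ∘ₗ D) := Iff.rfl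

lemma bo_zero : Bo T S 0 φ ↔ Eqv T 0 φ 0 := by
  refine ⟨fun ⟨a, a0, a1⟩ c hc => (a1 c hc).trans (a0 _ ?_), fun h => ⟨0, fun _ _ => rfl, h⟩⟩
  have := D_Ch' hc
  rwa [Ch'_zero (A := ∅)] at this ⊢

section pb

variable {f g : Y → Y'} {P Q : Set (Set Y')} {a b : Cc R Y'}

lemma pb_add (f : Y → Y') (a b : Cc R Y') : pb f (a + b) = pb f a + pb f b := rfl

lemma pb_sub (f : Y → Y') (a b : Cc R Y') : pb f (a - b) = pb f a - pb f b := rfl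

lemma pb_smul (f : Y → Y') (r : R) (a : Cc R Y') : pb f (r • a) = r • pb f a := rfl

lemma pb_zero (f : Y → Y') : pb f (0 : Cc R Y') = 0 := rfl

lemma pb_sum {J : Type*} (s : Finset J) (f : Y → Y') (β : J → Cc R Y') :
    pb f (∑ j ∈ s, β j) = ∑ j ∈ s, pb f (β j) :=
  LinearMap.ext fun c => by simp [pb, LinearMap.sum_apply]

lemma pb_pb (hf : Continuous f) (g : Y' → Y'') (a : Cc R Y'') : pb f (pb g a) = pb (g ∘ f) a :=
  LinearMap.ext fun c => congrArg a (map_map' hf g c)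

lemma pb_pb' (hf : ∀ U ∈ T, ContinuousOn f U) (g : Y' → Y'') (a : Cc R Y'') :
    Eqv T k (pb f (pb g a)) (pb (g ∘ f) a) :=
  eqv_of_In fun U hU _ _ hc => congrArg a (map_map (hf U hU) hc)

lemma pb_congr (h : ∀ U ∈ T, EqOn f g U) (a : Cc R Y') : Eqv T k (pb f a) (pb g a) :=
  eqv_of_In fun U hU _ _ hc => congrArg a (map_congr (h U hU) hc)

lemma pb_id (φ : Cc R Y) : pb id φ = φ := LinearMap.ext fun c => congrArg φ (map_id' c)

lemma pb_self {f : Y → Y} (h : ∀ U ∈ T, EqOn f id U) (φ : Cc R Y) : Eqv T k (pb f φ) φ :=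
  eqv_of_In fun U hU _ _ hc => congrArg φ (map_self (h U hU) hc)

lemma pb_D (hf : Continuous f) (a : Cc R Y') : pb f (a ∘ₗ D) = pb f a ∘ₗ D :=
  LinearMap.ext fun c => congrArg a (map_D' hf c).symm

lemma pb_D' (hf : ∀ U ∈ T, ContinuousOn f U) (a : Cc R Y') :
    Eqv T k (pb f (a ∘ₗ D)) (pb f a ∘ₗ D) :=
  eqv_of_In fun U hU _ _ hc => congrArg a (map_D (hf U hU) hc).symm

lemma Eqv.pull (h : Eqv P k a b) (hf : ∀ U ∈ T, ContinuousOn f U) (hm : Mp f T P) :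
    Eqv T k (pb f a) (pb f b) := fun _ hc => h _ (map_Ch' hf hm hc)

lemma Cy.pull (h : Cy P Q k a) (hf : PM f T S P Q) : Cy T S k (pb f a) :=
  ⟨(pb_D' hf.cT a).symm.trans (h.1.pull hf.cT hf.mT), h.2.pull hf.cS hf.mS⟩

lemma Bo.pull (h : Bo P Q k a) (hf : PM f T S P Q) : Bo T S k (pb f a) :=
  let ⟨b, b0, b1⟩ := h
  ⟨pb f b, fun _ hc => b0 _ (map_Ch' hf.cS hf.mS hc), (b1.pull hf.cT hf.mT).trans (pb_D' hf.cT b)⟩

lemma PM.of_cont (hf : Continuous f) (hT : Mp f T P) (hS : Mp f S Q) : PM f T S P Q :=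
  ⟨fun _ _ => hf.continuousOn, fun _ _ => hf.continuousOn, hT, hS⟩

lemma Mp.univ : Mp f T {univ} := fun _ _ _ => ⟨_, rfl, mapsTo_univ _ _⟩

lemma Mp.empty : Mp f ∅ P := fun _ hU => hU.elim

lemma Mp.single {B : Set Y'} (h : MapsTo f A B) : Mp f {A} {B} := fun _ hU _ => ⟨B, rfl, hU ▸ h⟩

lemma PM.abs (hf : Continuous f) : PM f T ∅ {univ} ∅ := PM.of_cont hf Mp.univ Mp.empty

/-- Homotopy invariance. -/
theorem Cy.htp {H : Y × ℝ → Y'} (h : Cy P Q k a) (hH : PH H T S P Q) :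
    Bo T S k (pb (fun y => H (y, 1)) a - pb (fun y => H (y, 0)) a) := by
  refine ⟨a ∘ₗ Pool.Agent.Shared.Sing.P H, fun c hc => ?_, eqv_of_In fun U hU hne c hc => ?_⟩
  · cases k with
    | zero =>
      refine map_eq (G := 0) (fun s hs => ?_) hc
      rw [LinearMap.comp_apply, P_single, show prL R (std s.n) = 0 from hs.1 ▸ rfl, map_zero,
        map_zero, LinearMap.zero_apply]
    | succ k =>
      refine Ch'_mem (P := ⊥) (fun U hU hne c hc => ?_) hc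
      obtain ⟨V, hV, m⟩ := hH.mS U hU hne
      exact h.2 _ (In_le_Ch' hV (P_In (hH.cS U hU) m hc))
  · obtain ⟨V, hV, m⟩ := hH.mT U hU hne
    have e := congrArg a (D_P (hH.cT U hU) hc)
    have e' : a (D _) = 0 := h.1 _ (In_le_Ch' hV (P_In (hH.cT U hU) m hc))
    rw [map_add, e', zero_add, map_sub] at e
    exact e.symm

end pb

section bc

variable {R' : Type} [CommRing R'] (ρ : R →+* R')

lemma Eqv.coef (h : Eqv S k φ ψ) : Eqv S k (bc ρ φ) (bc ρ ψ) := fun _ hc =>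
  map_eq (fun s hs => by simp only [bc, linearCombination_single, h _ (single_mem hs)]) hc

lemma bc_D (φ : Cc R Y) : bc ρ (φ ∘ₗ D) = bc ρ φ ∘ₗ D :=
  LinearMap.ext fun c => map_eq (fun s _ => by
    rw [LinearMap.comp_apply, ← map_one ρ, ← cf_single, ← cf_D, bc_cf, bc_cf,
      LinearMap.comp_apply]) (mem_top c)

lemma bc_add (φ ψ : Cc R Y) : bc ρ (φ + ψ) = bc ρ φ + bc ρ ψ :=
  LinearMap.ext fun c => map_eq (fun s _ => by simp [bc]) (mem_top c)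

lemma bc_sub (φ ψ : Cc R Y) : bc ρ (φ - ψ) = bc ρ φ - bc ρ ψ :=
  LinearMap.ext fun c => map_eq (fun s _ => by simp [bc]) (mem_top c)

lemma bc_smul (r : R) (φ : Cc R Y) : bc ρ (r • φ) = ρ r • bc ρ φ :=
  LinearMap.ext fun c => map_eq (fun s _ => by simp [bc]) (mem_top c)

lemma bc_sum {J : Type*} (s : Finset J) (β : J → Cc R Y) :
    bc ρ (∑ j ∈ s, β j) = ∑ j ∈ s, bc ρ (β j) :=
  LinearMap.ext fun c => map_eq (fun s _ => by simp [bc, LinearMap.sum_apply]) (mem_top c)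

lemma bc_pb (f : Y' → Y) (φ : Cc R Y) : bc ρ (pb f φ) = pb f (bc ρ φ) := bc_map ρ f φ

lemma bc_id (φ : Cc R Y) : bc (RingHom.id R) φ = φ :=
  LinearMap.ext fun c => map_eq (fun s _ => by simp [bc]) (mem_top c)

lemma Fam.bc_zero : bc ρ (0 : Cc R Y) = 0 :=
  LinearMap.ext fun c => map_eq (fun s _ => by simp [bc]) (mem_top c)

lemma Cy.coef (h : Cy T S k φ) : Cy T S k (bc ρ φ) :=
  ⟨by simpa only [bc_D, Fam.bc_zero] using h.1.coef ρ, by simpa only [Fam.bc_zero] using h.2.coef ρ⟩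

lemma Bo.coef (h : Bo T S k φ) : Bo T S k (bc ρ φ) :=
  let ⟨a, a0, a1⟩ := h
  ⟨bc ρ a, fun _ hc => map_eq (G := 0) (fun s hs => by simp [bc, a0 _ (single_mem hs)]) hc,
    bc_D ρ a ▸ a1.coef ρ⟩

end bc

/-- Exactness in the sequence of a triple `S ≤ S' ≤ T`. -/
lemma ex_lift (h : Cy T S k φ) (hb : Bo S' S k φ) : ∃ φ', Cy T S' k φ' ∧ Bo T S k (φ - φ') :=
  let ⟨a, a0, a1⟩ := hb
  ⟨φ - a ∘ₗ D, ⟨by rw [LinearMap.sub_comp, comp_D_D, sub_zero]; exact h.1,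
    fun c hc => sub_eq_zero.2 (a1 c hc)⟩, a, a0, by rw [sub_sub_cancel]; exact .refl⟩

lemma ex_del (h : Cy T S' (k + 1) φ) (hS : Ref S' T) (hb : Bo T S (k + 1) φ) :
    ∃ ψ, Cy S' S k ψ ∧ Eqv T (k + 1) φ (ψ ∘ₗ D) :=
  let ⟨a, a0, a1⟩ := hb
  ⟨a, ⟨(a1.mono hS).symm.trans h.2, a0⟩, a1⟩

lemma ex_ext (hS : Ref S S') (h : Cy S' S k ψ) (hb : Bo T S' (k + 1) (ψ ∘ₗ D)) :
    ∃ ψ', Cy T S k ψ' ∧ Eqv S' k ψ' ψ :=
  let ⟨a, a0, a1⟩ := hb
  ⟨ψ - a, ⟨fun c hc => sub_eq_zero.2 (a1 c hc), fun c hc => by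
    simp [h.2 c hc, a0 c (Ch'_mono hS hc)]⟩, fun c hc => by simp [a0 c hc]⟩

/-- Truncation: kill the simplices of `S'`, keep the others. -/
lemma exists_trunc (S' : Set (Set Y)) (φ : Cc R Y) : ∃ φ' : Cc R Y,
    (∀ n, ∀ c ∈ Ch' R S' n, φ' c = 0) ∧ ∀ T n, (∀ c ∈ Ch' R (Mt T S') n, φ c = 0) →
      ∀ c ∈ Ch' R T n, φ' c = φ c := by
  classical
  refine ⟨lc fun s => if s.n = 0 ∨ ∃ U ∈ S', MapsTo s.f (Δ s.n) U then 0 else φ (single s 1),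
    fun n c hc => map_eq (G := 0) (fun s hs => ?_) hc,
    fun T n h c hc => map_eq (fun s hs => ?_) hc⟩
  · rw [linearCombination_single, if_pos (hs.2.imp_left hs.1.trans), smul_zero,
      LinearMap.zero_apply]
  · rw [linearCombination_single, one_smul]
    split_ifs with e
    · refine (h _ ?_).symm
      rw [Ch'_Mt]
      exact ⟨single_mem hs, single_mem ⟨hs.1, e.imp_left hs.1.symm.trans⟩⟩
    · rfl

/-- Simplicial excision. -/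
lemma exc_cy (h : Cy T (Mt T S) k φ) : ∃ φ', Cy (T ∪ S) S k φ' ∧ Eqv T k φ' φ :=
  let ⟨a, a0, a1⟩ := exists_trunc S φ
  have e : Eqv T k a φ := a1 T _ h.2
  ⟨a, ⟨(e.comp_D.trans h.1).union fun _ hc => a0 _ _ (D_Ch' hc), a0 _⟩, e⟩

lemma exc_bo (h : Eqv S k φ 0) (hb : Bo T (Mt T S) k φ) : Bo (T ∪ S) S k φ :=
  let ⟨b, b0, b1⟩ := hb
  let ⟨a, a0, a1⟩ := exists_trunc S b
  ⟨a, a0 _, Eqv.union (fun c hc => (b1 c hc).trans (a1 T _ b0 _ (D_Ch' hc)).symm)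
    fun c hc => (h c hc).trans (a0 _ _ (D_Ch' hc)).symm⟩

end Pool.Agent.Lib.MP_bf05b2_gt
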