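import Pool.Agent.Lib.MP_bf05b2_gt.H57Fam

/-! Vanishing of relative cohomology, small simplices, transfer of bases. -/

set_option linter.unusedSectionVars false
set_option linter.unusedVariables false

namespace Pool.Agent.Lib.MP_bf05b2_gt

open Set Finsupp Pool.Agent.Shared.Sing Pool.Agent.Shared.SingEZ

variable {Y Y' : Type*} [TopologicalSpace Y] [Nonempty Y] [TopologicalSpace Y'] [Nonempty Y']
  {R : Type} [CommRing R] {T S T' S' : Set (Set Y)} {A B A' B' : Set Y} {k : ℕ} {φ : Cc R Y}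

lemma Triv.refl (h : Ref T S) : Triv R T S k := fun _ hφ =>
  ⟨0, fun _ _ => rfl, fun c hc => hφ.2 c (Ch'_mono h hc)⟩

/-- An acyclic pair of families has no cohomology. -/
theorem triv_of_acyclic (hS : Ref S T) (h : ∀ n, ∀ c ∈ Ch' R T (n + 1), D c ∈ Ch' R S n →
    ∃ w ∈ Ch' R T (n + 2), c - D w ∈ Ch' R S (n + 1)) (k : ℕ) : Triv R T S k := by
  have key : ∀ n, ∃ g : C R Y →ₗ[R] C R Y, (∀ c ∈ Ch' R S n, g c = 0) ∧
      (∀ c ∈ Ch' R T n, g c ∈ Ch' R T (n + 1)) ∧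
      ∀ c ∈ Ch' R T (n + 1), D (c - g (D c)) ∈ Ch' R S n := by
    intro n
    induction n with
    | zero =>
      refine ⟨0, fun _ _ => rfl, fun _ _ => zero_mem _, fun c hc => ?_⟩
      have := D_Ch' hc
      rw [Ch'_zero (A := ∅)] at this ⊢
      simpa using this
    | succ n ih =>
      obtain ⟨g, g0, g1, g2⟩ := ih
      have hw : ∀ s : Sx Y, ∃ w : C R Y, (single s (1 : R) ∈ Ch' R S (n + 1) → w = 0) ∧
          (single s (1 : R) ∈ Ch' R T (n + 1) → w ∈ Ch' R T (n + 2) ∧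
            single s 1 - g (D (single s 1)) - D w ∈ Ch' R S (n + 1)) := by
        intro s
        by_cases h1 : single s (1 : R) ∈ Ch' R S (n + 1)
        · exact ⟨0, fun _ => rfl, fun _ => ⟨zero_mem _, by simpa [g0 _ (D_Ch' h1)] using h1⟩⟩
        by_cases h2 : single s (1 : R) ∈ Ch' R T (n + 1)
        · obtain ⟨w, w1, w2⟩ := h n _ (sub_mem h2 (g1 _ (D_Ch' h2))) (g2 _ h2)
          exact ⟨w, fun e => (h1 e).elim, fun _ => ⟨w1, w2⟩⟩
        · exact ⟨0, fun _ => rfl, fun e => (h2 e).elim⟩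
      choose w w0 w1 using hw
      refine ⟨lc w, fun c hc => map_eq (G := 0) (fun s hs => ?_) hc,
        fun c hc => map_mem (fun s hs => ?_) hc, fun c hc => ?_⟩
      · simpa using w0 s (single_mem hs)
      · simpa using (w1 s (single_mem hs)).1
      · have := map_mem (F := LinearMap.id - g ∘ₗ D - D ∘ₗ lc w) (P := Ch' R S (n + 1))
          (fun s hs => by simpa using (w1 s (single_mem hs)).2) (D_Ch' hc)
        simpa using this
  intro φ hφ
  obtain ⟨g, g0, g1, g2⟩ := key k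
  refine ⟨φ ∘ₗ g, fun c hc => by simp [g0 c hc], fun c hc => ?_⟩
  obtain ⟨w, w1, w2⟩ := h k _ (sub_mem hc (g1 _ (D_Ch' hc))) (g2 c hc)
  have e1 := hφ.1 w w1
  have e2 := hφ.2 _ w2
  simp only [LinearMap.comp_apply, LinearMap.zero_apply, map_sub] at e1 e2 ⊢
  linear_combination e1 + e2

lemma gbx_up {t : C R Y →ₗ[R] C R Y} (ht : ∀ A n, ∀ c ∈ In R A n, t c ∈ In R A (n + 1)) {n : ℕ}
    {c : C R Y} (hc : c ∈ Ch' R S n) : t c ∈ Ch' R S (n + 1) := by
  cases n with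
  | zero =>
    rw [Ch'_zero (A := ∅)] at hc
    refine Ch'_mono (S := {∅}) (fun U hU hne => (hne.ne_empty hU).elim) ?_
    rw [Ch'_single]
    exact ht _ _ c hc
  | succ n => exact Ch'_mem (fun U hU _ c hc => In_le_Ch' hU (ht _ _ c hc)) hc

/-- Small simplices. -/
theorem triv_small (hT : ∀ U ∈ T, IsOpen U) (hS : ∀ U ∈ S, IsOpen U) (h : Ref S T)
    (h' : ⋃₀ T ⊆ ⋃₀ S) (k : ℕ) : Triv R T S k := by
  refine triv_of_acyclic h (fun n c hc hD => ?_) k
  have hc' : c ∈ In R (⋃ i : ↥(insert ∅ S), (i : Set Y)) (n + 1) := by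
    rw [← Ch'_single]
    refine Ch'_mono (Ref.sUnion (h'.trans ?_)) hc
    rw [← sUnion_eq_iUnion]
    exact sUnion_mono (subset_insert _ _)
  obtain ⟨m, hm⟩ := (small (fun i : ↥(insert ∅ S) => by
    rcases i with ⟨_, rfl | hi⟩
    exacts [isOpen_empty, hS _ hi]) hc').exists
  have hm' : (sd ^ m) c ∈ Ch' R S (n + 1) := by
    refine Ch'_mono (S := insert ∅ S) ?_ ((iSup_le fun i => In_le_Ch' i.2 :
      ⨆ i : ↥(insert ∅ S), In R (i : Set Y) (n + 1) ≤ _) hm)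
    rintro U (rfl | hU) hne
    exacts [(hne.ne_empty rfl).elim, ⟨U, hU, Subset.rfl⟩]
  obtain ⟨t, t1, t2⟩ := exists_T (R := R) (Y := Y) m
  refine ⟨t c, gbx_up t1 hc, ?_⟩
  rw [show c - D (t c) = (sd ^ m) c + t (D c) by linear_combination (norm := abel1) -t2 c]
  exact add_mem hm' (gbx_up t1 hD)

/-- A deformation of `T` into `S`. -/
theorem triv_def {H : Y × ℝ → Y} (hH : PH H T S T S) (h0 : ∀ U ∈ T, ∀ y ∈ U, H (y, 0) = y)
    (h1 : Mp (fun y => H (y, 1)) T S) (k : ℕ) : Triv R T S k := fun φ hφ => by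
  have e1 : Eqv T k (pb (fun y => H (y, 1)) φ) 0 := hφ.2.pull (fun U hU =>
    (hH.cT U hU).comp (by fun_prop) fun y hy => ⟨hy, by simp⟩) h1
  refine (hφ.htp hH).symm.congr ?_
  simpa using (pb_self (f := fun y => H (y, 0)) h0 φ).sub e1

/-- A contractible set. -/
theorem triv_contr {H : Y × ℝ → Y} (hH : ContinuousOn H (A ×ˢ Icc 0 1))
    (hA : MapsTo H (A ×ˢ Icc 0 1) A) (h0 : ∀ y ∈ A, H (y, 0) = y) {y₀ : Y}
    (h1 : ∀ y ∈ A, H (y, 1) = y₀) (k : ℕ) : Triv R {A} ∅ (k + 1) := by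
  rcases A.eq_empty_or_nonempty with rfl | ⟨y, hy⟩
  · exact Triv.refl fun U hU hne => (hne.ne_empty hU).elim
  obtain ⟨g, hg⟩ := exists_contr (R := R) hH hA (h1 y hy ▸ hA (x := (y, 1)) ⟨hy, by simp⟩) h0 h1
  refine fun φ hφ => ⟨φ ∘ₗ g, fun c hc => by simp [Ch'_empty hc], fun c hc => ?_⟩
  rw [Ch'_single] at hc
  have e1 := hφ.1 (g c) (by rw [Ch'_single]; exact (hg _ c hc).1)
  have e2 := congrArg φ (hg _ c hc).2
  simp only [LinearMap.comp_apply, LinearMap.zero_apply, map_add] at e1 e2 ⊢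
  linear_combination e1 - e2

lemma gbx_bo_del (h : Bo S' S k φ) : Bo T S' (k + 1) (φ ∘ₗ D) :=
  let ⟨a, _, a1⟩ := h
  ⟨φ - a ∘ₗ D, fun c hc => sub_eq_zero.2 (a1 c hc), by
    rw [LinearMap.sub_comp, comp_D_D, sub_zero]; exact .refl⟩

lemma Triv.trans (h : Triv R T S' k) (h' : Triv R S' S k) (h1 : Ref S S') (h2 : Ref S' T) :
    Triv R T S k := fun φ hφ =>
  let ⟨φ', a, b⟩ := ex_lift hφ (h' φ (hφ.mono h2 .refl))
  b.of_sub ((h φ' a).mono .refl h1)

/-- `H^k(S', S) → H^(k+1)(T, S') → H^(k+1)(T, S)`. -/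
lemma Triv.of_del (h : Triv R S' S k) (h' : Triv R T S (k + 1)) (h1 : Ref S S') (h2 : Ref S' T) :
    Triv R T S' (k + 1) := fun φ hφ =>
  let ⟨ψ, a, b⟩ := ex_del hφ h2 (h' φ (hφ.mono .refl h1))
  (gbx_bo_del (h ψ a)).congr b.symm

/-- `H^k(T, S) → H^k(S', S) → H^(k+1)(T, S')`. -/
lemma Triv.of_res (h : Triv R T S k) (h' : Triv R T S' (k + 1)) (h1 : Ref S S') (h2 : Ref S' T) :
    Triv R S' S k := fun _ hψ =>
  let ⟨ψ', a, b⟩ := ex_ext h1 hψ (h' _ (cy_comp_D hψ.1))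
  ((h ψ' a).mono h2 .refl).congr b

lemma Triv.left (h : ∀ k, Triv R S' S k) (h' : Triv R T S k) (h1 : Ref S S') (h2 : Ref S' T) :
    Triv R T S' k := by
  cases k with
  | zero => exact fun φ hφ => bo_zero.2 (bo_zero.1 (h' φ (hφ.mono .refl h1)))
  | succ k => exact (h k).of_del h' h1 h2

/-- Change of the small family along an acyclic pair. -/
theorem ss_cy (h : ∀ k, Triv R S' S k) (h1 : Ref S S') (hφ : Cy T S k φ) (h2 : Ref S' T) :
    ∃ φ', Cy T S' k φ' ∧ Bo T S k (φ - φ') := ex_lift hφ (h k φ (hφ.mono h2 .refl))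

theorem ss_bo (h : ∀ k, Triv R S' S k) (h1 : Ref S S') (h2 : Ref S' T) (hφ : Cy T S' k φ)
    (hb : Bo T S k φ) : Bo T S' k φ := by
  cases k with
  | zero => exact bo_zero.2 (bo_zero.1 hb)
  | succ k =>
    obtain ⟨ψ, a, b⟩ := ex_del hφ h2 hb
    exact (gbx_bo_del (h k ψ a)).congr b.symm

/-- Change of the large family along an acyclic pair. -/
theorem ts_cy (h : ∀ k, Triv R T T' k) (h1 : Ref S T') (h2 : Ref T' T) (hφ : Cy T' S k φ) :
    ∃ φ', Cy T S k φ' ∧ Eqv T' k φ' φ := ex_ext h1 hφ (h _ _ (cy_comp_D hφ.1))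

theorem ts_bo (h : ∀ k, Triv R T T' k) (h1 : Ref S T') (h2 : Ref T' T) (hφ : Cy T S k φ)
    (hb : Bo T' S k φ) : Bo T S k φ :=
  let ⟨φ', a, b⟩ := ex_lift hφ hb
  b.of_sub ((h k φ' a).mono .refl h1)

lemma gbx_Mt : Mt {A} {B} = {A ∩ B} := image2_singleton

lemma gbx_ref : Ref ({A} ∪ {B}) {A ∪ B} :=
  .union (.single subset_union_left) (.single subset_union_right)

lemma gbx_two (hA : IsOpen A) (hB : IsOpen B) (k : ℕ) : Triv R {A ∪ B} ({A} ∪ {B}) k :=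
  triv_small (by rintro _ rfl; exact hA.union hB) (by rintro _ (rfl | rfl) <;> assumption) gbx_ref
    (by rw [sUnion_union]; simp) k

/-- Excision for open sets. -/
theorem exo_cy (hA : IsOpen A) (hB : IsOpen B) (h : Cy {A} {A ∩ B} k φ) :
    ∃ φ', Cy {A ∪ B} {B} k φ' ∧ Eqv {A} k φ' φ := by
  rw [← gbx_Mt] at h
  obtain ⟨φ', a, b⟩ := exc_cy h
  obtain ⟨φ'', a', b'⟩ := ts_cy (gbx_two hA hB) (.of_subset subset_union_right) gbx_ref a
  exact ⟨φ'', a', (b'.mono (.of_subset subset_union_left)).trans b⟩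

theorem exo_bo (hA : IsOpen A) (hB : IsOpen B) (h : Cy {A ∪ B} {B} k φ)
    (hb : Bo {A} {A ∩ B} k φ) : Bo {A ∪ B} {B} k φ := by
  rw [← gbx_Mt] at hb
  exact ts_bo (gbx_two hA hB) (.of_subset subset_union_right) gbx_ref h (exc_bo h.2 hb)

theorem exo_triv (hA : IsOpen A) (hB : IsOpen B) (h : Triv R {A} {A ∩ B} k) :
    Triv R {A ∪ B} {B} k := fun φ hφ =>
  exo_bo hA hB hφ (h φ (hφ.mono (.single subset_union_left) (.single inter_subset_right)))

lemma gbx_htp {P Q : Set (Set Y')} {f : Y → Y'} {g : Y' → Y} {H : Y' × ℝ → Y'} {a : Cc R Y'}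
    (hg : PM g P Q T S) (hH : PH H P Q P Q) (h0 : ∀ U ∈ P, ∀ y ∈ U, H (y, 0) = y)
    (h1 : ∀ U ∈ P, ∀ y ∈ U, H (y, 1) = f (g y)) (ha : Cy P Q k a) :
    Bo P Q k (pb g (pb f a) - a) :=
  (ha.htp hH).congr (((pb_congr (g := f ∘ g) h1 a).trans (pb_pb' hg.cT f a).symm).sub
    (pb_self (f := fun y => H (y, 0)) h0 a))

lemma gbx_inv {P Q : Set (Set Y')} {f : Y → Y'} {g : Y' → Y} (hg : PM g P Q T S)
    (h1 : ∀ U ∈ P, ∀ y ∈ U, f (g y) = y) (a : Cc R Y') : Eqv P k (pb g (pb f a)) a :=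
  (pb_pb' hg.cT f a).trans (pb_self (f := f ∘ g) h1 a)

/-- Transfer along a map with a homotopy left inverse. -/
theorem bo_of_pb {P Q : Set (Set Y')} {f : Y → Y'} {g : Y' → Y} {H : Y' × ℝ → Y'} {a : Cc R Y'}
    (hf : PM f T S P Q) (hg : PM g P Q T S) (hH : PH H P Q P Q)
    (h0 : ∀ U ∈ P, ∀ y ∈ U, H (y, 0) = y) (h1 : ∀ U ∈ P, ∀ y ∈ U, H (y, 1) = f (g y))
    (ha : Cy P Q k a) (hb : Bo T S k (pb f a)) : Bo P Q k a :=
  (gbx_htp hg hH h0 h1 ha).symm.of_sub (hb.pull hg)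

theorem triv_of_pb {P Q : Set (Set Y')} {f : Y → Y'} {g : Y' → Y} {H : Y' × ℝ → Y'}
    (hf : PM f T S P Q) (hg : PM g P Q T S) (hH : PH H P Q P Q)
    (h0 : ∀ U ∈ P, ∀ y ∈ U, H (y, 0) = y) (h1 : ∀ U ∈ P, ∀ y ∈ U, H (y, 1) = f (g y))
    (h : Triv R T S k) : Triv R P Q k := fun _ ha =>
  bo_of_pb hf hg hH h0 h1 ha (h _ (ha.pull hf))

theorem bo_of_pb' {P Q : Set (Set Y')} {f : Y → Y'} {g : Y' → Y} {a : Cc R Y'}
    (hg : PM g P Q T S) (h1 : ∀ U ∈ P, ∀ y ∈ U, f (g y) = y) (hb : Bo T S k (pb f a)) :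
    Bo P Q k a := (hb.pull hg).congr (gbx_inv hg h1 a)

theorem triv_of_pb' {P Q : Set (Set Y')} {f : Y → Y'} {g : Y' → Y}
    (hf : PM f T S P Q) (hg : PM g P Q T S) (h1 : ∀ U ∈ P, ∀ y ∈ U, f (g y) = y)
    (h : Triv R T S k) : Triv R P Q k := fun _ ha => bo_of_pb' hg h1 (h _ (ha.pull hf))

section GB

variable {J J' : Type} [Fintype J] [Fintype J'] {β β' : J → Cc R Y} {γ : J' → Cc R Y} {d : J → ℕ}
  {e : J' → ℕ}

lemma gbx_cy_comb (h : ∀ j, Cy T S (d j) (β j)) {r : J → R} (hr : ∀ j, d j ≠ k → r j = 0) :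
    Cy T S k (∑ j, r j • β j) := by
  refine Cy.sum _ fun j _ => ?_
  by_cases e : d j = k
  · exact e ▸ (h j).smul _
  · rw [hr j e, zero_smul]
    exact .zero

lemma gbx_comb_sub (h : ∀ j, Bo T S (d j) (β j - β' j)) {r : J → R}
    (hr : ∀ j, d j ≠ k → r j = 0) : Bo T S k (∑ j, r j • β j - ∑ j, r j • β' j) := by
  rw [← Finset.sum_sub_distrib]
  refine Bo.sum _ fun j _ => ?_
  by_cases e : d j = k
  · exact e ▸ ((h j).smul (r j)).congr fun c _ => by simp [mul_sub]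
  · rw [hr j e, zero_smul, zero_smul, sub_zero]
    exact .zero

lemma gbx_sum_D (r : J → R) (β : J → Cc R Y) :
    (∑ j, r j • β j) ∘ₗ D = ∑ j, r j • (β j ∘ₗ D) :=
  LinearMap.ext fun c => by simp [LinearMap.sum_apply]

lemma gbx_tr (m1 : Ref T' T) (m2 : Ref S' S)
    (hcy : ∀ k (φ : Cc R Y), Cy T' S' k φ → ∃ φ', Cy T S k φ' ∧ Bo T' S' k (φ - φ'))
    (hbo : ∀ k (φ : Cc R Y), Cy T S k φ → Bo T' S' k φ → Bo T S k φ)
    (hβ : ∀ j, Cy T S (d j) (β j)) : GB T S β d ↔ GB T' S' β d :=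
  ⟨fun h => ⟨fun j => (hβ j).mono m1 m2, fun k φ hφ =>
      let ⟨φ', p, q⟩ := hcy k φ hφ
      let ⟨r, a, b⟩ := h.span k φ' p
      ⟨r, a, q.trans (b.mono m1 m2)⟩,
      fun k r a b => h.ind k r a (hbo k _ (gbx_cy_comb hβ a) b)⟩,
    fun h => ⟨hβ, fun k φ hφ =>
      let ⟨r, a, b⟩ := h.span k φ (hφ.mono m1 m2)
      ⟨r, a, hbo k _ (hφ.sub (gbx_cy_comb hβ a)) b⟩,
      fun k r a b => h.ind k r a (b.mono m1 m2)⟩⟩

lemma GB.triv (h : GB T S β d) (hk : ∀ j, d j ≠ k) : Triv R T S k := fun φ hφ => by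
  obtain ⟨r, a, b⟩ := h.span k φ hφ
  simpa [fun j => a j (hk j)] using b

/-- A degree with exactly one basis element. -/
lemma GB.span_one (h : GB T S β d) (j : J) (hj : ∀ i, d i = d j → i = j) (hφ : Cy T S (d j) φ) :
    ∃ r : R, Bo T S (d j) (φ - r • β j) := by
  obtain ⟨r, a, b⟩ := h.span _ φ hφ
  rw [Finset.sum_eq_single j (fun i _ hi => by rw [a i fun e => hi (hj i e), zero_smul])
    (by simp)] at b
  exact ⟨r j, b⟩

lemma GB.ind_one (h : GB T S β d) (j : J) {r : R} (hr : Bo T S (d j) (r • β j)) : r = 0 := by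
  classical
  have := h.ind (d j) (Pi.single j r) (fun i hi => Pi.single_eq_of_ne (by rintro rfl; simp at hi) _)
    (by rwa [Finset.sum_eq_single j (fun i _ hi => by simp [hi]) (by simp), Pi.single_eq_same]) j
  simpa using this

lemma GB.congr (h : GB T S β d) (hS : Ref S T) (h' : ∀ j, Bo T S (d j) (β j - β' j)) :
    GB T S β' d :=
  ⟨fun j => by simpa using (h.cy j).sub ((h' j).cy hS), fun k φ hφ =>
    let ⟨r, a, b⟩ := h.span k φ hφ
    ⟨r, a, b.trans (gbx_comb_sub h' a)⟩,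
    fun k r a b => h.ind k r a ((gbx_comb_sub h' a).of_sub b)⟩

lemma GB.reindex (h : GB T S β d) (ε : J' ≃ J) : GB T S (β ∘ ε) (d ∘ ε) := by
  refine ⟨fun j => h.cy (ε j), fun k φ hφ => ?_, fun k r a b j => ?_⟩
  · obtain ⟨r, a, b⟩ := h.span k φ hφ
    exact ⟨r ∘ ε, fun j => a (ε j), by rwa [← ε.sum_comp] at b⟩
  · simpa using h.ind k (r ∘ ε.symm) (fun j hj => a _ (by simpa using hj))
      (by rw [← ε.sum_comp]; simpa using b) (ε j)

lemma gb_empty [IsEmpty J] (h : ∀ k, Triv R T S k) : GB T S β d :=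
  ⟨fun j => isEmptyElim j, fun k φ hφ => ⟨0, fun _ _ => rfl, by simpa using h k φ hφ⟩,
    fun _ _ _ _ j => isEmptyElim j⟩

lemma GB.smul_unit (h : GB T S β d) (u : J → Rˣ) : GB T S (fun j => (u j : R) • β j) d := by
  refine ⟨fun j => (h.cy j).smul _, fun k φ hφ => ?_, fun k r a b j => ?_⟩
  · obtain ⟨r, a, b⟩ := h.span k φ hφ
    exact ⟨fun j => r j * ↑(u j)⁻¹, fun j hj => by simp [a j hj], by simpa [smul_smul] using b⟩
  · simpa using h.ind k (fun j => r j * u j) (fun j hj => by simp [a j hj])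
      (by simpa [smul_smul] using b) j

theorem gb_S (h : ∀ k, Triv R S' S k) (h1 : Ref S S') (h2 : Ref S' T)
    (hβ : ∀ j, Cy T S' (d j) (β j)) : GB T S β d ↔ GB T S' β d :=
  (gbx_tr .refl h1 (fun _ _ hφ => ss_cy h h1 hφ h2) (fun _ _ => ss_bo h h1 h2) hβ).symm

/-- Enlarging the small family, changing the cocycles. -/
theorem GB.to_S (hb : GB T S β d) (h : ∀ k, Triv R S' S k) (h1 : Ref S S') (h2 : Ref S' T) :
    ∃ β', GB T S' β' d ∧ ∀ j, Bo T S (d j) (β j - β' j) := by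
  choose β' a b using fun j => ss_cy h h1 (hb.cy j) h2
  exact ⟨β', (gb_S h h1 h2 a).1 (hb.congr (h1.trans h2) b), b⟩

theorem gb_T (h : ∀ k, Triv R T T' k) (h1 : Ref S T') (h2 : Ref T' T)
    (hβ : ∀ j, Cy T S (d j) (β j)) : GB T S β d ↔ GB T' S β d :=
  gbx_tr h2 .refl (fun _ _ hφ => (ts_cy h h1 h2 hφ).imp fun _ e => ⟨e.1, e.2.symm.bo⟩)
    (fun _ _ => ts_bo h h1 h2) hβ

theorem gb_exc (hβ : ∀ j, Cy (T ∪ S) S (d j) (β j)) :
    GB (T ∪ S) S β d ↔ GB T (Mt T S) β d :=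
  gbx_tr (.of_subset subset_union_left)
    (by rintro _ ⟨U, -, V, hV, rfl⟩ -; exact ⟨V, hV, inter_subset_right⟩)
    (fun _ _ hφ => (exc_cy hφ).imp fun _ e => ⟨e.1, e.2.symm.bo⟩)
    (fun _ _ hφ => exc_bo hφ.2) hβ

theorem gb_exo (hA : IsOpen A) (hB : IsOpen B) (hβ : ∀ j, Cy {A ∪ B} {B} (d j) (β j)) :
    GB {A ∪ B} {B} β d ↔ GB {A} {A ∩ B} β d :=
  gbx_tr (.single subset_union_left) (.single inter_subset_right)
    (fun _ _ hφ => (exo_cy hA hB hφ).imp fun _ e => ⟨e.1, e.2.symm.bo⟩)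
    (fun _ _ => exo_bo hA hB) hβ

/-- The sequence of a triple when all connecting maps vanish. -/
theorem gb_triple (h1 : Ref S S') (h2 : Ref S' T) (hβ : GB T S' β d) (hγ : GB S' S γ e)
    (hc : ∀ j, Cy T S (e j) (γ j)) : GB T S (Sum.elim β γ) (Sum.elim d e) := by
  refine ⟨fun j => ?_, fun k φ hφ => ?_, fun k r a b => ?_⟩
  · cases j with
    | inl j => exact (hβ.cy j).mono .refl h1
    | inr j => exact hc j
  · obtain ⟨r', a', b'⟩ := hγ.span k φ (hφ.mono h2 .refl)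
    obtain ⟨φ', c1, c2⟩ := ex_lift (hφ.sub (gbx_cy_comb hc a')) b'
    obtain ⟨r, a, b⟩ := hβ.span k φ' c1
    refine ⟨Sum.elim r r', fun j => ?_, ?_⟩
    · cases j with
      | inl j => exact a j
      | inr j => exact a' j
    · have := c2.trans (b.mono .refl h1)
      rw [sub_sub, add_comm] at this
      simpa [Fintype.sum_sum_type] using this
  · have a1 : ∀ j, d j ≠ k → r (.inl j) = 0 := fun j => a (.inl j)
    have a2 : ∀ j, e j ≠ k → r (.inr j) = 0 := fun j => a (.inr j)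
    simp only [Fintype.sum_sum_type, Sum.elim_inl, Sum.elim_inr] at b
    have c1 := gbx_cy_comb hβ.cy a1
    have r2 := hγ.ind k _ a2 ((b.mono h2 .refl).congr (by simpa using c1.2.add .refl))
    simp only [r2, zero_smul, Finset.sum_const_zero, add_zero] at b
    have r1 := hβ.ind k _ a1 (by
      cases k with
      | zero => exact bo_zero.2 (bo_zero.1 b)
      | succ k =>
        obtain ⟨ψ, p1, p2⟩ := ex_del c1 h2 b
        obtain ⟨s, s1, s2⟩ := hγ.span k ψ p1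
        refine (gbx_bo_del s2).congr ?_
        simpa [LinearMap.sub_comp] using p2.symm.sub (gbx_cy_comb hc s1).1)
    rintro (j | j)
    exacts [r1 j, r2 j]

/-- The connecting map is bijective when the large pair is acyclic. -/
theorem gb_del (h1 : Ref S S') (h2 : Ref S' T) (h : ∀ k, Triv R T S k) (hβ : GB S' S β d) :
    GB T S' (fun j => β j ∘ₗ D) fun j => d j + 1 := by
  refine ⟨fun j => cy_comp_D (hβ.cy j).1, fun k φ hφ => ?_, fun k r a b => ?_⟩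
  · have b := h k φ (hφ.mono .refl h1)
    cases k with
    | zero => exact ⟨0, fun _ _ => rfl, by simpa using bo_zero.2 (bo_zero.1 b)⟩
    | succ k =>
      obtain ⟨ψ, p1, p2⟩ := ex_del hφ h2 b
      obtain ⟨s, s1, s2⟩ := hβ.span k ψ p1
      refine ⟨s, fun j hj => s1 j (by omega), (gbx_bo_del s2).congr ?_⟩
      rw [LinearMap.sub_comp, gbx_sum_D]
      exact p2.symm.sub .refl
  · cases k with
    | zero => exact fun j => a j (by omega)
    | succ k =>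
      have a' : ∀ j, d j ≠ k → r j = 0 := fun j hj => a j (by omega)
      rw [← gbx_sum_D] at b
      obtain ⟨ψ, p1, p2⟩ := ex_ext h1 (gbx_cy_comb hβ.cy a') b
      exact hβ.ind k r a' (((h k ψ p1).mono h2 .refl).congr p2)

/-- Homotopy equivalences of pairs. -/
theorem GB.pull {P Q : Set (Set Y')} {f : Y → Y'} {g : Y' → Y} {H : Y' × ℝ → Y'} {H' : Y × ℝ → Y}
    {α : J → Cc R Y'} (h : GB P Q α d) (hf : PM f T S P Q) (hg : PM g P Q T S)
    (hH : PH H P Q P Q) (h0 : ∀ U ∈ P, ∀ y ∈ U, H (y, 0) = y)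
    (h1 : ∀ U ∈ P, ∀ y ∈ U, H (y, 1) = f (g y)) (hH' : PH H' T S T S)
    (h0' : ∀ U ∈ T, ∀ y ∈ U, H' (y, 0) = y) (h1' : ∀ U ∈ T, ∀ y ∈ U, H' (y, 1) = g (f y)) :
    GB T S (fun j => pb f (α j)) d := by
  refine ⟨fun j => (h.cy j).pull hf, fun k φ hφ => ?_, fun k r a b => ?_⟩
  · obtain ⟨r, a, b⟩ := h.span k _ (hφ.pull hg)
    have := b.pull hf
    rw [pb_sub, pb_sum] at this
    exact ⟨r, a, (gbx_htp hf hH' h0' h1' hφ).symm.trans this⟩
  · exact h.ind k r a (bo_of_pb hf hg hH h0 h1 (gbx_cy_comb h.cy a) (by rwa [pb_sum]))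

/-- Homeomorphisms of pairs, in the other direction. -/
theorem GB.of_pull {P Q : Set (Set Y')} {f : Y → Y'} {g : Y' → Y} {α : J → Cc R Y'}
    (h : GB T S (fun j => pb f (α j)) d) (hf : PM f T S P Q) (hg : PM g P Q T S) (hQ : Ref Q P)
    (h1 : ∀ U ∈ P, ∀ y ∈ U, f (g y) = y) : GB P Q α d := by
  refine ⟨fun j => ((h.cy j).pull hg).congr hQ (gbx_inv hg h1 _), fun k a ha => ?_,
    fun k r a b => h.ind k r a ?_⟩
  · obtain ⟨r, a, b⟩ := h.span k _ (ha.pull hf)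
    exact ⟨r, a, bo_of_pb' hg h1 (by rwa [pb_sub, pb_sum])⟩
  · have := b.pull hf
    rwa [pb_sum] at this

end GB

end Pool.Agent.Lib.MP_bf05b2_gt
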