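import Pool.Agent.Lib.MP_bf05b2_gt.H57Adem
import Pool.Agent.Lib.MP_bf05b2_gt.H57GB

/-! The cochains of the obstruction theory of a sphere bundle. -/

set_option linter.unusedSectionVars false

namespace Pool.Agent.Lib.MP_bf05b2_gt

open Set Finsupp Pool.Agent.Shared.Sing Pool.Agent.Shared.SingEZ

variable {E : Type*} [TopologicalSpace E] [Nonempty E]

lemma obs1_zero {T : Set (Set E)} {k : ℕ} {a b : Cc (ZMod 2) E} (h : Eqv T k a b) :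
    Eqv T k (a + b) 0 := add_self2 b ▸ h.add Eqv.refl

lemma obs1_cupD {T : Set (Set E)} {t : Cc (ZMod 2) E} (ht : Cy T ∅ 2 t) (q : ℕ)
    (a : Cc (ZMod 2) E) : Eqv T (2 + q + 1) (cup 2 t a ∘ₗ D) (cup 2 t (a ∘ₗ D)) := by
  have h := (cup_D (T := T) 2 q t a).trans ((cup_van_left ht.1 a).add Eqv.refl)
  rwa [zero_add, neg_one_sq, one_smul] at h

theorem obs1 {E₀ A₁ A₂ : Set E} {U t : Cc (ZMod 2) E} (h₁ : A₁ ⊆ E₀) (h₂ : A₂ ⊆ E₀)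
    (hd : Disjoint A₁ A₂) (hU : Cy {univ} {E₀} 4 U) (ht : Cy {univ} ∅ 2 t)
    (hs : Bo {univ} {E₀} 6 (sq 2 4 U + cup 2 t U)) (h5 : Triv (ZMod 2) {univ} {E₀} 5)
    (h7 : Triv (ZMod 2) {univ} {E₀} 7) (h4 : Triv (ZMod 2) {univ} {A₂} 4)
    (h3 : Triv (ZMod 2) {A₁} ∅ 3) (h5' : Triv (ZMod 2) {(univ : Set E)} ∅ 5) :
    ∃ u x y : Cc (ZMod 2) E, Eqv {A₁, A₂} 3 u 0 ∧ Eqv {univ} 4 U (u ∘ₗ D) ∧
      Eqv {E₀} 5 (x ∘ₗ D) (sq 1 3 u + cup 2 t u) ∧ Cy {univ} ∅ 6 y ∧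
      Eqv {A₁, A₂} 6 y (sq 2 4 x + cup 2 t x) := by
  have r1 : Ref {A₁} {A₁, A₂} := Ref.of_subset (by simp)
  have r2 : Ref {A₂} {A₁, A₂} := Ref.of_subset (by simp)
  have rA : Ref {A₁, A₂} {E₀} := Ref.union (S := {A₁}) (Ref.single h₁) (Ref.single h₂)
  have t3 : Triv (ZMod 2) {A₁, A₂} {A₂} 3 := fun φ hφ => by
    refine exc_bo (T := {A₁}) hφ.2 ((h3 φ (hφ.mono r1 Ref.empty)).mono Ref.refl ?_)
    rw [gbx_Mt, hd.inter_eq]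
    rintro _ rfl h
    exact absurd h not_nonempty_empty
  have t4 : Triv (ZMod 2) {univ} {A₁, A₂} 4 := t3.of_del h4 r2 Ref.univ
  obtain ⟨u, hu0, hu⟩ := bo_succ.1 (t4 U (hU.mono Ref.refl rA))
  have huE : Eqv {E₀} 4 (u ∘ₗ D) 0 := (hu.mono Ref.univ).symm.trans hU.2
  have hcu : Cy {E₀} {A₁, A₂} 3 u := ⟨huE, hu0⟩
  have s1 : Bo {E₀} {A₁, A₂} 4 (sq 2 3 u) := by
    obtain ⟨β, hβ0, hβ⟩ := bo_succ.1 (h5 _ (hU.square (i := 3)))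
    have e : Eqv {univ} 5 (sq 3 4 (u ∘ₗ D)) (β ∘ₗ D) := (hu.cui hu).symm.trans hβ
    rw [sq_D] at e
    have c : Cy {univ} {A₁, A₂} 4 (cu 3 3 4 u (u ∘ₗ D) + sq 2 3 u + β) := by
      refine ⟨by rw [LinearMap.add_comp]; exact obs1_zero e, ?_⟩
      simpa using ((cu_van_left (i := 3) (q := 4) hu0 (u ∘ₗ D)).add
        (cu_van_left (i := 2) (q := 3) hu0 u)).add (hβ0.mono rA)
    refine ((t4 _ c).mono Ref.univ Ref.refl).congr ?_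
    simpa using ((cu_van_right (i := 3) (p := 3) u huE).add
      (Eqv.refl (φ := sq 2 3 u))).add hβ0
  obtain ⟨β, hβ0, hβ⟩ := bo_succ.1 hs
  have c5 : Cy {univ} ∅ 5 (cu 2 3 4 u (u ∘ₗ D) + sq 1 3 u + cup 2 t u + β) := by
    refine ⟨?_, Eqv.empty⟩
    rw [LinearMap.add_comp, LinearMap.add_comp, ← sq_D]
    have e1 : Eqv {univ} 6 (cup 2 t u ∘ₗ D) (cup 2 t (u ∘ₗ D)) := obs1_cupD ht 3 u
    have e2 : Eqv {univ} 6 (cup 2 t U) (cup 2 t (u ∘ₗ D)) := Eqv.mul (p := 2) (q := 4) Eqv.refl hu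
    have e3 : Eqv {univ} 6 (sq 2 4 U) (sq 2 4 (u ∘ₗ D)) := hu.cui hu
    exact obs1_zero ((e3.symm.add (e1.trans e2.symm)).trans hβ)
  obtain ⟨x, -, hx⟩ := bo_succ.1 (h5' _ c5)
  have hxE : Eqv {E₀} 5 (x ∘ₗ D) (sq 1 3 u + cup 2 t u) := by
    refine (hx.mono Ref.univ).symm.trans ?_
    simpa using (((cu_van_right (i := 2) (p := 3) u huE).add (Eqv.refl (φ := sq 1 3 u))).add
      (Eqv.refl (φ := cup 2 t u))).add hβ0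
  have hxA : Eqv {A₁, A₂} 5 (x ∘ₗ D) 0 := by
    refine (hxE.mono rA).trans ?_
    simpa using (cu_van_left (i := 1) (q := 3) hu0 u).add (cup_van_right (p := 2) t hu0)
  have htE : Cy {E₀} ∅ 2 t := ht.mono Ref.univ Ref.refl
  obtain ⟨w, hw0, hw⟩ := bo_succ.1 (adem_tw htE hcu s1)
  have c7 : Eqv {E₀} 7 ((cu 3 4 5 x (x ∘ₗ D) + sq 2 4 x + cup 2 t x + w) ∘ₗ D) 0 := by
    rw [LinearMap.add_comp, LinearMap.add_comp, ← sq_D]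
    have e1 : Eqv {E₀} 7 (cup 2 t x ∘ₗ D) (cup 2 t (x ∘ₗ D)) := obs1_cupD htE 4 x
    have e2 : Eqv {E₀} 7 (cup 2 t (x ∘ₗ D)) (cup 2 t (sq 1 3 u + cup 2 t u)) :=
      Eqv.mul (p := 2) (q := 5) Eqv.refl hxE
    have e3 : Eqv {E₀} 7 (sq 3 5 (x ∘ₗ D)) (sq 3 5 (sq 1 3 u + cup 2 t u)) := hxE.cui hxE
    exact obs1_zero ((e3.add (e1.trans e2)).trans hw)
  obtain ⟨w', hw0', hw'⟩ := bo_succ.1 (h7 _ (cy_comp_D c7))
  refine ⟨u, x, cu 3 4 5 x (x ∘ₗ D) + sq 2 4 x + cup 2 t x + w + w', hu0, hu, hxE,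
    ⟨by rw [LinearMap.add_comp]; exact obs1_zero hw', Eqv.empty⟩, ?_⟩
  simpa using ((((cu_van_right (i := 3) (p := 4) x hxA).add (Eqv.refl (φ := sq 2 4 x))).add
    (Eqv.refl (φ := cup 2 t x))).add hw0).add (hw0'.mono rA)

end Pool.Agent.Lib.MP_bf05b2_gt
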