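import Pool.Agent.Lib.MP_bf05b2_gt.H57Obs2
import Pool.Agent.Lib.MP_bf05b2_gt.H57Alg

/-! The local computation of the obstruction. -/

set_option linter.unusedSectionVars false

namespace Pool.Agent.Lib.MP_bf05b2_gt

open Set Finsupp Pool.Agent.Shared.Sing Pool.Agent.Shared.SingEZ Sum Fan

lemma o3_DK : Ref {(DDᶜ : Set FF.X)} {KKᶜ} :=
  Ref.single (KK_compl ▸ subset_union_right)

lemma o3_YK : Ref {Y1} {(KKᶜ : Set FF.X)} :=
  Ref.single (KK_compl ▸ subset_union_left)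

lemma o3_YD : Ref {Y1 ∩ DDᶜ} {(DDᶜ : Set FF.X)} := Ref.single inter_subset_right

lemma o3_exc {k : ℕ} {φ : Cc (ZMod 2) FF.X} (h : Cy {KKᶜ} {DDᶜ} k φ)
    (hb : Bo {Y1} {Y1 ∩ DDᶜ} k φ) : Bo {KKᶜ} {DDᶜ} k φ := by
  rw [KK_compl] at h ⊢
  exact exo_bo isOpen_Y1 isClosed_DD.isOpen_compl h hb

theorem triv_KK : Triv (ZMod 2) {univ} {KKᶜ} 4 :=
  Triv.of_del (S := {DDᶜ}) (k := 3)
    (fun φ hφ => o3_exc hφ (triv_Y3 φ (hφ.mono o3_YK o3_YD))) (triv_univ_DD (by norm_num))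
    o3_DK Ref.univ

/-- The class of a point pulls back to the class of a point. -/
lemma o3_om : Bo {univ} ∅ 6
    (pb jB (pr [tF (inl 0), tF (inl 1), tF (inl 2)]) - om (ZMod 2)) := by
  have hc : Continuous jB := isEq_jB.continuous
  have h := bo_pr (T := {univ}) (W := fun _ : Fin 14 => ∅) (l := [0, 1, 2])
    (τ := fun i => pb jB (tF (inl i))) (τ' := fun i => FB.tR (ZMod 2) i)
    (fun j _ => (sm_FF.cy' (ZMod 2) (inl j)).pull (PM.abs hc)) (fun j _ => sm_FB.cy' (ZMod 2) j)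
    (fun j _ => isEq_jB.nat_one (ZMod 2) sm_FF sm_FB (inl j) j fun _ _ => rfl)
  rw [pb_pr hc]
  exact h.mono Ref.refl Ref.empty

theorem obs3 {t x y : Cc (ZMod 2) FF.X} (ht : Cy {univ} ∅ 2 t)
    (ht' : Bo {univ} ∅ 2 (t - tF (inr 1))) (hx : Eqv {KKᶜ} 5 (x ∘ₗ D) 0)
    (hn : ¬ Bo {univ} {KKᶜ} 5 (x ∘ₗ D)) (hy : Cy {univ} ∅ 6 y)
    (hxy : Eqv {KKᶜ} 6 y (sq 2 4 x + cup 2 t x)) : ¬ Bo {univ} ∅ 6 (pb jB y) := by
  intro hb
  have hc : Continuous jB := isEq_jB.continuous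
  have h1 : Cy {univ} {KKᶜ} 5 (x ∘ₗ D) := cy_comp_D hx
  obtain ⟨ψ, hψ, e1⟩ := ex_del (S := {DDᶜ}) h1 Ref.univ
    (triv_univ_DD (by norm_num) _ (h1.mono Ref.refl o3_DK))
  obtain ⟨g, rfl⟩ : ∃ g, x = g + ψ := ⟨x - ψ, by simp⟩
  have hg : Cy {univ} ∅ 4 g := by
    refine ⟨fun c hc => ?_, Eqv.empty⟩
    simpa using e1 c hc
  have hψY : Cy {Y1} {Y1 ∩ DDᶜ} 4 ψ := hψ.mono o3_YK o3_YD
  have n1 : ¬ Bo {Y1} {Y1 ∩ DDᶜ} 4 ψ := fun h =>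
    hn ((gbx_bo_del (o3_exc hψ h)).congr e1.symm)
  have c1 : Cy {KKᶜ} {DDᶜ} 6 (sq 2 4 ψ + cup 2 t ψ) :=
    hψ.square.add (((ht.mono Ref.univ Ref.refl).mul hψ).mono Ref.refl
      (Ref.of_subset subset_union_right))
  have n2 : ¬ Bo {Y1} {Y1 ∩ DDᶜ} 6 (sq 2 4 ψ + cup 2 t ψ) := fun h => by
    refine n1 (sq_Y4 hψY ?_)
    have h2 : Bo {Y1} {Y1 ∩ DDᶜ} 6 (cup 2 (t - tF (inr 1)) ψ) :=
      ((ht'.mono Ref.univ Ref.refl).mul_left hψY).mono Ref.refl (Ref.of_subset subset_union_right)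
    have h3 := h.sub h2
    rw [cup_sub_left] at h3
    convert h3 using 1
    abel
  obtain ⟨ω, w1, w2, w3, w4⟩ := exists_omega
  have b1 : Bo {KKᶜ} {DDᶜ} 6 (sq 2 4 ψ + cup 2 t ψ - ω) :=
    o3_exc (c1.sub (w1.mono Ref.univ Ref.refl))
      (line_Y6 (c1.mono o3_YK o3_YD) (w1.mono Ref.univ o3_YD) n2 w3)
  have b2 : Bo {KKᶜ} ∅ 6 (sq 2 4 (g + ψ) - (sq 2 4 g + sq 2 4 ψ)) :=
    (sq_add (hg.mono Ref.univ Ref.refl) hψ).mono Ref.refl Ref.empty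
  have c2 : Cy {univ} ∅ 6 (cup 2 t g) := (ht.mul hg).mono Ref.refl Ref.empty
  have c3 : Cy {univ} ∅ 6 (y - (sq 2 4 g + cup 2 t g) - ω) :=
    (hy.sub (hg.square.add c2)).sub (w1.mono Ref.refl Ref.empty)
  have b3 : Bo {KKᶜ} ∅ 6 (y - (sq 2 4 g + cup 2 t g) - ω) := by
    have h3 := (hxy.bo.add b2).add (b1.mono Ref.refl Ref.empty)
    rw [cup_add_right] at h3
    convert h3 using 1
    abel
  obtain ⟨z, z1, z2⟩ := ex_lift c3 b3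
  have b4 : Bo {univ} ∅ 6 z := by
    rcases w4 z (z1.mono Ref.refl o3_DK) with h | h
    · exact h.mono Ref.refl Ref.empty
    · refine absurd ?_ w3
      have h3 := ((z1.2.mono o3_YK).bo (S := {Y1 ∩ DDᶜ})).sub (h.mono Ref.univ o3_YD)
      simpa using h3
  have b5 := (z2.of_sub b4).pull (PM.abs (T := {univ}) hc)
  have hg' : Cy {univ} ∅ 4 (pb jB g) := hg.pull (PM.abs hc)
  have b6 : Bo {univ} ∅ 2 (pb jB t) := by
    have h3 := ht'.pull (PM.abs (T := {univ}) hc)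
    rw [pb_sub] at h3
    exact h3.of_sub (isEq_jB.nat_zero (ZMod 2) sm_FF sm_FB (inr 1) fun _ _ => rfl)
  have b7 : Bo {univ} ∅ 6 (pb jB (cup 2 t g)) :=
    ((b6.mul_left hg').mono Ref.refl Ref.empty).congr
      (pb_cup' (fun _ _ => hc.continuousOn) 2 t g).symm
  have b8 : Bo {univ} ∅ 6 (pb jB (sq 2 4 g)) := by
    rw [pb_cu hc]
    exact wu hg'
  have b9 := w2.pull (PM.abs (T := {univ}) hc)
  rw [pb_sub, pb_sub, pb_add] at b5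
  rw [pb_sub] at b9
  have h3 := (((hb.sub (b8.add b7)).sub b5).sub b9).sub o3_om
  have h4 : Bo {univ} ∅ 6 ((1 : ZMod 2) • om (ZMod 2)) := by
    convert h3 using 1
    rw [one_smul]
    abel
  exact one_ne_zero (top_ind h4)

end Pool.Agent.Lib.MP_bf05b2_gt
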