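import Pool.Agent.Lib.MP_bf05b2_gt.H57Fin2
import Pool.Agent.Lib.MP_bf05b2_gt.H57Obs1
import Pool.Agent.Lib.MP_bf05b2_gt.H57Obs3

/-! There is no section without zeros. -/

set_option linter.unusedSectionVars false

namespace Pool.Agent.Lib.MP_bf05b2_gt

open Set Finsupp Pool.Agent.Shared.Sing Pool.Agent.Shared.SingEZ Sum Fan

theorem no_section (s₀ : (Fin 14 → ℂ) → Fin 2 → ℂ) : ¬ IsNz s₀ := by
  intro h₀
  obtain ⟨s, hs, hne⟩ := h₀.big
  obtain ⟨U, hU, hsq, hn⟩ := exists_thom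
  have ht : Cy {univ} ∅ 2 tE := sm_FE.cy' (ZMod 2) _
  have hA2 : A2 ⊆ E0 := by
    rintro _ ⟨x, hx, rfl⟩
    exact secE_mem hx
  obtain ⟨u, x, y, hu, hD, hx, hy, hxy⟩ := obs1 hs.sE_mem hA2 (hs.disjoint hne) hU ht hsq
    (triv_E0 (by decide)) (triv_E0 (by decide)) (triv_A2 _ triv_KK) hs.triv (triv_E (by decide))
  have r1 : Ref {range (sE s)} {range (sE s), A2} := Ref.of_subset (by simp)
  have r2 : Ref {A2} {range (sE s), A2} := Ref.of_subset (by simp)
  have hv : Eqv {range (sE s), A2} 5 (x ∘ₗ D) 0 := by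
    have h1 : Eqv {range (sE s), A2} 5 (x ∘ₗ D) (sq 1 3 u + cup 2 tE u) := by
      refine hx.mono ?_
      rintro V (rfl | rfl) _
      exacts [⟨_, rfl, hs.sE_mem⟩, ⟨_, rfl, hA2⟩]
    have h2 := (cu_van_left (k := 5) (i := 1) (q := 3) hu u).add (cup_van_right (p := 2) tE hu)
    rw [add_zero] at h2
    exact h1.trans h2
  have m2 : Mp secE {KKᶜ} {A2} := Mp.single (mapsTo_image _ _)
  have c2 : ∀ V ∈ ({KKᶜ} : Set (Set FF.X)), ContinuousOn secE V :=
    fun _ _ => continuous_secE.continuousOn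
  have m1 : Mp (sE s) {univ} {range (sE s)} := Mp.single fun b _ => ⟨b, rfl⟩
  have c1 : ∀ V ∈ ({univ} : Set (Set FB.X)), ContinuousOn (sE s) V :=
    fun _ _ => hs.continuous_sE.continuousOn
  have key := obs3 (t := pb secE tE) (x := pb secE x) (y := pb secE y)
    (ht.pull (PM.abs continuous_secE))
    (isEq_secE.nat_one (ZMod 2) sm_FE sm_FF (inl (inr 1)) (inr 1) fun _ _ => rfl)
    (by
      have := (hv.mono r2).pull c2 m2
      rwa [pb_D continuous_secE] at this)
    (hopf_ne hU hn (hu.mono r2) hD hx) (hy.pull (PM.abs continuous_secE))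
    (by
      have := (hxy.mono r2).pull c2 m2
      rwa [pb_add, pb_cu continuous_secE, pb_cup continuous_secE] at this)
  apply key
  have hc : Cy {univ} ∅ 4 (pb (sE s) x) := by
    refine ⟨?_, Eqv.empty⟩
    have := (hv.mono r1).pull c1 m1
    rwa [pb_D hs.continuous_sE] at this
  have e1 := (hxy.mono r1).pull c1 m1
  rw [pb_add, pb_cu hs.continuous_sE, pb_cup hs.continuous_sE] at e1
  have b2 := Bo.mul_left hs.pb_t hc
  rw [empty_union] at b2
  exact Bo.of_sub (hs.htp hy).symm (((wu hc).add b2).congr e1.symm)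

theorem not_homotopyEquiv : IsEmpty (ContinuousMap.HomotopyEquiv FX.X FY.X) :=
  ⟨fun e => let ⟨s, hs⟩ := exists_isNz e; no_section s hs⟩

end Pool.Agent.Lib.MP_bf05b2_gt
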