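import Pool.Agent.Lib.MP_bf05b2_gt.H57LH

/-! Homotopy equivalences of projective line bundles with the same cohomology ring. -/

set_option linter.unusedSectionVars false

namespace Pool.Agent.Lib.MP_bf05b2_gt

open Set Finsupp Pool.Agent.Shared.Sing Pool.Agent.Shared.SingEZ

variable {B X Y : Type} [TopologicalSpace B] [Nonempty B] [TopologicalSpace X] [Nonempty X]
  [TopologicalSpace Y] [Nonempty Y]

/-- The properties of the base that are used. -/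
structure BaseOk (a η : Cc ℤ B) : Prop where
  cya : Cy {univ} ∅ 2 a
  cyη : Cy {univ} ∅ 4 η
  sq : Bo {univ} ∅ 4 (cup 2 a a)
  zero : ∀ φ : Cc ℤ B, Cy {univ} ∅ 2 φ → Bo {univ} ∅ 4 (cup 2 φ φ) →
    ∃ n : ℤ, Bo {univ} ∅ 2 (φ - n • a)
  h0 : ∀ φ : Cc ℤ B, Cy {univ} ∅ 0 φ → ∃ n : ℤ, Bo {univ} ∅ 0 (φ - n • e1)
  tors : ∀ (n : ℤ) (φ : Cc ℤ B), n ≠ 0 → Cy {univ} ∅ 2 φ → Bo {univ} ∅ 2 (n • φ) →
    Bo {univ} ∅ 2 φ
  span : ∀ φ : Cc ℤ B, Cy {univ} ∅ 6 φ → ∃ n : ℤ, Bo {univ} ∅ 6 (φ - n • cup 2 a η)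
  ind : ∀ n : ℤ, Bo {univ} ∅ 6 (n • cup 2 a η) → n = 0
  top : Triv ℤ {(univ : Set B)} ∅ 8

namespace NHa

open LHa

variable {Z : Type} [TopologicalSpace Z] [Nonempty Z] {a η : Cc ℤ B} {π : X → B} {ζ : Cc ℤ X}

lemma mul_congr {p q n : ℕ} {φ φ' ψ ψ' : Cc ℤ Z} (h : p + q = n) (hφ : Cy {univ} ∅ p φ)
    (hψ : Cy {univ} ∅ q ψ') (h1 : Bo {univ} ∅ p (φ - φ')) (h2 : Bo {univ} ∅ q (ψ - ψ')) :
    Bo {univ} ∅ n (cup p φ ψ - cup p φ' ψ') := by
  simpa only [union_empty, h] using Bo.mul hφ hψ h1 h2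

lemma right_e1 {p : ℕ} {φ γ : Cc ℤ Z} {n : ℤ} (hφ : Cy {univ} ∅ p φ)
    (h : Bo {univ} ∅ 0 (γ - n • e1)) : Bo {univ} ∅ p (cup p φ γ - n • φ) := by
  have h1 := bo_right (n := p) rfl hφ h
  have h2 := ((cup_e1 (T := {univ}) (p := p) φ).bo (S := ∅)).smul n
  rw [cup_sub_right, cup_smul_right] at h1
  rw [smul_sub] at h2
  exact h1.trans h2

lemma left_e1 {p : ℕ} {φ γ : Cc ℤ Z} {n : ℤ} (hφ : Cy {univ} ∅ p φ)
    (h : Bo {univ} ∅ 0 (γ - n • e1)) : Bo {univ} ∅ p (cup 0 γ φ - n • φ) := by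
  have h1 := bo_left (n := p) (zero_add p) h hφ
  have h2 := ((e1_cup (T := {univ}) (k := p) φ).bo (S := ∅)).smul n
  rw [cup_sub_left, cup_smul_left] at h1
  rw [smul_sub] at h2
  exact h1.trans h2

/-- Classes of square zero. -/
lemma sqz (hB : BaseOk a η) (h : LH π ζ) (h2 : Bo {univ} ∅ 4 (cup 2 ζ ζ)) {φ : Cc ℤ X}
    (hφ : Cy {univ} ∅ 2 φ) (hs : Bo {univ} ∅ 4 (cup 2 φ φ)) :
    ∃ l n : ℤ, l * n = 0 ∧ Bo {univ} ∅ 2 (φ - (l • pb π a + n • ζ)) := by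
  obtain ⟨α, γ, c1, c2, c3, c4⟩ := h.span 2 φ hφ
  obtain ⟨n, hn⟩ := hB.h0 γ c2
  have P := PM.abs (T := {(univ : Set X)}) h.cont
  have e1' : Bo {univ} ∅ 2 (cup 2 ζ (pb π γ) - n • ζ) := by
    refine right_e1 h.cy ?_
    simpa only [pb_sub, pb_smul, pb_e1] using hn.pull P
  have f1 := mul_congr (n := 4) rfl hφ (cy_E h.cont h.cy c1 c2 c3) c4 c4
  have f2 := mul_bo (p := 2) (q := 2) (a' := pb π α) h.cy h2 (c1.pull P) (c2.pull P) (pb0 π c3)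
    (c2.pull P) (pb0 π c3)
  have f3 : Bo {univ} ∅ 4 (pb π (cup 2 α α) + cup 2 ζ (pb π (cup 0 γ α + cup 2 α γ))) := by
    simp only [pb_add, pb_cup h.cont]
    exact (f1.trans f2).symm.of_sub hs
  obtain ⟨g1, g2⟩ := h.ind 4 _ _ (cy_mul rfl c1 c1)
    ((cy_mul (n := 2) rfl c2 c1).add (cy_mul (n := 2) rfl c1 c2)) (by omega) f3
  have g3 : Bo {univ} ∅ 2 ((2 * n) • α) := by
    have := (g2.sub (left_e1 c1 hn)).sub (right_e1 c1 hn)
    convert this using 1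
    module
  have key : ∀ l : ℤ, Bo {univ} ∅ 2 (α - l • a) → Bo {univ} ∅ 2 (φ - (l • pb π a + n • ζ)) :=
    fun l hl => by
      have := (c4.add (hl.pull P)).add e1'
      convert this using 1
      rw [pb_sub, pb_smul]
      abel
  by_cases hn0 : n = 0
  · obtain ⟨l, hl⟩ := hB.zero α c1 g1
    exact ⟨l, n, by rw [hn0, mul_zero], key l hl⟩
  · refine ⟨0, n, zero_mul n, key 0 ?_⟩
    rw [zero_smul, sub_zero]
    exact hB.tors (2 * n) α (by omega) c1 g3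

/-- The product of two such classes. -/
lemma prod2 {u : Cc ℤ X} (hu : Cy {univ} ∅ 2 u) (hζ : Cy {univ} ∅ 2 ζ)
    (u2 : Bo {univ} ∅ 4 (cup 2 u u)) (h2 : Bo {univ} ∅ 4 (cup 2 ζ ζ)) (l n l' n' : ℤ) :
    Bo {univ} ∅ 4 (cup 2 (l • u + n • ζ) (l' • u + n' • ζ) - (n * l' + l * n') • cup 2 ζ u) := by
  have h1 : Bo {univ} ∅ 4 (cup 2 u ζ - cup 2 ζ u) := by
    have := cup_comm hu hζ
    rwa [union_empty, pow_mul', neg_one_sq, one_pow, one_smul] at this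
  have := ((u2.smul (l * l')).add (h2.smul (n * n'))).add (h1.smul (l * n'))
  convert this using 1
  simp only [cup_add_left, cup_add_right, cup_smul_left, cup_smul_right]
  module

/-- Multiplying by a class of degree four. -/
lemma top_mul (hB : BaseOk a η) (h : LH π ζ) (h2 : Bo {univ} ∅ 4 (cup 2 ζ ζ)) {θ : Cc ℤ X}
    (hθ : Cy {univ} ∅ 4 θ) : ∃ m : ℤ, Bo {univ} ∅ 8
      (cup 4 (cup 2 ζ (pb π a)) θ - m • cup 2 ζ (pb π (cup 2 a η))) := by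
  obtain ⟨α, γ, c1, c2, c3, c4⟩ := h.span 4 θ hθ
  obtain ⟨m, hm⟩ := hB.span _ (cy_mul rfl hB.cya c1)
  have P := PM.abs (T := {(univ : Set X)}) h.cont
  have hu := hB.cya.pull P
  have f1 := bo_right (n := 8) rfl (cy_mul (n := 4) rfl h.cy hu) c4
  have f2 := bo_right (n := 8) rfl h.cy (hm.pull P)
  have f3 := bo_right (n := 8) rfl h.cy (swap (n := 6) rfl h.cy hu (c2.pull P))
  have f4 := bo_left (n := 8) rfl h2 (cy_mul (n := 4) rfl hu (c2.pull P))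
  have a1 : ∀ x y z : Cc ℤ X, cup 4 (cup 2 x y) z = cup 2 x (cup 2 y z) := cup_assoc 2 2
  refine ⟨m, ?_⟩
  have := ((f1.add f2).add f3).add f4
  convert this using 1
  simp only [a1, cup_sub_right, cup_add_right, pb_sub, pb_smul, cup_smul_right, pb_cup h.cont]
  abel

/-- Classes of degree eight. -/
lemma top_span (hB : BaseOk a η) (h : LH π ζ) {θ : Cc ℤ X} (hθ : Cy {univ} ∅ 8 θ) :
    ∃ m : ℤ, Bo {univ} ∅ 8 (θ - m • cup 2 ζ (pb π (cup 2 a η))) := by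
  obtain ⟨α, γ, c1, c2, c3, c4⟩ := h.span 8 θ hθ
  obtain ⟨m, hm⟩ := hB.span γ c2
  have P := PM.abs (T := {(univ : Set X)}) h.cont
  refine ⟨m, ?_⟩
  have := (c4.add ((hB.top α c1).pull P)).add (bo_right (n := 8) rfl h.cy (hm.pull P))
  convert this using 1
  simp only [cup_sub_right, pb_sub, pb_smul, cup_smul_right]
  abel

lemma top_ind (hB : BaseOk a η) (h : LH π ζ) {m : ℤ}
    (hm : Bo {univ} ∅ 8 (m • cup 2 ζ (pb π (cup 2 a η)))) : m = 0 := by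
  refine hB.ind m (h.ind 8 0 _ Cy.zero ((cy_mul (n := 6) rfl hB.cya hB.cyη).smul m)
    (by omega) ?_).2
  rwa [pb_zero, zero_add, pb_smul, cup_smul_right]

lemma arith {l n l' n' m : ℤ} (h : l * n = 0) (h' : l' * n' = 0)
    (hm : (n * l' + l * n') * m = 1) :
    (l + l' = 1 ∨ l + l' = -1) ∧ (l - l' = 1 ∨ l - l' = -1) := by
  rcases mul_eq_zero.1 h with h | h
  · rw [h, zero_mul, add_zero, mul_comm n, mul_assoc] at hm
    rcases Int.eq_one_or_neg_one_of_mul_eq_one hm with h1 | h1 <;> omega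
  · rw [h, zero_mul, zero_add] at hm
    have h0 : l' = 0 := (mul_eq_zero.1 h').resolve_right fun h0 => by simp [h0] at hm
    rw [mul_assoc] at hm
    rcases Int.eq_one_or_neg_one_of_mul_eq_one hm with h1 | h1 <;> omega

end NHa

theorem nh_abs {a η : Cc ℤ B} (hB : BaseOk a η) {π : X → B} {π' : Y → B} {ζ : Cc ℤ X}
    {ζ' : Cc ℤ Y} (h : LH π ζ) (h' : LH π' ζ') (h2 : Bo {univ} ∅ 4 (cup 2 ζ ζ))
    (h2' : Bo {univ} ∅ 4 (cup 2 ζ' ζ')) {f : X → Y} {g : Y → X} {H : X × ℝ → X}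
    (hf : Continuous f) (hg : Continuous g) (hH : Continuous H) (h0 : ∀ x, H (x, 0) = x)
    (h1 : ∀ x, H (x, 1) = g (f x)) {i : B → X} (hi : Continuous i) (hπ : ∀ b, π (i b) = b)
    (hζ : Bo {univ} ∅ 2 (pb i ζ)) :
    ∃ l l' : ℤ, (l + l' = 1 ∨ l + l' = -1) ∧ (l - l' = 1 ∨ l - l' = -1) ∧
      Bo {univ} ∅ 2 (pb (f ∘ i) ζ' - l • a) ∧ Bo {univ} ∅ 2 (pb (f ∘ i) (pb π' a) - l' • a) := by
  have Pf := PM.abs (T := {(univ : Set X)}) hf
  have P := PM.abs (T := {(univ : Set X)}) h.cont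
  have P' := PM.abs (T := {(univ : Set Y)}) h'.cont
  have Pi := PM.abs (T := {(univ : Set B)}) hi
  have c1 := h'.cy.pull Pf
  have c2 := (hB.cya.pull P').pull Pf
  have c3 := (hB.cyη.pull P').pull Pf
  have hu := hB.cya.pull P
  obtain ⟨l, n, e1, b1⟩ := NHa.sqz hB h h2 c1 (by rw [← pb_cup hf]; exact h2'.pull Pf)
  obtain ⟨l', n', e2, b2⟩ := NHa.sqz hB h h2 c2 (by
    rw [← pb_cup hf, ← pb_cup h'.cont]; exact (hB.sq.pull P').pull Pf)
  obtain ⟨m', hm'⟩ := NHa.top_mul hB h h2 c3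
  have cω := LHa.cy_mul (n := 8) rfl h.cy ((LHa.cy_mul (n := 6) rfl hB.cya hB.cyη).pull P)
  obtain ⟨m, hm⟩ := NHa.top_span hB h' (cω.pull (PM.abs hg))
  have f1 := cω.htp (H := H) (T := {univ}) (S := ∅) ⟨fun _ _ => hH.continuousOn,
    fun _ _ => hH.continuousOn, fun _ _ _ => ⟨_, rfl, mapsTo_univ _ _⟩, fun _ hU => hU.elim⟩
  rw [show (fun y => H (y, 1)) = g ∘ f from funext h1, show (fun y => H (y, 0)) = id from funext h0,
    pb_id, ← pb_pb hf] at f1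
  have f2 := hm.pull Pf
  have f3 := (NHa.mul_congr (n := 4) rfl c1 ((hu.smul l').add (h.cy.smul n')) b1 b2).trans
    (NHa.prod2 hu h.cy (by rw [← pb_cup h.cont]; exact hB.sq.pull P) h2 l n l' n')
  have f4 := LHa.bo_left (n := 8) rfl f3 c3
  have a1 : ∀ x y z : Cc ℤ X, cup 4 (cup 2 x y) z = cup 2 x (cup 2 y z) := cup_assoc 2 2
  have f5 : 1 - (n * l' + l * n') * (m' * m) = 0 := by
    refine NHa.top_ind hB h ?_
    have := ((f2.sub f1).add (f4.smul m)).add (hm'.smul (m * (n * l' + l * n')))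
    convert this using 1
    simp only [pb_sub, pb_smul, pb_cup hf, pb_cup h'.cont, cup_sub_left, cup_smul_left, a1]
    module
  obtain ⟨r1, r2⟩ := NHa.arith e1 e2 (sub_eq_zero.1 f5).symm
  have ia : pb i (pb π a) = a := by
    rw [pb_pb hi, show π ∘ i = id from funext hπ, pb_id]
  have key : ∀ (φ : Cc ℤ Y) (l n : ℤ), Bo {univ} ∅ 2 (pb f φ - (l • pb π a + n • ζ)) →
      Bo {univ} ∅ 2 (pb (f ∘ i) φ - l • a) := fun φ l n hb => by
    have := (hb.pull Pi).add (hζ.smul n)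
    convert this using 1
    rw [pb_sub, pb_add, pb_smul, pb_smul, ia, pb_pb hi]
    abel
  exact ⟨l, l', r1, r2, key _ l n b1, key _ l' n' b2⟩

end Pool.Agent.Lib.MP_bf05b2_gt
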