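import Pool.Agent.Lib.MP_bf05b2_gt.H57Chern
import Pool.Agent.Lib.MP_bf05b2_gt.H57GB

/-! A line bundle with vanishing Chern class has a section without zeros. -/

namespace Pool.Agent.Lib.MP_bf05b2_gt

open Set Finsupp Pool.Agent.Shared.Sing Pool.Agent.Shared.SingEZ

variable {P X : Type*} [TopologicalSpace P] [Nonempty P] [TopologicalSpace X] [Nonempty X]

namespace Trv

open Topology Filter

omit [Nonempty X] in
/-- A function whose increments along paths are those of a logarithm is continuous. -/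
lemma cont_of_inc [LocallyPathConnectedSpace X] {O : Set X} (hO : IsOpen O) {g L : X → ℂ}
    (hg : ContinuousOn g O) (h0 : ∀ x ∈ O, g x ≠ 0)
    (hL : ∀ (x y : X) (γ : Path x y), (∀ t, γ t ∈ O) → ∀ l : ℝ → ℂ, Continuous l →
      (∀ t, Complex.exp (l t) = g (γ.extend t)) → L y - L x = l 1 - l 0) : ContinuousOn L O := by
  intro x hx
  have hq : ContinuousOn (fun y => g y / g x) O := hg.div_const _
  have h1 : g x / g x ∈ Complex.slitPlane := by
    rw [div_self (h0 x hx)]; exact Complex.one_mem_slitPlane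
  have hqx := hq.continuousAt (hO.mem_nhds hx)
  have hU : O ∩ {y | g y / g x ∈ Complex.slitPlane} ∈ 𝓝 x :=
    inter_mem (hO.mem_nhds hx) (hqx.preimage_mem_nhds (Complex.isOpen_slitPlane.mem_nhds h1))
  refine ContinuousAt.continuousWithinAt ?_
  refine ((continuousAt_const (y := L x)).add (hqx.clog h1)).congr ?_
  filter_upwards [pathComponentIn_mem_nhds hU] with y hy
  obtain ⟨γ, hγ⟩ := hy
  have hm : ∀ t, γ.extend t ∈ O ∩ {y | g y / g x ∈ Complex.slitPlane} := fun t => hγ _
  have := hL x y γ (fun t => (hγ t).1)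
    (fun t => Complex.log (g x) + Complex.log (g (γ.extend t) / g x))
    (continuous_const.add ((hq.comp_continuous γ.continuous_extend fun t => (hm t).1).clog
      fun t => (hm t).2)) fun t => by
      rw [Complex.exp_add, Complex.exp_log (h0 x hx),
        Complex.exp_log (div_ne_zero (h0 _ (hm t).1) (h0 x hx)), mul_div_cancel₀ _ (h0 x hx)]
  simp only [Path.extend_one, Path.extend_zero, div_self (h0 x hx), Complex.log_one] at this
  simp only [Pi.add_apply]
  linear_combination -this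

lemma aff0 : aff [(0 : ℝ), 1] (Pi.single 0 1) = 0 := by simp [aff_apply, Finset.sum_range_succ]

lemma aff1 : aff [(0 : ℝ), 1] (Pi.single 1 1) = 1 := by simp [aff_apply, Finset.sum_range_succ]

/-- The edge of `P` given by a local section along a path. -/
lemma edge {W : Set X} {s : X → P} (hs : ContinuousOn s W) {x y : X} (γ : Path x y)
    (hγ : ∀ t, γ t ∈ W) : ∃ e : Sx P, e.n = 2 ∧ map s (pc ℤ γ) = single e 1 ∧
      ∀ t ∈ Δ 2, e.f t = s (γ.extend (aff [(0 : ℝ), 1] t)) := by
  refine ⟨mk 2 ((s ∘ γ.extend) ∘ aff [(0 : ℝ), 1]), rfl, ?_, fun t ht => ?_⟩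
  · rw [pc, map_glob γ.continuous_extend, real_single]
    rfl
  · exact mk_f ((hs.comp_continuous γ.continuous_extend fun t => hγ _).comp
      (continuous_aff _)).continuousOn ht

end Trv

theorem exists_sec [CompactSpace X] [T2Space X] [LocallyPathConnectedSpace X] {π : P → X}
    {d : P → P → ℂ} {τ : Cc ℤ X} (hπ : Continuous π) (hd : IsD π d) (h : IsTau π d 0 τ)
    (hb : Bo {univ} ∅ 2 τ)
    (hloc : ∀ x, ∃ (W : Set X) (s : X → P), IsOpen W ∧ x ∈ W ∧ ContinuousOn s W ∧
      (∀ y ∈ W, π (s y) = y) ∧ Triv ℤ {W} ∅ 1) :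
    ∃ Φ, IsSec π d Φ ∧ ∀ p, Φ p ≠ 0 := by
  obtain ⟨θ, k, h1, -, h3, h4, -⟩ := h
  obtain ⟨ψ, -, hψ⟩ := hb
  choose W s hW hxW hs hπs hT using hloc
  have hN : ∀ a, ∃ N : X → ℤ, ∀ (x y : X) (γ : Path x y), (∀ t, γ t ∈ W a) →
      θ (map (s a) (pc ℤ γ)) - ψ (pc ℤ γ) = N y - N x := by
    intro a
    have hc : Cy {W a} ∅ 1 (pb (s a) θ - ψ) := by
      refine ⟨fun c hc => ?_, Eqv.empty⟩
      rw [Ch'_single] at hc
      have e1 := h3 _ (map_In (hs a) (mapsTo_univ _ _) hc)
      rw [map_map (hs a) hc, map_self (g := π ∘ s a) (fun y hy => hπs a y hy) hc, ← map_D (hs a) hc] at e1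
      have e2 := hψ c (by rw [Ch'_single]; exact In_univ hc)
      simp only [LinearMap.comp_apply, LinearMap.sub_apply, pb, LinearMap.zero_apply] at e2 ⊢
      rw [← e1, e2, sub_self]
    obtain ⟨n, -, hn⟩ := hT a _ hc
    refine ⟨fun y => n (pt ℤ y), fun x y γ hγ => ?_⟩
    have := hn (pc ℤ γ) (by rw [Ch'_single]; exact pc_In hγ)
    simpa only [LinearMap.comp_apply, LinearMap.sub_apply, pb, D_pc, map_sub] using this
  choose N hN using hN
  set Λ : X → X → ℂ := fun a y => k (s a y) + N a y * (2 * Real.pi * Complex.I) with hΛ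
  have hds : ∀ a b, ContinuousOn (fun y => d (s a y) (s b y)) (W a ∩ W b) := fun a b =>
    hd.cont.comp (((hs a).mono inter_subset_left).prodMk ((hs b).mono inter_subset_right))
      fun y hy => (hπs a y hy.1).trans (hπs b y hy.2).symm
  have hL : ∀ a b, ContinuousOn (fun y => Λ a y - Λ b y) (W a ∩ W b) := by
    intro a b
    refine Trv.cont_of_inc ((hW a).inter (hW b)) (hds a b) (fun y hy => ?_) fun x y γ hγ l hl he => ?_
    · rw [← h1 _ _ ((hπs a y hy.1).trans (hπs b y hy.2).symm)]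
      exact Complex.exp_ne_zero _
    obtain ⟨e, en, e1, e2⟩ := Trv.edge (hs a) γ fun t => (hγ t).1
    obtain ⟨e', en', e1', e2'⟩ := Trv.edge (hs b) γ fun t => (hγ t).2
    have hm : ∀ t, γ.extend t ∈ W a ∩ W b := fun t => hγ _
    have k1 := h4 e e' en en' (fun t ht => by
      simp only [Function.comp_apply, e2 t ht, e2' t ht, hπs a _ (hm _).1, hπs b _ (hm _).2])
      (l ∘ aff [(0 : ℝ), 1]) (hl.comp (continuous_aff _)).continuousOn fun t ht => by
      rw [e2 t ht, e2' t ht]
      exact he _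
    have m0 : (Pi.single 0 1 : V) ∈ Δ 2 := single_mem_Δ (by omega)
    have m1 : (Pi.single 1 1 : V) ∈ Δ 2 := single_mem_Δ (by omega)
    simp only [inc, Function.comp_apply, e2 _ m0, e2 _ m1, e2' _ m0, e2' _ m1, Trv.aff0, Trv.aff1,
      Path.extend_one, Path.extend_zero] at k1
    have k2 := congrArg (Int.cast : ℤ → ℂ) (hN a x y γ fun t => (hγ t).1)
    have k3 := congrArg (Int.cast : ℤ → ℂ) (hN b x y γ fun t => (hγ t).2)
    rw [e1] at k2
    rw [e1'] at k3
    push_cast at k2 k3
    simp only [hΛ]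
    linear_combination k1 - 2 * Real.pi * Complex.I * (k2 - k3)
  obtain ⟨t, -, ht⟩ := isCompact_univ.elim_nhds_subcover W fun x _ => (hW x).mem_nhds (hxW x)
  obtain ⟨ρ, hρ⟩ := PartitionOfUnity.exists_isSubordinate isClosed_univ (fun b : t => W b)
    (fun b => hW b) fun y hy => by
      obtain ⟨b, hb, h⟩ := mem_iUnion₂.1 (ht hy)
      exact mem_iUnion.2 ⟨⟨b, hb⟩, h⟩
  have hρ1 : ∀ y, ∑ b : t, (ρ b y : ℂ) = 1 := fun y => by
    have := ρ.sum_eq_one (mem_univ y)
    rw [finsum_eq_sum_of_fintype] at this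
    exact_mod_cast this
  refine ⟨fun p => Complex.exp (k p - ∑ b : t, ρ b (π p) * Λ b (π p)),
    ⟨continuous_iff_continuousAt.2 fun p => ?_, fun p p' hp => ?_⟩, fun p => Complex.exp_ne_zero _⟩
  · set a := π p with ha
    have hn : π ⁻¹' W a ∈ nhds p := hπ.continuousAt.preimage_mem_nhds ((hW a).mem_nhds (hxW a))
    have c1 : ContinuousOn (fun q => d q (s a (π q))) (π ⁻¹' W a) :=
      hd.cont.comp (continuousOn_id.prodMk ((hs a).comp hπ.continuousOn fun q hq => hq))
        fun q hq => (hπs a _ hq).symm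
    have c2 : ∀ b : t, ContinuousAt (fun y => (ρ b y : ℂ) * (Λ a y - Λ b y)) a := by
      intro b
      by_cases hb : a ∈ W b
      · exact (Complex.continuous_ofReal.comp (ρ b).continuous).continuousAt.mul
          ((hL a b).continuousAt (((hW a).inter (hW b)).mem_nhds ⟨hxW a, hb⟩))
      · refine (continuousAt_const (y := (0 : ℂ))).congr ?_
        filter_upwards [notMem_tsupport_iff_eventuallyEq.1 fun h => hb (hρ b h)] with y hy
        simp [hy]
    have c3 : ContinuousAt (fun q => ∑ b : t, (ρ b (π q) : ℂ) * (Λ a (π q) - Λ b (π q))) p :=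
      ContinuousAt.comp (f := π) (g := fun y => ∑ b : t, (ρ b y : ℂ) * (Λ a y - Λ b y))
        (tendsto_finsetSum _ fun b _ => c2 b) hπ.continuousAt
    refine ((c1.continuousAt hn).mul c3.cexp).congr ?_
    filter_upwards [hn] with q hq
    simp only [Pi.mul_apply, mul_sub, Finset.sum_sub_distrib, ← Finset.sum_mul, hρ1, one_mul]
    rw [← h1 _ _ (hπs a _ hq).symm, ← Complex.exp_add,
      ← mul_one (Complex.exp (k q - ∑ b : t, ρ b (π q) * Λ b (π q))),
      ← Complex.exp_int_mul_two_pi_mul_I (N a (π q)), ← Complex.exp_add]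
    congr 1
    simp only [hΛ]
    ring
  · rw [← h1 p p' hp, ← Complex.exp_add, hp]
    congr 1
    ring

end Pool.Agent.Lib.MP_bf05b2_gt
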