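import Pool.Agent.Lib.MP_bf05b2_gt.H57Norm
import Pool.Agent.Lib.MP_bf05b2_gt.H57Triv

/-! From a map to a toric variety to an equivariant pair of functions without common zero. -/

set_option linter.unusedSectionVars false

namespace Pool.Agent.Lib.MP_bf05b2_gt

open Set Finsupp Pool.Agent.Shared.Sing Pool.Agent.Shared.SingEZ

namespace Fan

variable {ι κ ι' κ' : Type} [Fintype ι] [DecidableEq ι] [Fintype κ] [DecidableEq κ] [Fintype ι']
  [DecidableEq ι'] [Fintype κ'] [DecidableEq κ'] {F : Fan ι κ} {F' : Fan ι' κ'}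
  {L : List (Step ι κ)}

/-- A set theoretic section of the Cox quotient, continuous over a chart. -/
lemma sect_local (h' : F'.Sm) (x : F'.X) : ∃ (O : Set F'.X) (y : F'.X → F'.U), IsOpen O ∧ x ∈ O ∧
    (∀ u, F'.π (y u) = u) ∧ ContinuousOn y O := by
  classical
  obtain ⟨e, M, hc, hx⟩ := h'.exists_chart x
  refine ⟨_, fun u => if u ∈ F'.W (Finset.univ.image e) then ⟨sec e (F'.φ M u), hc.sec_mem _⟩
    else Quotient.out u, isOpen_W _, hx, fun u => ?_, ?_⟩
  · dsimp only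
    split_ifs with hu
    · rw [← cl_π]
      exact hc.ψ_φ hu
    · exact Quotient.out_eq u
  · refine ContinuousOn.congr (f := fun u => (⟨sec e (F'.φ M u), hc.sec_mem _⟩ : F'.U)) ?_
      fun u hu => if_pos hu
    exact Topology.IsInducing.subtypeVal.continuousOn_iff.2
      ((continuous_sec e).comp_continuousOn hc.continuousOn_φ)

lemma sect_core (h : F.Good L) (h' : F'.Sm) {f : F.X → F'.X} (hf : Continuous f) (j : ι')
    (n : ι → ℤ) (ε : ℤ)
    (hb : Bo {univ} ∅ 2 (pb f (F'.tR ℤ j) - ε • ∑ i, n i • F.tR ℤ i)) :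
    ∃ s : (ι → ℂ) → ℂ, ContinuousOn s F.U ∧ (∀ z ∈ F.U, f (F.cl z) ∈ F'.nz j → s z ≠ 0) ∧
      ∀ g ∈ F.G, ∀ z ∈ F.U, s (g * z) = (∏ i, g i ^ n i) ^ ε * s z := by
  classical
  let P : Type := {p : F.U × F'.U // F'.π p.2 = f (F.π p.1)}
  let a : P → F.U := fun p => p.1.1
  let b : P → F'.U := fun p => p.1.2
  let l : F.U → P := fun z => ⟨(z, Quotient.out (f (F.π z))), Quotient.out_eq _⟩
  have : Nonempty P := ⟨l ⟨1, F.one_mem_U⟩⟩
  have ha : Continuous a := continuous_fst.comp continuous_subtype_val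
  have hb' : Continuous b := continuous_snd.comp continuous_subtype_val
  have hπ : Continuous (F.π ∘ a) := continuous_π.comp ha
  have hloc : ∀ x : F'.X, ∃ (O : Set F'.X) (t : F.U → P), IsOpen O ∧ x ∈ O ∧ (∀ z, a (t z) = z) ∧
      ContinuousOn t ((f ∘ F.π) ⁻¹' O) := fun x => by
    obtain ⟨O, y, h1, h2, h3, h4⟩ := sect_local h' x
    refine ⟨O, fun z => ⟨(z, y (f (F.π z))), h3 _⟩, h1, h2, fun _ => rfl, ?_⟩
    exact Topology.IsInducing.subtypeVal.continuousOn_iff.2 (continuousOn_id.prodMk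
      (h4.comp (hf.comp continuous_π).continuousOn fun _ hz => hz))
  have d1 : IsD (F.π ∘ a) fun p p' => F'.dv (b p) (b p') j :=
    (h'.isD j).comp (f := f) hb' fun p => p.2
  have d2 : IsD (F.π ∘ a) fun p p' => ∏ i, F.dv (a p) (a p') i ^ n i :=
    (isD_prod Finset.univ n h.sm.isD).comp (f := id) ha fun _ => rfl
  have t1 := ((h'.isTau j).pull (π' := F.π ∘ a) hπ hb' hf fun p => p.2).weak
  have t2 := ((isTau_sum Finset.univ n h.sm.isD fun i => (h.sm.isTau i).weak).pull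
    (π' := F.π ∘ a) hπ ha continuous_id fun _ => rfl).weak
  rw [pb_id] at t2
  simp only [tR_int] at hb
  rw [sub_eq_add_neg, ← neg_smul] at hb
  have := h.compact
  have := h.t2
  have := h.sm.locPC
  obtain ⟨Φ, hΦ, h0⟩ := exists_sec hπ (d1.prod (d2.zpow (-ε))) (t1.plus d1 (t2.zsmul d2 (-ε))) hb
    fun x => by
      obtain ⟨O, t, h1, h2, h3, h4⟩ := hloc (f x)
      obtain ⟨W, s, w1, w2, w3, w4, w5, w6⟩ := h.sm.exists_nhds (h1.preimage hf) h2
      refine ⟨W, t ∘ s, w1, w2, h4.comp w4 fun y hy => ?_, fun y hy => ?_, w6⟩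
      · change f (F.π (s y)) ∈ O
        rw [w5 y hy]
        exact w3 hy
      · change F.π (a (t (s y))) = y
        rw [h3, w5 y hy]
  let q : P → ℂ := fun p => (b p).1 j / Φ p
  have hq : Continuous q := ((lift_cont j).comp hb').div hΦ.cont h0
  have hqe : ∀ p p', F.π (a p) = F.π (a p') →
      q p = (∏ i, F.dv (a p) (a p') i ^ n i) ^ ε * q p' := fun p p' e => by
    have e' : F'.π (b p) = F'.π (b p') := p.2.trans ((congrArg f e).trans p'.2.symm)
    have n1 := d1.ch_ne (p := p) (p' := p') e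
    have n2 := zpow_ne_zero ε (d2.ch_ne (p := p) (p' := p') e)
    have n3 := h0 p'
    have e1 : (b p).1 j = F'.dv (b p) (b p') j * (b p').1 j := congrFun (dv_spec e').2 j
    have e2 := hΦ.eqv p p' e
    simp only [q]
    rw [e1, e2, zpow_neg]
    field_simp
  have hql : ∀ p, q (l (a p)) = q p := fun p => by
    have h1 : ∏ i, F.dv (a p) (a p) i ^ n i = 1 := d2.refl p
    rw [hqe (l (a p)) p rfl]
    change (∏ i, F.dv (a p) (a p) i ^ n i) ^ ε * q p = q p
    rw [h1, one_zpow, one_mul]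
  obtain ⟨s, hs⟩ : ∃ s : (ι → ℂ) → ℂ, ∀ z (hz : z ∈ F.U), s z = q (l ⟨z, hz⟩) :=
    ⟨fun z => if hz : z ∈ F.U then q (l ⟨z, hz⟩) else 0, fun z hz => dif_pos hz⟩
  refine ⟨s, ?_, fun z hz h1 => ?_, fun g hg z hz => ?_⟩
  · rw [continuousOn_iff_continuous_domRestrict]
    have h1 : Continuous fun z : F.U => q (l z) := by
      refine continuous_iff_continuousAt.2 fun z => ?_
      obtain ⟨O, t, h1, h2, h3, h4⟩ := hloc (f (F.π z))
      have h5 : (fun z : F.U => q (l z)) = q ∘ t := funext fun w => by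
        rw [Function.comp_apply, ← hql (t w), h3]
      rw [h5]
      exact hq.continuousAt.comp
        (h4.continuousAt ((h1.preimage (hf.comp continuous_π)).mem_nhds h2))
    exact h1.congr fun z => (hs z.1 z.2).symm
  · rw [hs z hz]
    refine div_ne_zero (h1 _ ?_) (h0 _)
    exact (l ⟨z, hz⟩).2.trans (congrArg f (cl_π ⟨z, hz⟩).symm)
  · have hgz := mul_mem_U hg.1 hz
    rw [hs z hz, hs _ hgz, hqe (l ⟨g * z, hgz⟩) (l ⟨z, hz⟩)]
    · rw [h.sm.dv_eq (z := ⟨g * z, hgz⟩) (w := ⟨z, hz⟩) hg rfl]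
    · change F.π ⟨g * z, hgz⟩ = F.π ⟨z, hz⟩
      rw [← cl_π, ← cl_π]
      exact cl_mul hg hz

/-- The pullback of a coordinate section, as an equivariant function. -/
theorem Good.exists_fun (h : F.Good L) (h' : F'.Sm) {f : F.X → F'.X} (hf : Continuous f) (j : ι')
    (n : ι → ℤ) {ε : ℤ} (hε : ε = 1 ∨ ε = -1)
    (hb : Bo {univ} ∅ 2 (pb f (F'.tR ℤ j) - ε • ∑ i, n i • F.tR ℤ i)) :
    ∃ s : (ι → ℂ) → ℂ, ContinuousOn s F.U ∧ (∀ z ∈ F.U, f (F.cl z) ∈ F'.nz j → s z ≠ 0) ∧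
      ∀ g ∈ F.G, ∀ z ∈ F.U, s (g * z) = (∏ i, g i ^ n i) * s z := by
  obtain ⟨s, h1, h2, h3⟩ := sect_core h h' hf j n ε hb
  rcases hε with rfl | rfl
  · exact ⟨s, h1, h2, fun g hg z hz => by rw [h3 g hg z hz, zpow_one]⟩
  obtain ⟨N, hN⟩ := h.exists_N
  have n1 : ∀ z ∈ F.U, ∀ i, (N z i : ℂ) ≠ 0 := fun z hz i =>
    Complex.ofReal_ne_zero.2 (hN.pos z hz i).ne'
  refine ⟨fun z => (starRingEnd ℂ) (s z) * (∏ i, (N z i : ℂ) ^ n i) ^ 2, ?_, fun z hz h4 => ?_,
    fun g hg z hz => ?_⟩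
  · refine (Complex.continuous_conj.comp_continuousOn h1).mul
      ((continuousOn_finsetProd _ fun i _ => ?_).pow 2)
    exact (Complex.continuous_ofReal.comp_continuousOn (continuousOn_pi.1 hN.cont i)).zpow₀ _
      fun z hz => Or.inl (n1 z hz i)
  · exact mul_ne_zero ((map_ne_zero _).2 (h2 z hz h4))
      (pow_ne_zero _ (Finset.prod_ne_zero_iff.2 fun i _ => zpow_ne_zero _ (n1 z hz i)))
  · have c0 : ∏ i, g i ^ n i ≠ 0 := Finset.prod_ne_zero_iff.2 fun i _ => zpow_ne_zero _ (hg.1 i)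
    have c1 : ∏ i, (N (g * z) i : ℂ) ^ n i =
        ((‖∏ i, g i ^ n i‖ : ℝ) : ℂ) * ∏ i, (N z i : ℂ) ^ n i := by
      simp only [hN.mul z hz g hg, norm_prod, norm_zpow]
      push_cast
      simp only [mul_zpow, Finset.prod_mul_distrib]
    have c2 := (map_ne_zero (starRingEnd ℂ)).2 c0
    dsimp only
    rw [h3 g hg z hz, c1, mul_pow, ← Complex.mul_conj', zpow_neg_one, map_mul, map_inv₀]
    field_simp

end Fan

end Pool.Agent.Lib.MP_bf05b2_gt
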