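import Pool.Agent.Lib.MP_bf05b2_gt.H57Alg
import Pool.Agent.Lib.MP_bf05b2_gt.H57NH
import Pool.Agent.Lib.MP_bf05b2_gt.H57Sect

/-! The two fourfolds: isomorphic rings; a homotopy equivalence gives a section without zeros. -/

set_option linter.unusedSectionVars false

namespace Pool.Agent.Lib.MP_bf05b2_gt

open Set Finsupp Pool.Agent.Shared.Sing Pool.Agent.Shared.SingEZ Sum Fan

/-- A graded basis over the integers excludes torsion. -/
lemma ring_tors {Y J : Type} [TopologicalSpace Y] [Nonempty Y] [Fintype J] {β : J → Cc ℤ Y}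
    {d : J → ℕ} (h : GB {univ} ∅ β d) {k : ℕ} {n : ℤ} {φ : Cc ℤ Y} (hn : n ≠ 0)
    (hφ : Cy {univ} ∅ k φ) (hb : Bo {univ} ∅ k (n • φ)) : Bo {univ} ∅ k φ := by
  obtain ⟨r, hr, h1⟩ := h.span k φ hφ
  have h2 : Bo {univ} ∅ k (∑ j, (n * r j) • β j) := by
    have h3 := hb.sub (h1.smul n)
    have e : n • φ - n • (φ - ∑ j, r j • β j) = ∑ j, (n * r j) • β j := by
      rw [smul_sub, sub_sub_cancel, Finset.smul_sum]
      exact Finset.sum_congr rfl fun j _ => smul_smul _ _ _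
    exact e ▸ h3
  have h4 := h.ind k (fun j => n * r j) (fun j hj => by rw [hr j hj, mul_zero]) h2
  have h5 : ∀ j, r j = 0 := fun j => (mul_eq_zero.1 (h4 j)).resolve_left hn
  simpa [h5] using h1

lemma ring_first : ∀ i : Fin LB.length, LB[i].r.length = 0 → i.1 = 0 := by decide +kernel

theorem baseOk : BaseOk (aC ℤ) (cup 2 (FB.tR ℤ 1) (FB.tR ℤ 2)) where
  cya := cy_aC ℤ
  cyη := LHa.cy_mul rfl (sm_FB.cy' ℤ 1) (sm_FB.cy' ℤ 2)
  sq := a_sq
  zero := fun _ h h2 => sq_zero h h2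
  h0 := fun φ hφ => by
    have h0 : 0 < LB.length := by decide
    exact (shl_FB.gb ℤ).span_one ⟨0, h0⟩
      (fun i hi => Fin.ext (ring_first i (by
        have : 2 * LB[i].r.length = 0 := hi
        omega))) hφ
  tors := fun _ _ hn hφ hb => ring_tors (shl_FB.gb ℤ) hn hφ hb
  span := fun φ hφ => by
    obtain ⟨r, hr⟩ := top_span hφ
    refine ⟨r, ?_⟩
    have h := hr.sub ((a_top (R := ℤ)).smul r)
    rwa [smul_sub, sub_sub_sub_cancel_right] at h
  ind := fun n hn => by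
    have h := hn.sub ((a_top (R := ℤ)).smul n)
    rw [smul_sub, sub_sub_cancel] at h
    exact top_ind h
  top := triv_FB ℤ (Or.inr (by norm_num))

section pb1

variable {ι κ : Type} [Fintype ι] [DecidableEq ι] [Fintype κ] [DecidableEq κ] {F : Fan ι κ}
  {h : ι → ℤ} {w : κ → ℤ}

lemma ring_lin (hs : (F.pb1 h w).Sm) : Bo {univ} ∅ 2
    (∑ i, h i • (F.pb1 h w).tR ℤ (inl i) +
      ((F.pb1 h w).tR ℤ (inr 0) - (F.pb1 h w).tR ℤ (inr 1))) := by
  have h1 := hs.lin ℤ fun k => k.elim 1 0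
  rw [Fintype.sum_sum_type, Fin.sum_univ_two] at h1
  have e : ∀ i, ∑ k : Option κ, k.elim (1 : ℤ) 0 * (F.pb1 h w).v i k = (F.pb1 h w).v i none := by
    intro i
    simp [Fintype.sum_option]
  simp only [e, Int.cast_id] at h1
  have e0 : (F.pb1 h w).v (inr 0) none = 1 := rfl
  have e1 : (F.pb1 h w).v (inr 1) none = -1 := rfl
  have e2 : ∀ i, (F.pb1 h w).v (inl i) none = h i := fun _ => rfl
  simp only [e0, e1, e2, one_smul, neg_smul] at h1
  rwa [sub_eq_add_neg]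

lemma ring_sr (hs : (F.pb1 h w).Sm) :
    Bo {univ} ∅ 4 (cup 2 ((F.pb1 h w).tR ℤ (inr 1)) ((F.pb1 h w).tR ℤ (inr 0))) := by
  have h1 := hs.sr ℤ (l := [inr 1, inr 0]) fun σ hσ => by
    by_cases h0 : inr 0 ∈ σ
    · exact ⟨inr 1, by simp, fun h1 => hσ.2 ⟨h0, h1⟩⟩
    · exact ⟨inr 0, by simp, h0⟩
  exact Bo.congr (k := 2 + 2) h1 (Eqv.mul Eqv.refl (cup_e1 _))

lemma ring_cover (x : (F.pb1 h w).X) :
    x ∈ (F.pb1 h w).nz (inr 0) ∨ x ∈ (F.pb1 h w).nz (inr 1) := by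
  obtain ⟨z, hz, rfl⟩ := cl_surj x
  rw [cl_mem_nz hz, cl_mem_nz hz]
  exact (mem_U_pb1.1 hz).2

lemma ring_isEq : IsEq (F.pb1 0 0) F (fun z => Sum.elim z ![1, 0]) fun g => Sum.elim g 1 where
  cont := by
    refine Continuous.continuousOn (continuous_pi fun i => ?_)
    rcases i with i | i
    · exact continuous_apply i
    · exact continuous_const
  maps := fun z hz => mem_U_pb1.2 ⟨hz, Or.inl one_ne_zero⟩
  mem := fun g hg => mem_G_pb1.2 ⟨fun i => by
      rcases i with i | i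
      · exact hg.1 i
      · exact one_ne_zero, by simp, fun k => by simpa using hg.2 k⟩
  eqv := fun g _ z _ => by
    ext i
    rcases i with i | i <;> simp

lemma ring_proj (b : F.X) :
    F.proj 0 (ind (F.pb1 0 0) F (fun z => Sum.elim z ![1, 0]) b) = b := by
  obtain ⟨z, hz, rfl⟩ := cl_surj b
  rw [ring_isEq.ind_cl hz, proj, isEq_proj.ind_cl (ring_isEq.maps hz)]
  rfl

end pb1

/-- The generator of square zero on the product. -/
noncomputable def zX : Cc ℤ FX.X := FX.tR ℤ (inr 1)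

/-- The generator of square zero on the twisted bundle. -/
noncomputable def zY : Cc ℤ FY.X := FY.tR ℤ (inr 1) + pb (FB.proj fun _ => -1) (aC ℤ)

theorem lh_X : LH (FB.proj 0 : FX.X → FB.X) zX := shl_FB.lh

theorem lh_Y : LH (FB.proj fun _ => -1 : FY.X → FB.X) zY := shl_FB.lh.shift (cy_aC ℤ)

theorem zX_sq : Bo {univ} ∅ 4 (cup 2 zX zX) := by
  have h1 := ring_lin sm_FX
  simp only [Pi.zero_apply, zero_smul, Finset.sum_const_zero, zero_add] at h1
  have h2 := (ring_sr sm_FX).sub (LHa.bo_right rfl (sm_FX.cy' ℤ (inr 1)) h1)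
  rwa [cup_sub_right, sub_sub_cancel] at h2

theorem tY0 : Bo {univ} ∅ 2
    (FY.tR ℤ (inr 0) - (zY + pb (FB.proj fun _ => -1 : FY.X → FB.X) (aC ℤ))) := by
  have h1 := ring_lin sm_FY
  have h2 : Bo {univ} ∅ 2 (∑ i, (pb (FB.proj fun _ => -1 : FY.X → FB.X) (FB.tR ℤ i) -
      FY.tR ℤ (inl i))) :=
    Bo.sum _ fun i _ => isEq_proj.nat_one ℤ sm_FB sm_FY i (inl i) fun _ _ => rfl
  have h3 := (sum_all (R := ℤ)).pull (PM.abs (T := {univ}) lh_Y.cont)
  have h4 := (h1.sub h2).add h3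
  rw [pb_sub, pb_sum, pb_smul, Finset.sum_sub_distrib] at h4
  simp only [neg_smul, one_smul, Finset.sum_neg_distrib, two_smul] at h4
  unfold zY
  convert h4 using 1
  abel

theorem zY_sq : Bo {univ} ∅ 4 (cup 2 zY zY) := by
  have hA : Cy {univ} ∅ 2 (pb (FB.proj fun _ => -1 : FY.X → FB.X) (aC ℤ)) :=
    (cy_aC ℤ).pull (PM.abs lh_Y.cont)
  have ht := sm_FY.cy' ℤ (inr 1)
  have h1 := (ring_sr sm_FY).sub (LHa.bo_right rfl ht tY0)
  have h2 := cup_comm hA ht
  rw [union_self] at h2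
  have h3 := (a_sq (R := ℤ)).pull (PM.abs (T := {univ}) lh_Y.cont)
  rw [pb_cup lh_Y.cont] at h3
  have h4 := (h1.add h2).add h3
  unfold zY at h4 ⊢
  simp only [cup_sub_right, cup_add_right, cup_add_left, Nat.reduceMul,
    show ((-1 : ℤ) ^ 4) = 1 by norm_num, one_smul] at h4 ⊢
  convert h4 using 1
  abel

theorem ringIso_XY : RingIso FX.X FY.X := lh_X.ringIso lh_Y zX_sq zY_sq

/-- A section without zeros of the sum of two copies of the line bundle of `a`. -/
structure IsNz (s : (Fin 14 → ℂ) → Fin 2 → ℂ) : Prop where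
  cont : ContinuousOn s FB.U
  ne : ∀ z ∈ FB.U, s z ≠ 0
  eqv : ∀ g ∈ FB.G, ∀ z ∈ FB.U, s (g * z) = chi g • s z

theorem exists_isNz (e : ContinuousMap.HomotopyEquiv FX.X FY.X) : ∃ s, IsNz s := by
  obtain ⟨H0⟩ := e.left_inv
  have hi := (ring_isEq (F := FB)).continuous
  have hH : Continuous fun p : FX.X × ℝ => H0.symm (projIcc 0 1 zero_le_one p.2, p.1) :=
    H0.symm.continuous.comp ((continuous_projIcc.comp continuous_snd).prodMk continuous_fst)
  obtain ⟨l, l', hl, hl', b1, b2⟩ := nh_abs baseOk lh_X lh_Y zX_sq zY_sq e.toFun.continuous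
    e.invFun.continuous hH (fun x => by simp) (fun x => by simp) hi ring_proj
    (ring_isEq.nat_zero ℤ sm_FX sm_FB (inr 1) fun _ _ => rfl)
  have hf := e.toFun.continuous.comp hi
  set f := e.toFun ∘ ind FX FB fun z => Sum.elim z ![1, 0]
  have ha : ∑ i, aB i • FB.tR ℤ i = aC ℤ := by simp [aC]
  have c0 : Bo {univ} ∅ 2 (pb f (FY.tR ℤ (inr 0)) - (l + l') • ∑ i, aB i • FB.tR ℤ i) := by
    have h1 := ((tY0.pull (PM.abs (T := {univ}) hf)).add b1).add b2
    rw [pb_sub, pb_add] at h1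
    rw [ha, add_smul]
    convert h1 using 1
    abel
  have c1 : Bo {univ} ∅ 2 (pb f (FY.tR ℤ (inr 1)) - (l - l') • ∑ i, aB i • FB.tR ℤ i) := by
    have h1 := b1.sub b2
    rw [zY, pb_add] at h1
    rw [ha, sub_smul]
    convert h1 using 1
    abel
  obtain ⟨s0, s0c, s0n, s0e⟩ := good_FB.exists_fun sm_FY hf (inr 0) aB hl c0
  obtain ⟨s1, s1c, s1n, s1e⟩ := good_FB.exists_fun sm_FY hf (inr 1) aB hl' c1
  refine ⟨fun z => ![s0 z, s1 z], ?_, fun z hz h0 => ?_, fun g hg z hz => ?_⟩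
  · refine continuousOn_pi.2 fun j => ?_
    fin_cases j
    · exact s0c
    · exact s1c
  · rcases ring_cover (f (FB.cl z)) with h | h
    · exact s0n z hz h (congrFun h0 0)
    · exact s1n z hz h (congrFun h0 1)
  · ext j
    fin_cases j
    · exact s0e g hg z hz
    · exact s1e g hg z hz

end Pool.Agent.Lib.MP_bf05b2_gt
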