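import Pool.Agent.Lib.MP_bf05b2_gt.H57Sec
import Pool.Agent.Lib.MP_bf05b2_gt.H57Def
import Pool.Agent.Lib.MP_bf05b2_gt.H57Ring

/-! Sections of the vector bundle over the family. -/

set_option linter.unusedSectionVars false

namespace Pool.Agent.Lib.MP_bf05b2_gt

open Set Finsupp Pool.Agent.Shared.Sing Pool.Agent.Shared.SingEZ Sum Fan

/-- The section over the family. -/
noncomputable def sigF (w : Fin 14 ⊕ Fin 2 → ℂ) : Fin 2 → ℂ :=
  ![sig (vp w) 0 / nS w, sig (vp w) 1]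

/-- The action on the fibres. -/
noncomputable def gamF (g : Fin 14 ⊕ Fin 2 → ℂ) : Fin 2 → ℂ :=
  ![∏ i, g (inl i) ^ aB i, ∏ i, g (inl i) ^ bB i]

/-- The section as a map to the total space. -/
noncomputable def secE : FF.X → FE.X := ind FE FF fun w => Sum.elim w (sigF w)

/-- The bundle projection. -/
noncomputable def prE : FE.X → FF.X := ind FF FE (· ∘ inl)

/-- The complement of the zero section. -/
def E0 : Set FE.X := FE.nz (inr 0) ∪ FE.nz (inr 1)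

/-- The image of the section away from its zeros. -/
def A2 : Set FE.X := secE '' KKᶜ

/-- The trivialisation over the slice. -/
noncomputable def PhiE (q : PS × (Fin 2 → ℂ)) : FE.X :=
  FE.cl (Sum.elim (Sum.elim (psiB q.1) ![1, 0]) q.2)

/-- The slice in the family. -/
noncomputable def slF (q : PS) : FF.X := FF.cl (Sum.elim (psiB q) ![1, 0])

/-- A section over the fibre as a map to the total space. -/
noncomputable def sE (s : (Fin 14 → ℂ) → Fin 2 → ℂ) : FB.X → FE.X :=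
  ind FE FB fun z => Sum.elim (Sum.elim z ![1, 0]) (s z)

lemma f1_memE {g : (Fin 14 ⊕ Fin 2) ⊕ Fin 2 → ℂ} :
    g ∈ FE.G ↔ g ∘ inl ∈ FF.G ∧ g ∘ inr = gamF (g ∘ inl) := by
  rw [mem_G_vb, funext_iff, Fin.forall_fin_two, Fin.forall_fin_two]
  simp [gamF, Fintype.prod_sum_type]

lemma f1_elim {Z α β : Type} [TopologicalSpace Z] {f : Z → α → ℂ} {g : Z → β → ℂ}
    (hf : Continuous f) (hg : Continuous g) : Continuous fun z => Sum.elim (f z) (g z) :=
  continuous_pi fun i => i.rec (continuous_pi_iff.1 hf) (continuous_pi_iff.1 hg)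

lemma f1_E0 {w : (Fin 14 ⊕ Fin 2) ⊕ Fin 2 → ℂ} (hw : w ∈ FE.U) : FE.cl w ∈ E0 ↔ w ∘ inr ≠ 0 := by
  rw [E0, mem_union, cl_mem_nz hw, cl_mem_nz hw, Function.ne_iff, Fin.exists_fin_two]
  rfl

lemma f1_cont : ContinuousOn sigF FF.U := by
  have h : ContinuousOn (fun w => sig (vp w)) FF.U :=
    continuousOn_sig.comp continuous_vp.continuousOn fun w hw => vp_mem hw
  exact continuousOn_pi.2 (Fin.forall_fin_two.2 ⟨(continuousOn_pi.1 h 0).div
    (Complex.continuous_ofReal.comp continuous_nS).continuousOn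
    fun w hw => Complex.ofReal_ne_zero.2 (nS_pos hw).ne', continuousOn_pi.1 h 1⟩)

lemma f1_prod (n : Fin 14 → ℤ) (g : Fin 14 → ℂ) (c : ℂ) :
    ∏ i, Function.update g 0 (g 0 * c) i ^ n i = (∏ i, g i ^ n i) * c ^ n 0 := by
  rw [Fin.prod_univ_succ, Fin.prod_univ_succ fun i => g i ^ n i, Function.update_self, mul_zpow,
    mul_right_comm]
  simp only [Function.update_of_ne (Fin.succ_ne_zero _)]

lemma f1_sigF_mul {g w : Fin 14 ⊕ Fin 2 → ℂ} (hg : g ∈ FF.G) (hw : w ∈ FF.U) :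
    sigF (g * w) = gamF g * sigF w := by
  obtain ⟨h0, -, h1⟩ := mem_G_FF.1 hg
  have h2 : ((‖g (inr 0)‖ : ℝ) : ℂ) ≠ 0 := Complex.ofReal_ne_zero.2 (norm_ne_zero_iff.2 h0)
  have ea : chi (Function.update (g ∘ inl) 0 (g (inl 0) * g (inr 0))) = gamF g 0 * g (inr 0) := by
    exact (f1_prod aB (g ∘ inl) (g (inr 0))).trans (congrArg (gamF g 0 * ·) (zpow_one _))
  have eb : chi (Function.update (g ∘ inl) 0 (g (inl 0) * g (inr 0))) = gamF g 1 := by
    rw [← chi_eq_b h1]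
    exact (f1_prod bB (g ∘ inl) (g (inr 0))).trans (mul_one _)
  rw [sigF, vp_mul hg, sig_rot (mul_mem_U h1.1 (vp_mem hw)) (by simp [norm_ne_zero_iff.2 h0]),
    sig_mul h1 (vp_mem hw), nS_mul hg]
  refine funext (Fin.forall_fin_two.2 ⟨?_, ?_⟩)
  · simp only [sigF, Matrix.cons_val_zero, Pi.mul_apply, Pi.smul_apply, smul_eq_mul, ea]
    push_cast
    field_simp
  · simp only [sigF, Matrix.cons_val_one, Matrix.cons_val_zero, Pi.mul_apply, Pi.smul_apply,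
      smul_eq_mul, eb]

lemma f1_sigF_jB (z : Fin 14 → ℂ) : sigF (Sum.elim z ![1, 0]) = sig z := by
  rw [sigF, vp_jB]
  exact funext (Fin.forall_fin_two.2 ⟨by simp [nS], rfl⟩)

/-- Straight homotopies of equivariant maps. -/
lemma f1_htp {ι κ ι' κ' : Type} [Fintype ι] [DecidableEq ι] [Fintype κ] [DecidableEq κ]
    [Fintype ι'] [DecidableEq ι'] [Fintype κ'] [DecidableEq κ'] {F : Fan ι κ} {F' : Fan ι' κ'}
    {Φ Ψ γ : (ι' → ℂ) → ι → ℂ} (h0 : IsEq F F' Φ γ) (h1 : IsEq F F' Ψ γ)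
    (hU : ∀ z ∈ F'.U, ∀ s : ℝ, (1 - s) • Φ z + s • Ψ z ∈ F.U) : ∃ H : F'.X × ℝ → F.X,
    Continuous H ∧ ∀ z ∈ F'.U, ∀ s, H (F'.cl z, s) = F.cl ((1 - s) • Φ z + s • Ψ z) := by
  have e : ∀ z ∈ F'.U, ∀ g ∈ F'.G, ∀ s : ℝ,
      F.cl ((1 - s) • Φ (g * z) + s • Ψ (g * z)) = F.cl ((1 - s) • Φ z + s • Ψ z) := by
    intro z hz g hg s
    rw [h0.eqv g hg z hz, h1.eqv g hg z hz, ← mul_smul_comm, ← mul_smul_comm, ← mul_add,
      cl_mul (h0.mem g hg) (hU z hz s)]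
  refine ⟨fun p => F'.lf (fun z => F.cl ((1 - p.2) • Φ z + p.2 • Ψ z)) p.1, ?_,
    fun z hz s => lf_cl hz fun g hg => e z hz g hg s⟩
  rw [← continuousOn_univ, ← univ_prod_univ]
  exact continuousOn_lf₂ (h := fun p : (ι' → ℂ) × ℝ => F.cl ((1 - p.2) • Φ p.1 + p.2 • Ψ p.1))
    isOpen_univ (continuousOn_cl.comp (((continuousOn_const.sub continuousOn_snd).smul
      (h0.cont.comp continuousOn_fst fun _ hp => hp.1.1)).add (continuousOn_snd.smul
      (h1.cont.comp continuousOn_fst fun _ hp => hp.1.1))) fun p hp => hU p.1 hp.1.1 p.2)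
    fun z hz _ g hg s _ => e z hz g hg s

lemma f1_conv {w w' : (Fin 14 ⊕ Fin 2) ⊕ Fin 2 → ℂ} (hw : w ∈ FE.U) (h : w' ∘ inl = w ∘ inl)
    (s : ℝ) : (1 - s) • w + s • w' ∈ FE.U := by
  rw [mem_U_vb] at hw ⊢
  change (1 - s) • (w ∘ inl) + s • (w' ∘ inl) ∈ _
  rwa [h, Convex.combo_self (sub_add_cancel 1 s)]

lemma f1_isEq {s : (Fin 14 → ℂ) → Fin 2 → ℂ} (hc : ContinuousOn s FB.U)
    (he : ∀ g ∈ FB.G, ∀ z ∈ FB.U, s (g * z) = chi g • s z) :
    IsEq FE FB (fun z => Sum.elim (Sum.elim z ![1, 0]) (s z))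
      fun g => Sum.elim (Sum.elim g 1) fun _ => chi g := by
  refine ⟨continuousOn_pi.2 ?_, fun z hz => mem_U_vb.2 (isEq_jB.maps hz),
    fun g hg => f1_memE.2 ⟨isEq_jB.mem g hg,
      funext (Fin.forall_fin_two.2 ⟨rfl, (chi_eq_b hg).symm⟩)⟩, fun g hg z hz => ?_⟩
  · rintro (i | j)
    · exact continuousOn_pi.1 isEq_jB.cont i
    · exact continuousOn_pi.1 hc j
  · rw [he g hg z hz]
    ext (i | j)
    · exact congrFun (isEq_jB.eqv g hg z hz) i
    · rfl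

theorem isEq_secE : IsEq FE FF (fun w => Sum.elim w (sigF w)) fun g => Sum.elim g (gamF g) := by
  refine ⟨continuousOn_pi.2 ?_, fun w hw => mem_U_vb.2 hw, fun g hg => f1_memE.2 ⟨hg, rfl⟩,
    fun g hg w hw => ?_⟩
  · rintro (i | j)
    · exact (continuous_apply i).continuousOn
    · exact continuousOn_pi.1 f1_cont j
  · rw [f1_sigF_mul hg hw]
    ext (i | j) <;> rfl

lemma continuous_secE : Continuous secE := isEq_secE.continuous

lemma continuous_prE : Continuous prE := isEq_prvb.continuous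

lemma prE_secE (x : FF.X) : prE (secE x) = x := by
  obtain ⟨w, hw, rfl⟩ := cl_surj x
  rw [secE, isEq_secE.ind_cl hw, prE, isEq_prvb.ind_cl (isEq_secE.maps hw)]
  rfl

theorem secE_mem : MapsTo secE KKᶜ E0 := by
  intro x hx
  obtain ⟨w, hw, rfl⟩ := cl_surj x
  rw [secE, isEq_secE.ind_cl hw, f1_E0 (isEq_secE.maps hw)]
  intro h0
  have h1 : sig (vp w) 0 / nS w = 0 := congrFun h0 0
  have h2 : sig (vp w) 1 = 0 := congrFun h0 1
  obtain ⟨h3, h4⟩ := sig_zero (vp_mem hw) (funext (Fin.forall_fin_two.2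
    ⟨(div_eq_zero_iff.1 h1).resolve_right (Complex.ofReal_ne_zero.2 (nS_pos hw).ne'), h2⟩))
  refine hx ⟨(cl_mem_W hw).2 ?_, by rwa [mem_preimage, co_cl hw]⟩
  rintro (i | j) hi
  · have := h3 i
    rwa [vp, Function.update_of_ne (by rintro rfl; exact hi (by simp [ρ0]))] at this
  · exact (hi (by fin_cases j <;> simp [ρ0])).elim

theorem triv_A2 (R : Type) [CommRing R] {k : ℕ} (h : Triv R {univ} {KKᶜ} k) :
    Triv R {univ} {A2} k := by
  have e0 : IsEq FE FE id id := ⟨continuousOn_id, mapsTo_id _, fun _ hg => hg, fun _ _ _ _ => rfl⟩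
  have e1 : IsEq FE FE (fun w => Sum.elim (w ∘ inl) (sigF (w ∘ inl))) id :=
    ⟨isEq_secE.cont.comp isEq_prvb.cont isEq_prvb.maps,
      fun w hw => isEq_secE.maps (isEq_prvb.maps hw), fun _ hg => hg, fun g hg w hw => by
      have := isEq_secE.eqv _ (f1_memE.1 hg).1 _ (isEq_prvb.maps hw)
      rwa [← (f1_memE.1 hg).2, Sum.elim_comp_inl_inr] at this⟩
  obtain ⟨H, c, e⟩ := f1_htp e0 e1 fun w hw s => f1_conv hw (by rfl) s
  refine triv_of_pb (f := secE) (g := prE) (H := H)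
    (.of_cont continuous_secE Mp.univ (Mp.single (mapsTo_image _ _)))
    (.of_cont continuous_prE Mp.univ (Mp.single ?_))
    ⟨fun _ _ => c.continuousOn, fun _ _ => c.continuousOn,
      fun _ _ _ => ⟨_, rfl, mapsTo_univ _ _⟩, ?_⟩ (fun _ _ y _ => ?_) (fun _ _ y _ => ?_) h
  · rintro _ ⟨x, hx, rfl⟩
    rwa [prE_secE]
  · rintro _ rfl -
    refine ⟨_, rfl, ?_⟩
    rintro ⟨_, s⟩ ⟨⟨x, hx, rfl⟩, -⟩
    refine ⟨x, hx, ?_⟩
    obtain ⟨w, hw, rfl⟩ := cl_surj x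
    rw [secE, isEq_secE.ind_cl hw, e _ (isEq_secE.maps hw)]
    exact congrArg FE.cl (Convex.combo_self (sub_add_cancel 1 s) _).symm
  · obtain ⟨w, hw, rfl⟩ := cl_surj y
    rw [e w hw]
    simp
  · obtain ⟨w, hw, rfl⟩ := cl_surj y
    rw [e w hw, prE, isEq_prvb.ind_cl hw, secE, isEq_secE.ind_cl (isEq_prvb.maps hw)]
    simp

lemma continuous_PhiE : Continuous PhiE :=
  continuousOn_cl.comp_continuous (f1_elim (f1_elim (continuous_psiB.comp continuous_fst)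
    continuous_const) continuous_snd) fun q => mem_U_vb.2 (isEq_jB.maps (psiB_mem q.1))

lemma PhiE_mem : MapsTo PhiE (univ ×ˢ S2) E0 := fun q hq =>
  (f1_E0 (w := Sum.elim _ q.2) (mem_U_vb.2 (isEq_jB.maps (psiB_mem q.1)))).2 hq.2

lemma continuous_slF : Continuous slF :=
  continuousOn_cl.comp_continuous (f1_elim continuous_psiB continuous_const)
    fun q => isEq_jB.maps (psiB_mem q)

lemma slF_mem : MapsTo slF P0 KKᶜ := fun q hq h => by
  have := h.2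
  rw [mem_preimage, slF, co_cl (isEq_jB.maps (psiB_mem q)), vp_jB] at this
  exact psiB_P0 hq this

lemma secE_slF (q : PS) : secE (slF q) = PhiE (q, sig (psiB q)) := by
  rw [slF, secE, isEq_secE.ind_cl (isEq_jB.maps (psiB_mem q)), f1_sigF_jB]
  rfl

variable {s : (Fin 14 → ℂ) → Fin 2 → ℂ}

lemma IsNz.continuous_sE (h : IsNz s) : Continuous (sE s) := (f1_isEq h.cont h.eqv).continuous

lemma IsNz.sE_mem (h : IsNz s) : range (sE s) ⊆ E0 := by
  rintro _ ⟨x, rfl⟩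
  obtain ⟨z, hz, rfl⟩ := cl_surj x
  rw [sE, (f1_isEq h.cont h.eqv).ind_cl hz, f1_E0 ((f1_isEq h.cont h.eqv).maps hz)]
  exact h.ne z hz

lemma IsNz.big (h : IsNz s) : ∃ s', IsNz s' ∧ ∀ z ∈ FB.U, s' z ≠ sig z := by
  have hp : ∀ z, (0 : ℝ) < 1 + ‖sig z‖ / ‖s z‖ := fun z => by positivity
  refine ⟨fun z => (1 + ‖sig z‖ / ‖s z‖) • s z, ⟨(continuousOn_const.add (continuousOn_sig.norm.div
    h.cont.norm fun z hz => norm_ne_zero_iff.2 (h.ne z hz))).smul h.cont,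
    fun z hz => smul_ne_zero (hp z).ne' (h.ne z hz), fun g hg z hz => ?_⟩, fun z hz e => ?_⟩
  · rw [h.eqv g hg z hz, sig_mul hg hz, norm_smul, norm_smul,
      mul_div_mul_left _ _ (norm_ne_zero_iff.2 (chi_ne hg.1)), smul_comm]
  · have h1 := norm_pos_iff.2 (h.ne z hz)
    have h2 := congrArg norm e
    rw [norm_smul, Real.norm_of_nonneg (hp z).le, add_mul, div_mul_cancel₀ _ h1.ne'] at h2
    linarith

theorem IsNz.disjoint (h : IsNz s) (h' : ∀ z ∈ FB.U, s z ≠ sig z) :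
    Disjoint (range (sE s)) A2 := by
  rw [Set.disjoint_left]
  rintro _ ⟨x, rfl⟩ ⟨x', -, e⟩
  obtain ⟨z, hz, rfl⟩ := cl_surj x
  have hw := isEq_jB.maps hz
  have hE := (f1_isEq h.cont h.eqv).maps hz
  rw [sE, (f1_isEq h.cont h.eqv).ind_cl hz] at e
  have e1 := congrArg prE e
  rw [prE_secE, prE, isEq_prvb.ind_cl hE] at e1
  rw [e1, Sum.elim_comp_inl, secE, isEq_secE.ind_cl hw, f1_sigF_jB,
    cl_eq_iff (mem_U_vb.2 hw) hE] at e
  obtain ⟨g, hg, e⟩ := e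
  obtain ⟨g1, g2⟩ := f1_memE.1 hg
  have g3 : g ∘ inl = 1 :=
    (sm_FF.dv_eq (z := ⟨_, hw⟩) (w := ⟨_, hw⟩) g1 (congrArg (· ∘ inl) e)).symm.trans
      (sm_FF.dv_eq (z := ⟨_, hw⟩) (w := ⟨_, hw⟩) one_mem_G (one_mul _).symm)
  refine h' z hz (funext fun j => ?_)
  have e2 : sig z j = (g ∘ inr) j * s z j := congrFun e (inr j)
  rw [e2, g2, g3]
  fin_cases j <;> simp [gamF]

theorem IsNz.triv (h : IsNz s) : Triv (ZMod 2) {range (sE s)} ∅ 3 := by
  let r : ((Fin 14 ⊕ Fin 2) ⊕ Fin 2 → ℂ) → Fin 14 → ℂ := fun w =>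
    Function.update ((w ∘ inl) ∘ inl) 0 (w (inl (inl 0)) * w (inl (inr 0)))
  have r1 : ∀ g w, r (g * w) = r g * r w := fun g w => by
    ext i
    by_cases hi : i = 0
    · subst hi
      simp only [r, Pi.mul_apply, Function.update_self]
      ring
    · simp [r, hi]
  have r2 : ∀ w ∈ FE.U, w (inl (inr 0)) ≠ 0 → r w ∈ FB.U := fun w hw h0 => by
    obtain ⟨σ, s1, s2⟩ := (mem_U_pb1.1 (mem_U_vb.1 hw)).1
    refine ⟨σ, s1, fun i hi => ?_⟩
    by_cases e : i = 0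
    · subst e
      simpa [r, h0] using s2 0 hi
    · simpa [r, e] using s2 i hi
  have r3 : ∀ w ∈ FE.U, w (inl (inr 0)) ≠ 0 → ∀ g ∈ FE.G, FB.cl (r (g * w)) = FB.cl (r w) :=
    fun w hw h0 g hg => by
      rw [r1]
      exact cl_mul (mem_G_FF.1 (f1_memE.1 hg).1).2.2 (r2 w hw h0)
  have r4 : ContinuousOn (FE.lf fun w => FB.cl (r w)) (FE.nz (inl (inr 0))) :=
    continuousOn_lf (isOpen_nz _) (continuousOn_cl.comp (Continuous.continuousOn (by fun_prop))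
      fun w hw => r2 w hw.1 ((cl_mem_nz hw.1).1 hw.2))
      fun w hw h0 => r3 w hw ((cl_mem_nz hw).1 h0)
  refine triv_of_pb' (f := sE s) (g := FE.lf fun w => FB.cl (r w))
    (.of_cont h.continuous_sE (Mp.single (mapsTo_range _ _)) Mp.empty)
    ⟨?_, fun _ hU => hU.elim, Mp.univ, Mp.empty⟩ ?_ (triv_FB _ (Or.inl (by decide)))
  · rintro _ rfl
    refine r4.mono ?_
    rintro _ ⟨x, rfl⟩
    obtain ⟨z, hz, rfl⟩ := cl_surj x
    rw [sE, (f1_isEq h.cont h.eqv).ind_cl hz, cl_mem_nz ((f1_isEq h.cont h.eqv).maps hz)]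
    exact one_ne_zero
  · rintro _ rfl _ ⟨x, rfl⟩
    obtain ⟨z, hz, rfl⟩ := cl_surj x
    congr 1
    rw [sE, (f1_isEq h.cont h.eqv).ind_cl hz, lf_cl ((f1_isEq h.cont h.eqv).maps hz)
      (r3 _ ((f1_isEq h.cont h.eqv).maps hz) one_ne_zero)]
    simp [r]

theorem IsNz.htp (h : IsNz s) {R : Type} [CommRing R] {k : ℕ} {y : Cc R FE.X}
    (hy : Cy {univ} ∅ k y) : Bo {univ} ∅ k (pb (sE s) y - pb jB (pb secE y)) := by
  obtain ⟨H, c, e⟩ := f1_htp (f1_isEq continuousOn_sig fun g hg z hz => sig_mul hg hz)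
    (f1_isEq h.cont h.eqv) fun z hz s =>
      f1_conv (w := Sum.elim _ (sig z)) (mem_U_vb.2 (isEq_jB.maps hz)) (by rfl) s
  have := hy.htp (H := H) (T := {univ}) (S := ∅) ⟨fun _ _ => c.continuousOn, fun _ hU => hU.elim,
    fun _ _ _ => ⟨_, rfl, mapsTo_univ _ _⟩, fun _ hU => hU.elim⟩
  have e1 : (fun x => H (x, 1)) = sE s := funext fun x => by
    obtain ⟨z, hz, rfl⟩ := cl_surj x
    rw [e z hz, sE, (f1_isEq h.cont h.eqv).ind_cl hz]
    simp
  have e0 : (fun x => H (x, 0)) = secE ∘ jB := funext fun x => by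
    obtain ⟨z, hz, rfl⟩ := cl_surj x
    rw [e z hz, Function.comp_apply, jB, isEq_jB.ind_cl hz, secE,
      isEq_secE.ind_cl (isEq_jB.maps hz), f1_sigF_jB]
    simp
  rwa [e1, e0, ← pb_pb (f := jB) isEq_jB.continuous] at this

theorem IsNz.pb_t (h : IsNz s) :
    Bo {univ} ∅ 2 (pb (sE s) (FE.tR (ZMod 2) (inl (inr 1)))) :=
  (f1_isEq h.cont h.eqv).nat_zero _ sm_FE sm_FB _ fun _ _ => rfl

end Pool.Agent.Lib.MP_bf05b2_gt
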