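import Pool.Agent.Lib.MP_bf05b2_gt.H57Fin1

/-! The Thom class and the first obstruction. -/

set_option linter.unusedSectionVars false

namespace Pool.Agent.Lib.MP_bf05b2_gt

open Set Finsupp Pool.Agent.Shared.Sing Pool.Agent.Shared.SingEZ Sum Fan

/-- The second Stiefel-Whitney cocycle. -/
noncomputable abbrev tE : Cc (ZMod 2) FE.X := FE.tR (ZMod 2) (inl (inr 1))

lemma fin2_small (k : ℕ) : Triv (ZMod 2) {E0} ({FE.nz (inr 0)} ∪ {FE.nz (inr 1)}) k :=
  gbx_two (isOpen_nz _) (isOpen_nz _) k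

theorem triv_E0 {k : ℕ} (hk : Odd k) : Triv (ZMod 2) {univ} {E0} k := by
  have h : Triv (ZMod 2) {univ} (⋃ j ∈ [0, 1], {FE.nz (inr j)}) k :=
    shl_FF.triv_vb (ZMod 2) (by decide) hk
  rw [cup_union_cons, cup_union_cons] at h
  simp only [List.not_mem_nil, iUnion_of_empty, iUnion_empty, union_empty] at h
  exact Triv.left fin2_small h gbx_ref Ref.univ

theorem triv_E {k : ℕ} (hk : Odd k) : Triv (ZMod 2) {(univ : Set FE.X)} ∅ k := by
  have h : Triv (ZMod 2) {univ} (⋃ j ∈ [], {FE.nz (inr j)}) k :=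
    shl_FF.triv_vb (ZMod 2) List.nodup_nil hk
  simpa only [List.not_mem_nil, iUnion_of_empty, iUnion_empty] using h

lemma fin2_triv3 : Triv (ZMod 2) {univ} {FE.nz (inr 0)} 3 := by
  have h : Triv (ZMod 2) {univ} (⋃ j ∈ [0], {FE.nz (inr j)}) 3 :=
    shl_FF.triv_vb (ZMod 2) (List.nodup_singleton 0) (by decide)
  rw [cup_union_cons] at h
  simpa only [List.not_mem_nil, iUnion_of_empty, iUnion_empty, union_empty] using h

lemma fin2_coef : ∀ i, ((∑ k, (Sum.elim (fun k => k.elim 0 ![0, 0, 1]) ![1, -1] :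
    Option (Fin 3) ⊕ Fin 2 → ℤ) k * FE.v i k : ℤ) : ZMod 2) =
      (if inr 0 = i then 1 else 0) + (if inr 1 = i then 1 else 0) +
        if inl (inr 1) = i then 1 else 0 := by
  decide +kernel

lemma fin2_lin : Bo {univ} ∅ 2 (FE.tR (ZMod 2) (inr 0) + FE.tR (ZMod 2) (inr 1) + tE) := by
  have h := sm_FE.lin (ZMod 2) (Sum.elim (fun k => k.elim 0 ![0, 0, 1]) ![1, -1])
  simpa only [fin2_coef, add_smul, ite_smul, one_smul, zero_smul, Finset.sum_add_distrib,
    Finset.sum_ite_eq, Finset.mem_univ, if_true] using h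

lemma fin2_mem (q : PS) (v : Fin 2 → ℂ) : Sum.elim (Sum.elim (psiB q) ![1, 0]) v ∈ FE.U :=
  mem_U_vb.2 (mem_U_pb1.2 ⟨psiB_mem q, Or.inl one_ne_zero⟩)

lemma fin2_cont : Continuous fun v : Fin 2 → ℂ => PhiE (0, v) :=
  continuous_PhiE.comp (Continuous.prodMk_right 0)

/-- The product of the two divisor cocycles restricts to a generator on a fibre. -/
lemma fin2_fib : ¬ Bo {univ} ({{w : Fin 2 → ℂ | w 0 ≠ 0}} ∪ {{w | w 1 ≠ 0}}) 4
    (pb (fun v => PhiE (0, v)) (cup 2 (FE.tR (ZMod 2) (inr 0)) (FE.tR (ZMod 2) (inr 1)))) := by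
  intro hb
  have h := gb_loc (ZMod 2) (t := fun k => pb (fun v => PhiE (0, v)) (FE.tau (inr k)))
    (fun k => sm_FE.isTau_aff (s := fun v => Sum.elim (Sum.elim (psiB 0) ![1, 0]) v)
      (continuous_pi fun i => by
        rcases i with i | i
        · exact continuous_const
        · exact continuous_apply i) (fin2_mem 0) fun _ => rfl) (l := [0, 1]) (by decide)
  rw [cup_union_cons, cup_union_cons] at h
  simp only [List.not_mem_nil, iUnion_of_empty, iUnion_empty, union_empty] at h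
  refine one_ne_zero (h.ind_one () (r := 1) ?_)
  rw [one_smul]
  rw [pb_cup fin2_cont] at hb
  simp only [List.map, pr, bc_pb]
  exact hb.congr (Eqv.mul (p := 2) (q := 2) Eqv.refl (cup_e1 _).symm)

theorem exists_thom : ∃ U : Cc (ZMod 2) FE.X, Cy {univ} {E0} 4 U ∧
    Bo {univ} {E0} 6 (sq 2 4 U + cup 2 tE U) ∧
    ¬ Bo {univ} {S2} 4 (pb (fun v => PhiE (0, v)) U) := by
  have hp := sm_FE.cy (ZMod 2) (inr 0)
  have hq := sm_FE.cy (ZMod 2) (inr 1)
  have ht : Cy {univ} ∅ 2 tE := sm_FE.cy' (ZMod 2) _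
  have hV := hp.mul hq
  obtain ⟨U, hU, hb⟩ := ss_cy fin2_small gbx_ref hV Ref.univ
  refine ⟨U, hU, ?_, fun h => fin2_fib ?_⟩
  · refine ss_bo fin2_small gbx_ref Ref.univ
      (hU.square.add (by simpa only [empty_union] using ht.mul hU)) ?_
    have h1 := sq_congr (i := 2) (k := 6) Ref.univ hV hb
    have h2 := sq2_mul hp hq fin2_triv3
    have h3 := fin2_lin.mul_left hV
    have h4 := Bo.mul_right ht hb
    rw [empty_union] at h3 h4
    rw [cup_add_left] at h3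
    rw [cup_sub_right] at h4
    refine ((h2.add h3).sub (h1.add h4)).congr fun c _ => LinearMap.congr_fun ?_ c
    abel
  · have h1 := hb.pull (T := {univ}) (S := {{w : Fin 2 → ℂ | w 0 ≠ 0}} ∪ {{w | w 1 ≠ 0}})
      (PM.of_cont fin2_cont Mp.univ (by
        rintro _ (rfl | rfl) -
        · exact ⟨_, Or.inl rfl, fun w hw => (cl_mem_nz (fin2_mem 0 w)).2 hw⟩
        · exact ⟨_, Or.inr rfl, fun w hw => (cl_mem_nz (fin2_mem 0 w)).2 hw⟩))
    rw [pb_sub] at h1
    refine h1.of_sub (h.mono Ref.refl (Ref.union (Ref.single ?_) (Ref.single ?_))) <;>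
      exact fun w hw h0 => hw (congrFun h0 _)

/-- The first obstruction does not vanish. -/
theorem hopf_ne {U u x : Cc (ZMod 2) FE.X} (hU : Cy {univ} {E0} 4 U)
    (hn : ¬ Bo {univ} {S2} 4 (pb (fun v => PhiE (0, v)) U)) (hu : Eqv {A2} 3 u 0)
    (hD : Eqv {univ} 4 U (u ∘ₗ D)) (hx : Eqv {E0} 5 (x ∘ₗ D) (sq 1 3 u + cup 2 tE u)) :
    ¬ Bo {univ} {KKᶜ} 5 (pb secE x ∘ₗ D) := by
  intro hb
  have hG : Continuous (sig ∘ psiB) := continuousOn_sig.comp_continuous continuous_psiB psiB_mem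
  have hm : MapsTo (sig ∘ psiB) P0 S2 := fun q hq h0 => psiB_P0 hq (sig_zero (psiB_mem q) h0).2
  have hA : Ref {A2} {E0} := Ref.single (by rintro _ ⟨y, hy, rfl⟩; exact secE_mem hy)
  have hΓ : ∀ q ∈ P0, PhiE (q, sig (psiB q)) ∈ A2 := fun q hq => ⟨_, slF_mem hq, secE_slF q⟩
  have hu' : Cy {E0} {A2} 3 u := ⟨(hD.symm.mono Ref.univ).trans hU.2, hu⟩
  have hw : Cy {univ ×ˢ S2} {(fun q => (q, (sig ∘ psiB) q)) '' P0} 3 (pb PhiE u) :=
    hu'.pull (PM.of_cont continuous_PhiE (Mp.single PhiE_mem)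
      (Mp.single (by rintro _ ⟨q, hq, rfl⟩; exact hΓ q hq)))
  have hx' : Cy {univ} {A2} 5 (x ∘ₗ D) := cy_comp_D ((hx.mono hA).trans
    (by simpa only [add_zero] using (cu_van_left hu u).add (cup_van_right (p := 2) tE hu)))
  have hH : Continuous fun y : (PS × (Fin 2 → ℂ)) × ℝ =>
      PhiE (y.1.1, (1 - y.2) • y.1.2 + y.2 • (sig ∘ psiB) y.1.1) :=
    continuous_PhiE.comp (continuous_fst.fst.prodMk (((continuous_const.sub continuous_snd).smul
      continuous_fst.snd).add (continuous_snd.smul (hG.comp continuous_fst.fst))))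
  have h1 := hx'.htp (T := {univ}) (S := {(fun q => (q, (sig ∘ psiB) q)) '' P0})
    ⟨fun _ _ => hH.continuousOn, fun _ _ => hH.continuousOn,
      fun _ _ _ => ⟨_, rfl, mapsTo_univ _ _⟩, by
        rintro _ rfl -
        refine ⟨_, rfl, ?_⟩
        rintro ⟨_, s⟩ ⟨⟨q, hq, rfl⟩, -⟩
        simp only [← add_smul, sub_add_cancel, one_smul]
        exact hΓ q hq⟩
  simp only [sub_self, zero_smul, zero_add, one_smul, sub_zero, add_zero, Function.comp_apply,
    ← secE_slF] at h1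
  have hc : Continuous fun y : PS × (Fin 2 → ℂ) => slF y.1 := continuous_slF.comp continuous_fst
  have h2 := hb.pull (T := {univ}) (S := {(fun q => (q, (sig ∘ psiB) q)) '' P0})
    (PM.of_cont hc Mp.univ (Mp.single (by rintro _ ⟨q, hq, rfl⟩; exact slF_mem hq)))
  rw [← pb_D continuous_secE, pb_pb hc] at h2
  have h3 : Bo {univ ×ˢ S2} {(fun q => (q, (sig ∘ psiB) q)) '' P0} 5 (pb PhiE (x ∘ₗ D)) :=
    (h1.symm.of_sub h2).mono Ref.univ Ref.refl
  have h4 := h3.congr (hx.pull (fun _ _ => continuous_PhiE.continuousOn) (Mp.single PhiE_mem))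
  rw [pb_add, pb_cu continuous_PhiE, pb_cup continuous_PhiE] at h4
  have h5 : Bo {univ} ∅ 2 (pb PhiE tE) :=
    triv_contr (H := fun y : (PS × (Fin 2 → ℂ)) × ℝ => (1 - y.2) • y.1) (by fun_prop)
      (mapsTo_univ _ _) (fun y _ => by simp) (y₀ := 0) (fun y _ => by simp) 1 _
      ((sm_FE.cy' (ZMod 2) _).pull (PM.abs continuous_PhiE))
  have h6 := (h5.mono Ref.univ Ref.refl).mul_left hw
  rw [empty_union] at h6
  have h7 := h4.sub h6
  rw [add_sub_cancel_right] at h7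
  obtain ⟨u₀, β, h8, h9⟩ := qq_graph hG hm hw h7 fun h => hn (by
    rw [pb_pb (Continuous.prodMk_right 0)] at h
    refine (gbx_bo_del (φ := pb (fun v => PhiE (0, v)) u) h).congr ?_
    rw [← pb_D fin2_cont]
    exact hD.symm.pull (fun _ _ => fin2_cont.continuousOn) Mp.univ)
  exact not_qq_sig h8 h9

end Pool.Agent.Lib.MP_bf05b2_gt
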