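import Pool.Agent.Lib.MP_bf05b2_gt.H57Loc

/-! The functional second Steenrod square of a map to the punctured complex plane. -/

set_option linter.unusedSectionVars false

namespace Pool.Agent.Lib.MP_bf05b2_gt

open Set Finsupp Pool.Agent.Shared.Sing Pool.Agent.Shared.SingEZ

variable {Y Y' : Type*} [TopologicalSpace Y] [Nonempty Y] [TopologicalSpace Y'] [Nonempty Y']

/-- The cochain representing the functional square. -/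
noncomputable def Qc (β ν : Cc (ZMod 2) Y) : Cc (ZMod 2) Y :=
  β + cu 1 2 3 ν (ν ∘ₗ D) + sq 0 2 ν

/-- The punctured complex plane. -/
def S2 : Set (Fin 2 → ℂ) := {0}ᶜ

/-- A generator of the third cohomology of `S2` with a primitive of its square. -/
structure Adm (u β : Cc (ZMod 2) (Fin 2 → ℂ)) : Prop where
  cy : Cy {S2} ∅ 3 u
  nb : ¬ Bo {S2} ∅ 3 u
  sq : Eqv {S2} 5 (sq 1 3 u) (β ∘ₗ D)

/-- The functional square of `f` on `A` vanishes. -/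
def QQ (u β : Cc (ZMod 2) (Fin 2 → ℂ)) (f : Y → Fin 2 → ℂ) (A : Set Y) : Prop :=
  ∃ ν, Eqv {A} 3 (pb f u) (ν ∘ₗ D) ∧ Bo {A} ∅ 4 (Qc (pb f β) ν)

variable {A A₀ : Set Y} {w b ν ν' : Cc (ZMod 2) Y} {u β : Cc (ZMod 2) (Fin 2 → ℂ)}
  {f : Y → Fin 2 → ℂ}

lemma q_cont {Z Z' : Type*} [TopologicalSpace Z] [TopologicalSpace Z'] {g : Z → Z'} {B : Set Z}
    (hg : ContinuousOn g B) : ∀ U ∈ ({B} : Set (Set Z)), ContinuousOn g U := fun _ hU => hU ▸ hg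

lemma q_pm {g : Y' → Y} {A' : Set Y'} (hg : ContinuousOn g A') (hm : MapsTo g A' A) :
    PM g {A'} ∅ {A} ∅ := ⟨q_cont hg, fun _ h => h.elim, Mp.single hm, Mp.empty⟩

lemma q_ph {H : Y' × ℝ → Y} {A' : Set Y'} (hH : ContinuousOn H (A' ×ˢ Icc 0 1))
    (hm : MapsTo H (A' ×ˢ Icc 0 1) A) : PH H {A'} ∅ {A} ∅ :=
  ⟨fun _ hU => hU ▸ hH, fun _ h => h.elim, fun _ hU _ => ⟨A, rfl, hU ▸ hm⟩, fun _ h => h.elim⟩

lemma q_bo {T : Set (Set Y)} {k : ℕ} {φ : Cc (ZMod 2) Y} :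
    Bo T ∅ (k + 1) φ ↔ ∃ ψ, Eqv T (k + 1) φ (ψ ∘ₗ D) :=
  ⟨fun ⟨ψ, _, h⟩ => ⟨ψ, h⟩, fun ⟨ψ, h⟩ => bo_succ.2 ⟨ψ, Eqv.empty, h⟩⟩

lemma Qc_D (b ν : Cc (ZMod 2) Y) : Qc b ν ∘ₗ D = b ∘ₗ D + sq 1 3 (ν ∘ₗ D) := by
  rw [Qc, add_assoc, LinearMap.add_comp, sq_D 0 2]

lemma pb_Qc {g : Y' → Y} {A' : Set Y'} (hg : ContinuousOn g A') (b ν : Cc (ZMod 2) Y) :
    Eqv {A'} 4 (pb g (Qc b ν)) (Qc (pb g b) (pb g ν)) := by
  rw [Qc, Qc, pb_add, pb_add]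
  exact (Eqv.refl.add ((pb_cu' (q_cont hg) _ _ _ _ _).trans
    (Eqv.refl.cui (pb_D' (q_cont hg) ν)))).add (pb_cu' (q_cont hg) _ _ _ _ _)

lemma Qc_congr {b' : Cc (ZMod 2) Y} (h : Eqv {A} 4 b b') (ν : Cc (ZMod 2) Y) :
    Eqv {A} 4 (Qc b ν) (Qc b' ν) := (h.add .refl).add .refl

lemma cy_Qc (hb : Eqv {A} 5 (sq 1 3 w) (b ∘ₗ D)) (hν : Eqv {A} 3 w (ν ∘ₗ D)) :
    Cy {A} ∅ 4 (Qc b ν) := by
  refine ⟨?_, Eqv.empty⟩
  rw [Qc_D, ← add_self2 (sq 1 3 w)]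
  exact hb.symm.add (hν.symm.cui hν.symm)

theorem Qc_indep (h : Triv (ZMod 2) {A} ∅ 2) (hν : Eqv {A} 3 (ν ∘ₗ D) (ν' ∘ₗ D)) :
    Bo {A} ∅ 4 (Qc b ν - Qc b ν') := by
  obtain ⟨c, rfl⟩ : ∃ c, ν' = ν + c := ⟨ν + ν', by rw [← add_assoc, add_self2, zero_add]⟩
  have hc : Eqv {A} 3 (c ∘ₗ D) 0 := fun x hx => by
    have h1 := hν x hx
    rw [LinearMap.add_comp, LinearMap.add_apply] at h1
    exact left_eq_add.1 h1
  have h1 : Bo {A} ∅ 4 (sq 0 2 c) := (h c ⟨hc, Eqv.empty⟩).square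
  have h2 : Bo {A} ∅ 4 (cu 1 2 2 c ν ∘ₗ D) := bo_comp_D Eqv.empty
  refine (h1.add h2).congr fun x hx => ?_
  have e1 := cu_van_left (i := 1) (q := 2) hc ν x hx
  have e2 := (Eqv.refl (φ := ν + c)).cui (i := 1) (p := 2) hν x hx
  rw [cu_add_left] at e2
  rw [sub_eq_add2, cu_D 0 2 2, Qc, Qc, sq, sq, sq, cu_add_left 0, cu_add_right 0, cu_add_right 0]
  simp only [LinearMap.add_apply, LinearMap.zero_apply] at e1 e2 ⊢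
  rw [← e2, e1]
  have h2 : ∀ a : ZMod 2, a + a = 0 := CharTwo.add_self_eq_zero
  grind

lemma q_prim (hw : Cy {A₀} ∅ 3 w) (hb : Eqv {A₀} 5 (sq 1 3 w) (b ∘ₗ D)) (ν : Cc (ZMod 2) Y) :
    Eqv {A₀} 5 (sq 1 3 (w + ν ∘ₗ D)) ((Qc b ν + cu 2 3 3 w (ν ∘ₗ D)) ∘ₗ D) := by
  rw [LinearMap.add_comp, Qc_D]
  exact (sq_add_eqv hw (cy_comp_D (S := ∅) Eqv.empty)).trans ((hb.add .refl).add .refl)

lemma q_last (hν : Eqv {A} 3 w (ν ∘ₗ D)) : Bo {A} ∅ 4 (cu 2 3 3 w (ν ∘ₗ D)) :=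
  q_bo.2 ⟨cu 2 2 3 ν (ν ∘ₗ D) + sq 1 2 ν, fun x hx =>
    (hν.cui (i := 2) (Eqv.refl (k := 3) (φ := ν ∘ₗ D)) x hx).trans
      (LinearMap.congr_fun (sq_D 1 2 ν) x)⟩

theorem sq_of_Qc (hA : A ⊆ A₀) (hw : Cy {A₀} ∅ 3 w) (hb : Eqv {A₀} 5 (sq 1 3 w) (b ∘ₗ D))
    (hν : Eqv {A} 3 w (ν ∘ₗ D)) (h : Bo {A} ∅ 4 (Qc b ν)) :
    Bo {A₀} {A} 5 (sq 1 3 (w + ν ∘ₗ D)) := by
  have _ := hA
  obtain ⟨ρ, hρ⟩ := q_bo.1 (h.add (q_last hν))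
  refine bo_succ.2 ⟨Qc b ν + cu 2 3 3 w (ν ∘ₗ D) - ρ ∘ₗ D, fun x hx => sub_eq_zero.2 (hρ x hx), ?_⟩
  rw [LinearMap.sub_comp, comp_D_D, sub_zero]
  exact q_prim hw hb ν

theorem Qc_of_sq (hA : A ⊆ A₀) (hw : Cy {A₀} ∅ 3 w) (hb : Eqv {A₀} 5 (sq 1 3 w) (b ∘ₗ D))
    (hν : Eqv {A} 3 w (ν ∘ₗ D)) (h4 : Triv (ZMod 2) {A₀} ∅ 4)
    (h : Bo {A₀} {A} 5 (sq 1 3 (w + ν ∘ₗ D))) : Bo {A} ∅ 4 (Qc b ν) := by
  obtain ⟨y, hy0, hy⟩ := bo_succ.1 h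
  have h1 : Cy {A₀} ∅ 4 (Qc b ν + cu 2 3 3 w (ν ∘ₗ D) - y) :=
    ⟨fun x hx => sub_eq_zero.2 (((q_prim hw hb ν).symm.trans hy) x hx), Eqv.empty⟩
  have h2 := ((h4 _ h1).mono (Ref.single hA) Ref.refl).sub (q_last hν)
  refine h2.congr fun x hx => ?_
  have e := hy0 x hx
  simp only [LinearMap.add_apply, LinearMap.sub_apply, LinearMap.zero_apply] at e ⊢
  rw [e, sub_zero, add_sub_cancel_right]

lemma Adm.cy_pb (h : Adm u β) (hf : ContinuousOn f A) (hm : MapsTo f A S2) :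
    Cy {A} ∅ 3 (pb f u) ∧ Eqv {A} 5 (Pool.Agent.Lib.MP_bf05b2_gt.sq 1 3 (pb f u)) (pb f β ∘ₗ D) :=
  ⟨h.cy.pull (q_pm hf hm), (pb_cu' (q_cont hf) _ _ _ _ _).symm.trans
    ((h.sq.pull (q_cont hf) (Mp.single hm)).trans (pb_D' (q_cont hf) β))⟩

lemma QQ.pull (h : QQ u β f A) {g : Y' → Y} {A' : Set Y'} (hg : ContinuousOn g A')
    (hm : MapsTo g A' A) : QQ u β (f ∘ g) A' := by
  obtain ⟨ν, h1, h2⟩ := h
  refine ⟨pb g ν, (pb_pb' (q_cont hg) f u).symm.trans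
    ((h1.pull (q_cont hg) (Mp.single hm)).trans (pb_D' (q_cont hg) ν)), ?_⟩
  exact (h2.pull (q_pm hg hm)).congr
    ((pb_Qc hg _ _).trans (Qc_congr (pb_pb' (q_cont hg) f β) _))

lemma QQ.congr (h : QQ u β f A) {f' : Y → Fin 2 → ℂ} (hf : EqOn f f' A) : QQ u β f' A := by
  obtain ⟨ν, h1, h2⟩ := h
  have e : ∀ U ∈ ({A} : Set (Set Y)), EqOn f f' U := fun _ hU => hU ▸ hf
  exact ⟨ν, (pb_congr e u).symm.trans h1, h2.congr (Qc_congr (pb_congr e β) ν)⟩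

/-- Homotopy invariance. -/
theorem QQ.htp (hu : Adm u β) (h2 : Triv (ZMod 2) {A} ∅ 2) {H : Y × ℝ → Fin 2 → ℂ}
    (hH : ContinuousOn H (A ×ˢ Icc 0 1)) (hm : MapsTo H (A ×ˢ Icc 0 1) S2)
    (h : QQ u β (fun y => H (y, 0)) A) : QQ u β (fun y => H (y, 1)) A := by
  obtain ⟨ν, h1, h3⟩ := h
  obtain ⟨c1, c2⟩ := hu.cy_pb hH hm
  have ci : ∀ t : ℝ, Continuous fun y : Y => (y, t) := fun t => by fun_prop
  have mi : ∀ t ∈ Icc (0 : ℝ) 1, MapsTo (fun y : Y => (y, t)) A (A ×ˢ Icc 0 1) :=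
    fun t ht y hy => ⟨hy, ht⟩
  have m0 := mi 0 ⟨le_rfl, zero_le_one⟩
  have m1 := mi 1 ⟨zero_le_one, le_rfl⟩
  have hb : Bo {A ×ˢ Icc (0 : ℝ) 1} ∅ 3 (pb H u) := by
    refine bo_of_pb (f := fun y : Y => (y, (0 : ℝ))) (g := Prod.fst)
      (H := fun z : (Y × ℝ) × ℝ => (z.1.1, (1 - z.2) * z.1.2)) (q_pm (ci 0).continuousOn m0)
      (q_pm continuous_fst.continuousOn fun _ hy => hy.1)
      (q_ph (by fun_prop) fun z hz => ⟨hz.1.1, ?_, ?_⟩) (fun _ _ y _ => by simp)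
      (fun _ _ y _ => by simp) c1 (q_bo.2 ⟨ν, ?_⟩)
    · exact mul_nonneg (sub_nonneg.2 hz.2.2) hz.1.2.1
    · exact mul_le_one₀ (sub_le_self _ hz.2.1) hz.1.2.1 hz.1.2.2
    · rw [pb_pb (ci 0)]
      exact h1
  obtain ⟨N, hN⟩ := q_bo.1 hb
  have hp : ∀ t ∈ Icc (0 : ℝ) 1, Eqv {A} 3 (pb (fun y => H (y, t)) u)
      (pb (fun y : Y => (y, t)) N ∘ₗ D) := fun t ht => by
    have := hN.pull (q_cont (ci t).continuousOn) (Mp.single (mi t ht))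
    rwa [pb_pb (ci t), pb_D (ci t)] at this
  have hq : ∀ t : ℝ, Eqv {A} 4 (pb (fun y : Y => (y, t)) (Qc (pb H β) N))
      (Qc (pb (fun y => H (y, t)) β) (pb (fun y : Y => (y, t)) N)) := fun t => by
    have := pb_Qc (A' := A) (ci t).continuousOn (pb H β) N
    rwa [pb_pb (ci t)] at this
  have h4 := (cy_Qc c2 hN).htp (H := id) (q_ph (A' := A) continuousOn_id (mapsTo_id _))
  have h5 := (Qc_indep (b := pb (fun y => H (y, 0)) β) h2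
    ((hp 0 ⟨le_rfl, zero_le_one⟩).symm.trans h1)).of_sub h3
  exact ⟨_, hp 1 ⟨zero_le_one, le_rfl⟩, (h4.congr ((hq 1).sub (hq 0))).of_sub h5⟩

lemma QQ.comp {L : (Fin 2 → ℂ) → Fin 2 → ℂ} (h : QQ u β (L ∘ f) A) (hf : ContinuousOn f A) :
    QQ (pb L u) (pb L β) f A := by
  obtain ⟨ν, h1, h2⟩ := h
  exact ⟨ν, (pb_pb' (q_cont hf) L u).trans h1,
    h2.congr (Qc_congr (pb_pb' (q_cont hf) L β).symm ν)⟩

lemma Adm.comp (h : Adm u β) {L L' : (Fin 2 → ℂ) → Fin 2 → ℂ} (hL : Continuous L)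
    (hL' : Continuous L') (hm : MapsTo L S2 S2) (hm' : MapsTo L' S2 S2) (hi : ∀ v, L (L' v) = v) :
    Adm (pb L u) (pb L β) :=
  ⟨(h.cy_pb hL.continuousOn hm).1,
    fun hb => h.nb (bo_of_pb' (q_pm hL'.continuousOn hm') (fun _ _ y _ => hi y) hb),
    (h.cy_pb hL.continuousOn hm).2⟩

/-- The functional square from a cocycle relative to the graph. -/
theorem qq_graph {P : Type} [NormedAddCommGroup P] [NormedSpace ℝ P] {G : P → Fin 2 → ℂ}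
    {A : Set P} (hG : Continuous G) (hm : MapsTo G A S2) {w : Cc (ZMod 2) (P × (Fin 2 → ℂ))}
    (hw : Cy {univ ×ˢ S2} {(fun q => (q, G q)) '' A} 3 w)
    (hs : Bo {univ ×ˢ S2} {(fun q => (q, G q)) '' A} 5 (sq 1 3 w))
    (hn : ¬ Bo {S2} ∅ 3 (pb (fun v => ((0 : P), v)) w)) : ∃ u β, Adm u β ∧ QQ u β G A := by
  have ci : Continuous fun v : Fin 2 → ℂ => ((0 : P), v) := by fun_prop
  have pi : PM (fun v : Fin 2 → ℂ => ((0 : P), v)) {S2} ∅ {univ ×ˢ S2} ∅ :=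
    q_pm ci.continuousOn fun _ hv => ⟨trivial, hv⟩
  have ms : MapsTo (Prod.snd : P × (Fin 2 → ℂ) → Fin 2 → ℂ) (univ ×ˢ S2) S2 := fun _ hv => hv.2
  have hw' : Cy {univ ×ˢ S2} ∅ 3 w := hw.mono Ref.refl Ref.empty
  have hu := hw'.pull pi
  obtain ⟨β, hβ⟩ := q_bo.1 (triv_punct (κ := Fin 2) (ZMod 2) (k := 4) (by simp) _
    (hu.square (i := 1)))
  have had : Adm (pb (fun v => ((0 : P), v)) w) β := ⟨hu, hn, hβ⟩
  obtain ⟨c1, c2⟩ := had.cy_pb continuous_snd.continuousOn ms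
  have h1 := hw'.htp (H := fun z : (P × (Fin 2 → ℂ)) × ℝ => (z.2 • z.1.1, z.1.2))
    (q_ph (A' := univ ×ˢ S2) (by fun_prop) fun z hz => ⟨trivial, hz.1.2⟩)
  simp only [one_smul, zero_smul] at h1
  obtain ⟨ν, hν⟩ := q_bo.1 h1
  have h2 : Eqv {univ ×ˢ S2} 3 w (pb Prod.snd (pb (fun v => ((0 : P), v)) w) + ν ∘ₗ D) := by
    intro x hx
    have e := hν x hx
    rw [pb_pb continuous_snd, LinearMap.add_apply, ← e, LinearMap.sub_apply]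
    exact ((add_sub_cancel _ _).trans (LinearMap.congr_fun (pb_id w) x)).symm
  have hΓ : (fun q => (q, G q)) '' A ⊆ univ ×ˢ S2 := by
    rintro _ ⟨q, hq, rfl⟩
    exact ⟨trivial, hm hq⟩
  have h3 : Eqv {(fun q => (q, G q)) '' A} 3 (pb Prod.snd (pb (fun v => ((0 : P), v)) w))
      (ν ∘ₗ D) := fun x hx => by
    have e := (h2.mono (Ref.single hΓ) x hx).symm.trans (hw.2 x hx)
    rw [← sub_eq_add2] at e
    exact sub_eq_zero.1 e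
  have h4 : Triv (ZMod 2) {(univ ×ˢ S2 : Set (P × (Fin 2 → ℂ)))} ∅ 4 :=
    triv_of_pb (H := fun z : (P × (Fin 2 → ℂ)) × ℝ => ((1 - z.2) • z.1.1, z.1.2)) pi
      (q_pm continuous_snd.continuousOn ms)
      (q_ph (by fun_prop) fun z hz => ⟨trivial, hz.1.2⟩) (fun _ _ y _ => by simp)
      (fun _ _ y _ => by simp) (triv_punct (κ := Fin 2) (ZMod 2) (k := 3) (by simp))
  have h5 : QQ (pb (fun v => ((0 : P), v)) w) β Prod.snd ((fun q => (q, G q)) '' A) :=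
    ⟨ν, h3, Qc_of_sq hΓ c1 c2 h3 h4 (hs.congr (h2.cui h2))⟩
  exact ⟨_, β, had, h5.pull (g := fun q => (q, G q)) (by fun_prop) (mapsTo_image _ _)⟩

end Pool.Agent.Lib.MP_bf05b2_gt
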