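import Pool.Agent.Lib.MP_bf05b2_gt.H57Shell
import Pool.Agent.Lib.MP_bf05b2_gt.H57Q

/-! A family version of the suspended Hopf map: the geometry. -/

set_option linter.unusedSectionVars false

namespace Pool.Agent.Lib.MP_bf05b2_gt

open Set Finsupp Pool.Agent.Shared.Sing Pool.Agent.Shared.SingEZ Fan

/-- The parameter space of the slice. -/
abbrev PS := (Fin 2 → ℂ) × ℝ

/-- The complement of a box in the slice. -/
def P0 : Set PS := {q | q.1 1 ≠ 0 ∨ 101 ≤ |(q.1 0).re| ∨ 101 ≤ |(q.1 0).im| ∨ 101 ≤ |q.2|}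

/-- The model map. -/
noncomputable def g0 (q : PS) : Fin 2 → ℂ :=
  ![1 - (‖q.1 0‖ : ℂ) + q.2 * Complex.I, (starRingEnd ℂ) (q.1 0) * q.1 1]

/-- The fan of a sum of two tautological line bundles over the projective line. -/
def F6 : Fan (Fin 4) (Fin 3) where
  v := ![![1, 0, 0], ![-1, 1, 1], ![0, 1, 0], ![0, 0, 1]]
  K := {τ | ¬ (0 ∈ τ ∧ 1 ∈ τ)}
  zero_mem := by simp

/-- The two charts. -/
def L6 (r : List (Fin 3)) : List (Step (Fin 4) (Fin 3)) :=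
  [⟨![0, 2, 3], ![![1, 0, 0], ![0, 1, 0], ![0, 0, 1]], r⟩,
   ⟨![1, 2, 3], ![![-1, 0, 0], ![1, 1, 0], ![1, 0, 1]], 0 :: r⟩]

/-- The norm of the first fibre coordinate. -/
noncomputable def rp : F6.X → ℝ := F6.lf fun z => ‖z 2‖ * (‖z 0‖ + ‖z 1‖)

/-- The hermitian product of the fibre coordinates. -/
noncomputable def c6 : F6.X → ℂ :=
  F6.lf fun z => (starRingEnd ℂ) (z 2) * z 3 * ((‖z 0‖ + ‖z 1‖ : ℝ) : ℂ) ^ 2

/-- The family. -/
abbrev V6 := F6.X × ℝ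

/-- The family of model maps. -/
noncomputable def G6 (y : V6) : Fin 2 → ℂ := ![1 - (rp y.1 : ℂ) + y.2 * Complex.I, c6 y.1]

/-- The first line bundle. -/
def Th : Set V6 := {y | y.1 ∉ F6.nz 3 ∧ y.2 = 0}

/-- Its disc bundle. -/
def Dl : Set V6 := Th ∩ {y | rp y.1 ≤ 1}

/-- Its zero section. -/
def Sp : Set V6 := Th ∩ {y | y.1 ∉ F6.nz 2}

/-- A neighbourhood of the zero section. -/
def V1 : Set V6 := {y | rp y.1 < 1}

/-- The inclusion of a fibre. -/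
noncomputable def io (q : PS) : V6 := (F6.cl ![1, 0, q.1 0, q.1 1], q.2)

lemma mem_U6 {z : Fin 4 → ℂ} : z ∈ F6.U ↔ z 0 ≠ 0 ∨ z 1 ≠ 0 := by
  constructor
  · rintro ⟨σ, hσ, h⟩
    by_cases h0 : (0 : Fin 4) ∈ σ
    · exact Or.inr (h 1 fun h1 => hσ ⟨h0, h1⟩)
    · exact Or.inl (h 0 h0)
  · rintro (h | h)
    · refine ⟨{0}ᶜ, fun hh => by simpa using hh.1, fun i hi => ?_⟩
      obtain rfl : i = 0 := by simpa using hi
      exact h
    · refine ⟨{1}ᶜ, fun hh => by simpa using hh.2, fun i hi => ?_⟩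
      obtain rfl : i = 1 := by simpa using hi
      exact h

lemma mem_G6 {g : Fin 4 → ℂ} : g ∈ F6.G ↔ g 0 ≠ 0 ∧ g 1 = g 0 ∧ g 2 = (g 0)⁻¹ ∧ g 3 = (g 0)⁻¹ := by
  have key : (∀ k, ∏ i, g i ^ F6.v i k = 1) ↔
      g 0 * (g 1)⁻¹ = 1 ∧ g 1 * g 2 = 1 ∧ g 1 * g 3 = 1 := by
    simp [F6, Fin.forall_fin_succ, Fin.prod_univ_succ]
  constructor
  · rintro ⟨h, h'⟩
    obtain ⟨a, b, c⟩ := key.1 h'
    have e : g 1 = g 0 := ((mul_inv_eq_one₀ (h 1)).1 a).symm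
    rw [e] at b c
    exact ⟨h 0, e, eq_inv_of_mul_eq_one_right b, eq_inv_of_mul_eq_one_right c⟩
  · rintro ⟨h, a, b, c⟩
    refine ⟨fun i => ?_, key.2 ?_⟩
    · fin_cases i
      · exact h
      · exact a ▸ h
      · exact b ▸ inv_ne_zero h
      · exact c ▸ inv_ne_zero h
    · rw [a, b, c]
      exact ⟨mul_inv_cancel₀ h, mul_inv_cancel₀ h, mul_inv_cancel₀ h⟩

lemma h1_chart0 : F6.IsChart ![0, 2, 3] ![![1, 0, 0], ![0, 1, 0], ![0, 0, 1]] :=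
  ⟨by decide, by change ¬ (_ ∧ _); decide⟩

lemma h1_chart1 : F6.IsChart ![1, 2, 3] ![![-1, 0, 0], ![1, 1, 0], ![1, 0, 1]] :=
  ⟨by decide, by change ¬ (_ ∧ _); decide⟩

lemma sm_F6 : F6.Sm := by
  intro σ hσ
  by_cases h0 : (0 : Fin 4) ∈ σ
  · have h1 : (1 : Fin 4) ∉ σ := fun h1 => hσ ⟨h0, h1⟩
    refine ⟨_, _, h1_chart0, fun i hi => ?_⟩
    have : ∀ i : Fin 4, i ≠ 1 → i ∈ Finset.univ.image (![0, 2, 3] : Fin 3 → Fin 4) := by decide
    exact this i fun h => h1 (h ▸ hi)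
  · refine ⟨_, _, h1_chart1, fun i hi => ?_⟩
    have : ∀ i : Fin 4, i ≠ 0 → i ∈ Finset.univ.image (![1, 2, 3] : Fin 3 → Fin 4) := by decide
    exact this i fun h => h0 (h ▸ hi)

lemma continuous_g0 : Continuous g0 := by
  refine continuous_pi fun i => ?_
  fin_cases i
  · change Continuous fun q : PS => 1 - (‖q.1 0‖ : ℂ) + q.2 * Complex.I
    fun_prop
  · change Continuous fun q : PS => (starRingEnd ℂ) (q.1 0) * q.1 1
    exact (Complex.continuous_conj.comp (by fun_prop)).mul (by fun_prop)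

lemma h1_pos {z : Fin 4 → ℂ} (hz : z ∈ F6.U) : 0 < ‖z 0‖ + ‖z 1‖ := by
  rcases mem_U6.1 hz with h | h
  · exact add_pos_of_pos_of_nonneg (norm_pos_iff.2 h) (norm_nonneg _)
  · exact add_pos_of_nonneg_of_pos (norm_nonneg _) (norm_pos_iff.2 h)

lemma h1_inv {z g : Fin 4 → ℂ} (hg : g ∈ F6.G) {i : Fin 4} (hi : g i = (g 0)⁻¹) :
    ‖(g * z) i‖ * (‖(g * z) 0‖ + ‖(g * z) 1‖) = ‖z i‖ * (‖z 0‖ + ‖z 1‖) := by
  obtain ⟨h, a, -, -⟩ := mem_G6.1 hg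
  have : ‖g 0‖ ≠ 0 := norm_ne_zero_iff.2 h
  simp only [Pi.mul_apply, hi, a, norm_mul, norm_inv]
  field_simp

lemma h1_inv' {z g : Fin 4 → ℂ} (hg : g ∈ F6.G) :
    (starRingEnd ℂ) ((g * z) 2) * (g * z) 3 * ((‖(g * z) 0‖ + ‖(g * z) 1‖ : ℝ) : ℂ) ^ 2 =
      (starRingEnd ℂ) (z 2) * z 3 * ((‖z 0‖ + ‖z 1‖ : ℝ) : ℂ) ^ 2 := by
  obtain ⟨h, a, b, c⟩ := mem_G6.1 hg
  have h1 : (starRingEnd ℂ) (g 0) ≠ 0 := (map_ne_zero _).2 h
  have h2 : ((‖g 0‖ : ℝ) : ℂ) ^ 2 = (starRingEnd ℂ) (g 0) * g 0 := by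
    rw [Complex.conj_mul']
  simp only [Pi.mul_apply, a, b, c, norm_mul, map_mul, map_inv₀, ← mul_add, Complex.ofReal_mul,
    mul_pow, h2]
  field_simp

lemma h1_rp_cl {z : Fin 4 → ℂ} (hz : z ∈ F6.U) : rp (F6.cl z) = ‖z 2‖ * (‖z 0‖ + ‖z 1‖) :=
  lf_cl (h := fun z => ‖z 2‖ * (‖z 0‖ + ‖z 1‖)) hz fun _ hg => h1_inv hg (mem_G6.1 hg).2.2.1

lemma h1_c6_cl {z : Fin 4 → ℂ} (hz : z ∈ F6.U) :
    c6 (F6.cl z) = (starRingEnd ℂ) (z 2) * z 3 * ((‖z 0‖ + ‖z 1‖ : ℝ) : ℂ) ^ 2 :=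
  lf_cl (h := fun z => (starRingEnd ℂ) (z 2) * z 3 * ((‖z 0‖ + ‖z 1‖ : ℝ) : ℂ) ^ 2) hz
    fun _ hg => h1_inv' hg

lemma continuous_rp : Continuous rp :=
  continuous_lf (Continuous.continuousOn (by fun_prop))
    fun _ _ _ hg => h1_inv hg (mem_G6.1 hg).2.2.1

lemma h1_continuous_c6 : Continuous c6 :=
  continuous_lf (Continuous.continuousOn
    (((Complex.continuous_conj.comp (continuous_apply 2)).mul (continuous_apply 3)).mul
      (by fun_prop))) fun _ _ _ hg => h1_inv' hg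

lemma continuous_G6 : Continuous G6 := by
  have h1 := continuous_rp
  refine continuous_pi fun i => ?_
  fin_cases i
  · change Continuous fun y : V6 => 1 - (rp y.1 : ℂ) + y.2 * Complex.I
    fun_prop
  · exact h1_continuous_c6.comp continuous_fst

lemma h1_io_mem_U (a b : ℂ) : ![1, 0, a, b] ∈ F6.U := mem_U6.2 (Or.inl one_ne_zero)

lemma continuous_io : Continuous io := by
  refine Continuous.prodMk (continuousOn_cl.comp_continuous (continuous_pi fun i => ?_)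
    fun q => h1_io_mem_U _ _) continuous_snd
  fin_cases i
  · exact continuous_const
  · exact continuous_const
  · change Continuous fun q : PS => q.1 0
    fun_prop
  · change Continuous fun q : PS => q.1 1
    fun_prop

lemma h1_rp_io (q : PS) : rp (io q).1 = ‖q.1 0‖ := by
  simp [io, h1_rp_cl (h1_io_mem_U _ _)]

lemma G6_io (q : PS) : G6 (io q) = g0 q := by
  have h : c6 (io q).1 = (starRingEnd ℂ) (q.1 0) * q.1 1 := by
    simp [io, h1_c6_cl (h1_io_mem_U _ _)]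
  rw [G6, h1_rp_io, h]
  rfl

lemma io_mem_nz (q : PS) (k : Fin 2) : (io q).1 ∈ F6.nz (![2, 3] k) ↔ q.1 k ≠ 0 := by
  fin_cases k
  · exact cl_mem_nz (h1_io_mem_U _ _)
  · exact cl_mem_nz (h1_io_mem_U _ _)

lemma io_P0 : MapsTo io P0 Dlᶜ := by
  rintro q hq ⟨⟨h1, h2⟩, h3⟩
  have h4 : ‖q.1 0‖ ≤ 1 := (h1_rp_io q).symm.trans_le h3
  have h5 : q.2 = 0 := h2
  rcases hq with h | h | h | h
  · exact h1 ((io_mem_nz q 1).2 h)
  · linarith [Complex.abs_re_le_norm (q.1 0)]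
  · linarith [Complex.abs_im_le_norm (q.1 0)]
  · rw [h5, abs_zero] at h
    linarith

lemma isClosed_Th : IsClosed Th :=
  ((isOpen_nz 3).isClosed_compl.preimage continuous_fst).inter
    (isClosed_eq continuous_snd continuous_const)

lemma isClosed_Dl : IsClosed Dl :=
  isClosed_Th.inter (isClosed_le (continuous_rp.comp continuous_fst) continuous_const)

lemma isOpen_V1 : IsOpen V1 := isOpen_lt (continuous_rp.comp continuous_fst) continuous_const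

lemma h1_G6_eq_zero {y : V6} : G6 y = 0 ↔ y ∈ Th ∧ rp y.1 = 1 := by
  obtain ⟨x, t⟩ := y
  obtain ⟨z, hz, rfl⟩ := cl_surj x
  have hp := h1_pos hz
  have h0 : G6 (F6.cl z, t) = 0 ↔
      (1 - (rp (F6.cl z) : ℂ) + t * Complex.I = 0) ∧ c6 (F6.cl z) = 0 := by
    simp [G6, funext_iff, Fin.forall_fin_two]
  have h1 : (1 - (rp (F6.cl z) : ℂ) + t * Complex.I = 0) ↔ rp (F6.cl z) = 1 ∧ t = 0 := by
    simp [Complex.ext_iff, sub_eq_zero, eq_comm (a := (1 : ℝ))]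
  have h2 : (F6.cl z, t) ∈ Th ↔ z 3 = 0 ∧ t = 0 := by
    simp [Th, cl_mem_nz hz]
  rw [h0, h1, h2, h1_c6_cl hz]
  constructor
  · rintro ⟨⟨a, b⟩, c⟩
    refine ⟨⟨?_, b⟩, a⟩
    have h3 : z 2 ≠ 0 := fun h => by
      rw [h1_rp_cl hz, h, norm_zero, zero_mul] at a
      exact zero_ne_one a
    have h4 : ((‖z 0‖ + ‖z 1‖ : ℝ) : ℂ) ^ 2 ≠ 0 := pow_ne_zero _ (Complex.ofReal_ne_zero.2 hp.ne')
    exact (mul_eq_zero.1 ((mul_eq_zero.1 c).resolve_right h4)).resolve_left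
      ((map_ne_zero _).2 h3)
  · rintro ⟨⟨a, b⟩, c⟩
    exact ⟨⟨c, b⟩, by rw [a, mul_zero, zero_mul]⟩

lemma V0_eq : G6 ⁻¹' S2 = V1 ∪ Dlᶜ := by
  ext y
  change ¬ G6 y = 0 ↔ rp y.1 < 1 ∨ ¬ (y ∈ Th ∧ rp y.1 ≤ 1)
  rw [h1_G6_eq_zero]
  constructor
  · intro h
    by_contra h'
    obtain ⟨a, b⟩ := not_or.1 h'
    obtain ⟨b, c⟩ := not_not.1 b
    exact h ⟨b, le_antisymm c (not_lt.1 a)⟩
  · rintro (h | h) ⟨a, b⟩
    · exact h.ne b
    · exact h ⟨a, b.le⟩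

lemma V1_inter : V1 ∩ Dlᶜ = V1 ∩ Thᶜ := by
  ext y
  exact ⟨fun h => ⟨h.1, fun h' => h.2 ⟨h', le_of_lt (b := (1 : ℝ)) h.1⟩⟩, fun h => ⟨h.1, fun h' => h.2 h'.1⟩⟩

/-- The norm of the second fibre coordinate. -/
noncomputable def h1_rq : F6.X → ℝ := F6.lf fun z => ‖z 3‖ * (‖z 0‖ + ‖z 1‖)

lemma h1_rq_cl {z : Fin 4 → ℂ} (hz : z ∈ F6.U) : h1_rq (F6.cl z) = ‖z 3‖ * (‖z 0‖ + ‖z 1‖) :=
  lf_cl (h := fun z => ‖z 3‖ * (‖z 0‖ + ‖z 1‖)) hz fun _ hg => h1_inv hg (mem_G6.1 hg).2.2.2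

lemma h1_continuous_rq : Continuous h1_rq :=
  continuous_lf (Continuous.continuousOn (by fun_prop))
    fun _ _ _ hg => h1_inv hg (mem_G6.1 hg).2.2.2

lemma h1_rp_nonneg (x : F6.X) : 0 ≤ rp x := by
  obtain ⟨z, hz, rfl⟩ := cl_surj x
  rw [h1_rp_cl hz]
  positivity

lemma h1_rq_nonneg (x : F6.X) : 0 ≤ h1_rq x := by
  obtain ⟨z, hz, rfl⟩ := cl_surj x
  rw [h1_rq_cl hz]
  positivity

lemma h1_rp_pos {x : F6.X} : 0 < rp x ↔ x ∈ F6.nz 2 := by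
  obtain ⟨z, hz, rfl⟩ := cl_surj x
  rw [h1_rp_cl hz, cl_mem_nz hz, mul_pos_iff_of_pos_right (h1_pos hz), norm_pos_iff]

lemma h1_rq_pos {x : F6.X} : 0 < h1_rq x ↔ x ∈ F6.nz 3 := by
  obtain ⟨z, hz, rfl⟩ := cl_surj x
  rw [h1_rq_cl hz, cl_mem_nz hz, mul_pos_iff_of_pos_right (h1_pos hz), norm_pos_iff]

/-- Scaling of the first fibre coordinate on representatives. -/
noncomputable def h1_sc0 (c : ℝ) (z : Fin 4 → ℂ) : Fin 4 → ℂ := ![1, 1, (c : ℂ), 1] * z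

lemma h1_sc0_mem (c : ℝ) {z : Fin 4 → ℂ} (hz : z ∈ F6.U) : h1_sc0 c z ∈ F6.U := by
  simpa [mem_U6, h1_sc0] using hz

lemma h1_sc0_cl (c : ℝ) {z g : Fin 4 → ℂ} (hz : z ∈ F6.U) (hg : g ∈ F6.G) :
    F6.cl (h1_sc0 c (g * z)) = F6.cl (h1_sc0 c z) := by
  rw [h1_sc0, mul_left_comm]
  exact cl_mul hg (h1_sc0_mem c hz)

/-- Scaling of the first fibre coordinate. -/
noncomputable def h1_sc (p : F6.X × ℝ) : F6.X := F6.lf (fun z => F6.cl (h1_sc0 p.2 z)) p.1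

lemma h1_sc_cl (c : ℝ) {z : Fin 4 → ℂ} (hz : z ∈ F6.U) : h1_sc (F6.cl z, c) = F6.cl (h1_sc0 c z) :=
  lf_cl (h := fun z => F6.cl (h1_sc0 c z)) hz fun _ hg => h1_sc0_cl c hz hg

lemma h1_continuous_sc : Continuous h1_sc := by
  have h0 : Continuous fun p : (Fin 4 → ℂ) × ℝ => h1_sc0 p.2 p.1 := by
    refine Continuous.mul (continuous_pi fun i => ?_) continuous_fst
    fin_cases i
    · exact continuous_const
    · exact continuous_const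
    · change Continuous fun p : (Fin 4 → ℂ) × ℝ => (p.2 : ℂ)
      fun_prop
    · exact continuous_const
  have h := continuousOn_lf₂ (F := F6) (h := fun p : (Fin 4 → ℂ) × ℝ => F6.cl (h1_sc0 p.2 p.1))
    (O := univ) (A := univ) isOpen_univ
    (continuousOn_cl.comp h0.continuousOn fun p hp => h1_sc0_mem _ hp.1.1)
    fun z hz _ g hg a _ => h1_sc0_cl a hz hg
  rwa [univ_prod_univ, continuousOn_univ] at h

lemma h1_sc_one (x : F6.X) : h1_sc (x, 1) = x := by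
  obtain ⟨z, hz, rfl⟩ := cl_surj x
  rw [h1_sc_cl _ hz]
  congr 1
  ext i
  fin_cases i <;> simp [h1_sc0]

lemma h1_rp_sc (x : F6.X) {c : ℝ} (hc : 0 ≤ c) : rp (h1_sc (x, c)) = c * rp x := by
  obtain ⟨z, hz, rfl⟩ := cl_surj x
  rw [h1_sc_cl _ hz, h1_rp_cl (h1_sc0_mem c hz), h1_rp_cl hz]
  simp [h1_sc0, abs_of_nonneg hc, mul_assoc]

lemma h1_sc_nz (x : F6.X) (c : ℝ) : h1_sc (x, c) ∈ F6.nz 3 ↔ x ∈ F6.nz 3 := by
  obtain ⟨z, hz, rfl⟩ := cl_surj x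
  rw [h1_sc_cl _ hz, cl_mem_nz (h1_sc0_mem c hz), cl_mem_nz hz]
  simp [h1_sc0]

lemma h1_sc_Th (y : V6) (c : ℝ) : (h1_sc (y.1, c), y.2) ∈ Th ↔ y ∈ Th :=
  and_congr_left' (not_congr (h1_sc_nz y.1 c))

/-- The contraction of the first fibre coordinate. -/
noncomputable def h1_Hc (p : V6 × ℝ) : V6 := (h1_sc (p.1.1, 1 - p.2), p.1.2)

lemma h1_continuous_Hc : Continuous h1_Hc := by
  have := h1_continuous_sc
  unfold h1_Hc
  fun_prop

lemma h1_Hc_V1 : MapsTo h1_Hc (V1 ×ˢ Icc 0 1) V1 := by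
  rintro ⟨y, s⟩ ⟨hy, h0, h1⟩
  have h2 : rp y.1 < 1 := hy
  have h3 := h1_rp_nonneg y.1
  change rp (h1_sc (y.1, 1 - s)) < 1
  rw [h1_rp_sc _ (sub_nonneg.2 h1)]
  nlinarith

lemma h1_Hc_zero (y : V6) : h1_Hc (y, 0) = y := by
  simp [h1_Hc, h1_sc_one]

lemma h1_Hc_one (y : V6) : h1_Hc (y, 1) ∈ V1 := by
  change rp (h1_sc (y.1, 1 - 1)) < 1
  rw [h1_rp_sc _ (by norm_num)]
  norm_num

lemma h1_Hc_Th (p : V6 × ℝ) : h1_Hc p ∈ Th ↔ p.1 ∈ Th := h1_sc_Th _ _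

/-- The distance from the zero section. -/
noncomputable def h1_mu (y : V6) : ℝ := rp y.1 + h1_rq y.1 + |y.2|

lemma h1_mu_pos {y : V6} (hy : y ∉ Sp) : 0 < h1_mu y := by
  have h1 := h1_rp_nonneg y.1
  have h2 := h1_rq_nonneg y.1
  have h3 := abs_nonneg y.2
  by_contra h
  have h4 : h1_mu y ≤ 0 := not_lt.1 h
  unfold h1_mu at h4
  refine hy ⟨⟨fun h => ?_, abs_eq_zero.1 (by linarith)⟩, fun h => ?_⟩
  · have := h1_rq_pos.2 h
    linarith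
  · have := h1_rp_pos.2 h
    linarith

lemma h1_mu_Th {y : V6} (hy : y ∈ Th) : h1_mu y = rp y.1 := by
  have h1 : h1_rq y.1 = 0 := le_antisymm (not_lt.1 fun h => hy.1 (h1_rq_pos.1 h)) (h1_rq_nonneg _)
  have h2 : y.2 = 0 := hy.2
  rw [h1_mu, h1, h2, abs_zero, add_zero, add_zero]

/-- The expansion of the first fibre coordinate. -/
noncomputable def h1_He (p : V6 × ℝ) : V6 := (h1_sc (p.1.1, 1 + 2 * p.2 / h1_mu p.1), p.1.2)

lemma h1_continuousOn_He : ContinuousOn h1_He (Spᶜ ×ˢ Icc 0 1) := by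
  have h1 := continuous_rp
  have h2 := h1_continuous_rq
  have h3 : Continuous fun p : V6 × ℝ => h1_mu p.1 := by
    unfold h1_mu
    fun_prop
  refine ContinuousOn.prodMk (h1_continuous_sc.comp_continuousOn (ContinuousOn.prodMk (by fun_prop)
    (continuousOn_const.add (ContinuousOn.div (by fun_prop) h3.continuousOn
      fun p hp => (h1_mu_pos hp.1).ne')))) (by fun_prop)

lemma h1_He_rp {y : V6} (hy : y ∉ Sp) {s : ℝ} (hs : 0 ≤ s) :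
    rp (h1_He (y, s)).1 = rp y.1 + 2 * s / h1_mu y * rp y.1 := by
  have := h1_mu_pos hy
  change rp (h1_sc (y.1, 1 + 2 * s / h1_mu y)) = _
  rw [h1_rp_sc _ (by positivity), add_mul, one_mul]

lemma h1_He_le {y : V6} (hy : y ∉ Sp) {s : ℝ} (hs : 0 ≤ s) : rp y.1 ≤ rp (h1_He (y, s)).1 := by
  have := h1_mu_pos hy
  have := h1_rp_nonneg y.1
  rw [h1_He_rp hy hs]
  exact le_add_of_nonneg_right (by positivity)

lemma h1_He_Th (p : V6 × ℝ) : h1_He p ∈ Th ↔ p.1 ∈ Th := h1_sc_Th _ _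

lemma h1_Sp_sub : Sp ⊆ Dl := fun y hy =>
  ⟨hy.1, show rp y.1 ≤ 1 from (not_lt.1 fun h => hy.2 (h1_rp_pos.1 h)).trans zero_le_one⟩

variable (R : Type) [CommRing R]

theorem triv_V1 (k : ℕ) : Triv R {univ} {V1} k := by
  refine triv_def (H := h1_Hc) (T := {univ}) (S := {V1}) ⟨fun _ _ => h1_continuous_Hc.continuousOn,
    fun _ _ => h1_continuous_Hc.continuousOn, fun _ _ _ => ⟨_, rfl, mapsTo_univ _ _⟩, ?_⟩
    (fun _ _ y _ => h1_Hc_zero y) (Mp.single fun y _ => h1_Hc_one y) k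
  rintro _ rfl -
  exact ⟨_, rfl, h1_Hc_V1⟩

theorem triv_Th (k : ℕ) : Triv R {Thᶜ} {V1 ∩ Thᶜ} k := by
  have hm : MapsTo (fun y => h1_Hc (y, 1)) Thᶜ (V1 ∩ Thᶜ) := fun y hy =>
    ⟨h1_Hc_one y, fun h => hy ((h1_Hc_Th _).1 h)⟩
  refine triv_def (H := h1_Hc) ⟨fun _ _ => h1_continuous_Hc.continuousOn,
    fun _ _ => h1_continuous_Hc.continuousOn, ?_, ?_⟩ (fun _ _ y _ => h1_Hc_zero y) (Mp.single hm) k
  · rintro _ rfl -
    exact ⟨_, rfl, fun p hp h => hp.1 ((h1_Hc_Th p).1 h)⟩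
  · rintro _ rfl -
    exact ⟨_, rfl, fun p hp => ⟨h1_Hc_V1 ⟨hp.1.1, hp.2⟩, fun h => hp.1.2 ((h1_Hc_Th p).1 h)⟩⟩

theorem triv_Sp (k : ℕ) : Triv R {Spᶜ} {Dlᶜ} k := by
  have hm : MapsTo (fun y => h1_He (y, 1)) Spᶜ Dlᶜ := fun y hy h => by
    have h1 : y ∈ Th := (h1_He_Th _).1 h.1
    have h2 : rp (h1_He (y, 1)).1 ≤ 1 := h.2
    have h3 := h1_mu_pos hy
    rw [h1_He_rp hy zero_le_one, ← h1_mu_Th h1, div_mul_cancel₀ _ h3.ne'] at h2
    linarith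
  refine triv_def (H := h1_He) ⟨?_, ?_, ?_, ?_⟩ (fun _ _ y _ => ?_) (Mp.single hm) k
  · rintro _ rfl
    exact h1_continuousOn_He
  · rintro _ rfl
    exact h1_continuousOn_He.mono (prod_mono (compl_subset_compl.2 h1_Sp_sub) Subset.rfl)
  · rintro _ rfl -
    refine ⟨_, rfl, fun p hp h => hp.1 ⟨(h1_He_Th p).1 h.1, fun h' => h.2 (h1_rp_pos.1 ?_)⟩⟩
    exact (h1_rp_pos.2 h').trans_le (h1_He_le hp.1 hp.2.1)
  · rintro _ rfl -
    refine ⟨_, rfl, fun p hp h => hp.1 ⟨(h1_He_Th p).1 h.1, ?_⟩⟩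
    exact (h1_He_le (fun h' => hp.1 (h1_Sp_sub h')) hp.2.1).trans h.2
  · simp [h1_He, h1_sc_one]

lemma h1_mem_P0c {q : PS} :
    q ∈ P0ᶜ ↔ q.1 1 = 0 ∧ |(q.1 0).re| < 101 ∧ |(q.1 0).im| < 101 ∧ |q.2| < 101 := by
  simp [P0, not_or]

theorem triv_P0' (k : ℕ) : Triv R {({0}ᶜ : Set PS)} {P0} k := by
  have h0 : (0 : PS) ∈ P0ᶜ := h1_mem_P0c.2 (by simp)
  have key : ∀ {b x : ℝ}, 0 ≤ b → b ≤ 1 → |x| < 101 → |b * x| < 101 := fun {b x} h1 h2 h3 => by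
    rw [abs_mul, abs_of_nonneg h1]
    nlinarith [abs_nonneg x]
  have h := triv_push R (A := {0}) (B := P0ᶜ) rfl (singleton_subset_iff.2 h0)
    (starConvex_singleton _) (fun q hq a b ha hb hab => ?_) ?_ k
  · rwa [compl_compl] at h
  · obtain ⟨h1, h2, h3, h4⟩ := h1_mem_P0c.1 hq
    have hb' : b ≤ 1 := by linarith
    rw [smul_zero, zero_add]
    refine h1_mem_P0c.2 ⟨by simp [h1], ?_, ?_, key hb hb' h4⟩
    · simpa using key hb hb' h2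
    · simpa using key hb hb' h3
  · refine isBounded_iff_forall_norm_le.2 ⟨202, fun q hq => ?_⟩
    obtain ⟨h1, h2, h3, h4⟩ := h1_mem_P0c.1 hq
    refine norm_prod_le_iff.2 ⟨(pi_norm_le_iff_of_nonneg (by norm_num)).2 fun i => ?_, ?_⟩
    · fin_cases i
      · change ‖q.1 0‖ ≤ 202
        linarith [Complex.norm_le_abs_re_add_abs_im (q.1 0)]
      · change ‖q.1 1‖ ≤ 202
        rw [h1, norm_zero]
        norm_num
    · rw [Real.norm_eq_abs]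
      linarith

/-- The cocycles of the toric divisors on the family. -/
noncomputable def t6 (i : Fin 4) : Cc R V6 := pb Prod.fst (F6.tR R i)

theorem cy_t6 (i : Fin 4) : Cy {univ} {Prod.fst ⁻¹' F6.nz i} 2 (t6 R i) :=
  (sm_F6.cy R i).pull (PM.of_cont continuous_fst Mp.univ (Mp.single fun _ h => h))

theorem t6_lin : Bo {univ} ∅ 2 (t6 R 3 + t6 R 1) := by
  have h := sm_F6.lin R ![0, 0, 1]
  have e : (∑ i, ((∑ k, ![0, 0, 1] k * F6.v i k : ℤ) : R) • F6.tR R i) =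
      F6.tR R 3 + F6.tR R 1 := by
    have : ∀ i, ∑ k, ![0, 0, 1] k * F6.v i k = ![0, 1, 0, 1] i := by decide
    simp [this, Fin.sum_univ_four, add_comm]
  rw [e] at h
  exact h.pull (PM.abs continuous_fst)

/-- A basis pulls back to the product with a line. -/
lemma h1_gb_fst {S : Set (Set F6.X)} {α : Fin 2 → Cc R F6.X} {d : Fin 2 → ℕ}
    (h : GB {univ} S α d) :
    GB {(univ : Set V6)} ((fun U => Prod.fst ⁻¹' U) '' S) (fun j => pb Prod.fst (α j)) d := by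
  have hc : Continuous fun p : V6 × ℝ => ((p.1.1, (1 - p.2) * p.1.2) : V6) := by fun_prop
  refine h.pull (g := fun x => (x, 0)) (H := Prod.fst)
    (H' := fun p : V6 × ℝ => ((p.1.1, (1 - p.2) * p.1.2) : V6))
    (PM.of_cont continuous_fst Mp.univ ?_) (PM.of_cont (by fun_prop) Mp.univ ?_)
    ⟨fun _ _ => continuousOn_fst, fun _ _ => continuousOn_fst,
      fun _ _ _ => ⟨_, rfl, mapsTo_univ _ _⟩, fun U hU _ => ⟨U, hU, fun _ hp => hp.1⟩⟩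
    (fun _ _ _ _ => rfl) (fun _ _ _ _ => rfl)
    ⟨fun _ _ => hc.continuousOn, fun _ _ => hc.continuousOn,
      fun _ _ _ => ⟨_, rfl, mapsTo_univ _ _⟩, ?_⟩
    (fun _ _ _ _ => by simp) fun _ _ _ _ => by simp
  · rintro _ ⟨U, hU, rfl⟩ -
    exact ⟨U, hU, fun _ h => h⟩
  · exact fun U hU _ => ⟨_, ⟨U, hU, rfl⟩, fun _ h => h⟩
  · rintro _ ⟨U, hU, rfl⟩ -
    exact ⟨_, ⟨U, hU, rfl⟩, fun _ hp => hp.1⟩

lemma h1_gb6_gen {K : List (Finset (Fin 4))} {r : List (Fin 3)} (hs : Shell K (L6 r)) :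
    GB {(univ : Set V6)} ((fun U => Prod.fst ⁻¹' U) '' ⋃ ρ ∈ K, {F6.W ρ})
      ![pr (r.map fun k => t6 R (![0, 2, 3] k)), pr ((0 :: r).map fun k => t6 R (![1, 2, 3] k))]
      ![2 * r.length, 2 * (r.length + 1)] := by
  have h := sm_F6.shell R (K := K) (L := L6 r) (A := univ) (fun s hs => ?_) hs ?_
  · convert h1_gb_fst R h using 1
    · funext j
      fin_cases j
      · exact ((pb_pr continuous_fst _).trans (congrArg pr List.map_map)).symm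
      · exact ((pb_pr continuous_fst _).trans (congrArg pr List.map_map)).symm
    · funext j
      fin_cases j <;> rfl
  · simp only [L6, List.mem_cons, List.not_mem_nil, or_false] at hs
    rcases hs with rfl | rfl
    exacts [h1_chart0, h1_chart1]
  · refine (eq_univ_of_forall fun x => Or.inr ?_).symm
    obtain ⟨z, hz, rfl⟩ := cl_surj x
    rcases mem_U6.1 hz with h | h
    · refine mem_iUnion₂.2 ⟨_, List.mem_cons_of_mem _ List.mem_cons_self,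
        (cl_mem_W hz).2 fun i hi => ?_⟩
      obtain rfl : i = 0 := by
        revert i
        change ∀ i ∉ Finset.univ.image (![1, 2, 3] : Fin 3 → Fin 4), i = 0
        decide
      exact h
    · refine mem_iUnion₂.2 ⟨_, List.mem_cons_self, (cl_mem_W hz).2 fun i hi => ?_⟩
      obtain rfl : i = 1 := by
        revert i
        change ∀ i ∉ Finset.univ.image (![0, 2, 3] : Fin 3 → Fin 4), i = 1
        decide
      exact h

theorem gb6_0 : GB {univ} ∅ ![(e1 : Cc R V6), t6 R 1] ![0, 2] := by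
  have h := h1_gb6_gen R (K := []) (r := []) (by decide)
  have e : ((fun U => Prod.fst ⁻¹' U) '' ⋃ ρ ∈ ([] : List (Finset (Fin 4))), {F6.W ρ} :
      Set (Set V6)) = ∅ := by simp
  rw [e] at h
  refine h.congr Ref.univ fun j => Eqv.bo ?_
  fin_cases j
  · exact Eqv.refl
  · exact cup_e1 _

theorem gb6_1 : GB {univ} {Prod.fst ⁻¹' F6.nz 3} ![t6 R 3, cup 2 (t6 R 1) (t6 R 3)] ![2, 4] := by
  have h := h1_gb6_gen R (K := [{3}ᶜ]) (r := [2]) (by decide)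
  have e : ((fun U => Prod.fst ⁻¹' U) '' ⋃ ρ ∈ ([{3}ᶜ] : List (Finset (Fin 4))), {F6.W ρ} :
      Set (Set V6)) = {Prod.fst ⁻¹' F6.nz 3} := by simp [W_compl]
  rw [e] at h
  refine h.congr Ref.univ fun j => Eqv.bo ?_
  fin_cases j
  · exact cup_e1 _
  · exact (Eqv.refl (k := 2)).mul (cup_e1 _)

theorem gb6_2 : GB {univ} {Prod.fst ⁻¹' F6.nz 2, Prod.fst ⁻¹' F6.nz 3}
    ![cup 2 (t6 R 2) (t6 R 3), cup 2 (t6 R 1) (cup 2 (t6 R 2) (t6 R 3))] ![4, 6] := by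
  have h := h1_gb6_gen R (K := [{2}ᶜ, {3}ᶜ]) (r := [1, 2]) (by decide)
  have e : ((fun U => Prod.fst ⁻¹' U) '' ⋃ ρ ∈ ([{2}ᶜ, {3}ᶜ] : List (Finset (Fin 4))), {F6.W ρ} :
      Set (Set V6)) = {Prod.fst ⁻¹' F6.nz 2, Prod.fst ⁻¹' F6.nz 3} := by
    rw [cup_union_cons, cup_union_cons, W_compl, W_compl]
    simp [image_insert_eq, pair_comm]
  rw [e] at h
  refine h.congr Ref.univ fun j => Eqv.bo ?_
  fin_cases j
  · exact (Eqv.refl (k := 2)).mul (cup_e1 _)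
  · exact (Eqv.refl (k := 2)).mul ((Eqv.refl (k := 2)).mul (cup_e1 (p := 2) _))

end Pool.Agent.Lib.MP_bf05b2_gt
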