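import Pool.Agent.Lib.MP_bf05b2_gt.H57Hop1

/-! A family version of the suspended Hopf map: the cohomology. -/

set_option linter.unusedSectionVars false

namespace Pool.Agent.Lib.MP_bf05b2_gt

open Set Finsupp Pool.Agent.Shared.Sing Pool.Agent.Shared.SingEZ Fan

section prod

variable {Z Z' : Type} [TopologicalSpace Z] [Nonempty Z] [TopologicalSpace Z'] [Nonempty Z']
  {R : Type} [CommRing R]

/-- A family together with the two open half spaces. -/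
abbrev hopSu (S : Set (Set (Z × ℝ))) : Set (Set (Z × ℝ)) :=
  S ∪ {univ ∩ {y | 0 < Prod.snd y}, univ ∩ {y | Prod.snd y < 0}}

lemma hop_susp {J : Type} [Fintype J] {β : J → Cc R (Z × ℝ)} {d : J → ℕ} {S : Set (Set (Z × ℝ))}
    (hS : ∀ U ∈ S, ∀ y ∈ U, ∀ a, (y.1, a) ∈ U) (hβ : GB {univ} S β d) :
    GB {univ} (hopSu S) (fun j => cup 1 (eh R Prod.snd) (β j)) fun j => d j + 1 :=
  gb_susp (m := fun p => (p.1.1, p.2)) continuous_snd (by fun_prop) (fun _ _ => rfl)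
    (fun _ => rfl) (fun _ _ _ => mem_univ _) (fun U hU => ⟨subset_univ _, hS U hU⟩) hβ

lemma hop_ref {S : Set (Set (Z × ℝ))} {A : Set (Z × ℝ)}
    (hA : ∀ y, y ∈ A ↔ (∃ U ∈ S, y ∈ U) ∨ y.2 ≠ 0) : Ref (hopSu S) {A} := by
  rintro U (hU | rfl | rfl) -
  · exact ⟨A, rfl, fun y hy => (hA y).2 (.inl ⟨U, hU, hy⟩)⟩
  · exact ⟨A, rfl, fun y hy => (hA y).2 (.inr (ne_of_gt hy.2))⟩
  · exact ⟨A, rfl, fun y hy => (hA y).2 (.inr (ne_of_lt hy.2))⟩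

lemma hop_small {S : Set (Set (Z × ℝ))} {A : Set (Z × ℝ)} (hS : ∀ U ∈ S, IsOpen U)
    (hA : ∀ y, y ∈ A ↔ (∃ U ∈ S, y ∈ U) ∨ y.2 ≠ 0) (k : ℕ) : Triv R {A} (hopSu S) k := by
  have h1 : ∀ U ∈ hopSu S, IsOpen U := by
    rintro U (hU | rfl | rfl)
    · exact hS U hU
    · exact isOpen_univ.inter (isOpen_lt continuous_const continuous_snd)
    · exact isOpen_univ.inter (isOpen_lt continuous_snd continuous_const)
  have h2 : A = ⋃₀ hopSu S := by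
    ext y
    rw [hA]
    constructor
    · rintro (⟨U, hU, hy⟩ | hy)
      · exact ⟨U, .inl hU, hy⟩
      · rcases lt_or_gt_of_ne hy with h | h
        · exact ⟨_, .inr (.inr rfl), mem_univ _, h⟩
        · exact ⟨_, .inr (.inl rfl), mem_univ _, h⟩
    · rintro ⟨U, hU | rfl | rfl, hy⟩
      · exact .inl ⟨U, hU, hy⟩
      · exact .inr (ne_of_gt hy.2)
      · exact .inr (ne_of_lt hy.2)
  refine triv_small ?_ h1 (hop_ref hA) ?_ k
  · rintro U rfl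
    rw [h2]
    exact isOpen_sUnion h1
  · rw [sUnion_singleton, h2]

lemma hop_half (S : Set (Set (Z × ℝ))) :
    Ref (hopSu S) ({{y : Z × ℝ | 0 < y.2}, {y | y.2 < 0}} ∪ (∅ ∪ S)) := by
  rintro U (hU | rfl | rfl) -
  · exact ⟨U, .inr (.inr hU), Subset.rfl⟩
  · exact ⟨_, .inl (.inl rfl), inter_subset_right⟩
  · exact ⟨_, .inl (.inr rfl), inter_subset_right⟩

lemma hop_mp {S : Set (Set (Z × ℝ))} {S' : Set (Set (Z' × ℝ))} {f : Z × ℝ → Z' × ℝ}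
    (h : Mp f S S') (h2 : ∀ y, (f y).2 = y.2) : Mp f (hopSu S) (hopSu S') := by
  rintro U (hU | rfl | rfl) hne
  · obtain ⟨V, hV, hm⟩ := h U hU hne
    exact ⟨V, .inl hV, hm⟩
  · exact ⟨_, .inr (.inl rfl), fun y hy => ⟨mem_univ _, by simpa [h2] using hy.2⟩⟩
  · exact ⟨_, .inr (.inr rfl), fun y hy => ⟨mem_univ _, by simpa [h2] using hy.2⟩⟩

lemma hop_fst {J : Type} [Fintype J] {β : J → Cc R Z} {d : J → ℕ} {A B : Set Z}
    (hβ : GB {univ} {A, B} β d) :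
    GB {univ} {Prod.fst ⁻¹' A, Prod.fst ⁻¹' B} (fun j => pb (Prod.fst : Z × ℝ → Z) (β j)) d := by
  refine hβ.pull (g := fun x => (x, 0)) (H := Prod.fst)
    (H' := fun p => (p.1.1, (1 - p.2) * p.1.2))
    (PM.of_cont continuous_fst Mp.univ ?_) (PM.of_cont (by fun_prop) Mp.univ ?_)
    ⟨fun _ _ => continuousOn_fst, fun _ _ => continuousOn_fst,
      fun U hU _ => ⟨U, hU, fun p hp => hp.1⟩, fun U hU _ => ⟨U, hU, fun p hp => hp.1⟩⟩
    (fun _ _ _ _ => rfl) (fun _ _ _ _ => rfl)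
    ⟨fun _ _ => by fun_prop, fun _ _ => by fun_prop,
      fun _ _ _ => ⟨univ, rfl, mapsTo_univ _ _⟩, ?_⟩ (fun _ _ y _ => by simp)
    (fun _ _ y _ => by simp)
  · rintro U (rfl | rfl) -
    · exact ⟨A, .inl rfl, fun y hy => hy⟩
    · exact ⟨B, .inr rfl, fun y hy => hy⟩
  · rintro U (rfl | rfl) -
    · exact ⟨_, .inl rfl, fun y hy => hy⟩
    · exact ⟨_, .inr rfl, fun y hy => hy⟩
  · rintro U (rfl | rfl) -
    · exact ⟨_, .inl rfl, fun y hy => hy.1⟩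
    · exact ⟨_, .inr rfl, fun y hy => hy.1⟩

end prod

lemma hop_rp_cl {z : Fin 4 → ℂ} (hz : z ∈ F6.U) :
    rp (F6.cl z) = ‖z 2‖ * (‖z 0‖ + ‖z 1‖) := by
  refine lf_cl hz fun g hg => ?_
  obtain ⟨h0, h1, h2, -⟩ := mem_G6.1 hg
  have h3 : ‖g 0‖ ≠ 0 := norm_ne_zero_iff.2 h0
  simp only [Pi.mul_apply, norm_mul, h1, h2, norm_inv]
  field_simp

lemma hop_Sp_Dl : Sp ⊆ Dl := by
  rintro ⟨x, a⟩ ⟨h1, h2⟩
  refine ⟨h1, ?_⟩
  obtain ⟨z, hz, rfl⟩ := cl_surj x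
  have h3 : z 2 = 0 := by
    by_contra h3
    exact h2 ((cl_mem_nz hz).2 h3)
  change rp (F6.cl z) ≤ 1
  rw [hop_rp_cl hz, h3]
  simp

lemma hop_mem_Th (y : V6) : y ∈ Thᶜ ↔
    (∃ U ∈ ({Prod.fst ⁻¹' F6.nz 3} : Set (Set V6)), y ∈ U) ∨ y.2 ≠ 0 := by
  simp only [Th, mem_compl_iff, mem_ofPred_eq, mem_singleton_iff, exists_eq_left, mem_preimage]
  tauto

lemma hop_mem_Sp (y : V6) : y ∈ Spᶜ ↔
    (∃ U ∈ ({Prod.fst ⁻¹' F6.nz 2, Prod.fst ⁻¹' F6.nz 3} : Set (Set V6)), y ∈ U) ∨ y.2 ≠ 0 := by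
  simp only [Sp, Th, mem_compl_iff, mem_inter_iff, mem_ofPred_eq, mem_insert_iff,
    mem_singleton_iff, exists_eq_or_imp, exists_eq_left, mem_preimage]
  tauto

lemma hop_mem_zero (q : PS) : q ∈ ({0}ᶜ : Set PS) ↔
    (∃ U ∈ ({Prod.fst ⁻¹' {w | w 0 ≠ 0}, Prod.fst ⁻¹' {w | w 1 ≠ 0}} : Set (Set PS)), q ∈ U) ∨
      q.2 ≠ 0 := by
  simp only [mem_compl_iff, mem_insert_iff, mem_singleton_iff, exists_eq_or_imp, exists_eq_left,
    mem_preimage, mem_ofPred_eq, Prod.ext_iff, funext_iff, Fin.forall_fin_two, Prod.fst_zero,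
    Prod.snd_zero, Pi.zero_apply]
  tauto

lemma hop_P0_sub : P0 ⊆ ({0}ᶜ : Set PS) := by
  rintro q hq rfl
  simp only [P0, mem_ofPred_eq, Prod.fst_zero, Pi.zero_apply, Prod.snd_zero, Complex.zero_re,
    Complex.zero_im, abs_zero] at hq
  norm_num at hq

variable (R : Type) [CommRing R]

lemma hop_gb1 : GB {univ} (hopSu {Prod.fst ⁻¹' F6.nz 3})
    (fun j => cup 1 (eh R Prod.snd) (![t6 R 3, cup 2 (t6 R 1) (t6 R 3)] j))
    fun j => ![2, 4] j + 1 :=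
  hop_susp (by rintro U rfl y hy a; exact hy) (gb6_1 R)

lemma hop_gb2 : GB {univ} (hopSu {Prod.fst ⁻¹' F6.nz 2, Prod.fst ⁻¹' F6.nz 3})
    (fun j => cup 1 (eh R Prod.snd)
      (![cup 2 (t6 R 2) (t6 R 3), cup 2 (t6 R 1) (cup 2 (t6 R 2) (t6 R 3))] j))
    fun j => ![4, 6] j + 1 :=
  hop_susp (by rintro U (rfl | rfl) y hy a <;> exact hy) (gb6_2 R)

lemma hop_small1 (k : ℕ) : Triv R {Thᶜ} (hopSu {Prod.fst ⁻¹' F6.nz 3}) k :=
  hop_small (by rintro U rfl; exact (isOpen_nz 3).preimage continuous_fst) hop_mem_Th k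

lemma hop_small2 (k : ℕ) :
    Triv R {Spᶜ} (hopSu {Prod.fst ⁻¹' F6.nz 2, Prod.fst ⁻¹' F6.nz 3}) k :=
  hop_small (by rintro U (rfl | rfl) <;> exact (isOpen_nz _).preimage continuous_fst) hop_mem_Sp k

lemma hop_small0 (k : ℕ) : Triv R {({0}ᶜ : Set PS)}
    (hopSu {Prod.fst ⁻¹' {w | w 0 ≠ 0}, Prod.fst ⁻¹' {w | w 1 ≠ 0}}) k :=
  hop_small (by rintro U (rfl | rfl) <;> exact (open_nz _).preimage continuous_fst)
    hop_mem_zero k

/-- The basis relative to the complement of the disc bundle. -/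
lemma hop_gbD : ∃ β : Fin 2 → Cc R V6, GB {univ} {Dlᶜ} β (fun j => ![4, 6] j + 1) ∧
    Cy {univ} {Spᶜ} 5 (β 0) ∧
    Bo {univ} (hopSu {Prod.fst ⁻¹' F6.nz 2, Prod.fst ⁻¹' F6.nz 3}) 5
      (cup 1 (eh R Prod.snd) (cup 2 (t6 R 2) (t6 R 3)) - β 0) := by
  obtain ⟨β, h1, h2⟩ := (hop_gb2 R).to_S (hop_small2 R) (hop_ref hop_mem_Sp) Ref.univ
  exact ⟨β, (gb_S (triv_Sp R) (Ref.single (compl_subset_compl.2 hop_Sp_Dl)) Ref.univ h1.cy).2 h1,
    h1.cy 0, h2 0⟩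

/-- The Thom class of the slice. -/
lemma hop_gbP : GB {(univ : Set PS)}
    (hopSu {Prod.fst ⁻¹' {w | w 0 ≠ 0}, Prod.fst ⁻¹' {w | w 1 ≠ 0}})
    (fun _ : Unit => pb io (cup 1 (eh R Prod.snd) (cup 2 (t6 R 2) (t6 R 3)))) fun _ => 5 := by
  have hs : Continuous fun w : Fin 2 → ℂ => (![1, 0, w 0, w 1] : Fin 4 → ℂ) := by fun_prop
  have h1 := gb_loc R (κ := Fin 2)
    (t := fun k => pb (fun w : Fin 2 → ℂ => F6.cl ![1, 0, w 0, w 1]) (F6.tau (![2, 3] k)))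
    (fun k => sm_F6.isTau_aff hs (fun w => mem_U6.2 (.inl (by simp))) (by fin_cases k <;> simp))
    (l := [0, 1]) (by simp)
  have h2 : (⋃ k ∈ ([0, 1] : List (Fin 2)), ({{w : Fin 2 → ℂ | w k ≠ 0}} : Set (Set _))) =
      {{w | w 0 ≠ 0}, {w | w 1 ≠ 0}} := by
    ext U
    simp [or_comm]
  rw [h2] at h1
  refine (hop_susp (by rintro U (rfl | rfl) y hy a <;> exact hy) (hop_fst h1)).congr Ref.univ
    fun _ => Eqv.bo ?_
  have e : ∀ i, pb (Prod.fst : PS → Fin 2 → ℂ) (bc (Int.castRingHom R)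
      (pb (fun w : Fin 2 → ℂ => F6.cl ![1, 0, w 0, w 1]) (F6.tau i))) = pb io (t6 R i) := by
    intro i
    rw [bc_pb, pb_pb continuous_fst, t6, pb_pb continuous_io]
    rfl
  rw [pb_cup continuous_io, pb_cup continuous_io, pb_pr continuous_fst]
  simp only [List.map_cons, List.map_nil, pr, e, Matrix.cons_val_zero, Matrix.cons_val_one]
  exact Eqv.mul (p := 1) (q := 4) (pb_eh continuous_io Prod.snd).symm
    (Eqv.mul (p := 2) (q := 2) Eqv.refl (cup_e1 _))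

/-- The second square is injective on the Thom class of the open disc bundle. -/
theorem hop_sq {w : Cc (ZMod 2) V6} (hw : Cy {V1 ∪ Dlᶜ} {Dlᶜ} 3 w)
    (h : Bo {V1 ∪ Dlᶜ} {Dlᶜ} 5 (sq 1 3 w)) : Bo {V1 ∪ Dlᶜ} {Dlᶜ} 3 w := by
  have hr1 := hop_ref hop_mem_Th
  obtain ⟨β, h1, h2⟩ := (hop_gb1 (ZMod 2)).to_S (hop_small1 _) hr1 Ref.univ
  have r1 : Ref {V1 ∩ Thᶜ} {Thᶜ} := Ref.single inter_subset_right
  have r2 : Ref {V1 ∩ Thᶜ} {V1} := Ref.single inter_subset_left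
  have r3 : Ref {V1} {V1 ∪ Dlᶜ} := Ref.single subset_union_left
  have r4 : Ref {V1 ∩ Thᶜ} {Dlᶜ} := Ref.single (V1_inter ▸ inter_subset_right)
  have h3 := (gb_S (triv_Th _) r1 Ref.univ h1.cy).2 h1
  have h4 := (gb_T (triv_V1 _) r2 Ref.univ h3.cy).1 h3
  have hw' := hw.mono r3 r4
  obtain ⟨r, hr⟩ := h4.span_one 0 (by decide) hw'
  have h01 : ∀ r : ZMod 2, r = 0 ∨ r = 1 := by decide
  rcases h01 r with rfl | rfl
  · rw [zero_smul, sub_zero, ← V1_inter] at hr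
    exact exo_bo isOpen_V1 isClosed_Dl.isOpen_compl hw hr
  exfalso
  rw [one_smul] at hr
  have h5 : Bo {V1} {V1 ∩ Thᶜ} 5 (sq 1 3 (β 0)) :=
    (sq_congr r2 hw' hr).symm.of_sub (h.mono r3 r4)
  have h6 := (ss_bo (triv_Th _) r1 Ref.univ (h1.cy 0).square
    (ts_bo (triv_V1 _) r2 Ref.univ (h3.cy 0).square h5)).mono Ref.refl hr1
  have h7 := (sq_congr (i := 1) (k := 5) Ref.univ ((hop_gb1 (ZMod 2)).cy 0) (h2 0)).of_sub h6
  have h8 := (sq_susp (h := Prod.snd) Ref.univ (cy_t6 (ZMod 2) 3)).symm.of_sub h7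
  have h9 := (Bo.mul_right (cy_eh Prod.snd)
    ((t6_lin (ZMod 2)).mul_left (cy_t6 (ZMod 2) 3))).mono Ref.refl (hop_half _)
  rw [cup_add_left, cup_add_right] at h9
  have h10 := h9.sub h8
  rw [add_sub_cancel_left, ← one_smul (ZMod 2) (cup 1 _ _)] at h10
  exact one_ne_zero ((hop_gb1 (ZMod 2)).ind_one 1 h10)

theorem triv_Dl : Triv (ZMod 2) {Dlᶜ} ∅ 3 := by
  obtain ⟨β, h1, -⟩ := hop_gbD (ZMod 2)
  exact ((gb6_0 _).triv (by decide)).of_res (h1.triv (by decide)) Ref.empty Ref.univ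

theorem triv_P0 : Triv (ZMod 2) {P0} ∅ 2 := by
  have h1 : Triv (ZMod 2) {(univ : Set PS)} ∅ 2 :=
    triv_contr (H := fun p => (1 - p.2) • p.1) (y₀ := 0) (by fun_prop) (mapsTo_univ _ _)
      (by simp) (by simp) 1
  have h2 : Triv (ZMod 2) {univ} {({0}ᶜ : Set PS)} 3 :=
    Triv.left (hop_small0 _) ((hop_gbP _).triv (by simp)) (hop_ref hop_mem_zero) Ref.univ
  exact (h1.of_res h2 Ref.empty Ref.univ).of_res (triv_P0' _ 3) Ref.empty (Ref.single hop_P0_sub)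

/-- The restriction to a fibre is injective in degree four. -/
theorem hop_fib {φ : Cc (ZMod 2) V6} (hφ : Cy {Dlᶜ} ∅ 4 φ) (h : Bo {P0} ∅ 4 (pb io φ)) :
    Bo {Dlᶜ} ∅ 4 φ := by
  obtain ⟨β, h1, h2, h3⟩ := hop_gbD (ZMod 2)
  obtain ⟨r, hr⟩ := h1.span_one 0 (by decide) (cy_comp_D hφ.1)
  have h4 := hr.pull (PM.of_cont continuous_io Mp.univ (Mp.single io_P0) (T := {univ}))
  rw [pb_sub, pb_smul, pb_D continuous_io] at h4
  have h5 : Bo {univ} {P0} 5 (r • pb io (β 0)) := h4.symm.of_sub (gbx_bo_del h)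
  have hm : Mp io {Prod.fst ⁻¹' {w | w 0 ≠ 0}, Prod.fst ⁻¹' {w | w 1 ≠ 0}}
      {Prod.fst ⁻¹' F6.nz 2, Prod.fst ⁻¹' F6.nz 3} := by
    rintro U (rfl | rfl) -
    · exact ⟨_, .inl rfl, fun q hq => (io_mem_nz q 0).2 hq⟩
    · exact ⟨_, .inr rfl, fun q hq => (io_mem_nz q 1).2 hq⟩
  have hm' : MapsTo io ({0}ᶜ : Set PS) Spᶜ := by
    intro q hq
    rw [hop_mem_Sp]
    rcases (hop_mem_zero q).1 hq with ⟨U, hU, hq⟩ | hq
    · obtain ⟨V, hV, hm⟩ := hm U hU ⟨q, hq⟩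
      exact .inl ⟨V, hV, hm hq⟩
    · exact .inr hq
  have h6 := (ss_bo (triv_P0' _) (Ref.single hop_P0_sub) Ref.univ
    ((h2.pull (PM.of_cont continuous_io Mp.univ (Mp.single hm'))).smul r) h5).mono Ref.refl
      (hop_ref hop_mem_zero)
  have h7 := (h3.pull (PM.of_cont continuous_io Mp.univ (hop_mp hm fun _ => rfl)
    (T := {univ}))).smul r
  rw [pb_sub, smul_sub] at h7
  have h8 : r = 0 := (hop_gbP (ZMod 2)).ind_one () (h7.of_sub h6)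
  rw [h8, zero_smul, sub_zero] at hr
  obtain ⟨ψ, h9, h10⟩ := ex_ext Ref.empty hφ hr
  exact (((gb6_0 _).triv (by decide) ψ h9).mono Ref.univ Ref.refl).congr h10

end Pool.Agent.Lib.MP_bf05b2_gt
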