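import Pool.Agent.Lib.MP_bf05b2_gt.H57Hop2

/-! The suspended Hopf map has non-trivial functional square. -/

set_option linter.unusedSectionVars false

namespace Pool.Agent.Lib.MP_bf05b2_gt

open Set Finsupp Pool.Agent.Shared.Sing Pool.Agent.Shared.SingEZ Fan

variable {u β : Cc (ZMod 2) (Fin 2 → ℂ)}

/-- A normal slice. -/
noncomputable def Hop3.j (v : Fin 2 → ℂ) : V6 :=
  io (![((Real.exp (-(v 0).re) : ℝ) : ℂ), v 1], (v 0).im)

lemma Hop3.continuous_j : Continuous Hop3.j := by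
  refine continuous_io.comp (Continuous.prodMk (continuous_pi fun i => ?_) (by fun_prop))
  fin_cases i
  · change Continuous fun v : Fin 2 → ℂ => ((Real.exp (-(v 0).re) : ℝ) : ℂ)
    fun_prop
  · exact continuous_apply 1

lemma Hop3.ne {v : Fin 2 → ℂ} (hv : v ∈ S2) {s : ℝ} (hs : s ∈ Icc (0 : ℝ) 1) :
    (1 - s) • v + s • G6 (Hop3.j v) ∈ S2 := by
  intro h
  have h : (1 - s) • v + s • G6 (Hop3.j v) = 0 := h
  rw [Hop3.j, G6_io] at h
  have he := Real.exp_pos (-(v 0).re)
  have h0 := congrFun h 0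
  have h1 := congrFun h 1
  simp only [g0, Pi.add_apply, Pi.smul_apply, Matrix.cons_val_zero, Matrix.cons_val_one,
    Pi.zero_apply, Complex.norm_real, Real.norm_eq_abs, abs_of_pos he, Complex.conj_ofReal,
    Matrix.cons_val_fin_one] at h0 h1
  have hre := congrArg Complex.re h0
  have him := congrArg Complex.im h0
  simp only [Complex.add_re, Complex.add_im, Complex.smul_re, Complex.smul_im, Complex.sub_re,
    Complex.sub_im, Complex.one_re, Complex.one_im, Complex.ofReal_re, Complex.ofReal_im,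
    Complex.mul_re, Complex.mul_im, Complex.I_re, Complex.I_im, Complex.zero_re, Complex.zero_im,
    smul_eq_mul] at hre him
  have ha : (v 0).re = 0 := by
    rcases lt_trichotomy (v 0).re 0 with ha | ha | ha
    · have : 1 < Real.exp (-(v 0).re) := Real.one_lt_exp_iff.2 (by linarith)
      rcases hs.1.eq_or_lt with h2 | h2
      · subst h2
        linarith
      · nlinarith [mul_nonneg (sub_nonneg.2 hs.2) (neg_nonneg.2 ha.le),
          mul_pos h2 (sub_pos.2 this)]
    · exact ha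
    · have : Real.exp (-(v 0).re) < 1 := Real.exp_lt_one_iff.2 (by linarith)
      rcases hs.1.eq_or_lt with h2 | h2
      · subst h2
        linarith
      · nlinarith [mul_nonneg (sub_nonneg.2 hs.2) ha.le, mul_pos h2 (sub_pos.2 this)]
  have hb : (v 0).im = 0 := by linarith
  have hc : v 1 = 0 := by
    have h2 : ((1 - s + s * Real.exp (-(v 0).re) : ℝ) : ℂ) * v 1 = 0 := by
      rw [← h1, Complex.real_smul, Complex.real_smul]
      push_cast
      ring
    refine (mul_eq_zero.1 h2).resolve_left (Complex.ofReal_ne_zero.2 (ne_of_gt ?_))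
    rcases hs.1.eq_or_lt with h3 | h3
    · subst h3
      norm_num
    · have := mul_pos h3 he
      linarith [hs.2]
  refine hv (funext fun i => ?_)
  fin_cases i
  · exact Complex.ext ha hb
  · exact hc

/-- The degree on a normal slice. -/
theorem hop_deg (hu : Cy {S2} ∅ 3 u) (h : Bo {G6 ⁻¹' S2} ∅ 3 (pb G6 u)) : Bo {S2} ∅ 3 u := by
  have hm : MapsTo Hop3.j S2 (G6 ⁻¹' S2) := fun v hv => by
    simpa using Hop3.ne hv (s := 1) ⟨zero_le_one, le_rfl⟩
  have h1 := h.pull (PM.of_cont (T := {S2}) (S := ∅) Hop3.continuous_j (Mp.single hm) Mp.empty)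
  rw [pb_pb Hop3.continuous_j] at h1
  have hc : Continuous fun p : (Fin 2 → ℂ) × ℝ => (1 - p.2) • p.1 + p.2 • G6 (Hop3.j p.1) := by
    have := continuous_G6.comp (Hop3.continuous_j.comp
      (continuous_fst : Continuous fun p : (Fin 2 → ℂ) × ℝ => p.1))
    exact ((continuous_const.sub continuous_snd).smul continuous_fst).add
      (continuous_snd.smul this)
  have h2 := hu.htp (T := {S2}) (S := ∅)
    (H := fun p : (Fin 2 → ℂ) × ℝ => (1 - p.2) • p.1 + p.2 • G6 (Hop3.j p.1))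
    ⟨fun _ _ => hc.continuousOn, fun _ h => h.elim,
      fun U hU _ => ⟨S2, rfl, fun p hp => Hop3.ne (hU ▸ hp.1) hp.2⟩, fun _ h => h.elim⟩
  have e1 : (fun y : Fin 2 → ℂ => (1 - (1 : ℝ)) • y + (1 : ℝ) • G6 (Hop3.j y)) = G6 ∘ Hop3.j := by
    funext y
    simp
  have e0 : (fun y : Fin 2 → ℂ => (1 - (0 : ℝ)) • y + (0 : ℝ) • G6 (Hop3.j y)) = id := by
    funext y
    simp
  simp only [e1, e0, pb_id] at h2
  exact h2.symm.of_sub h1

theorem hopf (hu : Adm u β) : ¬ QQ u β g0 P0 := by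
  rintro ⟨ν₀, hν₀, hQ⟩
  obtain ⟨hw, hb⟩ := hu.cy_pb (A := G6 ⁻¹' S2) continuous_G6.continuousOn (mapsTo_preimage _ _)
  have hA : Dlᶜ ⊆ G6 ⁻¹' S2 := V0_eq ▸ subset_union_right
  obtain ⟨ν, -, hν⟩ := triv_Dl _ (hw.mono (Ref.single hA) Ref.refl)
  have hφ := cy_Qc (hb.mono (Ref.single hA)) hν
  have e : G6 ∘ io = g0 := funext G6_io
  have h1 : Eqv {P0} 3 (pb io ν ∘ₗ D) (ν₀ ∘ₗ D) := by
    have := hν.pull (T := {P0}) (fun _ _ => continuous_io.continuousOn) (Mp.single io_P0)
    rw [pb_pb continuous_io, e, pb_D continuous_io] at this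
    exact this.symm.trans hν₀
  have h2 : Bo {P0} ∅ 4 (pb io (Qc (pb G6 β) ν)) := by
    refine ((Qc_indep triv_P0 h1).of_sub hQ).congr ?_
    have := pb_Qc (A' := P0) continuous_io.continuousOn (pb G6 β) ν
    rw [pb_pb continuous_io, e] at this
    exact this.symm
  have h3 := sq_of_Qc hA hw hb hν (hop_fib hφ h2)
  have h4 : Cy {G6 ⁻¹' S2} {Dlᶜ} 3 (pb G6 u + ν ∘ₗ D) := by
    refine ⟨?_, fun c hc => ?_⟩
    · rw [LinearMap.add_comp, comp_D_D, add_zero]
      exact hw.1
    · rw [LinearMap.add_apply, hν c hc]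
      exact CharTwo.add_self_eq_zero _
  rw [V0_eq] at h3 h4
  have h5 := (hop_sq h4 h3).mono Ref.refl Ref.empty
  rw [← V0_eq] at h5
  refine hu.nb (hop_deg hu.cy ?_)
  simpa using h5.sub (bo_comp_D (ψ := ν) Eqv.empty)

/-- A real linear automorphism. -/
noncomputable def Lm (v : Fin 2 → ℂ) : Fin 2 → ℂ :=
  ![(((v 0).re - 2 * (v 0).im : ℝ) : ℂ) + (((v 1).re - (v 1).im : ℝ) : ℂ) * Complex.I,
    (((v 0).re + 2 * (v 0).im : ℝ) : ℂ) + (((v 1).re + (v 1).im : ℝ) : ℂ) * Complex.I]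

/-- The inverse of `Lm`. -/
noncomputable def Hop3.inv (w : Fin 2 → ℂ) : Fin 2 → ℂ :=
  ![((((w 0).re + (w 1).re) / 2 : ℝ) : ℂ) + ((((w 1).re - (w 0).re) / 4 : ℝ) : ℂ) * Complex.I,
    ((((w 0).im + (w 1).im) / 2 : ℝ) : ℂ) + ((((w 1).im - (w 0).im) / 2 : ℝ) : ℂ) * Complex.I]

lemma Hop3.right_inv (w : Fin 2 → ℂ) : Lm (Hop3.inv w) = w := by
  funext i
  fin_cases i <;> apply Complex.ext <;>
    simp only [Lm, Hop3.inv, Fin.zero_eta, Fin.mk_one, Fin.isValue, Matrix.cons_val_zero,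
      Matrix.cons_val_one, Matrix.cons_val_fin_one, Complex.add_re, Complex.add_im,
      Complex.ofReal_re, Complex.ofReal_im, Complex.mul_re, Complex.mul_im, Complex.I_re,
      Complex.I_im] <;> ring

lemma Hop3.left_inv (w : Fin 2 → ℂ) : Hop3.inv (Lm w) = w := by
  funext i
  fin_cases i <;> apply Complex.ext <;>
    simp only [Lm, Hop3.inv, Fin.zero_eta, Fin.mk_one, Fin.isValue, Matrix.cons_val_zero,
      Matrix.cons_val_one, Matrix.cons_val_fin_one, Complex.add_re, Complex.add_im,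
      Complex.ofReal_re, Complex.ofReal_im, Complex.mul_re, Complex.mul_im, Complex.I_re,
      Complex.I_im] <;> ring

theorem hopf' (hu : Adm u β) : ¬ QQ u β (Lm ∘ g0) P0 := fun h => by
  have hL : Continuous Lm := by
    refine continuous_pi fun i => ?_
    fin_cases i <;> simp only [Lm, Fin.zero_eta, Fin.mk_one, Fin.isValue, Matrix.cons_val_zero,
      Matrix.cons_val_one, Matrix.cons_val_fin_one] <;> fun_prop
  have hL' : Continuous Hop3.inv := by
    refine continuous_pi fun i => ?_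
    fin_cases i <;> simp only [Hop3.inv, Fin.zero_eta, Fin.mk_one, Fin.isValue,
      Matrix.cons_val_zero, Matrix.cons_val_one, Matrix.cons_val_fin_one] <;> fun_prop
  have z1 : Lm 0 = 0 := by
    funext i
    fin_cases i <;> simp [Lm]
  have z2 : Hop3.inv 0 = 0 := by
    funext i
    fin_cases i <;> simp [Hop3.inv]
  refine hopf (hu.comp hL hL' (fun v hv h0 => hv ?_) (fun v hv h0 => hv ?_) Hop3.right_inv)
    (h.comp continuous_g0.continuousOn)
  · have h0 : Lm v = 0 := h0
    change v = 0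
    rw [← Hop3.left_inv v, h0, z2]
  · have h0 : Hop3.inv v = 0 := h0
    change v = 0
    rw [← Hop3.right_inv v, h0, z1]

end Pool.Agent.Lib.MP_bf05b2_gt
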