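import Pool.Agent.Lib.MP_bf05b2_gt.H57Data
import Pool.Agent.Lib.MP_bf05b2_gt.H57Hop3

/-! An explicit section in normalised coordinates, and the inequalities locating its zeros. -/

set_option linter.unusedSectionVars false

namespace Pool.Agent.Lib.MP_bf05b2_gt

open Set Fan Complex

/-- The determinant of the horizontal parts of two rays. -/
def dt (i j : Fin 14) : ℤ := vB i 0 * vB j 1 - vB i 1 * vB j 0

/-- Exponents of the correction terms of the first component. -/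
def n1 (j k : Fin 14) : ℤ := aB k - dt k j

/-- Exponents of the correction terms of the second component. -/
def n2 (i k : Fin 14) : ℤ := bB k - dt i k

/-- A power with the conjugate in place of the inverse. -/
noncomputable def pw (z : ℂ) (n : ℤ) : ℂ := z ^ n.toNat * (starRingEnd ℂ) z ^ (-n).toNat

/-- A monomial with conjugates in place of inverses. -/
noncomputable def mono (n : Fin 14 → ℤ) (w : Fin 14 → ℂ) : ℂ := ∏ k, pw (w k) (n k)

/-- The weight of a ray. -/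
noncomputable def wt (a : Fin 14 → ℤ) (w : Fin 14 → ℂ) (k : Fin 14) : ℝ := a k * (1 - ‖w k‖)

/-- The first component. -/
noncomputable def Sa (w : Fin 14 → ℂ) : ℂ :=
  mono aB w - (∑ i, wt aB w i : ℝ) * ∑ j, (wt bB w j : ℝ) * mono (n1 j) w

/-- The second component. -/
noncomputable def Sb (w : Fin 14 → ℂ) : ℂ :=
  mono bB w - (∑ j, wt bB w j : ℝ) * ∑ i, (wt aB w i : ℝ) * mono (n2 i) w

/-- Coefficients of a point of a cone. -/
def Cn (c : Fin 14 → ℝ) : Prop := (∀ k, 0 ≤ c k) ∧ ∃ s ∈ LB, ∀ k ∉ s.cone, c k = 0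

/-- The point of the torus with moduli `exp (-c k)` and arguments `θ`. -/
noncomputable def ex (c : Fin 14 → ℝ) (θ : ℂ) (k : Fin 14) : ℂ :=
  exp (-(c k : ℂ) + (if k = 1 then (θ.re : ℂ) else if k = 2 then (θ.im : ℂ) else 0) * I)

/-- The horizontal part of the point with coefficients `a k * c k`. -/
noncomputable def hz (a : Fin 14 → ℤ) (c : Fin 14 → ℝ) : ℂ :=
  ∑ k, ((a k * c k : ℝ) : ℂ) * ((vB k 0 : ℂ) + (vB k 1 : ℂ) * I)

/-- The sum of the coefficients. -/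
noncomputable def ht (a : Fin 14 → ℤ) (c : Fin 14 → ℝ) : ℝ := ∑ k, a k * c k

/-- The determinant of two complex numbers. -/
noncomputable def det2 (x y : ℂ) : ℝ := x.re * y.im - x.im * y.re

/-- The section on the slice, without the phase. -/
noncomputable def G1 (c : Fin 14 → ℝ) (θ : ℂ) : Fin 2 → ℂ :=
  ![exp (-((θ.re + θ.im : ℝ) : ℂ) * I) * Sa (ex c θ), Sb (ex c θ)]

/-- Its piecewise linear model. -/
noncomputable def G2 (c : Fin 14 → ℝ) (θ : ℂ) : Fin 2 → ℂ :=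
  ![((1 - ‖hz aB c + hz bB c‖ - 2 * (ht aB c - ht bB c) : ℝ) : ℂ) + (det2 θ (hz bB c) : ℝ) * I,
    ((1 - ‖hz aB c + hz bB c‖ + 2 * (ht aB c - ht bB c) : ℝ) : ℂ) + (det2 (hz aB c) θ : ℝ) * I]

lemma dt_cone : ∀ s ∈ LB, ∀ i ∈ s.cone, ∀ j ∈ s.cone, aB i = 1 → bB j = 1 → dt i j = 1 := by
  decide +kernel

lemma ineq_ab : ∀ k, (aB k = 1 ∧ bB k = 0) ∨ (aB k = 0 ∧ bB k = 1) := by decide +kernel

lemma ineq_dt_le : ∀ s ∈ LB, ∀ i ∈ s.cone, ∀ j ∈ s.cone, |dt i j| ≤ 1 := by decide +kernel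

lemma ineq_one : ∀ s ∈ LB, (∀ i ∈ s.cone, ∀ j ∈ s.cone, bB i = 1 → bB j = 1 → dt i j = 0) ∨
    ∀ i ∈ s.cone, ∀ j ∈ s.cone, aB i = 1 → aB j = 1 → dt i j = 0 := by decide +kernel

lemma ineq_vB : ∀ k, |vB k 0| ≤ 1 ∧ |vB k 1| ≤ 1 ∧ vB k 0 ^ 2 + vB k 1 ^ 2 ≤ 2 ∧
    (aB k = 1 → vB k 0 ^ 2 + vB k 1 ^ 2 ≤ 1) ∧ dt 1 k = vB k 1 ∧ dt 2 k = -vB k 0 ∧
    dt k 1 = -vB k 1 ∧ dt k 2 = vB k 0 := by decide +kernel

/-- The horizontal part of a ray. -/
noncomputable def ineq_V (k : Fin 14) : ℂ := (vB k 0 : ℂ) + (vB k 1 : ℂ) * I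

@[simp] lemma ineq_V_re (k : Fin 14) : (ineq_V k).re = vB k 0 := by simp [ineq_V]

@[simp] lemma ineq_V_im (k : Fin 14) : (ineq_V k).im = vB k 1 := by simp [ineq_V]

lemma ineq_det_r (θ : ℂ) (x : Fin 14 → ℝ) :
    det2 θ (∑ k, (x k : ℂ) * ineq_V k) = ∑ k, x k * det2 θ (ineq_V k) := by
  simp only [det2, re_sum, im_sum, re_ofReal_mul, im_ofReal_mul, Finset.mul_sum,
    ← Finset.sum_sub_distrib]
  exact Finset.sum_congr rfl fun k _ => by ring

lemma ineq_det_l (θ : ℂ) (x : Fin 14 → ℝ) :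
    det2 (∑ k, (x k : ℂ) * ineq_V k) θ = ∑ k, x k * det2 (ineq_V k) θ := by
  simp only [det2, re_sum, im_sum, re_ofReal_mul, im_ofReal_mul, Finset.sum_mul,
    ← Finset.sum_sub_distrib]
  exact Finset.sum_congr rfl fun k _ => by ring

lemma ineq_det_sum {t : Step (Fin 14) (Fin 3)} (ht : t ∈ LB) {x y : Fin 14 → ℝ}
    (hy : ∀ i, y i ≠ 0 → i ∈ t.cone ∧ aB i = 1) (hx : ∀ j, x j ≠ 0 → j ∈ t.cone ∧ bB j = 1) :
    det2 (∑ k, (y k : ℂ) * ineq_V k) (∑ k, (x k : ℂ) * ineq_V k) = (∑ k, y k) * ∑ k, x k := by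
  rw [ineq_det_l, Finset.sum_mul]
  refine Finset.sum_congr rfl fun i _ => ?_
  rw [ineq_det_r]
  by_cases h : y i = 0
  · simp [h]
  congr 1
  refine Finset.sum_congr rfl fun j _ => ?_
  by_cases h' : x j = 0
  · simp [h']
  have := dt_cone t ht i (hy i h).1 j (hx j h').1 (hy i h).2 (hx j h').2
  have e : det2 (ineq_V i) (ineq_V j) = (dt i j : ℝ) := by simp [det2, dt]
  rw [e, this]; simp

lemma ineq_par {θ X Y : ℂ} (h1 : det2 θ X = 0) (h2 : det2 Y θ = 0) (h3 : det2 Y X ≠ 0) : θ = 0 := by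
  unfold det2 at *
  apply Complex.ext
  · refine (mul_eq_zero.1 (?_ : θ.re * (Y.re * X.im - Y.im * X.re) = 0)).resolve_right h3
    linear_combination Y.re * h1 + X.re * h2
  · refine (mul_eq_zero.1 (?_ : θ.im * (Y.re * X.im - Y.im * X.re) = 0)).resolve_right h3
    linear_combination Y.im * h1 + X.im * h2

lemma ineq_norm {a : Fin 14 → ℤ} {c : Fin 14 → ℝ} {m : ℝ} (h : ∀ k, 0 ≤ a k * c k)
    (hm : 0 ≤ m) (h' : ∀ k, a k * c k ≠ 0 → ((vB k 0 ^ 2 + vB k 1 ^ 2 : ℤ) : ℝ) ≤ m ^ 2) :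
    ‖hz a c‖ ≤ m * ht a c := by
  unfold hz ht
  rw [Finset.mul_sum]
  refine (norm_sum_le _ _).trans (Finset.sum_le_sum fun k _ => ?_)
  rw [norm_mul, norm_real, Real.norm_of_nonneg (h k), mul_comm]
  by_cases g : a k * c k = 0
  · simp [g]
  refine mul_le_mul_of_nonneg_right (abs_le_of_sq_le_sq' ?_ hm).2 (h k)
  change ‖ineq_V k‖ ^ 2 ≤ _
  rw [Complex.sq_norm, normSq_apply, ineq_V_re, ineq_V_im]
  have := h' k g
  push_cast at this
  linarith

variable {c : Fin 14 → ℝ} {θ : ℂ} {s : ℝ}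

lemma ineq_a0 (hc : Cn c) (k : Fin 14) : 0 ≤ aB k * c k := by
  rcases ineq_ab k with h | h <;> simp [h.1, hc.1 k]

lemma ineq_b0 (hc : Cn c) (k : Fin 14) : 0 ≤ bB k * c k := by
  rcases ineq_ab k with h | h <;> simp [h.2, hc.1 k]

lemma ineq_hA (hc : Cn c) : 0 ≤ ht aB c := Finset.sum_nonneg fun k _ => ineq_a0 hc k

lemma ineq_hB (hc : Cn c) : 0 ≤ ht bB c := Finset.sum_nonneg fun k _ => ineq_b0 hc k

lemma ineq_pA (hc : Cn c) : ‖hz aB c‖ ≤ ht aB c := by
  simpa using ineq_norm (m := 1) (ineq_a0 hc) zero_le_one fun k hk => by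
    rcases ineq_ab k with h | h
    · exact_mod_cast (ineq_vB k).2.2.2.1 h.1
    · simp [h.1] at hk

lemma ineq_pB (hc : Cn c) : ‖hz bB c‖ ≤ 3 / 2 * ht bB c :=
  ineq_norm (ineq_b0 hc) (by norm_num) fun k _ => by
    have : ((vB k 0 ^ 2 + vB k 1 ^ 2 : ℤ) : ℝ) ≤ 2 := by exact_mod_cast (ineq_vB k).2.2.1
    linarith

lemma det2_hz (hc : Cn c) : det2 (hz aB c) (hz bB c) = ht aB c * ht bB c := by
  obtain ⟨t, ht, h⟩ := hc.2
  refine ineq_det_sum ht (fun i hi => ⟨by_contra fun g => hi (by simp [h i g]), ?_⟩)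
    fun i hi => ⟨by_contra fun g => hi (by simp [h i g]), ?_⟩
  · rcases ineq_ab i with g | g
    · exact g.1
    · simp [g.1] at hi
  · rcases ineq_ab i with g | g
    · simp [g.2] at hi
    · exact g.2

/-- The modulus of a monomial. -/
noncomputable def ineq_E (n : Fin 14 → ℤ) (c : Fin 14 → ℝ) : ℝ := Real.exp (-∑ k, |(n k : ℝ)| * c k)

/-- The weight of a ray on the slice. -/
noncomputable def ineq_w (a : Fin 14 → ℤ) (c : Fin 14 → ℝ) (k : Fin 14) : ℝ :=
  a k * (1 - Real.exp (-c k))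

lemma ineq_pw (x φ : ℝ) (n : ℤ) : pw (exp (-(x : ℂ) + φ * I)) n =
    exp (-((|(n : ℝ)| * x : ℝ) : ℂ) + (n * φ : ℝ) * I) := by
  have e : (starRingEnd ℂ) (exp (-(x : ℂ) + φ * I)) = exp (-(x : ℂ) - φ * I) := by
    rw [← exp_conj]; congr 1; simp [sub_eq_add_neg]
  unfold pw
  rw [e, ← exp_nat_mul, ← exp_nat_mul, ← exp_add]
  congr 1
  obtain ⟨m, rfl | rfl⟩ := n.eq_nat_or_neg
  · simp; ring
  · simp; ring

lemma ineq_mono (n : Fin 14 → ℤ) : mono n (ex c θ) =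
    ineq_E n c * exp (((n 1 * θ.re + n 2 * θ.im : ℝ) : ℂ) * I) := by
  have e : ∀ k, ex c θ k = exp (-(c k : ℂ) +
      ((if k = 1 then θ.re else if k = 2 then θ.im else 0 : ℝ) : ℂ) * I) := fun k => by
    unfold ex; split_ifs <;> simp
  have e2 : ∑ k, (n k : ℝ) * (if k = 1 then θ.re else if k = 2 then θ.im else 0) =
      n 1 * θ.re + n 2 * θ.im := by simp [Fin.sum_univ_succ]
  unfold mono ineq_E
  simp only [e, ineq_pw]
  rw [← exp_sum, ofReal_exp, ← exp_add, ← e2, Finset.sum_add_distrib, ← Finset.sum_mul]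
  simp

lemma ineq_wt (a : Fin 14 → ℤ) (k : Fin 14) : wt a (ex c θ) k = ineq_w a c k := by
  unfold wt ineq_w ex
  rw [norm_exp]
  split_ifs <;> simp

lemma ineq_EA : ineq_E aB c = Real.exp (-ht aB c) := by
  unfold ineq_E ht
  congr 2
  exact Finset.sum_congr rfl fun k _ => by rcases ineq_ab k with h | h <;> simp [h.1]

lemma ineq_EB : ineq_E bB c = Real.exp (-ht bB c) := by
  unfold ineq_E ht
  congr 2
  exact Finset.sum_congr rfl fun k _ => by rcases ineq_ab k with h | h <;> simp [h.2]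

lemma ineq_G10 : G1 c θ 0 = Real.exp (-ht aB c) - (∑ i, ineq_w aB c i : ℝ) *
    ∑ j, (ineq_w bB c j * ineq_E (n1 j) c : ℝ) * exp ((-det2 θ (ineq_V j) : ℝ) * I) := by
  have a1 : aB 1 = 1 := rfl
  have a2 : aB 2 = 1 := rfl
  simp only [G1, Matrix.cons_val_zero, Sa, ineq_mono, ineq_wt, ineq_EA, mul_sub]
  congr 1
  · rw [mul_left_comm, ← exp_add, a1, a2]; simp; ring_nf; simp
  · rw [mul_left_comm]
    congr 1
    rw [Finset.mul_sum]
    refine Finset.sum_congr rfl fun j _ => ?_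
    rw [mul_left_comm, mul_left_comm (exp _), ← exp_add, ofReal_mul, mul_assoc]
    congr 3
    simp only [n1, a1, a2, (ineq_vB j).2.2.2.2.1, (ineq_vB j).2.2.2.2.2.1, det2, ineq_V_re,
      ineq_V_im]
    push_cast; ring

lemma ineq_G11 : G1 c θ 1 = Real.exp (-ht bB c) - (∑ j, ineq_w bB c j : ℝ) *
    ∑ i, (ineq_w aB c i * ineq_E (n2 i) c : ℝ) * exp ((-det2 (ineq_V i) θ : ℝ) * I) := by
  have a1 : bB 1 = 0 := rfl
  have a2 : bB 2 = 0 := rfl
  simp only [G1, Matrix.cons_val_one, Matrix.cons_val_zero, Sb, ineq_mono, ineq_wt, ineq_EB]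
  congr 1
  · rw [a1, a2]; simp
  · congr 1
    refine Finset.sum_congr rfl fun j _ => ?_
    rw [ofReal_mul, mul_assoc]
    congr 3
    simp only [n2, a1, a2, (ineq_vB j).2.2.2.2.2.2.1, (ineq_vB j).2.2.2.2.2.2.2, det2, ineq_V_re,
      ineq_V_im]
    push_cast; ring

lemma ineq_parts (h : (1 - s) • G1 c θ + s • G2 c θ = 0) :
    (1 - s) * (Real.exp (-ht aB c) - (∑ i, ineq_w aB c i) *
        ∑ j, ineq_w bB c j * ineq_E (n1 j) c * Real.cos (det2 θ (ineq_V j))) +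
      s * (1 - ‖hz aB c + hz bB c‖ - 2 * (ht aB c - ht bB c)) = 0 ∧
    (1 - s) * ((∑ i, ineq_w aB c i) *
        ∑ j, ineq_w bB c j * ineq_E (n1 j) c * Real.sin (det2 θ (ineq_V j))) +
      s * det2 θ (hz bB c) = 0 ∧
    (1 - s) * (Real.exp (-ht bB c) - (∑ j, ineq_w bB c j) *
        ∑ i, ineq_w aB c i * ineq_E (n2 i) c * Real.cos (det2 (ineq_V i) θ)) +
      s * (1 - ‖hz aB c + hz bB c‖ + 2 * (ht aB c - ht bB c)) = 0 ∧
    (1 - s) * ((∑ j, ineq_w bB c j) *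
        ∑ i, ineq_w aB c i * ineq_E (n2 i) c * Real.sin (det2 (ineq_V i) θ)) +
      s * det2 (hz aB c) θ = 0 := by
  have h0 := congrFun h 0
  have h1 := congrFun h 1
  simp only [Pi.add_apply, Pi.smul_apply, Pi.zero_apply, ineq_G10, ineq_G11, G2,
    Matrix.cons_val_zero, Matrix.cons_val_one] at h0 h1
  have r0 := congrArg re h0
  have i0 := congrArg im h0
  have r1 := congrArg re h1
  have i1 := congrArg im h1
  simp only [add_re, add_im, smul_re, smul_im, sub_re, sub_im, ofReal_re, ofReal_im,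
    re_ofReal_mul, im_ofReal_mul, re_sum, im_sum, exp_ofReal_mul_I_re, exp_ofReal_mul_I_im,
    Real.cos_neg, Real.sin_neg, I_re, I_im, mul_zero, mul_one, add_zero, zero_add, zero_re,
    zero_im, smul_eq_mul, mul_neg, Finset.sum_neg_distrib, zero_sub, neg_neg] at r0 i0 r1 i1
  exact ⟨r0, i0, r1, i1⟩

lemma ineq_sin {φ : ℝ} (h : |φ| ≤ 2) : ∃ u, 0 < u ∧ Real.sin φ = u * φ := by
  have hp := Real.pi_gt_three
  rw [abs_le] at h
  rcases lt_trichotomy φ 0 with g | rfl | g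
  · exact ⟨Real.sin φ / φ, div_pos_of_neg_of_neg
      (Real.sin_neg_of_neg_of_neg_pi_lt g (by linarith)) g, by field_simp [g.ne]⟩
  · exact ⟨1, one_pos, by simp⟩
  · exact ⟨Real.sin φ / φ, div_pos (Real.sin_pos_of_pos_of_lt_pi g (by linarith)) g,
      by field_simp⟩

lemma ineq_w0 {a : Fin 14 → ℤ} (ha : ∀ k, a k = 0 ∨ a k = 1) (hc : Cn c) (k : Fin 14) :
    0 ≤ ineq_w a c k ∧ (ineq_w a c k = 0 ↔ a k * c k = 0) := by
  unfold ineq_w
  rcases ha k with h | h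
  · simp [h]
  · simp only [h, Int.cast_one, one_mul, sub_nonneg, Real.exp_le_one_iff, neg_nonpos, hc.1 k,
      true_and, sub_eq_zero]
    rw [eq_comm, Real.exp_eq_one_iff, neg_eq_zero]

lemma ineq_a01 (k : Fin 14) : aB k = 0 ∨ aB k = 1 := by rcases ineq_ab k with h | h <;> simp [h.1]

lemma ineq_b01 (k : Fin 14) : bB k = 0 ∨ bB k = 1 := by rcases ineq_ab k with h | h <;> simp [h.2]

lemma ineq_supp {a : Fin 14 → ℤ} (ha : ∀ k, a k = 0 ∨ a k = 1) {t : Step (Fin 14) (Fin 3)}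
    (h : ∀ k ∉ t.cone, c k = 0) {k : Fin 14} (hk : a k * c k ≠ 0) : k ∈ t.cone ∧ a k = 1 :=
  ⟨by_contra fun g => hk (by simp [h k g]), (ha k).resolve_left fun g => hk (by simp [g])⟩

lemma ineq_zero {a : Fin 14 → ℤ} (ha : ∀ k, a k = 0 ∨ a k = 1) (hc : Cn c) (h : ht a c = 0) :
    hz a c = 0 ∧ ∑ k, ineq_w a c k = 0 := by
  have : ∀ k, a k * c k = 0 := fun k => (Finset.sum_eq_zero_iff_of_nonneg fun k _ => by
    rcases ha k with g | g <;> simp [g, hc.1 k]).1 h k (Finset.mem_univ k)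
  exact ⟨Finset.sum_eq_zero fun k _ => by rw [this k]; simp,
    Finset.sum_eq_zero fun k _ => (ineq_w0 ha hc k).2.2 (this k)⟩

lemma ineq_lower {a : Fin 14 → ℤ} (ha : ∀ k, a k = 0 ∨ a k = 1) (hc : Cn c) :
    1 - Real.exp (-ht a c) ≤ ∑ k, ineq_w a c k := by
  have key : ∀ S : Finset (Fin 14), 0 ≤ ∑ k ∈ S, a k * c k ∧
      1 - Real.exp (-∑ k ∈ S, a k * c k) ≤ ∑ k ∈ S, ineq_w a c k := by
    intro S
    induction S using Finset.induction_on with
    | empty => simp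
    | insert k S hk ih =>
      rw [Finset.sum_insert hk, Finset.sum_insert hk]
      have h0 := hc.1 k
      rcases ha k with g | g
      · simpa [ineq_w, g] using ih
      · have h1 : Real.exp (-c k) ≤ 1 := Real.exp_le_one_iff.2 (by linarith)
        have h2 : Real.exp (-∑ k ∈ S, a k * c k) ≤ 1 := Real.exp_le_one_iff.2 (by linarith [ih.1])
        simp only [ineq_w, g, Int.cast_one, one_mul, neg_add, Real.exp_add] at ih ⊢
        exact ⟨by linarith [ih.1], by nlinarith [ih.2, mul_nonneg (sub_nonneg.2 h1) (sub_nonneg.2 h2)]⟩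
  exact (key _).2

lemma ineq_comb {a : Fin 14 → ℤ} (ha : ∀ k, a k = 0 ∨ a k = 1) (hc : Cn c) (hs : s ∈ Icc (0 : ℝ) 1)
    (h : ht a c ≠ 0) {l : ℝ} (hl : 0 < l) {u : Fin 14 → ℝ} (hu : ∀ k, 0 < u k) :
    0 < ∑ k, ((1 - s) * l * ineq_w a c k * u k + s * (a k * c k)) ∧
      ∀ k, (1 - s) * l * ineq_w a c k * u k + s * (a k * c k) ≠ 0 → a k * c k ≠ 0 := by
  have h0 : ∀ k, 0 ≤ a k * c k := fun k => by rcases ha k with g | g <;> simp [g, hc.1 k]
  have h1 := sub_nonneg.2 hs.2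
  refine ⟨?_, fun k hk g => hk (by rw [g, (ineq_w0 ha hc k).2.2 g]; simp)⟩
  obtain ⟨k, -, hk⟩ := Finset.exists_ne_zero_of_sum_ne_zero h
  refine Finset.sum_pos' (fun j _ => ?_) ⟨k, Finset.mem_univ k, ?_⟩
  · have := (ineq_w0 ha hc j).1
    have := hu j
    have := h0 j
    have := hs.1
    positivity
  · have g1 : 0 < l * ineq_w a c k * u k := mul_pos (mul_pos hl
      ((ineq_w0 ha hc k).1.lt_of_ne' fun g => hk ((ineq_w0 ha hc k).2.1 g))) (hu k)
    have g2 := (h0 k).lt_of_ne' hk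
    rcases hs.1.eq_or_lt with rfl | g
    · simpa using g1
    · nlinarith [mul_nonneg h1 g1.le, mul_pos g g2]

/-- The imaginary parts. -/
theorem ineq_im (hc : Cn c) (hθ : ‖θ‖ ≤ 1) (hs : s ∈ Icc (0 : ℝ) 1)
    (h : (1 - s) • G1 c θ + s • G2 c θ = 0) : θ = 0 := by
  obtain ⟨r0, i0, r1, i1⟩ := ineq_parts h
  have pA := ineq_pA hc
  have pB := ineq_pB hc
  have hA := ineq_hA hc
  have hB := ineq_hB hc
  by_cases eB : ht bB c = 0
  · obtain ⟨g1, g2⟩ := ineq_zero ineq_b01 hc eB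
    rw [g1, g2, eB] at r1
    simp only [neg_zero, Real.exp_zero, zero_mul, sub_zero, add_zero] at r1
    nlinarith [mul_nonneg hs.1 (show 0 ≤ 2 * ht aB c - ‖hz aB c‖ by linarith)]
  by_cases eA : ht aB c = 0
  · obtain ⟨g1, g2⟩ := ineq_zero ineq_a01 hc eA
    rw [g1, g2, eA] at r0
    simp only [neg_zero, Real.exp_zero, zero_mul, sub_zero, zero_add] at r0
    nlinarith [mul_nonneg hs.1 (show 0 ≤ 2 * ht bB c - ‖hz bB c‖ by linarith)]
  have lA : 0 < ∑ k, ineq_w aB c k := lt_of_lt_of_le (sub_pos.2 (Real.exp_lt_one_iff.2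
    (neg_neg_of_pos (hA.lt_of_ne' eA)))) (ineq_lower ineq_a01 hc)
  have lB : 0 < ∑ k, ineq_w bB c k := lt_of_lt_of_le (sub_pos.2 (Real.exp_lt_one_iff.2
    (neg_neg_of_pos (hB.lt_of_ne' eB)))) (ineq_lower ineq_b01 hc)
  have t1 := (abs_re_le_norm θ).trans hθ
  have t2 := (abs_im_le_norm θ).trans hθ
  have bd : ∀ k, |det2 θ (ineq_V k)| ≤ 2 ∧ |det2 (ineq_V k) θ| ≤ 2 := fun k => by
    have v0 : |(vB k 0 : ℝ)| ≤ 1 := by exact_mod_cast (ineq_vB k).1
    have v1 : |(vB k 1 : ℝ)| ≤ 1 := by exact_mod_cast (ineq_vB k).2.1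
    have m1 := mul_le_one₀ t1 (abs_nonneg _) v1
    have m2 := mul_le_one₀ t2 (abs_nonneg _) v0
    rw [← abs_mul, abs_le] at m1 m2
    simp only [det2, ineq_V_re, ineq_V_im, abs_le]
    refine ⟨⟨?_, ?_⟩, ?_, ?_⟩ <;> nlinarith [m1.1, m1.2, m2.1, m2.2]
  choose u hu hu' using fun k => ineq_sin (bd k).1
  choose w hw hw' using fun k => ineq_sin (bd k).2
  obtain ⟨t, ht, hct⟩ := hc.2
  obtain ⟨x1, x2⟩ := ineq_comb ineq_b01 hc hs eB lA (u := fun k => ineq_E (n1 k) c * u k)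
    fun k => mul_pos (Real.exp_pos _) (hu k)
  obtain ⟨y1, y2⟩ := ineq_comb ineq_a01 hc hs eA lB (u := fun k => ineq_E (n2 k) c * w k)
    fun k => mul_pos (Real.exp_pos _) (hw k)
  refine ineq_par ?_ ?_ (by
    rw [ineq_det_sum ht (fun k g => ineq_supp ineq_a01 hct (y2 k g))
      fun k g => ineq_supp ineq_b01 hct (x2 k g)]
    exact (mul_pos y1 x1).ne')
  · rw [ineq_det_r, ← i0]
    change _ = _ + s * det2 θ (∑ k, _ * ineq_V k)
    rw [ineq_det_r]
    generalize ∑ i, ineq_w aB c i = L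
    simp only [Finset.mul_sum, ← Finset.sum_add_distrib]
    exact Finset.sum_congr rfl fun k _ => by rw [hu']; ring
  · rw [ineq_det_l, ← i1]
    change _ = _ + s * det2 (∑ k, _ * ineq_V k) θ
    rw [ineq_det_l]
    generalize ∑ i, ineq_w bB c i = L
    simp only [Finset.mul_sum, ← Finset.sum_add_distrib]
    exact Finset.sum_congr rfl fun k _ => by rw [hw']; ring

lemma ineq_E_bd {a n : Fin 14 → ℤ} (hc : Cn c) {t : Step (Fin 14) (Fin 3)}
    (h : ∀ k ∉ t.cone, c k = 0) (hn : ∀ k ∈ t.cone, |n k| ≤ a k) :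
    Real.exp (-ht a c) ≤ ineq_E n c ∧ ineq_E n c ≤ 1 := by
  refine ⟨Real.exp_le_exp.2 (neg_le_neg (Finset.sum_le_sum fun k _ => ?_)),
    Real.exp_le_one_iff.2 (neg_nonpos.2 (Finset.sum_nonneg fun k _ =>
      mul_nonneg (abs_nonneg _) (hc.1 k)))⟩
  by_cases g : k ∈ t.cone
  · exact mul_le_mul_of_nonneg_right (by exact_mod_cast hn k g) (hc.1 k)
  · simp [h k g]

lemma ineq_sum_bd {a : Fin 14 → ℤ} (ha : ∀ k, a k = 0 ∨ a k = 1) (hc : Cn c) {m : ℝ}
    {E : Fin 14 → ℝ} (hE : ∀ k, a k * c k ≠ 0 → m ≤ E k ∧ E k ≤ 1) :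
    m * ∑ k, ineq_w a c k ≤ ∑ k, ineq_w a c k * E k ∧
      ∑ k, ineq_w a c k * E k ≤ ∑ k, ineq_w a c k := by
  rw [Finset.mul_sum]
  constructor <;> refine Finset.sum_le_sum fun k _ => ?_ <;> by_cases g : a k * c k = 0
  · simp [(ineq_w0 ha hc k).2.2 g]
  · rw [mul_comm]; exact mul_le_mul_of_nonneg_left (hE k g).1 (ineq_w0 ha hc k).1
  · simp [(ineq_w0 ha hc k).2.2 g]
  · exact mul_le_of_le_one_right (ineq_w0 ha hc k).1 (hE k g).2

lemma ineq_neg {x y : ℝ} (hs : s ∈ Icc (0 : ℝ) 1) (hx : x < 0) (hy : y < 0) :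
    (1 - s) * x + s * y ≠ 0 := by
  rcases hs.1.eq_or_lt with rfl | g
  · simpa using hx.ne
  · nlinarith [mul_nonneg (sub_nonneg.2 hs.2) (neg_pos.2 hx).le, mul_pos g (neg_pos.2 hy)]

lemma ineq_side {x y L L1 L2 a b : ℝ} (hs : s ∈ Icc (0 : ℝ) 1) (ha : a < 0) (hb : 0 < b)
    (hxy : 2 * y < x) (h1 : Real.exp (-y) * L ≤ L1) (h2 : L2 ≤ L)
    (r1 : (1 - s) * (Real.exp (-x) - L1) + s * a = 0)
    (r2 : (1 - s) * (Real.exp (-y) - L2) + s * b = 0) : False := by
  by_cases g : Real.exp (-x) < L1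
  · exact ineq_neg hs (sub_neg.2 g) ha r1
  have e : Real.exp (-x) < Real.exp (-y) * Real.exp (-y) := by
    rw [← Real.exp_add]; exact Real.exp_lt_exp.2 (by linarith)
  have : L < Real.exp (-y) := lt_of_mul_lt_mul_left (by linarith) (Real.exp_pos (-y)).le
  exact ineq_neg hs (x := L2 - Real.exp (-y)) (y := -b) (by linarith) (by linarith) (by linarith)

/-- The real parts. -/
theorem ineq_re (hc : Cn c) (hs : s ∈ Icc (0 : ℝ) 1)
    (h : (1 - s) • G1 c 0 + s • G2 c 0 = 0) : ht aB c ≤ 10 ∧ ht bB c ≤ 10 := by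
  obtain ⟨r0, -, r1, -⟩ := ineq_parts h
  simp only [det2, zero_re, zero_im, zero_mul, mul_zero, sub_zero, Real.cos_zero, mul_one] at r0 r1
  have pA := ineq_pA hc
  have pB := ineq_pB hc
  have hA := ineq_hA hc
  have hB := ineq_hB hc
  have pn := norm_add_le (hz aB c) (hz bB c)
  have p0 := norm_nonneg (hz aB c + hz bB c)
  obtain ⟨t, ht, hct⟩ := hc.2
  have n1b : ∀ j, bB j * c j ≠ 0 → ∀ k ∈ t.cone, (aB k = 1 → n1 j k = 0) ∧
      (aB k = 0 → n1 j k = -dt k j) := fun j hj k hk =>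
    ⟨fun g => by
      rw [n1, g, dt_cone t ht k hk j (ineq_supp ineq_b01 hct hj).1 g (ineq_supp ineq_b01 hct hj).2]
      rfl, fun g => by rw [n1, g, zero_sub]⟩
  have n2b : ∀ i, aB i * c i ≠ 0 → ∀ k ∈ t.cone, (bB k = 1 → n2 i k = 0) ∧
      (bB k = 0 → n2 i k = -dt i k) := fun j hj k hk =>
    ⟨fun g => by
      rw [n2, g, dt_cone t ht j (ineq_supp ineq_a01 hct hj).1 k hk (ineq_supp ineq_a01 hct hj).2 g]
      rfl, fun g => by rw [n2, g, zero_sub]⟩
  obtain ⟨b1, b2⟩ := ineq_sum_bd ineq_b01 hc (E := fun j => ineq_E (n1 j) c) fun j hj =>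
    ineq_E_bd (a := bB) hc hct fun k hk => by
      rcases ineq_ab k with g | g
      · rw [(n1b j hj k hk).1 g.1, g.2]; rfl
      · rw [(n1b j hj k hk).2 g.1, g.2, abs_neg]
        exact ineq_dt_le t ht k hk j (ineq_supp ineq_b01 hct hj).1
  obtain ⟨a1, a2⟩ := ineq_sum_bd ineq_a01 hc (E := fun j => ineq_E (n2 j) c) fun j hj =>
    ineq_E_bd (a := aB) hc hct fun k hk => by
      rcases ineq_ab k with g | g
      · rw [(n2b j hj k hk).2 g.2, g.1, abs_neg]
        exact ineq_dt_le t ht j (ineq_supp ineq_a01 hct hj).1 k hk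
      · rw [(n2b j hj k hk).1 g.2, g.1]; rfl
  have one : (∑ k, ineq_w bB c k ≤ ∑ j, ineq_w bB c j * ineq_E (n1 j) c) ∨
      ∑ k, ineq_w aB c k ≤ ∑ j, ineq_w aB c j * ineq_E (n2 j) c := by
    have z : ∀ n : Fin 14 → ℤ, (∀ k ∈ t.cone, n k = 0) → 1 ≤ ineq_E n c ∧ ineq_E n c ≤ 1 :=
      fun n hn => by
        simpa [Pool.Agent.Lib.MP_bf05b2_gt.ht] using
          ineq_E_bd (a := 0) hc hct fun k hk => by simp [hn k hk]
    rcases ineq_one t ht with g | g
    · left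
      simpa using (ineq_sum_bd ineq_b01 hc (m := 1) (E := fun j => ineq_E (n1 j) c) fun j hj =>
        z _ fun k hk => by
          rcases ineq_ab k with g' | g'
          · exact (n1b j hj k hk).1 g'.1
          · rw [(n1b j hj k hk).2 g'.1, g k hk j (ineq_supp ineq_b01 hct hj).1 g'.2
              (ineq_supp ineq_b01 hct hj).2, neg_zero]).1
    · right
      simpa using (ineq_sum_bd ineq_a01 hc (m := 1) (E := fun j => ineq_E (n2 j) c) fun j hj =>
        z _ fun k hk => by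
          rcases ineq_ab k with g' | g'
          · rw [(n2b j hj k hk).2 g'.2, g j (ineq_supp ineq_a01 hct hj).1 k hk
              (ineq_supp ineq_a01 hct hj).2 g'.1, neg_zero]
          · exact (n2b j hj k hk).1 g'.2).1
  have lA := ineq_lower ineq_a01 hc
  have lB := ineq_lower ineq_b01 hc
  have wA : 0 ≤ ∑ k, ineq_w aB c k := Finset.sum_nonneg fun k _ => (ineq_w0 ineq_a01 hc k).1
  have wB : 0 ≤ ∑ k, ineq_w bB c k := Finset.sum_nonneg fun k _ => (ineq_w0 ineq_b01 hc k).1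
  have dd := det2_hz hc
  generalize ∑ k, ineq_w aB c k = α at *
  generalize ∑ k, ineq_w bB c k = β at *
  generalize ∑ j, ineq_w bB c j * ineq_E (n1 j) c = U at *
  generalize ∑ j, ineq_w aB c j * ineq_E (n2 j) c = W at *
  have c1 : Real.exp (-Pool.Agent.Lib.MP_bf05b2_gt.ht bB c) * (α * β) ≤ α * U := by
    rw [mul_left_comm]; exact mul_le_mul_of_nonneg_left b1 wA
  have c2 : α * U ≤ α * β := mul_le_mul_of_nonneg_left b2 wA
  have c3 : Real.exp (-Pool.Agent.Lib.MP_bf05b2_gt.ht aB c) * (α * β) ≤ β * W := by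
    rw [mul_comm α, mul_left_comm]; exact mul_le_mul_of_nonneg_left a1 wB
  have c4 : β * W ≤ α * β := by rw [mul_comm α]; exact mul_le_mul_of_nonneg_left a2 wB
  have d1 : Pool.Agent.Lib.MP_bf05b2_gt.ht aB c * Pool.Agent.Lib.MP_bf05b2_gt.ht bB c ≤
      Pool.Agent.Lib.MP_bf05b2_gt.ht aB c * ‖hz aB c + hz bB c‖ := by
    have e : det2 (hz aB c) (hz bB c) = ((starRingEnd ℂ) (hz aB c) * (hz aB c + hz bB c)).im := by
      simp [det2]; ring
    rw [← dd, e]
    refine (im_le_norm _).trans ?_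
    rw [norm_mul, RCLike.norm_conj]
    exact mul_le_mul_of_nonneg_right pA p0
  generalize Pool.Agent.Lib.MP_bf05b2_gt.ht aB c = x at *
  generalize Pool.Agent.Lib.MP_bf05b2_gt.ht bB c = y at *
  by_contra hcon
  by_cases gy : y < 2
  · have : 10 < x := by by_contra g; exact hcon ⟨by linarith, by linarith⟩
    exact ineq_side hs (by linarith) (by linarith) (by linarith) c1 c4 r0 r1
  by_cases gx : x < 2
  · have : 10 < y := by by_contra g; exact hcon ⟨by linarith, by linarith⟩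
    exact ineq_side hs (by linarith) (by linarith) (by linarith) c3 c2 r1 r0
  have e5 : ∀ z : ℝ, 2 ≤ z → Real.exp (-z) ≤ 1 / 5 := fun z hz => by
    rw [Real.exp_neg, inv_eq_one_div]
    refine one_div_le_one_div_of_le (by norm_num) ?_
    have := Real.quadratic_le_exp_of_nonneg (x := z) (by linarith)
    nlinarith
  have ex := e5 x (by linarith)
  have ey := e5 y (by linarith)
  have d2 : y ≤ ‖hz aB c + hz bB c‖ := le_of_mul_le_mul_left d1 (by linarith)
  have d3 : 4 / 5 * (4 / 5) ≤ α * β := mul_le_mul (by linarith) (by linarith) (by norm_num) wA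
  have d4 : 0 ≤ α * U := le_trans (by positivity) c1
  have d5 : 0 ≤ β * W := le_trans (by positivity) c3
  have d6 : α * β ≤ α * U + β * W := by
    rcases one with g | g
    · linarith [mul_le_mul_of_nonneg_left g wA]
    · linarith [mul_le_mul_of_nonneg_left g wB]
  exact ineq_neg hs (x := Real.exp (-x) - α * U + (Real.exp (-y) - β * W))
    (y := 2 * (1 - ‖hz aB c + hz bB c‖)) (by linarith) (by linarith) (by linarith)

theorem ineq_lin (hc : Cn c) {κ : ℝ} (hκ : 0 < κ) (hs : s ∈ Icc (0 : ℝ) 1)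
    (h : (1 - s) • G2 c (κ * θ) +
      s • Lm (g0 (![hz aB c + hz bB c, θ], ht aB c - ht bB c)) = 0) :
    θ = 0 ∧ ‖hz aB c + hz bB c‖ = 1 ∧ ht aB c - ht bB c = 0 := by
  have h0 := congrFun h 0
  have h1 := congrFun h 1
  simp only [Pi.add_apply, Pi.smul_apply, Pi.zero_apply, G2, Lm, g0, Matrix.cons_val_zero,
    Matrix.cons_val_one] at h0 h1
  have r0 := congrArg re h0
  have i0 := congrArg im h0
  have r1 := congrArg re h1
  have i1 := congrArg im h1
  simp only [add_re, add_im, smul_re, smul_im, sub_re, sub_im, ofReal_re, ofReal_im, mul_re,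
    mul_im, conj_re, conj_im, I_re, I_im, mul_zero, mul_one, add_zero, zero_add, zero_re,
    zero_im, smul_eq_mul, sub_zero, one_re, one_im, det2, zero_mul] at r0 i0 r1 i1
  have e1 : ‖hz aB c + hz bB c‖ = 1 := by linarith
  have e2 : ht aB c - ht bB c = 0 := by linarith
  refine ⟨ineq_par (X := ((1 - s) * κ : ℝ) * hz bB c + s * (1 + I) * (hz aB c + hz bB c))
    (Y := ((1 - s) * κ : ℝ) * hz aB c + s * (1 - I) * (hz aB c + hz bB c)) ?_ ?_ ?_, e1, e2⟩
  · simp only [add_re, add_im, ofReal_re, ofReal_im, mul_re, mul_im, I_re, I_im, one_re, one_im,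
      det2]
    linear_combination i0
  · simp only [add_re, add_im, sub_re, sub_im, ofReal_re, ofReal_im, mul_re, mul_im, I_re, I_im,
      one_re, one_im, det2]
    linear_combination i1
  · have dd := det2_hz hc
    have pA := ineq_pA hc
    have pB := ineq_pB hc
    have pn := norm_add_le (hz aB c) (hz bB c)
    have d0 : 0 < ht aB c * ht bB c := mul_pos (by linarith) (by linarith)
    have n2 := Complex.sq_norm (hz aB c + hz bB c)
    rw [e1, normSq_apply] at n2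
    have e : det2 (((1 - s) * κ : ℝ) * hz aB c + s * (1 - I) * (hz aB c + hz bB c))
        (((1 - s) * κ : ℝ) * hz bB c + s * (1 + I) * (hz aB c + hz bB c)) =
        ((1 - s) * κ) ^ 2 * (ht aB c * ht bB c) +
          s * ((1 - s) * κ) * (2 * (ht aB c * ht bB c) + 1) + 2 * s ^ 2 := by
      rw [← dd]
      simp only [add_re, add_im, sub_re, sub_im, ofReal_re, ofReal_im, mul_re, mul_im, I_re, I_im,
        one_re, one_im, det2] at n2 ⊢
      linear_combination (-(s * ((1 - s) * κ)) - 2 * s ^ 2) * n2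
    rw [e]
    have g0 := sub_nonneg.2 hs.2
    rcases hs.1.eq_or_lt with rfl | g
    · positivity
    · positivity

end Pool.Agent.Lib.MP_bf05b2_gt
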