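import Pool.Agent.Lib.MP_bf05b2_gt.H57Tor
import Pool.Agent.Lib.MP_bf05b2_gt.H57GB
import Pool.Agent.Lib.MP_bf05b2_gt.H57Cup

/-! Lifting of simplices to the Cox space, and properties of divisor cocycles. -/

set_option linter.unusedSectionVars false

namespace Pool.Agent.Lib.MP_bf05b2_gt

open Set Finsupp Pool.Agent.Shared.Sing Pool.Agent.Shared.SingEZ

section lift

variable {Z P X : Type*} [TopologicalSpace Z] [TopologicalSpace P] [TopologicalSpace X] {π : P → X}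

/-- Transport of points of `P` over the set `W`. -/
def LiftTr (π : P → X) (W : Set X) : Prop :=
  ∃ τ : P × X → P, ContinuousOn τ {q | π q.1 ∈ W ∧ q.2 ∈ W} ∧ (∀ p, π p ∈ W → τ (p, π p) = p) ∧
    ∀ p y, π p ∈ W → y ∈ W → π (τ (p, y)) = y

/-- The map `f` has a continuous lift. -/
def LiftOk (π : P → X) (f : Z → X) : Prop := ∃ g : Z → P, Continuous g ∧ ∀ z, π (g z) = f z

lemma lift_step {W : Set X} (hW : LiftTr π W) {f f' : Z → X} (hf' : Continuous f') {A U : Set Z}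
    (hA : IsClosed A) (hU : IsOpen U) (hAU : A ⊆ U) (h1 : ∀ z ∉ A, f z = f' z)
    (h2 : ∀ z ∈ U, f z ∈ W ∧ f' z ∈ W) (h : LiftOk π f) : LiftOk π f' := by
  classical
  obtain ⟨τ, c, t1, t2⟩ := hW
  obtain ⟨g, hg, e⟩ := h
  refine ⟨fun z => if z ∈ U then τ (g z, f' z) else g z, continuous_iff_continuousAt.2 fun z => ?_,
    fun z => ?_⟩
  · by_cases hz : z ∈ U
    · refine (((c.comp (hg.prodMk hf').continuousOn fun y hy =>
        ⟨(e y).symm ▸ (h2 y hy).1, (h2 y hy).2⟩).congr fun y hy => if_pos hy).continuousAt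
        (hU.mem_nhds hz))
    · refine hg.continuousAt.congr ?_
      filter_upwards [hA.isOpen_compl.mem_nhds fun h => hz (hAU h)] with y hy
      split_ifs with hy'
      · rw [← h1 y hy, ← e y, t1 _ ((e y).symm ▸ (h2 y hy').1)]
      · rfl
  · dsimp only
    split_ifs with hz
    · exact t2 _ _ ((e z).symm ▸ (h2 z hz).1) (h2 z hz).2
    · rw [e, h1 z fun h => hz (hAU h)]

lemma lift_htp [CompactSpace Z] [T2Space Z]
    (hπ : ∀ x : X, ∃ W, IsOpen W ∧ x ∈ W ∧ LiftTr π W) {H : Z × ℝ → X} (hH : Continuous H)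
    (h0 : LiftOk π fun z => H (z, 0)) : LiftOk π fun z => H (z, 1) := by
  classical
  have key : IsLocallyConstant fun t : ℝ => LiftOk π fun z => H (z, t) := by
    refine (IsLocallyConstant.iff_eventually_eq _).2 fun t₀ => ?_
    have h1 : ∀ z : Z, ∃ W U, ∃ ε > 0, LiftTr π W ∧ IsOpen U ∧ z ∈ U ∧
        ∀ y ∈ U, ∀ t ∈ Metric.ball t₀ ε, H (y, t) ∈ W := fun z => by
      obtain ⟨W, o, m, tr⟩ := hπ (H (z, t₀))
      obtain ⟨U, B, oU, oB, mU, mB, sub⟩ := isOpen_prod_iff.1 (o.preimage hH) z t₀ m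
      obtain ⟨ε, hε, hB⟩ := Metric.isOpen_iff.1 oB t₀ mB
      exact ⟨W, U, ε, hε, tr, oU, mU, fun y hy t ht => sub (mk_mem_prod hy (hB ht))⟩
    choose W U ε hε tr oU mU hW using h1
    obtain ⟨S, hS⟩ := isCompact_univ.elim_finite_subcover U oU fun z _ => mem_iUnion.2 ⟨z, mU z⟩
    obtain ⟨u, hu⟩ := PartitionOfUnity.exists_isSubordinate isClosed_univ (fun a : S => U a)
      (fun a => oU a) fun z hz => by simpa using hS hz
    have h2 : ∀ s ∈ ⋂ a : S, Metric.ball t₀ (ε a), ∀ t ∈ ⋂ a : S, Metric.ball t₀ (ε a),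
        (LiftOk π fun z => H (z, s)) → LiftOk π fun z => H (z, t) := fun s hs t ht h => by
      have h3 : ∀ z, ∑ a, u a z = 1 := fun z => by
        rw [← finsum_eq_sum_of_fintype]; exact u.sum_eq_one (mem_univ z)
      have h4 : ∀ (T : Finset S) z (a : S), s + (∑ b ∈ T, u b z) • (t - s) ∈
          Metric.ball t₀ (ε a) := fun T z a =>
        (convex_ball _ _).add_smul_sub_mem (mem_iInter.1 hs a) (mem_iInter.1 ht a)
          ⟨Finset.sum_nonneg fun b _ => u.nonneg b z, h3 z ▸ Finset.sum_le_sum_of_subset_of_nonneg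
            (Finset.subset_univ T) fun b _ _ => u.nonneg b z⟩
      have h5 : ∀ T : Finset S, LiftOk π fun z => H (z, s + (∑ b ∈ T, u b z) • (t - s)) := by
        intro T
        induction T using Finset.induction_on with
        | empty => simpa using h
        | insert a T ha ih =>
          refine lift_step (tr a) (hH.comp (by fun_prop)) (isClosed_tsupport (u a)) (oU a) (hu a)
            (fun z hz => ?_) (fun z hz => ⟨hW a z hz _ (h4 _ z a), hW a z hz _ (h4 _ z a)⟩) ih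
          rw [Finset.sum_insert ha, image_eq_zero_of_notMem_tsupport hz, zero_add]
      simpa only [h3, one_smul, add_sub_cancel] using h5 Finset.univ
    have h6 : t₀ ∈ ⋂ a : S, Metric.ball t₀ (ε a) :=
      mem_iInter.2 fun a => Metric.mem_ball_self (hε a)
    filter_upwards [(isOpen_iInter_of_finite fun a : S => Metric.isOpen_ball).mem_nhds h6] with t ht
    exact propext ⟨h2 t ht t₀ h6, h2 t₀ h6 t ht⟩
  exact (key.apply_eq_of_preconnectedSpace 0 1) ▸ h0

lemma lift_lf [Nonempty P] [Nonempty X] (hs : Function.Surjective π)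
    (hπ : ∀ x : X, ∃ W, IsOpen W ∧ x ∈ W ∧ LiftTr π W) : Lf π := by
  classical
  intro s
  rcases Nat.eq_zero_or_pos s.n with h0 | h0
  · exact ⟨mk 0 fun _ => Classical.arbitrary P, h0.symm, by rw [h0, Δ_zero]; exact eqOn_empty _ _⟩
  have : CompactSpace (Δ s.n) := isCompact_iff_compactSpace.1 (isCompact_Δ _)
  obtain ⟨p, hp⟩ := hs (s.f (Pi.single 0 1))
  obtain ⟨g, hg, e⟩ := lift_htp hπ (Z := Δ s.n)
    (H := fun q => s.f (Pi.single 0 1 + (max 0 (min q.2 1)) • (q.1.1 - Pi.single 0 1)))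
    (s.cont.comp_continuous (by fun_prop) fun q => (convex_Δ _).add_smul_sub_mem
      (single_mem_Δ h0) q.1.2 ⟨le_max_left _ _, max_le zero_le_one (min_le_right _ _)⟩)
    ⟨fun _ => p, continuous_const, fun z => by simp [hp]⟩
  have hc : ContinuousOn (fun t => if h : t ∈ Δ s.n then g ⟨t, h⟩ else p) (Δ s.n) :=
    continuousOn_iff_continuous_domRestrict.2 (hg.congr fun z => by simp [domRestrict])
  refine ⟨mk s.n _, rfl, fun t ht => (congrArg π (mk_f hc ht)).trans ?_⟩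
  simp [ht, e]

end lift

namespace Fan

variable {ι κ ι' κ' : Type} [Fintype ι] [DecidableEq ι] [Fintype κ] [DecidableEq κ] [Fintype ι']
  [DecidableEq ι'] [Fintype κ'] [DecidableEq κ'] {F : Fan ι κ} {F' : Fan ι' κ'}
  {e : κ → ι} {M : κ → κ → ℤ}

lemma IsChart.liftTr (h : F.IsChart e M) : LiftTr F.π (F.W (Finset.univ.image e)) := by
  classical
  have h1 : ∀ p : F.U, F.π p ∈ F.W (Finset.univ.image e) →
      ∀ i ∉ Finset.univ.image e, p.1 i ≠ 0 := fun p hp => (cl_mem_W p.2).1 (cl_π p ▸ hp)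
  have h2 : ∀ (p : F.U) (y : F.X), F.π p ∈ F.W (Finset.univ.image e) →
      (F.nrm e M p.1)⁻¹ * sec e (F.φ M y) ∈ F.U := fun p y hp =>
    mul_mem_U (inv_mem_G (h.nrm_mem (h1 p hp))).1 (h.sec_mem _)
  refine ⟨fun q => if hq : (F.nrm e M q.1.1)⁻¹ * sec e (F.φ M q.2) ∈ F.U then ⟨_, hq⟩ else q.1,
    Topology.IsInducing.subtypeVal.continuousOn_iff.2 (ContinuousOn.congr
      (f := fun q => (F.nrm e M q.1.1)⁻¹ * sec e (F.φ M q.2)) ?_ fun q hq => ?_),
    fun p hp => ?_, fun p y hp hy => ?_⟩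
  · refine ContinuousOn.mul (continuousOn_pi.2 fun i => ?_) ((continuous_sec e).comp_continuousOn
      (h.continuousOn_φ.comp continuousOn_snd fun q hq => hq.2))
    exact (continuousOn_pi.1 ((continuousOn_nrm e M).comp
      (continuous_subtype_val.comp continuous_fst).continuousOn fun q hq => h1 q.1 hq.1) i).inv₀
      fun q hq => (h.nrm_mem (h1 q.1 hq.1)).1 i
  · rw [Function.comp_apply, dif_pos (h2 _ _ hq.1)]
  · dsimp only
    rw [dif_pos (h2 _ _ hp)]
    refine Subtype.ext ?_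
    have h3 : F.φ M (F.π p) = fun k => F.mon (M k) p.1 := funext fun k => cl_π p ▸ φ_cl M p.2 k
    simp only [h3, ← h.nrm_mul (h1 p hp)]
    exact funext fun i => inv_mul_cancel_left₀ ((h.nrm_mem (h1 p hp)).1 i) _
  · dsimp only
    rw [dif_pos (h2 _ _ hp), ← cl_π, cl_mul (inv_mem_G (h.nrm_mem (h1 p hp))) (h.sec_mem _)]
    exact h.ψ_φ hy

theorem Sm.lf (h : F.Sm) : Lf F.π :=
  lift_lf Quotient.mk_surjective fun x =>
    let ⟨_, _, hc, hx⟩ := h.exists_chart x
    ⟨_, isOpen_W _, hx, hc.liftTr⟩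

lemma lift_cont (i : ι) : Continuous fun z : F.U => z.1 i :=
  (continuous_apply i).comp continuous_subtype_val

theorem Sm.isTau (h : F.Sm) (i : ι) :
    IsTau F.π (fun z w => F.dv z w i) (fun z => z.1 i) (F.tau i) := by
  have h1 := exists_tau continuous_π h.lf (h.isD i)
    ⟨lift_cont i, fun _ _ hp => congrFun (dv_spec hp).2 i⟩
  rw [tau, dif_pos h1]
  exact h1.choose_spec

variable (R : Type) [CommRing R]

theorem Sm.cy (h : F.Sm) (i : ι) : Cy {univ} {F.nz i} 2 (F.tR R i) :=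
  ((h.isTau i).cy continuous_π h.lf (lift_cont i)).coef _

theorem Sm.cy' (h : F.Sm) (i : ι) : Cy {univ} ∅ 2 (F.tR R i) :=
  (h.cy R i).mono Ref.refl Ref.empty

lemma tR_int (i : ι) : F.tR ℤ i = F.tau i := by
  rw [tR, Subsingleton.elim (Int.castRingHom ℤ) (RingHom.id ℤ), bc_id]

lemma lift_bc_sum (n : ι → ℤ) :
    bc (Int.castRingHom R) (∑ i, n i • F.tau i) = ∑ i, (n i : R) • F.tR R i := by
  rw [bc_sum]
  exact Finset.sum_congr rfl fun i _ => bc_smul _ _ _

/-- The linear relations. -/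
theorem Sm.lin (h : F.Sm) (m : κ → ℤ) :
    Bo {univ} ∅ 2 (∑ i, ((∑ k, m k * F.v i k : ℤ) : R) • F.tR R i) := by
  have h1 := (isTau_sum Finset.univ (fun i => ∑ k, m k * F.v i k) h.isD
    fun i => (h.isTau i).weak).congr (d' := fun _ _ => 1) fun p p' hp => by
      simpa [mon] using mon_mul m (dv_spec hp).1 1
  have h2 := (h1.uniq continuous_π h.lf isD_one continuous_zero isTau_zero).mono Ref.refl Ref.empty
  rw [sub_zero] at h2
  rw [← lift_bc_sum]
  exact h2.coef _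

/-- The Stanley-Reisner relations. -/
theorem Sm.sr (h : F.Sm) {l : List ι} (hl : ∀ σ ∈ F.K, ∃ i ∈ l, i ∉ σ) :
    Bo {univ} ∅ (2 * l.length) (pr (l.map (F.tR R))) := by
  refine (triv_small (fun U hU => ?_) (fun U hU => ?_) Ref.univ (fun x _ => ?_) _ _
    (cy_pr (W := fun j => {F.nz j}) fun j _ => h.cy R j)).mono Ref.refl Ref.empty
  · rw [hU]; exact isOpen_univ
  · simp only [mem_iUnion, mem_singleton_iff] at hU
    obtain ⟨j, -, rfl⟩ := hU
    exact isOpen_nz j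
  · obtain ⟨z, hz, rfl⟩ := cl_surj x
    obtain ⟨σ, hσ, h1⟩ := id hz
    obtain ⟨i, hi, h2⟩ := hl σ hσ
    exact ⟨F.nz i, mem_iUnion₂.2 ⟨i, hi, rfl⟩, (cl_mem_nz hz).2 (h1 i h2)⟩

variable {Φ : (ι' → ℂ) → ι → ℂ}

variable (F F') in
/-- An equivariant map of Cox spaces. -/
structure IsEq (Φ : (ι' → ℂ) → ι → ℂ) (γ : (ι' → ℂ) → ι → ℂ) : Prop where
  cont : ContinuousOn Φ F'.U
  maps : MapsTo Φ F'.U F.U
  mem : ∀ g ∈ F'.G, γ g ∈ F.G
  eqv : ∀ g ∈ F'.G, ∀ z ∈ F'.U, Φ (g * z) = γ g * Φ z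

variable (F F') in
/-- The map induced on the quotients. -/
noncomputable def ind (Φ : (ι' → ℂ) → ι → ℂ) : F'.X → F.X := F'.lf fun z => F.cl (Φ z)

variable {γ : (ι' → ℂ) → ι → ℂ}

lemma IsEq.ind_cl (h : IsEq F F' Φ γ) {z : ι' → ℂ} (hz : z ∈ F'.U) :
    ind F F' Φ (F'.cl z) = F.cl (Φ z) :=
  lf_cl hz fun g hg => by rw [h.eqv g hg z hz, cl_mul (h.mem g hg) (h.maps hz)]

lemma IsEq.continuous (h : IsEq F F' Φ γ) : Continuous (ind F F' Φ) :=
  continuous_lf (continuousOn_cl.comp h.cont h.maps) fun z hz g hg => by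
    rw [h.eqv g hg z hz, cl_mul (h.mem g hg) (h.maps hz)]

/-- Naturality of divisor classes. -/
theorem IsEq.nat (h : IsEq F F' Φ γ) (hF : F.Sm) (hF' : F'.Sm) (i : ι) (n : ι' → ℤ)
    (hn : ∀ g ∈ F'.G, γ g i = ∏ j, g j ^ n j) :
    Bo {univ} ∅ 2 (pb (ind F F' Φ) (F.tR R i) - ∑ j, (n j : R) • F'.tR R j) := by
  have h1 := ((hF.isTau i).pull (F := fun z : F'.U => ⟨Φ z.1, h.maps z.2⟩) continuous_π
    ((continuousOn_iff_continuous_domRestrict.1 h.cont).subtype_mk _) h.continuous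
    fun p => by rw [← cl_π, ← cl_π, h.ind_cl p.2]).weak.congr
    (d' := fun p p' => ∏ j, F'.dv p p' j ^ n j) fun p p' hp => by
      rw [hF.dv_eq (h.mem _ (dv_spec hp).1) ?_, hn _ (dv_spec hp).1]
      rw [← h.eqv _ (dv_spec hp).1 _ p'.2, ← (dv_spec hp).2]
  have h2 := ((h1.uniq continuous_π hF'.lf (isD_prod _ n hF'.isD) continuous_zero
    (isTau_sum _ n hF'.isD fun j => (hF'.isTau j).weak)).mono Ref.refl Ref.empty).coef
    (Int.castRingHom R)
  rwa [bc_sub, bc_pb, lift_bc_sum] at h2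

theorem IsEq.nat_zero (h : IsEq F F' Φ γ) (hF : F.Sm) (hF' : F'.Sm) (i : ι)
    (hn : ∀ g ∈ F'.G, γ g i = 1) : Bo {univ} ∅ 2 (pb (ind F F' Φ) (F.tR R i)) := by
  simpa using h.nat R hF hF' i 0 fun g hg => by simpa using hn g hg

theorem IsEq.nat_one (h : IsEq F F' Φ γ) (hF : F.Sm) (hF' : F'.Sm) (i : ι) (j : ι')
    (hn : ∀ g ∈ F'.G, γ g i = g j) :
    Bo {univ} ∅ 2 (pb (ind F F' Φ) (F.tR R i) - F'.tR R j) := by
  simpa [Pi.single_apply] using h.nat R hF hF' i (Pi.single j 1) fun g hg => by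
    simpa [Pi.single_apply] using hn g hg

/-- A map from affine space which is the identity on some coordinates. -/
theorem Sm.isTau_aff (h : F.Sm) {κ'' : Type} [Fintype κ''] {s : (κ'' → ℂ) → ι → ℂ}
    (hs : Continuous s) (hU : ∀ w, s w ∈ F.U) {i : ι} {k : κ''} (hi : ∀ w, s w i = w k) :
    IsTau id (fun _ _ => 1) (fun w : κ'' → ℂ => w k) (pb (fun w => F.cl (s w)) (F.tau i)) := by
  have h1 := ((h.isTau i).pull (π' := id) (F := fun w => ⟨s w, hU w⟩) continuous_id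
    (hs.subtype_mk _) (continuousOn_cl.comp_continuous hs hU) fun w => (cl_π _).symm).congr
    (d' := fun _ _ => 1) fun p p' hp => by
      rw [show p = p' from hp]; exact (h.isD i).refl _
  rwa [show ((fun z : F.U => z.1 i) ∘ fun w => ⟨s w, hU w⟩) = fun w => w k from funext hi] at h1

end Fan

end Pool.Agent.Lib.MP_bf05b2_gt
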