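import Pool.Agent.Lib.MP_bf05b2_gt.H57Susp
import Pool.Agent.Lib.MP_bf05b2_gt.H57Chern

/-! Cohomology of complex affine space relative to the complement of a coordinate subspace. -/

set_option linter.unusedSectionVars false

namespace Pool.Agent.Lib.MP_bf05b2_gt

open Set Finsupp Pool.Agent.Shared.Sing Pool.Agent.Shared.SingEZ

variable {κ : Type} [Fintype κ] [DecidableEq κ]

lemma triv_aff (R : Type) [CommRing R] (k : ℕ) : Triv R {(univ : Set (κ → ℂ))} ∅ (k + 1) :=
  triv_contr (H := fun p : (κ → ℂ) × ℝ => (1 - p.2) • p.1) (y₀ := 0) (by fun_prop)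
    (mapsTo_univ _ _) (fun y _ => by simp) (fun y _ => by simp) k

lemma gb_one (R : Type) [CommRing R] :
    GB {univ} ∅ (fun _ : Unit => (e1 : Cc R (κ → ℂ))) fun _ => 0 := by
  refine ⟨fun _ => cy_e1, fun k φ hφ => ?_, fun k r hr hb j => ?_⟩
  · rcases k with _ | k
    · refine ⟨fun _ => φ (pt R 0), fun _ h => absurd rfl h, bo_zero.2 fun c hc => ?_⟩
      rw [Ch'_single] at hc
      obtain ⟨w, hw, h⟩ := zero_Bd (convex_univ.isPathConnected ⟨0, trivial⟩) (mem_univ 0) hc
      have h1 := hφ.1 w (by rwa [Ch'_single])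
      rw [LinearMap.comp_apply, h, map_sub, map_smul] at h1
      simpa [mul_comm] using h1
    · exact ⟨0, fun _ _ => rfl, by simpa using triv_aff R k φ hφ⟩
  · rcases k with _ | k
    · simpa [e1_pt] using bo_zero.1 hb (pt R 0) (by rw [Ch'_single]; exact pt_In trivial)
    · exact hr j (by omega)

/-- The four open half spaces of the coordinate `k`. -/
def Hs (k : κ) : Set (Set (κ → ℂ)) :=
  {{w | 0 < (w k).im}, {w | (w k).im < 0}} ∪ {{w | 0 < (w k).re}, {w | (w k).re < 0}}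

/-- The product of the two suspension cocycles of the coordinate `k`. -/
noncomputable def ee (R : Type) [CommRing R] (k : κ) : Cc R (κ → ℂ) :=
  cup 1 (eh R fun w => (w k).im) (eh R fun w => (w k).re)

lemma cy_ee (R : Type) [CommRing R] (k : κ) : Cy {univ} (Hs k) 2 (ee R k) :=
  (cy_eh _).mul (cy_eh _)

lemma Hs_open (k : κ) : ∀ U ∈ Hs k, IsOpen U := by
  rintro U ((rfl | rfl) | rfl | rfl) <;> exact isOpen_lt (by fun_prop) (by fun_prop)

lemma Hs_sub (k : κ) : ∀ U ∈ Hs k, U ⊆ {w | w k ≠ 0} := by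
  rintro U ((rfl | rfl) | rfl | rfl) w hw h <;> simp [show w k = 0 from h] at hw

lemma Hs_cover {k : κ} {w : κ → ℂ} (h : w k ≠ 0) : ∃ U ∈ Hs k, w ∈ U := by
  rcases lt_trichotomy (w k).im 0 with h1 | h1 | h1
  · exact ⟨_, .inl (.inr rfl), h1⟩
  · rcases lt_trichotomy (w k).re 0 with h2 | h2 | h2
    · exact ⟨_, .inr (.inr rfl), h2⟩
    · exact absurd (Complex.ext h2 h1) h
    · exact ⟨_, .inr (.inl rfl), h2⟩
  · exact ⟨_, .inl (.inl rfl), h1⟩

lemma open_nz (k : κ) : IsOpen {w : κ → ℂ | w k ≠ 0} := isOpen_ne_fun (by fun_prop) (by fun_prop)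

lemma gb_two {R : Type} [CommRing R] {J : Type} [Fintype J] {β : J → Cc R (κ → ℂ)} {d : J → ℕ}
    {S : Set (Set (κ → ℂ))} (k : κ) (hS : ∀ U ∈ S, ∀ y ∈ U, ∀ z, Function.update y k z ∈ U)
    (h : GB {univ} S β d) :
    GB {univ} (Hs k ∪ S) (fun j => cup 2 (ee R k) (β j)) fun j => d j + 2 := by
  have h1 := gb_susp (h := fun w => (w k).re)
    (m := fun p => Function.update p.1 k (p.2 + (p.1 k).im * Complex.I)) (by fun_prop)
    (by fun_prop) (fun y a => by simp) (fun y => by simp) (fun _ _ _ => mem_univ _)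
    (fun U hU => ⟨subset_univ _, fun y hy a => hS U hU y hy _⟩) h
  have h2 := gb_susp (h := fun w => (w k).im)
    (m := fun p => Function.update p.1 k ((p.1 k).re + p.2 * Complex.I)) (by fun_prop)
    (by fun_prop) (fun y a => by simp) (fun y => by simp) (fun _ _ _ => mem_univ _)
    (fun U hU => ⟨subset_univ _, fun y hy a => by
      rcases hU with hU | rfl | rfl
      · exact hS U hU y hy _
      · simpa using hy
      · simpa using hy⟩) h1
  simp only [univ_inter, ← cup_assoc] at h2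
  rwa [union_assoc, union_comm, union_comm _ {_, _}] at h2

lemma cy_std {k : κ} {t : Cc ℤ (κ → ℂ)} (ht : IsTau id (fun _ _ => 1) (fun w : κ → ℂ => w k) t) :
    Cy {univ} {{w | w k ≠ 0}} 2 t :=
  (ht.cy continuous_id lf_id (by fun_prop)).mono Ref.refl
    (Ref.single fun _ hw _ hp => by obtain rfl := hp; exact hw)

lemma cont_single (k : κ) : Continuous fun z : ℂ => (Pi.single k z : κ → ℂ) :=
  continuous_single (A := fun _ => ℂ) k

lemma edge_nz (k : κ) (a b : ℝ) {v w : ℂ} (hv : 0 < a * v.re + b * v.im)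
    (hw : 0 < a * w.re + b * w.im) :
    real (fun z : ℂ => (Pi.single k z : κ → ℂ)) (single [v, w] (1 : ℤ)) ∈ Ch' ℤ {{w | w k ≠ 0}} 2 := by
  rw [Ch'_single]
  refine real_In (K := {z : ℂ | 0 < a * z.re + b * z.im})
    (convex_halfSpace_gt ⟨fun x y => by simp; ring, fun c x => by simp; ring⟩ 0)
    (cont_single k).continuousOn (fun z hz => ?_) (single_mem ⟨rfl, by simpa using ⟨hv, hw⟩⟩)
  intro h
  simp [show z = 0 by simpa using h] at hz

lemma tau_ee {k : κ} {t : Cc ℤ (κ → ℂ)} (ht : IsTau id (fun _ _ => 1) (fun w : κ → ℂ => w k) t) :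
    ∃ u : ℤˣ, Bo {univ} (Hs k) 2 (t - (u : ℤ) • ee ℤ k) := by
  have hr : Ref (Hs k) {{w | w k ≠ 0}} := fun U hU _ => ⟨_, rfl, Hs_sub k U hU⟩
  have hg := gb_two k (fun _ h => h.elim) (gb_one ℤ)
  rw [union_empty] at hg
  obtain ⟨r, h1⟩ := hg.span_one () (fun _ _ => rfl) ((cy_std ht).mono Ref.refl hr)
  have h2 : Bo {univ} (Hs k) 2 (t - r • ee ℤ k) := h1.congr (Eqv.refl.sub ((cup_e1 _).smul r))
  have hT : ∀ n, Triv ℤ {{w : κ → ℂ | w k ≠ 0}} (Hs k) n :=
    triv_small (by simpa using open_nz k) (Hs_open k) hr (by rw [sUnion_singleton]; exact fun w => Hs_cover)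
  obtain ⟨φ, h3, h4⟩ := ss_cy hT hr (cy_ee ℤ k) Ref.univ
  obtain ⟨ψ, h5, h6⟩ := ss_bo hT hr Ref.univ ((cy_std ht).sub (h3.smul r))
    (h2.trans (by simpa only [smul_sub] using h4.smul r))
  have hF := cont_single k
  have h7 := h6 _ (In_le_Ch' (mem_singleton _)
    (glob_In hF (fun _ => mem_univ _) [1, Complex.I, -1 - Complex.I]))
  have h8 := IsTau.tri (t := pb (fun z : ℂ => (Pi.single k z : κ → ℂ)) t) (by
    simpa [Function.comp_def, Function.id_def] using ht.pull continuous_id hF hF fun _ => rfl)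
  rw [pb, LinearMap.comp_apply, map_glob continuous_id, Function.comp_id] at h8
  have e1 := h5 _ (edge_nz k 1 1 (v := 1) (w := Complex.I) (by simp) (by simp))
  have e2 := h5 _ (edge_nz k (-3) 1 (v := Complex.I) (w := -1 - Complex.I) (by simp) (by norm_num))
  have e3 := h5 _ (edge_nz k 1 (-3) (v := 1) (w := -1 - Complex.I) (by simp) (by norm_num))
  simp only [LinearMap.comp_apply, D_glob hF, bd_single, bdL, map_sub, cone_single, map_zero,
    sub_zero, e1, e2, e3, LinearMap.sub_apply, LinearMap.smul_apply, h8, smul_eq_mul] at h7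
  exact ⟨(IsUnit.of_mul_eq_one _ (sub_eq_zero.1 h7).symm).unit, h2⟩

theorem gb_loc (R : Type) [CommRing R] {t : κ → Cc ℤ (κ → ℂ)}
    (ht : ∀ k, IsTau id (fun _ _ => 1) (fun w : κ → ℂ => w k) (t k)) {l : List κ} (hl : l.Nodup) :
    GB {univ} (⋃ k ∈ l, {{w : κ → ℂ | w k ≠ 0}})
      (fun _ : Unit => pr (l.map fun k => bc (Int.castRingHom R) (t k))) fun _ => 2 * l.length := by
  induction l with
  | nil => simpa [pr] using gb_one (κ := κ) R
  | cons k l ih =>
    obtain ⟨hk, hl⟩ := List.nodup_cons.1 hl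
    replace ih := ih hl
    obtain ⟨u, hu⟩ := tau_ee (ht k)
    have h1 := (hu.coef (Int.castRingHom R)).mul_left (ih.cy ())
    rw [bc_sub, bc_smul, ee, bc_cup, bc_eh, bc_eh, cup_sub_left, cup_smul_left, add_comm 2] at h1
    have h2 := ((gb_two k (fun U hU y hy z => ?_) ih).smul_unit fun _ =>
      Units.map (Int.castRingHom R).toMonoidHom u).congr Ref.univ fun _ => h1.symm
    · have hr : Ref (Hs k ∪ ⋃ j ∈ l, {{w : κ → ℂ | w j ≠ 0}})
          (⋃ j ∈ k :: l, {{w : κ → ℂ | w j ≠ 0}}) :=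
        Ref.union (fun U hU _ => ⟨_, mem_biUnion List.mem_cons_self rfl, Hs_sub k U hU⟩)
          (Ref.of_subset (biUnion_subset_biUnion_left fun j hj => List.mem_cons_of_mem _ hj))
      refine (gb_S (triv_small ?_ ?_ hr ?_) hr Ref.univ fun _ =>
        cy_pr fun j _ => (cy_std (ht j)).coef _).1 h2
      · simp only [mem_iUnion, mem_singleton_iff]
        rintro U ⟨j, -, rfl⟩
        exact open_nz j
      · simp only [mem_union, mem_iUnion, mem_singleton_iff]
        rintro U (hU | ⟨j, -, rfl⟩)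
        exacts [Hs_open k U hU, open_nz j]
      · simp only [sUnion_subset_iff, mem_iUnion, mem_singleton_iff]
        rintro U ⟨j, hj, rfl⟩ w hw
        rcases List.mem_cons.1 hj with rfl | hj
        · obtain ⟨U, hU, h⟩ := Hs_cover hw
          exact ⟨U, .inl hU, h⟩
        · exact ⟨_, .inr (mem_biUnion hj rfl), hw⟩
    · simp only [mem_iUnion, mem_singleton_iff] at hU
      obtain ⟨j, hj, rfl⟩ := hU
      rwa [mem_ofPred_eq, Function.update_of_ne (by rintro rfl; exact hk hj)]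

lemma exists_std (κ : Type) [Fintype κ] [DecidableEq κ] : ∃ t : κ → Cc ℤ (κ → ℂ),
    ∀ k, IsTau id (fun _ _ => 1) (fun w : κ → ℂ => w k) (t k) :=
  Classical.skolem.1 fun _ => exists_tau continuous_id lf_id isD_one
    ⟨by fun_prop, fun p p' h => by rw [show p = p' from h, one_mul]⟩

/-- The punctured space has the cohomology of an odd sphere. -/
theorem triv_punct (R : Type) [CommRing R] {k : ℕ} (hk : k + 2 ≠ 2 * Fintype.card κ) :
    Triv R {({0}ᶜ : Set (κ → ℂ))} ∅ (k + 1) := by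
  obtain ⟨t, ht⟩ := exists_std κ
  have h := (gb_loc R ht (Finset.nodup_toList Finset.univ)).triv (k := k + 2)
    fun _ => by simpa using hk.symm
  have hr : Ref (⋃ j ∈ (Finset.univ : Finset κ).toList, {{w : κ → ℂ | w j ≠ 0}}) {{0}ᶜ} := by
    simp only [Ref, mem_iUnion, mem_singleton_iff]
    rintro U ⟨j, -, rfl⟩ -
    exact ⟨_, rfl, fun w hw h => hw (by rw [show w = 0 from h]; rfl)⟩
  refine (triv_aff R k).of_res (Triv.left (triv_small (by simp) ?_ hr ?_) h hr Ref.univ)
    Ref.empty Ref.univ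
  · simp only [mem_iUnion, mem_singleton_iff]
    rintro U ⟨j, -, rfl⟩
    exact open_nz j
  · rw [sUnion_singleton]
    intro w hw
    obtain ⟨j, hj⟩ := Function.ne_iff.1 hw
    exact ⟨_, mem_biUnion (Finset.mem_toList.2 (Finset.mem_univ j)) rfl, hj⟩

/-- Radial deformation in a normed space. -/
theorem triv_push (R : Type) [CommRing R] {E : Type*} [NormedAddCommGroup E] [NormedSpace ℝ E]
    {A B : Set E} (h0 : (0 : E) ∈ A) (hAB : A ⊆ B) (hA : StarConvex ℝ 0 A) (hB : StarConvex ℝ 0 B)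
    (hb : Bornology.IsBounded B) (k : ℕ) : Triv R {Aᶜ} {Bᶜ} k := by
  obtain ⟨L, hL, hB'⟩ := hb.exists_pos_norm_le
  have hc : ContinuousOn (fun p : E × ℝ => (1 + p.2 * L / ‖p.1‖) • p.1) (Aᶜ ×ˢ Icc 0 1) :=
    (continuousOn_const.add (ContinuousOn.div (by fun_prop) (by fun_prop) fun p hp h =>
      hp.1 (norm_eq_zero.1 h ▸ h0))).smul continuousOn_fst
  have hm : ∀ {C : Set E}, StarConvex ℝ 0 C →
      MapsTo (fun p : E × ℝ => (1 + p.2 * L / ‖p.1‖) • p.1) (Cᶜ ×ˢ Icc 0 1) Cᶜ :=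
    fun hC p hp h => hp.1 <| by
      have h1 : 0 ≤ p.2 * L / ‖p.1‖ := by have := hp.2.1; positivity
      have := hC.smul_mem h (t := (1 + p.2 * L / ‖p.1‖)⁻¹) (by positivity)
        (inv_le_one_of_one_le₀ (by linarith))
      rwa [inv_smul_smul₀ (by positivity)] at this
  refine triv_def ⟨by simpa using hc, by simpa using hc.mono (by gcongr), ?_, ?_⟩ (by simp)
    (Mp.single fun y hy h => ?_) k
  · rintro _ rfl -
    exact ⟨_, rfl, hm hA⟩
  · rintro _ rfl -
    exact ⟨_, rfl, hm hB⟩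
  · have h1 : 0 < ‖y‖ := norm_pos_iff.2 fun h => hy (h ▸ h0)
    have h2 := hB' _ h
    rw [norm_smul, Real.norm_of_nonneg (by positivity), add_mul, div_mul_cancel₀ _ h1.ne'] at h2
    linarith

end Pool.Agent.Lib.MP_bf05b2_gt
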