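import Pool.Agent.Lib.MP_bf05b2_gt.H57Bun

/-! Normalised coordinates on a complete toric variety. -/

set_option linter.unusedSectionVars false

namespace Pool.Agent.Lib.MP_bf05b2_gt

open Set Finsupp Pool.Agent.Shared.Sing Pool.Agent.Shared.SingEZ

namespace Fan

variable {ι κ : Type} [Fintype ι] [DecidableEq ι] [Fintype κ] [DecidableEq κ] (F : Fan ι κ)

/-- Certificates for a complete fan. -/
structure Good (L : List (Step ι κ)) : Prop where
  chart : ∀ s ∈ L, F.IsChart s.e s.M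
  cover : ∀ σ ∈ F.K, ∃ s ∈ L, σ ⊆ s.cone
  sep : ∀ s ∈ L, ∀ t ∈ L, ∃ m : κ → ℤ,
    (∀ i ∈ s.cone, if i ∈ t.cone then ∑ k, m k * F.v i k = 0 else 0 < ∑ k, m k * F.v i k) ∧
    ∀ i ∈ t.cone, i ∉ s.cone → ∑ k, m k * F.v i k < 0
  complete : ∀ x : κ → ℝ, ∃ s ∈ L, ∀ k, 0 ≤ ∑ j, (s.M k j : ℝ) * x j

/-- A normalising function. -/
structure IsN (L : List (Step ι κ)) (N : (ι → ℂ) → ι → ℝ) : Prop where
  cont : ContinuousOn N F.U
  pos : ∀ z ∈ F.U, ∀ i, 0 < N z i
  mem : ∀ z ∈ F.U, (fun i => (N z i : ℂ)) ∈ F.G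
  le : ∀ z ∈ F.U, ∀ i, ‖z i‖ ≤ N z i
  eq : ∀ z ∈ F.U, ∃ s ∈ L, ∀ i ∉ s.cone, ‖z i‖ = N z i
  mul : ∀ z ∈ F.U, ∀ g ∈ F.G, ∀ i, N (g * z) i = ‖g i‖ * N z i
  abs : ∀ z ∈ F.U, ∀ w, (∀ i, ‖w i‖ = ‖z i‖) → N w = N z

variable {F} {L : List (Step ι κ)}

lemma Good.sm (h : F.Good L) : F.Sm := fun σ hσ =>
  let ⟨s, hs, hσs⟩ := h.cover σ hσ
  ⟨s.e, s.M, h.chart s hs, hσs⟩

lemma nrm_pair (v : ι → κ → ℤ) (m : κ → ℤ) (σ : Finset ι) (c : ι → ℝ) :
    ∑ k, (m k : ℝ) * ∑ i ∈ σ, c i * (v i k : ℝ) =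
      ∑ i ∈ σ, c i * ((∑ k, m k * v i k : ℤ) : ℝ) := by
  simp only [Finset.mul_sum, Int.cast_sum, Int.cast_mul]
  rw [Finset.sum_comm]
  exact Finset.sum_congr rfl fun i _ => Finset.sum_congr rfl fun k _ => by ring

lemma IsChart.coef {e : κ → ι} {M : κ → κ → ℤ} (h : F.IsChart e M) (c : ι → ℝ) (k : κ) :
    ∑ j, (M k j : ℝ) * ∑ i ∈ Finset.univ.image e, c i * (F.v i j : ℝ) = c (e k) := by
  rw [nrm_pair, Finset.sum_image fun a _ b _ hab => h.inj hab]
  simp only [h.dual]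
  simp

lemma IsChart.expand {e : κ → ι} {M : κ → κ → ℤ} (h : F.IsChart e M) (x : κ → ℝ) (j : κ) :
    ∑ k, (∑ l, (M k l : ℝ) * x l) * (F.v (e k) j : ℝ) = x j := by
  have h1 : ∀ l, ∑ k, (F.v (e k) j : ℝ) * (M k l : ℝ) = if j = l then 1 else 0 := by
    intro l
    have := congrArg (Int.cast : ℤ → ℝ) (h.dual' j l)
    push_cast at this
    exact this
  calc ∑ k, (∑ l, (M k l : ℝ) * x l) * (F.v (e k) j : ℝ)
      = ∑ l, (∑ k, (F.v (e k) j : ℝ) * (M k l : ℝ)) * x l := by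
        simp only [Finset.sum_mul]
        rw [Finset.sum_comm]
        exact Finset.sum_congr rfl fun i _ => Finset.sum_congr rfl fun k _ => by ring
    _ = x j := by simp [h1]

lemma IsChart.exists_basis {e : κ → ι} {M : κ → κ → ℤ} (h : F.IsChart e M) :
    ∃ b : Module.Basis κ ℤ (κ → ℤ), ∀ k, b k = F.v (e k) := by
  have hli : LinearIndependent ℤ fun k => F.v (e k) := by
    rw [Fintype.linearIndependent_iff]
    intro g hg l
    have h1 : ∀ j, ∑ k, g k * F.v (e k) j = 0 := fun j => by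
      simpa [Finset.sum_apply] using congrFun hg j
    calc g l = ∑ k, g k * ∑ j, M l j * F.v (e k) j := by simp [h.dual]
      _ = ∑ j, M l j * ∑ k, g k * F.v (e k) j := by
        simp only [Finset.mul_sum]
        rw [Finset.sum_comm]
        exact Finset.sum_congr rfl fun i _ => Finset.sum_congr rfl fun k _ => by ring
      _ = 0 := by simp [h1]
  have hsp : ⊤ ≤ Submodule.span ℤ (range fun k => F.v (e k)) := by
    intro x _
    rw [Submodule.mem_span_range_iff_exists_fun]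
    refine ⟨fun k => ∑ l, M k l * x l, funext fun j => ?_⟩
    calc (∑ k, (∑ l, M k l * x l) • F.v (e k)) j = ∑ l, (∑ k, F.v (e k) j * M k l) * x l := by
          simp only [Finset.sum_apply, Pi.smul_apply, smul_eq_mul, Finset.sum_mul]
          rw [Finset.sum_comm]
          exact Finset.sum_congr rfl fun i _ => Finset.sum_congr rfl fun k _ => by ring
      _ = x j := by simp [h.dual']
  exact ⟨Module.Basis.mk hli hsp, fun k => Module.Basis.mk_apply hli hsp k⟩

lemma nrm_sum_ite {σ ρ : Finset ι} (h : σ ⊆ ρ) (c f : ι → ℝ) :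
    ∑ i ∈ ρ, (if i ∈ σ then c i else 0) * f i = ∑ i ∈ σ, c i * f i := by
  rw [← Finset.sum_subset h fun i _ hi => by simp [hi]]
  exact Finset.sum_congr rfl fun i hi => by simp [hi]

lemma cone_mono {σ ρ : Finset ι} (h : σ ⊆ ρ) : F.cone σ ⊆ F.cone ρ := by
  rintro _ ⟨c, hc, rfl⟩
  refine ⟨fun i => if i ∈ σ then c i else 0, fun i => ?_, funext fun k => ?_⟩
  · dsimp only
    split_ifs
    exacts [hc i, le_rfl]
  · exact (nrm_sum_ite h c _).symm

lemma Good.inter (h : F.Good L) {σ τ : Finset ι} (hσ : σ ∈ F.K) (hτ : τ ∈ F.K) :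
    F.cone σ ∩ F.cone τ ⊆ F.cone (σ ∩ τ) := by
  rintro x ⟨⟨c, hc, hx⟩, ⟨d, hd, hx'⟩⟩
  obtain ⟨s, hs, hσs⟩ := h.cover σ hσ
  obtain ⟨t, ht, hτt⟩ := h.cover τ hτ
  obtain ⟨m, hm, hm'⟩ := h.sep s hs t ht
  have e1 : ∑ i ∈ σ, c i * ((∑ k, m k * F.v i k : ℤ) : ℝ) =
      ∑ i ∈ τ, d i * ((∑ k, m k * F.v i k : ℤ) : ℝ) := by
    rw [← nrm_pair, ← nrm_pair]
    exact Finset.sum_congr rfl fun k _ => by
      rw [← congrFun hx k, ← congrFun hx' k]
  have p1 : 0 ≤ ∑ i ∈ σ, c i * ((∑ k, m k * F.v i k : ℤ) : ℝ) := by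
    refine Finset.sum_nonneg fun i hi => mul_nonneg (hc i) ?_
    have := hm i (hσs hi)
    split_ifs at this
    · exact_mod_cast this.ge
    · exact_mod_cast this.le
  have p2 : ∀ i ∈ τ, d i * ((∑ k, m k * F.v i k : ℤ) : ℝ) ≤ 0 := by
    intro i hi
    refine mul_nonpos_of_nonneg_of_nonpos (hd i) ?_
    by_cases his : i ∈ s.cone
    · have := hm i his
      rw [if_pos (hτt hi)] at this
      exact_mod_cast this.le
    · exact_mod_cast (hm' i (hτt hi) his).le
  have p3 : ∀ i ∈ τ, d i * ((∑ k, m k * F.v i k : ℤ) : ℝ) = 0 :=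
    (Finset.sum_eq_zero_iff_of_nonpos p2).mp
      (le_antisymm (Finset.sum_nonpos p2) (e1 ▸ p1))
  have p4 : ∀ i ∈ τ, i ∉ s.cone → d i = 0 := by
    intro i hi his
    refine (mul_eq_zero.mp (p3 i hi)).resolve_right ?_
    exact_mod_cast (hm' i (hτt hi) his).ne
  have q1 : ∀ j, x j = ∑ i ∈ s.cone, (if i ∈ σ then c i else 0) * (F.v i j : ℝ) := fun j => by
    rw [nrm_sum_ite hσs, hx]
  have q2 : ∀ j, x j = ∑ i ∈ s.cone, (if i ∈ τ ∩ s.cone then d i else 0) * (F.v i j : ℝ) := by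
    intro j
    rw [nrm_sum_ite Finset.inter_subset_right, hx']
    refine (Finset.sum_subset Finset.inter_subset_left fun i hi hi' => ?_).symm
    rw [p4 i hi fun h' => hi' (Finset.mem_inter.mpr ⟨hi, h'⟩), zero_mul]
  have q3 : ∀ i ∈ σ, i ∉ τ → c i = 0 := by
    intro i hi hi'
    obtain ⟨k, -, rfl⟩ := Finset.mem_image.mp (hσs hi)
    have a1 := (h.chart s hs).coef (fun i => if i ∈ σ then c i else 0) k
    have a2 := (h.chart s hs).coef (fun i => if i ∈ τ ∩ s.cone then d i else 0) k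
    have a3 : (if s.e k ∈ σ then c (s.e k) else 0) =
        if s.e k ∈ τ ∩ s.cone then d (s.e k) else 0 := by
      rw [← a1, ← a2]
      exact Finset.sum_congr rfl fun j _ => congrArg _ ((q1 j).symm.trans (q2 j))
    rwa [if_pos hi, if_neg fun h' => hi' (Finset.mem_inter.mp h').1] at a3
  refine ⟨c, hc, hx.trans (funext fun k => ?_)⟩
  refine (Finset.sum_subset Finset.inter_subset_left fun i hi hi' => ?_).symm
  rw [q3 i hi fun h' => hi' (Finset.mem_inter.mpr ⟨hi, h'⟩), zero_mul]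

theorem Good.isc (h : F.Good L) (hf : ∀ σ ∈ F.K, ∀ τ ⊆ σ, τ ∈ F.K) (hr : ∀ i, {i} ∈ F.K) :
    F.IsSmoothComplete where
  face := hf
  ray := hr
  smooth σ hσ := by
    obtain ⟨s, hs, hσs⟩ := h.cover σ hσ
    obtain ⟨b, hb⟩ := (h.chart s hs).exists_basis
    have hd : ∀ _ : ι, Nonempty κ := fun i => by
      obtain ⟨t, -, ht⟩ := h.cover {i} (hr i)
      obtain ⟨k, -, -⟩ := Finset.mem_image.mp (ht (Finset.mem_singleton_self i))
      exact ⟨k⟩
    have hf : ∀ k, Function.extend s.e id (fun i => (hd i).some) (s.e k) = k :=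
      fun k => (h.chart s hs).inj.extend_apply _ _ k
    refine ⟨b, Function.extend s.e id fun i => (hd i).some, fun i hi j hj hij => ?_, fun i hi => ?_⟩
    · obtain ⟨k, -, rfl⟩ := Finset.mem_image.mp (hσs hi)
      obtain ⟨l, -, rfl⟩ := Finset.mem_image.mp (hσs hj)
      rw [hf, hf] at hij
      rw [hij]
    · obtain ⟨k, -, rfl⟩ := Finset.mem_image.mp (hσs hi)
      rw [hf, hb]
  inter σ hσ τ hτ := Subset.antisymm (h.inter hσ hτ)
    (subset_inter (cone_mono Finset.inter_subset_left) (cone_mono Finset.inter_subset_right))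
  complete x := by
    obtain ⟨s, hs, hx⟩ := h.complete x
    have hc := h.chart s hs
    refine ⟨s.cone, hc.mem, Function.extend s.e (fun k => ∑ l, (s.M k l : ℝ) * x l) 0,
      fun i => ?_, funext fun j => ?_⟩
    · by_cases hi : ∃ k, s.e k = i
      · obtain ⟨k, rfl⟩ := hi
        rw [hc.inj.extend_apply]
        exact hx k
      · rw [Function.extend_apply' _ _ _ hi]
        exact le_rfl
    · rw [Step.cone, Finset.sum_image fun a _ b _ hab => hc.inj hab]
      simp only [hc.inj.extend_apply]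
      exact (hc.expand x j).symm

lemma norm_mem_G {g : ι → ℂ} (hg : g ∈ F.G) : (fun i => (‖g i‖ : ℂ)) ∈ F.G := by
  refine ⟨fun i => by simpa using hg.1 i, fun k => ?_⟩
  have := congrArg (fun c : ℂ => (‖c‖ : ℂ)) (hg.2 k)
  simpa [norm_prod, norm_zpow] using this

/-- The logarithms of a positive element of `G` are killed by every character. -/
lemma sum_log_G {n : ι → ℝ} (hp : ∀ i, 0 < n i) (hn : (fun i => (n i : ℂ)) ∈ F.G) (m : κ → ℤ) :
    ∑ i, ((∑ k, m k * F.v i k : ℤ) : ℝ) * Real.log (n i) = 0 := by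
  have h1 := mon_mul m hn 1
  simp only [mon, mul_one, Pi.one_apply, one_zpow, Finset.prod_const_one] at h1
  have h2 : ∏ i, n i ^ ∑ k, m k * F.v i k = 1 := by exact_mod_cast h1
  have h3 := congrArg Real.log h2
  rw [Real.log_prod fun i _ => (zpow_pos (hp i) _).ne', Real.log_one] at h3
  simpa only [Real.log_zpow] using h3

variable (F) in
/-- The vector `n` normalises `z` in the chart `s`. -/
structure NP (s : Step ι κ) (z : ι → ℂ) (n : ι → ℝ) : Prop where
  pos : ∀ i, 0 < n i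
  mem : (fun i => (n i : ℂ)) ∈ F.G
  le : ∀ i, ‖z i‖ ≤ n i
  eq : ∀ i ∉ s.cone, ‖z i‖ = n i

lemma Good.np_unique (h : F.Good L) {s t : Step ι κ} (hs : s ∈ L) (ht : t ∈ L) {z : ι → ℂ}
    {n n' : ι → ℝ} (hn : F.NP s z n) (hn' : F.NP t z n') : n = n' := by
  obtain ⟨m, hm, hm'⟩ := h.sep s hs t ht
  have e1 : ∑ i, ((∑ k, m k * F.v i k : ℤ) : ℝ) * (Real.log (n i) - Real.log (n' i)) = 0 := by
    simp only [mul_sub, Finset.sum_sub_distrib, sum_log_G hn.pos hn.mem, sum_log_G hn'.pos hn'.mem,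
      sub_self]
  have p1 : ∀ i ∈ (Finset.univ : Finset ι),
      0 ≤ ((∑ k, m k * F.v i k : ℤ) : ℝ) * (Real.log (n i) - Real.log (n' i)) := by
    intro i _
    by_cases his : i ∈ s.cone
    · have := hm i his
      split_ifs at this with hit
      · simp [this]
      · refine mul_nonneg (by exact_mod_cast this.le) (sub_nonneg.mpr ?_)
        exact Real.log_le_log (hn'.pos i) (hn'.eq i hit ▸ hn.le i)
    · by_cases hit : i ∈ t.cone
      · refine mul_nonneg_of_nonpos_of_nonpos (by exact_mod_cast (hm' i hit his).le)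
          (sub_nonpos.mpr ?_)
        exact Real.log_le_log (hn.pos i) (hn.eq i his ▸ hn'.le i)
      · rw [← hn.eq i his, ← hn'.eq i hit, sub_self, mul_zero]
  have p2 := (Finset.sum_eq_zero_iff_of_nonneg p1).mp e1
  have p3 : ∀ i ∉ s.cone, n i = n' i := by
    intro i his
    by_cases hit : i ∈ t.cone
    · have := (mul_eq_zero.mp (p2 i (Finset.mem_univ i))).resolve_left
        (by exact_mod_cast (hm' i hit his).ne)
      exact Real.log_injOn_pos (hn.pos i) (hn'.pos i) (sub_eq_zero.mp this)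
    · rw [← hn.eq i his, ← hn'.eq i hit]
  have := (h.chart s hs).eq_of_G hn.mem hn'.mem fun i hi => by rw [p3 i hi]
  funext i
  exact_mod_cast congrFun this i

variable (F) in
/-- The points of `U` over the closed polydisc of a chart. -/
def RR (s : Step ι κ) : Set (ι → ℂ) :=
  {z | z ∈ F.U ∧ (∀ i ∉ s.cone, z i ≠ 0) ∧ ∀ k, ‖F.mon (s.M k) z‖ ≤ 1}

lemma IsChart.np {s : Step ι κ} (h : F.IsChart s.e s.M) {z : ι → ℂ} (hz : z ∈ F.RR s) :
    F.NP s z fun i => ‖F.nrm s.e s.M z i‖⁻¹ := by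
  have hg := h.nrm_mem hz.2.1
  have hp : ∀ i, 0 < ‖F.nrm s.e s.M z i‖ := fun i => norm_pos_iff.mpr (hg.1 i)
  have he : ∀ i, ‖z i‖ = ‖F.nrm s.e s.M z i‖⁻¹ * ‖sec s.e (fun k => F.mon (s.M k) z) i‖ := by
    intro i
    rw [← h.nrm_mul hz.2.1, Pi.mul_apply, norm_mul, inv_mul_cancel_left₀ (hp i).ne']
  refine ⟨fun i => inv_pos.mpr (hp i), ?_, fun i => ?_, fun i hi => ?_⟩
  · simpa only [Pi.inv_apply, norm_inv] using norm_mem_G (inv_mem_G hg)
  · rw [he]
    refine mul_le_of_le_one_right (inv_pos.mpr (hp i)).le ?_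
    by_cases hi : i ∈ Finset.univ.image s.e
    · obtain ⟨k, -, rfl⟩ := Finset.mem_image.mp hi
      rw [h.sec_e]
      exact hz.2.2 k
    · rw [sec_not _ hi, norm_one]
  · rw [he, sec_not _ hi, norm_one, mul_one]

/-- The closed inequality that separates two charts. -/
lemma NP.prod_le {s : Step ι κ} {z : ι → ℂ} {n : ι → ℝ} (hn : F.NP s z n) {m : κ → ℤ}
    (hm : ∀ i ∈ s.cone, 0 ≤ ∑ k, m k * F.v i k) :
    ∏ i, ‖z i‖ ^ (∑ k, m k * F.v i k).toNat ≤ ∏ i, ‖z i‖ ^ (-∑ k, m k * F.v i k).toNat := by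
  have h1 := mon_mul m hn.mem 1
  simp only [mon, mul_one, Pi.one_apply, one_zpow, Finset.prod_const_one] at h1
  have h2 : ∏ i, n i ^ ∑ k, m k * F.v i k = 1 := by exact_mod_cast h1
  have h3 : ∏ i, n i ^ (∑ k, m k * F.v i k).toNat = ∏ i, n i ^ (-∑ k, m k * F.v i k).toNat := by
    rw [← one_mul (∏ i, n i ^ (-∑ k, m k * F.v i k).toNat), ← h2, ← Finset.prod_mul_distrib]
    refine Finset.prod_congr rfl fun i _ => ?_
    rw [← zpow_natCast, ← zpow_natCast, ← zpow_add₀ (hn.pos i).ne']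
    congr 1
    omega
  calc ∏ i, ‖z i‖ ^ (∑ k, m k * F.v i k).toNat ≤ ∏ i, n i ^ (∑ k, m k * F.v i k).toNat :=
        Finset.prod_le_prod (fun i _ => pow_nonneg (norm_nonneg _) _)
          fun i _ => pow_le_pow_left₀ (norm_nonneg _) (hn.le i) _
    _ = ∏ i, ‖z i‖ ^ (-∑ k, m k * F.v i k).toNat := by
        rw [h3]
        refine Finset.prod_congr rfl fun i _ => ?_
        by_cases hi : i ∈ s.cone
        · have : (-∑ k, m k * F.v i k).toNat = 0 := by
            have := hm i hi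
            omega
          rw [this, pow_zero, pow_zero]
        · rw [hn.eq i hi]

lemma Good.rr_closed (h : F.Good L) {s : Step ι κ} (hs : s ∈ L) {z : ι → ℂ} (hz : z ∈ F.U)
    (hc : z ∈ closure (F.RR s)) : z ∈ F.RR s := by
  have hch := h.chart s hs
  have h1 : ∀ i ∉ s.cone, z i ≠ 0 := by
    intro i₀ hi₀ h0
    obtain ⟨σ, hσ, hzσ⟩ := hz
    obtain ⟨t, ht, hσt⟩ := h.cover σ hσ
    have hit : i₀ ∈ t.cone := hσt (by_contra fun hi => hzσ i₀ hi h0)
    obtain ⟨m, hm, hm'⟩ := h.sep s hs t ht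
    have hm0 : ∀ i ∈ s.cone, 0 ≤ ∑ k, m k * F.v i k := fun i hi => by
      have := hm i hi
      split_ifs at this
      exacts [this.ge, this.le]
    have hcl : IsClosed {w : ι → ℂ | ∏ i, ‖w i‖ ^ (∑ k, m k * F.v i k).toNat ≤
        ∏ i, ‖w i‖ ^ (-∑ k, m k * F.v i k).toNat} :=
      isClosed_le (by fun_prop) (by fun_prop)
    have h2 : ∏ i, ‖z i‖ ^ (∑ k, m k * F.v i k).toNat ≤
        ∏ i, ‖z i‖ ^ (-∑ k, m k * F.v i k).toNat :=
      closure_minimal (fun w hw => (hch.np hw).prod_le hm0) hcl hc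
    have h3 : ∏ i, ‖z i‖ ^ (-∑ k, m k * F.v i k).toNat = 0 := by
      refine Finset.prod_eq_zero (Finset.mem_univ i₀) ?_
      have := hm' i₀ hit hi₀
      rw [h0, norm_zero, zero_pow (by omega)]
    have h4 : 0 < ∏ i, ‖z i‖ ^ (∑ k, m k * F.v i k).toNat := by
      refine Finset.prod_pos fun i _ => ?_
      by_cases hi : i ∈ t.cone
      · have : (∑ k, m k * F.v i k).toNat = 0 := by
          by_cases his : i ∈ s.cone
          · have := hm i his
            rw [if_pos hi] at this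
            omega
          · have := hm' i hi his
            omega
        rw [this, pow_zero]
        exact one_pos
      · exact pow_pos (norm_pos_iff.mpr (hzσ i fun hi' => hi (hσt hi'))) _
    exact absurd (h2.trans h3.le) h4.not_ge
  refine ⟨hz, h1, fun k => ?_⟩
  have hsub : ∀ w : ι → ℂ, (∀ i ∉ s.cone, w i ≠ 0) →
      w ∈ {w : ι → ℂ | ∀ i, ∑ j, s.M k j * F.v i j < 0 → w i ≠ 0} := by
    intro w hw i hi
    refine hw i fun his => ?_
    obtain ⟨l, -, rfl⟩ := Finset.mem_image.mp his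
    rw [hch.dual] at hi
    split_ifs at hi <;> omega
  have h5 : ContinuousWithinAt (fun w => ‖F.mon (s.M k) w‖) (F.RR s) z :=
    ((continuousOn_mon (s.M k) z (hsub z h1)).mono fun w hw => hsub w hw.2.1).norm
  exact ContinuousWithinAt.closure_le hc h5 continuousWithinAt_const fun w hw => hw.2.2 k

lemma Good.rr_torus (h : F.Good L) {z : ι → ℂ} (hz : ∀ i, z i ≠ 0) : ∃ s ∈ L, z ∈ F.RR s := by
  obtain ⟨s, hs, hx⟩ := h.complete fun j => ∑ i, -Real.log ‖z i‖ * (F.v i j : ℝ)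
  refine ⟨s, hs, ⟨∅, F.zero_mem, fun i _ => hz i⟩, fun i _ => hz i, fun k => ?_⟩
  have h1 := hx k
  rw [nrm_pair] at h1
  have hp : ∀ i, 0 < ‖z i‖ ^ ∑ j, s.M k j * F.v i j := fun i =>
    zpow_pos (norm_pos_iff.mpr (hz i)) _
  simp only [mon, norm_prod, norm_zpow]
  rw [← Real.log_nonpos_iff (Finset.prod_pos fun i _ => hp i).le,
    Real.log_prod fun i _ => (hp i).ne']
  simp only [Real.log_zpow]
  simp only [neg_mul, Finset.sum_neg_distrib, mul_comm (Real.log _)] at h1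
  linarith

lemma Good.rr_cover (h : F.Good L) {z : ι → ℂ} (hz : z ∈ F.U) : ∃ s ∈ L, z ∈ F.RR s := by
  have h1 : Dense (Set.pi univ fun _ : ι => ({0}ᶜ : Set ℂ)) :=
    dense_pi univ fun _ _ => dense_compl_singleton 0
  have h2 : z ∈ closure (⋃ s ∈ {s | s ∈ L}, F.RR s) := by
    refine closure_mono (fun w hw => ?_) (h1 z)
    obtain ⟨s, hs, hw'⟩ := h.rr_torus fun i => hw i (mem_univ i)
    exact mem_biUnion (show s ∈ {s | s ∈ L} from hs) hw'
  rw [(List.finite_toSet L).closure_biUnion] at h2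
  obtain ⟨s, hs, hz'⟩ := mem_iUnion₂.mp h2
  exact ⟨s, hs, h.rr_closed hs hz hz'⟩

theorem Good.exists_N (h : F.Good L) : ∃ N, F.IsN L N := by
  classical
  let N : (ι → ℂ) → ι → ℝ := fun z => if hz : ∃ n, ∃ s ∈ L, F.NP s z n then hz.choose else 1
  have hN : ∀ {z n s}, s ∈ L → F.NP s z n → N z = n := by
    intro z n s hs hn
    have hz : ∃ n, ∃ s ∈ L, F.NP s z n := ⟨n, s, hs, hn⟩
    obtain ⟨t, ht, hn'⟩ := hz.choose_spec
    exact (dif_pos hz).trans (h.np_unique ht hs hn' hn)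
  have hU : ∀ z ∈ F.U, ∃ s ∈ L, F.NP s z (N z) := by
    intro z hz
    obtain ⟨s, hs, hz'⟩ := h.rr_cover hz
    have := (h.chart s hs).np hz'
    exact ⟨s, hs, hN hs this ▸ this⟩
  refine ⟨N, fun z hz => ?_, fun z hz => ?_, fun z hz => ?_, fun z hz => ?_, fun z hz => ?_,
    fun z hz g hg i => ?_, fun z hz w hw => ?_⟩
  · have hsub : F.U ⊆ ⋃ s ∈ {s | s ∈ L}, F.RR s := fun w hw =>
      let ⟨s, hs, hw'⟩ := h.rr_cover hw
      mem_biUnion (show s ∈ {s | s ∈ L} from hs) hw'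
    refine ContinuousWithinAt.mono ?_ hsub
    rw [ContinuousWithinAt, nhdsWithin_biUnion (List.finite_toSet L)]
    refine Filter.tendsto_iSup.mpr fun s => Filter.tendsto_iSup.mpr fun hs => ?_
    by_cases hc : z ∈ closure (F.RR s)
    · have hz' := h.rr_closed hs hz hc
      have hch := h.chart s hs
      have h1 : ContinuousOn (fun w i => ‖F.nrm s.e s.M w i‖⁻¹) (F.RR s) := by
        refine continuousOn_pi.mpr fun i => ContinuousOn.inv₀ ?_ fun w hw => ?_
        · exact (continuousOn_pi.mp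
            ((continuousOn_nrm s.e s.M).mono fun w hw => hw.2.1) i).norm
        · exact norm_ne_zero_iff.mpr ((hch.nrm_mem hw.2.1).1 i)
      exact (h1.congr fun w hw => hN hs (hch.np hw)) z hz'
    · exact continuousWithinAt_of_notMem_closure hc
  · obtain ⟨s, -, hn⟩ := hU z hz
    exact hn.pos
  · obtain ⟨s, -, hn⟩ := hU z hz
    exact hn.mem
  · obtain ⟨s, -, hn⟩ := hU z hz
    exact hn.le
  · obtain ⟨s, hs, hn⟩ := hU z hz
    exact ⟨s, hs, hn.eq⟩
  · obtain ⟨s, hs, hn⟩ := hU z hz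
    have h1 : F.NP s (g * z) fun i => ‖g i‖ * N z i := by
      refine ⟨fun i => mul_pos (norm_pos_iff.mpr (hg.1 i)) (hn.pos i), ?_, fun i => ?_,
        fun i hi => ?_⟩
      · have := mul_mem_G (norm_mem_G hg) hn.mem
        simp only [Complex.ofReal_mul]
        exact this
      · rw [Pi.mul_apply, norm_mul]
        exact mul_le_mul_of_nonneg_left (hn.le i) (norm_nonneg _)
      · rw [Pi.mul_apply, norm_mul, hn.eq i hi]
    exact congrFun (hN hs h1) i
  · obtain ⟨s, hs, hn⟩ := hU z hz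
    exact hN hs ⟨hn.pos, hn.mem, fun i => hw i ▸ hn.le i, fun i hi => hw i ▸ hn.eq i hi⟩

theorem Good.compact (h : F.Good L) : CompactSpace F.X := by
  refine ⟨IsCompact.of_isClosed_subset (t := univ)
    ((List.finite_toSet L).isCompact_biUnion (f := fun s => F.ψ s.e '' Metric.closedBall 0 1)
      fun s hs => (isCompact_closedBall 0 1).image (h.chart s hs).continuous_ψ)
    isClosed_univ fun x _ => ?_⟩
  obtain ⟨z, hz, rfl⟩ := cl_surj x
  obtain ⟨s, hs, hz'⟩ := h.rr_cover hz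
  refine mem_biUnion (show s ∈ {s | s ∈ L} from hs) ⟨F.φ s.M (F.cl z), ?_, ?_⟩
  · rw [mem_closedBall_zero_iff, pi_norm_le_iff_of_nonneg zero_le_one]
    intro k
    rw [φ_cl _ hz]
    exact hz'.2.2 k
  · exact (h.chart s hs).ψ_φ ((cl_mem_W hz).mpr hz'.2.1)

theorem Good.t2 (h : F.Good L) : T2Space F.X := by
  obtain ⟨N, hN⟩ := h.exists_N
  have hinv : ∀ z ∈ F.U, ∀ g ∈ F.G,
      (fun i => ‖(g * z) i‖ / N (g * z) i) = fun i => ‖z i‖ / N z i := by
    intro z hz g hg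
    funext i
    rw [hN.mul z hz g hg, Pi.mul_apply, norm_mul,
      mul_div_mul_left _ _ (norm_ne_zero_iff.mpr (hg.1 i))]
  have hc : Continuous (F.lf fun z i => ‖z i‖ / N z i) := by
    refine continuous_lf (continuousOn_pi.mpr fun i => ?_) hinv
    exact ((continuous_apply i).norm.continuousOn).div (continuousOn_pi.mp hN.cont i)
      fun z hz => (hN.pos z hz i).ne'
  refine ⟨fun x y hxy => ?_⟩
  by_cases hρ : F.lf (fun z i => ‖z i‖ / N z i) x = F.lf (fun z i => ‖z i‖ / N z i) y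
  · obtain ⟨z, hz, rfl⟩ := cl_surj x
    obtain ⟨w, hw, rfl⟩ := cl_surj y
    rw [lf_cl hz (hinv z hz), lf_cl hw (hinv w hw)] at hρ
    obtain ⟨s, hs, he⟩ := hN.eq z hz
    have hch := h.chart s hs
    have hx : F.cl z ∈ F.W s.cone := (cl_mem_W hz).mpr fun i hi =>
      norm_pos_iff.mp (he i hi ▸ hN.pos z hz i)
    have hy : F.cl w ∈ F.W s.cone := (cl_mem_W hw).mpr fun i hi h0 => by
      have := congrFun hρ i
      simp only [he i hi, h0, norm_zero, zero_div, div_self (hN.pos z hz i).ne'] at this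
      exact one_ne_zero this
    have hφ : F.φ s.M (F.cl z) ≠ F.φ s.M (F.cl w) := fun h' =>
      hxy (by rw [← hch.ψ_φ hx, h', hch.ψ_φ hy])
    obtain ⟨u, v, hu, hv, hxu, hyv, huv⟩ := t2_separation hφ
    exact ⟨_, _, hch.continuousOn_φ.isOpen_inter_preimage (isOpen_W _) hu,
      hch.continuousOn_φ.isOpen_inter_preimage (isOpen_W _) hv, ⟨hx, hxu⟩, ⟨hy, hyv⟩,
      (huv.preimage _).mono inter_subset_right inter_subset_right⟩
  · exact separated_by_continuous hc hρ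

theorem Sm.locPC (h : F.Sm) : LocallyPathConnectedSpace F.X := by
  have _ := h
  have := (isOpen_U (F := F)).locallyPathConnectedSpace
  exact Quotient.locallyPathConnectedSpace

/-- Small contractible neighbourhoods with a section of the Cox quotient. -/
theorem Sm.exists_nhds (h : F.Sm) {O : Set F.X} (hO : IsOpen O) {x : F.X} (hx : x ∈ O) :
    ∃ (W : Set F.X) (s : F.X → F.U), IsOpen W ∧ x ∈ W ∧ W ⊆ O ∧ ContinuousOn s W ∧
      (∀ y ∈ W, F.π (s y) = y) ∧ Triv ℤ {W} ∅ 1 := by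
  obtain ⟨e, M, hc, hxW⟩ := h.exists_chart x
  obtain ⟨r, hr, hB⟩ := Metric.isOpen_iff.mp (hO.preimage hc.continuous_ψ) (F.φ M x)
    (show F.ψ e (F.φ M x) ∈ O by rwa [hc.ψ_φ hxW])
  refine ⟨F.W (Finset.univ.image e) ∩ F.φ M ⁻¹' Metric.ball (F.φ M x) r,
    fun y => ⟨sec e (F.φ M y), hc.sec_mem _⟩,
    hc.continuousOn_φ.isOpen_inter_preimage (isOpen_W _) Metric.isOpen_ball,
    ⟨hxW, Metric.mem_ball_self hr⟩, fun y hy => ?_, ?_, fun y hy => ?_, ?_⟩
  · have := hB hy.2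
    rwa [mem_preimage, hc.ψ_φ hy.1] at this
  · exact Topology.IsInducing.subtypeVal.continuousOn_iff.mpr
      ((continuous_sec e).comp_continuousOn (hc.continuousOn_φ.mono inter_subset_left))
  · exact (cl_π _).symm.trans (hc.ψ_φ hy.1)
  · refine triv_contr (H := fun p => F.ψ e ((1 - p.2) • F.φ M p.1 + p.2 • F.φ M x))
      (y₀ := x) ?_ (fun p hp => mem_inter (hc.ψ_mem _) ?_) (fun y hy => ?_) (fun y _ => ?_) 0
    · have h1 : ContinuousOn (fun p : F.X × ℝ => F.φ M p.1)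
          ((F.W (Finset.univ.image e) ∩ F.φ M ⁻¹' Metric.ball (F.φ M x) r) ×ˢ Icc 0 1) :=
        hc.continuousOn_φ.comp continuous_fst.continuousOn fun p hp => hp.1.1
      refine hc.continuous_ψ.comp_continuousOn ?_
      fun_prop
    · rw [mem_preimage, hc.φ_ψ]
      exact convex_ball _ _ hp.1.2 (Metric.mem_ball_self hr) (sub_nonneg.mpr hp.2.2) hp.2.1
        (sub_add_cancel _ _)
    · simp only [sub_zero, one_smul, zero_smul, add_zero]
      exact hc.ψ_φ hy.1
    · simp only [sub_self, one_smul, zero_smul, zero_add]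
      exact hc.ψ_φ hxW

end Fan

end Pool.Agent.Lib.MP_bf05b2_gt
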