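import Pool.Agent.Lib.MP_bf05b2_gt.H57Def2
import Pool.Agent.Lib.MP_bf05b2_gt.H57Adem

/-! Local cohomology along the disc bundle. -/

set_option linter.unusedSectionVars false

namespace Pool.Agent.Lib.MP_bf05b2_gt

open Set Finsupp Pool.Agent.Shared.Sing Pool.Agent.Shared.SingEZ Sum Fan

/-- The divisor cocycles of the family. -/
noncomputable abbrev tF (i : Fin 14 ⊕ Fin 2) : Cc (ZMod 2) FF.X := FF.tR (ZMod 2) i

/-- The first chart of the fibre. -/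
def obs2S : Step (Fin 14) (Fin 3) := ⟨![0, 1, 2], M0, []⟩

/-- The two charts over the first chart of the fibre. -/
def obs2L (r : List (Fin 3)) : List (Step (Fin 14 ⊕ Fin 2) (Option (Fin 3))) :=
  [{ obs2S.up 0 with r := r.map some }, { obs2S.dn 0 ![0, 0, 1] with r := none :: r.map some }]

lemma obs2_W_erase (i : Fin 14 ⊕ Fin 2) : FF.W (ρ0.erase i) = MM ∩ FF.nz i := by
  ext x
  refine ⟨fun h => ⟨fun j hj => h j fun hj' => hj (Finset.mem_of_mem_erase hj'),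
    h i (Finset.notMem_erase _ _)⟩, fun h j hj => ?_⟩
  by_cases e : j = i
  · exact e ▸ h.2
  · exact h.1 j fun hj' => hj (Finset.mem_erase.2 ⟨e, hj'⟩)

lemma obs2_MM (r : List (Fin 3)) : ⋃ s ∈ obs2L r, FF.W s.cone = MM := by
  have e0 : (obs2S.up 0).cone = ρ0.erase (inr 1) := by decide
  have e1 : (obs2S.dn 0 ![0, 0, 1]).cone = ρ0.erase (inr 0) := by decide
  have e : ⋃ s ∈ obs2L r, FF.W s.cone =
      FF.W (obs2S.up 0).cone ∪ FF.W (obs2S.dn 0 ![0, 0, 1]).cone := by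
    ext x
    simp only [obs2L, List.mem_cons, List.not_mem_nil, or_false, mem_iUnion, exists_prop,
      exists_eq_or_imp, exists_eq_left, mem_union]
    rfl
  rw [e, e0, e1, obs2_W_erase, obs2_W_erase, ← inter_union_distrib_left, inter_eq_left]
  intro x _
  obtain ⟨z, hz, rfl⟩ := cl_surj x
  rcases (mem_U_pb1.1 hz).2 with h | h
  · exact Or.inr ((cl_mem_nz hz).2 h)
  · exact Or.inl ((cl_mem_nz hz).2 h)

lemma obs2_gen {K : List (Finset (Fin 14 ⊕ Fin 2))} {r : List (Fin 3)} (hs : Shell K (obs2L r))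
    {A : Set FF.X} (hA : A = (⋃ ρ ∈ K, FF.W ρ) ∪ MM) :
    GB {A} (⋃ ρ ∈ K, {FF.W ρ})
      ![pr (r.map fun k => tF (inl (![0, 1, 2] k))),
        pr (tF (inr 1) :: r.map fun k => tF (inl (![0, 1, 2] k)))]
      ![2 * r.length, 2 * (r.length + 1)] := by
  have h : GB (J := Fin 2) _ _ _ _ :=
    sm_FF.shell (ZMod 2) (K := K) (L := obs2L r) (A := A) (fun s hs => ?_) hs
      (by rw [obs2_MM, hA])
  · have e1 : (fun j : Fin 2 => Step.β FF (ZMod 2) (obs2L r)[j]) =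
        ![pr (r.map fun k => tF (inl (![0, 1, 2] k))),
          pr (tF (inr 1) :: r.map fun k => tF (inl (![0, 1, 2] k)))] := by
      funext j
      fin_cases j
      · exact congrArg pr List.map_map
      · exact congrArg (fun l => pr (tF (inr 1) :: l)) List.map_map
    have e2 : (fun j : Fin 2 => 2 * (obs2L r)[j].r.length) = ![2 * r.length, 2 * (r.length + 1)] := by
      funext j
      fin_cases j
      · exact congrArg (2 * ·) (List.length_map _)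
      · exact congrArg (fun n => 2 * (n + 1)) (List.length_map _)
    exact e1 ▸ e2 ▸ h
  · simp only [obs2L, List.mem_cons, List.not_mem_nil, or_false] at hs
    rcases hs with rfl | rfl
    · exact IsChart.up (s := obs2S) chart0
    · exact IsChart.dn (s := obs2S) chart0 (Or.inl rfl)

theorem gb_F3 : GB {univ} {FF.nz (inl 0), FF.nz (inl 1), FF.nz (inl 2)}
    ![pr [tF (inl 0), tF (inl 1), tF (inl 2)], pr [tF (inr 1), tF (inl 0), tF (inl 1), tF (inl 2)]]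
    ![6, 8] := by
  have h := obs2_gen (K := [{inl 0}ᶜ, {inl 1}ᶜ, {inl 2}ᶜ]) (r := [0, 1, 2]) (A := univ)
    ⟨by decide, List.forall_iff_forall_mem.1 (by decide), by decide, by decide,
      List.forall_iff_forall_mem.1 (by decide), by decide, trivial⟩
    (eq_univ_of_forall fun x => by
      by_cases hx : x ∈ BG
      · exact Or.inr hx.1
      · refine Or.inl ?_
        simpa [W_compl, or_assoc] using BG_compl hx).symm
  have e : (⋃ ρ ∈ ([{inl 0}ᶜ, {inl 1}ᶜ, {inl 2}ᶜ] : List (Finset (Fin 14 ⊕ Fin 2))), {FF.W ρ} :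
      Set (Set FF.X)) = {FF.nz (inl 0), FF.nz (inl 1), FF.nz (inl 2)} := by
    rw [cup_union_cons, cup_union_cons, cup_union_cons, W_compl, W_compl, W_compl]
    simp only [List.not_mem_nil, iUnion_of_empty, iUnion_empty, union_empty, singleton_union]
  rw [e] at h
  exact h

theorem gb_M2 : GB {MM} {MM ∩ FF.nz (inl 1), MM ∩ FF.nz (inl 2)}
    ![pr [tF (inl 1), tF (inl 2)], pr [tF (inr 1), tF (inl 1), tF (inl 2)]] ![4, 6] := by
  have h := obs2_gen (K := [ρ0.erase (inl 1), ρ0.erase (inl 2)]) (r := [1, 2]) (A := MM)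
    ⟨by decide, List.forall_iff_forall_mem.1 (by decide), by decide, by decide,
      List.forall_iff_forall_mem.1 (by decide), by decide, trivial⟩
    (union_eq_right.2 (by simp [obs2_W_erase])).symm
  have e : (⋃ ρ ∈ [ρ0.erase (inl 1), ρ0.erase (inl 2)], {FF.W ρ} : Set (Set FF.X)) =
      {MM ∩ FF.nz (inl 1), MM ∩ FF.nz (inl 2)} := by
    rw [cup_union_cons, cup_union_cons, obs2_W_erase, obs2_W_erase]
    simp only [List.not_mem_nil, iUnion_of_empty, iUnion_empty, union_empty, singleton_union]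
  rw [e] at h
  exact h

theorem triv_M1 : Triv (ZMod 2) {MM} {MM ∩ FF.nz (inl 1)} 3 := by
  have h := obs2_gen (K := [ρ0.erase (inl 1)]) (r := [1]) (A := MM)
    ⟨by decide, List.forall_iff_forall_mem.1 (by decide), by decide, by decide,
      List.forall_iff_forall_mem.1 (by decide), by decide, trivial⟩
    (union_eq_right.2 (by simp [obs2_W_erase])).symm
  have e : (⋃ ρ ∈ [ρ0.erase (inl 1)], {FF.W ρ} : Set (Set FF.X)) = {MM ∩ FF.nz (inl 1)} := by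
    rw [cup_union_cons, obs2_W_erase]
    simp only [List.not_mem_nil, iUnion_of_empty, iUnion_empty, union_empty]
  rw [e] at h
  exact h.triv (by decide)

lemma obs2_lin (m : Option (Fin 3) → ℤ) {c : Fin 14 ⊕ Fin 2 → ZMod 2}
    (hc : ∀ i ∈ ρ0, ((∑ k, m k * FF.v i k : ℤ) : ZMod 2) = c i) :
    Bo {MM} ∅ 2 (c (inl 0) • tF (inl 0) + (c (inl 1) • tF (inl 1) + (c (inl 2) • tF (inl 2) +
      (c (inr 0) • tF (inr 0) + c (inr 1) • tF (inr 1))))) := by
  refine ((sm_FF.lin (ZMod 2) m).mono Ref.univ Ref.empty).congr fun x hx => ?_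
  have e : ∑ i ∈ ρ0, c i • tF i = c (inl 0) • tF (inl 0) + (c (inl 1) • tF (inl 1) +
      (c (inl 2) • tF (inl 2) + (c (inr 0) • tF (inr 0) + c (inr 1) • tF (inr 1)))) := by
    rw [ρ0, Finset.sum_insert (by decide), Finset.sum_insert (by decide),
      Finset.sum_insert (by decide), Finset.sum_pair (by decide)]
  rw [← e, LinearMap.sum_apply, LinearMap.sum_apply,
    ← Finset.sum_subset (Finset.subset_univ ρ0) fun i _ hi => ?_]
  · exact Finset.sum_congr rfl fun i hi => by rw [hc i hi]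
  · rw [LinearMap.smul_apply,
      (sm_FF.cy (ZMod 2) i).2.mono (Ref.single (shell_W_sub hi)) x hx, LinearMap.zero_apply,
      smul_zero]

theorem lin_M1 : Bo {MM} ∅ 2 (tF (inl 1)) := by
  simpa using obs2_lin (fun k => k.elim 0 ![1, 0, 0]) (c := fun i => if i = inl 1 then 1 else 0)
    (by decide)

theorem lin_M2 : Bo {MM} ∅ 2 (tF (inl 2)) := by
  simpa using obs2_lin (fun k => k.elim 0 ![0, 1, 0]) (c := fun i => if i = inl 2 then 1 else 0)
    (by decide)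

theorem lin_M0 : Bo {MM} ∅ 2 (tF (inl 0) - tF (inr 1)) := by
  rw [sub_eq_add2]
  simpa using obs2_lin (fun k => k.elim 0 ![-1, -1, 1])
    (c := fun i => if i = inl 0 ∨ i = inr 1 then 1 else 0) (by decide)

lemma obs2_two (r : ZMod 2) : r = 0 ∨ r = 1 := by revert r; decide

lemma obs2_refM : Ref {MM ∩ FF.nz (inl 1), MM ∩ FF.nz (inl 2)}
    {MM ∩ (FF.nz (inl 1) ∪ FF.nz (inl 2))} :=
  Ref.sUnion (by rw [sUnion_pair, inter_union_distrib_left])

lemma obs2_refM' : Ref {MM ∩ FF.nz (inl 1), MM ∩ FF.nz (inl 2)} {MM} :=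
  obs2_refM.trans (Ref.single inter_subset_left)

lemma obs2_Y1 : Y1 ⊆ MM := inter_subset_left

lemma obs2_YY : Y1 ∩ BGᶜ ⊆ Y1 ∩ DDᶜ := inter_subset_inter_right _ (compl_subset_compl.2 DD_sub)

/-- A basis relative to the complement of the disc bundle. -/
lemma obs2_U : ∃ β β' : Fin 2 → Cc (ZMod 2) FF.X, GB {univ} {DDᶜ} β' ![6, 8] ∧
    Cy {univ} {FF.nz (inl 0) ∪ FF.nz (inl 1) ∪ FF.nz (inl 2)} 6 (β 0) ∧
    Bo {univ} {FF.nz (inl 0), FF.nz (inl 1), FF.nz (inl 2)} 6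
      (pr [tF (inl 0), tF (inl 1), tF (inl 2)] - β 0) ∧ Bo {univ} {BGᶜ} 6 (β 0 - β' 0) := by
  have hr : Ref {FF.nz (inl 0), FF.nz (inl 1), FF.nz (inl 2)}
      {FF.nz (inl 0) ∪ FF.nz (inl 1) ∪ FF.nz (inl 2)} :=
    Ref.sUnion (by rw [sUnion_insert, sUnion_pair, union_assoc])
  obtain ⟨β, h1, h2⟩ := gb_F3.to_S (triv_small
    (by rintro U rfl; exact ((isOpen_nz _).union (isOpen_nz _)).union (isOpen_nz _))
    (by rintro U (rfl | rfl | rfl) <;> exact isOpen_nz _) hr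
    (by rw [sUnion_singleton, sUnion_insert, sUnion_pair, union_assoc])) hr Ref.univ
  obtain ⟨β', h3, h4⟩ := ((gb_S (triv_PP _) (Ref.single BG_compl) Ref.univ h1.cy).2 h1).to_S
    (triv_DD _) (Ref.single (compl_subset_compl.2 DD_sub)) Ref.univ
  exact ⟨β, β', h3, h1.cy 0, h2 0, h4 0⟩

/-- A basis near the divisor of the first ray. -/
lemma obs2_Y : ∃ γ γ' : Fin 2 → Cc (ZMod 2) FF.X, GB {Y1} {Y1 ∩ DDᶜ} γ' ![4, 6] ∧
    Cy {MM} {MM ∩ (FF.nz (inl 1) ∪ FF.nz (inl 2))} 4 (γ 0) ∧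
    Bo {MM} {MM ∩ FF.nz (inl 1), MM ∩ FF.nz (inl 2)} 4 (pr [tF (inl 1), tF (inl 2)] - γ 0) ∧
    Bo {Y1} {Y1 ∩ BGᶜ} 4 (γ 0 - γ' 0) := by
  obtain ⟨γ, h1, h2⟩ := gb_M2.to_S (triv_small
    (by rintro U rfl; exact isOpen_MM.inter ((isOpen_nz _).union (isOpen_nz _)))
    (by rintro U (rfl | rfl) <;> exact isOpen_MM.inter (isOpen_nz _)) obs2_refM
    (by rw [sUnion_singleton, sUnion_pair, inter_union_distrib_left])) obs2_refM
    (Ref.single inter_subset_left)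
  have h3 := (gb_S (triv_ML _) (Ref.single Y1_BG) (Ref.single inter_subset_left) h1.cy).2 h1
  obtain ⟨γ', h4, h5⟩ := ((gb_T (triv_MY _) (Ref.single inter_subset_left) (Ref.single obs2_Y1)
    h3.cy).1 h3).to_S (triv_YD _) (Ref.single obs2_YY) (Ref.single inter_subset_left)
  exact ⟨γ, γ', h4, h1.cy 0, h2 0, h5 0⟩

lemma obs2_back {k : ℕ} {φ : Cc (ZMod 2) FF.X}
    (hφ : Cy {MM} {MM ∩ (FF.nz (inl 1) ∪ FF.nz (inl 2))} k φ) (hb : Bo {Y1} {Y1 ∩ BGᶜ} k φ) :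
    Bo {MM} {MM ∩ FF.nz (inl 1), MM ∩ FF.nz (inl 2)} k φ :=
  (ss_bo (triv_ML _) (Ref.single Y1_BG) (Ref.single inter_subset_left) hφ
    (ts_bo (triv_MY _) (Ref.single inter_subset_left) (Ref.single obs2_Y1)
      (hφ.mono Ref.refl (Ref.single Y1_BG)) hb)).mono Ref.refl obs2_refM

lemma obs2_top : ¬ Bo {MM} {MM ∩ FF.nz (inl 1), MM ∩ FF.nz (inl 2)} 6
    (cup 2 (tF (inr 1)) (pr [tF (inl 1), tF (inl 2)])) := fun h =>
  one_ne_zero (gb_M2.ind_one 1 (r := 1) (by rw [one_smul]; exact h))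

theorem triv_univ_DD {k : ℕ} (hk : k < 6) : Triv (ZMod 2) {univ} {DDᶜ} k := by
  obtain ⟨β, β', h, -⟩ := obs2_U
  refine h.triv fun j => ?_
  fin_cases j
  · exact hk.ne'
  · exact (hk.trans (by norm_num : 6 < 8)).ne'

theorem exists_omega : ∃ ω : Cc (ZMod 2) FF.X, Cy {univ} {DDᶜ} 6 ω ∧
    Bo {univ} ∅ 6 (ω - pr [tF (inl 0), tF (inl 1), tF (inl 2)]) ∧ ¬ Bo {Y1} {Y1 ∩ DDᶜ} 6 ω ∧
    ∀ φ, Cy {univ} {DDᶜ} 6 φ → Bo {univ} {DDᶜ} 6 φ ∨ Bo {univ} {DDᶜ} 6 (φ - ω) := by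
  obtain ⟨β, β', h, h1, h2, h3⟩ := obs2_U
  refine ⟨β' 0, h.cy 0, ((h2.mono Ref.refl Ref.empty).trans (h3.mono Ref.refl Ref.empty)).symm,
    fun hb => obs2_top ?_, fun φ hφ => ?_⟩
  · have h4 := obs2_back (h1.mono Ref.univ (Ref.single fun x hx => by
        rcases hx.2 with h | h
        exacts [Or.inl (Or.inr h), Or.inr h]))
      ((h3.mono Ref.univ (Ref.single inter_subset_right)).of_sub
        (hb.mono Ref.refl (Ref.single obs2_YY)))
    have h5 := (h2.mono (T' := {MM}) (S' := {MM ∩ FF.nz (inl 1), MM ∩ FF.nz (inl 2)}) Ref.univ (by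
      rintro U (rfl | rfl) -
      · exact ⟨_, Or.inr (Or.inl rfl), inter_subset_right⟩
      · exact ⟨_, Or.inr (Or.inr rfl), inter_subset_right⟩)).of_sub h4
    have h6 := lin_M0.mul_left (gb_M2.cy 0)
    rw [empty_union, cup_sub_left] at h6
    exact h6.symm.of_sub h5
  · obtain ⟨r, hr⟩ := h.span_one 0 (by decide) hφ
    rcases obs2_two r with rfl | rfl
    · rw [zero_smul, sub_zero] at hr
      exact Or.inl hr
    · rw [one_smul] at hr
      exact Or.inr hr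

theorem triv_Y3 : Triv (ZMod 2) {Y1} {Y1 ∩ DDᶜ} 3 := by
  obtain ⟨γ, γ', h, -⟩ := obs2_Y
  exact h.triv (by decide)

theorem line_Y6 {φ ψ : Cc (ZMod 2) FF.X} (hφ : Cy {Y1} {Y1 ∩ DDᶜ} 6 φ)
    (hψ : Cy {Y1} {Y1 ∩ DDᶜ} 6 ψ) (h : ¬ Bo {Y1} {Y1 ∩ DDᶜ} 6 φ)
    (h' : ¬ Bo {Y1} {Y1 ∩ DDᶜ} 6 ψ) : Bo {Y1} {Y1 ∩ DDᶜ} 6 (φ - ψ) := by
  obtain ⟨γ, γ', hg, -⟩ := obs2_Y
  have key : ∀ {χ : Cc (ZMod 2) FF.X}, Cy {Y1} {Y1 ∩ DDᶜ} 6 χ → ¬ Bo {Y1} {Y1 ∩ DDᶜ} 6 χ →
      Bo {Y1} {Y1 ∩ DDᶜ} 6 (χ - γ' 1) := fun hχ hn => by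
    obtain ⟨r, hr⟩ := hg.span_one 1 (by decide) hχ
    rcases obs2_two r with rfl | rfl
    · rw [zero_smul, sub_zero] at hr
      exact absurd hr hn
    · rw [one_smul] at hr
      exact hr
  exact (key hφ h).trans (key hψ h').symm

lemma obs2_sq {T S : Set (Set FF.X)} {φ φ' : Cc (ZMod 2) FF.X} (hS : Ref S T) (h : Cy T S 4 φ)
    (h' : Bo T S 4 (φ - φ')) (hb : Bo T S 6 (sq 2 4 φ' + cup 2 (tF (inr 1)) φ')) :
    Bo T S 6 (sq 2 4 φ + cup 2 (tF (inr 1)) φ) := by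
  have h1 := Bo.mul_right ((sm_FF.cy' (ZMod 2) (inr 1)).mono (T' := T) Ref.univ Ref.refl) h'
  rw [empty_union, cup_sub_right] at h1
  have h2 := (sq_congr (i := 2) (k := 6) hS h h').add h1
  rw [← add_sub_add_comm] at h2
  exact h2.of_sub hb

theorem sq_Y4 {η : Cc (ZMod 2) FF.X} (hη : Cy {Y1} {Y1 ∩ DDᶜ} 4 η)
    (h : Bo {Y1} {Y1 ∩ DDᶜ} 6 (sq 2 4 η + cup 2 (tF (inr 1)) η)) : Bo {Y1} {Y1 ∩ DDᶜ} 4 η := by
  obtain ⟨γ, γ', hg, h1, h2, h3⟩ := obs2_Y
  obtain ⟨r, hr⟩ := hg.span_one 0 (by decide) hη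
  rcases obs2_two r with rfl | rfl
  · rw [zero_smul, sub_zero] at hr
    exact hr
  rw [one_smul] at hr
  refine absurd ?_ obs2_top
  have h4 := obs2_sq (Ref.single inter_subset_left)
    (h1.mono (Ref.single obs2_Y1) (Ref.single Y1_BG))
    (h3.trans (Bo.mono hr Ref.refl (Ref.single obs2_YY)).symm)
    (h.mono Ref.refl (Ref.single obs2_YY))
  have h5 := ((sm_FF.cy' (ZMod 2) (inr 1)).mono (T' := {MM}) Ref.univ Ref.refl).mul h1
  rw [empty_union] at h5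
  have h6 := obs2_sq (φ := cup 2 (tF (inl 1)) (pr [tF (inl 2)])) obs2_refM' (gb_M2.cy 0) h2
    (obs2_back (h1.square.add h5) h4)
  have ha : Cy {MM} {MM ∩ FF.nz (inl 1)} 2 (tF (inl 1)) :=
    (sm_FF.cy (ZMod 2) (inl 1)).mono Ref.univ (Ref.single inter_subset_right)
  have hb : Cy {MM} {MM ∩ FF.nz (inl 2)} 2 (pr [tF (inl 2)]) := by
    have := ((sm_FF.cy (ZMod 2) (inl 2)).mono (T' := {MM}) (S' := {MM ∩ FF.nz (inl 2)}) Ref.univ
      (Ref.single inter_subset_right)).mul cy_e1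
    rwa [union_empty] at this
  have hb' : Bo {MM} ∅ 2 (pr [tF (inl 2)]) := by
    have := lin_M2.mul_left cy_e1
    rwa [union_empty] at this
  have h7 := sq2_mul ha hb triv_M1
  have h8 := (lin_M1.add hb').mul_left (gb_M2.cy 0)
  rw [empty_union] at h8
  have h9 := h6.sub (Bo.of_sub h7 h8)
  rw [add_sub_cancel_left] at h9
  exact h9

end Pool.Agent.Lib.MP_bf05b2_gt
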