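import Pool.Agent.Lib.MP_bf05b2_gt.H57Zero

/-! The explicit section and its restriction to the slice. -/

set_option linter.unusedSectionVars false

namespace Pool.Agent.Lib.MP_bf05b2_gt

open Set Finsupp Pool.Agent.Shared.Sing Pool.Agent.Shared.SingEZ Fan

/-- The normalising function. -/
noncomputable def NB : (Fin 14 → ℂ) → Fin 14 → ℝ := good_FB.exists_N.choose

lemma isN_NB : FB.IsN LB NB := good_FB.exists_N.choose_spec

/-- Normalised coordinates. -/
noncomputable def hat (z : Fin 14 → ℂ) (k : Fin 14) : ℂ := z k / NB z k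

/-- The section. -/
noncomputable def sig (z : Fin 14 → ℂ) : Fin 2 → ℂ :=
  chi (fun k => (NB z k : ℂ)) • ![Sa (hat z), Sb (hat z)]

/-- The slice. -/
noncomputable def psiB (q : PS) (k : Fin 14) : ℂ :=
  if k = 0 then Complex.exp (-((q.2 - (q.1 0).re - (q.1 0).im : ℝ) : ℂ))
  else if k = 1 then Complex.exp (-((q.1 0).re : ℂ) + ((q.1 1).re / (1 + ‖q.1 1‖) : ℝ) * Complex.I)
  else if k = 2 then Complex.exp (-((q.1 0).im : ℂ) + ((q.1 1).im / (1 + ‖q.1 1‖) : ℝ) * Complex.I)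
  else 1

variable {z g : Fin 14 → ℂ}

lemma sec_cont_pw (n : ℤ) : Continuous fun x : ℂ => pw x n := by
  unfold pw
  fun_prop

lemma sec_cont_mono (n : Fin 14 → ℤ) : Continuous (mono n) := by
  unfold mono
  exact continuous_finsetProd _ fun k _ => (sec_cont_pw (n k)).comp (continuous_apply k)

lemma sec_cont_wt (a : Fin 14 → ℤ) (k : Fin 14) : Continuous fun w => wt a w k := by
  unfold wt
  fun_prop

lemma sec_cont_Sa : Continuous Sa := by
  unfold Sa
  refine (sec_cont_mono _).sub (Continuous.mul ?_ ?_)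
  · exact Complex.continuous_ofReal.comp (continuous_finsetSum _ fun k _ => sec_cont_wt _ k)
  · exact continuous_finsetSum _ fun k _ =>
      (Complex.continuous_ofReal.comp (sec_cont_wt _ k)).mul (sec_cont_mono _)

lemma sec_cont_Sb : Continuous Sb := by
  unfold Sb
  refine (sec_cont_mono _).sub (Continuous.mul ?_ ?_)
  · exact Complex.continuous_ofReal.comp (continuous_finsetSum _ fun k _ => sec_cont_wt _ k)
  · exact continuous_finsetSum _ fun k _ =>
      (Complex.continuous_ofReal.comp (sec_cont_wt _ k)).mul (sec_cont_mono _)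

lemma sec_pw_mul {a : ℂ} (ha : ‖a‖ = 1) (x : ℂ) (n : ℤ) : pw (a * x) n = a ^ n * pw x n := by
  have h0 : a ≠ 0 := fun h => by simp [h] at ha
  have h1 : (starRingEnd ℂ) a = a⁻¹ := (Complex.inv_eq_conj ha).symm
  have h2 : a ^ n = a ^ n.toNat * a⁻¹ ^ (-n).toNat := by
    rw [inv_pow, ← zpow_natCast, ← zpow_natCast, ← zpow_neg, ← zpow_add₀ h0]
    congr 1
    omega
  rw [pw, pw, map_mul, mul_pow, mul_pow, h1, h2]
  ring

lemma sec_mono_mul {a : Fin 14 → ℂ} (ha : ∀ k, ‖a k‖ = 1) (n : Fin 14 → ℤ) (w : Fin 14 → ℂ) :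
    mono n (a * w) = (∏ k, a k ^ n k) * mono n w := by
  rw [mono, mono, ← Finset.prod_mul_distrib]
  exact Finset.prod_congr rfl fun k _ => sec_pw_mul (ha k) _ _

lemma sec_wt_mul {a : Fin 14 → ℂ} (ha : ∀ k, ‖a k‖ = 1) (n : Fin 14 → ℤ) (w : Fin 14 → ℂ)
    (k : Fin 14) : wt n (a * w) k = wt n w k := by
  rw [wt, wt, Pi.mul_apply, norm_mul, ha k, one_mul]

lemma sec_Sa_mul {a : Fin 14 → ℂ} (ha : ∀ k, ‖a k‖ = 1) {c : ℂ} (h1 : ∏ k, a k ^ aB k = c)
    (h2 : ∀ j, ∏ k, a k ^ n1 j k = c) (w : Fin 14 → ℂ) : Sa (a * w) = c * Sa w := by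
  simp only [Sa, sec_mono_mul ha, sec_wt_mul ha, h1, h2, mul_sub, Finset.mul_sum]
  congr 1
  exact Finset.sum_congr rfl fun j _ => by ring

lemma sec_Sb_mul {a : Fin 14 → ℂ} (ha : ∀ k, ‖a k‖ = 1) {c : ℂ} (h1 : ∏ k, a k ^ bB k = c)
    (h2 : ∀ j, ∏ k, a k ^ n2 j k = c) (w : Fin 14 → ℂ) : Sb (a * w) = c * Sb w := by
  simp only [Sb, sec_mono_mul ha, sec_wt_mul ha, h1, h2, mul_sub, Finset.mul_sum]
  congr 1
  exact Finset.sum_congr rfl fun j _ => by ring

lemma sec_prod_lin (hg : g ∈ FB.G) (n : Fin 14 → ℤ) (x y : ℤ) :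
    ∏ k, g k ^ (n k + (x * vB k 0 + y * vB k 1)) = ∏ k, g k ^ n k := by
  have h0 : ∏ k, g k ^ vB k 0 = 1 := hg.2 0
  have h1 : ∏ k, g k ^ vB k 1 = 1 := hg.2 1
  simp only [zpow_add₀ (hg.1 _), mul_comm x, mul_comm y, zpow_mul, Finset.prod_mul_distrib,
    Finset.prod_zpow, h0, h1, one_zpow, mul_one]

lemma sec_prod_n1 (hg : g ∈ FB.G) (j : Fin 14) : ∏ k, g k ^ n1 j k = chi g := by
  rw [chi, ← sec_prod_lin hg aB (-vB j 1) (vB j 0)]
  refine Finset.prod_congr rfl fun k _ => ?_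
  congr 1
  simp only [n1, dt]
  ring

lemma sec_prod_n2 (hg : g ∈ FB.G) (j : Fin 14) : ∏ k, g k ^ n2 j k = chi g := by
  rw [← chi_eq_b hg, ← sec_prod_lin hg bB (vB j 1) (-vB j 0)]
  refine Finset.prod_congr rfl fun k _ => ?_
  congr 1
  simp only [n2, dt]
  ring

lemma sec_NB_ne (hz : z ∈ FB.U) (k : Fin 14) : (NB z k : ℂ) ≠ 0 :=
  Complex.ofReal_ne_zero.2 (isN_NB.pos z hz k).ne'

lemma sec_cont_NB (k : Fin 14) : ContinuousOn (fun z => (NB z k : ℂ)) FB.U :=
  Complex.continuous_ofReal.comp_continuousOn (continuousOn_pi.1 isN_NB.cont k)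

lemma sec_cont_chi : ContinuousOn (fun z => chi fun k => (NB z k : ℂ)) FB.U := by
  unfold chi
  exact continuousOn_finsetProd _ fun k _ =>
    (sec_cont_NB k).zpow₀ _ fun z hz => Or.inl (sec_NB_ne hz k)

lemma sec_cont_hat : ContinuousOn hat FB.U :=
  continuousOn_pi.2 fun k =>
    (continuous_apply k).continuousOn.div (sec_cont_NB k) fun _ hz => sec_NB_ne hz k

lemma sec_norm_hat (hz : z ∈ FB.U) (k : Fin 14) : ‖hat z k‖ = ‖z k‖ / NB z k := by
  rw [hat, norm_div, Complex.norm_real, Real.norm_of_nonneg (isN_NB.pos z hz k).le]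

lemma sec_mul_hat (hz : z ∈ FB.U) : (fun k => (NB z k : ℂ)) * hat z = z := by
  funext k
  simp only [Pi.mul_apply, hat]
  rw [mul_div_cancel₀ _ (sec_NB_ne hz k)]

theorem continuousOn_sig : ContinuousOn sig FB.U := by
  refine sec_cont_chi.smul (continuousOn_pi.2 fun k => ?_)
  fin_cases k
  · exact sec_cont_Sa.comp_continuousOn sec_cont_hat
  · exact sec_cont_Sb.comp_continuousOn sec_cont_hat

theorem sig_mul (hg : g ∈ FB.G) (hz : z ∈ FB.U) : sig (g * z) = chi g • sig z := by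
  have hn : ∀ k, ((‖g k‖ : ℝ) : ℂ) ≠ 0 := (norm_mem_G hg).1
  set a : Fin 14 → ℂ := g * (fun k => ((‖g k‖ : ℝ) : ℂ))⁻¹ with ha
  have haG : a ∈ FB.G := mul_mem_G hg (inv_mem_G (norm_mem_G hg))
  have ha1 : ∀ k, ‖a k‖ = 1 := fun k => by
    simp only [ha, Pi.mul_apply, Pi.inv_apply, norm_mul, norm_inv, Complex.norm_real, norm_norm]
    exact mul_inv_cancel₀ (norm_ne_zero_iff.2 (hg.1 k))
  have h1 : hat (g * z) = a * hat z := by
    funext k
    simp only [hat, ha, Pi.mul_apply, Pi.inv_apply, isN_NB.mul z hz g hg, Complex.ofReal_mul]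
    field_simp
  have h2 : (fun k => (NB (g * z) k : ℂ)) =
      (fun k => ((‖g k‖ : ℝ) : ℂ)) * fun k => (NB z k : ℂ) := by
    funext k
    simp only [Pi.mul_apply, isN_NB.mul z hz g hg, Complex.ofReal_mul]
  have h3 : chi g = chi (fun k => ((‖g k‖ : ℝ) : ℂ)) * chi a := by
    rw [← chi_mul]
    congr 1
    funext k
    simp only [ha, Pi.mul_apply, Pi.inv_apply]
    rw [mul_left_comm, mul_inv_cancel₀ (hn k), mul_one]
  rw [sig, sig, h1, h2, chi_mul, sec_Sa_mul ha1 rfl (sec_prod_n1 haG),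
    sec_Sb_mul ha1 (chi_eq_b haG) (sec_prod_n2 haG), h3]
  funext k
  fin_cases k
  · simp only [Pi.smul_apply, smul_eq_mul, Fin.zero_eta, Matrix.cons_val_zero, chi]
    ring
  · simp only [Pi.smul_apply, smul_eq_mul, Fin.mk_one, Matrix.cons_val_one, Matrix.cons_val_zero]
    ring

theorem sig_rot (hz : z ∈ FB.U) {c : ℂ} (hc : ‖c‖ = 1) :
    sig (Function.update z 0 (c * z 0)) = ![c * sig z 0, sig z 1] := by
  set a : Fin 14 → ℂ := Function.update 1 0 c with ha
  have ha1 : ∀ k, ‖a k‖ = 1 := fun k => by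
    by_cases hk : k = 0
    · rw [hk, ha, Function.update_self, hc]
    · rw [ha, Function.update_of_ne hk, Pi.one_apply, norm_one]
  have h0 : Function.update z 0 (c * z 0) = a * z := by
    funext k
    by_cases hk : k = 0
    · rw [hk, ha, Pi.mul_apply, Function.update_self, Function.update_self]
    · rw [ha, Pi.mul_apply, Function.update_of_ne hk, Function.update_of_ne hk, Pi.one_apply,
        one_mul]
  have h1 : NB (a * z) = NB z :=
    isN_NB.abs z hz _ fun k => by rw [Pi.mul_apply, norm_mul, ha1 k, one_mul]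
  have h2 : hat (a * z) = a * hat z := by
    funext k
    simp only [hat, h1, Pi.mul_apply, mul_div_assoc]
  have h3 : ∀ n : Fin 14 → ℤ, ∏ k, a k ^ n k = c ^ n 0 := fun n => by
    rw [Finset.prod_eq_single 0]
    · rw [ha, Function.update_self]
    · intro k _ hk
      rw [ha, Function.update_of_ne hk, Pi.one_apply, one_zpow]
    · intro h
      exact absurd (Finset.mem_univ _) h
  have h4 : ∀ j, n1 j 0 = 1 := by decide
  have h5 : ∀ j, n2 j 0 = 0 := by decide
  rw [h0, sig, h1, h2,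
    sec_Sa_mul ha1 (c := c) ((h3 _).trans (zpow_one c)) fun j => by rw [h3, h4, zpow_one],
    sec_Sb_mul ha1 (c := 1) ((h3 _).trans (zpow_zero c)) fun j => by rw [h3, h5, zpow_zero]]
  funext k
  fin_cases k
  · simp only [sig, Pi.smul_apply, smul_eq_mul, Fin.zero_eta, Matrix.cons_val_zero]
    ring
  · simp only [sig, Pi.smul_apply, smul_eq_mul, Fin.mk_one, Matrix.cons_val_one,
      Matrix.cons_val_zero, one_mul]

theorem sig_zero (hz : z ∈ FB.U) (h : sig z = 0) : (∀ k, z k ≠ 0) ∧ coB z ∈ Bx := by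
  have h1 := (smul_eq_zero.1 h).resolve_left (chi_ne (sec_NB_ne hz))
  have ha : Sa (hat z) = 0 := congrFun h1 0
  have hb : Sb (hat z) = 0 := congrFun h1 1
  obtain ⟨s, hs, he⟩ := isN_NB.eq z hz
  obtain ⟨h2, h3⟩ := zero_box (w := hat z)
    (fun k => by
      rw [sec_norm_hat hz]
      exact (div_le_one (isN_NB.pos z hz k)).2 (isN_NB.le z hz k))
    ⟨s, hs, fun k hk => by rw [sec_norm_hat hz, he k hk, div_self (isN_NB.pos z hz k).ne']⟩ ha hb
  refine ⟨fun k hk => h2 k (by rw [hat, hk, zero_div]), ?_⟩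
  rw [← sec_mul_hat hz]
  simpa only [coB, mon_mul _ (isN_NB.mem z hz)] using h3

lemma continuous_psiB : Continuous psiB := by
  refine continuous_pi fun k => ?_
  have h : ∀ q : PS, 1 + ‖q.1 1‖ ≠ 0 := fun q => by positivity
  unfold psiB
  split_ifs
  · fun_prop
  · fun_prop (disch := exact h _)
  · fun_prop (disch := exact h _)
  · exact continuous_const

lemma psiB_ne (q : PS) (k : Fin 14) : psiB q k ≠ 0 := by
  unfold psiB
  split_ifs
  exacts [Complex.exp_ne_zero _, Complex.exp_ne_zero _, Complex.exp_ne_zero _, one_ne_zero]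

lemma psiB_mem (q : PS) : psiB q ∈ FB.U := ⟨∅, FB.zero_mem, fun k _ => psiB_ne q k⟩

lemma sec_mon_psiB (q : PS) (k : Fin 3) : FB.mon (M0 k) (psiB q) = psiB q (![0, 1, 2] k) := by
  rw [chart0.mon_split, Finset.prod_eq_one, mul_one]
  intro i hi
  have h : ∀ i ∈ (Finset.univ.image ![(0 : Fin 14), 1, 2])ᶜ, i ≠ 0 ∧ i ≠ 1 ∧ i ≠ 2 := by decide
  obtain ⟨h0, h1, h2⟩ := h i hi
  rw [psiB, if_neg h0, if_neg h1, if_neg h2, one_zpow]

lemma sec_Jc {a t r : ℝ} (hr : |t| ≤ r)
    (h : Complex.exp (-(a : ℂ) + (t / (1 + r) : ℝ) * Complex.I) ∈ Jc) : t = 0 ∧ |a| ≤ 20 := by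
  obtain ⟨h1, h2, h3⟩ := h
  have hr0 : 0 < 1 + r := by linarith [abs_nonneg t]
  have ht : |t / (1 + r)| < Real.pi := by
    rw [abs_div, abs_of_pos hr0, div_lt_iff₀ hr0]
    nlinarith [Real.pi_gt_three, abs_nonneg t]
  rw [Complex.exp_im] at h1
  simp only [Complex.add_im, Complex.neg_im, Complex.ofReal_im, neg_zero, Complex.mul_im,
    Complex.ofReal_re, Complex.I_im, mul_one, Complex.I_re, mul_zero, add_zero, zero_add] at h1
  have h4 := (Real.sin_eq_zero_iff_of_lt_of_lt (abs_lt.1 ht).1 (abs_lt.1 ht).2).1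
    ((mul_eq_zero.1 h1).resolve_left (Real.exp_pos _).ne')
  have h5 : t = 0 := (div_eq_zero_iff.1 h4).resolve_right hr0.ne'
  rw [h4, Complex.ofReal_zero, zero_mul, add_zero, ← Complex.ofReal_neg, Complex.exp_ofReal_re,
    Real.exp_le_exp] at h2 h3
  exact ⟨h5, abs_le.2 ⟨by linarith, by linarith⟩⟩

theorem psiB_P0 {q : PS} (hq : q ∈ P0) : coB (psiB q) ∉ Bx := by
  rintro ⟨h1, h2, h3, h4⟩
  have e0 : FB.mon ![-1, -1, 1] (psiB q) = psiB q 0 := sec_mon_psiB q 0
  have e1 : FB.mon ![1, 0, 0] (psiB q) = psiB q 1 := sec_mon_psiB q 1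
  have e2 : FB.mon ![0, 1, 0] (psiB q) = psiB q 2 := sec_mon_psiB q 2
  simp only [coB, e0, e1, e2] at h1 h2 h3 h4
  obtain ⟨a1, a2⟩ := sec_Jc (Complex.abs_re_le_norm (q.1 1)) h1
  obtain ⟨b1, b2⟩ := sec_Jc (Complex.abs_im_le_norm (q.1 1)) h2
  have e3 : ‖psiB q 0‖ = Real.exp (-(q.2 - (q.1 0).re - (q.1 0).im)) := by
    rw [psiB, if_pos rfl, ← Complex.ofReal_neg, Complex.norm_exp_ofReal]
  rw [e3, Real.exp_le_exp] at h3 h4
  have a3 := abs_le.1 a2
  have b3 := abs_le.1 b2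
  rcases hq with h | h | h | h
  · exact h (Complex.ext a1 b1)
  · linarith
  · linarith
  · have : |q.2| ≤ 100 := abs_le.2 ⟨by linarith, by linarith⟩
    linarith

/-- The shrinking factor. -/
noncomputable def secK (q : PS) : ℝ := (1 + ‖q.1 1‖)⁻¹

/-- The arguments on the slice. -/
noncomputable def secT (q : PS) : ℂ := secK q * q.1 1

/-- The exponents on the slice. -/
noncomputable def secX (q : PS) (k : Fin 14) : ℝ :=
  if k = 0 then q.2 - (q.1 0).re - (q.1 0).im else if k = 1 then (q.1 0).re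
  else if k = 2 then (q.1 0).im else 0

/-- The normalised exponents on the slice. -/
noncomputable def secC (q : PS) (k : Fin 14) : ℝ := secX q k + Real.log (NB (psiB q) k)

lemma secK_pos (q : PS) : 0 < secK q := by
  unfold secK
  positivity

lemma secT_norm (q : PS) : ‖secT q‖ ≤ 1 := by
  have h : 0 < 1 + ‖q.1 1‖ := by positivity
  rw [secT, norm_mul, Complex.norm_real, Real.norm_of_nonneg (secK_pos q).le, secK,
    inv_mul_le_iff₀ h]
  linarith

lemma cont_secT : Continuous secT := by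
  have h : ∀ q : PS, 1 + ‖q.1 1‖ ≠ 0 := fun q => by positivity
  unfold secT secK
  fun_prop (disch := exact h _)

lemma psiB_ex (q : PS) : psiB q = ex (secX q) (secT q) := by
  funext k
  unfold psiB ex secX
  have h1 : (secT q).re = (q.1 1).re / (1 + ‖q.1 1‖) := by
    rw [secT, Complex.re_ofReal_mul, secK, inv_mul_eq_div]
  have h2 : (secT q).im = (q.1 1).im / (1 + ‖q.1 1‖) := by
    rw [secT, Complex.im_ofReal_mul, secK, inv_mul_eq_div]
  by_cases h0 : k = 0
  · subst h0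
    simp
  · by_cases h1' : k = 1
    · subst h1'
      simp only [if_neg h0, if_true, h1]
    · by_cases h2' : k = 2
      · subst h2'
        simp only [if_neg h0, if_neg h1', if_true, h2]
      · simp [h0, h1', h2']

lemma sec_norm_ex (c : Fin 14 → ℝ) (θ : ℂ) (k : Fin 14) : ‖ex c θ k‖ = Real.exp (-c k) := by
  rw [ex, Complex.norm_exp]
  congr 1
  split_ifs <;> simp

lemma hat_psiB (q : PS) : hat (psiB q) = ex (secC q) (secT q) := by
  funext k
  have h := isN_NB.pos _ (psiB_mem q) k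
  rw [hat, div_eq_iff (sec_NB_ne (psiB_mem q) k), ex, secC]
  conv_lhs => rw [psiB_ex, ex]
  have h1 : (NB (psiB q) k : ℂ) = Complex.exp (Real.log (NB (psiB q) k) : ℝ) := by
    rw [← Complex.ofReal_exp, Real.exp_log h]
  conv_rhs => rw [h1, ← Complex.exp_add]
  congr 1
  push_cast
  ring

lemma secC_Cn (q : PS) : Cn (secC q) := by
  have hz := psiB_mem q
  have h1 : ∀ k, Real.exp (-secC q k) = ‖psiB q k‖ / NB (psiB q) k := fun k => by
    rw [← sec_norm_hat hz, hat_psiB, sec_norm_ex]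
  obtain ⟨s, hs, he⟩ := isN_NB.eq _ hz
  refine ⟨fun k => ?_, s, hs, fun k hk => ?_⟩
  · have h2 := (div_le_one (isN_NB.pos _ hz k)).2 (isN_NB.le _ hz k)
    rw [← h1, Real.exp_le_one_iff] at h2
    linarith
  · have h2 := h1 k
    rw [he k hk, div_self (isN_NB.pos _ hz k).ne', Real.exp_eq_one_iff] at h2
    linarith

lemma cont_secC : Continuous secC := by
  refine continuous_pi fun k => Continuous.add ?_ (Continuous.log ?_ fun q => ?_)
  · unfold secX
    split_ifs <;> fun_prop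
  · exact (continuousOn_pi.1 isN_NB.cont k).comp_continuous continuous_psiB psiB_mem
  · exact (isN_NB.pos _ (psiB_mem q) k).ne'

lemma sum_secC (q : PS) (j : Fin 3) :
    ∑ k, (vB k j : ℝ) * secC q k = ![(q.1 0).re, (q.1 0).im, q.2] j := by
  have h1 := sum_log_G (isN_NB.pos _ (psiB_mem q)) (isN_NB.mem _ (psiB_mem q)) (Pi.single j 1)
  have h2 : ∀ i, ∑ k, (Pi.single j 1 : Fin 3 → ℤ) k * FB.v i k = vB i j := fun i => by
    rw [Finset.sum_eq_single j]
    · rw [Pi.single_eq_same, one_mul]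
      rfl
    · intro k _ hk
      rw [Pi.single_eq_of_ne hk, zero_mul]
    · intro h
      exact absurd (Finset.mem_univ _) h
  simp only [h2] at h1
  simp only [secC, mul_add, Finset.sum_add_distrib, h1, add_zero]
  fin_cases j <;> simp [Fin.sum_univ_succ, secX, vB]

lemma sec_ab (k : Fin 14) : aB k + bB k = 1 := by
  revert k
  decide

lemma sec_ab' (k : Fin 14) : aB k - bB k = vB k 2 := by
  revert k
  decide

lemma hz_secC (q : PS) : hz aB (secC q) + hz bB (secC q) = q.1 0 := by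
  have h0 : ∑ k, (vB k 0 : ℝ) * secC q k = (q.1 0).re := sum_secC q 0
  have h1 : ∑ k, (vB k 1 : ℝ) * secC q k = (q.1 0).im := sum_secC q 1
  rw [← Complex.re_add_im (q.1 0), ← h0, ← h1, hz, hz, ← Finset.sum_add_distrib]
  push_cast
  rw [Finset.sum_mul, ← Finset.sum_add_distrib]
  refine Finset.sum_congr rfl fun k _ => ?_
  have h : (aB k : ℂ) + bB k = 1 := by exact_mod_cast sec_ab k
  linear_combination ((secC q k : ℂ) * ((vB k 0 : ℂ) + (vB k 1 : ℂ) * Complex.I)) * h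

lemma ht_secC (q : PS) : ht aB (secC q) - ht bB (secC q) = q.2 := by
  have h2 : ∑ k, (vB k 2 : ℝ) * secC q k = q.2 := sum_secC q 2
  rw [← h2, ht, ht, ← Finset.sum_sub_distrib]
  refine Finset.sum_congr rfl fun k _ => ?_
  have h : (aB k : ℝ) - bB k = vB k 2 := by exact_mod_cast sec_ab' k
  rw [← h, sub_mul]

lemma abs_secC (q : PS) (j : Fin 3) :
    |![(q.1 0).re, (q.1 0).im, q.2] j| ≤ ht aB (secC q) + ht bB (secC q) := by
  rw [← sum_secC, ht, ht, ← Finset.sum_add_distrib]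
  refine (Finset.abs_sum_le_sum_abs _ _).trans (Finset.sum_le_sum fun k _ => ?_)
  have h : (aB k : ℝ) + bB k = 1 := by exact_mod_cast sec_ab k
  have h1 : ∀ k j, |vB k j| ≤ 1 := by decide
  have h2 : |(vB k j : ℝ)| ≤ 1 := by exact_mod_cast h1 k j
  rw [← add_mul, h, abs_mul, abs_of_nonneg ((secC_Cn q).1 k)]
  exact mul_le_mul_of_nonneg_right h2 ((secC_Cn q).1 k)

lemma sec_ne12 {q : PS} (hq : q ∈ P0) {s : ℝ} (hs : s ∈ Icc (0 : ℝ) 1) :
    (1 - s) • G1 (secC q) (secT q) + s • G2 (secC q) (secT q) ≠ 0 := by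
  intro h
  have h1 := ineq_im (secC_Cn q) (secT_norm q) hs h
  rw [h1] at h
  obtain ⟨h2, h3⟩ := ineq_re (secC_Cn q) hs h
  have a0 : |(q.1 0).re| ≤ _ := abs_secC q 0
  have a1 : |(q.1 0).im| ≤ _ := abs_secC q 1
  have a2 : |q.2| ≤ _ := abs_secC q 2
  rcases hq with h | h | h | h
  · exact h ((mul_eq_zero.1 h1).resolve_left (Complex.ofReal_ne_zero.2 (secK_pos q).ne'))
  · linarith
  · linarith
  · linarith

lemma sec_ne23 {q : PS} (hq : q ∈ P0) {s : ℝ} (hs : s ∈ Icc (0 : ℝ) 1) :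
    (1 - s) • G2 (secC q) (secT q) + s • Lm (g0 q) ≠ 0 := by
  intro h
  have e : (![q.1 0, q.1 1], q.2) = q := by
    refine Prod.ext (funext fun k => ?_) rfl
    fin_cases k <;> rfl
  have h1 := ineq_lin (θ := q.1 1) (secC_Cn q) (secK_pos q) hs
    (by rw [hz_secC, ht_secC, e]; exact h)
  rw [hz_secC, ht_secC] at h1
  obtain ⟨h1, h2, h3⟩ := h1
  have a0 := Complex.abs_re_le_norm (q.1 0)
  have a1 := Complex.abs_im_le_norm (q.1 0)
  rcases hq with h | h | h | h
  · exact h h1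
  · linarith
  · linarith
  · rw [h3, abs_zero] at h
    linarith

lemma sec_cont_ex {c : PS → Fin 14 → ℝ} {T : PS → ℂ} (h1 : Continuous c) (h2 : Continuous T) :
    Continuous fun q => ex (c q) (T q) := by
  refine continuous_pi fun k => ?_
  unfold ex
  split_ifs <;> fun_prop

lemma sec_cont_G1 {c : PS → Fin 14 → ℝ} {T : PS → ℂ} (h1 : Continuous c) (h2 : Continuous T) :
    Continuous fun q => G1 (c q) (T q) := by
  refine continuous_pi fun k => ?_
  fin_cases k
  · refine Continuous.mul (f := fun q => Complex.exp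
      (-(((T q).re + (T q).im : ℝ) : ℂ) * Complex.I)) ?_ (sec_cont_Sa.comp (sec_cont_ex h1 h2))
    fun_prop
  · exact sec_cont_Sb.comp (sec_cont_ex h1 h2)

lemma sec_cont_G2 {c : PS → Fin 14 → ℝ} {T : PS → ℂ} (h1 : Continuous c) (h2 : Continuous T) :
    Continuous fun q => G2 (c q) (T q) := by
  unfold G2 det2 hz ht
  fun_prop

lemma sec_cont_Lm : Continuous Lm := by
  unfold Lm
  fun_prop

lemma sec_chi_real (n : Fin 14 → ℝ) : chi (fun k => (n k : ℂ)) = ((∏ k, n k ^ aB k : ℝ) : ℂ) := by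
  rw [chi]
  push_cast
  rfl

/-- The first homotopy. -/
noncomputable def secH (p : PS × ℝ) : Fin 2 → ℂ :=
  (((1 - p.2 : ℝ) : ℂ) * chi (fun k => (NB (psiB p.1) k : ℂ)) + p.2) •
    ![Complex.exp (((1 - p.2) * ((secT p.1).re + (secT p.1).im) : ℝ) * Complex.I) *
      G1 (secC p.1) (secT p.1) 0, G1 (secC p.1) (secT p.1) 1]

lemma cont_secH_aux {x T : PS → ℂ} {G : PS → Fin 2 → ℂ} (h1 : Continuous x) (h2 : Continuous T)
    (h3 : Continuous G) : Continuous fun p : PS × ℝ => (((1 - p.2 : ℝ) : ℂ) * x p.1 + p.2) •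
      ![Complex.exp (((1 - p.2) * ((T p.1).re + (T p.1).im) : ℝ) * Complex.I) * G p.1 0,
        G p.1 1] := by
  fun_prop

lemma cont_secH : Continuous secH :=
  cont_secH_aux (sec_cont_chi.comp_continuous continuous_psiB psiB_mem) cont_secT
    (sec_cont_G1 cont_secC cont_secT)

lemma secH_zero (q : PS) : secH (q, 0) = sig (psiB q) := by
  rw [secH, sig, hat_psiB]
  simp only [sub_zero, Complex.ofReal_one, one_mul, Complex.ofReal_zero, add_zero, G1,
    Matrix.cons_val_zero, Matrix.cons_val_one]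
  rw [← mul_assoc, ← Complex.exp_add, neg_mul, add_neg_cancel, Complex.exp_zero, one_mul]

lemma secH_one (q : PS) : secH (q, 1) = G1 (secC q) (secT q) := by
  rw [secH]
  simp only [sub_self, Complex.ofReal_zero, zero_mul, Complex.ofReal_one, zero_add, one_smul,
    Complex.exp_zero, one_mul]
  funext k
  fin_cases k <;> rfl

lemma secH_ne {q : PS} (hq : q ∈ P0) {s : ℝ} (hs : s ∈ Icc (0 : ℝ) 1) : secH (q, s) ≠ 0 := by
  intro h
  have h1 : 0 < ∏ k, NB (psiB q) k ^ aB k :=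
    Finset.prod_pos fun k _ => zpow_pos (isN_NB.pos _ (psiB_mem q) k) _
  have h2 : 0 < (1 - s) * ∏ k, NB (psiB q) k ^ aB k + s := by
    rcases hs.2.eq_or_lt with h | h
    · rw [h, sub_self, zero_mul, zero_add]
      exact one_pos
    · exact add_pos_of_pos_of_nonneg (mul_pos (sub_pos.2 h) h1) hs.1
  have h3 := (smul_eq_zero.1 h).resolve_left (by
    rw [sec_chi_real]
    exact_mod_cast h2.ne')
  have h4 : G1 (secC q) (secT q) 0 = 0 :=
    (mul_eq_zero.1 (congrFun h3 0)).resolve_left (Complex.exp_ne_zero _)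
  have h5 : G1 (secC q) (secT q) 1 = 0 := congrFun h3 1
  refine sec_ne12 hq (left_mem_Icc.2 zero_le_one) ?_
  rw [sub_zero, one_smul, zero_smul, add_zero]
  funext k
  fin_cases k
  exacts [h4, h5]

lemma sec_qq_line {u β : Cc (ZMod 2) (Fin 2 → ℂ)} (hu : Adm u β) {f f' : PS → Fin 2 → ℂ}
    (hf : Continuous f) (hf' : Continuous f')
    (hn : ∀ q ∈ P0, ∀ s ∈ Icc (0 : ℝ) 1, (1 - s) • f q + s • f' q ≠ 0) (h : QQ u β f P0) :
    QQ u β f' P0 := by
  have h1 := QQ.htp hu triv_P0 (H := fun p : PS × ℝ => (1 - p.2) • f p.1 + p.2 • f' p.1)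
    (Continuous.continuousOn (by fun_prop)) (fun p hp => hn p.1 hp.1 p.2 hp.2)
    (h.congr fun q _ => by simp)
  exact h1.congr fun q _ => by simp

/-- On the boundary of the slice the section is the suspended Hopf map. -/
theorem not_qq_sig {u β : Cc (ZMod 2) (Fin 2 → ℂ)} (hu : Adm u β) : ¬ QQ u β (sig ∘ psiB) P0 := by
  intro h
  have h1 : QQ u β (fun q => G1 (secC q) (secT q)) P0 :=
    (QQ.htp hu triv_P0 cont_secH.continuousOn (fun p hp => secH_ne hp.1 hp.2)
      (h.congr fun q _ => (secH_zero q).symm)).congr fun q _ => secH_one q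
  have h2 := sec_qq_line hu (sec_cont_G1 cont_secC cont_secT) (sec_cont_G2 cont_secC cont_secT)
    (fun q hq s hs => sec_ne12 hq hs) h1
  exact hopf' hu (sec_qq_line hu (sec_cont_G2 cont_secC cont_secT)
    (sec_cont_Lm.comp continuous_g0) (fun q hq s hs => sec_ne23 hq hs) h2)

end Pool.Agent.Lib.MP_bf05b2_gt
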