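import Pool.Agent.Lib.MP_bf05b2_gt.H57Lift
import Pool.Agent.Lib.MP_bf05b2_gt.H57Loc

/-! The cohomology of a shellable toric pair. -/

set_option linter.unusedSectionVars false

namespace Pool.Agent.Lib.MP_bf05b2_gt

open Set Finsupp Pool.Agent.Shared.Sing Pool.Agent.Shared.SingEZ

namespace Fan

variable {ι κ : Type} [Fintype ι] [DecidableEq ι] [Fintype κ] [DecidableEq κ] (F : Fan ι κ)

/-- A step of a shelling: a chart and its restriction set. -/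
structure Step (ι κ : Type) where
  e : κ → ι
  M : κ → κ → ℤ
  r : List κ

/-- The cone of a step. -/
def Step.cone (s : Step ι κ) : Finset ι := Finset.univ.image s.e

/-- The combinatorial shelling condition, relative to the list `K` of earlier index sets. -/
def Shell : List (Finset ι) → List (Step ι κ) → Prop
  | _, [] => True
  | K, s :: L => s.r.Nodup ∧ (∀ ρ ∈ K, ∃ k ∈ s.r, s.e k ∉ ρ) ∧
      (∀ k ∈ s.r, ∃ ρ ∈ K, s.cone.erase (s.e k) ⊆ ρ) ∧ Shell (s.cone :: K) L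

instance decShell : ∀ (K : List (Finset ι)) (L : List (Step ι κ)), Decidable (Shell K L)
  | _, [] => isTrue trivial
  | K, s :: L =>
    haveI := decShell (s.cone :: K) L
    inferInstanceAs (Decidable (_ ∧ _))

/-- The basis element of a step. -/
noncomputable def Step.β (R : Type) [CommRing R] (s : Step ι κ) : Cc R F.X :=
  pr (s.r.map fun k => F.tR R (s.e k))

variable {F}

lemma shell_W_sub {ρ : Finset ι} {i : ι} (hi : i ∉ ρ) : F.W ρ ⊆ F.nz i := fun _ hx => hx i hi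

lemma shell_fam_cons (σ : Finset ι) (K : List (Finset ι)) :
    (⋃ ρ ∈ σ :: K, ({F.W ρ} : Set (Set F.X))) = {F.W σ} ∪ ⋃ ρ ∈ K, {F.W ρ} := by
  ext U
  simp only [List.mem_cons, mem_iUnion, mem_singleton_iff, exists_prop, mem_union]
  constructor
  · rintro ⟨ρ, rfl | h, rfl⟩
    exacts [Or.inl rfl, Or.inr ⟨ρ, h, rfl⟩]
  · rintro (rfl | ⟨ρ, h, rfl⟩)
    exacts [⟨σ, Or.inl rfl, rfl⟩, ⟨ρ, Or.inr h, rfl⟩]

lemma shell_open {K : List (Finset ι)} :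
    ∀ U ∈ (⋃ ρ ∈ K, ({F.W ρ} : Set (Set F.X))), IsOpen U := by
  intro U hU
  simp only [mem_iUnion, mem_singleton_iff, exists_prop] at hU
  obtain ⟨ρ, -, rfl⟩ := hU
  exact isOpen_W ρ

/-- The class of a step vanishes off its divisors. -/
lemma Sm.shell_cy (h : F.Sm) (R : Type) [CommRing R] (s : Step ι κ) {T S : Set (Set F.X)}
    (hS : ∀ U ∈ S, ∃ k ∈ s.r, U ⊆ F.nz (s.e k)) : Cy T S (2 * s.r.length) (s.β F R) := by
  refine (cy_pr (T := {univ}) (W := fun k => {F.nz (s.e k)}) (τ := fun k => F.tR R (s.e k))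
    (l := s.r) fun k _ => h.cy R (s.e k)).mono Ref.univ fun U hU _ => ?_
  obtain ⟨k, hk, hU⟩ := hS U hU
  exact ⟨_, mem_iUnion₂.mpr ⟨k, hk, rfl⟩, hU⟩

/-- One chart, relative to the complements of the divisors of the restriction set. -/
lemma Sm.shell_chart (h : F.Sm) (R : Type) [CommRing R] {s : Step ι κ} (hc : F.IsChart s.e s.M)
    (hr : s.r.Nodup) :
    GB {F.W s.cone} (⋃ k ∈ s.r, {F.W s.cone ∩ F.nz (s.e k)}) (fun _ : Unit => s.β F R)
      fun _ => 2 * s.r.length := by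
  have h1 := gb_loc R (t := fun k => pb (F.ψ s.e) (F.tau (s.e k)))
    (fun k => h.isTau_aff (continuous_sec s.e) hc.sec_mem fun w => hc.sec_e w k) hr
  have h2 : pr (s.r.map fun k => bc (Int.castRingHom R) (pb (F.ψ s.e) (F.tau (s.e k)))) =
      pb (F.ψ s.e) (s.β F R) := by
    rw [Step.β, pb_pr hc.continuous_ψ, List.map_map]
    congr 2
    funext k
    exact bc_pb _ _ _
  rw [h2] at h1
  refine GB.of_pull (g := F.φ s.M) h1
    (PM.of_cont hc.continuous_ψ (Mp.single fun w _ => hc.ψ_mem w) fun U hU _ => ?_)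
    ⟨?_, fun U hU => ?_, Mp.univ, fun U hU _ => ?_⟩ (fun U hU _ => ?_) ?_
  · obtain ⟨k, hk, rfl⟩ := mem_iUnion₂.mp hU
    exact ⟨_, mem_iUnion₂.mpr ⟨k, hk, rfl⟩, fun w hw => ⟨hc.ψ_mem w, (hc.ψ_mem_nz w k).mpr hw⟩⟩
  · rintro U rfl
    exact hc.continuousOn_φ
  · obtain ⟨k, -, rfl⟩ := mem_iUnion₂.mp hU
    exact hc.continuousOn_φ.mono inter_subset_left
  · obtain ⟨k, hk, rfl⟩ := mem_iUnion₂.mp hU
    refine ⟨_, mem_iUnion₂.mpr ⟨k, hk, rfl⟩, fun x hx => (hc.ψ_mem_nz _ k).mp ?_⟩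
    rw [hc.ψ_φ hx.1]
    exact hx.2
  · obtain ⟨k, -, rfl⟩ := mem_iUnion₂.mp hU
    exact ⟨_, rfl, inter_subset_left⟩
  · rintro U rfl x hx
    exact hc.ψ_φ hx

/-- One step of a shelling. -/
lemma Sm.shell_step (h : F.Sm) (R : Type) [CommRing R] {s : Step ι κ} (hc : F.IsChart s.e s.M)
    {K : List (Finset ι)} (hr : s.r.Nodup) (h1 : ∀ ρ ∈ K, ∃ k ∈ s.r, s.e k ∉ ρ)
    (h2 : ∀ k ∈ s.r, ∃ ρ ∈ K, s.cone.erase (s.e k) ⊆ ρ) :
    GB (⋃ ρ ∈ s.cone :: K, {F.W ρ}) (⋃ ρ ∈ K, {F.W ρ}) (fun _ : Unit => s.β F R)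
      fun _ => 2 * s.r.length := by
  have hM : ∀ U ∈ Mt {F.W s.cone} (⋃ ρ ∈ K, {F.W ρ}), ∃ ρ ∈ K, U = F.W s.cone ∩ F.W ρ := by
    rintro _ ⟨_, rfl, V, hV, rfl⟩
    obtain ⟨ρ, hρ, rfl⟩ := mem_iUnion₂.mp hV
    exact ⟨ρ, hρ, rfl⟩
  have hRef : Ref (Mt {F.W s.cone} (⋃ ρ ∈ K, {F.W ρ}))
      (⋃ k ∈ s.r, {F.W s.cone ∩ F.nz (s.e k)}) := by
    intro U hU _
    obtain ⟨ρ, hρ, rfl⟩ := hM U hU
    obtain ⟨k, hk, hk'⟩ := h1 ρ hρ
    exact ⟨_, mem_iUnion₂.mpr ⟨k, hk, rfl⟩, inter_subset_inter_right _ (shell_W_sub hk')⟩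
  rw [shell_fam_cons]
  refine (gb_exc fun _ => h.shell_cy R s fun U hU => ?c6).mpr
    ((gb_S (triv_small (fun U hU => ?c1) (fun U hU => ?c2) hRef ?c3) hRef (fun U hU _ => ?c4)
      fun _ => h.shell_cy R s fun U hU => ?c5).mpr (h.shell_chart R hc hr))
  case c1 =>
    obtain ⟨k, -, rfl⟩ := mem_iUnion₂.mp hU
    exact (isOpen_W _).inter (isOpen_nz _)
  case c2 =>
    obtain ⟨ρ, -, rfl⟩ := hM U hU
    exact (isOpen_W _).inter (isOpen_W _)
  case c3 =>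
    rintro x ⟨U, hU, hx⟩
    obtain ⟨k, hk, rfl⟩ := mem_iUnion₂.mp hU
    obtain ⟨ρ, hρ, hρ'⟩ := h2 k hk
    refine ⟨_, ⟨_, rfl, _, mem_iUnion₂.mpr ⟨ρ, hρ, rfl⟩, rfl⟩, hx.1, fun i hi => ?_⟩
    by_cases hik : i = s.e k
    · exact hik ▸ hx.2
    · exact hx.1 i fun hi' => hi (hρ' (Finset.mem_erase.mpr ⟨hik, hi'⟩))
  case c4 =>
    obtain ⟨k, -, rfl⟩ := mem_iUnion₂.mp hU
    exact ⟨_, rfl, inter_subset_left⟩
  case c5 =>
    obtain ⟨k, hk, rfl⟩ := mem_iUnion₂.mp hU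
    exact ⟨k, hk, inter_subset_right⟩
  case c6 =>
    obtain ⟨ρ, hρ, rfl⟩ := mem_iUnion₂.mp hU
    obtain ⟨k, hk, hk'⟩ := h1 ρ hρ
    exact ⟨k, hk, shell_W_sub hk'⟩

theorem Sm.shell (h : F.Sm) (R : Type) [CommRing R] {K : List (Finset ι)} {L : List (Step ι κ)}
    (hc : ∀ s ∈ L, F.IsChart s.e s.M) (hs : Shell K L) {A : Set F.X}
    (hA : A = (⋃ ρ ∈ K, F.W ρ) ∪ ⋃ s ∈ L, F.W s.cone) :
    GB {A} (⋃ ρ ∈ K, {F.W ρ}) (fun j : Fin L.length => L[j].β F R)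
      fun j => 2 * L[j].r.length := by
  induction L generalizing K with
  | nil =>
    have hA' : A = ⋃ ρ ∈ K, F.W ρ := by simpa using hA
    haveI : IsEmpty (Fin ([] : List (Step ι κ)).length) := Fin.isEmpty'
    refine gb_empty (triv_small ?_ shell_open (fun U hU _ => ?_) ?_)
    · rintro U rfl
      rw [hA']
      exact isOpen_iUnion fun ρ => isOpen_iUnion fun _ => isOpen_W ρ
    · obtain ⟨ρ, hρ, rfl⟩ := mem_iUnion₂.mp hU
      exact ⟨A, rfl, hA' ▸ subset_iUnion₂ (s := fun ρ (_ : ρ ∈ K) => F.W ρ) ρ hρ⟩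
    · rw [sUnion_singleton, hA']
      intro x hx
      obtain ⟨ρ, hρ, hx⟩ := mem_iUnion₂.mp hx
      exact ⟨_, mem_iUnion₂.mpr ⟨ρ, hρ, rfl⟩, hx⟩
  | cons s L ih =>
    obtain ⟨hr, h1, h2, h3⟩ := hs
    have hA' : A = (⋃ ρ ∈ s.cone :: K, F.W ρ) ∪ ⋃ s ∈ L, F.W s.cone := by
      rw [hA]
      ext x
      simp only [List.mem_cons, mem_union, mem_iUnion, exists_prop, exists_eq_or_imp]
      rw [or_assoc, or_left_comm]
    have hL := ih (fun t ht => hc t (List.mem_cons_of_mem _ ht)) h3 hA'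
    have hT := gb_triple (Ref.of_subset (by rw [shell_fam_cons]; exact subset_union_right))
      (fun U hU _ => by
        obtain ⟨ρ, hρ, rfl⟩ := mem_iUnion₂.mp hU
        exact ⟨A, rfl, hA' ▸ (subset_iUnion₂ (s := fun ρ (_ : ρ ∈ s.cone :: K) => F.W ρ) ρ
          hρ).trans subset_union_left⟩)
      hL (h.shell_step R (hc s List.mem_cons_self) hr h1 h2)
      fun _ => h.shell_cy R s fun U hU => by
        obtain ⟨ρ, hρ, rfl⟩ := mem_iUnion₂.mp hU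
        obtain ⟨k, hk, hk'⟩ := h1 ρ hρ
        exact ⟨k, hk, shell_W_sub hk'⟩
    have hE := hT.reindex (J' := Fin (s :: L).length)
      ((finSuccEquiv L.length).trans (Equiv.optionEquivSumPUnit _))
    convert hE using 1
    · funext j
      refine Fin.cases ?_ (fun j => ?_) j <;> rfl
    · funext j
      refine Fin.cases ?_ (fun j => ?_) j <;> rfl

end Fan

end Pool.Agent.Lib.MP_bf05b2_gt
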