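import Pool.Agent.Lib.MP_bf05b2_gt.H57Cup

/-! Cup-`i` products over the field with two elements. -/

set_option linter.unusedSectionVars false

namespace Pool.Agent.Lib.MP_bf05b2_gt

open Set Finsupp Pool.Agent.Shared.Sing Pool.Agent.Shared.SingEZ

/-- The cup-`(k - 1)` product of functions on lists, evaluated on a list. -/
def cuL {α A : Type*} [Add A] [Mul A] [Zero A] : List α → ℕ → (List α → A) → (List α → A) → A
  | l, 0, x, y => x l * y []
  | [], _ + 1, _, _ => 0
  | v :: m, k + 1, x, y => cuL m k (fun a => y (v :: a)) (fun a => x (v :: a)) +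
      cuL m (k + 1) (fun a => x (v :: a)) y

section lists

variable {α β : Type*}

lemma cuL_cons {A : Type*} [Add A] [Mul A] [Zero A] (v : α) (m : List α) (k : ℕ)
    (x y : List α → A) : cuL (v :: m) (k + 1) x y =
      cuL m k (fun a => y (v :: a)) (fun a => x (v :: a)) +
        cuL m (k + 1) (fun a => x (v :: a)) y := by
  rw [cuL]

lemma cuL_nil {A : Type*} [Add A] [Mul A] [Zero A] (k : ℕ) (x y : List α → A) :
    cuL [] (k + 1) x y = 0 := by
  rw [cuL]

lemma cuL_zero {A : Type*} [Add A] [Mul A] [Zero A] (l : List α) (x y : List α → A) :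
    cuL l 0 x y = x l * y [] := by
  rw [cuL]

variable {A : Type*} [CommRing A]

lemma cuL_add (l : List α) : ∀ (k : ℕ) (x x' y : List α → A),
    cuL l k (fun a => x a + x' a) y = cuL l k x y + cuL l k x' y ∧
      cuL l k y (fun a => x a + x' a) = cuL l k y x + cuL l k y x' := by
  induction l with
  | nil =>
    rintro (_ | k) x x' y
    · simp only [cuL_zero]
      exact ⟨by ring, by ring⟩
    · simp only [cuL_nil, add_zero, and_self]
  | cons v m ih =>
    rintro (_ | k) x x' y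
    · simp only [cuL_zero]
      exact ⟨by ring, by ring⟩
    · simp only [cuL_cons]
      rw [(ih k (fun a => x (v :: a)) (fun a => x' (v :: a)) (fun a => y (v :: a))).1,
        (ih k (fun a => x (v :: a)) (fun a => x' (v :: a)) (fun a => y (v :: a))).2,
        (ih (k + 1) (fun a => x (v :: a)) (fun a => x' (v :: a)) y).1,
        (ih (k + 1) x x' (fun a => y (v :: a))).2]
      exact ⟨by ring, by ring⟩

lemma cuL_zero_left (l : List α) (k : ℕ) (y : List α → A) : cuL l k (fun _ => 0) y = 0 := by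
  have h := (cuL_add l k (fun _ => 0) (fun _ => 0) y).1
  simp only [add_zero] at h
  exact left_eq_add.1 h

lemma cuL_zero_right (l : List α) (k : ℕ) (y : List α → A) : cuL l k y (fun _ => 0) = 0 := by
  have h := (cuL_add l k (fun _ => 0) (fun _ => 0) y).2
  simp only [add_zero] at h
  exact left_eq_add.1 h

lemma cuL_congr {K : Set α} (l : List α) : ∀ (k : ℕ) (x x' y y' : List α → A),
    (∀ z ∈ l, z ∈ K) → (∀ a, (∀ z ∈ a, z ∈ K) → x a = x' a) →
      (∀ a, (∀ z ∈ a, z ∈ K) → y a = y' a) → cuL l k x y = cuL l k x' y' := by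
  induction l with
  | nil =>
    rintro (_ | k) x x' y y' hl hx hy
    · rw [cuL_zero, cuL_zero, hx _ hl, hy _ hl]
    · rw [cuL_nil, cuL_nil]
  | cons v m ih =>
    rintro (_ | k) x x' y y' hl hx hy
    · rw [cuL_zero, cuL_zero, hx _ hl, hy [] (by simp)]
    · have hm : ∀ z ∈ m, z ∈ K := fun z hz => hl z (List.mem_cons_of_mem _ hz)
      have hv : ∀ a : List α, (∀ z ∈ a, z ∈ K) → ∀ z ∈ v :: a, z ∈ K := fun a ha z hz => by
        rcases List.mem_cons.1 hz with rfl | hz
        · exact hl _ List.mem_cons_self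
        · exact ha z hz
      rw [cuL_cons, cuL_cons,
        ih k _ (fun a => y' (v :: a)) _ (fun a => x' (v :: a)) hm (fun a ha => hy _ (hv a ha))
          (fun a ha => hx _ (hv a ha)),
        ih (k + 1) _ (fun a => x' (v :: a)) _ y' hm (fun a ha => hx _ (hv a ha)) hy]

lemma cuL_lmap (f : α → β) (l : List α) : ∀ (k : ℕ) (x y : List β → A),
    cuL (l.map f) k x y = cuL l k (fun a => x (a.map f)) (fun a => y (a.map f)) := by
  induction l with
  | nil =>
    rintro (_ | k) x y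
    · simp only [cuL_zero, List.map_nil]
    · simp only [List.map_nil, cuL_nil]
  | cons v m ih =>
    rintro (_ | k) x y
    · simp only [cuL_zero, List.map_nil]
    · simp only [List.map_cons, cuL_cons, ih]

lemma cuL_high (l : List α) : ∀ (k : ℕ) (x y : List α → A), l.length < k → cuL l k x y = 0 := by
  induction l with
  | nil =>
    rintro (_ | k) x y h
    · simp at h
    · exact cuL_nil _ _ _
  | cons v m ih =>
    rintro (_ | k) x y h
    · simp at h
    · rw [List.length_cons] at h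
      rw [cuL_cons, ih _ _ _ (by omega), ih _ _ _ (by omega), add_zero]

lemma cuL_top (l : List α) : ∀ x y : List α → A, cuL l l.length x y = x l * y l := by
  induction l with
  | nil => exact fun x y => cuL_zero _ _ _
  | cons v m ih =>
    intro x y
    rw [List.length_cons, cuL_cons, ih, cuL_high _ _ _ _ (Nat.lt_succ_self _), add_zero, mul_comm]

lemma cuL_one (p : ℕ) : ∀ (l : List α) (x y : List α → A), (∀ a, a.length ≠ p + 1 → x a = 0) →
    p < l.length → cuL l 1 x y = x (l.take (p + 1)) * y (l.drop p) := by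
  induction p with
  | zero =>
    rintro (_ | ⟨v, m⟩) x y hx hl
    · simp at hl
    · have h0 : cuL m 1 (fun a => x (v :: a)) y = 0 := by
        rcases m with _ | ⟨w, m⟩
        · exact cuL_nil _ _ _
        · have e : (fun a => x (v :: w :: a)) = fun _ => 0 := funext fun a => hx _ (by simp)
          rw [cuL_cons, e, cuL_zero_left, cuL_zero_right, add_zero]
      rw [cuL_cons, h0, cuL_zero, add_zero, mul_comm]
      simp
  | succ p ih =>
    rintro (_ | ⟨v, m⟩) x y hx hl
    · simp at hl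
    · rw [cuL_cons, cuL_zero, hx [v] (by simp), mul_zero, zero_add,
        ih m _ y (fun a ha => hx _ (by simpa using ha)) (by simpa using hl)]
      simp

/-- The coboundary of a function on lists. -/
noncomputable def dL (x : List α → ZMod 2) (l : List α) : ZMod 2 := lc x (bdL (ZMod 2) l)

lemma dL_nil (x : List α → ZMod 2) : dL x [] = 0 := by simp [dL, bdL]

lemma dL_cons (x : List α → ZMod 2) (v : α) (m : List α) :
    dL x (v :: m) = x m + dL (fun a => x (v :: a)) m := by
  have h : ∀ c : Ch (ZMod 2) α, lc x (cone v c) = lc (fun a => x (v :: a)) c := fun c =>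
    map_eq (F := lc x ∘ₗ cone v) (fun l _ => by simp) (mem_top c)
  rw [dL, bdL, map_sub, h, CharTwo.sub_eq_add]
  simp [dL]

lemma dL_add (x y : List α → ZMod 2) (l : List α) :
    dL (fun a => x a + y a) l = dL x l + dL y l :=
  map_eq (F := lc fun a => x a + y a) (G := lc x + lc y) (fun l _ => by simp) (mem_top _)

lemma dL_mul (x : List α → ZMod 2) (r : ZMod 2) (l : List α) :
    dL (fun a => x a * r) l = dL x l * r :=
  (map_eq (F := lc fun a => x a * r) (G := r • lc x) (fun l _ => by simp [mul_comm])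
    (mem_top _)).trans (by simp [dL, mul_comm])

lemma cuL_bd0 (l : List α) (x y : List α → ZMod 2) :
    dL (fun a => cuL a 0 x y) l = cuL l 0 (dL x) y + cuL l 0 x (dL y) := by
  simp only [cuL_zero, dL_mul, dL_nil, mul_zero, add_zero]

theorem cuL_bd (l : List α) : ∀ (k : ℕ) (x y : List α → ZMod 2),
    dL (fun a => cuL a (k + 1) x y) l = cuL l (k + 1) (dL x) y + cuL l (k + 1) x (dL y) +
      cuL l k x y + cuL l k y x := by
  have h2 : ∀ a : ZMod 2, a + a = 0 := CharTwo.add_self_eq_zero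
  induction l with
  | nil =>
    rintro (_ | k) x y
    · simp only [dL_nil, cuL_nil, cuL_zero, zero_add]
      rw [mul_comm, h2]
    · simp only [dL_nil, cuL_nil, add_zero]
  | cons v m ih =>
    intro k x y
    have ex : (fun a => dL x (v :: a)) = fun a => x a + dL (fun b => x (v :: b)) a :=
      funext fun a => dL_cons x v a
    have ey : (fun a => dL y (v :: a)) = fun a => y a + dL (fun b => y (v :: b)) a :=
      funext fun a => dL_cons y v a
    rw [dL_cons]
    simp only [cuL_cons]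
    rw [dL_add, ih k, ex, ey, (cuL_add m k _ _ _).1, (cuL_add m k _ _ _).2,
      (cuL_add m (k + 1) _ _ _).1]
    rcases k with _ | k
    · rw [cuL_bd0]
      simp only [cuL_zero]
      grind
    · rw [ih k, cuL_cons, cuL_cons]
      grind

end lists

variable {Y Y' : Type*} [TopologicalSpace Y] [Nonempty Y] [TopologicalSpace Y'] [Nonempty Y']

/-- The values of a cochain on the affine `p`-simplices of `F`. -/
noncomputable def res (p : ℕ) (φ : Cc (ZMod 2) Y) (F : V → Y) (l : List V) : ZMod 2 :=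
  if l.length = p + 1 then φ (real F (single l 1)) else 0

/-- The cup-`i` product of a cochain of degree `p` and a cochain of degree `q`. -/
noncomputable def cu (i p q : ℕ) (φ ψ : Cc (ZMod 2) Y) : Cc (ZMod 2) Y :=
  lc fun s => cuL (std s.n) (i + 1) (res p φ s.f) (res q ψ s.f)

/-- The Steenrod square `Sq ^ (p - i)` of a cochain of degree `p`. -/
noncomputable abbrev sq (i p : ℕ) (φ : Cc (ZMod 2) Y) : Cc (ZMod 2) Y := cu i p p φ φ

variable {T S S' : Set (Set Y)} {i p q k : ℕ} {φ φ' ψ ψ' : Cc (ZMod 2) Y}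

lemma add_self2 (φ : Cc (ZMod 2) Y) : φ + φ = 0 :=
  LinearMap.ext fun c => CharTwo.add_self_eq_zero (φ c)

lemma sub_eq_add2 (φ ψ : Cc (ZMod 2) Y) : φ - ψ = φ + ψ :=
  LinearMap.ext fun c => CharTwo.sub_eq_add (φ c) (ψ c)

lemma res_aff (p : ℕ) (φ : Cc (ZMod 2) Y) {F : V → Y} (hF : Continuous F) (l a : List V)
    (ha : ∀ z ∈ a, z ∈ Δ l.length) :
    res p φ (mk l.length (F ∘ aff l)).f a = res p φ F (a.map (aff l)) := by
  unfold res
  rw [List.length_map]
  split_ifs with h
  · rw [real_congr (convex_Δ _) (mk_f (hF.comp (continuous_aff l)).continuousOn)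
      (single_mem ⟨rfl, ha⟩), ← real_lmap, lmap_single]
  · rfl

lemma cu_real (i p q : ℕ) (φ ψ : Cc (ZMod 2) Y) {F : V → Y} (hF : Continuous F) (l : List V) :
    cu i p q φ ψ (real F (single l 1)) = cuL l (i + 1) (res p φ F) (res q ψ F) := by
  rw [real_single, cu, linearCombination_single, one_smul, mk_n,
    cuL_congr (K := Δ l.length) _ _ _ _ _ _ std_mem (res_aff p φ hF l) (res_aff q ψ hF l),
    ← cuL_lmap, map_aff_std]

lemma cu_real_D (i p q : ℕ) (φ ψ : Cc (ZMod 2) Y) {F : V → Y} (hF : Continuous F) (l : List V) :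
    cu i p q φ ψ (D (real F (single l 1))) =
      dL (fun a => cuL a (i + 1) (res p φ F) (res q ψ F)) l := by
  rw [D_glob hF, bd_single]
  exact map_eq (F := cu i p q φ ψ ∘ₗ real F) (fun a _ => by
    rw [LinearMap.comp_apply, cu_real i p q φ ψ hF, linearCombination_single, one_smul])
    (mem_top _)

lemma res_D (p : ℕ) (φ : Cc (ZMod 2) Y) {F : V → Y} (hF : Continuous F) :
    res (p + 1) (φ ∘ₗ D) F = dL (res p φ F) := by
  funext l
  unfold dL
  by_cases h : l.length = p + 1 + 1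
  · rw [res, if_pos h, LinearMap.comp_apply, D_glob hF, bd_single]
    exact map_eq (F := φ ∘ₗ real F) (fun a ha => by
      rw [LinearMap.comp_apply, linearCombination_single, one_smul, res,
        if_pos (by have := ha.1; omega)]) (bdL_mem l)
  · rw [res, if_neg h]
    exact (map_eq (G := 0) (fun a ha => by
      rw [linearCombination_single, one_smul, res, if_neg (by have := ha.1; omega)]
      rfl) (bdL_mem l)).symm

lemma res_nil (p : ℕ) (φ : Cc (ZMod 2) Y) (F : V → Y) : res p φ F [] = 0 := by simp [res]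

lemma res_add (p : ℕ) (φ φ' : Cc (ZMod 2) Y) (F : V → Y) :
    res p (φ + φ') F = fun a => res p φ F a + res p φ' F a := by
  funext a
  unfold res
  split_ifs
  · rfl
  · rw [add_zero]

lemma res_congr (h : Eqv T p φ φ') {U : Set Y} (hU : U ∈ T) {F : V → Y} (hF : Continuous F)
    (hFU : ∀ t, F t ∈ U) : res p φ F = res p φ' F := by
  funext a
  unfold res
  split_ifs with ha
  · exact h _ (In_le_Ch' hU (ha ▸ glob_In hF hFU a))
  · rfl

lemma res_pb (p : ℕ) (φ : Cc (ZMod 2) Y) (f : Y' → Y) {F : V → Y'} (hF : Continuous F) :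
    res p (pb f φ) F = res p φ (f ∘ F) := by
  funext a
  unfold res
  rw [pb, LinearMap.comp_apply, map_glob hF]

theorem cu_D (i p q : ℕ) (φ ψ : Cc (ZMod 2) Y) : cu (i + 1) p q φ ψ ∘ₗ D =
    cu (i + 1) (p + 1) q (φ ∘ₗ D) ψ + cu (i + 1) p (q + 1) φ (ψ ∘ₗ D) + cu i p q φ ψ +
      cu i q p ψ φ := by
  refine LinearMap.ext (eq_all fun F hF l => ?_)
  simp only [LinearMap.add_apply, LinearMap.comp_apply]
  rw [cu_real_D _ _ _ _ _ hF, cu_real _ _ _ _ _ hF, cu_real _ _ _ _ _ hF, cu_real _ _ _ _ _ hF,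
    cu_real _ _ _ _ _ hF, res_D _ _ hF, res_D _ _ hF, cuL_bd]

theorem cu_D0 (p q : ℕ) (φ ψ : Cc (ZMod 2) Y) : cu 0 p q φ ψ ∘ₗ D =
    cu 0 (p + 1) q (φ ∘ₗ D) ψ + cu 0 p (q + 1) φ (ψ ∘ₗ D) := by
  refine LinearMap.ext (eq_all fun F hF l => ?_)
  simp only [LinearMap.add_apply, LinearMap.comp_apply]
  rw [cu_real_D _ _ _ _ _ hF, cu_real _ _ _ _ _ hF, cu_real _ _ _ _ _ hF,
    res_D _ _ hF, res_D _ _ hF, cuL_bd, cuL_zero, cuL_zero, res_nil, res_nil, mul_zero, mul_zero,
    add_zero, add_zero]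

theorem cu_zero (φ ψ : Cc (ZMod 2) Y) : Eqv T (p + q) (cu 0 p q φ ψ) (cup p φ ψ) := by
  refine eqv_of_In fun U _ _ c hc => eq_In (fun F hF _ l hl => ?_) hc
  have hp : p < l.length := by omega
  rw [cu_real _ _ _ _ _ hF, zero_add, cuL_one p l (res p φ F) _ (fun a ha => if_neg ha) hp, cup,
    LinearMap.comp_apply, cap_real convex_univ hF.continuousOn p φ (Lin_univ l),
    linearCombination_single, one_smul, capL, if_pos hp, map_smul, map_smul, smul_eq_mul, res, res,
    if_pos (by rw [List.length_take]; omega), if_pos (by rw [List.length_drop]; omega)]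
  rfl

lemma cu_add_left (i p q : ℕ) (φ φ' ψ : Cc (ZMod 2) Y) :
    cu i p q (φ + φ') ψ = cu i p q φ ψ + cu i p q φ' ψ := by
  refine LinearMap.ext (eq_all fun F hF l => ?_)
  rw [LinearMap.add_apply, cu_real _ _ _ _ _ hF, cu_real _ _ _ _ _ hF, cu_real _ _ _ _ _ hF,
    res_add, (cuL_add _ _ _ _ _).1]

lemma cu_add_right (i p q : ℕ) (φ ψ ψ' : Cc (ZMod 2) Y) :
    cu i p q φ (ψ + ψ') = cu i p q φ ψ + cu i p q φ ψ' := by
  refine LinearMap.ext (eq_all fun F hF l => ?_)
  rw [LinearMap.add_apply, cu_real _ _ _ _ _ hF, cu_real _ _ _ _ _ hF, cu_real _ _ _ _ _ hF,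
    res_add, (cuL_add _ _ _ _ _).2]

lemma cu_zero_left (i p q : ℕ) (ψ : Cc (ZMod 2) Y) : cu i p q 0 ψ = 0 := by
  have h := cu_add_left i p q 0 0 ψ
  rw [add_zero, add_self2] at h
  exact h

lemma cu_zero_right (i p q : ℕ) (φ : Cc (ZMod 2) Y) : cu i p q φ 0 = 0 := by
  have h := cu_add_right i p q φ 0 0
  rw [add_zero, add_self2] at h
  exact h

lemma Eqv.cui (h : Eqv T p φ φ') (h' : Eqv T q ψ ψ') :
    Eqv T k (cu i p q φ ψ) (cu i p q φ' ψ') := by
  refine eqv_of_In fun U hU _ c hc => eq_In (fun F hF hFU l _ => ?_) hc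
  rw [cu_real _ _ _ _ _ hF, cu_real _ _ _ _ _ hF, res_congr h hU hF hFU, res_congr h' hU hF hFU]

lemma cu_van_left (h : Eqv S p φ 0) (ψ : Cc (ZMod 2) Y) : Eqv S k (cu i p q φ ψ) 0 :=
  cu_zero_left i p q ψ ▸ h.cui Eqv.refl

lemma cu_van_right (φ : Cc (ZMod 2) Y) (h : Eqv S q ψ 0) : Eqv S k (cu i p q φ ψ) 0 :=
  cu_zero_right i p q φ ▸ Eqv.refl.cui h

lemma pb_cu {f : Y' → Y} (hf : Continuous f) (i p q : ℕ) (φ ψ : Cc (ZMod 2) Y) :
    pb f (cu i p q φ ψ) = cu i p q (pb f φ) (pb f ψ) := by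
  refine LinearMap.ext (eq_all fun F hF l => ?_)
  rw [cu_real _ _ _ _ _ hF, res_pb _ _ _ hF, res_pb _ _ _ hF, pb, LinearMap.comp_apply,
    map_glob hF, cu_real _ _ _ _ _ (hf.comp hF)]

lemma pb_cu' {f : Y' → Y} {P : Set (Set Y')} (hf : ∀ U ∈ P, ContinuousOn f U) (i p q : ℕ)
    (φ ψ : Cc (ZMod 2) Y) : Eqv P k (pb f (cu i p q φ ψ)) (cu i p q (pb f φ) (pb f ψ)) := by
  refine eqv_of_In fun U hU _ c hc => eq_In (fun F hF hFU l _ => ?_) hc
  rw [cu_real _ _ _ _ _ hF, res_pb _ _ _ hF, res_pb _ _ _ hF, pb, LinearMap.comp_apply,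
    map_glob hF, cu_real _ _ _ _ _ ((hf U hU).comp_continuous hF hFU)]

theorem sq_top (φ : Cc (ZMod 2) Y) : Eqv T p (sq p p φ) φ := by
  refine eqv_of_In fun U _ _ c hc => eq_In (fun F hF _ l hl => ?_) hc
  have h : ∀ a : ZMod 2, a * a = a := by decide
  rw [cu_real _ _ _ _ _ hF, ← hl, cuL_top, h, res, if_pos hl]

lemma sq_comp_D (i p : ℕ) (ν : Cc (ZMod 2) Y) : sq i p ν ∘ₗ D =
    cu i (p + 1) p (ν ∘ₗ D) ν + cu i p (p + 1) ν (ν ∘ₗ D) := by
  rcases i with _ | i
  · exact cu_D0 p p ν ν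
  · rw [cu_D, add_assoc, add_self2, add_zero]

theorem sq_D (i p : ℕ) (ν : Cc (ZMod 2) Y) : sq (i + 1) (p + 1) (ν ∘ₗ D) =
    (cu (i + 1) p (p + 1) ν (ν ∘ₗ D) + sq i p ν) ∘ₗ D := by
  rw [LinearMap.add_comp, cu_D, sq_comp_D, comp_D_D, cu_zero_right, add_zero, add_assoc,
    add_assoc, add_comm (cu i (p + 1) p (ν ∘ₗ D) ν) (cu i p (p + 1) ν (ν ∘ₗ D)),
    add_comm (cu i (p + 1) p (ν ∘ₗ D) ν), ← add_assoc (cu i p (p + 1) ν (ν ∘ₗ D)),
    ← add_assoc (cu i p (p + 1) ν (ν ∘ₗ D)), add_self2, zero_add, add_self2, add_zero]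

theorem Cy.square (h : Cy T S p φ) : Cy T S k (sq i p φ) := by
  refine ⟨?_, cu_van_left h.2 φ⟩
  rw [sq_comp_D]
  simpa only [add_zero] using (cu_van_left h.1 φ).add (cu_van_right φ h.1)

/-- Additivity, with the explicit homotopy. -/
theorem sq_add_eqv (h : Cy T S p φ) (h' : Cy T S' p ψ) :
    Eqv T k (sq i p (φ + ψ)) (sq i p φ + sq i p ψ + cu (i + 1) p p φ ψ ∘ₗ D) := by
  intro c hc
  have h1 := cu_van_left (i := i + 1) (q := p) h.1 ψ c hc
  have h2 := cu_van_right (i := i + 1) (p := p) φ h'.1 c hc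
  rw [cu_D, sq, cu_add_left, cu_add_right, cu_add_right]
  simp only [LinearMap.add_apply, h1, h2, LinearMap.zero_apply]
  ring

lemma cu_empty (i p q : ℕ) (φ ψ : Cc (ZMod 2) Y) {c : C (ZMod 2) Y}
    (hc : c ∈ Ch' (ZMod 2) S 0) : cu i p q φ ψ c = 0 :=
  map_eq (G := 0) (fun s hs => by
    rw [cu, linearCombination_single, one_smul, hs.1]
    exact cuL_nil _ _ _) hc

lemma cu_van_all (h : ∀ k, Eqv S k (cu i p q φ ψ) 0) :
    ∀ c ∈ Ch' (ZMod 2) S k, cu i p q φ ψ c = 0 := by
  rcases k with _ | k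
  · exact fun c hc => cu_empty i p q φ ψ hc
  · exact h k

theorem sq_add (h : Cy T S p φ) (h' : Cy T S' p ψ) :
    Bo T (S ∪ S') k (sq i p (φ + ψ) - (sq i p φ + sq i p ψ)) := by
  refine ⟨cu (i + 1) p p φ ψ, cu_van_all fun _ =>
    (cu_van_left h.2 ψ).union (cu_van_right φ h'.2), fun c hc => ?_⟩
  rw [LinearMap.sub_apply, sq_add_eqv h h' c hc, LinearMap.add_apply, add_sub_cancel_left]

theorem Bo.square (h : Bo T S p φ) : Bo T S k (sq i p φ) := by
  rcases p with _ | p
  · exact Bo.zero.congr (cu_van_left (bo_zero.1 h) φ).symm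
  · obtain ⟨ν, h1, h2⟩ := bo_succ.1 h
    have h3 : Eqv T k (sq i (p + 1) φ) (sq i (p + 1) (ν ∘ₗ D)) := h2.cui h2
    rcases i with _ | i
    · refine ⟨cu 0 p (p + 1) ν (ν ∘ₗ D), cu_van_all fun _ => cu_van_left h1 _, ?_⟩
      rw [cu_D0, comp_D_D, cu_zero_right, add_zero]
      exact h3
    · refine ⟨cu (i + 1) p (p + 1) ν (ν ∘ₗ D) + sq i p ν, fun c hc => ?_, ?_⟩
      · rw [LinearMap.add_apply, cu_van_all (fun _ => cu_van_left h1 _) c hc,
          cu_van_all (fun _ => cu_van_left h1 _) c hc, add_zero]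
      · rw [← sq_D]
        exact h3

theorem sq_congr (hS : Ref S T) (h : Cy T S p φ) (h' : Bo T S p (φ - φ')) :
    Bo T S k (sq i p φ - sq i p φ') := by
  have e : φ + (φ - φ') = φ' := by
    rw [sub_eq_add2, ← add_assoc, add_self2, zero_add]
  have h1 := sq_add (k := k) (i := i) h (h'.cy hS)
  rw [union_self, e] at h1
  have h2 := h1.neg.sub (h'.square (k := k) (i := i))
  convert h2 using 1
  abel

end Pool.Agent.Lib.MP_bf05b2_gt
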