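import Pool.Agent.Lib.MP_bf05b2_gt.H57GB
import Pool.Agent.Lib.MP_bf05b2_gt.H57Sq

/-! The suspension isomorphism. -/

set_option linter.unusedSectionVars false
set_option linter.unusedVariables false

namespace Pool.Agent.Lib.MP_bf05b2_gt

open Set Finsupp Pool.Agent.Shared.Sing Pool.Agent.Shared.SingEZ

variable {Y Y' : Type*} [TopologicalSpace Y] [Nonempty Y] [TopologicalSpace Y'] [Nonempty Y']

open Classical in
/-- The cocycle of degree one dual to the zero set of a real function. -/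
noncomputable def eh (R : Type) [CommRing R] (h : Y → ℝ) : Cc R Y :=
  pv (fun y => if 0 < h y then 1 else 0) ∘ₗ D

variable {R : Type} [CommRing R] {h : Y → ℝ} {A : Set Y} {S : Set (Set Y)}

lemma su_pv_eqv {T : Set (Set Y)} {g : Y → R} {φ : Cc R Y}
    (hg : ∀ U ∈ T, ∀ y ∈ U, g y = φ (pt R y)) : Eqv T 0 (pv g) φ :=
  eqv_of_In fun U hU _ c hc => eq_In (fun F _ hF l hl => by
    obtain ⟨v, rfl⟩ := List.length_eq_one_iff.1 hl
    rw [real_one, pv_pt, hg U hU _ (hF v)]) hc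

open Classical in
/-- The characteristic cochain of the positive part. -/
noncomputable def suChi (R : Type) [CommRing R] (h : Y → ℝ) : Cc R Y :=
  pv fun y => if 0 < h y then 1 else 0

lemma su_eh_eq (h : Y → ℝ) : eh R h = suChi R h ∘ₗ D := rfl

lemma su_chi_pos {U : Set Y} (hU : ∀ y ∈ U, 0 < h y) : Eqv {U} 0 (suChi R h) e1 :=
  su_pv_eqv fun _ hV y hy => by rw [if_pos (hU y (by rwa [← mem_singleton_iff.1 hV])), e1_pt]

lemma su_chi_neg {U : Set Y} (hU : ∀ y ∈ U, h y < 0) : Eqv {U} 0 (suChi R h) 0 :=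
  su_pv_eqv fun _ hV y hy => by
    rw [if_neg (hU y (by rwa [← mem_singleton_iff.1 hV])).not_gt, LinearMap.zero_apply]

lemma Eqv.su_van {T : Set (Set Y)} {k : ℕ} {φ : Cc R Y} (h : Eqv T k φ 0) :
    Eqv T (k + 1) (φ ∘ₗ D) 0 := by
  simpa only [LinearMap.zero_comp] using h.comp_D

lemma su_chi_cup {U : Set Y} (hU : ∀ y ∈ U, 0 < h y) (k : ℕ) (φ : Cc R Y) :
    Eqv {U} k (cup 0 (suChi R h) φ) φ := by
  have := ((su_chi_pos (R := R) hU).mul (Eqv.refl (k := k) (φ := φ))).trans (e1_cup φ)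
  rwa [zero_add] at this

lemma su_chi_van {T : Set (Set Y)} {k : ℕ} {φ : Cc R Y} (hφ : Eqv T k φ 0) :
    Eqv T k (cup 0 (suChi R h) φ) 0 := by
  have := cup_van_right (p := 0) (suChi R h) hφ
  rwa [zero_add] at this

lemma su_chi_D {T : Set (Set Y)} {k : ℕ} {φ : Cc R Y} (hφ : Eqv T (k + 1) (φ ∘ₗ D) 0) :
    Eqv T (k + 1) (cup 0 (suChi R h) φ ∘ₗ D) (cup 1 (eh R h) φ) := by
  have h1 := cup_D (T := T) 0 k (suChi R h) φ
  rw [zero_add, pow_zero, one_smul] at h1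
  have h2 := h1.trans (Eqv.refl.add (su_chi_van hφ))
  rwa [add_zero] at h2

lemma pb_eh {f : Y' → Y} (hf : Continuous f) (h : Y → ℝ) :
    Eqv {univ} 1 (pb f (eh R h)) (eh R (h ∘ f)) := by
  rw [su_eh_eq, su_eh_eq, pb_D hf]
  refine Eqv.comp_D (Eqv.symm (su_pv_eqv fun _ _ y _ => ?_))
  rw [pb, LinearMap.comp_apply, map_pt, suChi, pv_pt]
  rfl

lemma bc_eh {R' : Type} [CommRing R'] (ρ : R →+* R') (h : Y → ℝ) : bc ρ (eh R h) = eh R' h := by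
  rw [su_eh_eq, su_eh_eq, bc_D]
  congr 1
  refine LinearMap.ext fun c => map_eq (fun s _ => ?_) (mem_top c)
  simp only [bc, suChi, pv, linearCombination_single, one_smul]
  split_ifs <;> simp

lemma cy_eh (h : Y → ℝ) : Cy {univ} {{y | 0 < h y}, {y | h y < 0}} 1 (eh R h) := by
  refine cy_comp_D (k := 0) ?_
  rw [insert_eq]
  exact ((su_chi_pos fun _ hy => hy).comp_D.trans cy_e1.1).union (su_chi_neg fun _ hy => hy).su_van

lemma su_mix_neg {a s : ℝ} (ha : a < 0) (hs : s ∈ Icc (0 : ℝ) 1) : (1 - s) * a - s < 0 := by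
  rcases hs.2.eq_or_lt with h | h
  · simp [h]
  · nlinarith [hs.1]

lemma su_mix_pos {a s : ℝ} (ha : 0 < a) (hs : s ∈ Icc (0 : ℝ) 1) : 0 < (1 - s) * a + s := by
  rcases hs.2.eq_or_lt with h | h
  · simp [h]
  · nlinarith [hs.1]

section susp

variable {m : Y × ℝ → Y} (hh : Continuous h) (hm : Continuous m) (h1 : ∀ y a, h (m (y, a)) = a)
  (h2 : ∀ y, m (y, h y) = y) (hA : ∀ y ∈ A, ∀ a, m (y, a) ∈ A)
  (hS : ∀ U ∈ S, U ⊆ A ∧ ∀ y ∈ U, ∀ a, m (y, a) ∈ U)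
include hh hm h1 h2 hA hS

lemma su_triv_neg (k : ℕ) : Triv R {A} (S ∪ {A ∩ {y | h y < 0}}) k := by
  have hc : Continuous fun p : Y × ℝ => m (p.1, (1 - p.2) * h p.1 - p.2) := by fun_prop
  refine triv_def (H := fun p => m (p.1, (1 - p.2) * h p.1 - p.2))
    ⟨fun _ _ => hc.continuousOn, fun _ _ => hc.continuousOn, ?_, ?_⟩ (fun _ _ y _ => ?_) ?_ k
  · rintro _ rfl -
    exact ⟨_, rfl, fun p hp => hA _ hp.1 _⟩
  · rintro U (hU | rfl) -
    · exact ⟨U, Or.inl hU, fun p hp => (hS U hU).2 _ hp.1 _⟩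
    · refine ⟨_, Or.inr rfl, fun p hp => ⟨hA _ hp.1.1 _, ?_⟩⟩
      rw [mem_ofPred_eq, h1]
      exact su_mix_neg hp.1.2 hp.2
  · simp [h2]
  · rintro _ rfl -
    exact ⟨_, Or.inr rfl, fun y hy => ⟨hA _ hy _, by simp [h1]⟩⟩

lemma su_gb_pos {J : Type} [Fintype J] {β : J → Cc R Y} {d : J → ℕ} (hβ : GB {A} S β d) :
    GB {A ∩ {y | 0 < h y}} (Mt {A ∩ {y | 0 < h y}} (S ∪ {A ∩ {y | h y < 0}})) β d := by
  have hc : Continuous fun p : Y × ℝ => m (p.1, (1 - p.2) * h p.1 + p.2) := by fun_prop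
  have hg : Continuous fun y : Y => m (y, 1) := by fun_prop
  have key : ∀ V ∈ Mt {A ∩ {y | 0 < h y}} (S ∪ {A ∩ {y | h y < 0}}), V.Nonempty →
      ∃ U ∈ S, V = A ∩ {y | 0 < h y} ∩ U := by
    rintro _ ⟨_, rfl, U, hU | rfl, rfl⟩ ⟨y, hy⟩
    · exact ⟨U, hU, rfl⟩
    · exact (lt_asymm (show 0 < h y from hy.1.2) hy.2.2).elim
  have hP : ∀ p ∈ (A ∩ {y | 0 < h y}) ×ˢ Icc (0 : ℝ) 1,
      m (p.1, (1 - p.2) * h p.1 + p.2) ∈ A ∩ {y | 0 < h y} := fun p hp =>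
    ⟨hA _ hp.1.1 _, by
      rw [mem_ofPred_eq, h1]
      exact su_mix_pos hp.1.2 hp.2⟩
  have := GB.pull (T := {A ∩ {y | 0 < h y}})
    (S := Mt {A ∩ {y | 0 < h y}} (S ∪ {A ∩ {y | h y < 0}})) (f := id) (g := fun y => m (y, 1))
    (H := fun p => m (p.1, (1 - p.2) * h p.1 + p.2))
    (H' := fun p => m (p.1, (1 - p.2) * h p.1 + p.2)) hβ
    (PM.of_cont continuous_id (Mp.single fun _ hy => hy.1) fun V hV hn => ?_)
    (PM.of_cont hg (Mp.single fun y hy => ⟨hA _ hy _, by simp [h1]⟩) fun U hU _ => ?_)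
    ⟨fun _ _ => hc.continuousOn, fun _ _ => hc.continuousOn, ?_, fun U hU _ => ?_⟩
    (fun _ _ y _ => by simp [h2]) (fun _ _ y _ => by simp)
    ⟨fun _ _ => hc.continuousOn, fun _ _ => hc.continuousOn, ?_, fun V hV hn => ?_⟩
    (fun _ _ y _ => by simp [h2]) (fun _ _ y _ => by simp)
  · simpa only [pb_id] using this
  · obtain ⟨U, hU, rfl⟩ := key V hV hn
    exact ⟨U, hU, fun _ hy => hy.2⟩
  · exact ⟨_, ⟨_, rfl, U, Or.inl hU, rfl⟩, fun y hy =>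
      ⟨⟨hA _ ((hS U hU).1 hy) _, by simp [h1]⟩, (hS U hU).2 _ hy _⟩⟩
  · rintro _ rfl -
    exact ⟨_, rfl, fun p hp => hA _ hp.1 _⟩
  · exact ⟨U, hU, fun p hp => (hS U hU).2 _ hp.1 _⟩
  · rintro _ rfl -
    exact ⟨_, rfl, hP⟩
  · obtain ⟨U, hU, rfl⟩ := key V hV hn
    exact ⟨_, hV, fun p hp => ⟨hP p ⟨hp.1.1, hp.2⟩, (hS U hU).2 _ hp.1.2 _⟩⟩

end susp

lemma su_pm_eq (S : Set (Set Y)) (P N : Set Y) : S ∪ {P, N} = {P} ∪ (S ∪ {N}) := by
  rw [insert_eq, union_left_comm]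

theorem gb_susp {J : Type} [Fintype J] {β : J → Cc R Y} {d : J → ℕ} {m : Y × ℝ → Y}
    (hh : Continuous h) (hm : Continuous m) (h1 : ∀ y a, h (m (y, a)) = a)
    (h2 : ∀ y, m (y, h y) = y) (hA : ∀ y ∈ A, ∀ a, m (y, a) ∈ A)
    (hS : ∀ U ∈ S, U ⊆ A ∧ ∀ y ∈ U, ∀ a, m (y, a) ∈ U) (hβ : GB {A} S β d) :
    GB {A} (S ∪ {A ∩ {y | 0 < h y}, A ∩ {y | h y < 0}}) (fun j => cup 1 (eh R h) (β j))
      fun j => d j + 1 := by
  rw [su_pm_eq]
  have hP : ∀ j, Eqv {A ∩ {y | 0 < h y}} (d j) (cup 0 (suChi R h) (β j)) (β j) := fun j =>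
    su_chi_cup (fun _ hy => hy.2) _ _
  have hv : ∀ j, Eqv (S ∪ {A ∩ {y | h y < 0}}) (d j) (cup 0 (suChi R h) (β j)) 0 := fun j =>
    (su_chi_van (hβ.cy j).2).union (cup_van_left (su_chi_neg fun _ hy => hy.2) _)
  have hr : Ref ({A ∩ {y | 0 < h y}} ∪ (S ∪ {A ∩ {y | h y < 0}})) {A} :=
    (Ref.single inter_subset_left).union
      (Ref.union (fun U hU _ => ⟨A, rfl, (hS U hU).1⟩) (Ref.single inter_subset_left))
  have h3 := (su_gb_pos hh hm h1 h2 hA hS hβ).congr (β' := fun j => cup 0 (suChi R h) (β j))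
    (by
      rintro _ ⟨_, rfl, U, -, rfl⟩ -
      exact ⟨_, rfl, inter_subset_left⟩) fun j => (hP j).symm.bo
  have h4 := (gb_exc fun j => ⟨((hP j).comp_D.trans ((hβ.cy j).1.mono
    (Ref.single inter_subset_left))).union (hv j).su_van, hv j⟩).2 h3
  exact (gb_del (Ref.of_subset subset_union_right) hr (su_triv_neg hh hm h1 h2 hA hS) h4).congr hr
    fun j => (su_chi_D (hβ.cy j).1).bo

/-- The second square of a suspended class of degree two. -/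
theorem sq_susp {t : Cc (ZMod 2) Y} (hS : Ref S {A}) (ht : Cy {A} S 2 t) :
    Bo {A} (S ∪ {A ∩ {y | 0 < h y}, A ∩ {y | h y < 0}}) 5
      (sq 1 3 (cup 1 (eh (ZMod 2) h) t) - cup 1 (eh (ZMod 2) h) (cup 2 t t)) := by
  rw [su_pm_eq]
  have htt : Cy {A} (S ∪ S) 4 (cup 2 t t) := ht.mul ht
  have hu := (su_chi_D (h := h) ht.1).symm
  have h1 : Eqv {A} 5 _ _ := (hu.cui (i := 1) hu).sub (su_chi_D (h := h) htt.1).symm
  have h2 := sq_D 0 2 (cup 0 (suChi (ZMod 2) h) t)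
  rw [sq] at h2
  rw [h2, ← LinearMap.sub_comp] at h1
  refine bo_succ.2 ⟨_, ?_, h1⟩
  have hv : ∀ T, Eqv T 2 (cup 0 (suChi (ZMod 2) h) t) 0 →
      Eqv T 4 (cup 0 (suChi (ZMod 2) h) (cup 2 t t)) 0 →
      Eqv T 4 (cu 1 2 3 (cup 0 (suChi (ZMod 2) h) t) (cup 0 (suChi (ZMod 2) h) t ∘ₗ D) +
        sq 0 2 (cup 0 (suChi (ZMod 2) h) t) - cup 0 (suChi (ZMod 2) h) (cup 2 t t)) 0 :=
    fun T a b => by
      simpa only [add_zero, sub_zero] using ((cu_van_left a _).add (cu_van_left a _)).sub b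
  refine Eqv.union ?_ (Eqv.union (hv _ (su_chi_van ht.2) (su_chi_van (cup_van_left ht.2 _)))
    (hv _ (cup_van_left (su_chi_neg fun _ hy => hy.2) _) (cup_van_left (su_chi_neg fun _ hy => hy.2) _)))
  have a := su_chi_cup (h := h) (U := A ∩ {y | 0 < h y}) (fun _ hy => hy.2) 2 t
  have b := su_chi_cup (h := h) (U := A ∩ {y | 0 < h y}) (fun _ hy => hy.2) 4 (cup 2 t t)
  have c := a.comp_D.trans (ht.1.mono (Ref.single inter_subset_left))
  simpa only [zero_add, sub_self] using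
    ((cu_van_right (i := 1) (p := 2) _ c).add ((a.cui (i := 0) a).trans (cu_zero t t))).sub b

end Pool.Agent.Lib.MP_bf05b2_gt
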