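import Pool.Agent.Lib.MP_bf05b2_gt.H57Ineq

/-! The zeros of the explicit section lie in a box in the torus. -/

set_option linter.unusedSectionVars false

namespace Pool.Agent.Lib.MP_bf05b2_gt

open Set Fan

/-- An interval of positive real numbers. -/
def Jc : Set ℂ := {x | x.im = 0 ∧ Real.exp (-20) ≤ x.re ∧ x.re ≤ Real.exp 20}

/-- Coordinates on the first chart. -/
noncomputable def coB (z : Fin 14 → ℂ) : ℂ × ℂ × ℝ :=
  (FB.mon ![1, 0, 0] z, FB.mon ![0, 1, 0] z, ‖FB.mon ![-1, -1, 1] z‖)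

/-- The box. -/
def Bx : Set (ℂ × ℂ × ℝ) := Jc ×ˢ Jc ×ˢ Icc (Real.exp (-60)) (Real.exp 60)

namespace Zero

lemma pw_mul (r : ℝ) {u : ℂ} (hu : ‖u‖ = 1) (n : ℤ) :
    pw (r * u) n = ((r ^ n.natAbs : ℝ) : ℂ) * u ^ n := by
  have h : (starRingEnd ℂ) u = u⁻¹ := (Complex.inv_eq_conj hu).symm
  obtain ⟨m, rfl | rfl⟩ := n.eq_nat_or_neg
  · simp [pw, mul_pow]
  · simp [pw, mul_pow, h]

/-- The modulus of a monomial. -/
noncomputable def Rm (n : Fin 14 → ℤ) (r : Fin 14 → ℝ) : ℝ := ∏ k, r k ^ (n k).natAbs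

/-- The phase of a monomial. -/
noncomputable def Um (n : Fin 14 → ℤ) (u : Fin 14 → ℂ) : ℂ := ∏ k, u k ^ n k

/-- The phase attached to a ray. -/
noncomputable def xi (u : Fin 14 → ℂ) (i : Fin 14) : ℂ :=
  Um (fun k => vB k 0) u ^ vB i 1 * Um (fun k => vB k 1) u ^ (-vB i 0)

variable {r : Fin 14 → ℝ} {u : Fin 14 → ℂ}

lemma mono_mul (hu : ∀ k, ‖u k‖ = 1) (n : Fin 14 → ℤ) :
    mono n (fun k => r k * u k) = Rm n r * Um n u := by
  simp only [mono, pw_mul _ (hu _), Finset.prod_mul_distrib, Rm, Um, Complex.ofReal_prod]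

lemma norm_Um (hu : ∀ k, ‖u k‖ = 1) (n : Fin 14 → ℤ) : ‖Um n u‖ = 1 := by
  simp [Um, norm_prod, norm_zpow, hu]

lemma Um_ne (hu : ∀ k, ‖u k‖ = 1) (n : Fin 14 → ℤ) : Um n u ≠ 0 :=
  norm_ne_zero_iff.1 (by rw [norm_Um hu]; exact one_ne_zero)

lemma norm_xi (hu : ∀ k, ‖u k‖ = 1) (i : Fin 14) : ‖xi u i‖ = 1 := by
  simp [xi, norm_zpow, norm_Um hu]

lemma Um_comb (hu : ∀ k, ‖u k‖ = 1) (a n : Fin 14 → ℤ) (x y : ℤ)
    (h : ∀ k, n k = a k + (vB k 0 * x + vB k 1 * y)) :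
    Um n u = Um a u * (Um (fun k => vB k 0) u ^ x * Um (fun k => vB k 1) u ^ y) := by
  simp only [Um, ← Finset.prod_zpow, ← Finset.prod_mul_distrib]
  refine Finset.prod_congr rfl fun k _ => ?_
  have h0 : u k ≠ 0 := norm_ne_zero_iff.1 (by rw [hu]; exact one_ne_zero)
  rw [h, zpow_add₀ h0, zpow_add₀ h0, zpow_mul, zpow_mul]

lemma Um_n1 (hu : ∀ k, ‖u k‖ = 1) (j : Fin 14) : Um (n1 j) u = Um aB u * (xi u j)⁻¹ := by
  rw [Um_comb hu aB (n1 j) (-vB j 1) (vB j 0) fun k => by simp only [n1, dt]; ring, xi, mul_inv,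
    ← zpow_neg, ← zpow_neg, neg_neg]

lemma Um_n2 (hu : ∀ k, ‖u k‖ = 1) (i : Fin 14) : Um (n2 i) u = Um bB u * xi u i :=
  Um_comb hu bB (n2 i) (vB i 1) (-vB i 0) fun k => by simp only [n2, dt]; ring

lemma xi_add (hu : ∀ k, ‖u k‖ = 1) {i j k : Fin 14} (h0 : vB k 0 = vB i 0 + vB j 0)
    (h1 : vB k 1 = vB i 1 + vB j 1) : xi u k = xi u i * xi u j := by
  simp only [xi, h0, h1, neg_add, zpow_add₀ (Um_ne hu _)]
  ring

lemma XY_one (hu : ∀ k, ‖u k‖ = 1) {i j : Fin 14} (h : dt i j = 1) (hi : xi u i = 1)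
    (hj : xi u j = 1) : Um (fun k => vB k 0) u = 1 ∧ Um (fun k => vB k 1) u = 1 := by
  have hX := Um_ne hu fun k => vB k 0
  have hY := Um_ne hu fun k => vB k 1
  rw [dt] at h
  have key : ∀ a b : ℤ, Um (fun k => vB k 0) u ^ (vB j 1 * a + vB i 1 * b) *
      Um (fun k => vB k 1) u ^ (-vB j 0 * a + -vB i 0 * b) = 1 := by
    intro a b
    have : xi u j ^ a * xi u i ^ b = 1 := by rw [hi, hj, one_zpow, one_zpow, one_mul]
    rw [← this, xi, xi, mul_zpow, mul_zpow, zpow_add₀ hX, zpow_add₀ hY, zpow_mul, zpow_mul,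
      zpow_mul, zpow_mul]
    ring
  have h1 := key (vB i 0) (-vB j 0)
  have h2 := key (vB i 1) (-vB j 1)
  rw [show vB j 1 * vB i 0 + vB i 1 * -vB j 0 = 1 by linarith,
    show -vB j 0 * vB i 0 + -vB i 0 * -vB j 0 = 0 by ring] at h1
  rw [show vB j 1 * vB i 1 + vB i 1 * -vB j 1 = 0 by ring,
    show -vB j 0 * vB i 1 + -vB i 0 * -vB j 1 = 1 by linarith] at h2
  exact ⟨by simpa using h1, by simpa using h2⟩

lemma norm_mul_u (hr : ∀ k, 0 ≤ r k) (hu : ∀ k, ‖u k‖ = 1) (k : Fin 14) :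
    ‖(r k : ℂ) * u k‖ = r k := by
  rw [norm_mul, hu, mul_one, Complex.norm_real, Real.norm_of_nonneg (hr k)]

lemma Sa_eq (hr : ∀ k, 0 ≤ r k) (hu : ∀ k, ‖u k‖ = 1) :
    Sa (fun k => r k * u k) = Um aB u * (Rm aB r - (∑ i, aB i * (1 - r i) : ℝ) *
      ∑ j, (bB j * (1 - r j) * Rm (n1 j) r : ℝ) * (xi u j)⁻¹) := by
  simp only [Sa, wt, mono_mul hu, norm_mul_u hr hu, Um_n1 hu]
  rw [mul_sub, mul_left_comm, Finset.mul_sum _ _ (Um aB u), mul_comm (Um aB u)]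
  congr 2
  refine Finset.sum_congr rfl fun j _ => ?_
  push_cast
  ring

lemma Sb_eq (hr : ∀ k, 0 ≤ r k) (hu : ∀ k, ‖u k‖ = 1) :
    Sb (fun k => r k * u k) = Um bB u * (Rm bB r - (∑ j, bB j * (1 - r j) : ℝ) *
      ∑ i, (aB i * (1 - r i) * Rm (n2 i) r : ℝ) * xi u i) := by
  simp only [Sb, wt, mono_mul hu, norm_mul_u hr hu, Um_n2 hu]
  rw [mul_sub, mul_left_comm, Finset.mul_sum _ _ (Um bB u), mul_comm (Um bB u)]
  congr 2
  refine Finset.sum_congr rfl fun j _ => ?_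
  push_cast
  ring

lemma unit_eq {x y : ℝ} {p : ℂ} (hy : 0 < y) (hx : 0 ≤ x) (hp : ‖p‖ = 1) (h : (x : ℂ) = y * p) :
    x = y ∧ p = 1 := by
  have h1 := congrArg norm h
  rw [norm_mul, hp, mul_one, Complex.norm_real, Complex.norm_real, Real.norm_of_nonneg hx,
    Real.norm_of_nonneg hy.le] at h1
  refine ⟨h1, mul_left_cancel₀ (Complex.ofReal_ne_zero.2 hy.ne') ?_⟩
  rw [← h, h1, mul_one]

lemma core {a a' b : ℝ} {p q q' : ℂ} (ha : 0 ≤ a ∧ a ≤ 1) (ha' : 0 ≤ a' ∧ a' ≤ 1)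
    (hb : 0 ≤ b ∧ b ≤ 1) (hp : ‖p‖ = 1) (hq : ‖q‖ = 1) (hqq : p = 1 → q' = q)
    (h1 : ((a * a' : ℝ) : ℂ) = ((1 - a) + (1 - a') : ℝ) * ((1 - b : ℝ) * p))
    (h2 : (b : ℂ) = (1 - b : ℝ) * (((1 - a) * a' : ℝ) * q + ((1 - a') * a : ℝ) * q')) :
    0 < a ∧ 0 < a' ∧ 0 < b ∧ p = 1 ∧ q = 1 := by
  have hb1 : b < 1 := lt_of_le_of_ne hb.2 fun h => by simp [h] at h2
  have hs : 0 < (1 - a) + (1 - a') := by
    by_contra h
    have e1 : a = 1 := by linarith [ha.2, ha'.2]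
    have e2 : a' = 1 := by linarith [ha.2, ha'.2]
    simp [e1, e2] at h1
  have h3 : 0 < ((1 - a) + (1 - a')) * (1 - b) := mul_pos hs (by linarith)
  obtain ⟨h4, h5⟩ := unit_eq h3 (mul_nonneg ha.1 ha'.1) hp (by rw [h1]; push_cast; ring)
  have h6 : 0 < a * a' := h4 ▸ h3
  have h7 : 0 < a := lt_of_le_of_ne ha.1 fun h => by simp [← h] at h6
  have h8 : 0 < a' := lt_of_le_of_ne ha'.1 fun h => by simp [← h] at h6
  have h9 : 0 < (1 - a) * a' + (1 - a') * a := by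
    rcases lt_or_ge a 1 with h | h
    · exact add_pos_of_pos_of_nonneg (mul_pos (by linarith) h8) (mul_nonneg (by linarith) ha.1)
    · exact add_pos_of_nonneg_of_pos (mul_nonneg (by linarith) ha'.1) (mul_pos (by linarith) h7)
  have h10 : 0 < (1 - b) * ((1 - a) * a' + (1 - a') * a) := mul_pos (by linarith) h9
  obtain ⟨h11, h12⟩ := unit_eq h10 hb.1 hq (by rw [h2, hqq h5]; push_cast; ring)
  exact ⟨h7, h8, h11 ▸ h10, h5, h12⟩

lemma prod3 {M : Type} [CommMonoid M] {x y z : Fin 14} (h1 : x ≠ y) (h2 : x ≠ z) (h3 : y ≠ z)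
    {f : Fin 14 → M} (h : ∀ k, k ≠ x → k ≠ y → k ≠ z → f k = 1) : ∏ k, f k = f x * f y * f z := by
  rw [← Finset.prod_subset (Finset.subset_univ {x, y, z}) fun k _ hk => by
    simp only [Finset.mem_insert, Finset.mem_singleton, not_or] at hk
    exact h k hk.1 hk.2.1 hk.2.2, Finset.prod_insert (by simp [h1, h2]), Finset.prod_pair h3,
    mul_assoc]

lemma sum3 {M : Type} [AddCommMonoid M] {x y z : Fin 14} (h1 : x ≠ y) (h2 : x ≠ z) (h3 : y ≠ z)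
    {f : Fin 14 → M} (h : ∀ k, k ≠ x → k ≠ y → k ≠ z → f k = 0) : ∑ k, f k = f x + f y + f z := by
  rw [← Finset.sum_subset (Finset.subset_univ {x, y, z}) fun k _ hk => by
    simp only [Finset.mem_insert, Finset.mem_singleton, not_or] at hk
    exact h k hk.1 hk.2.1 hk.2.2, Finset.sum_insert (by simp [h1, h2]), Finset.sum_pair h3,
    add_assoc]

lemma shapes : ∀ s ∈ LB, (s.e 0 ≠ s.e 1 ∧ s.e 0 ≠ s.e 2 ∧ s.e 1 ≠ s.e 2) ∧
    ((bB (s.e 0) = 0 ∧ bB (s.e 1) = 0 ∧ bB (s.e 2) = 0) ∨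
    (aB (s.e 0) = 0 ∧ aB (s.e 1) = 0 ∧ aB (s.e 2) = 0) ∨
    (aB (s.e 0) = 1 ∧ bB (s.e 0) = 0 ∧ aB (s.e 2) = 0 ∧ bB (s.e 2) = 1 ∧ dt (s.e 0) (s.e 2) = 1 ∧
      dt (s.e 0) (s.e 1) = 1 ∧ dt (s.e 1) (s.e 0) = -1 ∧ dt (s.e 1) (s.e 2) = 1 ∧
      dt (s.e 2) (s.e 1) = -1) ∧
    ((aB (s.e 1) = 1 ∧ bB (s.e 1) = 0 ∧ vB (s.e 1) 0 = vB (s.e 0) 0 + vB (s.e 2) 0 ∧
      vB (s.e 1) 1 = vB (s.e 0) 1 + vB (s.e 2) 1) ∨
    (aB (s.e 1) = 0 ∧ bB (s.e 1) = 1 ∧ vB (s.e 1) 0 = vB (s.e 0) 0 + vB (s.e 2) 0 ∧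
      vB (s.e 1) 1 = vB (s.e 0) 1 + vB (s.e 2) 1))) := by
  decide +kernel

lemma dt_self (i : Fin 14) : dt i i = 0 := by rw [dt]; ring

lemma phases (hr : ∀ k, 0 ≤ r k ∧ r k ≤ 1) (hu : ∀ k, ‖u k‖ = 1)
    (h2 : ∃ s ∈ LB, ∀ k ∉ s.cone, r k = 1) (ha : Sa (fun k => r k * u k) = 0)
    (hb : Sb (fun k => r k * u k) = 0) :
    (∀ k, 0 < r k) ∧ Um (fun k => vB k 0) u = 1 ∧ Um (fun k => vB k 1) u = 1 := by
  obtain ⟨s, hs, h2⟩ := h2
  obtain ⟨⟨d1, d2, d3⟩, hsh⟩ := shapes s hs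
  have h3 : ∀ k, k ≠ s.e 0 → k ≠ s.e 1 → k ≠ s.e 2 → r k = 1 := fun k a b c => h2 k fun hk => by
    obtain ⟨t, -, rfl⟩ := Finset.mem_image.1 hk
    fin_cases t
    exacts [a rfl, b rfl, c rfl]
  generalize s.e 0 = x at *
  generalize s.e 1 = y at *
  generalize s.e 2 = z at *
  have hR : ∀ n, Rm n r = r x ^ (n x).natAbs * r y ^ (n y).natAbs * r z ^ (n z).natAbs := fun n =>
    prod3 d1 d2 d3 fun k a b c => by rw [h3 k a b c, one_pow]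
  rw [Sa_eq (fun k => (hr k).1) hu, mul_eq_zero, or_iff_right (Um_ne hu _), sub_eq_zero,
    sum3 d1 d2 d3 fun k a b c => by rw [h3 k a b c, sub_self, mul_zero],
    sum3 d1 d2 d3 fun k a b c => by rw [h3 k a b c, sub_self]; simp] at ha
  rw [Sb_eq (fun k => (hr k).1) hu, mul_eq_zero, or_iff_right (Um_ne hu _), sub_eq_zero,
    sum3 d1 d2 d3 fun k a b c => by rw [h3 k a b c, sub_self, mul_zero],
    sum3 d1 d2 d3 fun k a b c => by rw [h3 k a b c, sub_self]; simp] at hb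
  have fin : 0 < r x → 0 < r y → 0 < r z → ∀ k, 0 < r k := fun a b c k => by
    by_cases e1 : k = x
    · rwa [e1]
    by_cases e2 : k = y
    · rwa [e2]
    by_cases e3 : k = z
    · rwa [e3]
    rw [h3 k e1 e2 e3]
    exact one_pos
  simp only [hR, n1, n2] at ha hb
  rcases hsh with ⟨b1, b2, b3⟩ | ⟨a1, a2, a3⟩ | ⟨⟨a1, b1, a3, b3, e1, e2, e3, e4, e5⟩,
    ⟨a2, b2, v0, v1⟩ | ⟨a2, b2, v0, v1⟩⟩
  · simp [b1, b2, b3] at hb
  · simp [a1, a2, a3] at ha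
  · simp only [a1, a2, a3, b1, b2, b3, e1, e2, e3, e4, dt_self] at ha hb
    obtain ⟨c1, c2, c3, c4, c5⟩ := core (hr x) (hr y) (hr z) (p := (xi u z)⁻¹) (q := xi u x)
      (q' := xi u y) (by rw [norm_inv, norm_xi hu, inv_one]) (norm_xi hu x)
      (fun h => by rw [xi_add hu v0 v1, inv_eq_one.1 h, mul_one]) (by simpa using ha)
      (by simpa using hb)
    exact ⟨fin c1 c2 c3, XY_one hu e1 c5 (inv_eq_one.1 c4)⟩
  · simp only [a1, a2, a3, b1, b2, b3, e1, e2, e4, e5, dt_self] at ha hb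
    obtain ⟨c1, c2, c3, c4, c5⟩ := core (hr z) (hr y) (hr x) (p := xi u x) (q := (xi u z)⁻¹)
      (q' := (xi u y)⁻¹) (norm_xi hu x) (by rw [norm_inv, norm_xi hu, inv_one])
      (fun h => by rw [xi_add hu v0 v1, h, one_mul]) (by simpa [add_comm, mul_comm] using hb)
      (by simpa [add_comm] using ha)
    exact ⟨fin c3 c2 c1, XY_one hu e1 c4 (inv_eq_one.1 c5)⟩

lemma mon_eq {c : Fin 14 → ℝ} (m : Fin 3 → ℤ) :
    FB.mon m (fun k => (Real.exp (-c k) : ℝ) * u k) =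
      (Real.exp (-∑ k, ((∑ t, m t * vB k t : ℤ) : ℝ) * c k) : ℝ) *
        Um (fun k => ∑ t, m t * vB k t) u := by
  rw [← Finset.sum_neg_distrib, Real.exp_sum, Complex.ofReal_prod, Um, ← Finset.prod_mul_distrib]
  refine Finset.prod_congr rfl fun k _ => ?_
  rw [mul_zpow, ← Complex.ofReal_zpow, ← Real.rpow_intCast, ← Real.exp_mul]
  congr 3
  exact (mul_comm _ _).trans (mul_neg _ _)

lemma abs_le_ht {c : Fin 14 → ℝ} (hc : ∀ k, 0 ≤ c k) (n : Fin 14 → ℤ) (b : ℤ)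
    (h : ∀ k, |n k| ≤ b * (aB k + bB k)) :
    |∑ k, (n k : ℝ) * c k| ≤ b * (ht aB c + ht bB c) := by
  rw [ht, ht, ← Finset.sum_add_distrib, Finset.mul_sum]
  refine (Finset.abs_sum_le_sum_abs _ _).trans (Finset.sum_le_sum fun k _ => ?_)
  rw [abs_mul, abs_of_nonneg (hc k), ← add_mul, ← mul_assoc]
  exact mul_le_mul_of_nonneg_right (by exact_mod_cast h k) (hc k)

end Zero

theorem zero_box {w : Fin 14 → ℂ} (h1 : ∀ k, ‖w k‖ ≤ 1) (h2 : ∃ s ∈ LB, ∀ k ∉ s.cone, ‖w k‖ = 1)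
    (ha : Sa w = 0) (hb : Sb w = 0) : (∀ k, w k ≠ 0) ∧ coB w ∈ Bx := by
  have hex : ∀ k, ∃ u : ℂ, ‖u‖ = 1 ∧ w k = (‖w k‖ : ℝ) * u := fun k =>
    ⟨Complex.exp ((w k).arg * Complex.I), Complex.norm_exp_ofReal_mul_I _,
      (Complex.norm_mul_exp_arg_mul_I _).symm⟩
  choose u hu hw using hex
  have hw' : w = fun k => ((‖w k‖ : ℝ) : ℂ) * u k := funext hw
  obtain ⟨hpos, hX, hY⟩ := Zero.phases (r := fun k => ‖w k‖) (fun k => ⟨norm_nonneg _, h1 k⟩) hu h2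
    (hw' ▸ ha) (hw' ▸ hb)
  refine ⟨fun k => norm_pos_iff.1 (hpos k), ?_⟩
  set c : Fin 14 → ℝ := fun k => -Real.log ‖w k‖ with hc
  have hc0 : ∀ k, 0 ≤ c k := fun k => neg_nonneg.2 (Real.log_nonpos (norm_nonneg _) (h1 k))
  have hr : ∀ k, Real.exp (-c k) = ‖w k‖ := fun k => by rw [hc, neg_neg, Real.exp_log (hpos k)]
  have hcn : Cn c := ⟨hc0, h2.imp fun s hs => ⟨hs.1, fun k hk => by simp [hc, hs.2 k hk]⟩⟩
  have hxi : ∀ i, Zero.xi u i = 1 := fun i => by simp [Zero.xi, hX, hY]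
  have he : ex c 0 = fun k => ((‖w k‖ : ℝ) : ℂ) * (fun _ => (1 : ℂ)) k := by
    funext k
    simp [ex, ← hr]
  have hxi1 : ∀ i, Zero.xi (fun _ => 1) i = 1 := fun i => by simp [Zero.xi, Zero.Um]
  have hG : G1 c 0 = 0 := by
    rw [hw', Zero.Sa_eq (fun k => norm_nonneg _) hu, mul_eq_zero,
      or_iff_right (Zero.Um_ne hu _)] at ha
    rw [hw', Zero.Sb_eq (fun k => norm_nonneg _) hu, mul_eq_zero,
      or_iff_right (Zero.Um_ne hu _)] at hb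
    simp only [hxi] at ha hb
    rw [G1, he, Zero.Sa_eq (fun k => norm_nonneg _) fun _ => norm_one,
      Zero.Sb_eq (fun k => norm_nonneg _) fun _ => norm_one]
    simp only [hxi1, ha, hb, mul_zero]
    funext t
    fin_cases t <;> rfl
  obtain ⟨hA, hB⟩ := ineq_re hcn (s := 0) ⟨le_rfl, zero_le_one⟩ (by simp [hG])
  have hw2 : w = fun k => ((Real.exp (-c k) : ℝ) : ℂ) * u k := by simpa only [hr] using hw'
  have b1 := abs_le.1 (Zero.abs_le_ht hc0 (fun k => ∑ t, ![1, 0, 0] t * vB k t) 1 (by decide))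
  have b2 := abs_le.1 (Zero.abs_le_ht hc0 (fun k => ∑ t, ![0, 1, 0] t * vB k t) 1 (by decide))
  have b3 := abs_le.1 (Zero.abs_le_ht hc0 (fun k => ∑ t, ![-1, -1, 1] t * vB k t) 3 (by decide))
  have e1 : (fun k => ∑ t, ![1, 0, 0] t * vB k t) = fun k => vB k 0 := by decide
  have e2 : (fun k => ∑ t, ![0, 1, 0] t * vB k t) = fun k => vB k 1 := by decide
  rw [Int.cast_one] at b1 b2
  rw [Int.cast_ofNat] at b3
  rw [hw2, coB, Zero.mon_eq, Zero.mon_eq, Zero.mon_eq, e1, e2, hX, hY, mul_one, mul_one, norm_mul,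
    Zero.norm_Um hu, mul_one, Complex.norm_real, Real.norm_of_nonneg (Real.exp_pos _).le]
  refine ⟨⟨Complex.ofReal_im _, ?_, ?_⟩, ⟨Complex.ofReal_im _, ?_, ?_⟩, ?_, ?_⟩ <;>
    simp only [Complex.ofReal_re] <;> refine Real.exp_le_exp.2 ?_ <;> linarith [b1.1, b1.2, b2.1,
      b2.2, b3.1, b3.2]

end Pool.Agent.Lib.MP_bf05b2_gt
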