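import Pool.Agent.Lib.MP_bf05b2_gt.H57NH

/-! Multiplicative correspondences of cocycles and towers of projective line bundles. -/

set_option linter.unusedSectionVars false

namespace Pool.Agent.Lib.MP_bf05b2_gt

open Set Finsupp Pool.Agent.Shared.Sing Pool.Agent.Shared.SingEZ

variable {B B' X Y : Type} [TopologicalSpace B] [Nonempty B] [TopologicalSpace B'] [Nonempty B']
  [TopologicalSpace X] [Nonempty X] [TopologicalSpace Y] [Nonempty Y]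

/-- A multiplicative correspondence between the cocycles of two spaces. -/
structure Cor (S : ℕ → Submodule ℤ (Cc ℤ X × Cc ℤ Y)) : Prop where
  cy : ∀ k, ∀ v ∈ S k, Cy {univ} ∅ k v.1 ∧ Cy {univ} ∅ k v.2
  left : ∀ k φ, Cy {univ} ∅ k φ → ∃ ψ, (φ, ψ) ∈ S k
  right : ∀ k ψ, Cy {univ} ∅ k ψ → ∃ φ, (φ, ψ) ∈ S k
  ker : ∀ k, ∀ v ∈ S k, Bo {univ} ∅ k v.1 ↔ Bo {univ} ∅ k v.2
  mul : ∀ p q n, p + q = n → ∀ v ∈ S p, ∀ w ∈ S q, (cup p v.1 w.1, cup p v.2 w.2) ∈ S n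

namespace Cora

open LHa
open Pool.Agent.Sing (Coh cocyc ccl)

variable {S : ℕ → Submodule ℤ (Cc ℤ X × Cc ℤ Y)}

/-- The class of the first component. -/
noncomputable def c1 (h : Cor S) (k : ℕ) : S k →ₗ[ℤ] cocyc ℤ X k where
  toFun v := ⟨v.1.1 ∘ₗ br ℤ k, cy_iff.1 (h.cy k _ v.2).1⟩
  map_add' v w := Subtype.ext (by
    simp only [Submodule.coe_add, Prod.fst_add, LinearMap.add_comp])
  map_smul' r v := Subtype.ext (by
    simp only [Submodule.coe_smul, Prod.smul_fst, RingHom.id_apply, LinearMap.smul_comp])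

/-- The class of the second component. -/
noncomputable def c2 (h : Cor S) (k : ℕ) : S k →ₗ[ℤ] cocyc ℤ Y k where
  toFun v := ⟨v.1.2 ∘ₗ br ℤ k, cy_iff.1 (h.cy k _ v.2).2⟩
  map_add' v w := Subtype.ext (by
    simp only [Submodule.coe_add, Prod.snd_add, LinearMap.add_comp])
  map_smul' r v := Subtype.ext (by
    simp only [Submodule.coe_smul, Prod.smul_snd, RingHom.id_apply, LinearMap.smul_comp])

lemma surj1 (h : Cor S) (k : ℕ) : Function.Surjective (c1 h k) := fun c => by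
  obtain ⟨ψ, hψ⟩ := h.left k _ (cy_rb c)
  exact ⟨⟨_, hψ⟩, Subtype.ext (comp_rb_comp_br _)⟩

lemma surj2 (h : Cor S) (k : ℕ) : Function.Surjective (c2 h k) := fun c => by
  obtain ⟨ψ, hψ⟩ := h.right k _ (cy_rb c)
  exact ⟨⟨_, hψ⟩, Subtype.ext (comp_rb_comp_br _)⟩

end Cora

open Pool.Agent.Sing (Coh cocyc ccl) in
theorem Cor.ringIso {S : ℕ → Submodule ℤ (Cc ℤ X × Cc ℤ Y)} (h : Cor S) : RingIso X Y := by
  choose e he using fun k => LHa.exists_equiv (ccl ℤ X k ∘ₗ Cora.c1 h k) (ccl ℤ Y k ∘ₗ Cora.c2 h k)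
    ((Pool.Agent.Sing.ccl_surjective k).comp (Cora.surj1 h k))
    ((Pool.Agent.Sing.ccl_surjective k).comp (Cora.surj2 h k))
    (Submodule.ext fun v => by
      rw [LinearMap.mem_ker, LinearMap.mem_ker, LinearMap.comp_apply, LinearMap.comp_apply,
        Pool.Agent.Sing.ccl_eq_zero, Pool.Agent.Sing.ccl_eq_zero]
      exact LHa.bo_iff.symm.trans ((h.ker k _ v.2).trans LHa.bo_iff))
  refine ⟨fun n => (e n).toAddEquiv, ?_⟩
  rintro p q x y z ⟨a, b, ⟨ha, rfl⟩, ⟨hb, rfl⟩, hc, rfl⟩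
  obtain ⟨v, hv⟩ := Cora.surj1 h p ⟨a, ha⟩
  obtain ⟨w, hw⟩ := Cora.surj1 h q ⟨b, hb⟩
  let u : S (p + q) := ⟨_, h.mul p q _ rfl _ v.2 _ w.2⟩
  have e1 : (Cora.c1 h _ u).1 = Pool.Agent.Sing.cup rfl a b := by
    have h1 : a = v.1.1 ∘ₗ br ℤ p := (congrArg Subtype.val hv).symm
    have h2 : b = w.1.1 ∘ₗ br ℤ q := (congrArg Subtype.val hw).symm
    rw [h1, h2, cup_comp_br rfl]
    rfl
  have e2 : (Cora.c2 h _ u).1 = Pool.Agent.Sing.cup rfl (Cora.c2 h p v).1 (Cora.c2 h q w).1 :=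
    (cup_comp_br rfl _ _).symm
  have e3 : (⟨_, hc⟩ : cocyc ℤ X (p + q)) = Cora.c1 h _ u := Subtype.ext e1.symm
  refine ⟨(Cora.c2 h p v).1, (Cora.c2 h q w).1,
    ⟨(Cora.c2 h p v).2, (he p v).symm.trans (congrArg (fun c => e p (ccl ℤ X p c)) hv)⟩,
    ⟨(Cora.c2 h q w).2, (he q w).symm.trans (congrArg (fun c => e q (ccl ℤ X q c)) hw)⟩,
    e2 ▸ (Cora.c2 h _ u).2, ?_⟩
  have e4 : ∀ hm, (⟨Pool.Agent.Sing.cup rfl (Cora.c2 h p v).1 (Cora.c2 h q w).1, hm⟩ :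
      cocyc ℤ Y (p + q)) = Cora.c2 h _ u := fun _ => Subtype.ext e2.symm
  exact (congrArg (ccl ℤ Y _) (e4 _)).trans ((he _ u).symm.trans
    (congrArg (fun c => e _ (ccl ℤ X _ c)) e3.symm))

variable (X) in
/-- Pairs of cohomologous cocycles. -/
def diagS (k : ℕ) : Submodule ℤ (Cc ℤ X × Cc ℤ X) where
  carrier := {v | Cy {univ} ∅ k v.1 ∧ Cy {univ} ∅ k v.2 ∧ Bo {univ} ∅ k (v.1 - v.2)}
  add_mem' h h' := ⟨h.1.add h'.1, h.2.1.add h'.2.1, by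
    have := h.2.2.add h'.2.2
    rwa [Prod.fst_add, Prod.snd_add, add_sub_add_comm]⟩
  zero_mem' := ⟨Cy.zero, Cy.zero, by simpa using Bo.zero⟩
  smul_mem' r _ h := ⟨h.1.smul r, h.2.1.smul r, by
    have := h.2.2.smul r
    rwa [Prod.smul_fst, Prod.smul_snd, ← smul_sub]⟩

theorem cor_diag : Cor (diagS X) where
  cy _ _ h := ⟨h.1, h.2.1⟩
  left _ φ h := ⟨φ, h, h, by simpa using Bo.zero⟩
  right _ φ h := ⟨φ, h, h, by simpa using Bo.zero⟩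
  ker _ _ h := ⟨fun h1 => h.2.2.symm.of_sub h1, fun h1 => h.2.2.of_sub h1⟩
  mul _ _ _ e _ h _ h' := ⟨LHa.cy_mul e h.1 h'.1, LHa.cy_mul e h.2.1 h'.2.1,
    NHa.mul_congr e h.1 h'.2.1 h.2.2 h'.2.2⟩

/-- The correspondence between two projective line bundles. -/
def upS (S : ℕ → Submodule ℤ (Cc ℤ B × Cc ℤ B')) (π : X → B) (π' : Y → B') (ζ : Cc ℤ X)
    (ζ' : Cc ℤ Y) (k : ℕ) : Submodule ℤ (Cc ℤ X × Cc ℤ Y) where
  carrier := {v | Cy {univ} ∅ k v.1 ∧ Cy {univ} ∅ k v.2 ∧ ∃ α ∈ S k, ∃ γ ∈ S (k - 2),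
    (k < 2 → γ = 0) ∧ Bo {univ} ∅ k (v.1 - (pb π α.1 + cup 2 ζ (pb π γ.1))) ∧
      Bo {univ} ∅ k (v.2 - (pb π' α.2 + cup 2 ζ' (pb π' γ.2)))}
  add_mem' := by
    rintro v w ⟨a1, a2, α, hα, γ, hγ, a3, a4, a5⟩ ⟨b1, b2, α', hα', γ', hγ', b3, b4, b5⟩
    refine ⟨a1.add b1, a2.add b2, _, add_mem hα hα', _, add_mem hγ hγ',
      fun h => by rw [a3 h, b3 h, add_zero], ?_, ?_⟩
    · convert a4.add b4 using 1
      simp only [Prod.fst_add, pb_add, cup_add_right]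
      abel
    · convert a5.add b5 using 1
      simp only [Prod.snd_add, pb_add, cup_add_right]
      abel
  zero_mem' := ⟨Cy.zero, Cy.zero, 0, zero_mem _, 0, zero_mem _, fun _ => rfl,
    by simpa [pb_zero, cup_zero_right] using Bo.zero,
    by simpa [pb_zero, cup_zero_right] using Bo.zero⟩
  smul_mem' := by
    rintro r v ⟨a1, a2, α, hα, γ, hγ, a3, a4, a5⟩
    refine ⟨a1.smul r, a2.smul r, _, Submodule.smul_mem _ r hα, _, Submodule.smul_mem _ r hγ,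
      fun h => by rw [a3 h, smul_zero], ?_, ?_⟩
    · convert a4.smul r using 1
      simp only [Prod.smul_fst, pb_smul, cup_smul_right, smul_sub, smul_add]
    · convert a5.smul r using 1
      simp only [Prod.smul_snd, pb_smul, cup_smul_right, smul_sub, smul_add]

namespace Cora

open LHa

variable {π : X → B} {ζ : Cc ℤ X}

lemma bo_iff' (h : LH π ζ) {k : ℕ} {φ : Cc ℤ X} {α γ : Cc ℤ B} (hα : Cy {univ} ∅ k α)
    (hγ : Cy {univ} ∅ (k - 2) γ) (h0 : k < 2 → γ = 0)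
    (hb : Bo {univ} ∅ k (φ - (pb π α + cup 2 ζ (pb π γ)))) :
    Bo {univ} ∅ k φ ↔ Bo {univ} ∅ k α ∧ Bo {univ} ∅ (k - 2) γ :=
  ⟨fun h1 => h.ind k _ _ hα hγ h0 (hb.symm.of_sub h1),
    fun h1 => hb.of_sub (bo_E h.cont h.cy h1.1 h1.2 h0)⟩

lemma mul_up (h : LH π ζ) (h2 : Bo {univ} ∅ 4 (cup 2 ζ ζ)) {p q : ℕ} {φ ψ : Cc ℤ X}
    {α γ α' γ' : Cc ℤ B} (hφ : Cy {univ} ∅ p φ) (hα : Cy {univ} ∅ p α)
    (hγ : Cy {univ} ∅ (p - 2) γ) (h0 : p < 2 → γ = 0) (hα' : Cy {univ} ∅ q α')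
    (hγ' : Cy {univ} ∅ (q - 2) γ') (h0' : q < 2 → γ' = 0)
    (hb : Bo {univ} ∅ p (φ - (pb π α + cup 2 ζ (pb π γ))))
    (hb' : Bo {univ} ∅ q (ψ - (pb π α' + cup 2 ζ (pb π γ')))) :
    Bo {univ} ∅ (p + q) (cup p φ ψ - (pb π (cup p α α') +
      cup 2 ζ (pb π (cup (p - 2) γ α' + cup p α γ')))) := by
  have P := PM.abs (T := {(univ : Set X)}) h.cont
  have f1 := NHa.mul_congr rfl hφ (cy_E h.cont h.cy hα' hγ' h0') hb hb'
  have f2 := mul_bo (a' := pb π α') h.cy h2 (hα.pull P) (hγ.pull P) (pb0 π h0) (hγ'.pull P)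
    (pb0 π h0')
  simpa only [pb_add, pb_cup h.cont] using f1.trans f2

end Cora

theorem Cor.up {S : ℕ → Submodule ℤ (Cc ℤ B × Cc ℤ B')} (hS : Cor S) {π : X → B} {π' : Y → B'}
    {ζ : Cc ℤ X} {ζ' : Cc ℤ Y} (h : LH π ζ) (h' : LH π' ζ') (h2 : Bo {univ} ∅ 4 (cup 2 ζ ζ))
    (h2' : Bo {univ} ∅ 4 (cup 2 ζ' ζ')) : Cor (upS S π π' ζ ζ') where
  cy _ _ hv := ⟨hv.1, hv.2.1⟩
  left k φ hφ := by
    obtain ⟨α, γ, c1, c2, c3, c4⟩ := h.span k φ hφ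
    obtain ⟨α', hα⟩ := hS.left k α c1
    obtain ⟨γ', hγ, c5⟩ : ∃ γ', (γ, γ') ∈ S (k - 2) ∧ (k < 2 → (γ, γ') = 0) := by
      rcases lt_or_ge k 2 with hk | hk
      · exact ⟨0, by rw [c3 hk]; exact zero_mem _, fun _ => by rw [c3 hk]; rfl⟩
      · obtain ⟨γ', hγ⟩ := hS.left _ γ c2
        exact ⟨γ', hγ, fun h => by omega⟩
    refine ⟨pb π' α' + cup 2 ζ' (pb π' γ'), hφ, LHa.cy_E h'.cont h'.cy (hS.cy _ _ hα).2
      (hS.cy _ _ hγ).2 fun hk => congrArg Prod.snd (c5 hk), _, hα, _, hγ, c5, c4, ?_⟩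
    simpa using Bo.zero
  right k φ hφ := by
    obtain ⟨α, γ, c1, c2, c3, c4⟩ := h'.span k φ hφ
    obtain ⟨α', hα⟩ := hS.right k α c1
    obtain ⟨γ', hγ, c5⟩ : ∃ γ', (γ', γ) ∈ S (k - 2) ∧ (k < 2 → (γ', γ) = 0) := by
      rcases lt_or_ge k 2 with hk | hk
      · exact ⟨0, by rw [c3 hk]; exact zero_mem _, fun _ => by rw [c3 hk]; rfl⟩
      · obtain ⟨γ', hγ⟩ := hS.right _ γ c2
        exact ⟨γ', hγ, fun h => by omega⟩
    refine ⟨pb π α' + cup 2 ζ (pb π γ'), LHa.cy_E h.cont h.cy (hS.cy _ _ hα).1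
      (hS.cy _ _ hγ).1 fun hk => congrArg Prod.fst (c5 hk), hφ, _, hα, _, hγ, c5, ?_, c4⟩
    simpa using Bo.zero
  ker k v := by
    rintro ⟨-, -, α, hα, γ, hγ, a3, a4, a5⟩
    rw [Cora.bo_iff' h (hS.cy _ _ hα).1 (hS.cy _ _ hγ).1 (fun hk => by rw [a3 hk]; rfl) a4,
      Cora.bo_iff' h' (hS.cy _ _ hα).2 (hS.cy _ _ hγ).2 (fun hk => by rw [a3 hk]; rfl) a5,
      hS.ker _ _ hα, hS.ker _ _ hγ]
  mul p q n e v := by
    subst e
    rintro ⟨a1, a2, α, hα, γ, hγ, a3, a4, a5⟩ w ⟨b1, b2, α', hα', γ', hγ', b3, b4, b5⟩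
    have m1 : (cup (p - 2) γ.1 α'.1, cup (p - 2) γ.2 α'.2) ∈ S (p + q - 2) := by
      rcases lt_or_ge p 2 with hp | hp
      · simp only [a3 hp, Prod.fst_zero, Prod.snd_zero, cup_zero_left]
        exact zero_mem _
      · exact hS.mul _ _ _ (by omega) _ hγ _ hα'
    have m2 : (cup p α.1 γ'.1, cup p α.2 γ'.2) ∈ S (p + q - 2) := by
      rcases lt_or_ge q 2 with hq | hq
      · simp only [b3 hq, Prod.fst_zero, Prod.snd_zero, cup_zero_right]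
        exact zero_mem _
      · exact hS.mul _ _ _ (by omega) _ hα _ hγ'
    refine ⟨LHa.cy_mul rfl a1 b1, LHa.cy_mul rfl a2 b2, _, hS.mul _ _ _ rfl _ hα _ hα', _,
      add_mem m1 m2, fun hk => ?_, ?_, ?_⟩
    · simp only [a3 (by omega), b3 (by omega), Prod.fst_zero, Prod.snd_zero, cup_zero_left,
        cup_zero_right, Prod.mk_zero_zero, add_zero]
    · exact Cora.mul_up h h2 a1 (hS.cy _ _ hα).1 (hS.cy _ _ hγ).1 (fun hk => by rw [a3 hk]; rfl)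
        (hS.cy _ _ hα').1 (hS.cy _ _ hγ').1 (fun hk => by rw [b3 hk]; rfl) a4 b4
    · exact Cora.mul_up h' h2' a2 (hS.cy _ _ hα).2 (hS.cy _ _ hγ).2 (fun hk => by rw [a3 hk]; rfl)
        (hS.cy _ _ hα').2 (hS.cy _ _ hγ').2 (fun hk => by rw [b3 hk]; rfl) a5 b5

end Pool.Agent.Lib.MP_bf05b2_gt
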