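import Pool.Agent.Lib.MP_bf05b2_gt.H75Cor

/-! Classes of square zero in towers of projective line bundles. -/

set_option linter.unusedSectionVars false

namespace Pool.Agent.Lib.MP_bf05b2_gt

open Set Finsupp Pool.Agent.Shared.Sing Pool.Agent.Shared.SingEZ

variable {B X Y : Type} [TopologicalSpace B] [Nonempty B] [TopologicalSpace X] [Nonempty X]
  [TopologicalSpace Y] [Nonempty Y]

/-- The classes of square zero are the multiples of the independent classes `w 0, ..., w m`. -/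
structure Lv (m : ℕ) (w : ℕ → Cc ℤ X) : Prop where
  cy : ∀ j, Cy {univ} ∅ 2 (w j)
  sq : ∀ j, Bo {univ} ∅ 4 (cup 2 (w j) (w j))
  zero : ∀ φ : Cc ℤ X, Cy {univ} ∅ 2 φ → Bo {univ} ∅ 4 (cup 2 φ φ) →
    ∃ j ≤ m, ∃ n : ℤ, Bo {univ} ∅ 2 (φ - n • w j)
  ind : ∀ j ≤ m, ∀ k ≤ m, ∀ n : ℤ, Bo {univ} ∅ 2 (w k - n • w j) → j = k ∧ n = 1
  h0 : ∀ φ : Cc ℤ X, Cy {univ} ∅ 0 φ → ∃ n : ℤ, Bo {univ} ∅ 0 (φ - n • e1)
  tors : ∀ (n : ℤ) (φ : Cc ℤ X), n ≠ 0 → Cy {univ} ∅ 2 φ → Bo {univ} ∅ 2 (n • φ) →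
    Bo {univ} ∅ 2 φ

namespace Lva

open LHa NHa

variable {π : X → B} {ζ : Cc ℤ X}

lemma e1_ind {n : ℤ} (h : Bo {univ} ∅ 0 (n • (e1 : Cc ℤ X))) : n = 0 := by
  have h1 := bo_zero.1 h (pt ℤ (Classical.arbitrary X))
    (In_le_Ch' (mem_singleton _) (pt_In (mem_univ _)))
  simpa [e1_pt] using h1

/-- Independence in degree two. -/
lemma ind2 (h : LH π ζ) {α : Cc ℤ B} {n : ℤ} (hα : Cy {univ} ∅ 2 α)
    (hb : Bo {univ} ∅ 2 (pb π α + n • ζ)) : Bo {univ} ∅ 2 α ∧ n = 0 := by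
  have h1 : Bo {univ} ∅ 2 (cup 2 ζ (pb π (n • e1)) - n • ζ) :=
    right_e1 h.cy (by simpa [pb_smul, pb_e1] using Bo.zero)
  have h2 := h.ind 2 α (n • e1) hα (cy_e1.smul n) (by omega) (by
    convert hb.add h1 using 1
    abel)
  exact ⟨h2.1, e1_ind h2.2⟩

/-- Generators in degree two. -/
lemma span2 (h : LH π ζ) (h0 : ∀ φ : Cc ℤ B, Cy {univ} ∅ 0 φ → ∃ n : ℤ, Bo {univ} ∅ 0 (φ - n • e1))
    {φ : Cc ℤ X} (hφ : Cy {univ} ∅ 2 φ) :
    ∃ (α : Cc ℤ B) (n : ℤ), Cy {univ} ∅ 2 α ∧ Bo {univ} ∅ 2 (φ - (pb π α + n • ζ)) := by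
  obtain ⟨α, γ, c1, c2, c3, c4⟩ := h.span 2 φ hφ
  obtain ⟨n, hn⟩ := h0 γ c2
  have e1' : Bo {univ} ∅ 2 (cup 2 ζ (pb π γ) - n • ζ) := by
    refine right_e1 h.cy ?_
    simpa only [pb_sub, pb_smul, pb_e1] using hn.pull (PM.abs (T := {(univ : Set X)}) h.cont)
  refine ⟨α, n, c1, ?_⟩
  convert c4.add e1' using 1
  abel

lemma sq2 (h : LH π ζ) (h2 : Bo {univ} ∅ 4 (cup 2 ζ ζ)) {φ : Cc ℤ X} {α : Cc ℤ B} {n : ℤ}
    (hφ : Cy {univ} ∅ 2 φ) (hα : Cy {univ} ∅ 2 α) (hb : Bo {univ} ∅ 2 (φ - (pb π α + n • ζ)))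
    (hs : Bo {univ} ∅ 4 (cup 2 φ φ)) :
    Bo {univ} ∅ 4 (cup 2 α α) ∧ Bo {univ} ∅ 2 ((2 * n) • α) := by
  have P := PM.abs (T := {(univ : Set X)}) h.cont
  have hu := hα.pull P
  have f1 := mul_congr (n := 4) rfl hφ (hu.add (h.cy.smul n)) hb hb
  have f2 : Bo {univ} ∅ 4 (cup 2 (pb π α) ζ - cup 2 ζ (pb π α)) := by
    have := cup_comm hu h.cy
    rwa [union_empty, pow_mul', neg_one_sq, one_pow, one_smul] at this
  refine h.ind 4 _ _ (cy_mul rfl hα hα) (hα.smul (2 * n)) (by omega) ?_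
  convert ((f1.symm.of_sub hs).sub (f2.smul n)).sub (h2.smul (n * n)) using 1
  simp only [pb_cup h.cont, pb_smul, cup_add_left, cup_add_right, cup_smul_left, cup_smul_right]
  module

end Lva

theorem Lv.up {m : ℕ} {w : ℕ → Cc ℤ B} (hw : Lv m w) {π : X → B} {ζ : Cc ℤ X} (h : LH π ζ)
    (h2 : Bo {univ} ∅ 4 (cup 2 ζ ζ)) :
    Lv (m + 1) (fun j => if j = m + 1 then ζ else pb π (w j)) := by
  have P := PM.abs (T := {(univ : Set X)}) h.cont
  refine ⟨fun j => ?_, fun j => ?_, fun φ hφ hs => ?_, fun j hj k hk n hb => ?_,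
    fun φ hφ => ?_, fun n φ hn hφ hb => ?_⟩
  · split_ifs
    exacts [h.cy, (hw.cy j).pull P]
  · split_ifs
    · exact h2
    · rw [← pb_cup h.cont]
      exact (hw.sq j).pull P
  · obtain ⟨α, n, c1, c2⟩ := Lva.span2 h hw.h0 hφ
    obtain ⟨g1, g2⟩ := Lva.sq2 h h2 hφ c1 c2 hs
    by_cases hn : n = 0
    · obtain ⟨j, hj, l, hl⟩ := hw.zero α c1 g1
      refine ⟨j, by omega, l, ?_⟩
      rw [if_neg (by omega)]
      convert c2.add (hl.pull P) using 1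
      rw [hn, pb_sub, pb_smul, zero_smul]
      abel
    · refine ⟨m + 1, le_rfl, n, ?_⟩
      rw [if_pos rfl]
      convert c2.add ((hw.tors _ α (by omega) c1 g2).pull P) using 1
      abel
  · by_cases e1 : j = m + 1 <;> by_cases e2 : k = m + 1
    · rw [if_pos e1, if_pos e2] at hb
      have := (Lva.ind2 h (α := 0) (n := 1 - n) Cy.zero (by
        convert hb using 1
        rw [pb_zero]
        module)).2
      omega
    · rw [if_pos e1, if_neg e2] at hb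
      have := (Lva.ind2 h (n := -n) (hw.cy k) (by
        convert hb using 1
        module)).1
      have := (hw.ind k (by omega) k (by omega) 0 (by simpa using this)).2
      omega
    · rw [if_neg e1, if_pos e2] at hb
      have := (Lva.ind2 h (n := 1) ((hw.cy j).smul (-n)) (by
        convert hb using 1
        rw [pb_smul]
        module)).2
      omega
    · rw [if_neg e1, if_neg e2] at hb
      exact hw.ind j (by omega) k (by omega) n (Lva.ind2 h (n := 0)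
        ((hw.cy k).sub ((hw.cy j).smul n)) (by simpa [pb_sub, pb_smul] using hb)).1
  · obtain ⟨α, γ, c1, c2, c3, c4⟩ := h.span 0 φ hφ
    obtain ⟨n, hn⟩ := hw.h0 α c1
    refine ⟨n, ?_⟩
    convert c4.add (hn.pull P) using 1
    rw [c3 (by omega), pb_zero, cup_zero_right, pb_sub, pb_smul, pb_e1]
    abel
  · obtain ⟨α, l, c1, c2⟩ := Lva.span2 h hw.h0 hφ
    obtain ⟨g1, g2⟩ := Lva.ind2 h (n := n * l) (c1.smul n) (by
      convert hb.sub (c2.smul n) using 1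
      rw [pb_smul]
      module)
    have hl : l = 0 := (mul_eq_zero.1 g2).resolve_left hn
    rw [hl, zero_smul, add_zero] at c2
    exact c2.of_sub ((hw.tors n α hn c1 g1).pull P)

theorem BaseOk.lv {a η : Cc ℤ B} (h : BaseOk a η) : Lv 0 fun _ => a where
  cy _ := h.cya
  sq _ := h.sq
  zero φ hφ hs := let ⟨n, hn⟩ := h.zero φ hφ hs; ⟨0, le_rfl, n, hn⟩
  ind j hj k hk n hb := ⟨by omega, by
    have h1 := LHa.bo_left (n := 6) rfl hb h.cyη
    have := h.ind (1 - n) (by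
      convert h1 using 1
      rw [cup_sub_left, cup_smul_left]
      module)
    omega⟩
  h0 := h.h0
  tors := h.tors

/-- A map with a homotopy section permutes the generators up to sign. -/
theorem Lv.perm {m : ℕ} {w : ℕ → Cc ℤ X} {w' : ℕ → Cc ℤ Y} (hX : Lv m w) (hY : Lv m w')
    {f : X → Y} {g : Y → X} {H : X × ℝ → X} (hf : Continuous f) (hg : Continuous g)
    (hH : Continuous H) (h0 : ∀ x, H (x, 0) = x) (h1 : ∀ x, H (x, 1) = g (f x)) :
    ∃ σ : ℕ → ℕ, Set.InjOn σ {k | k ≤ m} ∧ ∀ k ≤ m, σ k ≤ m ∧ ∃ n : ℤ, (n = 1 ∨ n = -1) ∧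
      Bo {univ} ∅ 2 (pb g (w k) - n • w' (σ k)) := by
  have Pf := PM.abs (T := {(univ : Set X)}) hf
  have Pg := PM.abs (T := {(univ : Set Y)}) hg
  choose σ hσ n hn using fun k => hY.zero _ ((hX.cy k).pull Pg) (by
    rw [← pb_cup hg]; exact (hX.sq k).pull Pg)
  choose τ hτ l hl using fun j => hX.zero _ ((hY.cy j).pull Pf) (by
    rw [← pb_cup hf]; exact (hY.sq j).pull Pf)
  have key : ∀ k ≤ m, τ (σ k) = k ∧ n k * l (σ k) = 1 := fun k hk => by
    refine hX.ind _ (hτ _) k hk _ ?_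
    have f1 := (hX.cy k).htp (H := H) (T := {univ}) (S := ∅) ⟨fun _ _ => hH.continuousOn,
      fun _ _ => hH.continuousOn, fun _ _ _ => ⟨_, rfl, mapsTo_univ _ _⟩, fun _ hU => hU.elim⟩
    rw [show (fun y => H (y, 1)) = g ∘ f from funext h1,
      show (fun y => H (y, 0)) = id from funext h0, pb_id, ← pb_pb hf] at f1
    convert (((hn k).pull Pf).sub f1).add ((hl (σ k)).smul (n k)) using 1
    rw [pb_sub, pb_smul]
    module
  refine ⟨σ, fun k hk k' hk' e => ?_, fun k hk => ⟨hσ k, n k,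
    Int.eq_one_or_neg_one_of_mul_eq_one (key k hk).2, hn k⟩⟩
  rw [← (key k hk).1, e, (key k' hk').1]

end Pool.Agent.Lib.MP_bf05b2_gt
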