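import Pool.Agent.Lib.MP_bf05b2_gt.H75Tow
import Pool.Agent.Lib.MP_bf05b2_gt.H24Glue

/-! Renaming the rays and the coordinates of a fan. -/

set_option linter.unusedSectionVars false

namespace Pool.Agent.Lib.MP_bf05b2_gt

open Set

namespace Fan

variable {ι κ ι' κ' : Type} [Fintype ι] [DecidableEq ι] [Fintype κ] [DecidableEq κ] [Fintype ι']
  [DecidableEq ι'] [Fintype κ'] [DecidableEq κ'] (F : Fan ι κ) (e : ι' ≃ ι) (d : κ' ≃ κ)

/-- The same fan with other names. -/
def re : Fan ι' κ' where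
  v i k := F.v (e i) (d k)
  K := {σ | σ.map e.toEmbedding ∈ F.K}
  zero_mem := by
    change Finset.map _ ∅ ∈ F.K
    rw [Finset.map_empty]
    exact F.zero_mem

variable {F e d}

lemma re_back {σ : Finset ι} (hσ : σ ∈ F.K) : σ.map e.symm.toEmbedding ∈ (F.re e d).K := by
  change Finset.map _ (Finset.map _ σ) ∈ F.K
  convert hσ using 1
  ext i
  simp

lemma re_cone {σ : Finset ι'} {x : κ' → ℝ} :
    x ∈ (F.re e d).cone σ ↔ x ∘ d.symm ∈ F.cone (σ.map e.toEmbedding) := by
  constructor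
  · rintro ⟨c, hc, rfl⟩
    exact ⟨c ∘ e.symm, fun i => hc _, funext fun k => by simp [re]⟩
  · rintro ⟨c, hc, h⟩
    exact ⟨c ∘ e, fun i => hc _, funext fun k => by simpa [re] using congrFun h (d k)⟩

lemma Sm.re (h : F.Sm) : (F.re e d).Sm := fun σ hσ => by
  obtain ⟨f, M, hc, h1⟩ := h _ hσ
  have e1 : (Finset.univ.image (e.symm ∘ f ∘ d)).map e.toEmbedding = Finset.univ.image f := by
    ext i
    simp only [Finset.mem_map_equiv, Finset.mem_image, Finset.mem_univ, true_and,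
      Function.comp_apply, EmbeddingLike.apply_eq_iff_eq]
    exact ⟨fun ⟨k, hk⟩ => ⟨_, hk⟩, fun ⟨k, hk⟩ => ⟨d.symm k, by simpa using hk⟩⟩
  refine ⟨e.symm ∘ f ∘ d, fun k j => M (d k) (d j), ⟨fun k l => ?_, ?_⟩, ?_⟩
  · have := hc.dual (d k) (d l)
    rw [← d.sum_comp] at this
    simpa [Fan.re] using this
  · change Finset.map _ _ ∈ F.K
    rw [e1]
    exact hc.mem
  · rw [← e1] at h1
    exact Finset.map_subset_map.1 h1

lemma IsSmoothComplete.re [Nonempty κ'] (h : F.IsSmoothComplete) (hs : F.Sm) :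
    (F.re e d).IsSmoothComplete where
  face σ hσ τ hτ := h.face _ hσ _ (Finset.map_subset_map.2 hτ)
  ray i := by
    change Finset.map _ _ ∈ F.K
    rw [Finset.map_singleton]
    exact h.ray _
  smooth := hs.re.smooth
  inter σ hσ τ hτ := by
    ext x
    rw [mem_inter_iff, re_cone, re_cone, re_cone, Finset.map_inter, ← h.inter _ hσ _ hτ]
    rfl
  complete x := by
    obtain ⟨σ, hσ, hx⟩ := h.complete (x ∘ d.symm)
    refine ⟨_, re_back hσ, re_cone.2 ?_⟩
    convert hx using 2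
    ext i
    simp

lemma re_U {z : ι' → ℂ} : z ∈ (F.re e d).U ↔ z ∘ e.symm ∈ F.U := by
  constructor
  · rintro ⟨σ, hσ, h⟩
    exact ⟨_, hσ, fun i hi => h _ (by simpa using hi)⟩
  · rintro ⟨σ, hσ, h⟩
    exact ⟨_, re_back hσ, fun i hi => by simpa using h (e i) (by simpa using hi)⟩

lemma re_G {g : ι' → ℂ} : g ∈ (F.re e d).G ↔ g ∘ e.symm ∈ F.G := by
  have e1 : ∀ k, ∏ i, (g ∘ e.symm) i ^ F.v i (d k) = ∏ i, g i ^ (F.re e d).v i k := fun k => by
    rw [← e.prod_comp]
    simp [re]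
  constructor
  · exact fun h => ⟨fun i => h.1 _, fun k => by
      rw [← d.apply_symm_apply k, e1]
      exact h.2 _⟩
  · exact fun h => ⟨fun i => by simpa using h.1 (e i), fun k => (e1 k).symm.trans (h.2 _)⟩

lemma re_isEq : IsEq F (F.re e d) (· ∘ e.symm) (· ∘ e.symm) where
  cont := (continuous_pi fun _ => continuous_apply _).continuousOn
  maps _ hz := re_U.1 hz
  mem _ hg := re_G.1 hg
  eqv _ _ _ _ := rfl

lemma re_isEq' : IsEq (F.re e d) F (· ∘ e) (· ∘ e) where
  cont := (continuous_pi fun _ => continuous_apply _).continuousOn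
  maps z hz := re_U.2 (by simpa [Function.comp_def] using hz)
  mem g hg := re_G.2 (by simpa [Function.comp_def] using hg)
  eqv _ _ _ _ := rfl

variable (F e d) in
/-- Renaming does not change the space. -/
noncomputable def reHomeo : (F.re e d).X ≃ₜ F.X where
  toFun := ind F (F.re e d) (· ∘ e.symm)
  invFun := ind (F.re e d) F (· ∘ e)
  left_inv x := by
    obtain ⟨z, hz, rfl⟩ := cl_surj x
    rw [re_isEq.ind_cl hz, re_isEq'.ind_cl (re_isEq.maps hz)]
    simp [Function.comp_def]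
  right_inv x := by
    obtain ⟨z, hz, rfl⟩ := cl_surj x
    rw [re_isEq'.ind_cl hz, re_isEq.ind_cl (re_isEq'.maps hz)]
    simp [Function.comp_def]
  continuous_toFun := re_isEq.continuous
  continuous_invFun := re_isEq'.continuous

end Fan

theorem many_types (m : ℕ) : ∃ F : Fin (m + 2) → Fan (Fin (2 * m + 16)) (Fin (m + 4)),
    (∀ a, (F a).IsSmoothComplete) ∧ (∀ a b, RingIso (F a).T (F b).T) ∧
      ∀ a b, a ≠ b → IsEmpty (ContinuousMap.HomotopyEquiv (F a).T (F b).T) := by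
  obtain ⟨ι, κ, _, _, _, _, F, b, h0, h1, h2, h3⟩ := tower (m + 1)
  choose w hw using h2
  let e : Fin (2 * m + 16) ≃ ι := (Fintype.equivFinOfCardEq (by omega)).symm
  let d : Fin (m + 4) ≃ κ := (Fintype.equivFinOfCardEq (by omega)).symm
  let ε : Fin (m + 2) → ℕ → Bool := fun a j => decide (a.1 < j)
  have hc : ∀ a, ((F (ε a)).re e d).IsSmoothComplete := fun a => (hw _).isc.re (hw _).sm
  have h4 : ∀ a, ((F (ε a)).re e d).T ≃ₜ (F (ε a)).X := fun a =>
    ((hw _).sm.re.homeo (hc a).face).trans (Fan.reHomeo _ e d)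
  refine ⟨fun a => (F (ε a)).re e d, hc, fun a a' => ?_, fun a a' hne => ⟨fun f => hne ?_⟩⟩
  · obtain ⟨S, hS⟩ := h3 (ε a) (ε a')
    exact ((ringIso_of_homeo (h4 a)).trans hS.ringIso).trans (ringIso_of_homeo (h4 a').symm)
  · have g := ((h4 a).symm.toHomotopyEquiv.trans f).trans (h4 a').toHomotopyEquiv
    exact Fin.ext (le_antisymm (St.le (by omega) (hw _) (hw _) g)
      (St.le (by omega) (hw _) (hw _) g.symm))

end Pool.Agent.Lib.MP_bf05b2_gt
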