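import Pool.Agent.Lib.MP_bf05b2_gt.H75Lv
import Pool.Agent.Lib.MP_bf05b2_gt.H57Fin

/-! Fibre products of trivial and twisted projective line bundles over the threefold. -/

set_option linter.unusedSectionVars false

namespace Pool.Agent.Lib.MP_bf05b2_gt

open Set Finsupp Pool.Agent.Shared.Sing Pool.Agent.Shared.SingEZ Sum Fan

variable {ι κ : Type} [Fintype ι] [DecidableEq ι] [Fintype κ] [DecidableEq κ] {F : Fan ι κ}

/-- The class `a` is not the pull back of two disjoint divisors. -/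
theorem no_map (hF : F.Sm) {f : FB.X → F.X} (hf : Continuous f) {i0 i1 : ι}
    (hc : ∀ x, x ∈ F.nz i0 ∨ x ∈ F.nz i1) {n : ℤ} (hn : n = 1 ∨ n = -1)
    (c0 : Bo {univ} ∅ 2 (pb f (F.tR ℤ i0) - n • aC ℤ))
    (c1 : Bo {univ} ∅ 2 (pb f (F.tR ℤ i1) - n • aC ℤ)) : False := by
  have ha : aC ℤ = ∑ i, aB i • FB.tR ℤ i := by simp [aC]
  rw [ha] at c0 c1
  obtain ⟨s0, s0c, s0n, s0e⟩ := good_FB.exists_fun hF hf i0 aB hn c0
  obtain ⟨s1, s1c, s1n, s1e⟩ := good_FB.exists_fun hF hf i1 aB hn c1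
  refine no_section (fun z => ![s0 z, s1 z]) ⟨?_, fun z hz h0 => ?_, fun g hg z hz => ?_⟩
  · refine continuousOn_pi.2 fun j => ?_
    fin_cases j
    · exact s0c
    · exact s1c
  · rcases hc (f (FB.cl z)) with h | h
    · exact s0n z hz h (congrFun h0 0)
    · exact s1n z hz h (congrFun h0 1)
  · ext j
    fin_cases j
    · exact s0e g hg z hz
    · exact s1e g hg z hz

namespace Tow

variable {h : ι → ℤ}

lemma isEq_sec : IsEq (F.pb1 h 0) F (fun z => Sum.elim z ![0, 1])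
    fun g => Sum.elim g ![(∏ i, g i ^ h i)⁻¹, 1] where
  cont := by
    refine Continuous.continuousOn (continuous_pi fun i => ?_)
    rcases i with i | i
    · exact continuous_apply i
    · exact continuous_const
  maps := fun z hz => mem_U_pb1.2 ⟨hz, Or.inr one_ne_zero⟩
  mem := fun g hg => by
    have h0 : ∏ i, g i ^ h i ≠ 0 := Finset.prod_ne_zero_iff.2 fun i _ => zpow_ne_zero _ (hg.1 i)
    refine mem_G_pb1.2 ⟨fun i => ?_, mul_inv_cancel₀ h0, fun k => by simpa using hg.2 k⟩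
    rcases i with i | i
    · exact hg.1 i
    · fin_cases i
      · exact inv_ne_zero h0
      · exact one_ne_zero
  eqv := fun g _ z _ => by
    ext i
    rcases i with i | i
    · rfl
    · fin_cases i <;> simp

lemma proj_sec (b : F.X) : F.proj h (ind (F.pb1 h 0) F (fun z => Sum.elim z ![0, 1]) b) = b := by
  obtain ⟨z, hz, rfl⟩ := cl_surj b
  rw [isEq_sec.ind_cl hz, proj, isEq_proj.ind_cl (isEq_sec.maps hz)]
  rfl

lemma nz_inl {x : (F.pb1 h 0).X} {i : ι} (hx : F.proj h x ∈ F.nz i) :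
    x ∈ (F.pb1 h 0).nz (inl i) := by
  obtain ⟨z, hz, rfl⟩ := cl_surj x
  rw [proj, isEq_proj.ind_cl hz, cl_mem_nz (isEq_proj.maps hz)] at hx
  exact (cl_mem_nz hz).2 hx

lemma sum_inl (hF : F.Sm) (hF' : (F.pb1 h 0).Sm) (b : ι → ℤ) : Bo {univ} ∅ 2
    (pb (F.proj h) (∑ i, b i • F.tR ℤ i) - ∑ i, b i • (F.pb1 h 0).tR ℤ (inl i)) := by
  rw [pb_sum, ← Finset.sum_sub_distrib]
  refine Bo.sum _ fun i _ => ?_
  rw [pb_smul, ← smul_sub]
  exact (isEq_proj.nat_one ℤ hF hF' i (inl i) fun _ _ => rfl).smul _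

variable {b : ι → ℤ} {a : Cc ℤ F.X} {c : ℤ}

lemma t0 (hF : F.Sm) (hF' : (F.pb1 h 0).Sm) (hh : ∀ i, h i = -c * b i)
    (two : Bo {univ} ∅ 2 (∑ i, b i • F.tR ℤ i - (2 : ℤ) • a)) :
    Bo {univ} ∅ 2 ((F.pb1 h 0).tR ℤ (inr 0) -
      ((F.pb1 h 0).tR ℤ (inr 1) + (2 * c) • pb (F.proj h) a)) := by
  have h1 := ring_lin hF'
  have h2 := (sum_inl hF hF' b).smul c
  have h3 := (two.pull (PM.abs (T := {univ}) (isEq_proj (F := F) (h := h)).continuous)).smul c
  have e : ∑ i, h i • (F.pb1 h 0).tR ℤ (inl i) = -c • ∑ i, b i • (F.pb1 h 0).tR ℤ (inl i) := by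
    rw [Finset.smul_sum]
    exact Finset.sum_congr rfl fun i _ => by rw [hh i, smul_smul]
  rw [e] at h1
  convert (h1.sub h2).add h3 using 1
  rw [pb_sub, pb_smul, proj]
  module

lemma sq (hF : F.Sm) (hF' : (F.pb1 h 0).Sm) (hh : ∀ i, h i = -c * b i)
    (two : Bo {univ} ∅ 2 (∑ i, b i • F.tR ℤ i - (2 : ℤ) • a)) (ha : Cy {univ} ∅ 2 a)
    (a2 : Bo {univ} ∅ 4 (cup 2 a a)) :
    Bo {univ} ∅ 4 (cup 2 ((F.pb1 h 0).tR ℤ (inr 1) + pb (F.proj h) (c • a))
      ((F.pb1 h 0).tR ℤ (inr 1) + pb (F.proj h) (c • a))) := by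
  have hc : Continuous (F.proj h) := isEq_proj.continuous
  have hA := ha.pull (PM.abs (T := {univ}) hc)
  have ht := hF'.cy' ℤ (inr 1)
  have h1 := (ring_sr hF').sub (LHa.bo_right (n := 4) rfl ht (t0 hF hF' hh two))
  have h2 : Bo {univ} ∅ 4 (cup 2 (pb (F.proj h) a) ((F.pb1 h 0).tR ℤ (inr 1)) -
      cup 2 ((F.pb1 h 0).tR ℤ (inr 1)) (pb (F.proj h) a)) := by
    have := cup_comm hA ht
    rwa [union_empty, pow_mul', neg_one_sq, one_pow, one_smul] at this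
  have h3 := a2.pull (PM.abs (T := {univ}) hc)
  rw [pb_cup hc] at h3
  convert (h1.add (h2.smul c)).add (h3.smul (c * c)) using 1
  simp only [pb_smul, cup_sub_right, cup_add_right, cup_add_left, cup_smul_left, cup_smul_right]
  module

end Tow

/-- A stage of the tower; `ε j` says that the bundle number `j` is twisted. -/
structure St (m : ℕ) (ε : ℕ → Bool) (F : Fan ι κ) (b : ι → ℤ) (w : ℕ → Cc ℤ F.X) : Prop where
  shl : ∃ L, F.Shl L
  isc : F.IsSmoothComplete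
  lv : Lv m w
  two : Bo {univ} ∅ 2 (∑ i, b i • F.tR ℤ i - (2 : ℤ) • w 0)
  sec : ∃ s : FB.X → F.X, Continuous s ∧ ∀ j ≤ m, (j = 0 ∨ ε j = true) →
    Bo {univ} ∅ 2 (pb s (w j) - aC ℤ)
  sph : ∀ j ≤ m, j ≠ 0 → ε j = false → ∃ i0 i1, (∀ x, x ∈ F.nz i0 ∨ x ∈ F.nz i1) ∧
    Bo {univ} ∅ 2 (F.tR ℤ i0 - w j) ∧ Bo {univ} ∅ 2 (F.tR ℤ i1 - w j)

theorem st_zero (ε : ℕ → Bool) : St 0 ε FB (fun _ => 1) fun _ => aC ℤ where
  shl := ⟨_, shl_FB⟩
  isc := isc_FB
  lv := baseOk.lv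
  two := by simpa using sum_all (R := ℤ)
  sec := ⟨id, continuous_id, fun _ _ _ => by simpa [pb_id] using Bo.zero⟩
  sph j hj h0 := absurd (by omega) h0

variable {m : ℕ} {ε ε' : ℕ → Bool} {b : ι → ℤ} {w : ℕ → Cc ℤ F.X}

lemma St.sm (h : St m ε F b w) : F.Sm := let ⟨_, hL⟩ := h.shl; hL.sm

theorem St.up (hS : St m ε F b w) {c : ℤ} (hc : c = if ε (m + 1) then 1 else 0) {h : ι → ℤ}
    (hh : ∀ i, h i = -c * b i) : ∃ ζ : Cc ℤ (F.pb1 h 0).X, LH (F.proj h) ζ ∧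
      Bo {univ} ∅ 4 (cup 2 ζ ζ) ∧ St (m + 1) ε (F.pb1 h 0) (Sum.elim b 0)
        fun j => if j = m + 1 then ζ else pb (F.proj h) (w j) := by
  obtain ⟨L, hL⟩ := hS.shl
  have hP := hL.pb1 (h := h) (w := 0) (Or.inr rfl)
  have hl := (hL.lh (h := h)).shift ((hS.lv.cy 0).smul c)
  have h2 := Tow.sq hL.sm hP.sm hh hS.two (hS.lv.cy 0) (hS.lv.sq 0)
  have P := PM.abs (T := {(univ : Set (F.pb1 h 0).X)}) hl.cont
  refine ⟨_, hl, h2, ⟨_, hP⟩, hS.isc.pb1 hP.sm, hS.lv.up hl h2, ?_, ?_, fun j hj h0 he => ?_⟩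
  · rw [if_neg (by omega), Fintype.sum_sum_type]
    convert (hS.two.pull P).sub (Tow.sum_inl hL.sm hP.sm b) using 1
    simp only [pb_sub, pb_smul, Sum.elim_inl, Sum.elim_inr, Pi.zero_apply, zero_smul,
      Finset.sum_const_zero]
    abel
  · obtain ⟨s, hs, h3⟩ := hS.sec
    have hσ := (Tow.isEq_sec (F := F) (h := h)).continuous
    have e : ∀ φ : Cc ℤ F.X, pb (ind (F.pb1 h 0) F (fun z => Sum.elim z ![0, 1]) ∘ s)
        (pb (F.proj h) φ) = pb s φ := fun φ => by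
      rw [pb_pb (hσ.comp hs)]
      exact congrArg (fun f => pb f φ) (funext fun x => Tow.proj_sec _)
    refine ⟨_, hσ.comp hs, fun j hj h0 => ?_⟩
    by_cases e1 : j = m + 1
    · have e2 : c = 1 := by rw [hc, ← e1, h0.resolve_left (by omega)]; rfl
      have h4 := (Tow.isEq_sec.nat_zero ℤ hP.sm hL.sm (inr 1) fun _ _ => rfl).pull
        (PM.abs (T := {univ}) hs)
      rw [pb_pb hs] at h4
      rw [if_pos e1, pb_add, e, e2, one_smul, add_sub_assoc]
      exact h4.add (h3 0 (by omega) (Or.inl rfl))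
    · rw [if_neg e1, e]
      exact h3 j (by omega) h0
  · by_cases e1 : j = m + 1
    · have e2 : c = 0 := by rw [hc, ← e1, he]; rfl
      have h4 := Tow.t0 hL.sm hP.sm hh hS.two
      rw [if_pos e1]
      refine ⟨inr 0, inr 1, ring_cover, ?_, ?_⟩
      · simpa [e2, pb_zero] using h4
      · simpa [e2, pb_zero] using Bo.zero
    · obtain ⟨i0, i1, h3, h4, h5⟩ := hS.sph j (by omega) h0 he
      rw [if_neg e1]
      refine ⟨inl i0, inl i1, fun x => (h3 _).imp Tow.nz_inl Tow.nz_inl, ?_, ?_⟩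
      · exact (isEq_proj.nat_one ℤ hL.sm hP.sm i0 (inl i0) fun _ _ => rfl).symm.trans (h4.pull P)
      · exact (isEq_proj.nat_one ℤ hL.sm hP.sm i1 (inl i1) fun _ _ => rfl).symm.trans (h5.pull P)

/-- The number of trivial bundles is a homotopy invariant. -/
theorem St.le {F' : Fan ι κ} {w' : ℕ → Cc ℤ F'.X} {p q : ℕ} (hp : p ≤ m)
    (hX : St m (fun j => decide (p < j)) F b w) (hY : St m (fun j => decide (q < j)) F' b w')
    (e : ContinuousMap.HomotopyEquiv F.X F'.X) : p ≤ q := by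
  obtain ⟨H0⟩ := e.left_inv
  have hH : Continuous fun p : F.X × ℝ => H0.symm (projIcc 0 1 zero_le_one p.2, p.1) :=
    H0.symm.continuous.comp ((continuous_projIcc.comp continuous_snd).prodMk continuous_fst)
  obtain ⟨σ, hσ, h1⟩ := hX.lv.perm hY.lv e.toFun.continuous e.invFun.continuous hH
    (fun x => by simp) fun x => by simp
  obtain ⟨s, hs, h2⟩ := hY.sec
  have key : ∀ k ∈ Finset.Icc 1 p, σ k ∈ Finset.Icc 1 q := fun k hk => by
    rw [Finset.mem_Icc] at hk ⊢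
    by_contra h3
    obtain ⟨h4, n, hn, h5⟩ := h1 k (by omega)
    obtain ⟨i0, i1, h6, h7, h8⟩ := hX.sph k (by omega) (by omega) (by simp; omega)
    have h9 := (h2 _ h4 (by simp; omega)).smul n
    have hg := e.invFun.continuous.comp hs
    have h10 : Bo {univ} ∅ 2 (pb (e.invFun ∘ s) (w k) - n • aC ℤ) := by
      have := h5.pull (PM.abs (T := {univ}) hs)
      rw [pb_sub, pb_pb hs, pb_smul] at this
      rw [smul_sub] at h9
      exact this.trans h9
    exact no_map hX.sm hg h6 hn ((h7.pull (PM.abs hg)).trans h10)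
      ((h8.pull (PM.abs hg)).trans h10)
  simpa using Finset.card_le_card_of_injOn σ key fun k hk k' hk' =>
    hσ (by simp at hk ⊢; omega) (by simp at hk' ⊢; omega)

theorem tower (m : ℕ) : ∃ (ι κ : Type) (_ : Fintype ι) (_ : DecidableEq ι) (_ : Fintype κ)
    (_ : DecidableEq κ) (F : (ℕ → Bool) → Fan ι κ) (b : ι → ℤ),
    Fintype.card ι = 2 * m + 14 ∧ Fintype.card κ = m + 3 ∧ (∀ ε, ∃ w, St m ε (F ε) b w) ∧
      ∀ ε ε', ∃ S : ℕ → Submodule ℤ (Cc ℤ (F ε).X × Cc ℤ (F ε').X), Cor S := by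
  induction m with
  | zero =>
    exact ⟨Fin 14, Fin 3, inferInstance, inferInstance, inferInstance, inferInstance,
      fun _ => FB, fun _ => 1, by simp, by simp, fun ε => ⟨_, st_zero ε⟩,
      fun _ _ => ⟨_, cor_diag⟩⟩
  | succ m ih =>
    obtain ⟨ι, κ, _, _, _, _, F, b, h0, h1, h2, h3⟩ := ih
    choose w hw using h2
    choose ζ z1 z2 z3 using fun ε => (hw ε).up rfl
      (h := fun i => -(if ε (m + 1) then 1 else 0) * b i) fun _ => rfl
    refine ⟨ι ⊕ Fin 2, Option κ, inferInstance, inferInstance, inferInstance, inferInstance,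
      fun ε => (F ε).pb1 (fun i => -(if ε (m + 1) then 1 else 0) * b i) 0, Sum.elim b 0,
      by simp [h0]; ring, by simp [h1], fun ε => ⟨_, z3 ε⟩, fun ε ε' => ?_⟩
    obtain ⟨S, hS⟩ := h3 ε ε'
    exact ⟨_, hS.up (z1 ε) (z1 ε') (z2 ε) (z2 ε')⟩

end Pool.Agent.Lib.MP_bf05b2_gt
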